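import Pool.Agent.BSS.Par0

/-!
MP_bff03b_an, part A2 (doc H/bff03b, section 6): the parameters and the master inequality (P).
-/

set_option autoImplicit false

open Filter

namespace Pool.Agent.BSS

namespace Par

/-! ### `N_k`, `n_k` -/

theorem NN_ge (k : ℕ) : 100 ≤ NN k := by
  unfold NN
  have : 1 ≤ 3 ^ Nat.log 4 k := Nat.one_le_pow _ _ (by norm_num)
  omega

theorem NN_pos (k : ℕ) : 0 < NN k := by have := NN_ge k; omega

theorem NN_geR (k : ℕ) : (100 : ℝ) ≤ NN k := by exact_mod_cast NN_ge k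

theorem NN_posR (k : ℕ) : (0 : ℝ) < NN k := by exact_mod_cast NN_pos k

theorem NN_mono : Monotone NN := by
  intro a b h
  unfold NN
  exact Nat.mul_le_mul_left _ (Nat.pow_le_pow_right (by norm_num) (Nat.log_mono_right h))

theorem NN_succ_le (k : ℕ) : NN (k + 1) ≤ 3 * NN k := by
  unfold NN
  have h : Nat.log 4 (k + 1) ≤ Nat.log 4 k + 1 := by
    rcases Nat.eq_zero_or_pos k with h0 | h0
    · subst h0; simp
    · have h1 : Nat.log 4 (k + 1) ≤ Nat.log 4 (k * 4) := Nat.log_mono_right (by omega)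
      rwa [Nat.log_mul_base (by norm_num) (by omega)] at h1
  calc 100 * 3 ^ Nat.log 4 (k + 1) ≤ 100 * 3 ^ (Nat.log 4 k + 1) :=
        Nat.mul_le_mul_left _ (Nat.pow_le_pow_right (by norm_num) h)
    _ = 3 * (100 * 3 ^ Nat.log 4 k) := by ring

theorem NN_le (k : ℕ) : NN (k + 1) ≤ 100 * (k + 1) := by
  unfold NN
  refine Nat.mul_le_mul_left _ ?_
  calc 3 ^ Nat.log 4 (k + 1) ≤ 4 ^ Nat.log 4 (k + 1) := Nat.pow_le_pow_left (by norm_num) _
    _ ≤ k + 1 := Nat.pow_log_le_self 4 (by omega)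

theorem nn_ge (k : ℕ) : 10 ^ 7 ≤ nn k := by
  unfold nn
  have h := NN_ge k
  have h2 : 100 ^ 2 ≤ NN k ^ 2 := Nat.pow_le_pow_left h 2
  omega

theorem nn_pos (k : ℕ) : 0 < nn k := by have := nn_ge k; omega

theorem nn_geR (k : ℕ) : (10 : ℝ) ^ 7 ≤ nn k := by exact_mod_cast nn_ge k

theorem nn_posR (k : ℕ) : (0 : ℝ) < nn k := by exact_mod_cast nn_pos k

theorem nn_eqR (k : ℕ) : (nn k : ℝ) = 1000 * (NN k : ℝ) ^ 2 := by unfold nn; push_cast; ring

theorem nn_mono : Monotone nn := by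
  intro a b h
  unfold nn
  exact Nat.mul_le_mul_left _ (Nat.pow_le_pow_left (NN_mono h) 2)

theorem nn_le (k : ℕ) : nn (k + 1) ≤ 10 ^ 7 * (k + 1) ^ 2 := by
  unfold nn
  calc 1000 * NN (k + 1) ^ 2 ≤ 1000 * (100 * (k + 1)) ^ 2 :=
        Nat.mul_le_mul_left _ (Nat.pow_le_pow_left (NN_le k) 2)
    _ = 10 ^ 7 * (k + 1) ^ 2 := by ring

/-! ### `rho_k`, `eta_k`, `d_k`, `p_k` -/

theorem rho_zero : rho 0 = 1 := rfl

theorem rho_succ (k : ℕ) : rho (k + 1) = rho k / (nn (k + 1) : ℝ) := rfl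

theorem rho_pos (k : ℕ) : 0 < rho k := by
  induction k with
  | zero => rw [rho_zero]; norm_num
  | succ k ih => rw [rho_succ]; exact div_pos ih (nn_posR _)

theorem rho_succ_mul (k : ℕ) : rho (k + 1) * (nn (k + 1) : ℝ) = rho k := by
  rw [rho_succ]; exact div_mul_cancel₀ _ (nn_posR _).ne'

theorem rho_succ_le (k : ℕ) : rho (k + 1) ≤ rho k / 10 ^ 7 := by
  rw [rho_succ]
  exact div_le_div_of_nonneg_left (rho_pos k).le (by norm_num) (nn_geR _)

theorem rho_succ_lt (k : ℕ) : rho (k + 1) < rho k := by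
  have h := rho_succ_le k
  have h2 := rho_pos k
  have : rho k / 10 ^ 7 < rho k := div_lt_self h2 (by norm_num)
  linarith

theorem rho_anti : Antitone rho := antitone_nat_of_succ_le fun k => (rho_succ_lt k).le

theorem rho_le_one (k : ℕ) : rho k ≤ 1 := by
  have := rho_anti (Nat.zero_le k)
  rwa [rho_zero] at this

theorem rho_le_pow (k : ℕ) : rho k ≤ (1 / 10 ^ 7) ^ k := by
  induction k with
  | zero => rw [rho_zero]; norm_num
  | succ k ih =>
    refine (rho_succ_le k).trans ?_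
    calc rho k / 10 ^ 7 ≤ (1 / 10 ^ 7) ^ k / 10 ^ 7 := div_le_div_of_nonneg_right ih (by norm_num)
      _ = (1 / 10 ^ 7) ^ (k + 1) := by ring

theorem tendsto_rho : Tendsto rho atTop (nhds 0) := by
  refine squeeze_zero (fun k => (rho_pos k).le) rho_le_pow ?_
  exact tendsto_pow_atTop_nhds_zero_of_lt_one (by norm_num) (by norm_num)

theorem eta_pos (k : ℕ) : 0 < eta k := by
  unfold eta; exact div_pos one_pos (NN_posR k)

theorem eta_le (k : ℕ) : eta k ≤ 1 / 100 := by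
  unfold eta
  exact one_div_le_one_div_of_le (by norm_num) (NN_geR k)

theorem eta_anti : Antitone eta := by
  intro a b h
  unfold eta
  exact one_div_le_one_div_of_le (NN_posR a) (by exact_mod_cast NN_mono h)

theorem eta_ge (k : ℕ) : 1 / (100 * ((k : ℝ) + 1)) ≤ eta (k + 1) := by
  unfold eta
  refine one_div_le_one_div_of_le (NN_posR _) ?_
  exact_mod_cast NN_le k

theorem NN_mul_eta (k : ℕ) : (NN k : ℝ) * eta k = 1 := by
  unfold eta; exact mul_one_div_cancel (NN_posR k).ne'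

/-- `.65 / n_k = .00065 eta_k ^ 2`. -/
theorem inv_nn (k : ℕ) : 1 / (nn k : ℝ) = eta k ^ 2 / 1000 := by
  rw [nn_eqR]; unfold eta
  have := (NN_posR k).ne'
  field_simp

theorem dd_pos (k : ℕ) : 0 < dd k := mul_pos (NN_posR k) (rho_pos k)

theorem dd_succ (k : ℕ) : dd (k + 1) = rho k / (1000 * (NN (k + 1) : ℝ)) := by
  unfold dd
  rw [rho_succ, nn_eqR]
  have := (NN_posR (k + 1)).ne'
  field_simp

theorem dd_succ_eta (k : ℕ) : dd (k + 1) = eta (k + 1) * rho k / 1000 := by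
  rw [dd_succ]; unfold eta
  have := (NN_posR (k + 1)).ne'
  field_simp

theorem dd_succ_le (k : ℕ) : dd (k + 1) ≤ rho k / 10 ^ 5 := by
  rw [dd_succ]
  refine div_le_div_of_nonneg_left (rho_pos k).le (by norm_num) ?_
  have := NN_geR (k + 1)
  linarith

theorem pp_succ (k : ℕ) : pp (k + 1) = rho k := rfl

theorem pp_succ_eq (k : ℕ) : pp (k + 1) = (nn (k + 1) : ℝ) * rho (k + 1) := by
  rw [pp_succ, ← rho_succ_mul k, mul_comm]

theorem pp_succ_eq_dd (k : ℕ) : pp (k + 1) = 1000 * (NN (k + 1) : ℝ) * dd (k + 1) := by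
  rw [pp_succ_eq, nn_eqR]; unfold dd; ring

theorem pp_pos (k : ℕ) : 0 < pp k := rho_pos _

theorem del_pos (k : ℕ) : 0 < del k := rho_pos _

theorem mu_pos (k : ℕ) : 0 < mu k := by unfold mu; have := rho_pos k; positivity

theorem inv_rho_le (k : ℕ) : 1 / rho k ≤ Real.exp (20 * ((k : ℝ) + 1) ^ 2) := by
  induction k with
  | zero =>
    rw [rho_zero, div_one]
    exact Real.one_le_exp (by positivity)
  | succ k ih =>
    have h1 : 1 / rho (k + 1) = (nn (k + 1) : ℝ) * (1 / rho k) := by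
      rw [rho_succ]
      have := (nn_posR (k + 1)).ne'
      have := (rho_pos k).ne'
      field_simp
    have h2 : (nn (k + 1) : ℝ) ≤ 10 ^ 7 * ((k : ℝ) + 1) ^ 2 := by exact_mod_cast nn_le k
    have h3 : ((k : ℝ) + 1) ≤ Real.exp k := Real.add_one_le_exp _
    have h4 : (10 : ℝ) ^ 7 ≤ Real.exp 17 := by
      have h5 : (2.7 : ℝ) < Real.exp 1 := by
        have := Real.exp_one_gt_d9; linarith
      have h6 : Real.exp 17 = Real.exp 1 ^ 17 := by
        rw [← Real.exp_nat_mul]; norm_num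
      rw [h6]
      calc (10 : ℝ) ^ 7 ≤ 2.7 ^ 17 := by norm_num
        _ ≤ Real.exp 1 ^ 17 := pow_le_pow_left₀ (by norm_num) h5.le 17
    have h7 : (nn (k + 1) : ℝ) ≤ Real.exp (17 + 2 * k) := by
      refine h2.trans ?_
      rw [Real.exp_add]
      refine mul_le_mul h4 ?_ (by positivity) (Real.exp_pos _).le
      have : Real.exp (2 * k) = Real.exp k ^ 2 := by
        rw [← Real.exp_nat_mul]; norm_num
      rw [this]
      exact pow_le_pow_left₀ (by positivity) h3 2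
    rw [h1]
    calc (nn (k + 1) : ℝ) * (1 / rho k)
        ≤ Real.exp (17 + 2 * k) * Real.exp (20 * ((k : ℝ) + 1) ^ 2) :=
          mul_le_mul h7 ih (by have := rho_pos k; positivity) (Real.exp_pos _).le
      _ = Real.exp (17 + 2 * k + 20 * ((k : ℝ) + 1) ^ 2) := (Real.exp_add _ _).symm
      _ ≤ Real.exp (20 * (((k + 1 : ℕ) : ℝ) + 1) ^ 2) := by
          refine Real.exp_le_exp.mpr ?_
          push_cast
          nlinarith [Nat.cast_nonneg (α := ℝ) k]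

end Par

open Par

/-! ### `S_k` -/

/-- `S_k`. -/
noncomputable def SS (S0 : ℝ) : ℕ → ℝ
  | 0 => S0
  | (k + 1) => SS S0 k * (1 + eta (k + 1) / 100)

/-- The tame quantity `S_k / rho_(k+4)`. -/
noncomputable def QQ (S0 : ℝ) (k : ℕ) : ℝ := SS S0 k / rho (k + 4)

theorem SS_zero (S0 : ℝ) : SS S0 0 = S0 := rfl

theorem SS_succ (S0 : ℝ) (k : ℕ) : SS S0 (k + 1) = SS S0 k * (1 + eta (k + 1) / 100) := rfl

theorem SS_eq (S0 : ℝ) (k : ℕ) : SS S0 k = S0 * SS 1 k := by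
  induction k with
  | zero => rw [SS_zero, SS_zero, mul_one]
  | succ k ih => rw [SS_succ, SS_succ, ih, mul_assoc]

theorem SS_one_succ_le (k : ℕ) : SS 1 k ≤ SS 1 (k + 1) ∧ 1 ≤ SS 1 k := by
  induction k with
  | zero =>
    have := eta_pos 1
    rw [SS_succ, SS_zero]
    constructor
    · linarith
    · exact le_refl _
  | succ k ih =>
    have h := eta_pos (k + 2)
    have h1 : 1 ≤ SS 1 (k + 1) := ih.2.trans ih.1
    refine ⟨?_, h1⟩
    rw [SS_succ 1 (k + 1)]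
    exact le_mul_of_one_le_right (by linarith) (by linarith)

theorem SS_one_ge (k : ℕ) : 1 ≤ SS 1 k := (SS_one_succ_le k).2

theorem SS_one_mono : Monotone (SS 1) := monotone_nat_of_le_succ fun k => (SS_one_succ_le k).1

theorem SS_mono {S0 : ℝ} (h : 0 ≤ S0) : Monotone (SS S0) := by
  intro a b hab
  rw [SS_eq S0 a, SS_eq S0 b]
  exact mul_le_mul_of_nonneg_left (SS_one_mono hab) h

theorem SS_ge {S0 : ℝ} (h : 0 ≤ S0) (k : ℕ) : S0 ≤ SS S0 k := by
  rw [SS_eq]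
  exact le_mul_of_one_le_right h (SS_one_ge k)

theorem SS_pos {S0 : ℝ} (h : 0 < S0) (k : ℕ) : 0 < SS S0 k := h.trans_le (SS_ge h.le k)

theorem SS_succ_le {S0 : ℝ} (h : 0 ≤ S0) (k : ℕ) : SS S0 (k + 1) ≤ 2 * SS S0 k := by
  rw [SS_succ]
  have h1 := eta_le (k + 1)
  have h2 := h.trans (SS_ge h k)
  nlinarith

theorem SS_diff (S0 : ℝ) (k : ℕ) : SS S0 (k + 1) - SS S0 k = SS S0 k * eta (k + 1) / 100 := by
  rw [SS_succ]; ring

/-! ### growth of `S_k` -/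

theorem log_block (j m : ℕ) (hm : m + 1 ≤ 3 * 4 ^ j) : Nat.log 4 (4 ^ j + m) = j := by
  apply Nat.log_eq_of_pow_le_of_lt_pow
  · omega
  · have : 4 ^ (j + 1) = 4 * 4 ^ j := by ring
    omega

theorem eta_block (j m : ℕ) (hm : m + 1 ≤ 3 * 4 ^ j) : eta (4 ^ j + m) = 1 / (100 * 3 ^ j) := by
  unfold eta NN
  rw [log_block j m hm]
  push_cast
  ring

theorem SS_block (j m : ℕ) (hm : m + 1 ≤ 3 * 4 ^ j) :
    SS 1 (4 ^ j) * (1 + 1 / (10 ^ 4 * 3 ^ j)) ^ m ≤ SS 1 (4 ^ j + m) := by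
  induction m with
  | zero => simp
  | succ m ih =>
    have h1 := ih (by omega)
    rw [← Nat.add_assoc, SS_succ, Nat.add_assoc, eta_block j (m + 1) hm, pow_succ, ← mul_assoc]
    have h2 : (1 : ℝ) + 1 / (100 * 3 ^ j) / 100 = 1 + 1 / (10 ^ 4 * 3 ^ j) := by
      rw [div_div]; ring_nf
    rw [h2]
    exact mul_le_mul_of_nonneg_right h1 (by positivity)

theorem SS_block_step (j : ℕ) :
    SS 1 (4 ^ j) * (1 + 2 * (4 / 3 : ℝ) ^ j / 10 ^ 4) ≤ SS 1 (4 ^ (j + 1)) := by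
  have hj : 1 ≤ 4 ^ j := Nat.one_le_pow _ _ (by norm_num)
  have h1 := SS_block j (3 * 4 ^ j - 1) (by omega)
  have h2 : SS 1 (4 ^ j + (3 * 4 ^ j - 1)) ≤ SS 1 (4 ^ (j + 1)) :=
    SS_one_mono (by have : 4 ^ (j + 1) = 4 * 4 ^ j := by ring
                    omega)
  refine le_trans ?_ (h1.trans h2)
  refine mul_le_mul_of_nonneg_left ?_ (by linarith [SS_one_ge (4 ^ j)])
  have h3 := one_add_mul_le_pow (show (-2 : ℝ) ≤ 1 / (10 ^ 4 * 3 ^ j) by
    have : (0 : ℝ) ≤ 1 / (10 ^ 4 * 3 ^ j) := by positivity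
    linarith) (3 * 4 ^ j - 1)
  refine le_trans ?_ h3
  have h4 : (2 : ℝ) * 4 ^ j ≤ ((3 * 4 ^ j - 1 : ℕ) : ℝ) := by
    have : 2 * 4 ^ j ≤ 3 * 4 ^ j - 1 := by omega
    exact_mod_cast this
  have h5 : (0 : ℝ) ≤ 1 / (10 ^ 4 * 3 ^ j) := by positivity
  have h6 := mul_le_mul_of_nonneg_right h4 h5
  have h7 : (2 : ℝ) * 4 ^ j * (1 / (10 ^ 4 * 3 ^ j)) = 2 * (4 / 3 : ℝ) ^ j / 10 ^ 4 := by
    rw [div_pow]; field_simp
  rw [h7] at h6
  linarith

/-- `S_k` grows faster than every power of `k`. -/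
theorem SS_growth (p : ℕ) : ∃ c : ℝ, 0 < c ∧ ∀ k : ℕ, c * ((k : ℝ) + 1) ^ p ≤ SS 1 k := by
  have ht : Tendsto (fun j : ℕ => (4 / 3 : ℝ) ^ j) atTop atTop :=
    tendsto_pow_atTop_atTop_of_one_lt (by norm_num)
  obtain ⟨J, hJ⟩ := eventually_atTop.mp (ht.eventually_ge_atTop (10 ^ 4 * 4 ^ p))
  set B : ℝ := (4 : ℝ) ^ p with hB
  have hB1 : 1 ≤ B := one_le_pow₀ (by norm_num)
  have hB0 : 0 < B := by linarith
  have ha : ∀ j : ℕ, B ^ j ≤ B ^ J * SS 1 (4 ^ j) := by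
    intro j
    induction j with
    | zero =>
      have h1 := SS_one_ge (4 ^ 0)
      have h2 : 1 ≤ B ^ J := one_le_pow₀ hB1
      rw [pow_zero]
      nlinarith
    | succ j ih =>
      rcases Nat.lt_or_ge j J with h | h
      · have h1 : B ^ (j + 1) ≤ B ^ J := pow_le_pow_right₀ hB1 h
        have h2 := SS_one_ge (4 ^ (j + 1))
        have h3 : 0 < B ^ J := by positivity
        nlinarith
      · have h1 := hJ j h
        have h2 := SS_block_step j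
        have h3 : B ≤ 1 + 2 * (4 / 3 : ℝ) ^ j / 10 ^ 4 := by
          have : 10 ^ 4 * B ≤ 2 * (4 / 3 : ℝ) ^ j := by
            have : (0 : ℝ) < (4 / 3 : ℝ) ^ j := by positivity
            linarith
          have h4 : B ≤ 2 * (4 / 3 : ℝ) ^ j / 10 ^ 4 := by
            rw [le_div_iff₀ (by norm_num)]; linarith
          linarith
        have h4 := SS_one_ge (4 ^ j)
        calc B ^ (j + 1) = B ^ j * B := pow_succ _ _
          _ ≤ (B ^ J * SS 1 (4 ^ j)) * B := mul_le_mul_of_nonneg_right ih hB0.le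
          _ = B ^ J * (SS 1 (4 ^ j) * B) := by ring
          _ ≤ B ^ J * SS 1 (4 ^ (j + 1)) := by
              refine mul_le_mul_of_nonneg_left ?_ (by positivity)
              refine le_trans ?_ h2
              exact mul_le_mul_of_nonneg_left h3 (by linarith)
  refine ⟨1 / (B ^ J * B), by positivity, fun k => ?_⟩
  rw [div_mul_eq_mul_div, one_mul, div_le_iff₀ (by positivity)]
  rcases Nat.eq_zero_or_pos k with h0 | h0
  · subst h0
    rw [SS_zero, Nat.cast_zero, zero_add, one_pow, one_mul]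
    have : 1 ≤ B ^ J := one_le_pow₀ hB1
    nlinarith
  · have h1 : 4 ^ Nat.log 4 k ≤ k := Nat.pow_log_le_self 4 (by omega)
    have h2 : k + 1 ≤ 4 ^ (Nat.log 4 k + 1) := Nat.lt_pow_succ_log_self (by norm_num) k
    have h3 : ((k : ℝ) + 1) ^ p ≤ B ^ (Nat.log 4 k + 1) := by
      have h4 : ((k : ℝ) + 1) ≤ (4 : ℝ) ^ (Nat.log 4 k + 1) := by exact_mod_cast h2
      calc ((k : ℝ) + 1) ^ p ≤ ((4 : ℝ) ^ (Nat.log 4 k + 1)) ^ p :=
            pow_le_pow_left₀ (by positivity) h4 p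
        _ = B ^ (Nat.log 4 k + 1) := by rw [hB, ← pow_mul, ← pow_mul, mul_comm]
    have h5 := ha (Nat.log 4 k)
    have h6 : SS 1 (4 ^ Nat.log 4 k) ≤ SS 1 k := SS_one_mono h1
    calc ((k : ℝ) + 1) ^ p ≤ B ^ (Nat.log 4 k + 1) := h3
      _ = B ^ Nat.log 4 k * B := pow_succ _ _
      _ ≤ (B ^ J * SS 1 (4 ^ Nat.log 4 k)) * B := mul_le_mul_of_nonneg_right h5 hB0.le
      _ ≤ (B ^ J * SS 1 k) * B := by
          refine mul_le_mul_of_nonneg_right ?_ hB0.le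
          exact mul_le_mul_of_nonneg_left h6 (by positivity)
      _ = SS 1 k * (B ^ J * B) := by ring

/-! ### the master inequality -/

theorem num_aux (C A M x K : ℝ) (hC : 0 ≤ C) (hK : 1 ≤ K)
    (hM : 3 * 10 ^ 5 * |A| + 3 / 2 * 10 ^ 8 * C + 36 * 10 ^ 10 * C ^ 2 + 1 ≤ M) (hx : M * K ^ 4 ≤ x) :
    A + 2 * C * Real.sqrt x + 500 * C * K ^ 2 ≤ x / (10 ^ 5 * K) := by
  have hA : A ≤ |A| := le_abs_self A
  have hA0 : 0 ≤ |A| := abs_nonneg A
  have hM1 : 1 ≤ M := by nlinarith [sq_nonneg C]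
  have hMA : 3 * 10 ^ 5 * |A| ≤ M := by nlinarith [sq_nonneg C]
  have hMC : 3 / 2 * 10 ^ 8 * C ≤ M := by nlinarith [sq_nonneg C]
  have hMC2 : 36 * 10 ^ 10 * C ^ 2 ≤ M := by nlinarith
  have hK0 : 0 < K := by linarith
  have hK2 : 1 ≤ K ^ 2 := one_le_pow₀ hK
  have hK3 : K ^ 2 ≤ K ^ 3 := pow_le_pow_right₀ hK (by norm_num)
  have hx0 : 0 < x := lt_of_lt_of_le (by positivity) hx
  -- (i)
  have h1 : |A| ≤ x / (3 * 10 ^ 5 * K) := by
    rw [le_div_iff₀ (by positivity)]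
    calc |A| * (3 * 10 ^ 5 * K) = 3 * 10 ^ 5 * |A| * K := by ring
      _ ≤ M * K := mul_le_mul_of_nonneg_right hMA hK0.le
      _ ≤ M * K ^ 4 := by
          refine mul_le_mul_of_nonneg_left ?_ (by linarith)
          calc K = K ^ 1 := (pow_one K).symm
            _ ≤ K ^ 4 := pow_le_pow_right₀ hK (by norm_num)
      _ ≤ x := hx
  -- (ii)
  have h2 : 500 * C * K ^ 2 ≤ x / (3 * 10 ^ 5 * K) := by
    rw [le_div_iff₀ (by positivity)]
    calc 500 * C * K ^ 2 * (3 * 10 ^ 5 * K) = 3 / 2 * 10 ^ 8 * C * K ^ 3 := by ring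
      _ ≤ M * K ^ 3 := mul_le_mul_of_nonneg_right hMC (by positivity)
      _ ≤ M * K ^ 4 := by
          refine mul_le_mul_of_nonneg_left ?_ (by linarith)
          exact pow_le_pow_right₀ hK (by norm_num)
      _ ≤ x := hx
  -- (iii)
  have h3 : 2 * C * Real.sqrt x ≤ x / (3 * 10 ^ 5 * K) := by
    rw [le_div_iff₀ (by positivity)]
    have h4 : 6 * 10 ^ 5 * C * K ≤ Real.sqrt x := by
      apply Real.le_sqrt_of_sq_le
      calc (6 * 10 ^ 5 * C * K) ^ 2 = 36 * 10 ^ 10 * C ^ 2 * K ^ 2 := by ring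
        _ ≤ M * K ^ 2 := mul_le_mul_of_nonneg_right hMC2 (by positivity)
        _ ≤ M * K ^ 4 := by
            refine mul_le_mul_of_nonneg_left ?_ (by linarith)
            exact pow_le_pow_right₀ hK (by norm_num)
        _ ≤ x := hx
    calc 2 * C * Real.sqrt x * (3 * 10 ^ 5 * K) = 6 * 10 ^ 5 * C * K * Real.sqrt x := by ring
      _ ≤ Real.sqrt x * Real.sqrt x := mul_le_mul_of_nonneg_right h4 (Real.sqrt_nonneg x)
      _ = x := Real.mul_self_sqrt hx0.le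
  have h5 : x / (10 ^ 5 * K) = x / (3 * 10 ^ 5 * K) + x / (3 * 10 ^ 5 * K) + x / (3 * 10 ^ 5 * K) := by
    field_simp
    norm_num
  rw [h5]
  linarith

theorem le_exp_two_sqrt {x : ℝ} (hx : 0 < x) : x ≤ Real.exp (2 * Real.sqrt x) := by
  have h1 : Real.sqrt x ≤ Real.exp (Real.sqrt x) := by
    have := Real.add_one_le_exp (Real.sqrt x); linarith
  calc x = Real.sqrt x ^ 2 := (Real.sq_sqrt hx.le).symm
    _ ≤ Real.exp (Real.sqrt x) ^ 2 := pow_le_pow_left₀ (Real.sqrt_nonneg x) h1 2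
    _ = Real.exp (2 * Real.sqrt x) := by rw [← Real.exp_nat_mul]; norm_num

theorem master_aux (C : ℕ) (A : ℝ) (S0 : ℝ) (hS : 0 < S0) (k : ℕ) (M : ℝ)
    (hM : 3 * 10 ^ 5 * |A| + 3 / 2 * 10 ^ 8 * (C : ℝ) + 36 * 10 ^ 10 * (C : ℝ) ^ 2 + 1 ≤ M)
    (hx : M * ((k : ℝ) + 1) ^ 4 ≤ SS S0 k) :
    A * QQ S0 k ^ C ≤ Real.exp (eta (k + 1) * SS S0 k / 1000) := by
  set x := SS S0 k with hxdef
  have hx0 : 0 < x := SS_pos hS k
  set K : ℝ := (k : ℝ) + 1 with hKdef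
  have hK : 1 ≤ K := by rw [hKdef]; linarith [Nat.cast_nonneg (α := ℝ) k]
  have hnum := num_aux C A M x K (Nat.cast_nonneg C) hK hM hx
  have h1 : QQ S0 k ^ C ≤ Real.exp (2 * C * Real.sqrt x + 500 * C * K ^ 2) := by
    unfold QQ
    rw [← hxdef, div_eq_mul_one_div, mul_pow, Real.exp_add]
    refine mul_le_mul ?_ ?_ (by have := rho_pos (k + 4); positivity) (Real.exp_pos _).le
    · calc x ^ C ≤ Real.exp (2 * Real.sqrt x) ^ C := pow_le_pow_left₀ hx0.le (le_exp_two_sqrt hx0) C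
        _ = Real.exp (2 * C * Real.sqrt x) := by rw [← Real.exp_nat_mul]; ring_nf
    · have h2 := inv_rho_le (k + 4)
      have h3 : 20 * (((k + 4 : ℕ) : ℝ) + 1) ^ 2 ≤ 500 * K ^ 2 := by
        push_cast
        have : (k : ℝ) + 4 + 1 ≤ 5 * K := by
          rw [hKdef]; linarith [Nat.cast_nonneg (α := ℝ) k]
        have h4 : ((k : ℝ) + 4 + 1) ^ 2 ≤ (5 * K) ^ 2 :=
          pow_le_pow_left₀ (by linarith [Nat.cast_nonneg (α := ℝ) k]) this 2
        nlinarith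
      calc (1 / rho (k + 4)) ^ C ≤ Real.exp (500 * K ^ 2) ^ C :=
            pow_le_pow_left₀ (by have := rho_pos (k + 4); positivity)
              (h2.trans (Real.exp_le_exp.mpr h3)) C
        _ = Real.exp (500 * C * K ^ 2) := by rw [← Real.exp_nat_mul]; ring_nf
  have h2 : A ≤ Real.exp A := by have := Real.add_one_le_exp A; linarith
  have h3 : 0 ≤ QQ S0 k ^ C := by
    unfold QQ
    rw [← hxdef]
    have := rho_pos (k + 4)
    positivity
  calc A * QQ S0 k ^ C ≤ Real.exp A * Real.exp (2 * C * Real.sqrt x + 500 * C * K ^ 2) :=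
        mul_le_mul h2 h1 h3 (Real.exp_pos _).le
    _ = Real.exp (A + 2 * C * Real.sqrt x + 500 * C * K ^ 2) := by
        rw [← Real.exp_add]; ring_nf
    _ ≤ Real.exp (x / (10 ^ 5 * K)) := Real.exp_le_exp.mpr hnum
    _ ≤ Real.exp (eta (k + 1) * x / 1000) := by
        refine Real.exp_le_exp.mpr ?_
        have h4 := mul_le_mul_of_nonneg_right (eta_ge k) hx0.le
        rw [← hKdef] at h4
        have h5 : x / (10 ^ 5 * K) = 1 / (100 * K) * x / 1000 := by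
          field_simp
          norm_num
        rw [h5]
        exact div_le_div_of_nonneg_right h4 (by norm_num)

/-- (P), the first form. -/
theorem master (C : ℕ) (A : ℝ) : ∃ S1 : ℝ, 1 ≤ S1 ∧ ∀ S0 : ℝ, S1 ≤ S0 → ∀ k : ℕ,
    A * QQ S0 k ^ C ≤ Real.exp (eta (k + 1) * SS S0 k / 1000) := by
  obtain ⟨c, hc, hg⟩ := SS_growth 4
  set M0 : ℝ := 3 * 10 ^ 5 * |A| + 3 / 2 * 10 ^ 8 * (C : ℝ) + 36 * 10 ^ 10 * (C : ℝ) ^ 2 + 1 with hM0
  refine ⟨max 1 (M0 / c), le_max_left _ _, fun S0 hS k => ?_⟩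
  have hS1 : 1 ≤ S0 := (le_max_left _ _).trans hS
  have hS2 : M0 / c ≤ S0 := (le_max_right _ _).trans hS
  have h1 : M0 ≤ S0 * c := (div_le_iff₀ hc).mp hS2
  refine master_aux C A S0 (by linarith) k (S0 * c) h1 ?_
  rw [SS_eq, mul_assoc]
  exact mul_le_mul_of_nonneg_left (hg k) (by linarith)

/-- (P), the second form: fixed `S_0`, large `k`. -/
theorem master' (S0 : ℝ) (hS : 0 < S0) (C : ℕ) (A : ℝ) : ∀ᶠ k : ℕ in atTop,
    A * QQ S0 k ^ C ≤ Real.exp (eta (k + 1) * SS S0 k / 1000) := by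
  obtain ⟨c, hc, hg⟩ := SS_growth 5
  set M0 : ℝ := 3 * 10 ^ 5 * |A| + 3 / 2 * 10 ^ 8 * (C : ℝ) + 36 * 10 ^ 10 * (C : ℝ) ^ 2 + 1 with hM0
  have ht : Tendsto (fun k : ℕ => S0 * c * ((k : ℝ) + 1)) atTop atTop :=
    (tendsto_atTop_add_const_right _ _ tendsto_natCast_atTop_atTop).const_mul_atTop (by positivity)
  filter_upwards [ht.eventually_ge_atTop M0] with k hk
  refine master_aux C A S0 hS k _ hk ?_
  rw [SS_eq]
  calc S0 * c * ((k : ℝ) + 1) * ((k : ℝ) + 1) ^ 4 = S0 * (c * ((k : ℝ) + 1) ^ 5) := by ring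
    _ ≤ S0 * SS 1 k := mul_le_mul_of_nonneg_left (hg k) hS.le

/-! ### consequences -/

theorem QQ_pos {S0 : ℝ} (h : 0 < S0) (k : ℕ) : 0 < QQ S0 k := div_pos (SS_pos h k) (rho_pos _)

theorem inv_rho_le_QQ {S0 : ℝ} (h : 1 ≤ S0) (k : ℕ) : 1 / rho (k + 4) ≤ QQ S0 k := by
  unfold QQ
  exact div_le_div_of_nonneg_right (h.trans (SS_ge (by linarith) k)) (rho_pos _).le

theorem SS_le_QQ {S0 : ℝ} (h : 0 < S0) (k : ℕ) : SS S0 k ≤ QQ S0 k := by
  unfold QQ
  rw [le_div_iff₀ (rho_pos _)]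
  exact mul_le_of_le_one_right (SS_pos h k).le (rho_le_one _)

theorem one_le_QQ {S0 : ℝ} (h : 1 ≤ S0) (k : ℕ) : 1 ≤ QQ S0 k :=
  h.trans ((SS_ge (by linarith) k).trans (SS_le_QQ (by linarith) k))

theorem inv_rho_mono {i j : ℕ} (h : i ≤ j) : 1 / rho i ≤ 1 / rho j :=
  one_div_le_one_div_of_le (rho_pos j) (rho_anti h)

theorem inv_rho_le_QQ' {S0 : ℝ} (h : 1 ≤ S0) {i k : ℕ} (hik : i ≤ k + 4) : 1 / rho i ≤ QQ S0 k :=
  (inv_rho_mono hik).trans (inv_rho_le_QQ h k)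

theorem QQ_mono {S0 : ℝ} (h : 0 < S0) : Monotone (QQ S0) := by
  intro a b hab
  unfold QQ
  exact div_le_div₀ (SS_pos h b).le (SS_mono h.le hab) (rho_pos _) (rho_anti (by omega))

theorem pow_le_inv_rho (k : ℕ) : ((10 : ℝ) ^ 7) ^ k ≤ 1 / rho k := by
  rw [le_div_iff₀ (rho_pos k)]
  have h := rho_le_pow k
  calc ((10 : ℝ) ^ 7) ^ k * rho k ≤ ((10 : ℝ) ^ 7) ^ k * (1 / 10 ^ 7) ^ k :=
        mul_le_mul_of_nonneg_left h (by positivity)
    _ = 1 := by rw [← mul_pow]; norm_num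

theorem two_pow_le_QQ {S0 : ℝ} (h : 1 ≤ S0) (k : ℕ) : (2 : ℝ) ^ (k + 1) ≤ QQ S0 k := by
  refine le_trans ?_ (inv_rho_le_QQ h k)
  refine le_trans ?_ (pow_le_inv_rho (k + 4))
  calc (2 : ℝ) ^ (k + 1) ≤ 2 ^ (k + 4) := pow_le_pow_right₀ (by norm_num) (by omega)
    _ ≤ ((10 : ℝ) ^ 7) ^ (k + 4) := pow_le_pow_left₀ (by norm_num) (by norm_num) _

/-- the form with `ε / 2^(k+1)` -/
theorem master_eps (C : ℕ) (ε : ℝ) (hε : 0 < ε) : ∃ S1 : ℝ, 1 ≤ S1 ∧ ∀ S0 : ℝ, S1 ≤ S0 → ∀ k : ℕ,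
    QQ S0 k ^ C * Real.exp (-(eta (k + 1) * SS S0 k / 1000)) ≤ ε / 2 ^ (k + 1) := by
  obtain ⟨S1, h1, h2⟩ := master (C + 1) (1 / ε)
  refine ⟨S1, h1, fun S0 hS k => ?_⟩
  have hS1 : 1 ≤ S0 := h1.trans hS
  have h3 := h2 S0 hS k
  have hQ := QQ_pos (show 0 < S0 by linarith) k
  have h4 := two_pow_le_QQ hS1 k
  rw [Real.exp_neg, ← div_eq_mul_inv, div_le_div_iff₀ (Real.exp_pos _) (by positivity)]
  have h5 : QQ S0 k ^ C * 2 ^ (k + 1) ≤ QQ S0 k ^ (C + 1) := by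
    rw [pow_succ]
    exact mul_le_mul_of_nonneg_left h4 (by positivity)
  have h6 : QQ S0 k ^ (C + 1) ≤ ε * Real.exp (eta (k + 1) * SS S0 k / 1000) := by
    have := mul_le_mul_of_nonneg_left h3 hε.le
    calc QQ S0 k ^ (C + 1) = ε * (1 / ε * QQ S0 k ^ (C + 1)) := by field_simp
      _ ≤ _ := this
  linarith

/-- the tail inequality of section 9 -/
theorem tail_ineq {S0 : ℝ} (h : 0 < S0) (k j : ℕ) (hj : k + 2 ≤ j) :
    SS S0 (k + 1) * (1 + eta (k + 2) / 400) + 7 * (eta (j + 1) * SS S0 j / 1000) ≤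
      SS S0 j * (1 - 65 / 100 / (nn (k + 2) : ℝ)) := by
  have h1 : SS S0 (k + 2) ≤ SS S0 j := SS_mono h.le hj
  rw [SS_succ S0 (k + 1)] at h1
  have h2 : (65 : ℝ) / 100 / (nn (k + 2) : ℝ) = 65 / 100 * (eta (k + 2) ^ 2 / 1000) := by
    rw [← inv_nn]; ring
  rw [h2]
  have h3 : eta (j + 1) ≤ eta (k + 2) := eta_anti (by omega)
  set e := eta (k + 2) with he
  have he0 : 0 < e := eta_pos _
  have he1 : e ≤ 1 / 100 := eta_le _
  set a := SS S0 (k + 1) with ha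
  set b := SS S0 j with hb
  have ha0 : 0 < a := SS_pos h _
  have hb0 : 0 < b := SS_pos h _
  have h4 : eta (j + 1) * b ≤ e * b := mul_le_mul_of_nonneg_right h3 hb0.le
  -- a ≤ b / (1 + e/100)
  have h5 : a * (1 + e / 400) ≤ b * (1 - 74 / 10000 * e) := by
    have h6 : (1 + e / 400) ≤ (1 + e / 100) * (1 - 74 / 10000 * e) := by nlinarith
    calc a * (1 + e / 400) ≤ a * ((1 + e / 100) * (1 - 74 / 10000 * e)) :=
          mul_le_mul_of_nonneg_left h6 ha0.le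
      _ = a * (1 + e / 100) * (1 - 74 / 10000 * e) := by ring
      _ ≤ b * (1 - 74 / 10000 * e) := mul_le_mul_of_nonneg_right h1 (by nlinarith)
  have h7 : e ^ 2 ≤ e / 100 := by nlinarith
  have h8 : b * (65 / 100 * (e ^ 2 / 1000)) ≤ b * (65 / 100 * (e / 100 / 1000)) :=
    mul_le_mul_of_nonneg_left (by linarith) hb0.le
  nlinarith [mul_pos he0 hb0]

end Pool.Agent.BSS
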