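import Pool.Agent.BSS.Base

/-!
# The basic wave: an exact solution of the Dirac equation (module A1a)

`V0 β lam y = r⁻³ X c♯`, `X = y₀ i + y₁ j + y₂ k`,
`c = exp (-I lam (log (y₂ + I (y₀ - β r²)) - log (y₂ + I (y₀ + β r²))))`,
on the half space `y₂ > 0`; `c♯ = Re c - (Im c) j`.
-/

open scoped Quaternion ContDiff

namespace Pool.Agent.BSS.Wave

/-- the embedding `ℂ → ℍ`, `I ↦ -j`. -/
noncomputable def emb : ℂ →L[ℝ] ℍ[ℝ] :=
  LinearMap.toContinuousLinearMap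
    { toFun := fun c => (⟨c.re, 0, -c.im, 0⟩ : ℍ[ℝ])
      map_add' := by intro a b; ext <;> simp [add_comm]
      map_smul' := by intro a b; ext <;> simp }

/-- the embedding `ℝ³ → ℍ`, `y ↦ y₀ i + y₁ j + y₂ k`. -/
noncomputable def hat : (Fin 3 → ℝ) →L[ℝ] ℍ[ℝ] :=
  LinearMap.toContinuousLinearMap
    { toFun := fun y => (⟨0, y 0, y 1, y 2⟩ : ℍ[ℝ])
      map_add' := by intro a b; ext <;> simp
      map_smul' := by intro a b; ext <;> simp }

@[simp] theorem emb_re (c : ℂ) : (emb c).re = c.re := rfl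
@[simp] theorem emb_imI (c : ℂ) : (emb c).imI = 0 := rfl
@[simp] theorem emb_imJ (c : ℂ) : (emb c).imJ = -c.im := rfl
@[simp] theorem emb_imK (c : ℂ) : (emb c).imK = 0 := rfl
@[simp] theorem hat_re (y : Fin 3 → ℝ) : (hat y).re = 0 := rfl
@[simp] theorem hat_imI (y : Fin 3 → ℝ) : (hat y).imI = y 0 := rfl
@[simp] theorem hat_imJ (y : Fin 3 → ℝ) : (hat y).imJ = y 1 := rfl
@[simp] theorem hat_imK (y : Fin 3 → ℝ) : (hat y).imK = y 2 := rfl

theorem emb_mul (a b : ℂ) : emb (a * b) = emb a * emb b := by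
  ext
  · simp
  · simp
  · simp; ring
  · simp

theorem emb_one : emb 1 = 1 := by
  ext <;> simp

theorem norm_emb (c : ℂ) : ‖emb c‖ = ‖c‖ := by
  have h : ‖emb c‖ * ‖emb c‖ = ‖c‖ * ‖c‖ := by
    rw [← Quaternion.normSq_eq_norm_mul_self, Complex.norm_mul_self_eq_normSq, Complex.normSq_apply,
      Quaternion.normSq_def']
    simp; ring
  exact (mul_self_inj (norm_nonneg _) (norm_nonneg _)).mp h

/-- `r²`. -/
noncomputable def r2 (y : Fin 3 → ℝ) : ℝ := y 0 ^ 2 + y 1 ^ 2 + y 2 ^ 2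

theorem r2_pos {y : Fin 3 → ℝ} (hy : 0 < y 2) : 0 < r2 y := by
  unfold r2; positivity

theorem norm_hat (y : Fin 3 → ℝ) : ‖hat y‖ = Real.sqrt (r2 y) := by
  have h : ‖hat y‖ * ‖hat y‖ = r2 y := by
    rw [← Quaternion.normSq_eq_norm_mul_self, Quaternion.normSq_def', r2]
    simp
  rw [← h, Real.sqrt_mul_self (norm_nonneg _)]

theorem hat_mul_hat (y : Fin 3 → ℝ) : hat y * hat y = -((r2 y : ℝ) : ℍ[ℝ]) := by
  ext
  · simp; unfold r2; ring
  · simp; ring
  · simp; ring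
  · simp; ring

/-- `z + I (y₀ + s r²)`. -/
noncomputable def Wc (s : ℝ) (y : Fin 3 → ℝ) : ℂ := ⟨y 2, y 0 + s * r2 y⟩

@[simp] theorem Wc_re (s : ℝ) (y : Fin 3 → ℝ) : (Wc s y).re = y 2 := rfl
@[simp] theorem Wc_im (s : ℝ) (y : Fin 3 → ℝ) : (Wc s y).im = y 0 + s * r2 y := rfl

/-- the exponent. -/
noncomputable def Fc (β lam : ℝ) (y : Fin 3 → ℝ) : ℂ :=
  -(Complex.I * lam) * (Complex.log (Wc (-β) y) - Complex.log (Wc β y))

/-- the basic wave. -/
noncomputable def V0 (β lam : ℝ) (y : Fin 3 → ℝ) : ℍ[ℝ] :=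
  (r2 y) ^ (-(3 / 2) : ℝ) • (hat y * emb (Complex.exp (Fc β lam y)))

/-- the angle. -/
noncomputable def om (β : ℝ) (y : Fin 3 → ℝ) : ℝ :=
  (Real.arctan ((y 0 + β * r2 y) / y 2) - Real.arctan ((y 0 - β * r2 y) / y 2)) / Real.pi

theorem arg_eq {w : ℂ} (hw : 0 < w.re) : Complex.arg w = Real.arctan (w.im / w.re) := by
  rw [← Complex.tan_arg]
  have h := Complex.abs_arg_lt_pi_div_two_iff.mpr (Or.inl hw)
  rw [abs_lt] at h
  rw [Real.arctan_tan h.1 h.2]

theorem Fc_re (β lam : ℝ) {y : Fin 3 → ℝ} (hy : 0 < y 2) :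
    (Fc β lam y).re = -(lam * Real.pi) * om β y := by
  have h1 := arg_eq (w := Wc (-β) y) (by simpa using hy)
  have h2 := arg_eq (w := Wc β y) (by simpa using hy)
  have : (Fc β lam y).re = lam * (Complex.arg (Wc (-β) y) - Complex.arg (Wc β y)) := by
    unfold Fc; simp [Complex.log_im]
  rw [this, h1, h2, om]
  have hpi : Real.pi ≠ 0 := Real.pi_ne_zero
  field_simp
  simp only [Wc_im, Wc_re]
  rw [show y 0 + -β * r2 y = y 0 - β * r2 y by ring]
  ring

/-- (W2). -/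
theorem norm_V0 (β lam : ℝ) {y : Fin 3 → ℝ} (hy : 0 < y 2) :
    ‖V0 β lam y‖ = Real.exp (-(lam * Real.pi) * om β y) / r2 y := by
  have hr := r2_pos hy
  unfold V0
  rw [norm_smul, norm_mul, norm_emb, norm_hat, Complex.norm_exp, Fc_re β lam hy]
  rw [Real.norm_of_nonneg (Real.rpow_nonneg hr.le _), Real.sqrt_eq_rpow]
  rw [← mul_assoc, ← Real.rpow_add hr]
  rw [show (-(3 / 2) + 1 / 2 : ℝ) = -1 by norm_num, Real.rpow_neg_one]
  field_simp

/-! ### (W3): the angle -/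

theorem om_eq (β : ℝ) (y : Fin 3 → ℝ) :
    om β y = (Real.arctan ((β * r2 y + y 0) / y 2) + Real.arctan ((β * r2 y - y 0) / y 2)) / Real.pi := by
  unfold om
  rw [show (y 0 - β * r2 y) / y 2 = -((β * r2 y - y 0) / y 2) by ring, Real.arctan_neg,
    show y 0 + β * r2 y = β * r2 y + y 0 by ring, sub_neg_eq_add]

theorem om_lt_one (β : ℝ) (y : Fin 3 → ℝ) : om β y < 1 := by
  rw [om_eq, div_lt_one Real.pi_pos]
  have h1 := Real.arctan_lt_pi_div_two ((β * r2 y + y 0) / y 2)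
  have h2 := Real.arctan_lt_pi_div_two ((β * r2 y - y 0) / y 2)
  linarith

theorem om_pos {β : ℝ} (hβ : 0 < β) {y : Fin 3 → ℝ} (hy : 0 < y 2) : 0 < om β y := by
  unfold om
  have hr := r2_pos hy
  apply div_pos _ Real.pi_pos
  rw [sub_pos]
  apply Real.arctan_strictMono
  apply div_lt_div_of_pos_right _ hy
  have : 0 < β * r2 y := mul_pos hβ hr
  linarith

/-- (W3), first part. -/
theorem one_sub_om_ge {β : ℝ} (hβ : 0 < β) {y : Fin 3 → ℝ} (hy : 0 < y 2) :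
    2 / Real.pi * Real.arctan (y 2 / (|y 0| + β * r2 y)) ≤ 1 - om β y := by
  have hr := r2_pos hy
  have hA : 0 < |y 0| + β * r2 y := by have := mul_pos hβ hr; positivity
  have h1 : Real.arctan ((β * r2 y + y 0) / y 2) ≤ Real.arctan ((|y 0| + β * r2 y) / y 2) := by
    apply Real.arctan_strictMono.monotone
    apply div_le_div_of_nonneg_right _ hy.le
    have := le_abs_self (y 0); linarith
  have h2 : Real.arctan ((β * r2 y - y 0) / y 2) ≤ Real.arctan ((|y 0| + β * r2 y) / y 2) := by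
    apply Real.arctan_strictMono.monotone
    apply div_le_div_of_nonneg_right _ hy.le
    have := neg_abs_le (y 0); linarith
  have h3 : Real.arctan (y 2 / (|y 0| + β * r2 y)) = Real.pi / 2 - Real.arctan ((|y 0| + β * r2 y) / y 2) := by
    rw [← Real.arctan_inv_of_pos (by positivity), inv_div]
  rw [h3, om_eq]
  have hpi := Real.pi_pos
  have h4 : (Real.arctan ((β * r2 y + y 0) / y 2) + Real.arctan ((β * r2 y - y 0) / y 2)) / Real.pi
      ≤ (2 * Real.arctan ((|y 0| + β * r2 y) / y 2)) / Real.pi := by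
    apply div_le_div_of_nonneg_right _ hpi.le
    linarith
  have h5 : 2 / Real.pi * (Real.pi / 2 - Real.arctan ((|y 0| + β * r2 y) / y 2))
      = 1 - (2 * Real.arctan ((|y 0| + β * r2 y) / y 2)) / Real.pi := by
    field_simp
  linarith

/-- (W3), second part. -/
theorem one_sub_om_half {β : ℝ} {y : Fin 3 → ℝ} (hy : 0 < y 2) (h : β * r2 y ≤ |y 0|) :
    1 / 2 ≤ 1 - om β y := by
  have hpi := Real.pi_pos
  have key : Real.arctan ((β * r2 y + y 0) / y 2) + Real.arctan ((β * r2 y - y 0) / y 2) ≤ Real.pi / 2 := by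
    rcases le_total 0 (y 0) with h0 | h0
    · rw [abs_of_nonneg h0] at h
      have h1 := Real.arctan_lt_pi_div_two ((β * r2 y + y 0) / y 2)
      have h2 : Real.arctan ((β * r2 y - y 0) / y 2) ≤ 0 := by
        rw [← Real.arctan_zero]
        apply Real.arctan_strictMono.monotone
        apply div_nonpos_of_nonpos_of_nonneg _ hy.le
        linarith
      linarith
    · rw [abs_of_nonpos h0] at h
      have h1 := Real.arctan_lt_pi_div_two ((β * r2 y - y 0) / y 2)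
      have h2 : Real.arctan ((β * r2 y + y 0) / y 2) ≤ 0 := by
        rw [← Real.arctan_zero]
        apply Real.arctan_strictMono.monotone
        apply div_nonpos_of_nonpos_of_nonneg _ hy.le
        linarith
      linarith
  rw [om_eq]
  have : (Real.arctan ((β * r2 y + y 0) / y 2) + Real.arctan ((β * r2 y - y 0) / y 2)) / Real.pi
      ≤ (Real.pi / 2) / Real.pi := div_le_div_of_nonneg_right key hpi.le
  have h6 : (Real.pi / 2) / Real.pi = 1 / 2 := by field_simp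
  linarith

theorem arctan_le_self {s : ℝ} (hs : 0 ≤ s) : Real.arctan s ≤ s := by
  rcases eq_or_lt_of_le hs with h | h
  · rw [← h, Real.arctan_zero]
  · have h1 := Real.arctan_lt_pi_div_two s
    have h0 : 0 < Real.arctan s := by
      rw [← Real.arctan_zero]; exact Real.arctan_strictMono h
    have := Real.lt_tan h0 h1
    rw [Real.tan_arctan] at this
    exact this.le

/-- (W3), third part. -/
theorem one_sub_om_le {β : ℝ} (hβ : 0 < β) {y : Fin 3 → ℝ} (hy : 0 < y 2) (h : |y 0| ≤ β * r2 y / 2) :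
    1 - om β y ≤ 4 * y 2 / (Real.pi * β * r2 y) := by
  have hr := r2_pos hy
  have hpi := Real.pi_pos
  have hb := mul_pos hβ hr
  have hs := abs_le.mp h
  have h1 : Real.arctan ((β * r2 y / 2) / y 2) ≤ Real.arctan ((β * r2 y + y 0) / y 2) := by
    apply Real.arctan_strictMono.monotone
    apply div_le_div_of_nonneg_right _ hy.le
    linarith
  have h2 : Real.arctan ((β * r2 y / 2) / y 2) ≤ Real.arctan ((β * r2 y - y 0) / y 2) := by
    apply Real.arctan_strictMono.monotone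
    apply div_le_div_of_nonneg_right _ hy.le
    linarith
  have h3 : Real.arctan (y 2 / (β * r2 y / 2)) = Real.pi / 2 - Real.arctan ((β * r2 y / 2) / y 2) := by
    rw [← Real.arctan_inv_of_pos (by positivity), inv_div]
  have h4 : Real.arctan (y 2 / (β * r2 y / 2)) ≤ y 2 / (β * r2 y / 2) := arctan_le_self (by positivity)
  rw [om_eq]
  have h5 : (2 * Real.arctan ((β * r2 y / 2) / y 2)) / Real.pi
      ≤ (Real.arctan ((β * r2 y + y 0) / y 2) + Real.arctan ((β * r2 y - y 0) / y 2)) / Real.pi := by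
    apply div_le_div_of_nonneg_right _ hpi.le
    linarith
  have h6 : 1 - (2 * Real.arctan ((β * r2 y / 2) / y 2)) / Real.pi
      = 2 / Real.pi * Real.arctan (y 2 / (β * r2 y / 2)) := by
    rw [h3]; field_simp
  have h7 : 2 / Real.pi * Real.arctan (y 2 / (β * r2 y / 2)) ≤ 2 / Real.pi * (y 2 / (β * r2 y / 2)) :=
    mul_le_mul_of_nonneg_left h4 (by positivity)
  have h8 : 2 / Real.pi * (y 2 / (β * r2 y / 2)) = 4 * y 2 / (Real.pi * β * r2 y) := by
    field_simp; ring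
  linarith

/-! ### Derivatives -/

/-- `⟨y, v⟩` as a continuous linear form in `v`. -/
noncomputable def ip (y : Fin 3 → ℝ) : (Fin 3 → ℝ) →L[ℝ] ℝ :=
  y 0 • ContinuousLinearMap.proj 0 + y 1 • ContinuousLinearMap.proj 1 + y 2 • ContinuousLinearMap.proj 2

@[simp] theorem ip_apply (y v : Fin 3 → ℝ) : ip y v = y 0 * v 0 + y 1 * v 1 + y 2 * v 2 := by
  simp [ip]

theorem hasFDerivAt_r2 (y : Fin 3 → ℝ) : HasFDerivAt r2 ((2 : ℝ) • ip y) y := by
  have h : ∀ i : Fin 3, HasFDerivAt (fun y : Fin 3 → ℝ => y i) (ContinuousLinearMap.proj (R := ℝ) i) y :=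
    fun i => hasFDerivAt_apply i y
  have := (((h 0).pow 2).add ((h 1).pow 2)).add ((h 2).pow 2)
  refine this.congr_fderiv ?_
  ext v
  simp
  ring

theorem contDiff_r2 : ContDiff ℝ ∞ r2 := by
  unfold r2
  fun_prop

/-- derivative of `Wc`. -/
noncomputable def Wc' (s : ℝ) (y : Fin 3 → ℝ) : (Fin 3 → ℝ) →L[ℝ] ℂ :=
  Complex.ofRealCLM.comp (ContinuousLinearMap.proj 2)
    + (ContinuousLinearMap.smulRight (ContinuousLinearMap.proj 0 + (2 * s) • ip y) Complex.I)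

@[simp] theorem Wc'_re (s : ℝ) (y v : Fin 3 → ℝ) : (Wc' s y v).re = v 2 := by
  simp [Wc']
@[simp] theorem Wc'_im (s : ℝ) (y v : Fin 3 → ℝ) :
    (Wc' s y v).im = v 0 + 2 * s * (y 0 * v 0 + y 1 * v 1 + y 2 * v 2) := by
  simp [Wc']

theorem Wc_eq (s : ℝ) (y : Fin 3 → ℝ) : Wc s y = ((y 2 : ℝ) : ℂ) + (y 0 + s * r2 y : ℝ) • Complex.I := by
  apply Complex.ext <;> simp

theorem hasFDerivAt_Wc (s : ℝ) (y : Fin 3 → ℝ) : HasFDerivAt (Wc s) (Wc' s y) y := by
  have h : ∀ i : Fin 3, HasFDerivAt (fun y : Fin 3 → ℝ => y i) (ContinuousLinearMap.proj (R := ℝ) i) y :=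
    fun i => hasFDerivAt_apply i y
  have h2 : HasFDerivAt (fun y : Fin 3 → ℝ => ((y 2 : ℝ) : ℂ))
      (Complex.ofRealCLM.comp (ContinuousLinearMap.proj 2)) y :=
    Complex.ofRealCLM.hasFDerivAt.comp y (h 2)
  have h3 := ((h 0).add ((hasFDerivAt_r2 y).const_mul s)).smul_const Complex.I
  have h4 := h2.add h3
  have h5 : HasFDerivAt (Wc s) _ y := h4.congr_of_eventuallyEq
    (Filter.Eventually.of_forall (fun y => Wc_eq s y))
  refine h5.congr_fderiv ?_
  ext v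
  simp [Wc']
  ring

theorem contDiff_Wc (s : ℝ) : ContDiff ℝ ∞ (Wc s) := by
  have : Wc s = fun y => ((y 2 : ℝ) : ℂ) + (y 0 + s * r2 y : ℝ) • Complex.I := funext (Wc_eq s)
  rw [this]
  have h1 : ContDiff ℝ ∞ (fun y : Fin 3 → ℝ => ((y 2 : ℝ) : ℂ)) :=
    Complex.ofRealCLM.contDiff.comp (by fun_prop)
  have h2 := contDiff_r2
  apply h1.add
  fun_prop

theorem Wc_slit (s : ℝ) {y : Fin 3 → ℝ} (hy : 0 < y 2) : Wc s y ∈ Complex.slitPlane :=
  Or.inl hy

theorem Wc_ne (s : ℝ) {y : Fin 3 → ℝ} (hy : 0 < y 2) : Wc s y ≠ 0 :=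
  Complex.slitPlane_ne_zero (Wc_slit s hy)

/-- derivative of the exponent. -/
noncomputable def Fc' (β lam : ℝ) (y : Fin 3 → ℝ) : (Fin 3 → ℝ) →L[ℝ] ℂ :=
  (-(Complex.I * lam)) • ((Wc (-β) y)⁻¹ • Wc' (-β) y - (Wc β y)⁻¹ • Wc' β y)

theorem hasFDerivAt_log_Wc (s : ℝ) {y : Fin 3 → ℝ} (hy : 0 < y 2) :
    HasFDerivAt (fun y => Complex.log (Wc s y)) ((Wc s y)⁻¹ • Wc' s y) y := by
  have h1 := (Complex.hasDerivAt_log (Wc_slit s hy)).hasFDerivAt.restrictScalars ℝ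
  have h2 := h1.comp y (hasFDerivAt_Wc s y)
  refine h2.congr_fderiv ?_
  ext v
  simp [mul_comm]

theorem hasFDerivAt_Fc (β lam : ℝ) {y : Fin 3 → ℝ} (hy : 0 < y 2) :
    HasFDerivAt (Fc β lam) (Fc' β lam y) y :=
  ((hasFDerivAt_log_Wc (-β) hy).sub (hasFDerivAt_log_Wc β hy)).const_mul _

/-- the complex exponential factor. -/
noncomputable def Ec (β lam : ℝ) (y : Fin 3 → ℝ) : ℂ := Complex.exp (Fc β lam y)

theorem hasFDerivAt_Ec (β lam : ℝ) {y : Fin 3 → ℝ} (hy : 0 < y 2) :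
    HasFDerivAt (Ec β lam) (Ec β lam y • Fc' β lam y) y :=
  (hasFDerivAt_Fc β lam hy).cexp

theorem hasFDerivAt_rpow (s : ℝ) {y : Fin 3 → ℝ} (hy : 0 < y 2) :
    HasFDerivAt (fun y => r2 y ^ s) ((s * r2 y ^ (s - 1)) • ((2 : ℝ) • ip y)) y :=
  (hasFDerivAt_r2 y).rpow_const (Or.inl (r2_pos hy).ne')

theorem contDiffAt_log_Wc (s : ℝ) {y : Fin 3 → ℝ} (hy : 0 < y 2) :
    ContDiffAt ℝ ∞ (fun y => Complex.log (Wc s y)) y :=
  ((Complex.contDiffAt_log (n := ∞) (Wc_slit s hy)).restrict_scalars ℝ).comp y (contDiff_Wc s).contDiffAt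

theorem contDiffAt_Fc (β lam : ℝ) {y : Fin 3 → ℝ} (hy : 0 < y 2) : ContDiffAt ℝ ∞ (Fc β lam) y :=
  contDiffAt_const.mul ((contDiffAt_log_Wc _ hy).sub (contDiffAt_log_Wc _ hy))

theorem contDiffAt_Ec (β lam : ℝ) {y : Fin 3 → ℝ} (hy : 0 < y 2) : ContDiffAt ℝ ∞ (Ec β lam) y :=
  (contDiffAt_Fc β lam hy).cexp

theorem contDiffAt_V0 (β lam : ℝ) {y : Fin 3 → ℝ} (hy : 0 < y 2) : ContDiffAt ℝ ∞ (V0 β lam) y := by
  unfold V0
  apply ContDiffAt.fun_smul
  · exact contDiff_r2.contDiffAt.rpow_const_of_ne (r2_pos hy).ne'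
  · exact hat.contDiff.contDiffAt.mul (emb.contDiff.contDiffAt.comp y (contDiffAt_Ec β lam hy))

/-- derivative of the basic wave. -/
theorem hasFDerivAt_V0 (β lam : ℝ) {y : Fin 3 → ℝ} (hy : 0 < y 2) :
    ∃ V' : (Fin 3 → ℝ) →L[ℝ] ℍ[ℝ], HasFDerivAt (V0 β lam) V' y ∧
      ∀ v, V' v = (-(3 * (y 0 * v 0 + y 1 * v 1 + y 2 * v 2) / r2 y)) • V0 β lam y
        - (r2 y)⁻¹ • (hat v * (hat y * V0 β lam y)) + V0 β lam y * emb (Fc' β lam y v) := by
  have hr := r2_pos hy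
  have h1 := hasFDerivAt_rpow (-(3 / 2)) hy
  have h2 : HasFDerivAt (fun y => hat y) hat y := hat.hasFDerivAt
  have h3 : HasFDerivAt (fun y => emb (Ec β lam y)) (emb.comp (Ec β lam y • Fc' β lam y)) y :=
    emb.hasFDerivAt.comp y (hasFDerivAt_Ec β lam hy)
  have h4 := h1.smul (h2.mul' h3)
  refine ⟨_, h4, ?_⟩
  intro v
  have e1 : hat v * (hat y * V0 β lam y) = (r2 y ^ (-(3 / 2) : ℝ) * (-(r2 y))) • (hat v * emb (Ec β lam y)) := by
    have : hat y * V0 β lam y = (r2 y ^ (-(3 / 2) : ℝ) * (-(r2 y))) • emb (Ec β lam y) := by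
      unfold V0 Ec
      rw [mul_smul_comm, ← mul_assoc, hat_mul_hat, mul_smul]
      congr 1
      rw [← Quaternion.coe_neg, Quaternion.coe_mul_eq_smul]
    rw [this, mul_smul_comm]
  rw [e1]
  have e2 : r2 y ^ (-(3 / 2) - 1 : ℝ) = r2 y ^ (-(3 / 2) : ℝ) / r2 y := Real.rpow_sub_one hr.ne' _
  have e3 : emb ((Ec β lam y • Fc' β lam y) v) = emb (Ec β lam y) * emb (Fc' β lam y v) := by
    rw [smul_apply, smul_eq_mul, emb_mul]
  simp only [add_apply, smul_apply, ContinuousLinearMap.smulRight_apply,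
    ContinuousLinearMap.comp_apply, ip_apply]
  rw [e2]
  have e4 : V0 β lam y = (r2 y ^ (-(3 / 2) : ℝ)) • (hat y * emb (Ec β lam y)) := rfl
  rw [e4]
  generalize r2 y ^ (-(3 / 2) : ℝ) = q
  simp only [smul_eq_mul, Pi.mul_apply, MulOpposite.smul_eq_mul_unop, MulOpposite.unop_op, emb_mul]
  have e5 : (r2 y)⁻¹ • (q * -r2 y) • (hat v * emb (Ec β lam y)) = -(q • (hat v * emb (Ec β lam y))) := by
    rw [smul_smul, ← neg_smul]; congr 1; field_simp
  rw [e5, smul_add, smul_mul_assoc, smul_smul, ← mul_assoc]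
  have e6 : (-(3 / 2) * (q / r2 y) * (2 * (y 0 * v 0 + y 1 * v 1 + y 2 * v 2)))
      = (-(3 * (y 0 * v 0 + y 1 * v 1 + y 2 * v 2) / r2 y)) * q := by
    field_simp
  rw [e6]
  abel

theorem key_Wc (s : ℝ) (y : Fin 3 → ℝ) :
    hat (Pi.single 0 1) * hat y * emb (Wc' s y (Pi.single 0 1)) + hat (Pi.single 1 1) * hat y * emb (Wc' s y (Pi.single 1 1))
      + hat (Pi.single 2 1) * hat y * emb (Wc' s y (Pi.single 2 1)) = (-2 : ℝ) • emb (Wc s y) := by
  ext <;> simp [r2] <;> ring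

theorem key_Fc (β lam : ℝ) {y : Fin 3 → ℝ} (hy : 0 < y 2) :
    hat (Pi.single 0 1) * hat y * emb (Fc' β lam y (Pi.single 0 1))
      + hat (Pi.single 1 1) * hat y * emb (Fc' β lam y (Pi.single 1 1))
      + hat (Pi.single 2 1) * hat y * emb (Fc' β lam y (Pi.single 2 1)) = 0 := by
  have h : ∀ v, emb (Fc' β lam y v) = emb (Wc' (-β) y v) * emb ((Wc (-β) y)⁻¹ * -(Complex.I * lam))
      - emb (Wc' β y v) * emb ((Wc β y)⁻¹ * -(Complex.I * lam)) := by
    intro v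
    rw [← emb_mul, ← emb_mul, ← map_sub]
    congr 1
    simp only [Fc', smul_apply, sub_apply, smul_eq_mul]
    ring
  rw [h, h, h]
  have k1 := key_Wc (-β) y
  have k2 := key_Wc β y
  have e : ∀ s, emb (Wc s y) * emb ((Wc s y)⁻¹ * -(Complex.I * lam)) = emb (-(Complex.I * lam)) := by
    intro s
    rw [← emb_mul, mul_inv_cancel_left₀ (Wc_ne s hy)]
  have k3 := congrArg (fun q => q * emb ((Wc (-β) y)⁻¹ * -(Complex.I * lam))) k1
  have k4 := congrArg (fun q => q * emb ((Wc β y)⁻¹ * -(Complex.I * lam))) k2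
  simp only [smul_mul_assoc, e, add_mul] at k3 k4
  simp only [mul_sub]
  simp only [mul_assoc] at k3 k4 ⊢
  have k5 := congrArg₂ (fun a b => a - b) k3 k4
  simp only [sub_self] at k5
  rw [← k5]
  abel

/-- (W1). -/
theorem dirac_V0 (β lam : ℝ) {y : Fin 3 → ℝ} (hy : 0 < y 2) : dirac (V0 β lam) y = 0 := by
  obtain ⟨V', h, hv⟩ := hasFDerivAt_V0 β lam hy
  have hr := r2_pos hy
  unfold dirac pd J1 J2 J3 ee
  rw [h.fderiv, hv, hv, hv]
  have hi : qi = hat (Pi.single 0 1) := by ext <;> simp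
  have hj : qj = hat (Pi.single 1 1) := by ext <;> simp
  have hk : qk = hat (Pi.single 2 1) := by ext <;> simp
  rw [hi, hj, hk]
  have k := key_Fc β lam hy
  have e4 : V0 β lam y = hat y * ((r2 y ^ (-(3 / 2) : ℝ)) • emb (Ec β lam y)) := by
    rw [mul_smul_comm]; rfl
  have comm : ∀ v, ((r2 y ^ (-(3 / 2) : ℝ)) • emb (Ec β lam y)) * emb (Fc' β lam y v)
      = emb (Fc' β lam y v) * ((r2 y ^ (-(3 / 2) : ℝ)) • emb (Ec β lam y)) := by
    intro v
    rw [smul_mul_assoc, mul_smul_comm, ← emb_mul, ← emb_mul, mul_comm]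
  have k3 : hat (Pi.single 0 1) * (V0 β lam y * emb (Fc' β lam y (Pi.single 0 1)))
      + hat (Pi.single 1 1) * (V0 β lam y * emb (Fc' β lam y (Pi.single 1 1)))
      + hat (Pi.single 2 1) * (V0 β lam y * emb (Fc' β lam y (Pi.single 2 1))) = 0 := by
    rw [e4]
    simp only [mul_assoc, comm]
    simp only [← mul_assoc, ← add_mul]
    rw [k, zero_mul]
  have sq : ∀ i : Fin 3, hat (Pi.single i 1) * hat (Pi.single i 1) = -1 := by
    intro i
    rw [hat_mul_hat]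
    fin_cases i <;> simp [r2]
  have hy' : hat y = y 0 • hat (Pi.single 0 1) + y 1 • hat (Pi.single 1 1) + y 2 • hat (Pi.single 2 1) := by
    ext <;> simp
  have main : ∀ i : Fin 3, hat (Pi.single i 1) * ((r2 y)⁻¹ • (hat (Pi.single i 1) * (hat y * V0 β lam y)))
      = -((r2 y)⁻¹ • (hat y * V0 β lam y)) := by
    intro i
    rw [mul_smul_comm, ← mul_assoc, sq, neg_one_mul, smul_neg]
  simp only [mul_add (hat _), mul_sub (hat _), main]
  have fin : hat (Pi.single 0 1) * (-(3 * (y 0 * (Pi.single 0 1 : Fin 3 → ℝ) 0 + y 1 * (Pi.single 0 1 : Fin 3 → ℝ) 1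
        + y 2 * (Pi.single 0 1 : Fin 3 → ℝ) 2) / r2 y) • V0 β lam y)
      + hat (Pi.single 1 1) * (-(3 * (y 0 * (Pi.single 1 1 : Fin 3 → ℝ) 0 + y 1 * (Pi.single 1 1 : Fin 3 → ℝ) 1
        + y 2 * (Pi.single 1 1 : Fin 3 → ℝ) 2) / r2 y) • V0 β lam y)
      + hat (Pi.single 2 1) * (-(3 * (y 0 * (Pi.single 2 1 : Fin 3 → ℝ) 0 + y 1 * (Pi.single 2 1 : Fin 3 → ℝ) 1
        + y 2 * (Pi.single 2 1 : Fin 3 → ℝ) 2) / r2 y) • V0 β lam y)
      = -(3 : ℝ) • ((r2 y)⁻¹ • (hat y * V0 β lam y)) := by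
    conv_rhs => rw [hy']
    simp only [mul_smul_comm, add_mul, smul_mul_assoc]
    simp
    module
  have gen : ∀ A0 A1 A2 B0 B1 B2 Q : ℍ[ℝ], A0 + A1 + A2 = -(3 : ℝ) • Q → B0 + B1 + B2 = 0 →
      A0 - -Q + B0 + (A1 - -Q + B1) + (A2 - -Q + B2) = 0 := by
    intro A0 A1 A2 B0 B1 B2 Q h1 h2
    have : A0 - -Q + B0 + (A1 - -Q + B1) + (A2 - -Q + B2) = (A0 + A1 + A2) + (3 : ℝ) • Q + (B0 + B1 + B2) := by
      module
    rw [this, h1, h2]
    module
  exact gen _ _ _ _ _ _ _ fin k3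

end Pool.Agent.BSS.Wave

namespace Pool.Agent.BSS

/-- parameters of a wave: centre `a`, depth `del`, scale `rho`, `K`, `P` (`beta = 1 / rho`). -/
structure WP where
  a : Fin 2 → ℝ
  del : ℝ
  rho : ℝ
  K : ℝ
  P : ℝ

namespace WP

/-- the centre in `ℝ³`. -/
noncomputable def c (w : WP) : X3 := ![w.a 0, w.a 1, -w.del]

/-- the shifted point `(xi1, xi2, z)`. -/
noncomputable def y (w : WP) (x : X3) : X3 := x - w.c

@[simp] theorem y_zero (w : WP) (x : X3) : w.y x 0 = x 0 - w.a 0 := by simp [y, c]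
@[simp] theorem y_one (w : WP) (x : X3) : w.y x 1 = x 1 - w.a 1 := by simp [y, c]
@[simp] theorem y_two (w : WP) (x : X3) : w.y x 2 = x 2 + w.del := by simp [y, c]

/-- `r²`. -/
noncomputable def r2 (w : WP) (x : X3) : ℝ :=
  (x 0 - w.a 0) ^ 2 + (x 1 - w.a 1) ^ 2 + (x 2 + w.del) ^ 2

theorem r2_eq (w : WP) (x : X3) : w.r2 x = Wave.r2 (w.y x) := by simp [r2, Wave.r2]

theorem r2_pos {w : WP} {x : X3} (hz : 0 < x 2 + w.del) : 0 < w.r2 x := by
  unfold r2; positivity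

/-- the angle `om`. -/
noncomputable def om (w : WP) (x : X3) : ℝ :=
  (Real.arctan ((x 0 - w.a 0 + w.r2 x / w.rho) / (x 2 + w.del))
    - Real.arctan ((x 0 - w.a 0 - w.r2 x / w.rho) / (x 2 + w.del))) / Real.pi

theorem om_eq (w : WP) (x : X3) : w.om x = Wave.om (1 / w.rho) (w.y x) := by
  unfold om Wave.om
  rw [← r2_eq]
  simp only [y_zero, y_two]
  rw [show 1 / w.rho * w.r2 x = w.r2 x / w.rho by ring]

theorem om_lt_one (w : WP) (x : X3) : w.om x < 1 := by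
  rw [om_eq]; exact Wave.om_lt_one _ _

theorem om_pos {w : WP} {x : X3} (hrho : 0 < w.rho) (hz : 0 < x 2 + w.del) : 0 < w.om x := by
  rw [om_eq]; exact Wave.om_pos (by positivity) (by simpa using hz)

/-- (W3), first part. -/
theorem one_sub_om_ge {w : WP} {x : X3} (hrho : 0 < w.rho) (hz : 0 < x 2 + w.del) :
    2 / Real.pi * Real.arctan ((x 2 + w.del) / (|x 0 - w.a 0| + w.r2 x / w.rho)) ≤ 1 - w.om x := by
  have h := Wave.one_sub_om_ge (β := 1 / w.rho) (y := w.y x) (by positivity) (by simpa using hz)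
  rw [← om_eq, ← r2_eq, show 1 / w.rho * w.r2 x = w.r2 x / w.rho by ring] at h
  simpa using h

/-- (W3), second part. -/
theorem one_sub_om_half {w : WP} {x : X3} (hz : 0 < x 2 + w.del) (h : w.r2 x / w.rho ≤ |x 0 - w.a 0|) :
    1 / 2 ≤ 1 - w.om x := by
  rw [om_eq]
  apply Wave.one_sub_om_half (by simpa using hz)
  rw [← r2_eq, show 1 / w.rho * w.r2 x = w.r2 x / w.rho by ring]
  simpa using h

/-- (W3), third part. -/
theorem one_sub_om_le {w : WP} {x : X3} (hrho : 0 < w.rho) (hz : 0 < x 2 + w.del)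
    (h : |x 0 - w.a 0| ≤ w.r2 x / w.rho / 2) :
    1 - w.om x ≤ 4 * w.rho * (x 2 + w.del) / (Real.pi * w.r2 x) := by
  have hr := r2_pos hz
  have h1 := Wave.one_sub_om_le (β := 1 / w.rho) (y := w.y x) (by positivity) (by simpa using hz)
    (by rw [← r2_eq, show 1 / w.rho * w.r2 x = w.r2 x / w.rho by ring]; simpa using h)
  rw [← om_eq, ← r2_eq] at h1
  refine h1.trans (le_of_eq ?_)
  simp only [y_two]
  have := Real.pi_pos
  field_simp

end WP

/-- the wave `V = e^{-P} r⁻³ X c♯`. -/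
noncomputable def wave (w : WP) (x : X3) : H :=
  Real.exp (-w.P) • Wave.V0 (1 / w.rho) (w.K / Real.pi) (w.y x)

theorem wave_contDiffAt {w : WP} {x : X3} (hz : 0 < x 2 + w.del) : ContDiffAt ℝ ∞ (wave w) x := by
  unfold wave
  apply ContDiffAt.const_smul
  exact (Wave.contDiffAt_V0 _ _ (y := w.y x) (by simpa using hz)).comp x
    (contDiffAt_id.sub contDiffAt_const)

/-- (W2). -/
theorem norm_wave {w : WP} {x : X3} (hz : 0 < x 2 + w.del) :
    ‖wave w x‖ = Real.exp (-w.P - w.K * w.om x) / w.r2 x := by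
  unfold wave
  rw [norm_smul, Wave.norm_V0 _ _ (by simpa using hz), ← WP.om_eq, ← WP.r2_eq,
    Real.norm_of_nonneg (Real.exp_pos _).le, div_mul_cancel₀ _ Real.pi_ne_zero, ← mul_div_assoc,
    ← Real.exp_add]
  congr 2
  ring

theorem norm_wave_pos {w : WP} {x : X3} (hz : 0 < x 2 + w.del) : 0 < ‖wave w x‖ := by
  rw [norm_wave hz]
  exact div_pos (Real.exp_pos _) (WP.r2_pos hz)

theorem wave_ne_zero {w : WP} {x : X3} (hz : 0 < x 2 + w.del) : wave w x ≠ 0 :=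
  norm_pos_iff.mp (norm_wave_pos hz)

theorem norm_wave_le {w : WP} {x : X3} (hrho : 0 < w.rho) (hK : 0 ≤ w.K) (hz : 0 < x 2 + w.del) :
    ‖wave w x‖ ≤ Real.exp (-w.P) / w.r2 x := by
  rw [norm_wave hz]
  apply div_le_div_of_nonneg_right _ (WP.r2_pos hz).le
  apply Real.exp_le_exp.mpr
  have := mul_nonneg hK (WP.om_pos hrho hz).le
  linarith

theorem le_norm_wave {w : WP} {x : X3} (hK : 0 ≤ w.K) (hz : 0 < x 2 + w.del) :
    Real.exp (-w.P - w.K) / w.r2 x ≤ ‖wave w x‖ := by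
  rw [norm_wave hz]
  apply div_le_div_of_nonneg_right _ (WP.r2_pos hz).le
  apply Real.exp_le_exp.mpr
  have := mul_le_mul_of_nonneg_left (w.om_lt_one x).le hK
  linarith

/-- the derivative of the wave. -/
theorem hasFDerivAt_wave {w : WP} {x : X3} (hz : 0 < x 2 + w.del) :
    ∃ V' : X3 →L[ℝ] H, HasFDerivAt (wave w) V' x ∧
      ∀ v, V' v = (-(3 * (w.y x 0 * v 0 + w.y x 1 * v 1 + w.y x 2 * v 2) / w.r2 x)) • wave w x
        - (w.r2 x)⁻¹ • (Wave.hat v * (Wave.hat (w.y x) * wave w x))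
        + wave w x * Wave.emb (Wave.Fc' (1 / w.rho) (w.K / Real.pi) (w.y x) v) := by
  obtain ⟨V', h, hv⟩ := Wave.hasFDerivAt_V0 (1 / w.rho) (w.K / Real.pi) (y := w.y x) (by simpa using hz)
  have h2 : HasFDerivAt w.y (ContinuousLinearMap.id ℝ X3) x := (hasFDerivAt_id x).sub_const _
  have h3 : HasFDerivAt (wave w) (Real.exp (-w.P) • (V'.comp (ContinuousLinearMap.id ℝ X3))) x :=
    (h.comp x h2).const_smul (Real.exp (-w.P))
  refine ⟨Real.exp (-w.P) • (V'.comp (ContinuousLinearMap.id ℝ X3)), h3, ?_⟩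
  intro v
  simp only [smul_apply, ContinuousLinearMap.comp_apply, ContinuousLinearMap.id_apply]
  rw [hv]
  unfold wave
  rw [← WP.r2_eq]
  simp only [smul_add, smul_sub, mul_smul_comm, smul_mul_assoc]
  congr 1
  congr 1
  · rw [smul_comm]
  · rw [smul_comm]

/-- (W1). -/
theorem dirac_wave {w : WP} {x : X3} (hz : 0 < x 2 + w.del) : dirac (wave w) x = 0 := by
  have h0 := Wave.dirac_V0 (1 / w.rho) (w.K / Real.pi) (y := w.y x) (by simpa using hz)
  obtain ⟨V', h, hv⟩ := Wave.hasFDerivAt_V0 (1 / w.rho) (w.K / Real.pi) (y := w.y x) (by simpa using hz)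
  have h2 : HasFDerivAt w.y (ContinuousLinearMap.id ℝ X3) x := (hasFDerivAt_id x).sub_const _
  have h3 : HasFDerivAt (wave w) (Real.exp (-w.P) • (V'.comp (ContinuousLinearMap.id ℝ X3))) x :=
    (h.comp x h2).const_smul (Real.exp (-w.P))
  unfold dirac pd J1 J2 J3 at h0 ⊢
  rw [h.fderiv] at h0
  rw [h3.fderiv]
  simp only [smul_apply, ContinuousLinearMap.comp_apply, ContinuousLinearMap.id_apply, mul_smul_comm,
    ← smul_add]
  rw [h0, smul_zero]

end Pool.Agent.BSS
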