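import Pool.Agent.BSS.Cut0
import Pool.Agent.BSS.Par
import Pool.Agent.BSS.Wave

/-! Shared definitions of the construction (helper76's text, translated by helper20 to the letters
of `Base`, `Par0`, `Par`, `Cut0`, `Wave`).  The interface `ATData` is in `ATDef.lean`.

Cut-offs: `alp = alpha`, `bet = beta`, `psk = psi`, `Th = Theta`, `chi` are those of `Cut0`; the
final cut-off `PsiC` is helper63's. -/

open MeasureTheory Set Filter Topology
open scoped ContDiff

set_option maxSynthPendingDepth 3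

namespace Pool.Agent.BSS

/-! ### Centers and waves -/

/-- `prodn k = 1 / rho k`. -/
def prodn : ℕ → ℕ
  | 0 => 1
  | k + 1 => prodn k * nn (k + 1)

/-- `L_k = 8 / rho_k`; the fine lattice of scale `k` is `(1 / L_k) ℤ^2`. -/
def Lk (k : ℕ) : ℕ := 8 * prodn k

/-- A lattice point of the fine lattice of scale `k`. -/
noncomputable def lat (k : ℕ) (m : Fin 2 → ℤ) : X2 := fun i => (m i : ℝ) / (Lk k : ℝ)

/-- condition for a centre of scale `k + 1` -/
def IsCenter (k : ℕ) (m : Fin 2 → ℤ) : Prop :=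
  ((∃ i, dZ (rho k) (lat (k + 1) m i) ≤ rho (k + 1)) ∨
   (∀ i, dZ (dd (k + 1)) (lat (k + 1) m i) ≤ rho (k + 1))) ∧
  ∃ y ∈ EE k, ∀ i, |lat (k + 1) m i - y i| ≤ 2 * dd (k + 1)

open Classical in
/-- The centres of scale `k`; for `k = 0` one dummy centre (the constant wave). -/
noncomputable def Zk : ℕ → Finset (Fin 2 → ℤ)
  | 0 => {0}
  | k + 1 => (Fintype.piFinset fun _ : Fin 2 =>
      Finset.Icc (-(Lk (k + 1) : ℤ)) (2 * Lk (k + 1))).filter (IsCenter k)

/-- wave parameters of the centre `m` of scale `k ≥ 1` -/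
noncomputable def wp (S0 : ℝ) (k : ℕ) (m : Fin 2 → ℤ) : WP :=
  ⟨lat k m, del k, rho k, SS S0 k / 2, SS S0 k / 2⟩

/-- The wave `V_{k,m}`; for `k = 0` the constant `e^{-S_0}`. -/
noncomputable def Vk (S0 : ℝ) : ℕ → (Fin 2 → ℤ) → X3 → H
  | 0, _ => fun _ => Real.exp (-S0) • (1 : H)
  | k + 1, m => wave (wp S0 (k + 1) m)

/-! ### Cut-offs (abbreviations of those of `Cut0`) -/

/-- `alpha_k` -/
noncomputable abbrev alp := alpha
/-- `beta_k` -/
noncomputable abbrev bet := beta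
/-- `psi_k` -/
noncomputable abbrev psk := psi
/-- `Theta` -/
noncomputable abbrev Th := Theta

/-- the field of scale `k` with right factors `q` -/
noncomputable def Wk (S0 : ℝ) (q : ℕ → (Fin 2 → ℤ) → H) (k : ℕ) (x : X3) : H :=
  ∑ m ∈ Zk k, Vk S0 k m x * q k m

/-- the `k`-th term of `u` -/
noncomputable def uk (S0 : ℝ) (q : ℕ → (Fin 2 → ℤ) → H) : ℕ → X3 → H
  | 0 => fun x => (1 - Th x * (alp 0 (pr x) * bet 0 (x 2))) • Wk S0 q 0 x
  | k + 1 => fun x => (psk (k + 1) (x 2) * chi (k + 1) x * Th x) • Wk S0 q (k + 1) x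

/-- the function `u` -/
noncomputable def uu (S0 : ℝ) (q : ℕ → (Fin 2 → ℤ) → H) (x : X3) : H := ∑' k, uk S0 q k x

/-- largest modulus of the waves of scale `k` -/
noncomputable def mk (S0 : ℝ) (k : ℕ) (x : X3) : ℝ :=
  ⨆ m : Zk k, ‖Vk S0 k m x‖

/-- `c_k = rho_{k+2} / 8` -/
noncomputable def ck (k : ℕ) : ℝ := rho (k + 2) / 8

/-- the set `E × {0}` in `X3` -/
def EE3 : Set X3 := {x | pr x ∈ E2 ∧ x 2 = 0}

end Pool.Agent.BSS
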