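import Pool.Agent.BSS.Pock

/-!
# The cut-off `PsiC` in `t < 0` (doc H/bff03b, section 11)

`PsiC x = psi_2 (t) + sum_k alpha_k (x') (psi_(k+3) (t) - psi_(k+2) (t))`. Near a point with
`k (x) = k` this is `PsiLoc k = psi_(k+2) + alpha_k (psi_(k+3) - psi_(k+2))`; `PsiC = 1` for `t ≥ 0`;
`PsiC = 0` near the points of `E x {t < 0}`.
-/

open Set Filter
open scoped Topology

set_option maxSynthPendingDepth 3

namespace Pool.Agent.BSS

/-- The cut-off `Psi`. -/
noncomputable def PsiC (x : X3) : ℝ :=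
  psi 2 (x 2) + ∑' k, alpha k (pr x) * (psi (k + 3) (x 2) - psi (k + 2) (x 2))

/-- The local form of `PsiC`. -/
noncomputable def PsiLoc (k : ℕ) (x : X3) : ℝ :=
  psi (k + 2) (x 2) + alpha k (pr x) * (psi (k + 3) (x 2) - psi (k + 2) (x 2))

/-- The domain of the local picture of level `k`. -/
def OO (k : ℕ) : Set X3 :=
  {x | x ∉ pocket k ∧ (∀ j < k, x ∈ UU j) ∧ -(rho (k + 2) / 8) < x 2}

theorem isOpen_OO (k : ℕ) : IsOpen (OO k) := by
  have e : OO k = (pocket k)ᶜ ∩ ((⋂ j ∈ Finset.range k, UU j) ∩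
      {x : X3 | -(rho (k + 2) / 8) < x 2}) := by
    ext x
    simp [OO]
  rw [e]
  refine (isClosed_pocket k).isOpen_compl.inter (IsOpen.inter ?_ ?_)
  · exact isOpen_biInter_finset fun j _ => isOpen_UU j
  · exact isOpen_lt continuous_const (continuous_apply 2)

theorem exists_rho_lt {t : ℝ} (ht : 0 < t) : ∃ J, rho J < t :=
  (tendsto_rho.eventually_lt_const ht).exists

theorem psi_of_nonneg (k : ℕ) {t : ℝ} (ht : 0 ≤ t) : psi k t = 1 := by
  rw [psi_eq_one_iff]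
  have := del_pos' k
  linarith

theorem psi_of_le {k : ℕ} {t : ℝ} (ht : t ≤ -(rho (k + 1) / 2)) : psi k t = 0 :=
  psi_eq_zero_iff.2 ht

theorem PsiC_of_nonneg {x : X3} (h : 0 ≤ x 2) : PsiC x = 1 := by
  unfold PsiC
  have : ∀ k, alpha k (pr x) * (psi (k + 3) (x 2) - psi (k + 2) (x 2)) = 0 := by
    intro k
    rw [psi_of_nonneg _ h, psi_of_nonneg _ h, sub_self, mul_zero]
  simp only [this, tsum_zero, add_zero, psi_of_nonneg 2 h]

theorem sum_form (a : ℕ → ℝ) (f : ℕ → ℝ) (k : ℕ) (h1 : ∀ j < k, a j = 1)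
    (h2 : ∀ j, k < j → a j * (f (j + 3) - f (j + 2)) = 0) :
    f 2 + ∑' j, a j * (f (j + 3) - f (j + 2)) = f (k + 2) + a k * (f (k + 3) - f (k + 2)) := by
  rw [tsum_eq_sum (s := Finset.range (k + 1)) (fun j hj => h2 j (by simpa using hj)),
    Finset.sum_range_succ]
  have h3 : ∑ j ∈ Finset.range k, a j * (f (j + 3) - f (j + 2)) = f (k + 2) - f 2 := by
    have h4 : ∑ j ∈ Finset.range k, a j * (f (j + 3) - f (j + 2)) =
        ∑ j ∈ Finset.range k, (f (j + 1 + 2) - f (j + 2)) := by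
      refine Finset.sum_congr rfl fun j hj => ?_
      rw [h1 j (Finset.mem_range.1 hj), one_mul]
    rw [h4, Finset.sum_range_sub (fun j => f (j + 2))]
  rw [h3]
  ring

theorem alpha_of_mem_UU {k : ℕ} {x : X3} (h : x ∈ UU k) : alpha k (pr x) = 1 :=
  alpha_eq_one_iff.2 ⟨h.1, fun i => (h.2.1 i).le⟩

theorem PsiC_eq_PsiLoc {k : ℕ} {x : X3} (hk : x ∉ pocket k) (hj : ∀ j < k, x ∈ UU j) :
    PsiC =ᶠ[𝓝 x] PsiLoc k := by
  have h1 : ∀ᶠ z in 𝓝 x, ∀ j < k, alpha j (pr z) = 1 := by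
    have : ∀ j ∈ Finset.range k, ∀ᶠ z in 𝓝 x, alpha j (pr z) = 1 := by
      intro j hjk
      filter_upwards [(isOpen_UU j).mem_nhds (hj j (Finset.mem_range.1 hjk))] with z hz
      exact alpha_of_mem_UU hz
    have h4 := (Filter.eventually_all_finset (Finset.range k)).2 this
    filter_upwards [h4] with z hz j hjk using hz j (Finset.mem_range.2 hjk)
  have h2 : ∀ᶠ z in 𝓝 x, z ∉ pocket k := (isClosed_pocket k).isOpen_compl.mem_nhds hk
  filter_upwards [h1, h2] with z hz1 hz2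
  refine sum_form (fun j => alpha j (pr z)) (fun j => psi j (z 2)) k hz1 fun j hj => ?_
  rcases of_notMem_pocket hj hz2 with h | h
  · rw [alpha_of_notMem h, zero_mul]
  · have h3 : 0 ≤ z 2 := (dd_pos (j + 1)).le.trans h.le
    rw [psi_of_nonneg _ h3, psi_of_nonneg _ h3, sub_self, mul_zero]

/-- Over `E`, `PsiC` vanishes near the points with `t < 0`. -/
theorem PsiC_eq_zero_near_E {x : X3} (hE : pr x ∈ E2) (ht : x 2 < 0) : PsiC =ᶠ[𝓝 x] 0 := by
  obtain ⟨J, hJ⟩ := exists_rho_lt (t := -(x 2) / 2) (by linarith)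
  have hU : ∀ j, x ∈ UU j := fun j => by
    refine pocket_subset_UU j (mem_pocket_of_mem (Nat.lt_succ_self j) (E2_subset _ hE) ?_)
    have := dd_pos (j + 1)
    linarith
  have h1 : ∀ᶠ z in 𝓝 x, ∀ j < J, alpha j (pr z) = 1 := by
    have : ∀ j ∈ Finset.range J, ∀ᶠ z in 𝓝 x, alpha j (pr z) = 1 := by
      intro j _
      filter_upwards [(isOpen_UU j).mem_nhds (hU j)] with z hz
      exact alpha_of_mem_UU hz
    have h4 := (Filter.eventually_all_finset (Finset.range J)).2 this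
    filter_upwards [h4] with z hz j hjk using hz j (Finset.mem_range.2 hjk)
  have h2 : ∀ᶠ z : X3 in 𝓝 x, z 2 < x 2 / 2 :=
    (continuous_apply (2 : Fin 3)).continuousAt.eventually (gt_mem_nhds (by linarith))
  filter_upwards [h1, h2] with z hz1 hz2
  have h3 : ∀ j, J ≤ j → psi j (z 2) = 0 := by
    intro j hj
    refine psi_of_le ?_
    have h4 := rho_anti' (show J ≤ j + 1 by omega)
    have h5 := rho_pos (j + 1)
    linarith
  have h4 := sum_form (fun j => alpha j (pr z)) (fun j => psi j (z 2)) J hz1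
    (fun j hj => by rw [h3 _ (by omega), h3 _ (by omega)]; ring)
  refine h4.trans ?_
  rw [h3 _ (by omega), h3 _ (by omega)]
  simp

/-- `PsiLoc k` vanishes for `t ≤ - rho (k+3) / 2`. -/
theorem PsiLoc_eq_zero {k : ℕ} {x : X3} (h : x 2 ≤ -(rho (k + 3) / 2)) : PsiLoc k x = 0 := by
  have h2 : psi (k + 2) (x 2) = 0 := psi_of_le h
  have h3 : psi (k + 3) (x 2) = 0 := by
    refine psi_of_le ?_
    have := rho_anti' (show k + 3 ≤ k + 3 + 1 by omega)
    linarith
  rw [PsiLoc, h2, h3]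
  ring

theorem PsiLoc_mem (k : ℕ) (x : X3) : 0 ≤ PsiLoc k x ∧ PsiLoc k x ≤ 1 := by
  have h1 := psi_nonneg (k + 2) (x 2)
  have h2 := psi_le_one (k + 2) (x 2)
  have h3 := psi_nonneg (k + 3) (x 2)
  have h4 := psi_le_one (k + 3) (x 2)
  have h5 := alpha_nonneg k (pr x)
  have h6 := alpha_le_one k (pr x)
  unfold PsiLoc
  constructor <;> nlinarith

/-- The trichotomy: off `E x {0}` either `x` lies in `OO k` and `PsiC = PsiLoc k` near `x`
(`k = kk x`), or `PsiC = 0` near `x`. -/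
theorem PsiC_cases {x : X3} (hx : x ∉ EX) :
    (x ∈ OO (kk x) ∧ PsiC =ᶠ[𝓝 x] PsiLoc (kk x)) ∨ PsiC =ᶠ[𝓝 x] 0 := by
  by_cases h : 0 < x 2 ∨ pr x ∉ E2
  · have h1 := notMem_pocket_kk h
    have h2 : ∀ j < kk x, x ∈ UU j := fun j hj => mem_UU_of_lt_kk hj
    have h3 := PsiC_eq_PsiLoc h1 h2
    by_cases h4 : -(rho (kk x + 2) / 8) < x 2
    · exact Or.inl ⟨⟨h1, h2, h4⟩, h3⟩
    · right
      rw [not_lt] at h4
      have h5 := rho_succ_le (kk x + 2)
      have h6 := rho_pos (kk x + 2)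
      have h7 : ∀ᶠ z : X3 in 𝓝 x, z 2 < -(rho (kk x + 3) / 2) := by
        refine (continuous_apply (2 : Fin 3)).continuousAt.eventually (gt_mem_nhds ?_)
        have : rho (kk x + 3) ≤ rho (kk x + 2) / 10000000 := h5
        show x 2 < -(rho (kk x + 3) / 2)
        linarith
      filter_upwards [h3, h7] with z hz1 hz2
      rw [hz1, PsiLoc_eq_zero hz2.le]
      rfl
  · push Not at h
    right
    refine PsiC_eq_zero_near_E h.2 (lt_of_le_of_ne h.1 fun h0 => hx ⟨h.2, h0⟩)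

end Pool.Agent.BSS
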