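import Pool.Agent.BSS.Base

/-!
# Module A7, first cut: `b`, `tau`, `S^raw`

* `symOp u τ` is the symmetric operator with `symOp u τ u = τ` (for `u ≠ 0`);
* `bq A1 A2 A3` is the vector `b` of theorem AT;
* `bF u`, `tau1 u`, `tau2 u`, `Sraw1 u`, `Sraw2 u` are the fields.
-/

set_option autoImplicit false

open scoped RealInnerProductSpace ContDiff

namespace Pool.Agent.BSS

section General

variable {V : Type*} [NormedAddCommGroup V] [InnerProductSpace ℝ V]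

/-- The real inner product as a continuous bilinear map. -/
noncomputable def ipL : V →L[ℝ] V →L[ℝ] ℝ :=
  LinearMap.mkContinuous₂ (innerₗ V) 1 (fun x y => by
    rw [one_mul]; exact norm_inner_le_norm x y)

@[simp] theorem ipL_apply (x y : V) : ipL x y = ⟪x, y⟫ := rfl

/-- `(u, v) ↦ (y ↦ ⟪u, y⟫ v)` as a continuous bilinear map. -/
noncomputable def dyad : V →L[ℝ] V →L[ℝ] (V →L[ℝ] V) :=
  (ContinuousLinearMap.smulRightL ℝ V V).comp ipL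

@[simp] theorem dyad_apply (u v y : V) : dyad u v y = ⟪u, y⟫ • v := rfl

/-- `y ↦ (⟪u,y⟫ τ + ⟪τ,y⟫ u)/|u|^2 - ⟪τ,u⟫ ⟪u,y⟫ u/|u|^4`. -/
noncomputable def symOp (u τ : V) : V →L[ℝ] V :=
  (⟪u, u⟫)⁻¹ • (dyad u τ + dyad τ u) - ((⟪u, u⟫)⁻¹ * (⟪u, u⟫)⁻¹ * ⟪τ, u⟫) • dyad u u

theorem symOp_apply (u τ y : V) :
    symOp u τ y = (⟪u, u⟫)⁻¹ • (⟪u, y⟫ • τ + ⟪τ, y⟫ • u)
      - ((⟪u, u⟫)⁻¹ * (⟪u, u⟫)⁻¹ * ⟪τ, u⟫) • (⟪u, y⟫ • u) := by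
  simp [symOp]

theorem symOp_self {u : V} (hu : u ≠ 0) (τ : V) : symOp u τ u = τ := by
  have h : (⟪u, u⟫ : ℝ) ≠ 0 := by rw [real_inner_self_eq_norm_sq]; positivity
  rw [symOp_apply]
  rw [smul_add, smul_smul, smul_smul, smul_smul, inv_mul_cancel₀ h, one_smul]
  have : (⟪u, u⟫ : ℝ)⁻¹ * (⟪u, u⟫)⁻¹ * ⟪τ, u⟫ * ⟪u, u⟫ = (⟪u, u⟫)⁻¹ * ⟪τ, u⟫ := by
    field_simp
  rw [this, add_sub_cancel_right]

theorem symOp_symm (u τ a b : V) : ⟪symOp u τ a, b⟫ = ⟪a, symOp u τ b⟫ := by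
  simp only [symOp_apply, inner_sub_left, inner_sub_right, inner_smul_left, inner_smul_right,
    inner_add_left, inner_add_right, RCLike.conj_to_real]
  rw [real_inner_comm a u, real_inner_comm a τ]
  ring

@[simp] theorem symOp_zero_right (u : V) : symOp u 0 = 0 := by
  ext y; simp [symOp_apply]

@[simp] theorem symOp_zero_left (τ : V) : symOp 0 τ = 0 := by
  ext y; simp [symOp_apply]

theorem norm_symOp_le (u τ : V) : ‖symOp u τ‖ ≤ 3 * (‖τ‖ / ‖u‖) := by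
  by_cases hu : u = 0
  · subst hu
    simp
  have hpos : 0 < ‖u‖ := norm_pos_iff.mpr hu
  refine ContinuousLinearMap.opNorm_le_bound _ (by positivity) fun y => ?_
  rw [symOp_apply, real_inner_self_eq_norm_sq]
  have h1 : |⟪u, y⟫| ≤ ‖u‖ * ‖y‖ := abs_real_inner_le_norm u y
  have h2 : |⟪τ, y⟫| ≤ ‖τ‖ * ‖y‖ := abs_real_inner_le_norm τ y
  have h3 : |⟪τ, u⟫| ≤ ‖τ‖ * ‖u‖ := abs_real_inner_le_norm τ u
  have e1 : ‖(‖u‖ ^ 2)⁻¹ • (⟪u, y⟫ • τ + ⟪τ, y⟫ • u)‖ ≤ 2 * (‖τ‖ / ‖u‖) * ‖y‖ := by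
    rw [norm_smul, Real.norm_of_nonneg (by positivity)]
    calc (‖u‖ ^ 2)⁻¹ * ‖⟪u, y⟫ • τ + ⟪τ, y⟫ • u‖
        ≤ (‖u‖ ^ 2)⁻¹ * (|⟪u, y⟫| * ‖τ‖ + |⟪τ, y⟫| * ‖u‖) := by
          gcongr
          refine (norm_add_le _ _).trans ?_
          rw [norm_smul, norm_smul, Real.norm_eq_abs, Real.norm_eq_abs]
      _ ≤ (‖u‖ ^ 2)⁻¹ * (‖u‖ * ‖y‖ * ‖τ‖ + ‖τ‖ * ‖y‖ * ‖u‖) := by gcongr
      _ = 2 * (‖τ‖ / ‖u‖) * ‖y‖ := by field_simp; ring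
  have e2 : ‖((‖u‖ ^ 2)⁻¹ * (‖u‖ ^ 2)⁻¹ * ⟪τ, u⟫) • (⟪u, y⟫ • u)‖ ≤ (‖τ‖ / ‖u‖) * ‖y‖ := by
    rw [norm_smul, norm_smul, Real.norm_eq_abs, Real.norm_eq_abs, abs_mul,
      abs_of_nonneg (by positivity : (0:ℝ) ≤ (‖u‖ ^ 2)⁻¹ * (‖u‖ ^ 2)⁻¹)]
    calc (‖u‖ ^ 2)⁻¹ * (‖u‖ ^ 2)⁻¹ * |⟪τ, u⟫| * (|⟪u, y⟫| * ‖u‖)
        ≤ (‖u‖ ^ 2)⁻¹ * (‖u‖ ^ 2)⁻¹ * (‖τ‖ * ‖u‖) * (‖u‖ * ‖y‖ * ‖u‖) := by gcongr
      _ = (‖τ‖ / ‖u‖) * ‖y‖ := by field_simp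
  calc _ ≤ _ := norm_sub_le _ _
    _ ≤ 2 * (‖τ‖ / ‖u‖) * ‖y‖ + (‖τ‖ / ‖u‖) * ‖y‖ := add_le_add e1 e2
    _ = _ := by ring

/-- Smoothness of `B (f y) (g y)` for a continuous bilinear map `B`. -/
theorem sr_contDiffAt_bil {E F G K : Type*} [NormedAddCommGroup E] [NormedSpace ℝ E]
    [NormedAddCommGroup F] [NormedSpace ℝ F] [NormedAddCommGroup G] [NormedSpace ℝ G]
    [NormedAddCommGroup K] [NormedSpace ℝ K] {n : WithTop ℕ∞} (B : F →L[ℝ] G →L[ℝ] K)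
    {f : E → F} {g : E → G} {x : E} (hf : ContDiffAt ℝ n f x) (hg : ContDiffAt ℝ n g x) :
    ContDiffAt ℝ n (fun y => B (f y) (g y)) x := by
  have h1 : ContDiffAt ℝ n (fun y => B (f y)) x := B.contDiff.contDiffAt.comp x hf
  exact h1.clm_apply hg

theorem contDiffAt_symOp {E : Type*} [NormedAddCommGroup E] [NormedSpace ℝ E] {n : WithTop ℕ∞}
    {u τ : E → V} {x : E} (hu : ContDiffAt ℝ n u x) (hτ : ContDiffAt ℝ n τ x) (h0 : u x ≠ 0) :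
    ContDiffAt ℝ n (fun y => symOp (u y) (τ y)) x := by
  have hn : ContDiffAt ℝ n (fun y => (⟪u y, u y⟫ : ℝ)⁻¹) x := by
    refine (hu.inner ℝ hu).inv ?_
    rw [real_inner_self_eq_norm_sq]; positivity
  have hd1 : ContDiffAt ℝ n (fun y => (dyad (u y) (τ y) : V →L[ℝ] V)) x :=
    sr_contDiffAt_bil dyad hu hτ
  have hd2 : ContDiffAt ℝ n (fun y => (dyad (τ y) (u y) : V →L[ℝ] V)) x :=
    sr_contDiffAt_bil dyad hτ hu
  have hd3 : ContDiffAt ℝ n (fun y => (dyad (u y) (u y) : V →L[ℝ] V)) x :=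
    sr_contDiffAt_bil dyad hu hu
  unfold symOp
  exact (hn.smul (hd1.add hd2)).sub (((hn.mul hn).mul (hτ.inner ℝ hu)).smul hd3)

end General

/-! ## The complex structures and the two-forms as continuous (bi)linear maps -/

/-- `J1` as a continuous linear map. -/
noncomputable def J1L : H →L[ℝ] H := ContinuousLinearMap.mul ℝ H qi
/-- `J2` as a continuous linear map. -/
noncomputable def J2L : H →L[ℝ] H := ContinuousLinearMap.mul ℝ H qj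
/-- `J3` as a continuous linear map. -/
noncomputable def J3L : H →L[ℝ] H := ContinuousLinearMap.mul ℝ H qk

@[simp] theorem J1L_apply (b : H) : J1L b = J1 b := rfl
@[simp] theorem J2L_apply (b : H) : J2L b = J2 b := rfl
@[simp] theorem J3L_apply (b : H) : J3L b = J3 b := rfl

/-- `om1` as a continuous bilinear map. -/
noncomputable def om1L : H →L[ℝ] H →L[ℝ] ℝ := ipL.comp J1L
/-- `om2` as a continuous bilinear map. -/
noncomputable def om2L : H →L[ℝ] H →L[ℝ] ℝ := ipL.comp J2L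
/-- `om3` as a continuous bilinear map. -/
noncomputable def om3L : H →L[ℝ] H →L[ℝ] ℝ := ipL.comp J3L

@[simp] theorem om1L_apply (b c : H) : om1L b c = om1 b c := rfl
@[simp] theorem om2L_apply (b c : H) : om2L b c = om2 b c := rfl
@[simp] theorem om3L_apply (b c : H) : om3L b c = om3 b c := rfl

theorem norm_qi : ‖qi‖ = 1 := by
  have : ‖qi‖ ^ 2 = 1 := by rw [← real_inner_self_eq_norm_sq, inner_eq]; simp
  nlinarith [norm_nonneg qi]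
theorem norm_qj : ‖qj‖ = 1 := by
  have : ‖qj‖ ^ 2 = 1 := by rw [← real_inner_self_eq_norm_sq, inner_eq]; simp
  nlinarith [norm_nonneg qj]
theorem norm_qk : ‖qk‖ = 1 := by
  have : ‖qk‖ ^ 2 = 1 := by rw [← real_inner_self_eq_norm_sq, inner_eq]; simp
  nlinarith [norm_nonneg qk]

@[simp] theorem norm_J1 (b : H) : ‖J1 b‖ = ‖b‖ := by rw [J1, norm_mul, norm_qi, one_mul]
@[simp] theorem norm_J2 (b : H) : ‖J2 b‖ = ‖b‖ := by rw [J2, norm_mul, norm_qj, one_mul]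
@[simp] theorem norm_J3 (b : H) : ‖J3 b‖ = ‖b‖ := by rw [J3, norm_mul, norm_qk, one_mul]

theorem absR_om1_le (b c : H) : |om1 b c| ≤ ‖b‖ * ‖c‖ := by
  have := abs_real_inner_le_norm (J1 b) c
  rwa [norm_J1] at this
theorem absR_om2_le (b c : H) : |om2 b c| ≤ ‖b‖ * ‖c‖ := by
  have := abs_real_inner_le_norm (J2 b) c
  rwa [norm_J2] at this
theorem absR_om3_le (b c : H) : |om3 b c| ≤ ‖b‖ * ‖c‖ := by
  have := abs_real_inner_le_norm (J3 b) c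
  rwa [norm_J3] at this

/-! ## The vector `b` -/

/-- `- (J3 (i A1 + j A2 + k A3) + om1 A1 + om2 A2 + om3 A3)`, the numerator of `b`. -/
noncomputable def bnum (A1 A2 A3 : H) : H :=
  -(J3 (J1 A1 + J2 A2 + J3 A3) + om1 A1 A2 • A1 + om2 A1 A2 • A2 + om3 A1 A2 • A3)

/-- The vector `b` of theorem AT, as a function of the three partial derivatives. -/
noncomputable def bq (A1 A2 A3 : H) : H := (1 - om3 A1 A2)⁻¹ • bnum A1 A2 A3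

theorem J3_dirac (A1 A2 A3 : H) : J3 (J1 A1 + J2 A2 + J3 A3) = J2 A1 - J1 A2 - A3 := by
  ext <;> simp [J1, J2, J3, Quaternion.re_mul, Quaternion.imI_mul, Quaternion.imJ_mul,
    Quaternion.imK_mul] <;> ring

/-- The equation of theorem AT. -/
theorem bq_spec {A1 A2 : H} (A3 : H) (h : om3 A1 A2 ≠ 1) :
    (1 - om3 A1 A2) • (A3 - bq A1 A2 A3)
      = J2 A1 - J1 A2 + om1 A1 A2 • A1 + om2 A1 A2 • A2 := by
  have h' : (1 - om3 A1 A2) ≠ 0 := fun hh => h (by linarith)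
  rw [smul_sub, bq, smul_smul, mul_inv_cancel₀ h', one_smul, bnum, J3_dirac, sub_smul, one_smul]
  abel

/-- `b` vanishes when the three derivatives vanish. -/
@[simp] theorem bq_zero : bq 0 0 0 = 0 := by
  simp [bq, bnum, J1, J2, J3]

theorem norm_bnum_le (A1 A2 A3 : H) :
    ‖bnum A1 A2 A3‖ ≤ ‖J1 A1 + J2 A2 + J3 A3‖ + ‖A1‖ * ‖A2‖ * (‖A1‖ + ‖A2‖ + ‖A3‖) := by
  rw [bnum, norm_neg]
  have h1 : ‖om1 A1 A2 • A1‖ ≤ ‖A1‖ * ‖A2‖ * ‖A1‖ := by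
    rw [norm_smul, Real.norm_eq_abs]; gcongr; exact absR_om1_le _ _
  have h2 : ‖om2 A1 A2 • A2‖ ≤ ‖A1‖ * ‖A2‖ * ‖A2‖ := by
    rw [norm_smul, Real.norm_eq_abs]; gcongr; exact absR_om2_le _ _
  have h3 : ‖om3 A1 A2 • A3‖ ≤ ‖A1‖ * ‖A2‖ * ‖A3‖ := by
    rw [norm_smul, Real.norm_eq_abs]; gcongr; exact absR_om3_le _ _
  have h4 := norm_add_le (J3 (J1 A1 + J2 A2 + J3 A3) + om1 A1 A2 • A1 + om2 A1 A2 • A2)
    (om3 A1 A2 • A3)
  have h5 := norm_add_le (J3 (J1 A1 + J2 A2 + J3 A3) + om1 A1 A2 • A1) (om2 A1 A2 • A2)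
  have h6 := norm_add_le (J3 (J1 A1 + J2 A2 + J3 A3)) (om1 A1 A2 • A1)
  rw [norm_J3] at h6
  nlinarith

theorem om3_le_of {A1 A2 : H} (h1 : ‖A1‖ ≤ 1 / 10) (h2 : ‖A2‖ ≤ 1 / 10) :
    |om3 A1 A2| ≤ 1 / 100 := by
  have := absR_om3_le A1 A2
  have h3 : ‖A1‖ * ‖A2‖ ≤ (1 / 10) * (1 / 10) := by gcongr
  linarith

theorem om3_ne_one {A1 A2 : H} (h1 : ‖A1‖ ≤ 1 / 10) (h2 : ‖A2‖ ≤ 1 / 10) :
    om3 A1 A2 ≠ 1 := by
  have := om3_le_of h1 h2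
  intro h
  rw [h] at this
  norm_num at this

/-- The algebraic bound for `b`. -/
theorem norm_bq_le {A1 A2 : H} (A3 : H) (h1 : ‖A1‖ ≤ 1 / 10) (h2 : ‖A2‖ ≤ 1 / 10) :
    ‖bq A1 A2 A3‖ ≤ 2 * (‖J1 A1 + J2 A2 + J3 A3‖ + ‖A1‖ * ‖A2‖ * (‖A1‖ + ‖A2‖ + ‖A3‖)) := by
  have h3 := abs_le.mp (om3_le_of h1 h2)
  rw [bq, norm_smul, Real.norm_of_nonneg (by rw [inv_nonneg]; linarith)]
  have h4 : (1 - om3 A1 A2)⁻¹ ≤ 2 := by
    rw [inv_le_comm₀ (by linarith) (by norm_num)]; linarith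
  have h5 := norm_bnum_le A1 A2 A3
  have h6 : 0 ≤ ‖bnum A1 A2 A3‖ := norm_nonneg _
  have h7 : 0 ≤ (1 - om3 A1 A2)⁻¹ := by rw [inv_nonneg]; linarith
  calc (1 - om3 A1 A2)⁻¹ * ‖bnum A1 A2 A3‖ ≤ 2 * ‖bnum A1 A2 A3‖ := by gcongr
    _ ≤ _ := by gcongr

/-! ## The fields -/

/-- `b(x)`. -/
noncomputable def bF (u : X3 → H) (x : X3) : H := bq (pd u 0 x) (pd u 1 x) (pd u 2 x)

/-- `tau_1 = J2 b`. -/
noncomputable def tau1 (u : X3 → H) (x : X3) : H := J2 (bF u x)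
/-- `tau_2 = - J1 b`. -/
noncomputable def tau2 (u : X3 → H) (x : X3) : H := -J1 (bF u x)

/-- `S_1^raw`. -/
noncomputable def Sraw1 (u : X3 → H) (x : X3) : H →L[ℝ] H := symOp (u x) (tau1 u x)
/-- `S_2^raw`. -/
noncomputable def Sraw2 (u : X3 → H) (x : X3) : H →L[ℝ] H := symOp (u x) (tau2 u x)

theorem Sraw1_self {u : X3 → H} {x : X3} (h : u x ≠ 0) : Sraw1 u x (u x) = tau1 u x :=
  symOp_self h _
theorem Sraw2_self {u : X3 → H} {x : X3} (h : u x ≠ 0) : Sraw2 u x (u x) = tau2 u x :=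
  symOp_self h _

theorem Sraw1_symm (u : X3 → H) (x : X3) (a b : H) : ⟪Sraw1 u x a, b⟫ = ⟪a, Sraw1 u x b⟫ :=
  symOp_symm _ _ _ _
theorem Sraw2_symm (u : X3 → H) (x : X3) (a b : H) : ⟪Sraw2 u x a, b⟫ = ⟪a, Sraw2 u x b⟫ :=
  symOp_symm _ _ _ _

/-- Bound of `b(x)`: error in the Dirac equation plus cubic term. -/
theorem norm_bF_le {u : X3 → H} {x : X3} {a : ℝ} (ha : ∀ i, ‖pd u i x‖ ≤ a) (ha' : a ≤ 1 / 10) :
    ‖bF u x‖ ≤ 2 * ‖dirac u x‖ + 6 * a ^ 3 := by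
  have h := norm_bq_le (pd u 2 x) ((ha 0).trans ha') ((ha 1).trans ha')
  have h0 := ha 0
  have h1 := ha 1
  have h2 := ha 2
  have ha0 : 0 ≤ a := (norm_nonneg _).trans h0
  have h3 : ‖pd u 0 x‖ * ‖pd u 1 x‖ * (‖pd u 0 x‖ + ‖pd u 1 x‖ + ‖pd u 2 x‖) ≤ a * a * (a + a + a) := by
    gcongr
  unfold bF dirac
  nlinarith

theorem norm_tau1 (u : X3 → H) (x : X3) : ‖tau1 u x‖ = ‖bF u x‖ := norm_J2 _
theorem norm_tau2 (u : X3 → H) (x : X3) : ‖tau2 u x‖ = ‖bF u x‖ := by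
  rw [tau2, norm_neg, norm_J1]

theorem norm_Sraw1_le (u : X3 → H) (x : X3) : ‖Sraw1 u x‖ ≤ 3 * (‖bF u x‖ / ‖u x‖) := by
  rw [← norm_tau1]; exact norm_symOp_le _ _
theorem norm_Sraw2_le (u : X3 → H) (x : X3) : ‖Sraw2 u x‖ ≤ 3 * (‖bF u x‖ / ‖u x‖) := by
  rw [← norm_tau2]; exact norm_symOp_le _ _

/-- The pointwise form of theorem AT for operators which agree with the raw ones on `u x`. -/
theorem AT_point {u : X3 → H} {x : X3} (h : om3 (pd u 0 x) (pd u 1 x) ≠ 1)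
    {T1 T2 : H →L[ℝ] H} (h1 : T1 (u x) = tau1 u x) (h2 : T2 (u x) = tau2 u x) :
    ∃ b : H, T1 (u x) = J2 b ∧ T2 (u x) = -J1 b ∧
      (1 - om3 (pd u 0 x) (pd u 1 x)) • (pd u 2 x - b)
        = J2 (pd u 0 x) - J1 (pd u 1 x) + om1 (pd u 0 x) (pd u 1 x) • pd u 0 x
          + om2 (pd u 0 x) (pd u 1 x) • pd u 1 x :=
  ⟨bF u x, h1, h2, bq_spec _ h⟩

/-- The same at a point where `u` and its derivative vanish. -/
theorem AT_point_zero {u : X3 → H} {x : X3} (h0 : u x = 0) (hd : fderiv ℝ u x = 0)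
    (T1 T2 : H →L[ℝ] H) :
    ∃ b : H, T1 (u x) = J2 b ∧ T2 (u x) = -J1 b ∧
      (1 - om3 (pd u 0 x) (pd u 1 x)) • (pd u 2 x - b)
        = J2 (pd u 0 x) - J1 (pd u 1 x) + om1 (pd u 0 x) (pd u 1 x) • pd u 0 x
          + om2 (pd u 0 x) (pd u 1 x) • pd u 1 x :=
  ⟨0, by simp [h0, J2], by simp [h0, J1], by simp [pd, hd, J1, J2]⟩

/-! ## Smoothness -/

section Smooth

variable {E : Type*} [NormedAddCommGroup E] [NormedSpace ℝ E] {n : WithTop ℕ∞}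

theorem contDiffAt_bnum {A1 A2 A3 : E → H} {x : E} (h1 : ContDiffAt ℝ n A1 x)
    (h2 : ContDiffAt ℝ n A2 x) (h3 : ContDiffAt ℝ n A3 x) :
    ContDiffAt ℝ n (fun y => bnum (A1 y) (A2 y) (A3 y)) x := by
  have o1 : ContDiffAt ℝ n (fun y => om1 (A1 y) (A2 y)) x :=
    sr_contDiffAt_bil om1L h1 h2
  have o2 : ContDiffAt ℝ n (fun y => om2 (A1 y) (A2 y)) x :=
    sr_contDiffAt_bil om2L h1 h2
  have o3 : ContDiffAt ℝ n (fun y => om3 (A1 y) (A2 y)) x :=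
    sr_contDiffAt_bil om3L h1 h2
  have j1 : ContDiffAt ℝ n (fun y => J1 (A1 y)) x := J1L.contDiff.contDiffAt.comp x h1
  have j2 : ContDiffAt ℝ n (fun y => J2 (A2 y)) x := J2L.contDiff.contDiffAt.comp x h2
  have j3 : ContDiffAt ℝ n (fun y => J3 (A3 y)) x := J3L.contDiff.contDiffAt.comp x h3
  have j : ContDiffAt ℝ n (fun y => J3 (J1 (A1 y) + J2 (A2 y) + J3 (A3 y))) x :=
    J3L.contDiff.contDiffAt.comp x ((j1.add j2).add j3)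
  exact (((j.add (o1.smul h1)).add (o2.smul h2)).add (o3.smul h3)).neg

theorem contDiffAt_bq {A1 A2 A3 : E → H} {x : E} (h1 : ContDiffAt ℝ n A1 x)
    (h2 : ContDiffAt ℝ n A2 x) (h3 : ContDiffAt ℝ n A3 x) (h : om3 (A1 x) (A2 x) ≠ 1) :
    ContDiffAt ℝ n (fun y => bq (A1 y) (A2 y) (A3 y)) x := by
  have o3 : ContDiffAt ℝ n (fun y => om3 (A1 y) (A2 y)) x :=
    sr_contDiffAt_bil om3L h1 h2
  have o : ContDiffAt ℝ n (fun y => (1 - om3 (A1 y) (A2 y))⁻¹) x :=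
    (contDiffAt_const.sub o3).inv (fun hh => h (by linarith))
  exact o.smul (contDiffAt_bnum h1 h2 h3)

theorem contDiffAt_pd {u : X3 → H} {x : X3} (h : ContDiffAt ℝ ∞ u x) (i : Fin 3) :
    ContDiffAt ℝ ∞ (pd u i) x := by
  have h1 : ContDiffAt ℝ ∞ (fderiv ℝ u) x := h.fderiv_right (by simp)
  exact h1.clm_apply contDiffAt_const

theorem contDiffAt_dirac {u : X3 → H} {x : X3} (h : ContDiffAt ℝ ∞ u x) :
    ContDiffAt ℝ ∞ (dirac u) x :=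
  ((J1L.contDiff.contDiffAt.comp x (contDiffAt_pd h 0)).add
    (J2L.contDiff.contDiffAt.comp x (contDiffAt_pd h 1))).add
    (J3L.contDiff.contDiffAt.comp x (contDiffAt_pd h 2))

theorem contDiffAt_bF {u : X3 → H} {x : X3} (h : ContDiffAt ℝ ∞ u x)
    (h1 : om3 (pd u 0 x) (pd u 1 x) ≠ 1) : ContDiffAt ℝ ∞ (bF u) x :=
  contDiffAt_bq (contDiffAt_pd h 0) (contDiffAt_pd h 1) (contDiffAt_pd h 2) h1

theorem contDiffAt_Sraw1 {u : X3 → H} {x : X3} (h : ContDiffAt ℝ ∞ u x)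
    (h1 : om3 (pd u 0 x) (pd u 1 x) ≠ 1) (h0 : u x ≠ 0) : ContDiffAt ℝ ∞ (Sraw1 u) x :=
  contDiffAt_symOp h (J2L.contDiff.contDiffAt.comp x (contDiffAt_bF h h1)) h0

theorem contDiffAt_Sraw2 {u : X3 → H} {x : X3} (h : ContDiffAt ℝ ∞ u x)
    (h1 : om3 (pd u 0 x) (pd u 1 x) ≠ 1) (h0 : u x ≠ 0) : ContDiffAt ℝ ∞ (Sraw2 u) x :=
  contDiffAt_symOp h ((J1L.contDiff.contDiffAt.comp x (contDiffAt_bF h h1)).neg) h0

end Smooth

end Pool.Agent.BSS
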