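import Pool.Agent.BSS.Sets

/-!
MP_bff03b_an, part A3a (doc H/bff03b, section 7): `|E| > 1/2`.
-/

namespace Pool.Agent.BSS

open Set Filter Topology MeasureTheory

/-! ### One dimension -/

/-- The points of `[0, 1]` closer than `r` to `p ℤ`. -/
def strip1 (p r : ℝ) : Set ℝ := {s | (0 ≤ s ∧ s ≤ 1) ∧ dZ p s < r}

theorem volume_strip1_le {p r : ℝ} (hp : 0 < p) (hr : 0 ≤ r) (L : ℕ) (hL : p * L = 1) :
    volume (strip1 p r) ≤ ENNReal.ofReal (4 * (r / p)) := by
  have hL0 : 0 < L := by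
    rcases Nat.eq_zero_or_pos L with h | h
    · subst h
      simp at hL
    · exact h
  have hL1 : (1 : ℝ) ≤ L := by exact_mod_cast hL0
  have hsub : strip1 p r ⊆ ⋃ m ∈ Finset.range (L + 1), Ioo (p * (m : ℝ) - r) (p * (m : ℝ) + r) := by
    rintro s ⟨⟨h0, h1⟩, h⟩
    unfold dZ at h
    have hs0 : 0 ≤ s / p := by positivity
    have hs1 : s / p ≤ L := by
      rw [div_le_iff₀ hp]
      linarith
    have hr0 : 0 ≤ round (s / p) := by
      rw [round_eq]
      apply Int.floor_nonneg.2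
      linarith
    have hrL : round (s / p) ≤ L := by
      rw [round_eq, ← Int.lt_add_one_iff, Int.floor_lt]
      push_cast
      linarith
    obtain ⟨m, hm⟩ := Int.eq_ofNat_of_zero_le hr0
    rw [hm] at h hrL
    rw [Set.mem_iUnion₂]
    refine ⟨m, ?_, ?_⟩
    · rw [Finset.mem_range]
      have : m ≤ L := by exact_mod_cast hrL
      omega
    · rw [abs_lt] at h
      push_cast at h
      constructor <;> linarith [h.1, h.2]
  refine (measure_mono hsub).trans ((measure_biUnion_finset_le _ _).trans ?_)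
  have e : ∀ m : ℕ, volume (Ioo (p * (m : ℝ) - r) (p * (m : ℝ) + r)) = ENNReal.ofReal (2 * r) := by
    intro m
    rw [Real.volume_Ioo]
    congr 1
    ring
  simp only [e]
  rw [Finset.sum_const, Finset.card_range, nsmul_eq_mul, ← ENNReal.ofReal_natCast,
    ← ENNReal.ofReal_mul (by positivity)]
  apply ENNReal.ofReal_le_ofReal
  have h4 : r / p = r * L := by
    rw [div_eq_iff hp.ne']
    rw [mul_assoc, mul_comm (L : ℝ), hL, mul_one]
  rw [h4]
  push_cast
  nlinarith [mul_nonneg hr (sub_nonneg.2 hL1)]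

/-! ### Two dimensions -/

theorem iR_dd (k : ℕ) : dd (k + 1) * ((iR k * (1000 * NN (k + 1)) : ℕ) : ℝ) = 1 := by
  have h1 := rho_mul_iR (k + 1)
  have h2 : (0 : ℝ) < NN (k + 1) := by exact_mod_cast NN_pos (k + 1)
  have e : iR (k + 1) = iR k * nn (k + 1) := rfl
  rw [← h1, e]
  unfold dd nn
  push_cast
  ring

theorem three_rho_div_pp (k : ℕ) : 3 * rho (k + 1) / pp (k + 1) = 3 / (nn (k + 1) : ℝ) := by
  have h2 : (0 : ℝ) < nn (k + 1) := by exact_mod_cast nn_pos (k + 1)
  have h3 := rho_pos (k + 1)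
  rw [pp_eq]
  field_simp

theorem three_rho_div_dd (k : ℕ) : 3 * rho (k + 1) / dd (k + 1) = 3 / (NN (k + 1) : ℝ) := by
  have h2 : (0 : ℝ) < NN (k + 1) := by exact_mod_cast NN_pos (k + 1)
  have h3 := rho_pos (k + 1)
  unfold dd
  field_simp

theorem volume_gap_le (k : ℕ) :
    volume (EE 0 ∩ gap (k + 1)) ≤
      ENNReal.ofReal (24 / (nn (k + 1) : ℝ) + 144 / (NN (k + 1) : ℝ) ^ 2) := by
  have h3 := rho_pos (k + 1)
  set A : Fin 2 → Set X2 := fun i =>
    Set.univ.pi (fun j => if j = i then strip1 (pp (k + 1)) (3 * rho (k + 1)) else Icc (0 : ℝ) 1)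
    with hA
  set B : Set X2 := Set.univ.pi (fun _ => strip1 (dd (k + 1)) (3 * rho (k + 1))) with hB
  have hsub : EE 0 ∩ gap (k + 1) ⊆ (A 0 ∪ A 1) ∪ B := by
    rintro y ⟨hy, hg⟩
    rw [mem_EE_zero] at hy
    rcases hg with ⟨i, hi⟩ | h
    · left
      have hmem : y ∈ A i := by
        rw [hA]
        intro j _
        by_cases hj : j = i
        · subst hj
          simp only [if_true]
          exact ⟨hy j, hi⟩
        · simp only [hj, if_false]
          exact hy j
      fin_cases i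
      · exact Or.inl hmem
      · exact Or.inr hmem
    · right
      intro j _
      exact ⟨hy j, h j⟩
  have hp := pp_pos (k + 1)
  have hd := dd_pos (k + 1)
  have v1 : volume (strip1 (pp (k + 1)) (3 * rho (k + 1))) ≤
      ENNReal.ofReal (12 / (nn (k + 1) : ℝ)) := by
    refine (volume_strip1_le hp (by positivity) (iR k) (rho_mul_iR k)).trans ?_
    rw [three_rho_div_pp]
    apply ENNReal.ofReal_le_ofReal
    apply le_of_eq
    ring
  have v2 : volume (strip1 (dd (k + 1)) (3 * rho (k + 1))) ≤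
      ENNReal.ofReal (12 / (NN (k + 1) : ℝ)) := by
    refine (volume_strip1_le hd (by positivity) _ (iR_dd k)).trans ?_
    rw [three_rho_div_dd]
    apply ENNReal.ofReal_le_ofReal
    apply le_of_eq
    ring
  have vA : ∀ i, volume (A i) ≤ ENNReal.ofReal (12 / (nn (k + 1) : ℝ)) := by
    intro i
    rw [hA]
    rw [volume_pi_pi]
    rw [Fin.prod_univ_two]
    fin_cases i
    · simpa using v1
    · simpa using v1
  have vB : volume B ≤ ENNReal.ofReal (144 / (NN (k + 1) : ℝ) ^ 2) := by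
    rw [hB, volume_pi_pi, Fin.prod_univ_two]
    refine (mul_le_mul' v2 v2).trans ?_
    rw [← ENNReal.ofReal_mul (by positivity)]
    apply ENNReal.ofReal_le_ofReal
    apply le_of_eq
    ring
  refine (measure_mono hsub).trans ((measure_union_le _ _).trans ?_)
  refine (add_le_add ((measure_union_le _ _).trans (add_le_add (vA 0) (vA 1))) vB).trans ?_
  rw [← ENNReal.ofReal_add (by positivity) (by positivity),
    ← ENNReal.ofReal_add (by positivity) (by positivity)]
  apply ENNReal.ofReal_le_ofReal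
  apply le_of_eq
  ring

/-! ### The sum of the areas -/

/-- `1 / 9^(log_4 k) ≤ 16 (1/√k - 1/√(k+1))` in the form used here. -/
theorem inv_nine_pow_le (k : ℕ) :
    1 / (9 : ℝ) ^ Nat.log 4 (k + 1) ≤ 16 * (1 / √((k : ℝ) + 1) - 1 / √((k : ℝ) + 2)) := by
  set j := Nat.log 4 (k + 1) with hj
  have h4 : k + 2 ≤ 4 ^ (j + 1) := Nat.lt_pow_succ_log_self (by norm_num) (k + 1)
  set a := √((k : ℝ) + 1) with ha
  set b := √((k : ℝ) + 2) with hb
  have ha2 : a ^ 2 = (k : ℝ) + 1 := Real.sq_sqrt (by positivity)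
  have hb2 : b ^ 2 = (k : ℝ) + 2 := Real.sq_sqrt (by positivity)
  have ha0 : 0 < a := Real.sqrt_pos.2 (by positivity)
  have hb0 : 0 < b := Real.sqrt_pos.2 (by positivity)
  have hab : a ≤ b := Real.sqrt_le_sqrt (by linarith)
  have h1 : b ≤ 2 ^ (j + 1) := by
    refine Real.sqrt_le_iff.2 ⟨by positivity, ?_⟩
    have e : ((2 : ℝ) ^ (j + 1)) ^ 2 = 4 ^ (j + 1) := by
      rw [← pow_mul, mul_comm, pow_mul]
      norm_num
    rw [e]
    exact_mod_cast h4
  have h2 : b ^ 3 ≤ 8 * 9 ^ j := by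
    calc b ^ 3 ≤ ((2 : ℝ) ^ (j + 1)) ^ 3 := by gcongr
      _ = 8 * 8 ^ j := by
          rw [← pow_mul, mul_comm, pow_mul]
          norm_num
          ring
      _ ≤ 8 * 9 ^ j := by gcongr; norm_num
  have h9 : (0 : ℝ) < 9 ^ j := by positivity
  have h3 : 1 / (9 : ℝ) ^ j ≤ 8 / b ^ 3 := by
    rw [div_le_div_iff₀ h9 (by positivity)]
    linarith
  refine h3.trans ?_
  have e : 16 * (1 / a - 1 / b) = 16 * (b - a) / (a * b) := by
    field_simp
  rw [e, div_le_div_iff₀ (by positivity) (by positivity)]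
  have h5 : (b - a) * (b + a) = 1 := by nlinarith
  have h6 : b ≤ 2 * (b - a) * b ^ 2 := by
    have h7 : (b - a) * (b + a) * b ≤ (b - a) * (2 * b) * b := by
      have : 0 ≤ b - a := by linarith
      gcongr
      linarith
    rw [h5] at h7
    nlinarith
  nlinarith [mul_nonneg hb0.le (sub_nonneg.2 (hab.trans h6))]

theorem area_term_le (k : ℕ) :
    24 / (nn (k + 1) : ℝ) + 144 / (NN (k + 1) : ℝ) ^ 2 ≤
      145 / 10000 * (1 / (9 : ℝ) ^ Nat.log 4 (k + 1)) := by
  have e1 : (nn (k + 1) : ℝ) = 10000000 * 9 ^ Nat.log 4 (k + 1) := by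
    unfold nn NN
    push_cast
    rw [mul_pow, ← pow_mul, mul_comm (Nat.log 4 (k + 1)) 2, pow_mul]
    norm_num
    ring
  have e2 : (NN (k + 1) : ℝ) ^ 2 = 10000 * 9 ^ Nat.log 4 (k + 1) := by
    unfold NN
    push_cast
    rw [mul_pow, ← pow_mul, mul_comm (Nat.log 4 (k + 1)) 2, pow_mul]
    norm_num
  rw [e1, e2]
  have h9 : (0 : ℝ) < 9 ^ Nat.log 4 (k + 1) := by positivity
  rw [← div_div, ← div_div, mul_one_div, ← add_div]
  gcongr
  norm_num

theorem sum_area_le (K : ℕ) :
    ∑ k ∈ Finset.range K, (24 / (nn (k + 1) : ℝ) + 144 / (NN (k + 1) : ℝ) ^ 2) ≤ 232 / 1000 := by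
  have h : ∀ K : ℕ, ∑ k ∈ Finset.range K, (24 / (nn (k + 1) : ℝ) + 144 / (NN (k + 1) : ℝ) ^ 2) ≤
      232 / 1000 * (1 - 1 / √((K : ℝ) + 1)) := by
    intro K
    induction K with
    | zero => simp
    | succ K ih =>
        rw [Finset.sum_range_succ]
        have h1 := area_term_le K
        have h2 := inv_nine_pow_le K
        have e : ((K + 1 : ℕ) : ℝ) + 1 = (K : ℝ) + 2 := by push_cast; ring
        rw [e]
        nlinarith
  refine (h K).trans ?_
  have : 0 ≤ 1 / √((K : ℝ) + 1) := by positivity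
  linarith

theorem volume_EE_add (K : ℕ) :
    1 ≤ volume (EE K) +
      ∑ k ∈ Finset.range K,
        ENNReal.ofReal (24 / (nn (k + 1) : ℝ) + 144 / (NN (k + 1) : ℝ) ^ 2) := by
  induction K with
  | zero =>
      rw [EE_zero_eq, volume_pi_pi]
      simp
  | succ K ih =>
      refine ih.trans ?_
      rw [Finset.sum_range_succ]
      have hsub : EE K ⊆ EE (K + 1) ∪ (EE 0 ∩ gap (K + 1)) := by
        intro y hy
        by_cases hg : y ∈ gap (K + 1)
        · exact Or.inr ⟨EE_anti (Nat.zero_le K) hy, hg⟩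
        · exact Or.inl ⟨hy, hg⟩
      have h1 : volume (EE K) ≤ volume (EE (K + 1)) +
          ENNReal.ofReal (24 / (nn (K + 1) : ℝ) + 144 / (NN (K + 1) : ℝ) ^ 2) :=
        (measure_mono hsub).trans ((measure_union_le _ _).trans
          (add_le_add le_rfl (volume_gap_le K)))
      refine (add_le_add h1 le_rfl).trans (le_of_eq ?_)
      ring

theorem volume_EE_ge (K : ℕ) : ENNReal.ofReal (768 / 1000) ≤ volume (EE K) := by
  have h := volume_EE_add K
  rw [← ENNReal.ofReal_sum_of_nonneg (fun k _ => by positivity)] at h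
  have h2 := ENNReal.ofReal_le_ofReal (sum_area_le K)
  have h3 : (1 : ENNReal) ≤ volume (EE K) + ENNReal.ofReal (232 / 1000) :=
    h.trans (add_le_add le_rfl h2)
  have e : (1 : ENNReal) = ENNReal.ofReal (768 / 1000) + ENNReal.ofReal (232 / 1000) := by
    rw [← ENNReal.ofReal_add (by norm_num) (by norm_num)]
    norm_num
  rw [e] at h3
  exact (ENNReal.add_le_add_iff_right ENNReal.ofReal_ne_top).1 h3

theorem volume_E2_ge : ENNReal.ofReal (768 / 1000) ≤ volume E2 := by
  have hfin : volume (EE 0) ≠ ⊤ := (isCompact_EE 0).measure_lt_top.ne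
  have ht : Tendsto (volume ∘ EE) atTop (𝓝 (volume E2)) :=
    tendsto_measure_iInter_atTop (fun k => (isClosed_EE k).measurableSet.nullMeasurableSet)
      EE_anti ⟨0, hfin⟩
  exact ge_of_tendsto' ht volume_EE_ge

theorem half_lt_volume_E2 : (1 / 2 : ENNReal) < volume E2 := by
  refine lt_of_lt_of_le ?_ volume_E2_ge
  have e : (1 / 2 : ENNReal) = ENNReal.ofReal (1 / 2) := by
    rw [ENNReal.ofReal_div_of_pos (by norm_num)]
    simp
  rw [e]
  exact (ENNReal.ofReal_lt_ofReal_iff (by norm_num)).2 (by norm_num)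

theorem volume_E2_pos : 0 < volume E2 := lt_of_le_of_lt (by simp) half_lt_volume_E2

theorem E2_nonempty : E2.Nonempty := nonempty_of_measure_ne_zero volume_E2_pos.ne'

theorem EE_nonempty (k : ℕ) : (EE k).Nonempty := E2_nonempty.mono (E2_subset k)

end Pool.Agent.BSS
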