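import Pool.Agent.BSS.ATDef
import Pool.Agent.BSS.Defs
import Pool.Agent.BSS.PsiCut
import Pool.Agent.BSS.SRaw
import Pool.Agent.BSS.Vol

/-!
# Assembly of theorem AT

`ATInput` collects the statements about the functions `uu (S0 i) (q i)` and the raw operators which
the other modules prove; `ATInput.statement` is theorem AT.
-/

set_option autoImplicit false

open MeasureTheory Set Filter Topology
open scoped ContDiff

set_option maxSynthPendingDepth 3

namespace Pool.Agent.BSS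

/-- The inputs of theorem AT for a family of parameters `(S0 i, q i)` with unbounded `S0`. -/
structure ATInput (ι : Type) where
  S0 : ι → ℝ
  q : ι → ℕ → (Fin 2 → ℤ) → H
  ex : ∀ S : ℝ, ∃ i, S ≤ S0 i
  q_ne : ∀ i, q i 0 0 ≠ 0
  smooth : ∀ i, ContDiff ℝ ∞ (uu (S0 i) (q i))
  zero : ∀ i x, 0 ≤ x 2 → (uu (S0 i) (q i) x = 0 ↔ x 2 = 0 ∧ pr x ∈ E2)
  flat : ∀ i, ∀ x ∈ EX, fderiv ℝ (uu (S0 i) (q i)) x = 0
  small : ∀ ε > 0, ∃ S1 : ℝ, ∀ i, S1 ≤ S0 i → ∀ x,
    ‖uu (S0 i) (q i) x‖ ≤ ε ∧ ‖fderiv ℝ (uu (S0 i) (q i)) x‖ ≤ ε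
  out : ∀ i, ∀ x ∉ Box2, uu (S0 i) (q i) x = Real.exp (-S0 i) • q i 0 0
  sm1 : ∀ i, ContDiff ℝ ∞ fun x => PsiC x • Sraw1 (uu (S0 i) (q i)) x
  sm2 : ∀ i, ContDiff ℝ ∞ fun x => PsiC x • Sraw2 (uu (S0 i) (q i)) x
  small1 : ∀ ε > 0, ∃ S1 : ℝ, ∀ i, S1 ≤ S0 i → ∀ x,
    ‖PsiC x • Sraw1 (uu (S0 i) (q i)) x‖ ≤ ε ∧
      ‖fderiv ℝ (fun x => PsiC x • Sraw1 (uu (S0 i) (q i)) x) x‖ ≤ ε
  small2 : ∀ ε > 0, ∃ S1 : ℝ, ∀ i, S1 ≤ S0 i → ∀ x,
    ‖PsiC x • Sraw2 (uu (S0 i) (q i)) x‖ ≤ ε ∧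
      ‖fderiv ℝ (fun x => PsiC x • Sraw2 (uu (S0 i) (q i)) x) x‖ ≤ ε

theorem isClosed_Box2 : IsClosed Box2 := by
  unfold Box2
  refine (isClosed_le continuous_const (continuous_apply 0)).inter
    ((isClosed_le (continuous_apply 0) continuous_const).inter
    ((isClosed_le continuous_const (continuous_apply 1)).inter
    ((isClosed_le (continuous_apply 1) continuous_const).inter
    ((isClosed_le continuous_const (continuous_apply 2)).inter
    (isClosed_le (continuous_apply 2) continuous_const)))))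

private theorem norm_ee (i : Fin 3) : ‖ee i‖ ≤ 1 := by
  rw [ee, pi_norm_le_iff_of_nonneg zero_le_one]
  intro j
  by_cases h : j = i
  · subst h
    simp
  · simp [h]

private theorem norm_pd_le (u : X3 → H) (i : Fin 3) (x : X3) : ‖pd u i x‖ ≤ ‖fderiv ℝ u x‖ := by
  calc ‖pd u i x‖ ≤ ‖fderiv ℝ u x‖ * ‖ee i‖ := ContinuousLinearMap.le_opNorm _ _
    _ ≤ ‖fderiv ℝ u x‖ * 1 := mul_le_mul_of_nonneg_left (norm_ee i) (norm_nonneg _)
    _ = _ := mul_one _

private theorem bF_of_fderiv {u : X3 → H} {x : X3} (h : fderiv ℝ u x = 0) : bF u x = 0 := by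
  simp [bF, bq, bnum, pd, h, J1, J2, J3]

/-- **Theorem AT from the inputs.** -/
theorem ATInput.statement {ι : Type} (I : ATInput ι) : ATStatement := by
  intro ε hε
  set ε' := min ε (1 / 10) with hε'
  have hε'0 : 0 < ε' := lt_min hε (by norm_num)
  obtain ⟨S1, h1⟩ := I.small ε' hε'0
  obtain ⟨S2, h2⟩ := I.small1 ε' hε'0
  obtain ⟨S3, h3⟩ := I.small2 ε' hε'0
  obtain ⟨i, hi⟩ := I.ex (max S1 (max S2 S3))
  have g1 := h1 i ((le_max_left _ _).trans hi)
  have g2 := h2 i (((le_max_left _ _).trans (le_max_right _ _)).trans hi)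
  have g3 := h3 i (((le_max_right _ _).trans (le_max_right _ _)).trans hi)
  have e1 : ε' ≤ ε := min_le_left _ _
  have e2 : ε' ≤ 1 / 10 := min_le_right _ _
  set u := uu (I.S0 i) (I.q i) with hu
  have hpd : ∀ j x, ‖pd u j x‖ ≤ 1 / 10 := fun j x => (norm_pd_le u j x).trans ((g1 x).2.trans e2)
  have hfar : ∀ x ∉ Box2, fderiv ℝ u x = 0 := by
    intro x hx
    have hev : u =ᶠ[𝓝 x] fun _ => Real.exp (-I.S0 i) • I.q i 0 0 := by
      filter_upwards [isClosed_Box2.isOpen_compl.mem_nhds hx] with y hy using I.out i y hy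
    rw [hev.fderiv_eq, fderiv_fun_const]
    rfl
  refine ⟨{
    E := E2
    E_compact := isCompact_E2
    E_sub := ?_
    E_pos := volume_E2_pos
    u := u
    S1 := fun x => PsiC x • Sraw1 u x
    S2 := fun x => PsiC x • Sraw2 u x
    u_smooth := I.smooth i
    S1_smooth := I.sm1 i
    S2_smooth := I.sm2 i
    c0 := Real.exp (-I.S0 i) • I.q i 0 0
    c0_ne := smul_ne_zero (Real.exp_pos _).ne' (I.q_ne i)
    out := ?_
    zero := I.zero i
    symm1 := ?_
    symm2 := ?_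
    u_le := fun x => (g1 x).1.trans e1
    du_le := fun x => (g1 x).2.trans e1
    S1_le := fun x => (g2 x).1.trans e1
    S2_le := fun x => (g3 x).1.trans e1
    dS1_le := fun x => (g2 x).2.trans e1
    dS2_le := fun x => (g3 x).2.trans e1
    eqn := ?_ }⟩
  · intro y hy
    exact (mem_EE_zero y).1 (E2_subset 0 hy)
  · intro x hx
    have hb := bF_of_fderiv (hfar x hx)
    refine ⟨I.out i x hx, ?_, ?_⟩
    · show PsiC x • symOp (u x) (J2 (bF u x)) = 0
      rw [hb]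
      simp [J2]
    · show PsiC x • symOp (u x) (-J1 (bF u x)) = 0
      rw [hb]
      simp [J1]
  · intro x a b
    show inner ℝ ((PsiC x • Sraw1 u x) a) b = inner ℝ a ((PsiC x • Sraw1 u x) b)
    rw [smul_apply, smul_apply, inner_smul_left, inner_smul_right, Sraw1_symm]
    rfl
  · intro x a b
    show inner ℝ ((PsiC x • Sraw2 u x) a) b = inner ℝ a ((PsiC x • Sraw2 u x) b)
    rw [smul_apply, smul_apply, inner_smul_left, inner_smul_right, Sraw2_symm]
    rfl
  · intro x hx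
    by_cases h0 : u x = 0
    · have hE := (I.zero i x hx).1 h0
      exact AT_point_zero h0 (I.flat i x ⟨hE.2, hE.1⟩) _ _
    · refine AT_point (om3_ne_one (hpd 0 x) (hpd 1 x)) ?_ ?_
      · show (PsiC x • Sraw1 u x) (u x) = _
        rw [PsiC_of_nonneg hx, one_smul, Sraw1_self h0]
      · show (PsiC x • Sraw2 u x) (u x) = _
        rw [PsiC_of_nonneg hx, one_smul, Sraw2_self h0]

end Pool.Agent.BSS
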