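import Pool.Agent.BSS.Cut0

/-!
# The interface between analysis and geometry

`ATData ε` collects the output of theorem AT (doc H/bff03b, section 4).  The theorem to be proved
(module A7) is `∀ ε > 0, Nonempty (ATData ε)`.
-/

open MeasureTheory Set Filter Topology
open scoped ContDiff

set_option maxSynthPendingDepth 3

namespace Pool.Agent.BSS

/-- The data of theorem AT with smallness `ε`. -/
structure ATData (ε : ℝ) where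
  E : Set X2
  E_compact : IsCompact E
  E_sub : ∀ y ∈ E, ∀ i, 0 ≤ y i ∧ y i ≤ 1
  E_pos : 0 < volume E
  u : X3 → H
  S1 : X3 → H →L[ℝ] H
  S2 : X3 → H →L[ℝ] H
  u_smooth : ContDiff ℝ ∞ u
  S1_smooth : ContDiff ℝ ∞ S1
  S2_smooth : ContDiff ℝ ∞ S2
  c0 : H
  c0_ne : c0 ≠ 0
  out : ∀ x ∉ Box2, u x = c0 ∧ S1 x = 0 ∧ S2 x = 0
  zero : ∀ x : X3, 0 ≤ x 2 → (u x = 0 ↔ x 2 = 0 ∧ pr x ∈ E)
  symm1 : ∀ x a b, inner ℝ (S1 x a) b = inner ℝ a (S1 x b)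
  symm2 : ∀ x a b, inner ℝ (S2 x a) b = inner ℝ a (S2 x b)
  u_le : ∀ x, ‖u x‖ ≤ ε
  du_le : ∀ x, ‖fderiv ℝ u x‖ ≤ ε
  S1_le : ∀ x, ‖S1 x‖ ≤ ε
  S2_le : ∀ x, ‖S2 x‖ ≤ ε
  dS1_le : ∀ x, ‖fderiv ℝ S1 x‖ ≤ ε
  dS2_le : ∀ x, ‖fderiv ℝ S2 x‖ ≤ ε
  eqn : ∀ x : X3, 0 ≤ x 2 → ∃ b : H,
    S1 x (u x) = J2 b ∧ S2 x (u x) = -J1 b ∧
    (1 - om3 (pd u 0 x) (pd u 1 x)) • (pd u 2 x - b) =
      J2 (pd u 0 x) - J1 (pd u 1 x) + om1 (pd u 0 x) (pd u 1 x) • pd u 0 x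
        + om2 (pd u 0 x) (pd u 1 x) • pd u 1 x

/-- Theorem AT as a proposition. -/
def ATStatement : Prop := ∀ ε : ℝ, 0 < ε → Nonempty (ATData ε)

end Pool.Agent.BSS
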