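import Pool.Agent.BSS.Tame3

/-!
# Local estimates for `u = a • W0 + W1 + R`

Abstract part of the local picture (module A5b): bounds of `u`, bounds of `L (D u)` for a first
order operator `L` which kills `W0` and `W1`, lower bound of `u`.
-/

set_option maxSynthPendingDepth 3

open Set Filter
open scoped ContDiff Topology

namespace Pool.Agent.BSS

section general

variable {ι : Type*} {E F G : Type*} [NormedAddCommGroup E] [NormedSpace ℝ E]
  [NormedAddCommGroup F] [NormedSpace ℝ F] [NormedAddCommGroup G] [NormedSpace ℝ G]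
  {O : ι → Set E} {M w : ι → E → ℝ} {f : ι → E → F}

/-- a function which near every point coincides with a member of a family -/
theorem MFam.of_local {κ : Type*} {O₁ : κ → Set E} {M₁ w₁ : κ → E → ℝ} {g : κ → E → F}
    (hg : MFam O₁ M₁ w₁ g) (hO : ∀ i, IsOpen (O i)) (hM : ∀ i, ∀ x ∈ O i, 1 ≤ M i x)
    (hw : ∀ i, ∀ x ∈ O i, 0 ≤ w i x) (C' : ℕ)
    (h : ∀ i, ∀ x ∈ O i, ∃ j, x ∈ O₁ j ∧ f i =ᶠ[𝓝 x] g j ∧ M₁ j x ≤ C' * M i x ^ C' ∧
      w₁ j x ≤ C' * M i x ^ C' * w i x) : MFam O M w f := by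
  refine MFam.mk ⟨hO, hM⟩ hw (fun i x hx => ?_) fun n => ?_
  · obtain ⟨j, hj, hS, -, -⟩ := h i x hx
    exact ((hg.contDiffAt j hj).congr_of_eventuallyEq hS).contDiffWithinAt
  · obtain ⟨C, hC⟩ := hg.bound n
    refine ⟨C * C' ^ C * C' + C' * C + C', fun i x hx => ?_⟩
    obtain ⟨j, hj, hS, h1, h2⟩ := h i x hx
    rw [(hS.iteratedFDeriv ℝ n).self_of_nhds]
    refine (hC j x hj).trans ?_
    have hM1 := hg.one_le j hj
    have hM0 : 0 ≤ M₁ j x := by linarith
    have hM'1 := hM i x hx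
    have hM'0 : 0 ≤ M i x := by linarith
    have hw1 := hg.nonneg j hj
    have hw'0 := hw i x hx
    calc (C:ℝ) * M₁ j x ^ C * w₁ j x
        ≤ C * (C' * M i x ^ C') ^ C * (C' * M i x ^ C' * w i x) := by gcongr
      _ = ((C * C' ^ C * C' : ℕ) : ℝ) * M i x ^ (C' * C + C') * w i x := by
          push_cast
          rw [mul_pow, ← pow_mul]
          ring
      _ ≤ _ := by
          refine tb_le ?_ (by omega) hM'1 hw'0
          exact_mod_cast (show C * C' ^ C * C' ≤ C * C' ^ C * C' + C' * C + C' by omega)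

/-- two families of domains -/
theorem MFam.union {O' : ι → Set E} (hf : MFam O M w f) (hf' : MFam O' M w f) :
    MFam (fun i => O i ∪ O' i) M w f := by
  refine MFam.mk ⟨fun i => (hf.isOpen i).union (hf'.isOpen i), ?_⟩ ?_ (fun i x hx => ?_) fun n => ?_
  · rintro i x (hx | hx)
    · exact hf.one_le i hx
    · exact hf'.one_le i hx
  · rintro i x (hx | hx)
    · exact hf.nonneg i hx
    · exact hf'.nonneg i hx
  · rcases hx with hx | hx
    · exact (hf.contDiffAt i hx).contDiffWithinAt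
    · exact (hf'.contDiffAt i hx).contDiffWithinAt
  · obtain ⟨C, hC⟩ := hf.bound n
    obtain ⟨C', hC'⟩ := hf'.bound n
    refine ⟨C + C', fun i x hx => ?_⟩
    rcases hx with hx | hx
    · exact (hC i x hx).trans (tb_mono (by omega) (hf.one_le i hx) (hf.nonneg i hx))
    · exact (hC' i x hx).trans (tb_mono (by omega) (hf'.one_le i hx) (hf'.nonneg i hx))

/-- the weight may be improved where the function does not vanish near the point -/
theorem MFam.weight_or_zero {w' : ι → E → ℝ} (hf : MFam O M w f)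
    (hw' : ∀ i, ∀ x ∈ O i, 0 ≤ w' i x) {C' : ℕ}
    (h : ∀ i, ∀ x ∈ O i, (∀ᶠ y in 𝓝 x, f i y = 0) ∨ w i x ≤ C' * M i x ^ C' * w' i x) :
    MFam O M w' f := by
  refine MFam.mk hf.dom hw' hf.smooth fun n => ?_
  obtain ⟨C, hC⟩ := hf.bound n
  refine ⟨C * C' + C + C', fun i x hx => ?_⟩
  have hM := hf.one_le i hx
  have hM0 : 0 ≤ M i x := by linarith
  rcases h i x hx with h1 | h1
  · have h2 : f i =ᶠ[𝓝 x] fun _ => 0 := h1
    rw [(h2.iteratedFDeriv ℝ n).self_of_nhds]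
    have h3 : iteratedFDeriv ℝ n (fun _ : E => (0 : F)) = 0 := by
      simp
    rw [h3, Pi.zero_apply, norm_zero]
    exact tb_nonneg hM (hw' i x hx)
  · calc ‖iteratedFDeriv ℝ n (f i) x‖ ≤ (C:ℝ) * M i x ^ C * w i x := hC i x hx
      _ ≤ C * M i x ^ C * (C' * M i x ^ C' * w' i x) := by gcongr
      _ = ((C * C' : ℕ) : ℝ) * M i x ^ (C + C') * w' i x := by push_cast; ring
      _ ≤ _ := by
          refine tb_le ?_ (by omega) hM (hw' i x hx)
          exact_mod_cast (show C * C' ≤ C * C' + C + C' by omega)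

/-- a first order operator with constant coefficients -/
theorem MFam.op (L : (E →L[ℝ] F) →L[ℝ] G) (hf : MFam O M w f) :
    MFam O M w (fun i x => L (_root_.fderiv ℝ (f i) x)) := hf.fderiv.clm L

/-- Leibniz rule for a first order operator -/
theorem op_smul (L : (E →L[ℝ] F) →L[ℝ] G) {a : E → ℝ} {v : E → F} {x : E}
    (ha : DifferentiableAt ℝ a x) (hv : DifferentiableAt ℝ v x) :
    L (fderiv ℝ (fun y => a y • v y) x) =
      a x • L (fderiv ℝ v x) + L ((fderiv ℝ a x).smulRight (v x)) := by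
  rw [fderiv_fun_smul ha hv, map_add, map_smul]

/-- **(L1)** bounds of `u` -/
theorem local_fam {a : ι → E → ℝ} {W0 W1 R : ι → E → F} {m0 m1 : ι → E → ℝ}
    (ha : MFam O M (fun _ _ => 1) a) (h0 : MFam O M m0 W0) (h1 : MFam O M m1 W1)
    (hR : MFam O M (fun i x => max (m0 i x) (m1 i x)) R) :
    MFam O M (fun i x => max (m0 i x) (m1 i x))
      (fun i x => a i x • W0 i x + W1 i x + R i x) := by
  refine (MFam.add ?_ ?_).add hR
  · exact (ha.smul_one h0).weight_le fun i x _ => le_max_left _ _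
  · exact h1.weight_le fun i x _ => le_max_right _ _

/-- **(L2)** bounds of a first order operator of `u`, if it kills `W0` and `W1` -/
theorem local_op (L : (E →L[ℝ] F) →L[ℝ] G) {a : ι → E → ℝ} {W0 W1 R : ι → E → F}
    {m0 m1 e : ι → E → ℝ}
    (ha : MFam O M (fun _ _ => 1) a) (h0 : MFam O M m0 W0) (h1 : MFam O M m1 W1)
    (he : ∀ i, ∀ x ∈ O i, 0 ≤ e i x)
    (hR : MFam O M (fun i x => e i x * max (m0 i x) (m1 i x)) R)
    (hd0 : ∀ i, ∀ x ∈ O i, L (fderiv ℝ (W0 i) x) = 0)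
    (hd1 : ∀ i, ∀ x ∈ O i, L (fderiv ℝ (W1 i) x) = 0) {C' : ℕ}
    (hdom : ∀ i, ∀ x ∈ O i, (∀ᶠ y in 𝓝 x, fderiv ℝ (a i) y = 0) ∨
      m0 i x ≤ C' * M i x ^ C' * (e i x * m1 i x)) :
    MFam O M (fun i x => e i x * max (m0 i x) (m1 i x))
      (fun i x => L (fderiv ℝ (fun y => a i y • W0 i y + W1 i y + R i y) x)) := by
  -- the bilinear map `(φ, v) ↦ L (φ ⊗ v)`
  let B : (E →L[ℝ] ℝ) →L[ℝ] F →L[ℝ] G :=
    ((ContinuousLinearMap.compL ℝ F (E →L[ℝ] F) G) L).comp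
      (ContinuousLinearMap.smulRightL ℝ E F)
  have hB : ∀ φ v, B φ v = L (φ.smulRight v) := fun φ v => rfl
  have hm : ∀ i, ∀ x ∈ O i, 0 ≤ e i x * max (m0 i x) (m1 i x) := fun i x hx =>
    mul_nonneg (he i x hx) ((h0.nonneg i hx).trans (le_max_left _ _))
  have t1 : MFam O M (fun i x => e i x * max (m0 i x) (m1 i x))
      (fun i x => B (fderiv ℝ (a i) x) (W0 i x)) := by
    refine (ha.fderiv.bilin B h0).weight_or_zero hm (C' := C') fun i x hx => ?_
    rcases hdom i x hx with h | h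
    · left
      filter_upwards [h] with y hy
      rw [hy, map_zero]
      rfl
    · right
      rw [one_mul]
      refine h.trans ?_
      have hM := ha.one_le i hx
      have hM0 : 0 ≤ M i x := by linarith
      have := he i x hx
      have h2 : m1 i x ≤ max (m0 i x) (m1 i x) := le_max_right _ _
      gcongr
  refine (t1.add (hR.op L)).congr fun i x hx => ?_
  have da : DifferentiableAt ℝ (a i) x := (ha.contDiffAt i hx).differentiableAt (by simp)
  have d0 : DifferentiableAt ℝ (W0 i) x := (h0.contDiffAt i hx).differentiableAt (by simp)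
  have d1 : DifferentiableAt ℝ (W1 i) x := (h1.contDiffAt i hx).differentiableAt (by simp)
  have dR : DifferentiableAt ℝ (R i) x := (hR.contDiffAt i hx).differentiableAt (by simp)
  have e1 : fderiv ℝ (fun y => a i y • W0 i y + W1 i y + R i y) x =
      fderiv ℝ (fun y => a i y • W0 i y) x + fderiv ℝ (W1 i) x + fderiv ℝ (R i) x := by
    rw [fderiv_fun_add ((da.fun_smul d0).fun_add d1) dR, fderiv_fun_add (da.fun_smul d0) d1]
  simp only [e1, map_add, op_smul L da d0, hd0 i x hx, hd1 i x hx, hB]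
  simp

omit [NormedSpace ℝ F] in
/-- **(L3)** lower bound where the cut-off is one -/
theorem lower_one {th m0 m1 : ℝ} {W0 W1 R : F}
    (h01 : th * max m0 m1 ≤ ‖W0 + W1‖) (hR : ‖R‖ ≤ th / 4 * max m0 m1)
    (hth : 0 ≤ th) (hm : 0 ≤ max m0 m1) :
    th / 2 * max m0 m1 ≤ ‖W0 + W1 + R‖ := by
  have h1 : ‖W0 + W1‖ ≤ ‖W0 + W1 + R‖ + ‖R‖ := by
    have := norm_sub_le (W0 + W1 + R) R
    simpa using this
  nlinarith [mul_nonneg hth hm]

/-- **(L3)** lower bound where `W1` dominates -/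
theorem lower_dom {a th Z e m0 m1 : ℝ} {W0 W1 R : F} (ha0 : 0 ≤ a) (ha1 : a ≤ 1)
    (h1 : th * m1 ≤ ‖W1‖) (h0 : ‖W0‖ ≤ Z * m0)
    (hR : ‖R‖ ≤ th / 4 * max m0 m1) (hdom : m0 ≤ e * m1) (he : e ≤ 1) (hZe : Z * e ≤ th / 4)
    (hZ : 0 ≤ Z) (hm1 : 0 ≤ m1) :
    th / 2 * max m0 m1 ≤ ‖a • W0 + W1 + R‖ := by
  have hmm : max m0 m1 = m1 := by
    refine max_eq_right (hdom.trans ?_)
    nlinarith
  rw [hmm] at hR ⊢
  have h2 : ‖a • W0‖ ≤ th / 4 * m1 := by
    rw [norm_smul, Real.norm_of_nonneg ha0]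
    calc a * ‖W0‖ ≤ 1 * ‖W0‖ := by gcongr
      _ = ‖W0‖ := one_mul _
      _ ≤ Z * (e * m1) := h0.trans (by gcongr)
      _ = Z * e * m1 := by ring
      _ ≤ _ := by gcongr
  have h3 : ‖W1‖ ≤ ‖a • W0 + W1 + R‖ + ‖a • W0‖ + ‖R‖ := by
    have e1 : W1 = (a • W0 + W1 + R) - a • W0 - R := by abel
    calc ‖W1‖ = ‖(a • W0 + W1 + R) - a • W0 - R‖ := by rw [← e1]
      _ ≤ ‖(a • W0 + W1 + R) - a • W0‖ + ‖R‖ := norm_sub_le _ _
      _ ≤ _ := by gcongr; exact norm_sub_le _ _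
  nlinarith

/-- **(L3)**, both cases -/
theorem local_lower {a th Z e m0 m1 : ℝ} {W0 W1 R : F} (ha0 : 0 ≤ a) (ha1 : a ≤ 1)
    (h01 : th * max m0 m1 ≤ ‖W0 + W1‖)
    (h1 : th * m1 ≤ ‖W1‖) (h0 : ‖W0‖ ≤ Z * m0)
    (hR : ‖R‖ ≤ th / 4 * max m0 m1)
    (hc : a = 1 ∨ (m0 ≤ e * m1 ∧ e ≤ 1 ∧ Z * e ≤ th / 4))
    (hZ : 0 ≤ Z) (hth : 0 ≤ th) (hm1 : 0 ≤ m1) :
    th / 2 * max m0 m1 ≤ ‖a • W0 + W1 + R‖ := by
  rcases hc with rfl | ⟨h2, h3, h4⟩
  · rw [one_smul]
    exact lower_one h01 hR hth (hm1.trans (le_max_right _ _))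
  · exact lower_dom ha0 ha1 h1 h0 hR h2 h3 h4 hZ hm1

end general

end Pool.Agent.BSS
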