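import Pool.Agent.BSS.LocalAC
import Pool.Agent.BSS.LocalEst

/-!
# The local picture (b): the lower bound of `uu` on `OO k`
-/

set_option maxSynthPendingDepth 3
set_option autoImplicit false

open Set Filter
open scoped ContDiff Topology

namespace Pool.Agent.BSS

namespace LQ

/-- the threshold -/
theorem exists_thr (A : ℝ) (C : ℕ) : ∃ S1 : ℝ, 1 ≤ S1 ∧ ∀ s : ℝ, S1 ≤ s → ∀ k : ℕ,
    A * QQ s k ^ C * ew s k ≤ 1 := by
  obtain ⟨S1, h1, h2⟩ := master C A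
  refine ⟨S1, h1, fun s hs k => ?_⟩
  have h3 := h2 s hs k
  have h4 := ew_pos s k
  have h5 := eta_SS_nonneg (by linarith : 0 < s) k
  calc A * QQ s k ^ C * ew s k ≤ Real.exp (eta (k + 1) * SS s k / 1000) * ew s k := by gcongr
    _ = Real.exp (eta (k + 1) * SS s k / 1000 + -(eta (k + 1) * SS s k / 400)) := by
        rw [Real.exp_add]
        rfl
    _ ≤ 1 := by
        rw [Real.exp_le_one_iff]
        linarith

theorem norm_W0_le {s : ℝ} (hs : 1 ≤ s) {r : ℕ → (Fin 2 → ℤ) → H} (hr : ∀ k m, ‖r k m‖ ≤ 2)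
    (k : ℕ) {j : ℕ} (hj : j ≤ k + 1) (x : X3) :
    ‖Wk s r j x‖ ≤ 2000 * QQ s k ^ 2 * mk s j x := by
  have h1 := norm_Wk_le s (q := r) (k := j) (fun m _ => hr j m) x
  have h2 := card_Zk_le_div j
  have h3 := inv_rho_le_QQ' hs (i := j) (k := k) (by omega)
  have h4 := Par.rho_pos j
  have h5 : 1000 / rho j ^ 2 = 1000 * (1 / rho j) ^ 2 := by field_simp
  rw [h5] at h2
  have h6 := mk_nonneg s j x
  have h7 : (1 / rho j) ^ 2 ≤ QQ s k ^ 2 := pow_le_pow_left₀ (by positivity) h3 2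
  have h8 : ((Zk j).card : ℝ) ≤ 1000 * QQ s k ^ 2 := h2.trans (by linarith)
  calc ‖Wk s r j x‖ ≤ 2 * (Zk j).card * mk s j x := h1
    _ ≤ 2 * (1000 * QQ s k ^ 2) * mk s j x := by gcongr
    _ = _ := by ring

theorem uu_eq_at {s : ℝ} (hs : 1 ≤ s) {r : ℕ → (Fin 2 → ℤ) → H} (hr : ∀ k m, ‖r k m‖ ≤ 2)
    {k : ℕ} {x : X3} (hx : x ∈ OO k) :
    uu s r x = chi k x • Wk s r k x + Theta x • Wk s r (k + 1) x + Rk s r k x :=
  (uu_eq_local hs hr hx).self_of_nhds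

/-- pointwise lower bound in `Box2` -/
theorem lower_in {s B : ℝ} (hs : 1 ≤ s) {C₁ : ℕ} {r : ℕ → (Fin 2 → ℤ) → H}
    (hr : ∀ k m, 1 ≤ ‖r k m‖ ∧ ‖r k m‖ ≤ 2) (hg : GoodQ C₁ s r) (hB0 : 0 ≤ B)
    (hthr : ∀ k, 16000 * (B + 1) * (C₁ + 1) * QQ s k ^ (C₁ + 2) * ew s k ≤ 1) {k : ℕ} {x : X3}
    (hx : x ∈ OO k) (hb : x ∈ Box2)
    (hB : ‖Rk s r k x‖ ≤ B * (Real.exp (-SS s (k + 1)) * ew s k)) :
    LM.mm s k x ≤ 2 * ((C₁ + 1) * QQ s k ^ C₁) * ‖uu s r x‖ := by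
  have hr2 : ∀ k m, ‖r k m‖ ≤ 2 := fun k m => (hr k m).2
  have hQ := one_le_QQ hs k
  have hQ0 : 0 < QQ s k := by linarith
  set T : ℝ := (C₁ + 1) * QQ s k ^ C₁ with hT
  have hC0 : (0 : ℝ) ≤ C₁ := Nat.cast_nonneg _
  have hQC : 1 ≤ QQ s k ^ C₁ := one_le_pow₀ hQ
  have hT1 : 1 ≤ T := by
    rw [hT]
    nlinarith
  have hT0 : 0 < T := by linarith
  have hew := ew_pos s k
  have hthr' : 16000 * (B + 1) * T * QQ s k ^ 2 * ew s k ≤ 1 := by
    have h := hthr k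
    calc 16000 * (B + 1) * T * QQ s k ^ 2 * ew s k
        = 16000 * (B + 1) * (C₁ + 1) * QQ s k ^ (C₁ + 2) * ew s k := by
          rw [hT, pow_add]
          ring
      _ ≤ 1 := h
  have hQ2 : 1 ≤ QQ s k ^ 2 := one_le_pow₀ hQ
  -- the two consequences of the threshold
  have p1 : 1 ≤ (B + 1) * T := by nlinarith
  have p2 : 1 ≤ (B + 1) * T * QQ s k ^ 2 := by nlinarith
  have t1 : 164 * B * ew s k ≤ T⁻¹ := by
    rw [← one_div, le_div_iff₀ hT0]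
    refine le_trans ?_ hthr'
    have h1 : 164 * B * ew s k * T = 164 * B * T * 1 * ew s k := by ring
    rw [h1]
    gcongr <;> linarith
  have t2 : 4000 * QQ s k ^ 2 * ew s k ≤ T⁻¹ / 4 := by
    rw [← one_div, div_div, le_div_iff₀ (by positivity)]
    refine le_trans ?_ hthr'
    have h1 : 4000 * QQ s k ^ 2 * ew s k * (T * 4) = 16000 * 1 * T * QQ s k ^ 2 * ew s k := by ring
    rw [h1]
    gcongr
    linarith
  have t3 : 4 * ew s k ≤ 1 := by
    refine le_trans ?_ hthr'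
    have h1 : 16000 * (B + 1) * T * QQ s k ^ 2 * ew s k =
        16000 * ((B + 1) * T * QQ s k ^ 2) * ew s k := by ring
    rw [h1]
    gcongr
    linarith
  obtain ⟨g1, g2, g3⟩ := hg k x hb (OO_del_lt hx).le
  have gT : ∀ a b : ℝ, 0 ≤ b → a ≤ C₁ * QQ s k ^ C₁ * b → T⁻¹ * a ≤ b := by
    intro a b hb0 hab
    rw [inv_mul_le_iff₀ hT0]
    refine hab.trans ?_
    rw [hT]
    have : 0 ≤ QQ s k ^ C₁ * b := by positivity
    nlinarith
  have m0 := mk_nonneg s k x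
  have m1 := mk_nonneg s (k + 1) x
  have hR : ‖Rk s r k x‖ ≤ T⁻¹ / 4 * max (mk s k x) (mk s (k + 1) x) := by
    have h1 := tail_weight_le hs hx
    have h2 : 0 ≤ LM.mm s k x := mm_nonneg s k x
    have h3 : LM.mm s k x = max (mk s k x) (mk s (k + 1) x) := rfl
    rw [← h3]
    calc ‖Rk s r k x‖ ≤ B * (Real.exp (-SS s (k + 1)) * ew s k) := hB
      _ ≤ B * (41 * (ew s k * LM.mm s k x)) := by gcongr
      _ = (164 * B * ew s k) / 4 * LM.mm s k x := by ring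
      _ ≤ T⁻¹ / 4 * LM.mm s k x := by gcongr
  have hfin : ∀ v : H, T⁻¹ / 2 * max (mk s k x) (mk s (k + 1) x) ≤ ‖v‖ →
      LM.mm s k x ≤ 2 * T * ‖v‖ := by
    intro v hv
    have h3 : LM.mm s k x = max (mk s k x) (mk s (k + 1) x) := rfl
    rw [h3]
    have h4 := mul_le_mul_of_nonneg_left hv (show (0 : ℝ) ≤ 2 * T by positivity)
    calc max (mk s k x) (mk s (k + 1) x)
        = 2 * T * (T⁻¹ / 2 * max (mk s k x) (mk s (k + 1) x)) := by field_simp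
      _ ≤ _ := h4
  have h01 : T⁻¹ * max (mk s k x) (mk s (k + 1) x) ≤ ‖Wk s r k x + Wk s r (k + 1) x‖ := by
    rcases max_choice (mk s k x) (mk s (k + 1) x) with h | h <;> rw [h]
    · exact gT _ _ (norm_nonneg _) g1
    · exact gT _ _ (norm_nonneg _) g2
  refine hfin _ ?_
  rw [uu_eq_at hs hr2 hx]
  rcases LP.Theta_one_or_dom hs hx with hTh | ⟨hk, hdomT⟩
  · rw [hTh.self_of_nhds, one_smul]
    refine local_lower (chi_nonneg _ _) (chi_le_one _ _) (th := T⁻¹) (Z := 2000 * QQ s k ^ 2)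
      (e := Real.exp (-(SS s k * eta (k + 1) / 50))) h01 (gT _ _ (norm_nonneg _) g3)
      (norm_W0_le hs hr2 k (by omega) x) hR ?_ (by positivity) (by positivity) m1
    rcases LP.chi_one_or_dom hs hx with h | ⟨-, -, h⟩
    · exact Or.inl h.self_of_nhds
    · refine Or.inr ⟨h, (exp_dom_le_ew hs k).trans (ew_le_one hs k), ?_⟩
      have h5 := exp_dom_le_ew hs k
      calc 2000 * QQ s k ^ 2 * Real.exp (-(SS s k * eta (k + 1) / 50))
          ≤ 2000 * QQ s k ^ 2 * ew s k := by gcongr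
        _ ≤ 4000 * QQ s k ^ 2 * ew s k := by
          have : 0 ≤ QQ s k ^ 2 * ew s k := by positivity
          nlinarith
        _ ≤ _ := t2
  · have e0 : Real.exp (-(eta 1 * s / 400)) = ew s 0 := rfl
    rw [e0] at hdomT
    subst hk
    have hpos : 0 < mk s 0 x := by
      rw [mk_zero]
      exact Real.exp_pos _
    have hchi : chi 0 x = 1 := by
      rcases LP.chi_one_or_dom hs hx with h | ⟨-, -, h⟩
      · exact h.self_of_nhds
      · exfalso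
        have h6 : Real.exp (-(SS s 0 * eta (0 + 1) / 50)) ≤ 1 :=
          (exp_dom_le_ew hs 0).trans (ew_le_one hs 0)
        have h7 : mk s 0 x ≤ mk s (0 + 1) x := by nlinarith
        have h8 : mk s (0 + 1) x ≤ 2 * ew s 0 * mk s 0 x := hdomT
        nlinarith
    rw [hchi, one_smul]
    have hW0 : T⁻¹ * mk s 0 x ≤ ‖Wk s r 0 x‖ := by
      rw [Wk_zero_eq, norm_smul, Real.norm_of_nonneg (Real.exp_pos _).le, mk_zero]
      have h9 := (hr 0 0).1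
      have h10 := Real.exp_pos (-s)
      have h11 : T⁻¹ ≤ 1 := inv_le_one_of_one_le₀ hT1
      nlinarith
    have h12 := lower_dom (a := Theta x) (th := T⁻¹) (Z := 2000 * QQ s 0 ^ 2) (e := 2 * ew s 0)
      (m0 := mk s 1 x) (m1 := mk s 0 x) (W0 := Wk s r 1 x) (W1 := Wk s r 0 x) (R := Rk s r 0 x)
      (Theta_nonneg x) (Theta_le_one x) hW0 (norm_W0_le hs hr2 0 (by omega) x)
      (by rw [max_comm]; exact hR) hdomT (by linarith) (by linarith) (by positivity) hpos.le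
    rw [max_comm] at h12
    have e1 : Wk s r 0 x + Theta x • Wk s r (0 + 1) x + Rk s r 0 x =
        Theta x • Wk s r 1 x + Wk s r 0 x + Rk s r 0 x := by
      rw [add_comm (Wk s r 0 x)]
    rw [e1]
    exact h12

/-- pointwise lower bound off `Box2` -/
theorem lower_out {s : ℝ} (hs : 1 ≤ s) {r : ℕ → (Fin 2 → ℤ) → H}
    (hr : ∀ k m, 1 ≤ ‖r k m‖ ∧ ‖r k m‖ ≤ 2) {k : ℕ} {x : X3} (hx : x ∈ OO k) (hb : x ∉ Box2) :
    LM.mm s k x ≤ 2 * ‖uu s r x‖ := by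
  have hk := notMem_Box2_zero hx hb
  subst hk
  rw [LM.uu_out s r hb, norm_smul, Real.norm_of_nonneg (Real.exp_pos _).le]
  have h1 := (hr 0 0).1
  have h2 := Real.exp_pos (-s)
  have h3 : mk s 0 x = Real.exp (-s) := mk_zero s x
  have h4 : Real.exp (-s) ≤ Real.exp (-s) * ‖r 0 0‖ := le_mul_of_one_le_right h2.le h1
  refine max_le (by rw [h3]; linarith) ?_
  rcases LP.Theta_one_or_dom hs hx with h | ⟨-, h⟩
  · have h5 := h.self_of_nhds
    rw [Theta_eq_zero hb] at h5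
    exact absurd h5 zero_ne_one
  · refine h.trans ?_
    have h6 : Real.exp (-(eta 1 * s / 400)) ≤ 1 := ew_le_one hs 0
    rw [h3]
    calc 2 * Real.exp (-(eta 1 * s / 400)) * Real.exp (-s) ≤ 2 * 1 * Real.exp (-s) := by gcongr
      _ = 2 * Real.exp (-s) := by ring
      _ ≤ _ := by linarith

/-- **(b)** -/
theorem pic_b (C₁ : ℕ) : ∃ S1 : ℝ, 1 ≤ S1 ∧ ∀ (s : ℝ) (r : ℕ → (Fin 2 → ℤ) → H), S1 ≤ s →
    (∀ k m, 1 ≤ ‖r k m‖ ∧ ‖r k m‖ ≤ 2) → GoodQ C₁ s r → ∀ k, ∀ x ∈ OO k,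
      LM.mm s k x ≤ ((2 * (C₁ + 1) : ℕ) : ℝ) * QQ s k ^ (2 * (C₁ + 1)) * ‖uu s r x‖ := by
  obtain ⟨B, hB0, hB⟩ := Tail.norm_iteratedFDeriv_Rk_le TM.term_T TM.term_zero TM.termBound
    TM.termSmooth 0
  obtain ⟨S1, h1, h2⟩ := exists_thr (16000 * (B + 1) * (C₁ + 1)) (C₁ + 2)
  refine ⟨S1, h1, fun s r hs hr hg k x hx => ?_⟩
  have hs1 : 1 ≤ s := h1.trans hs
  have hQ := one_le_QQ hs1 k
  have hn := norm_nonneg (uu s r x)
  by_cases hb : x ∈ Box2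
  · have h3 := hB s r hs1 (fun k m => (hr k m).2) k x hx.1
    rw [norm_iteratedFDeriv_zero] at h3
    have h4 := lower_in hs1 hr hg hB0 (h2 s hs) hx hb h3
    have h5 := tb_le (c := 2 * ((C₁ : ℝ) + 1)) (k := C₁) (C' := 2 * (C₁ + 1)) (M := QQ s k)
      (w := ‖uu s r x‖) (by push_cast; linarith) (by omega) hQ hn
    calc LM.mm s k x ≤ 2 * ((C₁ + 1) * QQ s k ^ C₁) * ‖uu s r x‖ := h4
      _ = 2 * ((C₁ : ℝ) + 1) * QQ s k ^ C₁ * ‖uu s r x‖ := by ring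
      _ ≤ _ := h5
  · have h4 := lower_out hs1 hr hx hb
    have h5 := tb_le (c := 2) (k := 0) (C' := 2 * (C₁ + 1)) (M := QQ s k)
      (w := ‖uu s r x‖) (by push_cast; linarith [C₁.cast_nonneg (α := ℝ)]) (by omega) hQ hn
    rw [pow_zero, mul_one] at h5
    exact h4.trans h5

/-- **The local picture.** -/
theorem locPicStatement (C₁ : ℕ) : LocPicStatement C₁ := by
  obtain ⟨S1, h1, h2⟩ := pic_b C₁
  refine ⟨S1, h1, fun ι S0 q hS hq hg => ?_⟩
  have hone : ∀ i, 1 ≤ S0 i := fun i => h1.trans (hS i)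
  exact ⟨hone, pic_a hone fun i k m => (hq i k m).2,
    ⟨2 * (C₁ + 1), fun p x hx => h2 (S0 p.1) (q p.1) (hS _) (hq _) (hg _) p.2 x hx⟩,
    pic_c hone fun i k m => (hq i k m).2⟩

end LQ

end Pool.Agent.BSS
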