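import Mathlib

/-!
# BSS, module G5: boundary singular points and Hausdorff measure (helper71)
-/

set_option autoImplicit false

open MeasureTheory Set Filter Topology
open scoped ENNReal NNReal

namespace Pool.Agent.BSS

/-! ### Uniqueness of a sheet inside a level set -/

/-- If a level set of a submersion `f` with values in a space of the dimension of `Y` contains the
sheet `y = 0` of the chart `Ψ`, then near the point it contains nothing else. -/
theorem sheet_unique {X Y G W : Type*} [NormedAddCommGroup X] [NormedSpace ℝ X]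
    [NormedAddCommGroup Y] [NormedSpace ℝ Y] [NormedAddCommGroup G] [NormedSpace ℝ G]
    [NormedAddCommGroup W] [NormedSpace ℝ W] [FiniteDimensional ℝ Y] [FiniteDimensional ℝ W]
    (hdim : Module.finrank ℝ Y = Module.finrank ℝ W) (x0 : X)
    {Ψ : X × Y → G} {Ψ' : X × Y →L[ℝ] G} (hΨ : HasStrictFDerivAt Ψ Ψ' (x0, 0))
    (hs : Function.Surjective Ψ') {f : G → W} {f' : G →L[ℝ] W}
    (hf : HasStrictFDerivAt f f' (Ψ (x0, 0))) (hfs : Function.Surjective f')
    (h0 : ∀ᶠ x in 𝓝 x0, f (Ψ (x, 0)) = 0) :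
    ∀ᶠ z in 𝓝 (x0, (0 : Y)), f (Ψ z) = 0 → z.2 = 0 := by
  obtain ⟨L, hL⟩ : ∃ L : X × Y →L[ℝ] W, L = f'.comp Ψ' := ⟨_, rfl⟩
  have hh : HasStrictFDerivAt (fun z => f (Ψ z)) L (x0, 0) := by
    rw [hL]; exact hf.comp (x0, (0 : Y)) hΨ
  have hLs : Function.Surjective L := by
    rw [hL, ContinuousLinearMap.coe_comp]
    exact hfs.comp hs
  -- the derivative along the sheet vanishes
  have hL0 : ∀ v : X, L (v, 0) = 0 := by
    have h1 : HasFDerivAt (fun x : X => ((x, 0) : X × Y)) (ContinuousLinearMap.inl ℝ X Y) x0 := by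
      have := (ContinuousLinearMap.inl ℝ X Y).hasFDerivAt (x := x0)
      exact this
    have h2 : HasFDerivAt (fun x : X => f (Ψ (x, 0))) (L.comp (ContinuousLinearMap.inl ℝ X Y))
        x0 := by
      exact HasFDerivAt.comp (f := fun x : X => ((x, 0) : X × Y)) (g := fun z => f (Ψ z)) x0
        hh.hasFDerivAt h1
    have h3 : HasFDerivAt (fun x : X => f (Ψ (x, 0))) (0 : X →L[ℝ] W) x0 :=
      (hasFDerivAt_const (0 : W) x0).congr_of_eventuallyEq h0
    have h4 := h2.unique h3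
    intro v
    have h5 := congrArg (fun A : X →L[ℝ] W => A v) h4
    exact h5
  obtain ⟨A, hA⟩ : ∃ A : Y →L[ℝ] W, A = L.comp (ContinuousLinearMap.inr ℝ X Y) := ⟨_, rfl⟩
  have hAy : ∀ y, A y = L (0, y) := fun y => by rw [hA]; rfl
  have hAs : Function.Surjective (A : Y →ₗ[ℝ] W) := by
    intro w
    obtain ⟨⟨v, y⟩, hvy⟩ := hLs w
    refine ⟨y, ?_⟩
    change A y = w
    rw [hAy, ← hvy]
    have : ((v, y) : X × Y) = (v, 0) + (0, y) := by simp
    rw [this, map_add, hL0, zero_add]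
  have hAi : Function.Injective (A : Y →ₗ[ℝ] W) :=
    (LinearMap.injective_iff_surjective_of_finrank_eq_finrank hdim).2 hAs
  obtain ⟨K, hK, hanti⟩ := LinearMap.exists_antilipschitzWith (A : Y →ₗ[ℝ] W)
    (LinearMap.ker_eq_bot.2 hAi)
  have hAK : ∀ y, ‖y‖ ≤ K * ‖A y‖ := by
    intro y
    have := hanti.le_mul_dist y 0
    rw [dist_zero_right, map_zero, dist_zero_right] at this
    exact this
  have hKpos : (0 : ℝ) < K := hK
  -- the strict derivative
  have h5 : ∀ᶠ p in 𝓝 (((x0, (0 : Y)), (x0, (0 : Y))) : (X × Y) × (X × Y)),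
      ‖f (Ψ p.1) - f (Ψ p.2) - L (p.1 - p.2)‖ ≤ (1 / (2 * K)) * ‖p.1 - p.2‖ := by
    have h := hh.isLittleO.def (c := 1 / (2 * K)) (by positivity)
    exact h
  have h6 : Tendsto (fun z : X × Y => ((z, (z.1, (0 : Y))) : (X × Y) × (X × Y)))
      (𝓝 (x0, (0 : Y))) (𝓝 ((x0, (0 : Y)), (x0, (0 : Y)))) := by
    have : Continuous (fun z : X × Y => ((z, (z.1, (0 : Y))) : (X × Y) × (X × Y))) := by
      fun_prop
    have h := this.tendsto (x0, (0 : Y))
    exact h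
  have h7 := h6.eventually h5
  have h8 : ∀ᶠ z in 𝓝 (x0, (0 : Y)), f (Ψ (z.1, 0)) = 0 := by
    have : Tendsto (fun z : X × Y => z.1) (𝓝 (x0, (0 : Y))) (𝓝 x0) :=
      continuous_fst.tendsto (x0, (0 : Y))
    exact this.eventually h0
  filter_upwards [h7, h8] with z h9 h10 h11
  change ‖f (Ψ z) - f (Ψ (z.1, 0)) - L (z - (z.1, 0))‖ ≤ 1 / (2 * K) * ‖z - (z.1, 0)‖ at h9
  rw [h10, h11] at h9
  have e : z - (z.1, (0 : Y)) = (0, z.2) := by
    ext <;> simp
  rw [e, ← hAy, sub_zero, zero_sub, norm_neg] at h9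
  have h12 : ‖((0 : X), z.2)‖ = ‖z.2‖ := by
    rw [Prod.norm_def]; simp
  rw [h12] at h9
  have h13 := hAK z.2
  have h14 : (K : ℝ) * ‖A z.2‖ ≤ K * (1 / (2 * K) * ‖z.2‖) := by gcongr
  have h15 : (K : ℝ) * (1 / (2 * K) * ‖z.2‖) = ‖z.2‖ / 2 := by field_simp
  have h16 : ‖z.2‖ ≤ ‖z.2‖ / 2 := by linarith
  have h17 : ‖z.2‖ ≤ 0 := by linarith
  exact norm_le_zero_iff.1 h17

/-! ### Submanifolds, regular points -/

/-- `ℝ^7`. -/
abbrev R7 : Type := EuclideanSpace ℝ (Fin 7)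

/-- Embedded `C^1` submanifolds of `ℝ^7` of dimension `k`, given locally as zero sets of
submersions. -/
def IsSubmfd (k : ℕ) (Ξ : Set R7) : Prop :=
  ∀ p ∈ Ξ, ∃ V : Set R7, IsOpen V ∧ p ∈ V ∧ ∃ f : R7 → EuclideanSpace ℝ (Fin (7 - k)),
    ContDiffOn ℝ 1 f V ∧ (∀ q ∈ V, Function.Surjective (fderiv ℝ f q)) ∧
      Ξ ∩ V = {q ∈ V | f q = 0}

/-- `p` is a regular point of the set `S` (the support of a current): near `p` the set `S` is
contained in a three-dimensional `C^1` submanifold. -/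
def RegPt (S : Set R7) (p : R7) : Prop :=
  ∃ U : Set R7, IsOpen U ∧ p ∈ U ∧ ∃ Ξ : Set R7, Ξ ⊆ U ∧ IsSubmfd 3 Ξ ∧ S ∩ U ⊆ Ξ

/-- The points of `Γ` which are not regular. -/
def SingSet (Γ S : Set R7) : Set R7 := {p ∈ Γ | ¬ RegPt S p}

/-- Two sheets with a common point `Ψ (x0, 0)`: the sheet `y = 0` and the sheet `y = u x`,
`x ∈ D`. If `u` has nonzero values arbitrarily near `x0` then the point is not regular. -/
theorem not_reg {X Y : Type*} [NormedAddCommGroup X] [NormedSpace ℝ X]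
    [NormedAddCommGroup Y] [NormedSpace ℝ Y] [FiniteDimensional ℝ Y]
    (hdim : Module.finrank ℝ Y = 4) (x0 : X)
    {Ψ : X × Y → R7} {Ψ' : X × Y →L[ℝ] R7} (hΨ : HasStrictFDerivAt Ψ Ψ' (x0, 0))
    (hs : Function.Surjective Ψ') (S : Set R7) (hM : ∀ᶠ x in 𝓝 x0, Ψ (x, 0) ∈ S)
    (D : Set X) (u : X → Y) (hu : ContinuousWithinAt u D x0) (hu0 : u x0 = 0)
    (hN : ∃ᶠ x in 𝓝[D] x0, u x ≠ 0 ∧ Ψ (x, u x) ∈ S) :
    ¬ RegPt S (Ψ (x0, 0)) := by
  rintro ⟨U, hU, hpU, Ξ, -, hΞ, hSU⟩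
  have hpS : Ψ (x0, 0) ∈ S := hM.self_of_nhds
  obtain ⟨V, hV, hpV, f, hf, hfs, hfV⟩ := hΞ _ (hSU ⟨hpS, hpU⟩)
  have hΨc : ContinuousAt Ψ (x0, 0) := hΨ.continuousAt
  have hUV : ∀ᶠ z in 𝓝 (x0, (0 : Y)), Ψ z ∈ U ∩ V :=
    hΨc.eventually_mem ((hU.inter hV).mem_nhds ⟨hpU, hpV⟩)
  have hx : Tendsto (fun x : X => (x, (0 : Y))) (𝓝 x0) (𝓝 (x0, 0)) := by
    have : Continuous (fun x : X => (x, (0 : Y))) := by fun_prop
    exact this.tendsto x0
  have h0 : ∀ᶠ x in 𝓝 x0, f (Ψ (x, 0)) = 0 := by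
    filter_upwards [hM, hx.eventually hUV] with x h1 h2
    have h3 : Ψ (x, 0) ∈ Ξ ∩ V := ⟨hSU ⟨h1, h2.1⟩, h2.2⟩
    rw [hfV] at h3
    exact h3.2
  have hfd : HasStrictFDerivAt f (fderiv ℝ f (Ψ (x0, 0))) (Ψ (x0, 0)) :=
    (hf.contDiffAt (hV.mem_nhds hpV)).hasStrictFDerivAt (by norm_num)
  have hdim2 : Module.finrank ℝ Y = Module.finrank ℝ (EuclideanSpace ℝ (Fin (7 - 3))) := by
    rw [hdim, finrank_euclideanSpace_fin]
  have key := sheet_unique hdim2 x0 hΨ hs hfd (hfs _ hpV) h0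
  have hxu : Tendsto (fun x : X => (x, u x)) (𝓝[D] x0) (𝓝 (x0, 0)) := by
    have h1 : ContinuousWithinAt (fun x : X => (x, u x)) D x0 :=
      continuousWithinAt_id.prodMk hu
    have h2 := h1.tendsto
    rwa [hu0] at h2
  obtain ⟨x, ⟨h1, h2⟩, h3, h4⟩ := (hN.and_eventually
    ((hxu.eventually key).and (hxu.eventually hUV))).exists
  apply h1
  apply h3
  have h5 : Ψ (x, u x) ∈ Ξ ∩ V := ⟨hSU ⟨h2, h4.1⟩, h4.2⟩
  rw [hfV] at h5
  exact h5.2

/-! ### Hausdorff measure -/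

/-- A map which does not contract distances much maps sets of positive measure to sets of positive
measure. -/
theorem haus_pos_of_le {X Y : Type*} [EMetricSpace X] [MeasurableSpace X] [BorelSpace X]
    [EMetricSpace Y] [MeasurableSpace Y] [BorelSpace Y] {d : ℝ} (hd : 0 ≤ d) (F : X → Y)
    (E : Set X) (K : ℝ≥0) (hF : ∀ x ∈ E, ∀ y ∈ E, edist x y ≤ K * edist (F x) (F y))
    (hE : 0 < Measure.hausdorffMeasure d E) : 0 < Measure.hausdorffMeasure d (F '' E) := by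
  classical
  rcases isEmpty_or_nonempty X with hX | hX
  · have : E = ∅ := Set.eq_empty_of_isEmpty E
    rw [this, measure_empty] at hE
    exact absurd hE (lt_irrefl _)
  obtain ⟨G, hG⟩ : ∃ G : Y → X, G = Function.invFunOn F E := ⟨_, rfl⟩
  have hGF : ∀ y ∈ F '' E, G y ∈ E ∧ F (G y) = y := by
    intro y hy
    rw [hG]
    exact ⟨Function.invFunOn_mem hy, Function.invFunOn_eq hy⟩
  have hlip : LipschitzOnWith K G (F '' E) := by
    intro a ha b hb
    obtain ⟨ha1, ha2⟩ := hGF a ha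
    obtain ⟨hb1, hb2⟩ := hGF b hb
    have h := hF _ ha1 _ hb1
    rwa [ha2, hb2] at h
  have himg : E ⊆ G '' (F '' E) := by
    intro x hx
    refine ⟨F x, ⟨x, hx, rfl⟩, ?_⟩
    obtain ⟨h1, h2⟩ := hGF (F x) ⟨x, hx, rfl⟩
    have h3 := hF _ h1 _ hx
    rw [h2, edist_self, mul_zero] at h3
    exact edist_le_zero.1 h3
  have h1 := hlip.hausdorffMeasure_image_le hd
  have h2 : Measure.hausdorffMeasure d E ≤ Measure.hausdorffMeasure d (G '' (F '' E)) :=
    measure_mono himg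
  have h3 := lt_of_lt_of_le hE (h2.trans h1)
  exact pos_of_ne_zero fun h => by rw [h, mul_zero] at h3; exact lt_irrefl _ h3

/-- The image in `ℝ^7` of a plane set of positive area has positive two-dimensional measure. -/
theorem haus_pos (F : (Fin 2 → ℝ) → R7) (E : Set (Fin 2 → ℝ)) (K : ℝ≥0)
    (hF : ∀ x ∈ E, ∀ y ∈ E, dist x y ≤ K * dist (F x) (F y)) (hE : 0 < volume E) :
    0 < Measure.hausdorffMeasure 2 (F '' E) := by
  have h2 : (Measure.hausdorffMeasure (2 : ℝ) : Measure (Fin 2 → ℝ)) = volume := by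
    have h := hausdorffMeasure_pi_real (ι := Fin 2)
    simpa using h
  refine haus_pos_of_le (by norm_num) F E K ?_ (by rw [h2]; exact hE)
  intro x hx y hy
  have h := hF x hx y hy
  rw [edist_dist, edist_dist, ← ENNReal.ofReal_coe_nnreal, ← ENNReal.ofReal_mul K.coe_nonneg]
  exact ENNReal.ofReal_le_ofReal h

end Pool.Agent.BSS
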