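import Pool.Agent.BSS.Chart
import Pool.Agent.BSS.Sing

/-!
# BSS, module G5: the chart `T^2 x R x H -> R^7` and the singular set (helper71)
-/

set_option autoImplicit false
set_option maxSynthPendingDepth 3

open MeasureTheory Set Filter Topology
open scoped ENNReal NNReal

namespace Pool.Agent.BSS

/-- Distances on a short arc of the circle. -/
lemma arc_le {a b : ℝ} (h : |a - b| ≤ 1) :
    |a - b| ≤ 2 * Real.sqrt ((Real.cos a - Real.cos b) ^ 2 + (Real.sin a - Real.sin b) ^ 2) := by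
  have hpi : Real.pi ≤ 4 := Real.pi_le_four
  have hpi0 := Real.pi_gt_three
  obtain ⟨s, hs⟩ : ∃ s : ℝ, s = |a - b| / 2 := ⟨_, rfl⟩
  have hs0 : 0 ≤ s := by rw [hs]; positivity
  have hs1 : s ≤ Real.pi / 2 := by rw [hs]; linarith
  have h1 := Real.mul_le_sin hs0 hs1
  have h2 : s / 2 ≤ Real.sin s := by
    refine le_trans ?_ h1
    have : (1 : ℝ) / 2 ≤ 2 / Real.pi := by
      rw [div_le_div_iff₀ (by norm_num) (by linarith)]
      linarith
    nlinarith
  have h3 : (Real.cos a - Real.cos b) ^ 2 + (Real.sin a - Real.sin b) ^ 2 =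
      (2 * Real.sin s) ^ 2 := by
    have e1 : Real.cos (a - b) = 1 - 2 * Real.sin s ^ 2 := by
      have e2 : Real.cos (a - b) = Real.cos (2 * s) := by
        rw [hs, mul_div_cancel₀ _ (two_ne_zero), Real.cos_abs]
      rw [e2, Real.cos_two_mul]
      have := Real.sin_sq_add_cos_sq s
      linarith
    rw [Real.cos_sub] at e1
    have e3 := Real.sin_sq_add_cos_sq a
    have e4 := Real.sin_sq_add_cos_sq b
    nlinarith
  rw [h3, Real.sqrt_sq (by linarith)]
  have h4 : |a - b| = 2 * s := by rw [hs]; ring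
  rw [h4]
  linarith

lemma sq_add_le_dist (w z : R7) (i j : Fin 7) (hij : i ≠ j) :
    Real.sqrt ((w i - z i) ^ 2 + (w j - z j) ^ 2) ≤ dist w z := by
  rw [EuclideanSpace.dist_eq]
  apply Real.sqrt_le_sqrt
  have h1 : ∀ k : Fin 7, dist (w k) (z k) ^ 2 = (w k - z k) ^ 2 := fun k => by
    rw [Real.dist_eq, sq_abs]
  simp only [h1]
  have h2 : ∑ k ∈ ({i, j} : Finset (Fin 7)), (w k - z k) ^ 2 ≤ ∑ k : Fin 7, (w k - z k) ^ 2 :=
    Finset.sum_le_sum_of_subset_of_nonneg (Finset.subset_univ _) fun _ _ _ => sq_nonneg _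
  rwa [Finset.sum_pair hij] at h2

/-- The plane `t = 0`, `y = 0` in `ℝ^7`. -/
noncomputable def plane (x : Fin 2 → ℝ) : R7 := Psi (![x 0, x 1, 0], 0)

lemma plane_0 (x : Fin 2 → ℝ) : plane x 0 = Real.cos (x 0) := by
  change Real.exp (0 : ℝ) * Real.cos (x 0) = _
  rw [Real.exp_zero, one_mul]

lemma plane_1 (x : Fin 2 → ℝ) : plane x 1 = Real.sin (x 0) := by
  change Real.exp (0 : ℝ) * Real.sin (x 0) = _
  rw [Real.exp_zero, one_mul]

lemma plane_2 (x : Fin 2 → ℝ) : plane x 2 = Real.cos (x 1) := by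
  change Real.exp (0 : ℝ) * Real.cos (x 1) = _
  rw [Real.exp_zero, one_mul]

lemma plane_3 (x : Fin 2 → ℝ) : plane x 3 = Real.sin (x 1) := by
  change Real.exp (0 : ℝ) * Real.sin (x 1) = _
  rw [Real.exp_zero, one_mul]

/-- The chart does not contract distances on the unit square. -/
lemma plane_dist {x y : Fin 2 → ℝ} (h0 : |x 0 - y 0| ≤ 1) (h1 : |x 1 - y 1| ≤ 1) :
    dist x y ≤ (2 : ℝ≥0) * dist (plane x) (plane y) := by
  have e2 : ((2 : ℝ≥0) : ℝ) = 2 := rfl
  rw [dist_pi_le_iff (by positivity)]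
  refine Fin.forall_fin_two.2 ⟨?_, ?_⟩
  · have h3 := sq_add_le_dist (plane x) (plane y) 0 1 (by decide)
    have h4 := arc_le h0
    rw [plane_0, plane_0, plane_1, plane_1] at h3
    rw [Real.dist_eq, e2]
    linarith
  · have h3 := sq_add_le_dist (plane x) (plane y) 2 3 (by decide)
    have h4 := arc_le h1
    rw [plane_2, plane_2, plane_3, plane_3] at h3
    rw [Real.dist_eq, e2]
    linarith

/-! ### The singular set -/

lemma finrank_H : Module.finrank ℝ H = 4 := Quaternion.finrank_eq_four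

/-- The singular set of a set `S` which contains the two sheets has positive two-dimensional
Hausdorff measure. -/
theorem sing_pos (E : Set (Fin 2 → ℝ)) (hE1 : ∀ x ∈ E, ∀ i, 0 ≤ x i ∧ x i ≤ 1)
    (hE : 0 < volume E) (u : X3 → H) (hu : ContinuousOn u {x | 0 ≤ x 2})
    (hu0 : ∀ x ∈ E, u ![x 0, x 1, 0] = 0) (hu1 : ∀ x : X3, 0 < x 2 → u x ≠ 0)
    (Γ S : Set R7) (hΓ : ∀ x ∈ E, plane x ∈ Γ)
    (hM : ∀ x : X3, |x 2| < 1 → Psi (x, 0) ∈ S)
    (hN : ∀ x : X3, 0 < x 2 → x 2 < 1 → Psi (x, u x) ∈ S) :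
    0 < Measure.hausdorffMeasure 2 (SingSet Γ S) := by
  have h1 : plane '' E ⊆ SingSet Γ S := by
    rintro _ ⟨x, hx, rfl⟩
    refine ⟨hΓ x hx, ?_⟩
    have hx2 : (![x 0, x 1, 0] : X3) 2 = 0 := rfl
    refine not_reg finrank_H (![x 0, x 1, 0] : X3) (hasStrictFDerivAt_Psi _) (surjective_DPsi _) S ?_
      {x | 0 ≤ x 2} u (hu _ (by change (0 : ℝ) ≤ (![x 0, x 1, 0] : X3) 2; rw [hx2]))
      (hu0 x hx) ?_
    · have hc : Continuous (fun z : X3 => |z 2|) := by fun_prop
      have h2 := hc.continuousAt (x := (![x 0, x 1, 0] : X3))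
      have h3 : ∀ᶠ z : X3 in 𝓝 ![x 0, x 1, 0], |z 2| < 1 := by
        apply h2.eventually_lt_const
        change |(![x 0, x 1, 0] : X3) 2| < 1
        rw [hx2, abs_zero]
        norm_num
      filter_upwards [h3] with z hz
      exact hM z hz
    · -- points above
      have hseq : Tendsto (fun r : ℝ => (![x 0, x 1, r] : X3)) (𝓝[>] 0)
          (𝓝[{x | 0 ≤ x 2}] ![x 0, x 1, 0]) := by
        apply tendsto_nhdsWithin_iff.2
        refine ⟨?_, ?_⟩
        · have hc : Continuous (fun r : ℝ => (![x 0, x 1, r] : X3)) := by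
            apply continuous_pi
            intro i
            fin_cases i
            · exact continuous_const
            · exact continuous_const
            · exact continuous_id
          exact (hc.tendsto 0).mono_left nhdsWithin_le_nhds
        · filter_upwards [self_mem_nhdsWithin] with r hr
          exact le_of_lt hr
      have h4 : ∀ᶠ r : ℝ in 𝓝[>] 0, u ![x 0, x 1, r] ≠ 0 ∧
          Psi (![x 0, x 1, r], u ![x 0, x 1, r]) ∈ S := by
        have h5 : ∀ᶠ r : ℝ in 𝓝[>] 0, r < 1 :=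
          (eventually_lt_nhds (by norm_num : (0 : ℝ) < 1)).filter_mono nhdsWithin_le_nhds
        filter_upwards [self_mem_nhdsWithin, h5] with r hr hr1
        exact ⟨hu1 _ hr, hN _ hr hr1⟩
      exact hseq.frequently h4.frequently
  refine lt_of_lt_of_le ?_ (measure_mono h1)
  refine haus_pos plane E 2 ?_ hE
  intro x hx y hy
  have hb : ∀ i, |x i - y i| ≤ 1 := by
    intro i
    obtain ⟨a1, a2⟩ := hE1 x hx i
    obtain ⟨b1, b2⟩ := hE1 y hy i
    rw [abs_le]
    constructor <;> linarith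
  exact plane_dist (hb 0) (hb 1)

end Pool.Agent.BSS
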