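import Pool.Agent.BSS.Base
import Pool.Agent.BSS.Sing

/-!
# BSS, module G3 (first half): the chart `Psi : R^3 x H -> R^7` (helper47)

`Psi` is the covering of the open set `U7 = {(w0, w1) /= 0, (w2, w3) /= 0}` by `R^3 x H`;
functions on `R^3 x H` which are `2 pi` periodic in `x 0` and `x 1` are pushed to `U7`, and,
when they vanish for large `‖y‖`, extended by zero to smooth functions on `R^7`.
-/

set_option autoImplicit false

open Set Filter Topology
open scoped ContDiff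

namespace Pool.Agent.BSS

/-! ### Coordinates of a quaternion as continuous linear forms -/

/-- The coordinate `re`. -/
noncomputable def cRe : H →L[ℝ] ℝ :=
  ⟨⟨⟨fun q => q.re, fun _ _ => rfl⟩, fun _ _ => rfl⟩, Quaternion.continuous_re⟩
/-- The coordinate `imI`. -/
noncomputable def cI : H →L[ℝ] ℝ :=
  ⟨⟨⟨fun q => q.imI, fun _ _ => rfl⟩, fun _ _ => rfl⟩, Quaternion.continuous_imI⟩
/-- The coordinate `imJ`. -/
noncomputable def cJ : H →L[ℝ] ℝ :=
  ⟨⟨⟨fun q => q.imJ, fun _ _ => rfl⟩, fun _ _ => rfl⟩, Quaternion.continuous_imJ⟩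
/-- The coordinate `imK`. -/
noncomputable def cK : H →L[ℝ] ℝ :=
  ⟨⟨⟨fun q => q.imK, fun _ _ => rfl⟩, fun _ _ => rfl⟩, Quaternion.continuous_imK⟩

@[simp] theorem cRe_apply (q : H) : cRe q = q.re := rfl
@[simp] theorem cI_apply (q : H) : cI q = q.imI := rfl
@[simp] theorem cJ_apply (q : H) : cJ q = q.imJ := rfl
@[simp] theorem cK_apply (q : H) : cK q = q.imK := rfl

/-- The coordinate `x i` of a point of `R^3 x H`. -/
noncomputable def pX (i : Fin 3) : X3 × H →L[ℝ] ℝ :=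
  (ContinuousLinearMap.proj i).comp (ContinuousLinearMap.fst ℝ X3 H)
/-- The coordinate `re y`. -/
noncomputable def pRe : X3 × H →L[ℝ] ℝ := cRe.comp (ContinuousLinearMap.snd ℝ X3 H)
/-- The coordinate `imI y`. -/
noncomputable def pI : X3 × H →L[ℝ] ℝ := cI.comp (ContinuousLinearMap.snd ℝ X3 H)
/-- The coordinate `imJ y`. -/
noncomputable def pJ : X3 × H →L[ℝ] ℝ := cJ.comp (ContinuousLinearMap.snd ℝ X3 H)
/-- The coordinate `imK y`. -/
noncomputable def pK : X3 × H →L[ℝ] ℝ := cK.comp (ContinuousLinearMap.snd ℝ X3 H)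

@[simp] theorem pX_apply (i : Fin 3) (p : X3 × H) : pX i p = p.1 i := rfl
@[simp] theorem pRe_apply (p : X3 × H) : pRe p = p.2.re := rfl
@[simp] theorem pI_apply (p : X3 × H) : pI p = p.2.imI := rfl
@[simp] theorem pJ_apply (p : X3 × H) : pJ p = p.2.imJ := rfl
@[simp] theorem pK_apply (p : X3 × H) : pK p = p.2.imK := rfl

/-! ### The chart and its derivative -/

/-- The chart `Psi (x, y) = (e^{y0} e^{i x0}, e^{y1} e^{i x1}, t, y2, y3)`. -/
noncomputable def Psi (p : X3 × H) : R7 :=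
  !₂[Real.exp p.2.re * Real.cos (p.1 0), Real.exp p.2.re * Real.sin (p.1 0),
    Real.exp p.2.imI * Real.cos (p.1 1), Real.exp p.2.imI * Real.sin (p.1 1),
    p.1 2, p.2.imJ, p.2.imK]

@[simp] theorem Psi_0 (p : X3 × H) : Psi p 0 = Real.exp p.2.re * Real.cos (p.1 0) := rfl
@[simp] theorem Psi_1 (p : X3 × H) : Psi p 1 = Real.exp p.2.re * Real.sin (p.1 0) := rfl
@[simp] theorem Psi_2 (p : X3 × H) : Psi p 2 = Real.exp p.2.imI * Real.cos (p.1 1) := rfl
@[simp] theorem Psi_3 (p : X3 × H) : Psi p 3 = Real.exp p.2.imI * Real.sin (p.1 1) := rfl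
@[simp] theorem Psi_4 (p : X3 × H) : Psi p 4 = p.1 2 := rfl
@[simp] theorem Psi_5 (p : X3 × H) : Psi p 5 = p.2.imJ := rfl
@[simp] theorem Psi_6 (p : X3 × H) : Psi p 6 = p.2.imK := rfl

/-- The seven components of the derivative of `Psi`. -/
noncomputable def DPsiC (p : X3 × H) : Fin 7 → (X3 × H →L[ℝ] ℝ) :=
  ![(Real.exp p.2.re * Real.cos (p.1 0)) • pRe - (Real.exp p.2.re * Real.sin (p.1 0)) • pX 0,
    (Real.exp p.2.re * Real.sin (p.1 0)) • pRe + (Real.exp p.2.re * Real.cos (p.1 0)) • pX 0,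
    (Real.exp p.2.imI * Real.cos (p.1 1)) • pI - (Real.exp p.2.imI * Real.sin (p.1 1)) • pX 1,
    (Real.exp p.2.imI * Real.sin (p.1 1)) • pI + (Real.exp p.2.imI * Real.cos (p.1 1)) • pX 1,
    pX 2, pJ, pK]

/-- The derivative of `Psi`. -/
noncomputable def DPsi (p : X3 × H) : X3 × H →L[ℝ] R7 :=
  ((EuclideanSpace.equiv (Fin 7) ℝ).symm : (Fin 7 → ℝ) →L[ℝ] R7).comp
    (ContinuousLinearMap.pi (DPsiC p))

@[simp] theorem DPsi_0 (p v : X3 × H) : DPsi p v 0 =
    Real.exp p.2.re * Real.cos (p.1 0) * v.2.re - Real.exp p.2.re * Real.sin (p.1 0) * v.1 0 := rfl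
@[simp] theorem DPsi_1 (p v : X3 × H) : DPsi p v 1 =
    Real.exp p.2.re * Real.sin (p.1 0) * v.2.re + Real.exp p.2.re * Real.cos (p.1 0) * v.1 0 := rfl
@[simp] theorem DPsi_2 (p v : X3 × H) : DPsi p v 2 =
    Real.exp p.2.imI * Real.cos (p.1 1) * v.2.imI
      - Real.exp p.2.imI * Real.sin (p.1 1) * v.1 1 := rfl
@[simp] theorem DPsi_3 (p v : X3 × H) : DPsi p v 3 =
    Real.exp p.2.imI * Real.sin (p.1 1) * v.2.imI
      + Real.exp p.2.imI * Real.cos (p.1 1) * v.1 1 := rfl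
@[simp] theorem DPsi_4 (p v : X3 × H) : DPsi p v 4 = v.1 2 := rfl
@[simp] theorem DPsi_5 (p v : X3 × H) : DPsi p v 5 = v.2.imJ := rfl
@[simp] theorem DPsi_6 (p v : X3 × H) : DPsi p v 6 = v.2.imK := rfl

theorem contDiff_Psi {n : WithTop ℕ∞} : ContDiff ℝ n Psi := by
  rw [contDiff_euclidean]
  have hre : ContDiff ℝ n (fun p : X3 × H => p.2.re) := pRe.contDiff
  have hI : ContDiff ℝ n (fun p : X3 × H => p.2.imI) := pI.contDiff
  have hJ : ContDiff ℝ n (fun p : X3 × H => p.2.imJ) := pJ.contDiff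
  have hK : ContDiff ℝ n (fun p : X3 × H => p.2.imK) := pK.contDiff
  have hX : ∀ i, ContDiff ℝ n (fun p : X3 × H => p.1 i) := fun i => (pX i).contDiff
  intro i
  fin_cases i
  · exact (Real.contDiff_exp.comp hre).mul (Real.contDiff_cos.comp (hX 0))
  · exact (Real.contDiff_exp.comp hre).mul (Real.contDiff_sin.comp (hX 0))
  · exact (Real.contDiff_exp.comp hI).mul (Real.contDiff_cos.comp (hX 1))
  · exact (Real.contDiff_exp.comp hI).mul (Real.contDiff_sin.comp (hX 1))
  · exact hX 2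
  · exact hJ
  · exact hK

theorem hasStrictFDerivAt_Psi (p : X3 × H) : HasStrictFDerivAt Psi (DPsi p) p := by
  rw [hasStrictFDerivAt_euclidean]
  have hre : HasStrictFDerivAt (fun p : X3 × H => p.2.re) pRe p := pRe.hasStrictFDerivAt
  have hI : HasStrictFDerivAt (fun p : X3 × H => p.2.imI) pI p := pI.hasStrictFDerivAt
  have hJ : HasStrictFDerivAt (fun p : X3 × H => p.2.imJ) pJ p := pJ.hasStrictFDerivAt
  have hK : HasStrictFDerivAt (fun p : X3 × H => p.2.imK) pK p := pK.hasStrictFDerivAt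
  have hX : ∀ i, HasStrictFDerivAt (fun p : X3 × H => p.1 i) (pX i) p :=
    fun i => (pX i).hasStrictFDerivAt
  intro i
  fin_cases i
  · refine HasStrictFDerivAt.congr_fderiv (f := fun p : X3 × H =>
      Real.exp p.2.re * Real.cos (p.1 0)) ((hre.exp).mul ((hX 0).cos)) ?_
    refine ContinuousLinearMap.ext fun v => ?_
    change _ = DPsi p v 0
    simp
    ring
  · refine HasStrictFDerivAt.congr_fderiv (f := fun p : X3 × H =>
      Real.exp p.2.re * Real.sin (p.1 0)) ((hre.exp).mul ((hX 0).sin)) ?_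
    refine ContinuousLinearMap.ext fun v => ?_
    change _ = DPsi p v 1
    simp
    ring
  · refine HasStrictFDerivAt.congr_fderiv (f := fun p : X3 × H =>
      Real.exp p.2.imI * Real.cos (p.1 1)) ((hI.exp).mul ((hX 1).cos)) ?_
    refine ContinuousLinearMap.ext fun v => ?_
    change _ = DPsi p v 2
    simp
    ring
  · refine HasStrictFDerivAt.congr_fderiv (f := fun p : X3 × H =>
      Real.exp p.2.imI * Real.sin (p.1 1)) ((hI.exp).mul ((hX 1).sin)) ?_
    refine ContinuousLinearMap.ext fun v => ?_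
    change _ = DPsi p v 3
    simp
    ring
  · exact hX 2
  · exact hJ
  · exact hK

theorem hasFDerivAt_Psi (p : X3 × H) : HasFDerivAt Psi (DPsi p) p :=
  (hasStrictFDerivAt_Psi p).hasFDerivAt

theorem fderiv_Psi (p : X3 × H) : fderiv ℝ Psi p = DPsi p := (hasFDerivAt_Psi p).fderiv

theorem DPsi_eq_fderiv : DPsi = fderiv ℝ Psi := funext fun p => (fderiv_Psi p).symm

theorem contDiff_DPsi {n : WithTop ℕ∞} : ContDiff ℝ n DPsi := by
  rw [DPsi_eq_fderiv]
  exact (contDiff_Psi (n := n + 1)).fderiv_right le_rfl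

/-! ### The inverse of the derivative -/

/-- The inverse of `DPsi p`, as a linear map. -/
noncomputable def DInvL (p : X3 × H) : R7 →ₗ[ℝ] X3 × H where
  toFun w := (![Real.exp (-p.2.re) * (-Real.sin (p.1 0) * w 0 + Real.cos (p.1 0) * w 1),
      Real.exp (-p.2.imI) * (-Real.sin (p.1 1) * w 2 + Real.cos (p.1 1) * w 3), w 4],
    ⟨Real.exp (-p.2.re) * (Real.cos (p.1 0) * w 0 + Real.sin (p.1 0) * w 1),
      Real.exp (-p.2.imI) * (Real.cos (p.1 1) * w 2 + Real.sin (p.1 1) * w 3), w 5, w 6⟩)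
  map_add' a b := by
    refine Prod.ext ?_ ?_
    · funext i
      fin_cases i <;> simp <;> ring
    · ext
      · change Real.exp (-p.2.re) * (Real.cos (p.1 0) * (a + b) 0 + Real.sin (p.1 0) * (a + b) 1) =
          Real.exp (-p.2.re) * (Real.cos (p.1 0) * a 0 + Real.sin (p.1 0) * a 1) +
          Real.exp (-p.2.re) * (Real.cos (p.1 0) * b 0 + Real.sin (p.1 0) * b 1)
        simp only [PiLp.add_apply]
        ring
      · change Real.exp (-p.2.imI) * (Real.cos (p.1 1) * (a + b) 2 + Real.sin (p.1 1) * (a + b) 3) =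
          Real.exp (-p.2.imI) * (Real.cos (p.1 1) * a 2 + Real.sin (p.1 1) * a 3) +
          Real.exp (-p.2.imI) * (Real.cos (p.1 1) * b 2 + Real.sin (p.1 1) * b 3)
        simp only [PiLp.add_apply]
        ring
      · rfl
      · rfl
  map_smul' c a := by
    refine Prod.ext ?_ ?_
    · funext i
      fin_cases i <;> simp <;> ring
    · ext
      · change Real.exp (-p.2.re) * (Real.cos (p.1 0) * (c • a) 0 + Real.sin (p.1 0) * (c • a) 1) =
          c * (Real.exp (-p.2.re) * (Real.cos (p.1 0) * a 0 + Real.sin (p.1 0) * a 1))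
        simp only [PiLp.smul_apply, smul_eq_mul]
        ring
      · change Real.exp (-p.2.imI) * (Real.cos (p.1 1) * (c • a) 2 + Real.sin (p.1 1) * (c • a) 3) =
          c * (Real.exp (-p.2.imI) * (Real.cos (p.1 1) * a 2 + Real.sin (p.1 1) * a 3))
        simp only [PiLp.smul_apply, smul_eq_mul]
        ring
      · rfl
      · rfl

/-- The inverse of `DPsi p`. -/
noncomputable def DInv (p : X3 × H) : R7 →L[ℝ] X3 × H := LinearMap.toContinuousLinearMap (DInvL p)

@[simp] theorem DInv_1_0 (p : X3 × H) (w : R7) : (DInv p w).1 0 =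
    Real.exp (-p.2.re) * (-Real.sin (p.1 0) * w 0 + Real.cos (p.1 0) * w 1) := rfl
@[simp] theorem DInv_1_1 (p : X3 × H) (w : R7) : (DInv p w).1 1 =
    Real.exp (-p.2.imI) * (-Real.sin (p.1 1) * w 2 + Real.cos (p.1 1) * w 3) := rfl
@[simp] theorem DInv_1_2 (p : X3 × H) (w : R7) : (DInv p w).1 2 = w 4 := rfl
@[simp] theorem DInv_2_re (p : X3 × H) (w : R7) : (DInv p w).2.re =
    Real.exp (-p.2.re) * (Real.cos (p.1 0) * w 0 + Real.sin (p.1 0) * w 1) := rfl
@[simp] theorem DInv_2_imI (p : X3 × H) (w : R7) : (DInv p w).2.imI =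
    Real.exp (-p.2.imI) * (Real.cos (p.1 1) * w 2 + Real.sin (p.1 1) * w 3) := rfl
@[simp] theorem DInv_2_imJ (p : X3 × H) (w : R7) : (DInv p w).2.imJ = w 5 := rfl
@[simp] theorem DInv_2_imK (p : X3 × H) (w : R7) : (DInv p w).2.imK = w 6 := rfl

@[simp] theorem DInv_DPsi (p v : X3 × H) : DInv p (DPsi p v) = v := by
  have h0 : Real.exp (-p.2.re) * Real.exp p.2.re = 1 := by
    rw [← Real.exp_add]; simp
  have h1 : Real.exp (-p.2.imI) * Real.exp p.2.imI = 1 := by
    rw [← Real.exp_add]; simp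
  have c0 := Real.sin_sq_add_cos_sq (p.1 0)
  have c1 := Real.sin_sq_add_cos_sq (p.1 1)
  refine Prod.ext ?_ ?_
  · funext i
    fin_cases i
    · change (DInv p (DPsi p v)).1 0 = v.1 0
      simp only [DInv_1_0, DPsi_0, DPsi_1]
      linear_combination (v.1 0) * (Real.sin (p.1 0) ^ 2 + Real.cos (p.1 0) ^ 2) * h0
        + (v.1 0) * c0
    · change (DInv p (DPsi p v)).1 1 = v.1 1
      simp only [DInv_1_1, DPsi_2, DPsi_3]
      linear_combination (v.1 1) * (Real.sin (p.1 1) ^ 2 + Real.cos (p.1 1) ^ 2) * h1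
        + (v.1 1) * c1
    · rfl
  · ext
    · simp only [DInv_2_re, DPsi_0, DPsi_1]
      linear_combination (v.2.re) * (Real.sin (p.1 0) ^ 2 + Real.cos (p.1 0) ^ 2) * h0
        + (v.2.re) * c0
    · simp only [DInv_2_imI, DPsi_2, DPsi_3]
      linear_combination (v.2.imI) * (Real.sin (p.1 1) ^ 2 + Real.cos (p.1 1) ^ 2) * h1
        + (v.2.imI) * c1
    · rfl
    · rfl

@[simp] theorem DPsi_DInv (p : X3 × H) (w : R7) : DPsi p (DInv p w) = w := by
  have h0 : Real.exp (-p.2.re) * Real.exp p.2.re = 1 := by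
    rw [← Real.exp_add]; simp
  have h1 : Real.exp (-p.2.imI) * Real.exp p.2.imI = 1 := by
    rw [← Real.exp_add]; simp
  have c0 := Real.sin_sq_add_cos_sq (p.1 0)
  have c1 := Real.sin_sq_add_cos_sq (p.1 1)
  ext i
  fin_cases i
  · change DPsi p (DInv p w) 0 = w 0
    simp only [DInv_1_0, DInv_2_re, DPsi_0]
    linear_combination (w 0) * (Real.sin (p.1 0) ^ 2 + Real.cos (p.1 0) ^ 2) * h0 + (w 0) * c0
  · change DPsi p (DInv p w) 1 = w 1
    simp only [DInv_1_0, DInv_2_re, DPsi_1]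
    linear_combination (w 1) * (Real.sin (p.1 0) ^ 2 + Real.cos (p.1 0) ^ 2) * h0 + (w 1) * c0
  · change DPsi p (DInv p w) 2 = w 2
    simp only [DInv_1_1, DInv_2_imI, DPsi_2]
    linear_combination (w 2) * (Real.sin (p.1 1) ^ 2 + Real.cos (p.1 1) ^ 2) * h1 + (w 2) * c1
  · change DPsi p (DInv p w) 3 = w 3
    simp only [DInv_1_1, DInv_2_imI, DPsi_3]
    linear_combination (w 3) * (Real.sin (p.1 1) ^ 2 + Real.cos (p.1 1) ^ 2) * h1 + (w 3) * c1
  · rfl
  · rfl
  · rfl

/-- The derivative of `Psi` as a linear equivalence. -/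
noncomputable def DPsiE (p : X3 × H) : (X3 × H) ≃L[ℝ] R7 :=
  ContinuousLinearEquiv.equivOfInverse (DPsi p) (DInv p) (DInv_DPsi p) (DPsi_DInv p)

theorem coe_DPsiE (p : X3 × H) : (DPsiE p : X3 × H →L[ℝ] R7) = DPsi p := rfl

theorem coe_DPsiE_symm (p : X3 × H) : ((DPsiE p).symm : R7 →L[ℝ] X3 × H) = DInv p := rfl

theorem DInv_eq_inverse (p : X3 × H) : DInv p = ContinuousLinearMap.inverse (DPsi p) := by
  rw [← coe_DPsiE, ContinuousLinearMap.inverse_equiv, coe_DPsiE_symm]

theorem contDiff_DInv {n : WithTop ℕ∞} : ContDiff ℝ n DInv := by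
  rw [contDiff_iff_contDiffAt]
  intro p
  have h0 : ContDiffAt ℝ n (ContinuousLinearMap.inverse : (X3 × H →L[ℝ] R7) → (R7 →L[ℝ] X3 × H))
      (DPsi p) := by
    rw [← coe_DPsiE]
    exact contDiffAt_map_inverse (DPsiE p)
  have h1 : ContDiffAt ℝ n (fun q => ContinuousLinearMap.inverse (DPsi q)) p :=
    ContDiffAt.comp p h0 contDiff_DPsi.contDiffAt
  exact h1.congr_of_eventuallyEq (Eventually.of_forall fun q => DInv_eq_inverse q)

theorem surjective_DPsi (p : X3 × H) : Function.Surjective (DPsi p) :=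
  fun w => ⟨DInv p w, DPsi_DInv p w⟩

theorem injective_DPsi (p : X3 × H) : Function.Injective (DPsi p) :=
  Function.LeftInverse.injective (DInv_DPsi p)

end Pool.Agent.BSS
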