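import Pool.Agent.BSS.Base

/-!
# MP_bff03b_an (BSS): Stokes for maps of a box that are periodic in the first two variables
-/

set_option autoImplicit false

open MeasureTheory Set

namespace Pool.Agent.BSS

variable {E : Type*} [NormedAddCommGroup E] [NormedSpace ℝ E]

/-- The integral of a 3-form over the sheet `F` on `[0, 2 pi]^2 x [a, b]`. -/
noncomputable def sheet3 (F : X3 → E) (a b : ℝ) (η : E → E [⋀^Fin 3]→L[ℝ] ℝ) : ℝ :=
  ∫ x in Set.Icc (![0, 0, a] : X3) ![2 * Real.pi, 2 * Real.pi, b],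
    η (F x) (fun i => fderiv ℝ F x (ee i))

/-- The integral of a 2-form over the torus `{t = c}` of the sheet `F`. -/
noncomputable def face2 (F : X3 → E) (c : ℝ) (ω : E → E [⋀^Fin 2]→L[ℝ] ℝ) : ℝ :=
  ∫ y in Set.Icc (![0, 0] : Fin 2 → ℝ) ![2 * Real.pi, 2 * Real.pi],
    ω (F ![y 0, y 1, c]) ![fderiv ℝ F ![y 0, y 1, c] (ee 0), fderiv ℝ F ![y 0, y 1, c] (ee 1)]

theorem continuous_extDeriv {n : ℕ} {ω : E → E [⋀^Fin n]→L[ℝ] ℝ} (hω : ContDiff ℝ 1 ω) :
    Continuous (extDeriv ω) := by
  have h := (ContinuousAlternatingMap.alternatizeUncurryFinCLM ℝ E ℝ (n := n)).continuous.comp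
    (hω.continuous_fderiv one_ne_zero)
  exact h

theorem fderiv_periodic {F : X3 → E} {v : X3} (h : ∀ x, F (x + v) = F x) (x : X3) :
    fderiv ℝ F (x + v) = fderiv ℝ F x := by
  have e : (fun y => F (y + v)) = F := funext h
  have := fderiv_comp_add_right (𝕜 := ℝ) (f := F) (x := x) v
  rw [e] at this
  exact this.symm

/-- **Stokes' theorem** for a periodic sheet. -/
theorem stokes_box {ω : E → E [⋀^Fin 2]→L[ℝ] ℝ} (hω : ContDiff ℝ 1 ω) {F : X3 → E}
    (hF : ContDiff ℝ 2 F) (h0 : ∀ x, F (x + (2 * Real.pi) • ee 0) = F x)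
    (h1 : ∀ x, F (x + (2 * Real.pi) • ee 1) = F x) {a b : ℝ} (hab : a ≤ b) :
    sheet3 F a b (extDeriv ω) = face2 F b ω - face2 F a ω := by
  set A : X3 := ![0, 0, a] with hA
  set B : X3 := ![2 * Real.pi, 2 * Real.pi, b] with hB
  have hpi : (0 : ℝ) ≤ 2 * Real.pi := by positivity
  have hAB : A ≤ B := by
    intro i
    fin_cases i
    · exact hpi
    · exact hpi
    · exact hab
  -- the pull back
  set P : X3 → X3 [⋀^Fin 2]→L[ℝ] ℝ := fun x => (ω (F x)).compContinuousLinearMap (fderiv ℝ F x)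
    with hP
  have hFd : Differentiable ℝ F := hF.differentiable (by norm_num)
  have hFd2 : Differentiable ℝ (fderiv ℝ F) :=
    (hF.fderiv_right (m := 1) (by norm_num)).differentiable one_ne_zero
  have hωd : Differentiable ℝ ω := hω.differentiable one_ne_zero
  have hPd : Differentiable ℝ P := by
    intro x
    exact ((hωd (F x)).comp x (hFd x)).continuousAlternatingMapCompContinuousLinearMap (hFd2 x)
  set f : Fin 3 → X3 → ℝ := fun i x => (-1 : ℝ) ^ (i : ℕ) * P x (i.removeNth ee) with hf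
  have hfd : ∀ i, Differentiable ℝ (f i) := by
    intro i
    exact (hPd.continuousAlternatingMap_apply (fun _ => differentiable_const _)).const_mul _
  have hfderiv : ∀ i x, fderiv ℝ (f i) x =
      (-1 : ℝ) ^ (i : ℕ) • fderiv ℝ (fun x => P x (i.removeNth ee)) x := by
    intro i x
    rw [hf]
    exact fderiv_const_mul ((hPd.continuousAlternatingMap_apply
      (fun _ => differentiable_const _)) x) _
  have hdiv : ∀ x, ∑ i, fderiv ℝ (f i) x (Pi.single i 1) =
      extDeriv ω (F x) (fun i => fderiv ℝ F x (ee i)) := by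
    intro x
    have e1 := extDeriv_pullback (hωd (F x)) (hF.contDiffAt (x := x)) (by simp)
    have e2 := extDeriv_apply (hPd x) ee
    rw [show extDeriv P x = (extDeriv ω (F x)).compContinuousLinearMap (fderiv ℝ F x) from e1]
      at e2
    rw [ContinuousAlternatingMap.compContinuousLinearMap_apply] at e2
    have e3 : (⇑(fderiv ℝ F x) ∘ ee) = fun i => fderiv ℝ F x (ee i) := rfl
    rw [e3] at e2
    rw [e2]
    refine Finset.sum_congr rfl fun i _ => ?_
    rw [hfderiv, smul_apply]
    change _ • fderiv ℝ (fun x => P x (i.removeNth ee)) x (ee i) = _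
    fin_cases i <;> simp
  have hcont : Continuous fun x => ∑ i, fderiv ℝ (f i) x (Pi.single i 1) := by
    have e : (fun x => ∑ i, fderiv ℝ (f i) x (Pi.single i 1)) =
        fun x => extDeriv ω (F x) (fun i => fderiv ℝ F x (ee i)) := funext hdiv
    rw [e]
    have c1 : Continuous fun x => extDeriv ω (F x) :=
      (continuous_extDeriv hω).comp hF.continuous
    have c2 : Continuous fun x => (fun i => fderiv ℝ F x (ee i)) :=
      continuous_pi fun i => (hF.continuous_fderiv (by norm_num)).clm_apply continuous_const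
    exact c1.eval c2
  have key := integral_divergence_of_hasFDerivAt_off_countable' A B hAB f
    (fun i x => fderiv ℝ (f i) x) ∅ countable_empty (fun i => (hfd i).continuous.continuousOn)
    (fun x _ i => (hfd i x).hasFDerivAt) (hcont.continuousOn.integrableOn_Icc)
  have hL : ∫ x in Icc A B, ∑ i, fderiv ℝ (f i) x (Pi.single i 1) = sheet3 F a b (extDeriv ω) := by
    unfold sheet3
    exact setIntegral_congr_fun measurableSet_Icc (fun x _ => hdiv x)
  rw [hL] at key
  rw [key, Fin.sum_univ_three]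
  -- the periodic faces
  have hper : ∀ (j : Fin 3) (v : X3), (∀ x, F (x + v) = F x) → ∀ x, f j (x + v) = f j x := by
    intro j v hv x
    rw [hf]
    change (-1 : ℝ) ^ (j : ℕ) * P (x + v) (j.removeNth ee) =
      (-1 : ℝ) ^ (j : ℕ) * P x (j.removeNth ee)
    rw [hP]
    change (-1 : ℝ) ^ (j : ℕ) * ((ω (F (x + v))).compContinuousLinearMap (fderiv ℝ F (x + v)))
      (j.removeNth ee) = _
    rw [hv, fderiv_periodic hv]
  have hface : ∀ (j : Fin 3), A j = 0 → B j = 2 * Real.pi →
      (∀ x, F (x + (2 * Real.pi) • ee j) = F x) →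
      ∀ y : Fin 2 → ℝ, f j (j.insertNth (B j) y) = f j (j.insertNth (A j) y) := by
    intro j hAj hBj hj y
    have e : (j.insertNth (B j) y : X3) = (j.insertNth (A j) y : X3) + (2 * Real.pi) • ee j := by
      funext i
      rcases Fin.eq_self_or_eq_succAbove j i with h | ⟨k, h⟩
      · subst h
        rw [Pi.add_apply, Fin.insertNth_apply_same, Fin.insertNth_apply_same, hAj, hBj,
          Pi.smul_apply, ee, Pi.single_eq_same]
        simp
      · subst h
        rw [Pi.add_apply, Fin.insertNth_apply_succAbove, Fin.insertNth_apply_succAbove,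
          Pi.smul_apply, ee, Pi.single_eq_of_ne (Fin.succAbove_ne j k)]
        simp
    rw [e]
    exact hper j _ hj _
  have z0 : (∫ x in Icc (A ∘ (0 : Fin 3).succAbove) (B ∘ (0 : Fin 3).succAbove),
      f 0 ((0 : Fin 3).insertNth (B 0) x)) =
      ∫ x in Icc (A ∘ (0 : Fin 3).succAbove) (B ∘ (0 : Fin 3).succAbove),
      f 0 ((0 : Fin 3).insertNth (A 0) x) :=
    setIntegral_congr_fun measurableSet_Icc (fun x _ => hface 0 rfl rfl h0 x)
  have z1 : (∫ x in Icc (A ∘ (1 : Fin 3).succAbove) (B ∘ (1 : Fin 3).succAbove),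
      f 1 ((1 : Fin 3).insertNth (B 1) x)) =
      ∫ x in Icc (A ∘ (1 : Fin 3).succAbove) (B ∘ (1 : Fin 3).succAbove),
      f 1 ((1 : Fin 3).insertNth (A 1) x) :=
    setIntegral_congr_fun measurableSet_Icc (fun x _ => hface 1 rfl rfl h1 x)
  rw [z0, z1, sub_self, sub_self, zero_add, zero_add]
  have hAf : A ∘ (2 : Fin 3).succAbove = (![0, 0] : Fin 2 → ℝ) := by
    funext i; fin_cases i <;> rfl
  have hBf : B ∘ (2 : Fin 3).succAbove = (![2 * Real.pi, 2 * Real.pi] : Fin 2 → ℝ) := by
    funext i; fin_cases i <;> rfl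
  rw [hAf, hBf]
  have hins : ∀ (c : ℝ) (y : Fin 2 → ℝ), ((2 : Fin 3).insertNth c y : X3) = ![y 0, y 1, c] := by
    intro c y
    funext i
    fin_cases i <;> rfl
  have hrem : (2 : Fin 3).removeNth ee = ![ee 0, ee 1] := by
    funext i
    fin_cases i <;> rfl
  have hval : ∀ (c : ℝ) (y : Fin 2 → ℝ), f 2 ((2 : Fin 3).insertNth c y) =
      ω (F ![y 0, y 1, c]) ![fderiv ℝ F ![y 0, y 1, c] (ee 0),
        fderiv ℝ F ![y 0, y 1, c] (ee 1)] := by
    intro c y
    rw [hins]
    change (-1 : ℝ) ^ (2 : ℕ) * ((ω (F ![y 0, y 1, c])).compContinuousLinearMap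
      (fderiv ℝ F ![y 0, y 1, c])) ((2 : Fin 3).removeNth ee) = _
    rw [hrem, ContinuousAlternatingMap.compContinuousLinearMap_apply]
    have e : (⇑(fderiv ℝ F ![y 0, y 1, c]) ∘ ![ee 0, ee 1]) =
        ![fderiv ℝ F ![y 0, y 1, c] (ee 0), fderiv ℝ F ![y 0, y 1, c] (ee 1)] := by
      funext i
      fin_cases i <;> rfl
    rw [e]
    norm_num
  unfold face2
  congr 1
  · exact setIntegral_congr_fun measurableSet_Icc (fun y _ => hval b y)
  · exact setIntegral_congr_fun measurableSet_Icc (fun y _ => hval a y)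

end Pool.Agent.BSS
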