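import Pool.Agent.BSS.Stmt
import Pool.Agent.BSS.Stokes
import Pool.Agent.BSS.Chart

/-!
# MP_bff03b_an (BSS): the current `T`, the four boundary tori, `dT = [[Gamma]]`
-/

set_option autoImplicit false
set_option maxSynthPendingDepth 3

open MeasureTheory Set
open scoped ContDiff

namespace Pool.Agent.BSS

/-- The sheet `x ↦ Psi (x, w x)`. -/
noncomputable def sheet (w : X3 → H) (x : X3) : _root_.BSS.Eu 7 := Psi (x, w x)

theorem contDiff_sheet {w : X3 → H} {n : WithTop ℕ∞} (hw : ContDiff ℝ n w) :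
    ContDiff ℝ n (sheet w) :=
  contDiff_Psi.comp (contDiff_id.prodMk hw)

theorem ee_same (i : Fin 3) : ee i i = 1 := by simp [ee]

theorem ee_ne {i j : Fin 3} (h : i ≠ j) : ee j i = 0 := by simp [ee, h]

theorem sheet_per0 {w : X3 → H} (h0 : ∀ x, w (x + (2 * Real.pi) • ee 0) = w x) (x : X3) :
    sheet w (x + (2 * Real.pi) • ee 0) = sheet w x := by
  unfold sheet
  rw [h0]
  have e0 : (x + (2 * Real.pi) • ee 0 : X3) 0 = x 0 + 2 * Real.pi := by
    simp [ee]
  have e1 : (x + (2 * Real.pi) • ee 0 : X3) 1 = x 1 := by simp [ee]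
  have e2 : (x + (2 * Real.pi) • ee 0 : X3) 2 = x 2 := by simp [ee]
  ext i
  fin_cases i
  · change Real.exp (w x).re * Real.cos ((x + (2 * Real.pi) • ee 0 : X3) 0) =
      Real.exp (w x).re * Real.cos (x 0)
    rw [e0, Real.cos_add_two_pi]
  · change Real.exp (w x).re * Real.sin ((x + (2 * Real.pi) • ee 0 : X3) 0) =
      Real.exp (w x).re * Real.sin (x 0)
    rw [e0, Real.sin_add_two_pi]
  · change Real.exp (w x).imI * Real.cos ((x + (2 * Real.pi) • ee 0 : X3) 1) =
      Real.exp (w x).imI * Real.cos (x 1)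
    rw [e1]
  · change Real.exp (w x).imI * Real.sin ((x + (2 * Real.pi) • ee 0 : X3) 1) =
      Real.exp (w x).imI * Real.sin (x 1)
    rw [e1]
  · change (x + (2 * Real.pi) • ee 0 : X3) 2 = x 2
    exact e2
  · rfl
  · rfl

theorem sheet_per1 {w : X3 → H} (h1 : ∀ x, w (x + (2 * Real.pi) • ee 1) = w x) (x : X3) :
    sheet w (x + (2 * Real.pi) • ee 1) = sheet w x := by
  unfold sheet
  rw [h1]
  have e0 : (x + (2 * Real.pi) • ee 1 : X3) 0 = x 0 := by simp [ee]
  have e1 : (x + (2 * Real.pi) • ee 1 : X3) 1 = x 1 + 2 * Real.pi := by simp [ee]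
  have e2 : (x + (2 * Real.pi) • ee 1 : X3) 2 = x 2 := by simp [ee]
  ext i
  fin_cases i
  · change Real.exp (w x).re * Real.cos ((x + (2 * Real.pi) • ee 1 : X3) 0) =
      Real.exp (w x).re * Real.cos (x 0)
    rw [e0]
  · change Real.exp (w x).re * Real.sin ((x + (2 * Real.pi) • ee 1 : X3) 0) =
      Real.exp (w x).re * Real.sin (x 0)
    rw [e0]
  · change Real.exp (w x).imI * Real.cos ((x + (2 * Real.pi) • ee 1 : X3) 1) =
      Real.exp (w x).imI * Real.cos (x 1)
    rw [e1, Real.cos_add_two_pi]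
  · change Real.exp (w x).imI * Real.sin ((x + (2 * Real.pi) • ee 1 : X3) 1) =
      Real.exp (w x).imI * Real.sin (x 1)
    rw [e1, Real.sin_add_two_pi]
  · change (x + (2 * Real.pi) • ee 1 : X3) 2 = x 2
    exact e2
  · rfl
  · rfl

/-- `y ↦ (y_0, y_1, c)` -/
def lift (c : ℝ) (y : Fin 2 → ℝ) : X3 := ![y 0, y 1, c]

/-- its derivative -/
noncomputable def liftL : (Fin 2 → ℝ) →L[ℝ] X3 :=
  ContinuousLinearMap.pi ![ContinuousLinearMap.proj 0, ContinuousLinearMap.proj 1, 0]

theorem liftL_apply (v : Fin 2 → ℝ) : liftL v = ![v 0, v 1, 0] := by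
  funext i
  fin_cases i <;> rfl

theorem lift_eq (c : ℝ) (y : Fin 2 → ℝ) : lift c y = liftL y + ![0, 0, c] := by
  rw [liftL_apply]
  funext i
  fin_cases i <;> simp [lift]

theorem hasFDerivAt_lift (c : ℝ) (y : Fin 2 → ℝ) : HasFDerivAt (lift c) liftL y := by
  have e : lift c = fun y => liftL y + ![0, 0, c] := funext (lift_eq c)
  rw [e]
  exact liftL.hasFDerivAt.add_const _

theorem contDiff_lift (c : ℝ) {n : WithTop ℕ∞} : ContDiff ℝ n (lift c) := by
  have e : lift c = fun y => liftL y + ![0, 0, c] := funext (lift_eq c)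
  rw [e]
  exact liftL.contDiff.add contDiff_const

theorem lift_shift (c : ℝ) (p : Fin 2 → ℝ) (n : Fin 2 → ℤ) :
    lift c (fun i => p i + 2 * Real.pi * n i) =
      lift c p + n 0 • ((2 * Real.pi) • ee 0) + n 1 • ((2 * Real.pi) • ee 1) := by
  have hr : ∀ i, (lift c p + n 0 • ((2 * Real.pi) • ee 0) + n 1 • ((2 * Real.pi) • ee 1) : X3) i =
      lift c p i + n 0 * (2 * Real.pi * ee 0 i) + n 1 * (2 * Real.pi * ee 1 i) := by
    intro i
    rw [Pi.add_apply, Pi.add_apply, Pi.smul_apply, Pi.smul_apply, Pi.smul_apply, Pi.smul_apply,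
      zsmul_eq_mul, zsmul_eq_mul, smul_eq_mul, smul_eq_mul]
  funext i
  rw [hr]
  fin_cases i
  · change p 0 + 2 * Real.pi * n 0 = p 0 + n 0 * (2 * Real.pi * ee 0 0) +
      n 1 * (2 * Real.pi * ee 1 0)
    rw [ee_same, ee_ne (by decide)]; ring
  · change p 1 + 2 * Real.pi * n 1 = p 1 + n 0 * (2 * Real.pi * ee 0 1) +
      n 1 * (2 * Real.pi * ee 1 1)
    rw [ee_same, ee_ne (by decide)]; ring
  · change c = c + n 0 * (2 * Real.pi * ee 0 2) + n 1 * (2 * Real.pi * ee 1 2)
    rw [ee_ne (by decide), ee_ne (by decide)]; ring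

theorem polar_inj {a b s t : ℝ} (h1 : Real.exp a * Real.cos s = Real.exp b * Real.cos t)
    (h2 : Real.exp a * Real.sin s = Real.exp b * Real.sin t) :
    ∃ n : ℤ, t = s + 2 * Real.pi * n := by
  have ha := Real.exp_pos a
  have hb := Real.exp_pos b
  have h3 : Real.exp a ^ 2 = Real.exp b ^ 2 := by
    have e1 := Real.sin_sq_add_cos_sq s
    have e2 := Real.sin_sq_add_cos_sq t
    calc Real.exp a ^ 2 = (Real.exp a * Real.cos s) ^ 2 + (Real.exp a * Real.sin s) ^ 2 := by
          linear_combination (-(Real.exp a ^ 2)) * e1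
      _ = (Real.exp b * Real.cos t) ^ 2 + (Real.exp b * Real.sin t) ^ 2 := by rw [h1, h2]
      _ = Real.exp b ^ 2 := by linear_combination (Real.exp b ^ 2) * e2
  have h4 : Real.exp a = Real.exp b := (pow_left_inj₀ ha.le hb.le (by norm_num)).mp h3
  rw [h4] at h1 h2
  have h5 := mul_left_cancel₀ hb.ne' h1
  have h6 := mul_left_cancel₀ hb.ne' h2
  have h7 : (t : Real.Angle) = (s : Real.Angle) := Real.Angle.cos_sin_inj h5.symm h6.symm
  obtain ⟨k, hk⟩ := Real.Angle.angle_eq_iff_two_pi_dvd_sub.mp h7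
  exact ⟨k, by linear_combination hk⟩

/-- The boundary torus `{t = c}` of a sheet. -/
noncomputable def torus (w : X3 → H) (hw : ContDiff ℝ ∞ w)
    (h0 : ∀ x, w (x + (2 * Real.pi) • ee 0) = w x) (h1 : ∀ x, w (x + (2 * Real.pi) • ee 1) = w x)
    (c : ℝ) : _root_.BSS.EmbTorus 7 where
  γ := fun y => sheet w (lift c y)
  smooth := (contDiff_sheet hw).comp (contDiff_lift c)
  per := by
    intro p n
    rw [lift_shift]
    have p0 : Function.Periodic (sheet w) ((2 * Real.pi) • ee 0) := sheet_per0 h0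
    have p1 : Function.Periodic (sheet w) ((2 * Real.pi) • ee 1) := sheet_per1 h1
    rw [p1.zsmul (n 1), p0.zsmul (n 0)]
  inj := by
    intro p q h
    have hc := fun i : Fin 7 => congrFun (congrArg (fun v : EuclideanSpace ℝ (Fin 7) => v.ofLp) h) i
    have c0 : Real.exp (w (lift c p)).re * Real.cos (p 0) =
      Real.exp (w (lift c q)).re * Real.cos (q 0) := hc 0
    have c1 : Real.exp (w (lift c p)).re * Real.sin (p 0) =
      Real.exp (w (lift c q)).re * Real.sin (q 0) := hc 1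
    have c2 : Real.exp (w (lift c p)).imI * Real.cos (p 1) =
      Real.exp (w (lift c q)).imI * Real.cos (q 1) := hc 2
    have c3 : Real.exp (w (lift c p)).imI * Real.sin (p 1) =
      Real.exp (w (lift c q)).imI * Real.sin (q 1) := hc 3
    obtain ⟨n, hn⟩ := polar_inj c0 c1
    obtain ⟨m, hm⟩ := polar_inj c2 c3
    refine ⟨![n, m], ?_⟩
    funext i
    fin_cases i
    · exact hn
    · exact hm
  imm := by
    intro p
    have hd : HasFDerivAt (fun y => sheet w (lift c y))
        ((DPsi (lift c p, w (lift c p))).comp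
          ((liftL).prod ((fderiv ℝ w (lift c p)).comp liftL))) p := by
      have h2 : HasFDerivAt (fun y => (lift c y, w (lift c y)))
          ((liftL).prod ((fderiv ℝ w (lift c p)).comp liftL)) p := by
        refine (hasFDerivAt_lift c p).prodMk ?_
        have h3 : HasFDerivAt w (fderiv ℝ w (lift c p)) (lift c p) :=
          (hw.differentiable (by simp) (lift c p)).hasFDerivAt
        exact h3.comp p (hasFDerivAt_lift c p)
      exact (hasFDerivAt_Psi (lift c p, w (lift c p))).comp p h2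
    rw [hd.fderiv]
    rw [injective_iff_map_eq_zero]
    intro v hv
    have hv' : DPsi (lift c p, w (lift c p)) (liftL v, fderiv ℝ w (lift c p) (liftL v)) = 0 :=
      hv
    have hv2 : (liftL v, fderiv ℝ w (lift c p) (liftL v)) = 0 :=
      injective_DPsi (lift c p, w (lift c p)) (hv'.trans (map_zero _).symm)
    have hv3 : liftL v = 0 := congrArg Prod.fst hv2
    rw [liftL_apply] at hv3
    funext i
    fin_cases i
    · exact congrFun hv3 0
    · exact congrFun hv3 1

theorem torus_coord (w : X3 → H) (hw : ContDiff ℝ ∞ w)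
    (h0 : ∀ x, w (x + (2 * Real.pi) • ee 0) = w x) (h1 : ∀ x, w (x + (2 * Real.pi) • ee 1) = w x)
    (c : ℝ) (y : Fin 2 → ℝ) : (torus w hw h0 h1 c).γ y 4 = c := rfl

/-- The integral over a face is the integral over the torus. -/
theorem pieceInt_torus (w : X3 → H) (hw : ContDiff ℝ ∞ w)
    (h0 : ∀ x, w (x + (2 * Real.pi) • ee 0) = w x) (h1 : ∀ x, w (x + (2 * Real.pi) • ee 1) = w x)
    (c : ℝ) (φ : _root_.BSS.TestForm 7 2) :
    _root_.BSS.pieceInt (torus w hw h0 h1 c).γ _root_.BSS.square φ =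
      face2 (sheet w) c φ.toFun := by
  unfold _root_.BSS.pieceInt face2
  have hs : _root_.BSS.square = Set.Icc (![0, 0] : Fin 2 → ℝ) ![2 * Real.pi, 2 * Real.pi] := by
    unfold _root_.BSS.square
    congr 1
    · funext i; fin_cases i <;> rfl
    · funext i; fin_cases i <;> rfl
  rw [hs]
  refine setIntegral_congr_fun measurableSet_Icc fun y _ => ?_
  change φ.toFun (sheet w (lift c y)) (_root_.BSS.pd (fun y => sheet w (lift c y)) y) =
    φ.toFun (sheet w (lift c y)) ![fderiv ℝ (sheet w) (lift c y) (ee 0),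
      fderiv ℝ (sheet w) (lift c y) (ee 1)]
  congr 1
  have hd : HasFDerivAt (fun y => sheet w (lift c y))
      ((fderiv ℝ (sheet w) (lift c y)).comp liftL) y := by
    have h3 : HasFDerivAt (sheet w) (fderiv ℝ (sheet w) (lift c y)) (lift c y) :=
      ((contDiff_sheet hw).differentiable (by simp) (lift c y)).hasFDerivAt
    exact h3.comp y (hasFDerivAt_lift c y)
  funext j
  unfold _root_.BSS.pd
  rw [hd.fderiv]
  change fderiv ℝ (sheet w) (lift c y) (liftL (Pi.single j 1)) = _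
  have e : ∀ j : Fin 2, liftL (Pi.single j (1 : ℝ)) = ee j.castSucc := by
    intro j
    rw [liftL_apply]
    funext i
    fin_cases j <;> fin_cases i <;> simp [ee]
  rw [e]
  fin_cases j <;> rfl

/-- The box `[0, 2 pi]^2 x [a, b]`. -/
def box3 (a b : ℝ) : Set X3 := Set.Icc (![0, 0, a] : X3) ![2 * Real.pi, 2 * Real.pi, b]

theorem pieceInt_sheet (F : X3 → _root_.BSS.Eu 7) (a b : ℝ) (φ : _root_.BSS.TestForm 7 3) :
    _root_.BSS.pieceInt F (box3 a b) φ = sheet3 F a b φ.toFun := rfl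

/-- The current `T = [[M]] + [[N]]`. -/
noncomputable def TT (u : X3 → H) : _root_.BSS.Current 7 3 := fun φ =>
  _root_.BSS.pieceInt (sheet fun _ => 0) (box3 (-4) 4) φ +
    _root_.BSS.pieceInt (sheet u) (box3 0 3) φ

/-- The four tori. -/
noncomputable def Gam (u : X3 → H) (hu : ContDiff ℝ ∞ u)
    (h0 : ∀ x, u (x + (2 * Real.pi) • ee 0) = u x) (h1 : ∀ x, u (x + (2 * Real.pi) • ee 1) = u x) :
    Fin 4 → _root_.BSS.EmbTorus 7 :=
  ![torus (fun _ => 0) contDiff_const (fun _ => rfl) (fun _ => rfl) 4,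
    torus (fun _ => 0) contDiff_const (fun _ => rfl) (fun _ => rfl) (-4),
    torus u hu h0 h1 3, torus u hu h0 h1 0]

/-- Their orientations. -/
def sgn : Fin 4 → ℤ := ![1, -1, 1, -1]

theorem sgn_pm (i : Fin 4) : sgn i = 1 ∨ sgn i = -1 := by
  fin_cases i
  · exact Or.inl rfl
  · exact Or.inr rfl
  · exact Or.inl rfl
  · exact Or.inr rfl

section
variable (u : X3 → H) (hu : ContDiff ℝ ∞ u) (h0 : ∀ x, u (x + (2 * Real.pi) • ee 0) = u x)
  (h1 : ∀ x, u (x + (2 * Real.pi) • ee 1) = u x)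

/-- The heights of the four tori. -/
def hts : Fin 4 → ℝ := ![4, -4, 3, 0]

theorem Gam_coord (i : Fin 4) (y : Fin 2 → ℝ) : (Gam u hu h0 h1 i).γ y 4 = hts i := by
  fin_cases i <;> rfl

theorem hts_inj {i j : Fin 4} (h : hts i = hts j) : i = j := by
  fin_cases i <;> fin_cases j <;> first | rfl | (exfalso; revert h; norm_num [hts])

theorem Gam_disjoint :
    Pairwise (fun i j => Disjoint (range (Gam u hu h0 h1 i).γ) (range (Gam u hu h0 h1 j).γ)) := by
  intro i j hij
  rw [Set.disjoint_left]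
  rintro _ ⟨y, rfl⟩ ⟨z, hz⟩
  apply hij
  apply hts_inj
  rw [← Gam_coord u hu h0 h1 i y, ← Gam_coord u hu h0 h1 j z, hz]

/-- **`dT = [[Gamma]]`.** -/
theorem bdry_TT (φ : _root_.BSS.TestForm 7 2) :
    _root_.BSS.bdry (TT u) φ =
      ∑ i, (sgn i : ℝ) * _root_.BSS.pieceInt (Gam u hu h0 h1 i).γ _root_.BSS.square φ := by
  have hφ : ContDiff ℝ 1 φ.toFun := contDiff_infty.mp φ.smooth 1
  have key : ∀ (w : X3 → H) (hw : ContDiff ℝ ∞ w) (k0 : ∀ x, w (x + (2 * Real.pi) • ee 0) = w x)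
      (k1 : ∀ x, w (x + (2 * Real.pi) • ee 1) = w x) (a b : ℝ), a ≤ b →
      _root_.BSS.pieceInt (sheet w) (box3 a b) φ.d =
        _root_.BSS.pieceInt (torus w hw k0 k1 b).γ _root_.BSS.square φ -
        _root_.BSS.pieceInt (torus w hw k0 k1 a).γ _root_.BSS.square φ := by
    intro w hw k0 k1 a b hab
    rw [pieceInt_sheet, pieceInt_torus, pieceInt_torus]
    exact stokes_box hφ (contDiff_sheet (contDiff_infty.mp hw 2)) (sheet_per0 k0)
      (sheet_per1 k1) hab
  have e : _root_.BSS.bdry (TT u) φ =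
      _root_.BSS.pieceInt (sheet fun _ => 0) (box3 (-4) 4) φ.d +
        _root_.BSS.pieceInt (sheet u) (box3 0 3) φ.d := rfl
  rw [e, key (fun _ => 0) contDiff_const (fun _ => rfl) (fun _ => rfl) (-4) 4 (by norm_num),
    key u hu h0 h1 0 3 (by norm_num), Fin.sum_univ_four]
  simp only [sgn, Gam, Matrix.cons_val]
  push_cast
  ring

end

end Pool.Agent.BSS
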