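import Pool.Agent.BSS.IntPos
import Pool.Agent.BSS.SingPsi
import Pool.Agent.BSS.Tori

/-!
# BSS, module G5: support of the current, the boundary singular set (helper71)
-/

set_option autoImplicit false
set_option maxSynthPendingDepth 3

open MeasureTheory Set Filter Topology
open scoped ContDiff

namespace Pool.Agent.BSS

lemma continuous_pdE {N m : ℕ} {f : (Fin m → ℝ) → _root_.BSS.Eu N} (hf : ContDiff ℝ 1 f) :
    Continuous (fun x => _root_.BSS.pd f x) := by
  apply continuous_pi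
  intro j
  have := hf.continuous_fderiv (by norm_num)
  exact this.clm_apply continuous_const

lemma continuous_pull {N m : ℕ} (φ : _root_.BSS.TestForm N m)
    {f : (Fin m → ℝ) → _root_.BSS.Eu N}
    (hf : ContDiff ℝ 1 f) : Continuous (fun x => φ.toFun (f x) (_root_.BSS.pd f x)) := by
  have h1 : Continuous (fun x => φ.toFun (f x)) := φ.smooth.continuous.comp hf.continuous
  exact h1.eval (continuous_pdE hf)

/-- A smooth function times a test form. -/
noncomputable def tsmul {N m : ℕ} (χ : _root_.BSS.Eu N → ℝ) (hχ : ContDiff ℝ ∞ χ)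
    (φ : _root_.BSS.TestForm N m) : _root_.BSS.TestForm N m where
  toFun := fun x => χ x • φ.toFun x
  smooth := hχ.smul φ.smooth
  compact := by
    refine φ.compact.mono ?_
    intro x hx
    rw [Function.mem_support] at hx ⊢
    intro h0
    apply hx
    rw [h0, smul_zero]

lemma tsmul_toFun {N m : ℕ} (χ : _root_.BSS.Eu N → ℝ) (hχ : ContDiff ℝ ∞ χ)
    (φ : _root_.BSS.TestForm N m) (x : _root_.BSS.Eu N) :
    (tsmul χ hχ φ).toFun x = χ x • φ.toFun x := rfl

/-- The points of a piece on which a test form is positive are in the support of the current, if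
the form is nonnegative on the other piece. -/
theorem mem_supp_of {N m : ℕ} (T : _root_.BSS.Current N m)
    (f f' : (Fin m → ℝ) → _root_.BSS.Eu N)
    (a b a' b' : Fin m → ℝ) (hab : ∀ i, a i < b i)
    (hT : ∀ φ, T φ = _root_.BSS.pieceInt f (Icc a b) φ + _root_.BSS.pieceInt f' (Icc a' b') φ)
    (hf : ContDiff ℝ 1 f) (Φ : _root_.BSS.TestForm N m)
    (hΦ : ∀ x ∈ Icc a b, 0 < Φ.toFun (f x) (_root_.BSS.pd f x))
    (hΦ' : ∀ x ∈ Icc a' b', 0 ≤ Φ.toFun (f' x) (_root_.BSS.pd f' x)) :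
    ∀ x ∈ Icc a b, f x ∈ _root_.BSS.supp T := by
  intro x hx U hU hxU
  obtain ⟨χ, h1, -, h3, h4, h5⟩ :=
    exists_contDiff_tsupport_subset (n := (⊤ : ℕ∞)) (hU.mem_nhds hxU)
  have hχ : ContDiff ℝ ∞ χ := h3
  have h0 : ∀ y, 0 ≤ χ y := fun y => (h4 (mem_range_self y)).1
  have hval : ∀ (F : (Fin m → ℝ) → _root_.BSS.Eu N) (y : Fin m → ℝ),
      (tsmul χ hχ Φ).toFun (F y) (_root_.BSS.pd F y) =
        χ (F y) * Φ.toFun (F y) (_root_.BSS.pd F y) := by
    intro F y
    rw [tsmul_toFun, ContinuousAlternatingMap.smul_apply, smul_eq_mul]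
  refine ⟨tsmul χ hχ Φ, ?_, ?_⟩
  · refine Subset.trans (closure_mono ?_) h1
    intro y hy
    rw [Function.mem_support] at hy ⊢
    intro h
    apply hy
    rw [tsmul_toFun, h, zero_smul]
  · rw [hT]
    have e1 : 0 < _root_.BSS.pieceInt f (Icc a b) (tsmul χ hχ Φ) := by
      unfold _root_.BSS.pieceInt
      refine box_integral_pos a b hab _ (continuous_pull (tsmul χ hχ Φ) hf).continuousOn ?_ x hx ?_
      · intro y hy
        rw [hval]
        exact mul_nonneg (h0 _) (hΦ y hy).le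
      · rw [hval, h5, one_mul]
        exact hΦ x hx
    have e2 : 0 ≤ _root_.BSS.pieceInt f' (Icc a' b') (tsmul χ hχ Φ) := by
      unfold _root_.BSS.pieceInt
      refine box_integral_nonneg a' b' _ ?_
      intro y hy
      rw [hval]
      exact mul_nonneg (h0 _) (hΦ' y hy)
    exact (add_pos_of_pos_of_nonneg e1 e2).ne'

/-- The boundary singular set in the sense of `Stmt` contains the nonregular points. -/
lemma singSet_subset (T : _root_.BSS.Current 7 3) (Γ : Set (_root_.BSS.Eu 7)) :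
    SingSet Γ (_root_.BSS.supp T) ⊆ _root_.BSS.SingB 4 T Γ := by
  rintro x ⟨hx, hreg⟩
  refine ⟨hx, fun h => hreg ?_⟩
  obtain ⟨-, U, Ξ, hU, hxU, hΞ, hS⟩ := h
  refine ⟨U, hU, hxU, Ξ, hΞ.1, ?_, hS⟩
  intro p hp
  obtain ⟨V, k, hV, hpV, hk, hks, hkV⟩ := hΞ.2 p hp
  exact ⟨V, hV, hpV, k, hk, hks, hkV⟩

/-- Every point of `R^3` is equivalent to a point of the fundamental box. -/
lemma exists_box (F : X3 → _root_.BSS.Eu 7) (h0 : ∀ x, F (x + (2 * Real.pi) • ee 0) = F x)
    (h1 : ∀ x, F (x + (2 * Real.pi) • ee 1) = F x) (a b : ℝ) (x : X3) (ha : a ≤ x 2)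
    (hb : x 2 ≤ b) : ∃ y ∈ box3 a b, F y = F x := by
  have hpi : 0 < 2 * Real.pi := by positivity
  have p0 : Function.Periodic F ((2 * Real.pi) • ee 0) := h0
  have p1 : Function.Periodic F ((2 * Real.pi) • ee 1) := h1
  obtain ⟨n, hn⟩ : ∃ n : ℤ, 0 ≤ x 0 - n * (2 * Real.pi) ∧ x 0 - n * (2 * Real.pi) ≤ 2 * Real.pi := by
    refine ⟨⌊x 0 / (2 * Real.pi)⌋, ?_, ?_⟩
    · have := Int.floor_le (x 0 / (2 * Real.pi))
      rw [le_div_iff₀ hpi] at this
      linarith
    · have := (Int.lt_floor_add_one (x 0 / (2 * Real.pi))).le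
      rw [div_le_iff₀ hpi] at this
      linarith
  obtain ⟨m, hm⟩ : ∃ m : ℤ, 0 ≤ x 1 - m * (2 * Real.pi) ∧ x 1 - m * (2 * Real.pi) ≤ 2 * Real.pi := by
    refine ⟨⌊x 1 / (2 * Real.pi)⌋, ?_, ?_⟩
    · have := Int.floor_le (x 1 / (2 * Real.pi))
      rw [le_div_iff₀ hpi] at this
      linarith
    · have := (Int.lt_floor_add_one (x 1 / (2 * Real.pi))).le
      rw [div_le_iff₀ hpi] at this
      linarith
  refine ⟨x - n • ((2 * Real.pi) • ee 0) - m • ((2 * Real.pi) • ee 1), ?_, ?_⟩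
  · have e0 : (x - n • ((2 * Real.pi) • ee 0) - m • ((2 * Real.pi) • ee 1)) 0 =
        x 0 - n * (2 * Real.pi) := by
      simp [ee]
      ring
    have e1 : (x - n • ((2 * Real.pi) • ee 0) - m • ((2 * Real.pi) • ee 1)) 1 =
        x 1 - m * (2 * Real.pi) := by
      simp [ee]
      ring
    have e2 : (x - n • ((2 * Real.pi) • ee 0) - m • ((2 * Real.pi) • ee 1)) 2 = x 2 := by
      simp [ee]
    refine ⟨?_, ?_⟩
    · intro i
      fin_cases i
      · exact le_of_le_of_eq hn.1 e0.symm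
      · exact le_of_le_of_eq hm.1 e1.symm
      · exact le_of_le_of_eq ha e2.symm
    · intro i
      fin_cases i
      · exact le_of_eq_of_le e0 hn.2
      · exact le_of_eq_of_le e1 hm.2
      · exact le_of_eq_of_le e2 hb
  · rw [p1.sub_zsmul_eq, p0.sub_zsmul_eq]

/-- **The boundary singular set of the current `TT u` has positive two-dimensional measure.** -/
theorem singB_pos (E : Set (Fin 2 → ℝ)) (hE1 : ∀ y ∈ E, ∀ i, 0 ≤ y i ∧ y i ≤ 1) (hE : 0 < volume E)
    (u : X3 → H) (hu : ContDiff ℝ ∞ u)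
    (h0 : ∀ x, u (x + (2 * Real.pi) • ee 0) = u x) (h1 : ∀ x, u (x + (2 * Real.pi) • ee 1) = u x)
    (hz0 : ∀ y ∈ E, u ![y 0, y 1, 0] = 0) (hz1 : ∀ x : X3, 0 < x 2 → u x ≠ 0)
    (Φ : _root_.BSS.TestForm 7 3)
    (hM : ∀ x ∈ box3 (-4) 4, 0 < Φ.toFun (sheet (fun _ => 0) x)
      (_root_.BSS.pd (sheet fun _ => 0) x))
    (hN : ∀ x ∈ box3 0 3, 0 < Φ.toFun (sheet u x) (_root_.BSS.pd (sheet u) x)) :
    0 < Measure.hausdorffMeasure 2
      (_root_.BSS.SingB 4 (TT u) (⋃ i, range (Gam u hu h0 h1 i).γ)) := by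
  have hpi : 0 < 2 * Real.pi := by positivity
  have hz : ∀ x : X3, (fun _ : X3 => (0 : H)) (x + (2 * Real.pi) • ee 0) = 0 := fun _ => rfl
  have sM : ∀ x ∈ box3 (-4) 4, sheet (fun _ => 0) x ∈ _root_.BSS.supp (TT u) := by
    refine mem_supp_of (TT u) (sheet fun _ => 0) (sheet u) _ _ _ _ ?_ (fun _ => rfl)
      (contDiff_sheet contDiff_const) Φ hM (fun x hx => (hN x hx).le)
    intro i
    fin_cases i
    · exact hpi
    · exact hpi
    · change (-4 : ℝ) < 4
      norm_num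
  have sN : ∀ x ∈ box3 0 3, sheet u x ∈ _root_.BSS.supp (TT u) := by
    refine mem_supp_of (TT u) (sheet u) (sheet fun _ => 0) _ _ _ _ ?_ (fun φ => add_comm _ _)
      (contDiff_sheet (contDiff_infty.mp hu 1)) Φ hN (fun x hx => (hM x hx).le)
    intro i
    fin_cases i
    · exact hpi
    · exact hpi
    · change (0 : ℝ) < 3
      norm_num
  refine lt_of_lt_of_le ?_ (measure_mono (singSet_subset (TT u) _))
  refine sing_pos E hE1 hE u hu.continuous.continuousOn hz0 hz1 _ _ ?_ ?_ ?_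
  · intro y hy
    refine mem_iUnion.2 ⟨3, y, ?_⟩
    change Psi (lift 0 y, u (lift 0 y)) = Psi (![y 0, y 1, 0], 0)
    have e : u (lift 0 y) = 0 := hz0 y hy
    rw [e]
    rfl
  · intro x hx
    rw [abs_lt] at hx
    obtain ⟨y, hy, e⟩ := exists_box (sheet fun _ => 0)
      (sheet_per0 (w := fun _ => 0) (fun _ => rfl)) (sheet_per1 (w := fun _ => 0) (fun _ => rfl))
      (-4) 4 x (by linarith [hx.1]) (by linarith [hx.2])
    have h2 := sM y hy
    rw [e] at h2
    exact h2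
  · intro x hx1 hx2
    obtain ⟨y, hy, e⟩ := exists_box (sheet u) (sheet_per0 h0) (sheet_per1 h1) 0 3 x hx1.le
      (by linarith)
    have h2 := sN y hy
    rw [e] at h2
    exact h2

end Pool.Agent.BSS
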