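import Pool.Agent.BSS.GoalOf
import Pool.Agent.BSS.SingFin

/-!
# BSS, module G5: the open geometric statement of `GoalOf` (helper71)
-/

set_option autoImplicit false
set_option maxSynthPendingDepth 3

open MeasureTheory Set
open scoped ContDiff

namespace Pool.Agent.BSS

/-- The boundary singular set has positive measure. -/
theorem sing_out : SingOut := by
  intro u S1 S2 D g hg E hE1 hE hz0 hz1
  exact singB_pos E hE1 hE u D.hu D.pu0 D.pu1 hz0 hz1 D.alpha.d
    (fun x hx => (D.cal_flat hg x hx).1) (fun x hx => (D.cal_graph hg x hx).1)

/-- The goal from theorem AT. -/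
theorem goal_of_at (hAT : ATStatement) : _root_.BSS.Goal := goal_of hAT sing_out

end Pool.Agent.BSS
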