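import Pool.Agent.BSS.ATIn
import Pool.Agent.BSS.LocalB
import Pool.Agent.BSS.SingOut

/-!
# Theorem AT and the final statement
-/

set_option autoImplicit false

set_option maxSynthPendingDepth 3

namespace Pool.Agent.BSS

/-- **Theorem AT.** -/
theorem at_statement : ATStatement :=
  at_of_parts TM.termBound TM.termSmooth LQ.locPicStatement

/-- **The final statement.** -/
theorem goal : _root_.BSS.Goal := goal_of_at at_statement

end Pool.Agent.BSS
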