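import Pool.Agent.BSS.Par0

/-!
MP_bff03b_an, part A3a (doc H/bff03b, section 7): the sets `E_k`, `E`, measure, edges.
-/

namespace Pool.Agent.BSS

open Set Filter Topology MeasureTheory

/-! ### The parameters -/

theorem one_le_three_pow (k : ℕ) : 1 ≤ 3 ^ Nat.log 4 k := Nat.one_le_pow _ _ (by norm_num)

theorem hundred_le_NN (k : ℕ) : 100 ≤ NN k := by
  unfold NN
  have := one_le_three_pow k
  omega

theorem NN_pos (k : ℕ) : 0 < NN k := lt_of_lt_of_le (by norm_num) (hundred_le_NN k)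

theorem nn_pos (k : ℕ) : 0 < nn k := by
  unfold nn
  have := NN_pos k
  positivity

theorem rho_succ (k : ℕ) : rho (k + 1) = rho k / (nn (k + 1) : ℝ) := rfl

theorem rho_zero : rho 0 = 1 := rfl

theorem rho_pos : ∀ k, 0 < rho k
  | 0 => by rw [rho_zero]; exact one_pos
  | (k + 1) => by
      rw [rho_succ]
      have := rho_pos k
      have h2 : (0 : ℝ) < nn (k + 1) := by exact_mod_cast nn_pos (k + 1)
      positivity

theorem rho_eq_nn_mul (k : ℕ) : rho k = (nn (k + 1) : ℝ) * rho (k + 1) := by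
  rw [rho_succ]
  have h2 : (0 : ℝ) < nn (k + 1) := by exact_mod_cast nn_pos (k + 1)
  field_simp

theorem pp_succ (k : ℕ) : pp (k + 1) = rho k := rfl

theorem pp_eq (k : ℕ) : pp (k + 1) = (nn (k + 1) : ℝ) * rho (k + 1) := by
  rw [pp_succ, rho_eq_nn_mul]

theorem pp_pos (k : ℕ) : 0 < pp k := rho_pos _

theorem dd_pos (k : ℕ) : 0 < dd k := by
  unfold dd
  have h2 : (0 : ℝ) < NN k := by exact_mod_cast NN_pos k
  have := rho_pos k
  positivity

theorem mu_pos (k : ℕ) : 0 < mu k := by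
  unfold mu
  have := rho_pos k
  positivity

/-- `1 / rho_k`. -/
def iR : ℕ → ℕ
  | 0 => 1
  | (k + 1) => iR k * nn (k + 1)

theorem iR_pos : ∀ k, 0 < iR k
  | 0 => by simp [iR]
  | (k + 1) => by
      have h1 := iR_pos k
      have h2 := nn_pos (k + 1)
      simp only [iR]
      positivity

theorem rho_mul_iR : ∀ k, rho k * (iR k : ℝ) = 1
  | 0 => by simp [iR, rho_zero]
  | (k + 1) => by
      have h := rho_mul_iR k
      have e := rho_eq_nn_mul k
      simp only [iR]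
      push_cast
      rw [← h, e]
      ring

/-- `rho_j` is an integer multiple of `rho_k` for `j ≤ k`. -/
theorem exists_rho_eq_mul {j k : ℕ} (h : j ≤ k) : ∃ M : ℕ, 0 < M ∧ rho j = (M : ℝ) * rho k := by
  induction k, h using Nat.le_induction with
  | base => exact ⟨1, one_pos, by simp⟩
  | succ k _ ih =>
      obtain ⟨M, hM, e⟩ := ih
      refine ⟨M * nn (k + 1), Nat.mul_pos hM (nn_pos _), ?_⟩
      rw [e, rho_eq_nn_mul k]
      push_cast
      ring

/-! ### The distance to `p ℤ` -/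

theorem dZ_nonneg (p s : ℝ) : 0 ≤ dZ p s := abs_nonneg _

theorem dZ_exists (p s : ℝ) : ∃ m : ℤ, dZ p s = |s - p * m| := ⟨round (s / p), rfl⟩

theorem dZ_le {p : ℝ} (hp : 0 < p) (s : ℝ) (m : ℤ) : dZ p s ≤ |s - p * m| := by
  have h := round_le (s / p) m
  have e : ∀ z : ℝ, s - p * z = p * (s / p - z) := by
    intro z
    field_simp
  unfold dZ
  rw [e, e, abs_mul, abs_mul, abs_of_pos hp]
  exact mul_le_mul_of_nonneg_left h hp.le

theorem dZ_lt_iff {p : ℝ} (hp : 0 < p) (s r : ℝ) : dZ p s < r ↔ ∃ m : ℤ, |s - p * m| < r :=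
  ⟨fun h => ⟨round (s / p), h⟩, fun ⟨m, h⟩ => lt_of_le_of_lt (dZ_le hp s m) h⟩

theorem dZ_le_iff {p : ℝ} (hp : 0 < p) (s r : ℝ) : dZ p s ≤ r ↔ ∃ m : ℤ, |s - p * m| ≤ r :=
  ⟨fun h => ⟨round (s / p), h⟩, fun ⟨m, h⟩ => le_trans (dZ_le hp s m) h⟩

theorem le_dZ_iff {p : ℝ} (hp : 0 < p) (s r : ℝ) : r ≤ dZ p s ↔ ∀ m : ℤ, r ≤ |s - p * m| := by
  rw [← not_lt, dZ_lt_iff hp]
  push Not
  rfl

theorem lt_dZ_iff {p : ℝ} (hp : 0 < p) (s r : ℝ) : r < dZ p s ↔ ∀ m : ℤ, r < |s - p * m| := by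
  rw [← not_le, dZ_le_iff hp]
  push Not
  rfl

theorem dZ_pos_iff {p : ℝ} (hp : 0 < p) (s : ℝ) : 0 < dZ p s ↔ ∀ m : ℤ, s ≠ p * m := by
  rw [lt_dZ_iff hp]
  refine forall_congr' fun m => ?_
  rw [abs_pos, sub_ne_zero]

theorem dZ_le_half {p : ℝ} (hp : 0 < p) (s : ℝ) : dZ p s ≤ p / 2 := by
  have h := abs_sub_round (s / p)
  have e : s - p * (round (s / p) : ℝ) = p * (s / p - round (s / p)) := by
    field_simp
  unfold dZ
  rw [e, abs_mul, abs_of_pos hp]
  nlinarith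

theorem dZ_le_add {p : ℝ} (hp : 0 < p) (s s' : ℝ) : dZ p s ≤ dZ p s' + |s - s'| := by
  obtain ⟨m, hm⟩ := dZ_exists p s'
  rw [hm]
  refine (dZ_le hp s m).trans ?_
  have : s - p * m = (s' - p * m) + (s - s') := by ring
  rw [this]
  exact abs_add_le _ _

theorem abs_dZ_sub_le {p : ℝ} (hp : 0 < p) (s s' : ℝ) : |dZ p s - dZ p s'| ≤ |s - s'| := by
  rw [abs_le]
  have h1 := dZ_le_add hp s s'
  have h2 := dZ_le_add hp s' s
  rw [abs_sub_comm] at h2
  constructor <;> linarith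

theorem continuous_dZ {p : ℝ} (hp : 0 < p) : Continuous (dZ p) := by
  refine (LipschitzWith.of_dist_le_mul (K := 1) fun s s' => ?_).continuous
  rw [Real.dist_eq, Real.dist_eq]
  simpa using abs_dZ_sub_le hp s s'

theorem dZ_add_mul {p : ℝ} (hp : 0 < p) (s : ℝ) (m : ℤ) : dZ p (s + p * m) = dZ p s := by
  apply le_antisymm
  · obtain ⟨l, hl⟩ := dZ_exists p s
    rw [hl]
    refine (dZ_le hp _ (l + m)).trans (le_of_eq ?_)
    push_cast
    congr 1
    ring
  · obtain ⟨l, hl⟩ := dZ_exists p (s + p * m)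
    rw [hl]
    refine (dZ_le hp _ (l - m)).trans (le_of_eq ?_)
    push_cast
    congr 1
    ring

theorem dZ_mul_int {p : ℝ} (hp : 0 < p) (m : ℤ) : dZ p (p * m) = 0 := by
  apply le_antisymm _ (dZ_nonneg _ _)
  refine (dZ_le hp _ m).trans (le_of_eq ?_)
  simp

/-- A finer grid is closer. -/
theorem dZ_le_dZ_of_mul {p q : ℝ} (hq : 0 < q) (M : ℕ) (h : p = (M : ℝ) * q) (s : ℝ) :
    dZ q s ≤ dZ p s := by
  obtain ⟨m, hm⟩ := dZ_exists p s
  rw [hm]
  refine (dZ_le hq s (M * m)).trans (le_of_eq ?_)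
  rw [h]
  push_cast
  congr 1
  ring

theorem dZ_rho_le {j k : ℕ} (h : j ≤ k) (s : ℝ) : dZ (rho k) s ≤ dZ (rho j) s := by
  obtain ⟨M, -, e⟩ := exists_rho_eq_mul h
  exact dZ_le_dZ_of_mul (rho_pos k) M e s

/-! ### The sets -/

theorem EE_succ (k : ℕ) : EE (k + 1) = EE k \ gap (k + 1) := rfl

theorem mem_EE_zero (y : X2) : y ∈ EE 0 ↔ ∀ i, 0 ≤ y i ∧ y i ≤ 1 := Iff.rfl

theorem mem_EE_succ (k : ℕ) (y : X2) : y ∈ EE (k + 1) ↔ y ∈ EE k ∧ y ∉ gap (k + 1) := Iff.rfl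

theorem notMem_gap_iff (k : ℕ) (y : X2) :
    y ∉ gap k ↔ (∀ i, 3 * rho k ≤ dZ (pp k) (y i)) ∧ ∃ i, 3 * rho k ≤ dZ (dd k) (y i) := by
  unfold gap
  simp only [Set.mem_ofPred_eq, not_or, not_exists, not_lt, not_forall]

theorem three_rho_le_of_mem {k : ℕ} {y : X2} (h : y ∈ EE (k + 1)) (i : Fin 2) :
    3 * rho (k + 1) ≤ dZ (pp (k + 1)) (y i) :=
  ((notMem_gap_iff _ _).1 h.2).1 i

theorem exists_three_rho_le_of_mem {k : ℕ} {y : X2} (h : y ∈ EE (k + 1)) :
    ∃ i, 3 * rho (k + 1) ≤ dZ (dd (k + 1)) (y i) :=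
  ((notMem_gap_iff _ _).1 h.2).2

theorem EE_succ_subset (k : ℕ) : EE (k + 1) ⊆ EE k := Set.sdiff_subset

theorem EE_anti : Antitone EE := antitone_nat_of_succ_le EE_succ_subset

theorem E2_subset (k : ℕ) : E2 ⊆ EE k := iInter_subset _ _

theorem mem_E2 (y : X2) : y ∈ E2 ↔ ∀ k, y ∈ EE k := mem_iInter

theorem isOpen_gap (k : ℕ) : IsOpen (gap k) := by
  have h1 : ∀ (p r : ℝ), 0 < p → ∀ i : Fin 2, IsOpen {y : X2 | dZ p (y i) < r} := by
    intro p r hp i
    exact isOpen_lt ((continuous_dZ hp).comp (continuous_apply i)) continuous_const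
  have e : gap k = (⋃ i, {y : X2 | dZ (pp k) (y i) < 3 * rho k}) ∪
      ⋂ i, {y : X2 | dZ (dd k) (y i) < 3 * rho k} := by
    ext y
    simp [gap]
  rw [e]
  refine (isOpen_iUnion fun i => h1 _ _ (pp_pos k) i).union ?_
  exact isOpen_iInter_of_finite fun i => h1 _ _ (dd_pos k) i

theorem EE_zero_eq : EE 0 = Set.univ.pi (fun _ : Fin 2 => Icc (0 : ℝ) 1) := by
  ext y
  simp only [mem_EE_zero, Set.mem_univ_pi, mem_Icc]

theorem isCompact_EE : ∀ k, IsCompact (EE k)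
  | 0 => by
      rw [EE_zero_eq]
      exact isCompact_univ_pi fun _ => isCompact_Icc
  | (k + 1) => (isCompact_EE k).diff (isOpen_gap (k + 1))

theorem isClosed_EE (k : ℕ) : IsClosed (EE k) := (isCompact_EE k).isClosed

theorem isClosed_E2 : IsClosed E2 := isClosed_iInter isClosed_EE

theorem isCompact_E2 : IsCompact E2 :=
  (isCompact_EE 0).of_isClosed_subset isClosed_E2 (E2_subset 0)

/-! ### The edges lie on the lines `x_i ∈ rho_k ℤ` -/

theorem dZ_lt_iff_floor {q : ℝ} (hq : 0 < q) (n : ℕ) (hn : 0 < n) (s : ℝ)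
    (hs : ∀ m : ℤ, s ≠ q * m) :
    dZ ((n : ℝ) * q) s < 3 * q ↔
      ∃ m : ℤ, (n : ℤ) * m - 3 ≤ ⌊s / q⌋ ∧ ⌊s / q⌋ < (n : ℤ) * m + 3 := by
  have hn' : (0 : ℝ) < n := by exact_mod_cast hn
  rw [dZ_lt_iff (by positivity)]
  refine exists_congr fun m => ?_
  have e : s = q * (s / q) := by field_simp
  rw [Int.le_floor, Int.floor_lt]
  have e2 : s - (n : ℝ) * q * m = q * (s / q - n * m) := by
    field_simp
  rw [e2, abs_mul, abs_of_pos hq]
  have h3 : q * |s / q - n * m| < 3 * q ↔ |s / q - n * m| < 3 := by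
    constructor
    · intro h
      by_contra h'
      push Not at h'
      nlinarith
    · intro h
      nlinarith
  rw [h3, abs_lt]
  push_cast
  constructor
  · rintro ⟨h1, h2⟩
    constructor <;> linarith
  · rintro ⟨h1, h2⟩
    refine ⟨?_, by linarith⟩
    rcases lt_or_eq_of_le h1 with h | h
    · linarith
    · exfalso
      refine hs ((n : ℤ) * m - 3) ?_
      rw [e, ← h]
      push_cast
      ring

theorem EE_iff_of_floor (k : ℕ) {y z : X2} (hy : ∀ i, ∀ m : ℤ, y i ≠ rho k * m)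
    (hz : ∀ i, ∀ m : ℤ, z i ≠ rho k * m) (hf : ∀ i, ⌊y i / rho k⌋ = ⌊z i / rho k⌋) :
    y ∈ EE k ↔ z ∈ EE k := by
  induction k generalizing y z with
  | zero =>
      rw [mem_EE_zero, mem_EE_zero]
      have key : ∀ s : ℝ, (∀ m : ℤ, s ≠ rho 0 * m) →
          ((0 ≤ s ∧ s ≤ 1) ↔ (0 ≤ ⌊s / rho 0⌋ ∧ ⌊s / rho 0⌋ < 1)) := by
        intro s hs
        rw [rho_zero, div_one, Int.floor_lt, Int.le_floor]
        push_cast
        refine and_congr Iff.rfl ⟨fun h => lt_of_le_of_ne h ?_, fun h => h.le⟩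
        have := hs 1
        rw [rho_zero] at this
        simpa using this
      refine forall_congr' fun i => ?_
      rw [key _ (hy i), key _ (hz i), hf i]
  | succ k ih =>
      have hnn : 0 < nn (k + 1) := nn_pos _
      have hr := rho_pos (k + 1)
      have e := rho_eq_nn_mul k
      have hc : ∀ {w : X2}, (∀ i, ∀ m : ℤ, w i ≠ rho (k + 1) * m) →
          ∀ i, ∀ m : ℤ, w i ≠ rho k * m := by
        intro w hw i m h
        refine hw i ((nn (k + 1) : ℤ) * m) ?_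
        rw [h, e]
        push_cast
        ring
      have hfl : ∀ s : ℝ, ⌊s / rho k⌋ = ⌊s / rho (k + 1)⌋ / (nn (k + 1) : ℤ) := by
        intro s
        rw [← Int.floor_div_natCast]
        congr 1
        rw [e]
        field_simp
      have h1 : y ∈ EE k ↔ z ∈ EE k :=
        ih (hc hy) (hc hz) fun i => by rw [hfl, hfl, hf i]
      have key : ∀ {w : X2}, (∀ i, ∀ m : ℤ, w i ≠ rho (k + 1) * m) →
          (w ∈ gap (k + 1) ↔
          ((∃ i, ∃ m : ℤ, (nn (k + 1) : ℤ) * m - 3 ≤ ⌊w i / rho (k + 1)⌋ ∧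
              ⌊w i / rho (k + 1)⌋ < (nn (k + 1) : ℤ) * m + 3) ∨
            ∀ i, ∃ m : ℤ, (NN (k + 1) : ℤ) * m - 3 ≤ ⌊w i / rho (k + 1)⌋ ∧
              ⌊w i / rho (k + 1)⌋ < (NN (k + 1) : ℤ) * m + 3)) := by
        intro w hw
        unfold gap
        rw [Set.mem_ofPred_eq, pp_eq]
        unfold dd
        refine or_congr (exists_congr fun i => ?_) (forall_congr' fun i => ?_)
        · exact dZ_lt_iff_floor hr _ hnn _ (hw i)
        · exact dZ_lt_iff_floor hr _ (NN_pos _) _ (hw i)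
      rw [mem_EE_succ, mem_EE_succ, h1, key hy, key hz]
      simp only [hf]

/-- Two points, one closer to the other than to the grid `rho_k ℤ`, are together in or out of
`E_k`. -/
theorem EE_iff_of_close (k : ℕ) {y z : X2} (h : ∀ i, |y i - z i| < dZ (rho k) (y i)) :
    y ∈ EE k ↔ z ∈ EE k := by
  have hr := rho_pos k
  have hy : ∀ i, ∀ m : ℤ, y i ≠ rho k * m := by
    intro i
    exact (dZ_pos_iff hr _).1 (lt_of_le_of_lt (abs_nonneg _) (h i))
  refine EE_iff_of_floor k hy ?_ ?_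
  · intro i m hm
    have h1 := h i
    rw [hm] at h1
    exact absurd (dZ_le hr (y i) m) (not_le.2 h1)
  · intro i
    have h1 := h i
    set a := ⌊y i / rho k⌋ with ha
    have ha1 : (a : ℝ) ≤ y i / rho k := Int.floor_le _
    have ha2 : y i / rho k < a + 1 := Int.lt_floor_add_one _
    rw [le_div_iff₀ hr] at ha1
    rw [div_lt_iff₀ hr] at ha2
    have b1 := dZ_le hr (y i) a
    have b2 := dZ_le hr (y i) (a + 1)
    rw [abs_of_nonneg (by linarith)] at b1
    push_cast at b2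
    rw [abs_of_neg (by linarith)] at b2
    rw [abs_lt] at h1
    symm
    rw [Int.floor_eq_iff]
    constructor
    · rw [le_div_iff₀ hr]
      linarith
    · rw [div_lt_iff₀ hr]
      linarith

theorem EE_eventually (k : ℕ) {y : X2} (hy : ∀ i, 0 < dZ (rho k) (y i)) :
    ∀ᶠ z in 𝓝 y, (z ∈ EE k ↔ y ∈ EE k) := by
  have h : ∀ᶠ z in 𝓝 y, ∀ i, |y i - z i| < dZ (rho k) (y i) := by
    rw [eventually_all]
    intro i
    have hc : Continuous fun z : X2 => |y i - z i| := by fun_prop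
    refine hc.continuousAt.eventually_lt continuousAt_const ?_
    simpa using hy i
  filter_upwards [h] with z hz
  exact (EE_iff_of_close k hz).symm

end Pool.Agent.BSS
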