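import Pool.Agent.BSS.Tame

/-!
# Tame calculus: products, derivatives, inverses, compositions, finite sums
-/

open Set Filter Metric
open scoped ContDiff Topology

namespace Pool.Agent.BSS

variable {ι : Type*} {E F G H : Type*} [NormedAddCommGroup E] [NormedSpace ℝ E]
  [NormedAddCommGroup F] [NormedSpace ℝ F] [NormedAddCommGroup G] [NormedSpace ℝ G]
  [NormedAddCommGroup H] [NormedSpace ℝ H]

variable {O : ι → Set E} {M w v : ι → E → ℝ} {f : ι → E → F} {g : ι → E → G} {N : ℕ}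

/-! ### products -/

theorem FamN.smul {a : ι → E → ℝ} (ha : FamN N O M w a) (hf : FamN N O M v f) :
    FamN N O M (fun i x => w i x * v i x) (fun i x => a i x • f i x) :=
  ha.bilin (ContinuousLinearMap.lsmul ℝ ℝ) hf

theorem MFam.smul {a : ι → E → ℝ} (ha : MFam O M w a) (hf : MFam O M v f) :
    MFam O M (fun i x => w i x * v i x) (fun i x => a i x • f i x) :=
  fun N => (ha N).smul (hf N)

theorem FamN.mul {A : Type*} [NormedRing A] [NormedAlgebra ℝ A] {a b : ι → E → A}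
    (ha : FamN N O M w a) (hb : FamN N O M v b) :
    FamN N O M (fun i x => w i x * v i x) (fun i x => a i x * b i x) :=
  ha.bilin (ContinuousLinearMap.mul ℝ A) hb

theorem MFam.mul {A : Type*} [NormedRing A] [NormedAlgebra ℝ A] {a b : ι → E → A}
    (ha : MFam O M w a) (hb : MFam O M v b) :
    MFam O M (fun i x => w i x * v i x) (fun i x => a i x * b i x) :=
  fun N => (ha N).mul (hb N)

theorem FamN.inner {V : Type*} [NormedAddCommGroup V] [InnerProductSpace ℝ V] {a b : ι → E → V}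
    (ha : FamN N O M w a) (hb : FamN N O M v b) :
    FamN N O M (fun i x => w i x * v i x) (fun i x => (inner ℝ (a i x) (b i x) : ℝ)) :=
  ha.bilin (innerSL ℝ) hb

theorem MFam.inner {V : Type*} [NormedAddCommGroup V] [InnerProductSpace ℝ V] {a b : ι → E → V}
    (ha : MFam O M w a) (hb : MFam O M v b) :
    MFam O M (fun i x => w i x * v i x) (fun i x => (inner ℝ (a i x) (b i x) : ℝ)) :=
  fun N => (ha N).inner (hb N)

theorem FamN.clm_apply {L : ι → E → F →L[ℝ] G} (hL : FamN N O M w L) (hf : FamN N O M v f) :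
    FamN N O M (fun i x => w i x * v i x) (fun i x => L i x (f i x)) :=
  hL.bilin (ContinuousLinearMap.id ℝ (F →L[ℝ] G)) hf

theorem MFam.clm_apply {L : ι → E → F →L[ℝ] G} (hL : MFam O M w L) (hf : MFam O M v f) :
    MFam O M (fun i x => w i x * v i x) (fun i x => L i x (f i x)) :=
  fun N => (hL N).clm_apply (hf N)

/-- `x ↦ L x (c)` for a fixed vector -/
theorem MFam.clm_apply_const {L : ι → E → F →L[ℝ] G} (hL : MFam O M w L) (c : F) :
    MFam O M w (fun i x => L i x c) :=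
  hL.clm (ContinuousLinearMap.apply ℝ G c)

/-- the rank one operators `y ↦ φ(y) a` -/
theorem MFam.smulRight {φ : ι → E → F →L[ℝ] ℝ} {a : ι → E → G} (hφ : MFam O M w φ)
    (ha : MFam O M v a) :
    MFam O M (fun i x => w i x * v i x) (fun i x => (φ i x).smulRight (a i x)) :=
  hφ.bilin (ContinuousLinearMap.smulRightL ℝ F G) ha

/-- the rank one operators `y ↦ ⟨a, y⟩ b` -/
theorem MFam.rankOne {V : Type*} [NormedAddCommGroup V] [InnerProductSpace ℝ V]
    {a : ι → E → V} {b : ι → E → G} (ha : MFam O M w a) (hb : MFam O M v b) :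
    MFam O M (fun i x => w i x * v i x) (fun i x => (innerSL ℝ (a i x)).smulRight (b i x)) :=
  MFam.smulRight (φ := fun i x => innerSL ℝ (a i x)) (ha.clm (innerSL ℝ)) hb

/-! ### derivatives -/

theorem FamN.fderiv (hf : FamN (N + 1) O M w f) : FamN N O M w (fun i => fderiv ℝ (f i)) := by
  obtain ⟨C, hC⟩ := hf.bound
  refine ⟨hf.dom, hf.nonneg, fun i => (hf.smooth i).fderiv_of_isOpen (hf.dom.isOpen i) (by simp),
    C, fun n hn i x hx => ?_⟩
  rw [norm_iteratedFDeriv_fderiv]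
  exact hC (n + 1) (by omega) i x hx

theorem MFam.fderiv (hf : MFam O M w f) : MFam O M w (fun i => fderiv ℝ (f i)) :=
  fun N => (hf (N + 1)).fderiv

theorem MFam.fderiv_apply (hf : MFam O M w f) (c : E) :
    MFam O M w (fun i x => _root_.fderiv ℝ (f i) x c) := hf.fderiv.clm_apply_const c

/-- from order `N` of the derivative to order `N + 1` of the function -/
theorem FamN.succ (hs : ∀ i, ContDiffOn ℝ ∞ (f i) (O i)) {C' : ℕ}
    (h0 : ∀ i, ∀ x ∈ O i, ‖f i x‖ ≤ C' * M i x ^ C' * w i x)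
    (hf : FamN N O M w (fun i => _root_.fderiv ℝ (f i))) : FamN (N + 1) O M w f := by
  obtain ⟨C, hC⟩ := hf.bound
  refine ⟨hf.dom, hf.nonneg, hs, C + C', fun n hn i x hx => ?_⟩
  have hM := hf.dom.one_le i x hx
  have hw := hf.nonneg i x hx
  rcases n with _ | n
  · rw [norm_iteratedFDeriv_zero]
    exact (h0 i x hx).trans (tb_mono (by omega) hM hw)
  · rw [← norm_iteratedFDeriv_fderiv]
    exact (hC n (by omega) i x hx).trans (tb_mono (by omega) hM hw)

theorem FamN.zero (hD : Dom O M) (hw : ∀ i, ∀ x ∈ O i, 0 ≤ w i x)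
    (hs : ∀ i, ContDiffOn ℝ ∞ (f i) (O i)) {C' : ℕ}
    (h0 : ∀ i, ∀ x ∈ O i, ‖f i x‖ ≤ C' * M i x ^ C' * w i x) : FamN 0 O M w f := by
  refine ⟨hD, hw, hs, C', fun n hn i x hx => ?_⟩
  obtain rfl : n = 0 := by omega
  rw [norm_iteratedFDeriv_zero]
  exact h0 i x hx

/-- a function with a linear differential equation `D f = B (f, g)` and `g` tame of weight one -/
theorem MFam.of_fderiv_eq (B : F →L[ℝ] G →L[ℝ] (E →L[ℝ] F)) (hD : Dom O M)
    (hw : ∀ i, ∀ x ∈ O i, 0 ≤ w i x) (hs : ∀ i, ContDiffOn ℝ ∞ (f i) (O i)) {C' : ℕ}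
    (h0 : ∀ i, ∀ x ∈ O i, ‖f i x‖ ≤ C' * M i x ^ C' * w i x)
    (hg : MFam O M (fun _ _ => 1) g)
    (h : ∀ i, ∀ x ∈ O i, _root_.fderiv ℝ (f i) x = B (f i x) (g i x)) : MFam O M w f := by
  intro N
  induction N with
  | zero => exact FamN.zero hD hw hs h0
  | succ N ih =>
    refine FamN.succ hs h0 ?_
    have h1 := ih.bilin B (hg N)
    simp only [mul_one] at h1
    exact h1.congr fun i x hx => h i x hx

/-! ### constants, linear functions -/

theorem MFam.const (hD : Dom O M) (hw : ∀ i, ∀ x ∈ O i, 0 ≤ w i x) (c : ι → F) (C : ℕ)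
    (h : ∀ i, ∀ x ∈ O i, ‖c i‖ ≤ C * M i x ^ C * w i x) : MFam O M w (fun i _ => c i) := by
  refine MFam.mk hD hw (fun i => contDiffOn_const) fun n => ⟨C, fun i x hx => ?_⟩
  rcases n with _ | n
  · rw [norm_iteratedFDeriv_zero]
    exact h i x hx
  · rw [iteratedFDeriv_const_of_ne (by omega)]
    simp only [Pi.zero_apply, norm_zero]
    exact tb_nonneg (hD.one_le i x hx) (hw i x hx)

/-- a fixed constant, weight one -/
theorem MFam.const_one (hD : Dom O M) (c : F) : MFam O M (fun _ _ => 1) (fun _ _ => c) := by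
  refine MFam.const hD (fun _ _ _ => zero_le_one) (fun _ => c) ⌈‖c‖⌉₊ fun i x hx => ?_
  have hM := hD.one_le i x hx
  have h1 : 1 ≤ M i x ^ ⌈‖c‖⌉₊ := one_le_pow₀ hM
  have h2 := Nat.le_ceil ‖c‖
  have h3 : (0:ℝ) ≤ ⌈‖c‖⌉₊ := by positivity
  nlinarith

theorem MFam.zero (hD : Dom O M) (hw : ∀ i, ∀ x ∈ O i, 0 ≤ w i x) :
    MFam O M w (fun _ _ => (0 : F)) := by
  refine MFam.const hD hw (fun _ => 0) 0 fun i x hx => ?_
  simp

/-- a family of (bounded) continuous linear functions of `x`, plus constants, weight one -/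
theorem MFam.affine (hD : Dom O M) (L : ι → E →L[ℝ] F) (c : ι → F) (C : ℕ)
    (hL : ∀ i, ∀ x ∈ O i, ‖L i‖ ≤ C * M i x ^ C)
    (h0 : ∀ i, ∀ x ∈ O i, ‖L i x + c i‖ ≤ C * M i x ^ C) :
    MFam O M (fun _ _ => 1) (fun i x => L i x + c i) := by
  intro N
  have hs : ∀ i, ContDiffOn ℝ ∞ (fun x => L i x + c i) (O i) :=
    fun i => ((L i).contDiff.add contDiff_const).contDiffOn
  have h0' : ∀ i, ∀ x ∈ O i, ‖L i x + c i‖ ≤ C * M i x ^ C * 1 :=
    fun i x hx => by rw [mul_one]; exact h0 i x hx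
  rcases N with _ | N
  · exact FamN.zero hD (fun _ _ _ => zero_le_one) hs h0'
  · refine FamN.succ hs h0' ?_
    have h2 : MFam O M (fun _ _ => 1) (fun i _ => L i) :=
      MFam.const hD (fun _ _ _ => zero_le_one) L C
        (fun i x hx => by rw [mul_one]; exact hL i x hx)
    refine (h2 N).congr fun i x hx => ?_
    have h3 : HasFDerivAt (fun x => L i x + c i) (L i) x := (L i).hasFDerivAt.add_const (c i)
    exact h3.fderiv

/-! ### inverses -/

theorem MFam.inv {a : ι → E → ℝ} (ha : MFam O M w a) (hw : ∀ i, ∀ x ∈ O i, 0 < w i x) {C' : ℕ}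
    (h : ∀ i, ∀ x ∈ O i, w i x ≤ C' * M i x ^ C' * |a i x|) :
    MFam O M (fun i x => (w i x)⁻¹) (fun i x => (a i x)⁻¹) := by
  have hne : ∀ i, ∀ x ∈ O i, a i x ≠ 0 := by
    intro i x hx h0
    have h1 := h i x hx
    rw [h0, abs_zero, mul_zero] at h1
    exact absurd (hw i x hx) (not_lt.2 h1)
  have hs : ∀ i, ContDiffOn ℝ ∞ (fun x => (a i x)⁻¹) (O i) :=
    fun i => (ha.smooth i).inv (hne i)
  have hw' : ∀ i, ∀ x ∈ O i, 0 ≤ (w i x)⁻¹ := fun i x hx => (inv_pos.2 (hw i x hx)).le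
  have h0 : ∀ i, ∀ x ∈ O i, ‖(a i x)⁻¹‖ ≤ C' * M i x ^ C' * (w i x)⁻¹ := by
    intro i x hx
    have h1 := h i x hx
    have h2 : 0 < |a i x| := abs_pos.2 (hne i x hx)
    rw [norm_inv, Real.norm_eq_abs, ← one_div, div_le_iff₀ h2]
    calc (1:ℝ) = w i x * (w i x)⁻¹ := (mul_inv_cancel₀ (hw i x hx).ne').symm
      _ ≤ (C' * M i x ^ C' * |a i x|) * (w i x)⁻¹ :=
          mul_le_mul_of_nonneg_right h1 (hw' i x hx)
      _ = _ := by ring
  intro N
  induction N with
  | zero => exact FamN.zero ha.dom hw' hs h0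
  | succ N ih =>
    refine FamN.succ hs h0 ?_
    have h1 : FamN N O M (fun i x => (w i x)⁻¹ * (w i x)⁻¹ * w i x)
        (fun i x => ((a i x)⁻¹ * (a i x)⁻¹) • _root_.fderiv ℝ (a i) x) :=
      (ih.mul ih).smul (ha (N + 1)).fderiv
    have h2 : FamN N O M (fun i x => (w i x)⁻¹)
        (fun i x => ((a i x)⁻¹ * (a i x)⁻¹) • _root_.fderiv ℝ (a i) x) := by
      refine h1.weight (C' := 1) hw' fun i x hx => ?_
      have h3 : (w i x)⁻¹ * (w i x)⁻¹ * w i x = (w i x)⁻¹ := by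
        rw [mul_assoc, inv_mul_cancel₀ (hw i x hx).ne', mul_one]
      rw [h3, Nat.cast_one, one_mul, pow_one]
      have := ha.one_le i hx
      nlinarith [hw' i x hx]
    have h3 := h2.clm (-ContinuousLinearMap.id ℝ (E →L[ℝ] ℝ))
    refine h3.congr fun i x hx => ?_
    have h4 : DifferentiableAt ℝ (a i) x := (ha.contDiffAt i hx).differentiableAt (by simp)
    have h5 : HasFDerivAt (fun x => (a i x)⁻¹) _ x :=
      (hasDerivAt_inv (hne i x hx)).comp_hasFDerivAt x h4.hasFDerivAt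
    rw [h5.fderiv]
    ext y
    simp only [ContinuousLinearMap.coe_smul', Pi.smul_apply, smul_eq_mul,
      ContinuousLinearMap.neg_apply, ContinuousLinearMap.coe_id', id_eq]
    rw [sq, mul_inv]
    ring

theorem MFam.div {a b : ι → E → ℝ} (ha : MFam O M w a) (hb : MFam O M v b)
    (hv : ∀ i, ∀ x ∈ O i, 0 < v i x) {C' : ℕ}
    (h : ∀ i, ∀ x ∈ O i, v i x ≤ C' * M i x ^ C' * |b i x|) :
    MFam O M (fun i x => w i x / v i x) (fun i x => a i x / b i x) := by
  simp only [div_eq_mul_inv]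
  exact ha.mul (hb.inv hv h)

end Pool.Agent.BSS
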