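import Pool.Agent.BSS.Cut0
import Pool.Agent.BSS.Sets
import Pool.Agent.BSS.Tame2

/-!
# Cut-offs, part 2: smoothness and derivative bounds (doc H/bff03b, sections 7 and 8)
-/

open Set Filter
open scoped Topology ContDiff

namespace Pool.Agent.BSS

/-! ### the smooth step -/

theorem smoothTransition_bound (n : ℕ) :
    ∃ B : ℕ, ∀ x, ‖iteratedFDeriv ℝ n Real.smoothTransition x‖ ≤ B := by
  cases n with
  | zero =>
    refine ⟨1, fun x => ?_⟩
    rw [norm_iteratedFDeriv_zero, Real.norm_eq_abs, abs_of_nonneg (Real.smoothTransition.nonneg x)]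
    simpa using Real.smoothTransition.le_one x
  | succ n =>
    have hc : Continuous (iteratedFDeriv ℝ (n + 1) Real.smoothTransition) :=
      (Real.smoothTransition.contDiff (n := ⊤)).continuous_iteratedFDeriv
        (by exact_mod_cast le_top)
    obtain ⟨C, hC⟩ := isCompact_Icc.exists_bound_of_continuousOn (s := Icc (0 : ℝ) 1)
      hc.continuousOn
    obtain ⟨B, hB⟩ := exists_nat_ge (max C 0)
    refine ⟨B, fun x => ?_⟩
    by_cases hx : x ∈ Icc (0 : ℝ) 1
    · exact (hC x hx).trans ((le_max_left _ _).trans hB)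
    · have h0 : iteratedFDeriv ℝ (n + 1) Real.smoothTransition x = 0 := by
        rw [mem_Icc, not_and_or, not_le, not_le] at hx
        rcases hx with hx | hx
        · have he : Real.smoothTransition =ᶠ[𝓝 x] fun _ => (0 : ℝ) := by
            filter_upwards [Iio_mem_nhds hx] with y hy
            exact Real.smoothTransition.zero_of_nonpos (le_of_lt hy)
          rw [(he.iteratedFDeriv ℝ (n + 1)).self_of_nhds,
            iteratedFDeriv_const_of_ne (Nat.succ_ne_zero n)]
          rfl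
        · have he : Real.smoothTransition =ᶠ[𝓝 x] fun _ => (1 : ℝ) := by
            filter_upwards [Ioi_mem_nhds hx] with y hy
            exact Real.smoothTransition.one_of_one_le (le_of_lt hy)
          rw [(he.iteratedFDeriv ℝ (n + 1)).self_of_nhds,
            iteratedFDeriv_const_of_ne (Nat.succ_ne_zero n)]
          rfl
      rw [h0, norm_zero]
      positivity

section general

variable {ι κ : Type*} {E F : Type*} [NormedAddCommGroup E] [NormedSpace ℝ E]
  [NormedAddCommGroup F] [NormedSpace ℝ F]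
  {O : ι → Set E} {M w : ι → E → ℝ} {f : ι → E → F}

theorem contDiff_step (l : E →L[ℝ] ℝ) (c : ℝ) {n : ℕ∞} :
    ContDiff ℝ n (fun x : E => Real.smoothTransition (l x + c)) :=
  Real.smoothTransition.contDiff.comp (l.contDiff.add contDiff_const)

theorem norm_iteratedFDeriv_step_le (n : ℕ) {B : ℝ}
    (hB : ∀ x, ‖iteratedFDeriv ℝ n Real.smoothTransition x‖ ≤ B) (l : E →L[ℝ] ℝ) (c : ℝ)
    (x : E) :
    ‖iteratedFDeriv ℝ n (fun x : E => Real.smoothTransition (l x + c)) x‖ ≤ B * ‖l‖ ^ n := by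
  have h1 : (fun x : E => Real.smoothTransition (l x + c)) =
      (fun s : ℝ => Real.smoothTransition (s + c)) ∘ l := rfl
  have h2 : ContDiff ℝ n (fun s : ℝ => Real.smoothTransition (s + c)) :=
    (Real.smoothTransition.contDiff (n := n)).comp (contDiff_id.add contDiff_const)
  rw [h1, l.iteratedFDeriv_comp_right h2 x le_rfl]
  refine (ContinuousMultilinearMap.norm_compContinuousLinearMap_le _ _).trans ?_
  rw [iteratedFDeriv_comp_add_right, Finset.prod_const, Finset.card_univ, Fintype.card_fin]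
  exact mul_le_mul_of_nonneg_right (hB _) (by positivity)

/-- A smooth step of an affine function with coefficients bounded by a power of `M`. -/
theorem MFam_step (hD : Dom O M) (l : ι → E →L[ℝ] ℝ) (c : ι → ℝ) (C0 : ℕ)
    (hl : ∀ i, ∀ x ∈ O i, ‖l i‖ ≤ C0 * M i x ^ C0) :
    MFam O M (fun _ _ => 1) (fun i x => Real.smoothTransition (l i x + c i)) := by
  refine MFam.mk hD (fun _ _ _ => zero_le_one) (fun i => (contDiff_step _ _).contDiffOn)
    fun n => ?_
  obtain ⟨B, hB⟩ := smoothTransition_bound n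
  refine ⟨B * C0 ^ n + C0 * n, fun i x hx => ?_⟩
  refine (norm_iteratedFDeriv_step_le n hB (l i) (c i) x).trans ?_
  have hM := hD.one_le i x hx
  have hM0 : 0 ≤ M i x := by linarith
  calc (B : ℝ) * ‖l i‖ ^ n ≤ B * (C0 * M i x ^ C0) ^ n := by
        gcongr
        exact hl i x hx
    _ = ((B * C0 ^ n : ℕ) : ℝ) * M i x ^ (C0 * n) * 1 := by
        push_cast
        rw [mul_pow, ← pow_mul]
        ring
    _ ≤ _ := tb_le (by exact_mod_cast Nat.le_add_right _ _) (by omega) hM zero_le_one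

/-- Families which near every point coincide with a member of another family. -/
theorem MFam.glue {O' : κ → Set E} {M' w' : κ → E → ℝ} {g : κ → E → F}
    (hg : MFam O' M' w' g) (hD : Dom O M) (hw : ∀ i, ∀ x ∈ O i, 0 ≤ w i x)
    (h : ∀ i, ∀ x ∈ O i, ∃ j, x ∈ O' j ∧ f i =ᶠ[𝓝 x] g j ∧ M' j x ≤ M i x ∧ w' j x ≤ w i x) :
    MFam O M w f := by
  refine MFam.mk hD hw (fun i x hx => ?_) fun n => ?_
  · obtain ⟨j, hj, hS, -, -⟩ := h i x hx
    exact ((hg.contDiffAt j hj).congr_of_eventuallyEq hS).contDiffWithinAt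
  · obtain ⟨C, hC⟩ := hg.bound n
    refine ⟨C, fun i x hx => ?_⟩
    obtain ⟨j, hj, hS, h1, h2⟩ := h i x hx
    rw [(hS.iteratedFDeriv ℝ n).self_of_nhds]
    refine (hC j x hj).trans ?_
    have hM := hg.one_le j hj
    have hM0 : 0 ≤ M' j x := by linarith
    have hw0 := hg.nonneg j hj
    have hM1 := hD.one_le i x hx
    gcongr

theorem MFam.mul_one_one {a b : ι → E → ℝ} (ha : MFam O M (fun _ _ => 1) a)
    (hb : MFam O M (fun _ _ => 1) b) : MFam O M (fun _ _ => 1) (fun i x => a i x * b i x) := by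
  have := ha.mul hb
  simpa using this

/-- Iterated derivatives vanish on the closure of an open set on which the function vanishes. -/
theorem iteratedFDeriv_eq_zero_of_closure {f : E → F} (hf : ContDiff ℝ ∞ f) {U : Set E}
    (hU : IsOpen U) (h0 : ∀ y ∈ U, f y = 0) {x : E} (hx : x ∈ closure U) (n : ℕ) :
    iteratedFDeriv ℝ n f x = 0 := by
  have hc : Continuous (iteratedFDeriv ℝ n f) :=
    hf.continuous_iteratedFDeriv (by exact_mod_cast le_top)
  have hcl : IsClosed {y | iteratedFDeriv ℝ n f y = 0} := isClosed_eq hc continuous_const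
  refine closure_minimal (s := U) (fun y hy => ?_) hcl hx
  have he : f =ᶠ[𝓝 y] fun _ => (0 : F) := by
    filter_upwards [hU.mem_nhds hy] with z hz
    exact h0 z hz
  show iteratedFDeriv ℝ n f y = 0
  rw [(he.iteratedFDeriv ℝ n).self_of_nhds]
  cases n with
  | zero => ext; simp
  | succ n =>
    rw [iteratedFDeriv_const_of_ne (Nat.succ_ne_zero n)]
    rfl

end general

/-! ### pieces of `zeta` -/

private theorem rho_succ_le' (k : ℕ) : rho (k + 1) ≤ rho k := by
  have h : (1 : ℝ) ≤ nn (k + 1) := by exact_mod_cast nn_pos' _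
  have := rho_pos' k
  show rho k / (nn (k + 1) : ℝ) ≤ rho k
  exact div_le_self this.le h

private theorem rho_le_one' (k : ℕ) : rho k ≤ 1 := by
  induction k with
  | zero => simp [rho]
  | succ k ih => exact (rho_succ_le' k).trans ih

theorem one_le_inv_rho (k : ℕ) : 1 ≤ (rho k)⁻¹ :=
  (one_le_inv₀ (rho_pos' k)).2 (rho_le_one' k)

/-- The piece of `zeta_k` around the point `m rho_k`. -/
noncomputable def zpiece (k : ℕ) (m : ℤ) (s : ℝ) : ℝ :=
  Real.smoothTransition (2 * (s - rho k * m) / mu (k + 1) - 2) +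
    Real.smoothTransition (-2 * (s - rho k * m) / mu (k + 1) - 2)

theorem zpiece_eq (k : ℕ) (m : ℤ) (s : ℝ) :
    zpiece k m s = Real.smoothTransition (2 * |s - rho k * m| / mu (k + 1) - 2) := by
  have hmu := mu_pos' (k + 1)
  unfold zpiece
  rcases le_total 0 (s - rho k * m) with h | h
  · rw [abs_of_nonneg h, Real.smoothTransition.zero_of_nonpos
      (x := -2 * (s - rho k * m) / _ - 2), add_zero]
    have : -2 * (s - rho k * m) / mu (k + 1) ≤ 0 :=
      div_nonpos_of_nonpos_of_nonneg (by linarith) hmu.le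
    linarith
  · rw [abs_of_nonpos h, Real.smoothTransition.zero_of_nonpos
      (x := 2 * (s - rho k * m) / _ - 2), zero_add]
    · congr 1
      ring
    · have : 2 * (s - rho k * m) / mu (k + 1) ≤ 0 :=
        div_nonpos_of_nonpos_of_nonneg (by linarith) hmu.le
      linarith

theorem mu_succ_le (k : ℕ) : 4 * mu (k + 1) ≤ rho k / 2 := by
  have := rho_succ_le' k
  unfold mu
  linarith

theorem zeta_eq_zpiece {k : ℕ} {m : ℤ} {s : ℝ} (h : |s - rho k * m| < rho k - 2 * mu (k + 1)) :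
    zeta k s = zpiece k m s := by
  have hp := rho_pos' k
  have hmu := mu_pos' (k + 1)
  rw [zpiece_eq, zeta]
  by_cases hm : round (s / rho k) = m
  · rw [dZ, hm]
  · have h1 : (1 : ℝ) ≤ |(m : ℝ) - round (s / rho k)| := by
      rw [← Int.cast_sub, ← Int.cast_abs]
      have : 1 ≤ |m - round (s / rho k)| := Int.one_le_abs (sub_ne_zero.2 (Ne.symm hm))
      exact_mod_cast this
    have h2 : rho k ≤ dZ (rho k) s + |s - rho k * m| := by
      have h3 : rho k * |(m : ℝ) - round (s / rho k)| =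
          |(s - rho k * round (s / rho k)) - (s - rho k * m)| := by
        rw [← abs_of_pos hp, ← abs_mul, abs_of_pos hp]
        congr 1
        ring
      have h4 := abs_sub (s - rho k * round (s / rho k)) (s - rho k * m)
      have h5 : rho k * 1 ≤ rho k * |(m : ℝ) - round (s / rho k)| :=
        mul_le_mul_of_nonneg_left h1 hp.le
      rw [mul_one, h3] at h5
      exact h5.trans h4
    have h6 : 2 * mu (k + 1) ≤ dZ (rho k) s := by linarith
    have h7 : 2 * mu (k + 1) ≤ |s - rho k * m| := h6.trans (dZ_le hp s m)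
    rw [Real.smoothTransition.one_of_one_le, Real.smoothTransition.one_of_one_le]
    · rw [le_sub_iff_add_le, le_div_iff₀ hmu]
      linarith
    · rw [le_sub_iff_add_le, le_div_iff₀ hmu]
      linarith

theorem exists_zpiece (k : ℕ) (s : ℝ) : ∃ m : ℤ, |s - rho k * m| < rho k - 2 * mu (k + 1) := by
  have hp := rho_pos' k
  have h1 := dZ_le_half hp s
  have h2 := mu_succ_le k
  have h3 := mu_pos' (k + 1)
  exact ⟨round (s / rho k), lt_of_le_of_lt h1 (by linarith)⟩

section cuts

variable {E : Type*} [NormedAddCommGroup E] [NormedSpace ℝ E]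

/-- The base functions of the cut-offs: `M_k = 1 / rho_(k+1)`. -/
noncomputable abbrev Mcut (E : Type*) : ℕ → E → ℝ := fun k _ => (rho (k + 1))⁻¹

omit [NormedSpace ℝ E] in
theorem dom_Mcut : Dom (E := E) (fun _ : ℕ => univ) (Mcut E) :=
  ⟨fun _ => isOpen_univ, fun _ _ _ => one_le_inv_rho _⟩

theorem norm_div_smul_le (l : E →L[ℝ] ℝ) (hl : ‖l‖ ≤ 1) (k : ℕ) {a : ℝ} {C : ℕ}
    (ha : |a| ≤ C * (rho (k + 1))⁻¹) (hC : 1 ≤ C) :
    ‖a • l‖ ≤ (C : ℝ) * ((rho (k + 1))⁻¹) ^ C := by
  have h1 := one_le_inv_rho (k + 1)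
  rw [norm_smul, Real.norm_eq_abs]
  calc |a| * ‖l‖ ≤ (C * (rho (k + 1))⁻¹) * 1 := by gcongr
    _ = C * ((rho (k + 1))⁻¹) ^ 1 := by rw [mul_one, pow_one]
    _ ≤ _ := by gcongr

theorem two_inv_mu_le (k : ℕ) : |2 * (mu (k + 1))⁻¹| ≤ ((16 : ℕ) : ℝ) * (rho (k + 1))⁻¹ := by
  have h := rho_pos' (k + 1)
  rw [abs_of_pos (mul_pos two_pos (inv_pos.2 (mu_pos' _))), mu, inv_div, div_eq_mul_inv]
  push_cast
  linarith

theorem MFam_zpiece (l : E →L[ℝ] ℝ) (hl : ‖l‖ ≤ 1) :
    MFam (E := E) (fun _ : ℕ × ℤ => univ) (fun i _ => (rho (i.1 + 1))⁻¹) (fun _ _ => 1)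
      (fun i x => zpiece i.1 i.2 (l x)) := by
  have hD : Dom (E := E) (fun _ : ℕ × ℤ => univ) (fun i _ => (rho (i.1 + 1))⁻¹) :=
    ⟨fun _ => isOpen_univ, fun _ _ _ => one_le_inv_rho _⟩
  have h1 := MFam_step hD (fun i => (2 * (mu (i.1 + 1))⁻¹) • l)
    (fun i => -(2 * (rho i.1 * i.2)) / mu (i.1 + 1) - 2) 16
    (fun i x _ => norm_div_smul_le l hl i.1 (two_inv_mu_le i.1) (by norm_num))
  have h2 := MFam_step hD (fun i => (-(2 * (mu (i.1 + 1))⁻¹)) • l)
    (fun i => (2 * (rho i.1 * i.2)) / mu (i.1 + 1) - 2) 16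
    (fun i x _ => norm_div_smul_le l hl i.1 (by rw [abs_neg]; exact two_inv_mu_le i.1)
      (by norm_num))
  refine (h1.add h2).congr fun i x _ => ?_
  simp only [zpiece, smul_apply, smul_eq_mul]
  congr 1 <;> congr 1 <;> ring

/-- `zeta_k (l x)`, `l` a linear form of norm at most one. -/
theorem MFam_zeta (l : E →L[ℝ] ℝ) (hl : ‖l‖ ≤ 1) :
    MFam (fun _ => univ) (Mcut E) (fun _ _ => 1) (fun k x => zeta k (l x)) := by
  refine (MFam_zpiece l hl).glue dom_Mcut (fun _ _ _ => zero_le_one) fun k x _ => ?_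
  obtain ⟨m, hm⟩ := exists_zpiece k (l x)
  refine ⟨(k, m), mem_univ _, ?_, le_rfl, le_rfl⟩
  have ho : IsOpen {y : E | |l y - rho k * m| < rho k - 2 * mu (k + 1)} :=
    isOpen_lt (by fun_prop) continuous_const
  filter_upwards [ho.mem_nhds hm] with y hy
  exact zeta_eq_zpiece hy

theorem contDiff_zeta (k : ℕ) : ContDiff ℝ ∞ (zeta k) := by
  have h := (MFam_zeta (ContinuousLinearMap.id ℝ ℝ) ContinuousLinearMap.norm_id_le).smooth k
  exact contDiffOn_univ.1 h

theorem continuous_zeta (k : ℕ) : Continuous (zeta k) := (contDiff_zeta k).continuous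

/-- `beta_k (l x)`. -/
theorem MFam_beta (l : E →L[ℝ] ℝ) (hl : ‖l‖ ≤ 1) :
    MFam (fun _ => univ) (Mcut E) (fun _ _ => 1) (fun k x => beta k (l x)) := by
  have h1 := MFam_step (dom_Mcut (E := E)) (fun k => (4 / dd (k + 1)) • l) (fun _ => -3) 4
    (fun k x _ => norm_div_smul_le l hl k ?_ (by norm_num))
  · refine ((MFam.const_one dom_Mcut (1 : ℝ)).sub h1).congr fun k x _ => ?_
    simp only [beta, smul_apply, smul_eq_mul]
    congr 2
    ring
  · have hd := dd_pos' (k + 1)
    have hr := rho_pos' (k + 1)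
    have hN : (1 : ℝ) ≤ NN (k + 1) := by exact_mod_cast NN_pos' _
    rw [abs_of_pos (by positivity), div_eq_mul_inv]
    have : rho (k + 1) ≤ dd (k + 1) := by
      unfold dd
      nlinarith
    have := inv_anti₀ hr this
    push_cast
    linarith

theorem contDiff_beta (k : ℕ) : ContDiff ℝ ∞ (beta k) := by
  have h := (MFam_beta (ContinuousLinearMap.id ℝ ℝ) ContinuousLinearMap.norm_id_le).smooth k
  exact contDiffOn_univ.1 h

/-- `psi_k (l x)`. -/
theorem MFam_psi (l : E →L[ℝ] ℝ) (hl : ‖l‖ ≤ 1) :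
    MFam (fun _ => univ) (Mcut E) (fun _ _ => 1) (fun k x => psi k (l x)) := by
  have h1 := MFam_step (dom_Mcut (E := E)) (fun k => (4 / del k) • l) (fun _ => 2) 4
    (fun k x _ => norm_div_smul_le l hl k ?_ (by norm_num))
  · refine h1.congr fun k x _ => ?_
    simp only [psi, smul_apply, smul_eq_mul]
    congr 2
    ring
  · have hd := del_pos' k
    rw [abs_of_pos (by positivity), div_eq_mul_inv, del]
    norm_num

theorem contDiff_psi (k : ℕ) : ContDiff ℝ ∞ (psi k) := by
  have h := (MFam_psi (ContinuousLinearMap.id ℝ ℝ) ContinuousLinearMap.norm_id_le).smooth k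
  exact contDiffOn_univ.1 h

/-- `alpha_k (P x)`, `P` linear with both coordinates of norm at most one. -/
theorem MFam_alpha (P : E →L[ℝ] X2)
    (hP : ∀ i, ‖(ContinuousLinearMap.proj i : X2 →L[ℝ] ℝ).comp P‖ ≤ 1) :
    MFam (fun _ => univ) (Mcut E) (fun _ _ => 1) (fun k x => alpha k (P x)) := by
  classical
  set l : Fin 2 → E →L[ℝ] ℝ := fun i => (ContinuousLinearMap.proj i : X2 →L[ℝ] ℝ).comp P with hl
  have hz := (MFam_zeta (l 0) (hP 0)).mul_one_one (MFam_zeta (l 1) (hP 1))
  have hD : Dom (E := E) (fun _ : ℕ × Bool => univ) (fun i _ => (rho (i.1 + 1))⁻¹) :=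
    ⟨fun _ => isOpen_univ, fun _ _ _ => one_le_inv_rho _⟩
  have hg : MFam (E := E) (fun _ : ℕ × Bool => univ) (fun i _ => (rho (i.1 + 1))⁻¹)
      (fun _ _ => 1) (fun i x => (if i.2 then (1 : ℝ) else 0) *
        (zeta i.1 (l 0 x) * zeta i.1 (l 1 x))) := by
    refine MFam.mul_one_one ?_ (hz.reindex (fun i : ℕ × Bool => i.1))
    refine MFam.const hD (fun _ _ _ => zero_le_one) _ 1 fun i x hx => ?_
    have h1 := hD.one_le i x hx
    rcases i with ⟨k, b⟩
    cases b
    · simp only [Bool.false_eq_true, if_false, norm_zero]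
      positivity
    · simp only [if_true, norm_one, pow_one, Nat.cast_one, one_mul, mul_one]
      exact h1
  refine hg.glue dom_Mcut (fun _ _ _ => zero_le_one) fun k x _ => ?_
  have hmu := mu_pos' (k + 1)
  by_cases hx : ∃ i, zeta k (l i x) < 1 ∧ dZ (rho k) (l i x) < mu (k + 1)
  · -- near an edge
    obtain ⟨i, -, hi⟩ := hx
    refine ⟨(k, false), mem_univ _, ?_, le_rfl, le_rfl⟩
    have hp := rho_pos' k
    obtain ⟨m, hm⟩ : ∃ m : ℤ, |l i x - rho k * m| < mu (k + 1) := ⟨_, hi⟩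
    have ho : IsOpen {y : E | |l i y - rho k * m| < mu (k + 1)} :=
      isOpen_lt (by fun_prop) continuous_const
    filter_upwards [ho.mem_nhds hm] with y hy
    have hy' : dZ (rho k) ((P y) i) ≤ mu (k + 1) := (dZ_le hp _ m).trans (le_of_lt hy)
    rw [alpha_eq_zero_iff.2 (Or.inr ⟨i, hy'⟩)]
    simp
  · -- away from the edges
    push Not at hx
    have hpos : ∀ i, 0 < dZ (rho k) ((P x) i) := by
      intro i
      by_contra hcon
      have h0 : dZ (rho k) (l i x) ≤ 0 := not_lt.1 hcon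
      have h1 : zeta k (l i x) = 0 := zeta_eq_zero_iff.2 (h0.trans hmu.le)
      have := hx i (by rw [h1]; exact zero_lt_one)
      linarith
    have he := P.continuous.continuousAt.eventually (EE_eventually k hpos)
    by_cases hmem : P x ∈ EE k
    · refine ⟨(k, true), mem_univ _, ?_, le_rfl, le_rfl⟩
      filter_upwards [he] with y hy
      rw [alpha_of_mem (hy.2 hmem)]
      simp only [if_true, one_mul]
      rfl
    · refine ⟨(k, false), mem_univ _, ?_, le_rfl, le_rfl⟩
      filter_upwards [he] with y hy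
      rw [alpha_of_notMem (fun h => hmem (hy.1 h))]
      simp

end cuts

/-! ### the cut-offs on `X3` -/

/-- `x ↦ x'` as a continuous linear map. -/
noncomputable def prL : X3 →L[ℝ] X2 :=
  ContinuousLinearMap.pi ![ContinuousLinearMap.proj 0, ContinuousLinearMap.proj 1]

theorem prL_apply (x : X3) : prL x = pr x := by
  ext i
  fin_cases i <;> rfl

private theorem continuous_pr : Continuous pr := by
  have h : pr = prL := funext fun x => (prL_apply x).symm
  rw [h]
  exact prL.continuous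

theorem norm_proj_le {ι : Type*} [Fintype ι] (i : ι) :
    ‖(ContinuousLinearMap.proj i : (ι → ℝ) →L[ℝ] ℝ)‖ ≤ 1 := by
  refine ContinuousLinearMap.opNorm_le_bound _ zero_le_one fun x => ?_
  rw [one_mul]
  exact norm_le_pi_norm x i

theorem norm_prL_le (i : Fin 2) :
    ‖(ContinuousLinearMap.proj i : X2 →L[ℝ] ℝ).comp prL‖ ≤ 1 := by
  refine ContinuousLinearMap.opNorm_le_bound _ zero_le_one fun x => ?_
  rw [one_mul, ContinuousLinearMap.comp_apply, prL_apply]
  fin_cases i
  · exact norm_le_pi_norm x 0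
  · exact norm_le_pi_norm x 1

theorem MFam_alpha2 : MFam (fun _ => univ) (Mcut X2) (fun _ _ => 1) alpha :=
  (MFam_alpha (ContinuousLinearMap.id ℝ X2) fun i => by
    rw [ContinuousLinearMap.comp_id]
    exact norm_proj_le i)

theorem MFam_alpha3 :
    MFam (fun _ => univ) (Mcut X3) (fun _ _ => 1) (fun k x => alpha k (pr x)) :=
  (MFam_alpha prL norm_prL_le).congr fun k x _ => by
    show alpha k (pr x) = alpha k (prL x)
    rw [prL_apply]

/-- `x ↦ x i`. -/
noncomputable def clX (i : Fin 3) : X3 →L[ℝ] ℝ := ContinuousLinearMap.proj i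

theorem clX_apply (i : Fin 3) (x : X3) : clX i x = x i := rfl

theorem norm_clX_le (i : Fin 3) : ‖clX i‖ ≤ 1 := norm_proj_le i

theorem MFam_zeta3 (i : Fin 3) :
    MFam (fun _ => univ) (Mcut X3) (fun _ _ => 1) (fun k x => zeta k (x i)) :=
  (MFam_zeta (clX i) (norm_clX_le i)).congr fun k x _ => by
    show zeta k (x i) = zeta k (clX i x)
    rw [clX_apply]

theorem MFam_beta3 :
    MFam (fun _ => univ) (Mcut X3) (fun _ _ => 1) (fun k x => beta k (x 2)) :=
  (MFam_beta (clX 2) (norm_clX_le 2)).congr fun k x _ => by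
    show beta k (x 2) = beta k (clX 2 x)
    rw [clX_apply]

theorem MFam_psi3 :
    MFam (fun _ => univ) (Mcut X3) (fun _ _ => 1) (fun k x => psi k (x 2)) :=
  (MFam_psi (clX 2) (norm_clX_le 2)).congr fun k x _ => by
    show psi k (x 2) = psi k (clX 2 x)
    rw [clX_apply]

theorem MFam_chi : MFam (fun _ => univ) (Mcut X3) (fun _ _ => 1) chi :=
  ((MFam.const_one dom_Mcut (1 : ℝ)).sub (MFam_alpha3.mul_one_one MFam_beta3)).congr
    fun _ _ _ => rfl

theorem Mod_Theta : Mod (univ : Set X3) (fun _ => 1) (fun _ => 1) Theta := by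
  have hD : Dom (fun _ : Unit => (univ : Set X3)) (fun _ _ => 1) :=
    ⟨fun _ => isOpen_univ, fun _ _ _ => le_rfl⟩
  have h1 : ∀ (i : Fin 3) (c : ℝ), MFam (fun _ : Unit => (univ : Set X3)) (fun _ _ => 1)
      (fun _ _ => 1) (fun _ x => Real.smoothTransition (x i + c)) := by
    intro i c
    refine (MFam_step hD (fun _ => clX i) (fun _ => c) 1 fun _ _ _ => ?_).congr fun _ x _ => ?_
    · simpa using norm_clX_le i
    · show Real.smoothTransition (x i + c) = Real.smoothTransition (clX i x + c)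
      rw [clX_apply]
  have h2 : ∀ (i : Fin 3) (c : ℝ), MFam (fun _ : Unit => (univ : Set X3)) (fun _ _ => 1)
      (fun _ _ => 1) (fun _ x => Real.smoothTransition (c - x i)) := by
    intro i c
    refine (MFam_step hD (fun _ => -clX i) (fun _ => c) 1
      fun _ _ _ => ?_).congr fun _ x _ => ?_
    · rw [norm_neg]
      simpa using norm_clX_le i
    · show Real.smoothTransition (c - x i) = Real.smoothTransition (-(clX i x) + c)
      rw [clX_apply]
      congr 1
      ring
  exact ((((h1 0 2).mul_one_one (h2 0 3)).mul_one_one ((h1 1 2).mul_one_one (h2 1 3))).mul_one_one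
    ((h1 2 2).mul_one_one (h2 2 2)))

theorem MFam_Theta : MFam (fun _ => univ) (Mcut X3) (fun _ _ => 1) (fun _ => Theta) :=
  (Mod_Theta.reindex (fun _ : ℕ => ())).changeM_le fun k _ _ => one_le_inv_rho (k + 1)

theorem contDiff_alpha (k : ℕ) : ContDiff ℝ ∞ (alpha k) := contDiffOn_univ.1 (MFam_alpha2.smooth k)

theorem contDiff_alpha_pr (k : ℕ) : ContDiff ℝ ∞ (fun x : X3 => alpha k (pr x)) :=
  contDiffOn_univ.1 (MFam_alpha3.smooth k)

theorem contDiff_chi (k : ℕ) : ContDiff ℝ ∞ (chi k) := contDiffOn_univ.1 (MFam_chi.smooth k)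

theorem contDiff_beta3 (k : ℕ) : ContDiff ℝ ∞ (fun x : X3 => beta k (x 2)) :=
  contDiffOn_univ.1 (MFam_beta3.smooth k)

theorem contDiff_psi3 (k : ℕ) : ContDiff ℝ ∞ (fun x : X3 => psi k (x 2)) :=
  contDiffOn_univ.1 (MFam_psi3.smooth k)

theorem contDiff_Theta : ContDiff ℝ ∞ Theta := contDiffOn_univ.1 (Mod_Theta.smooth ())

theorem Theta_bound (n : ℕ) : ∃ C : ℕ, ∀ x, ‖iteratedFDeriv ℝ n Theta x‖ ≤ C := by
  obtain ⟨C, hC⟩ := Mod_Theta.bound n
  exact ⟨C, fun x => by simpa using hC x (mem_univ x)⟩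

/-! ### open sets on which the cut-offs are constant -/

theorem alpha_eventually_zero {k : ℕ} {y : X2} (h : y ∉ EE k) : ∀ᶠ z in 𝓝 y, alpha k z = 0 := by
  filter_upwards [(isClosed_EE k).isOpen_compl.mem_nhds h] with z hz
  exact alpha_of_notMem hz

theorem alpha_eventually_zero_of_lt {k : ℕ} {y : X2} {i : Fin 2}
    (h : dZ (rho k) (y i) < mu (k + 1)) : ∀ᶠ z in 𝓝 y, alpha k z = 0 := by
  have ho : IsOpen {z : X2 | dZ (rho k) (z i) < mu (k + 1)} :=
    isOpen_lt ((continuous_dZ (rho_pos k)).comp (continuous_apply i)) continuous_const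
  filter_upwards [ho.mem_nhds h] with z hz
  exact alpha_eq_zero_iff.2 (Or.inr ⟨i, le_of_lt hz⟩)

theorem chi_eventually_one_of_notMem {k : ℕ} {x : X3} (h : pr x ∉ EE k) :
    ∀ᶠ z in 𝓝 x, chi k z = 1 := by
  filter_upwards [continuous_pr.continuousAt.eventually (alpha_eventually_zero h)] with z hz
  exact chi_eq_one_iff.2 (Or.inl hz)

theorem chi_eventually_one_of_dZ_lt {k : ℕ} {x : X3} {i : Fin 2}
    (h : dZ (rho k) (pr x i) < mu (k + 1)) : ∀ᶠ z in 𝓝 x, chi k z = 1 := by
  filter_upwards [continuous_pr.continuousAt.eventually (alpha_eventually_zero_of_lt h)] with z hz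
  exact chi_eq_one_iff.2 (Or.inl hz)

theorem chi_eventually_one_of_lt {k : ℕ} {x : X3} (h : dd (k + 1) < x 2) :
    ∀ᶠ z in 𝓝 x, chi k z = 1 := by
  have ho : IsOpen {z : X3 | dd (k + 1) < z 2} := isOpen_lt continuous_const (continuous_apply 2)
  filter_upwards [ho.mem_nhds h] with z hz
  exact chi_eq_one_iff.2 (Or.inr (le_of_lt hz))

theorem chi_eventually_zero {k : ℕ} {x : X3} (h : pr x ∈ EE k)
    (h1 : ∀ i, 3 / 2 * mu (k + 1) < dZ (rho k) (pr x i)) (h2 : x 2 < 3 / 4 * dd (k + 1)) :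
    ∀ᶠ z in 𝓝 x, chi k z = 0 := by
  have hmu := mu_pos' (k + 1)
  have he := continuous_pr.continuousAt.eventually
    (EE_eventually k (y := pr x) fun i => lt_trans (by positivity) (h1 i))
  have ho1 : ∀ i, ∀ᶠ z in 𝓝 x, 3 / 2 * mu (k + 1) < dZ (rho k) (pr z i) := fun i =>
    (isOpen_lt continuous_const ((continuous_dZ (rho_pos k)).comp
      ((continuous_apply i).comp continuous_pr))).mem_nhds (h1 i)
  have ho2 : ∀ᶠ z in 𝓝 x, z 2 < 3 / 4 * dd (k + 1) :=
    (isOpen_lt (continuous_apply 2) continuous_const).mem_nhds h2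
  filter_upwards [he, ho1 0, ho1 1, ho2] with z a b c d
  refine chi_eq_zero_iff.2 ⟨a.2 h, ?_, d.le⟩
  rw [Fin.forall_fin_two]
  exact ⟨b.le, c.le⟩

theorem iteratedFDeriv_chi_eq_zero {k : ℕ} {x : X3} (h : pr x ∈ EE k)
    (h1 : ∀ i, 3 / 2 * mu (k + 1) < dZ (rho k) (pr x i)) (h2 : x 2 < 3 / 4 * dd (k + 1)) (n : ℕ) :
    iteratedFDeriv ℝ n (chi k) x = 0 := by
  have he : chi k =ᶠ[𝓝 x] fun _ => (0 : ℝ) := chi_eventually_zero h h1 h2
  rw [(he.iteratedFDeriv ℝ n).self_of_nhds]
  cases n with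
  | zero => ext; simp
  | succ n =>
    rw [iteratedFDeriv_const_of_ne (Nat.succ_ne_zero n)]
    rfl

theorem psi_eventually_zero {k : ℕ} {x : X3} (h : x 2 < -(del k / 2)) :
    ∀ᶠ z in 𝓝 x, psi k (z 2) = 0 := by
  have ho : IsOpen {z : X3 | z 2 < -(del k / 2)} := isOpen_lt (continuous_apply 2) continuous_const
  filter_upwards [ho.mem_nhds h] with z hz
  exact psi_eq_zero_iff.2 (le_of_lt hz)

theorem psi_eventually_one {k : ℕ} {x : X3} (h : -(del k / 4) < x 2) :
    ∀ᶠ z in 𝓝 x, psi k (z 2) = 1 := by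
  have ho : IsOpen {z : X3 | -(del k / 4) < z 2} := isOpen_lt continuous_const (continuous_apply 2)
  filter_upwards [ho.mem_nhds h] with z hz
  exact psi_eq_one_iff.2 (le_of_lt hz)

/-- All derivatives of `psi_k` vanish for `t ≤ - del_k / 2`. -/
theorem iteratedFDeriv_psi_eq_zero {k : ℕ} {x : X3} (h : x 2 ≤ -(del k / 2)) (n : ℕ) :
    iteratedFDeriv ℝ n (fun x : X3 => psi k (x 2)) x = 0 := by
  refine iteratedFDeriv_eq_zero_of_closure (contDiff_psi3 k) (U := {z : X3 | z 2 < -(del k / 2)})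
    (isOpen_lt (continuous_apply 2) continuous_const)
    (fun y hy => psi_eq_zero_iff.2 (le_of_lt hy)) ?_ n
  rw [mem_closure_iff_seq_limit]
  refine ⟨fun m => x - ((1 : ℝ) / ((m : ℝ) + 1)) • ee 2, fun m => ?_, ?_⟩
  · have : (0 : ℝ) < 1 / ((m : ℝ) + 1) := by positivity
    show x 2 - 1 / ((m : ℝ) + 1) * ee 2 2 < -(del k / 2)
    have e : ee 2 2 = 1 := by simp [ee]
    rw [e, mul_one]
    linarith
  · have h1 : Tendsto (fun m : ℕ => (1 : ℝ) / ((m : ℝ) + 1)) atTop (𝓝 0) :=
      tendsto_one_div_add_atTop_nhds_zero_nat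
    have h2 := (h1.smul_const (ee 2)).const_sub x
    simpa using h2

theorem Theta_eventually_one {x : X3} (h0 : -1 < x 0) (h0' : x 0 < 2) (h1 : -1 < x 1)
    (h1' : x 1 < 2) (h2 : -1 < x 2) (h2' : x 2 < 1) : ∀ᶠ z in 𝓝 x, Theta z = 1 := by
  have a := fun i : Fin 3 => (continuous_apply (A := fun _ : Fin 3 => ℝ) i).continuousAt (x := x)
  filter_upwards [(a 0).eventually (lt_mem_nhds h0), (a 0).eventually (gt_mem_nhds h0'),
    (a 1).eventually (lt_mem_nhds h1), (a 1).eventually (gt_mem_nhds h1'),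
    (a 2).eventually (lt_mem_nhds h2), (a 2).eventually (gt_mem_nhds h2')] with z b0 b0' b1 b1' b2 b2'
  exact Theta_eq_one b0.le b0'.le b1.le b1'.le b2.le b2'.le

end Pool.Agent.BSS
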