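import Pool.Agent.BSS.Tame3

/-!
# Flat extension of tame functions; smooth series
-/

open Set Filter Metric
open scoped ContDiff Topology

namespace Pool.Agent.BSS

universe u

section flat

variable {E F : Type u} [NormedAddCommGroup E] [NormedSpace ℝ E] [ProperSpace E]
  [NormedAddCommGroup F] [NormedSpace ℝ F] {K : Set E} {M w : E → ℝ} {S : E → F}

/-- a tame function off `K` is flat at `K` if all `M ^ C w` tend to zero at `K` -/
theorem Mod.flatAt (hS : Mod Kᶜ M w S)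
    (hflat : ∀ C : ℕ, ∀ x0 ∈ K, ∀ ε > 0, ∃ r > 0, ∀ x ∉ K, dist x x0 < r → M x ^ C * w x ≤ ε) :
    FlatAt K S := by
  refine flatAt_of_eps fun n x0 hx0 ε hε => ?_
  obtain ⟨C, hC⟩ := Mod.bound hS n
  obtain ⟨r, hr, h⟩ := hflat C x0 hx0 (ε / (C + 1)) (by positivity)
  refine ⟨r, hr, fun x hx hd => ?_⟩
  have h1 := h x hx hd
  have h2 : 0 ≤ M x ^ C * w x := by
    have := MFam.one_le hS () (x := x) hx
    have := MFam.nonneg hS () (x := x) hx
    have : 0 ≤ M x := by linarith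
    positivity
  calc ‖iteratedFDeriv ℝ n S x‖ ≤ C * M x ^ C * w x := hC x hx
    _ = C * (M x ^ C * w x) := by ring
    _ ≤ (C + 1) * (M x ^ C * w x) := by nlinarith
    _ ≤ (C + 1) * (ε / (C + 1)) := by
        refine mul_le_mul_of_nonneg_left h1 (by positivity)
    _ = ε := by field_simp

theorem Mod.flatAt_of_infDist (hS : Mod Kᶜ M w S)
    (hflat : ∀ C : ℕ, ∃ C' : ℝ, ∀ x ∉ K, M x ^ C * w x ≤ C' * infDist x K) : FlatAt K S := by
  refine hS.flatAt fun C x0 hx0 ε hε => ?_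
  obtain ⟨C', hC'⟩ := hflat C
  refine ⟨ε / (|C'| + 1), by positivity, fun x hx hd => (hC' x hx).trans ?_⟩
  have h3 : infDist x K ≤ dist x x0 := infDist_le_dist_of_mem hx0
  have h5 : 0 ≤ infDist x K := infDist_nonneg
  calc C' * infDist x K ≤ (|C'| + 1) * infDist x K := by
        refine mul_le_mul_of_nonneg_right ?_ h5
        linarith [le_abs_self C']
    _ ≤ (|C'| + 1) * (ε / (|C'| + 1)) := by
        refine mul_le_mul_of_nonneg_left ?_ (by positivity)
        linarith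
    _ = ε := by field_simp

/-- the extension by zero is smooth -/
theorem Mod.contDiff_extend (hK : IsClosed K) (hS : Mod Kᶜ M w S) (h0 : ∀ x ∈ K, S x = 0)
    (hflat : ∀ C : ℕ, ∃ C' : ℝ, ∀ x ∉ K, M x ^ C * w x ≤ C' * infDist x K) : ContDiff ℝ ∞ S :=
  contDiff_of_flatAt hK h0 (fun _ hx => MFam.contDiffAt hS () hx) (hS.flatAt_of_infDist hflat)

theorem Mod.contDiff_extend' (hK : IsClosed K) (hS : Mod Kᶜ M w S) (h0 : ∀ x ∈ K, S x = 0)
    (hflat : ∀ C : ℕ, ∀ x0 ∈ K, ∀ ε > 0, ∃ r > 0, ∀ x ∉ K, dist x x0 < r →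
      M x ^ C * w x ≤ ε) : ContDiff ℝ ∞ S :=
  contDiff_of_flatAt hK h0 (fun _ hx => MFam.contDiffAt hS () hx) (hS.flatAt hflat)

end flat

section series

variable {E F : Type*} [NormedAddCommGroup E] [NormedSpace ℝ E]
  [NormedAddCommGroup F] [NormedSpace ℝ F] [CompleteSpace F] {ι : Type*} {f : ι → E → F}
  {v : ℕ → ι → ℝ}

/-- smooth series -/
theorem contDiff_series (hf : ∀ k, ContDiff ℝ ∞ (f k)) (hv : ∀ n, Summable (v n))
    (hb : ∀ n k x, ‖iteratedFDeriv ℝ n (f k) x‖ ≤ v n k) :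
    ContDiff ℝ ∞ (fun x => ∑' k, f k x) :=
  contDiff_tsum (N := ⊤) (by simpa using hf) (fun n _ => hv n) (fun n k x _ => hb n k x)

theorem iteratedFDeriv_series (hf : ∀ k, ContDiff ℝ ∞ (f k)) (hv : ∀ n, Summable (v n))
    (hb : ∀ n k x, ‖iteratedFDeriv ℝ n (f k) x‖ ≤ v n k) (n : ℕ) (x : E) :
    iteratedFDeriv ℝ n (fun x => ∑' k, f k x) x = ∑' k, iteratedFDeriv ℝ n (f k) x := by
  have h := iteratedFDeriv_tsum (𝕜 := ℝ) (N := ⊤) (f := f) (v := v) (by simpa using hf)
    (fun n _ => hv n) (fun n k x _ => hb n k x) (k := n) (by exact_mod_cast le_top)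
  rw [h]

theorem summable_series (hv : ∀ n, Summable (v n))
    (hb : ∀ n k x, ‖iteratedFDeriv ℝ n (f k) x‖ ≤ v n k) (n : ℕ) (x : E) :
    Summable (fun k => iteratedFDeriv ℝ n (f k) x) :=
  Summable.of_norm_bounded (hv n) fun k => hb n k x

theorem norm_iteratedFDeriv_series_le (hf : ∀ k, ContDiff ℝ ∞ (f k)) (hv : ∀ n, Summable (v n))
    (hb : ∀ n k x, ‖iteratedFDeriv ℝ n (f k) x‖ ≤ v n k) (n : ℕ) (x : E) :
    ‖iteratedFDeriv ℝ n (fun x => ∑' k, f k x) x‖ ≤ ∑' k, ‖iteratedFDeriv ℝ n (f k) x‖ := by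
  rw [iteratedFDeriv_series hf hv hb n x]
  refine norm_tsum_le_tsum_norm ?_
  exact Summable.of_nonneg_of_le (fun _ => norm_nonneg _) (fun k => hb n k x) (hv n)

theorem norm_iteratedFDeriv_series_le' (hf : ∀ k, ContDiff ℝ ∞ (f k)) (hv : ∀ n, Summable (v n))
    (hb : ∀ n k x, ‖iteratedFDeriv ℝ n (f k) x‖ ≤ v n k) (n : ℕ) (x : E) :
    ‖iteratedFDeriv ℝ n (fun x => ∑' k, f k x) x‖ ≤ ∑' k, v n k := by
  refine (norm_iteratedFDeriv_series_le hf hv hb n x).trans ?_
  exact Summable.tsum_le_tsum (fun k => hb n k x)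
    (Summable.of_nonneg_of_le (fun _ => norm_nonneg _) (fun k => hb n k x) (hv n)) (hv n)

/-- pointwise summability -/
theorem summable_value (hv : ∀ n, Summable (v n))
    (hb : ∀ n k x, ‖iteratedFDeriv ℝ n (f k) x‖ ≤ v n k) (x : E) : Summable (fun k => f k x) :=
  Summable.of_norm_bounded (hv 0) fun k => by
    have := hb 0 k x
    rwa [norm_iteratedFDeriv_zero] at this

/-- a local form: on an open set all but the terms with index in `s` vanish identically, or only
the terms outside `s` have bounds; the series over the complement of a finite set is smooth as well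
-/
theorem contDiff_series_tail [DecidableEq ι] (s : Finset ι) (hf : ∀ k ∉ s, ContDiff ℝ ∞ (f k))
    (hv : ∀ n, Summable (v n)) (hv0 : ∀ n k, 0 ≤ v n k)
    (hb : ∀ n, ∀ k ∉ s, ∀ x, ‖iteratedFDeriv ℝ n (f k) x‖ ≤ v n k) :
    ContDiff ℝ ∞ (fun x => ∑' k, if k ∈ s then 0 else f k x) := by
  refine contDiff_series (f := fun k x => if k ∈ s then 0 else f k x) (fun k => ?_) hv
    fun n k x => ?_
  · by_cases hk : k ∈ s
    · simp only [hk, if_true]; exact contDiff_const
    · simp only [hk, if_false]; exact hf k hk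
  · by_cases hk : k ∈ s
    · simp only [hk, if_true]
      have : iteratedFDeriv ℝ n (fun _ : E => (0 : F)) x = 0 := by simp
      rw [this, norm_zero]; exact hv0 n k
    · simp only [hk, if_false]; exact hb n k hk x

end series

end Pool.Agent.BSS
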