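import Pool.Agent.BSS.Pock
import Pool.Agent.BSS.Defs

/-!
MP_bff03b_an, part A3a (doc H/bff03b, section 7): the centers `Z_k` (lattice points, cardinality,
existence).
-/

set_option autoImplicit false
set_option maxSynthPendingDepth 3

namespace Pool.Agent.BSS

open Set Filter Topology

/-! ### lattice -/

theorem prodn_pos : ∀ k, 0 < prodn k
  | 0 => Nat.one_pos
  | k + 1 => Nat.mul_pos (prodn_pos k) (nn_pos _)

theorem rho_mul_prodn : ∀ k, rho k * (prodn k : ℝ) = 1
  | 0 => by simp [rho, prodn]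
  | k + 1 => by
    have h := rho_mul_prodn k
    have hn : (0 : ℝ) < nn (k + 1) := by exact_mod_cast nn_pos (k + 1)
    simp only [rho, prodn]
    push_cast
    field_simp
    exact h

theorem Lk_pos_nat (k : ℕ) : 0 < Lk k := Nat.mul_pos (by norm_num) (prodn_pos k)

theorem Lk_eq_div (k : ℕ) : (Lk k : ℝ) = 8 / rho k := by
  have h := rho_mul_prodn k
  have := rho_pos k
  unfold Lk
  push_cast
  field_simp
  linarith

theorem lat_eq_mul (k : ℕ) (m : Fin 2 → ℤ) (i : Fin 2) : lat k m i = rho k / 8 * (m i : ℝ) := by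
  have := rho_pos k
  unfold lat
  rw [Lk_eq_div]
  field_simp

/-- a point whose coordinates are multiples of `rho_k / 8` is a lattice point -/
theorem exists_lat_eq (k : ℕ) {b : X2} (hb : ∀ i, ∃ m : ℤ, b i = rho k / 8 * (m : ℝ)) :
    ∃ m : Fin 2 → ℤ, lat k m = b := by
  choose m hm using hb
  refine ⟨m, ?_⟩
  funext i
  rw [lat_eq_mul, hm]

/-- the lattice point of a center lies in `[-1, 2]^2` -/
theorem lat_mem_of_center {k : ℕ} {m : Fin 2 → ℤ} (h : IsCenter k m) (i : Fin 2) :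
    -1 / 100 ≤ lat (k + 1) m i ∧ lat (k + 1) m i ≤ 101 / 100 := by
  obtain ⟨_, y, hy, hyi⟩ := h
  have h1 := abs_le.1 (hyi i)
  have h2 := (mem_EE_zero y).1 (EE_anti (Nat.zero_le k) hy) i
  have h3 := dd_succ_le k
  have h4 := rho_le_one' k
  constructor <;> linarith [h1.1, h1.2, h2.1, h2.2]

/-- the box in the definition of `Z_k` is no restriction -/
theorem mem_Zk_succ {k : ℕ} {m : Fin 2 → ℤ} : m ∈ Zk (k + 1) ↔ IsCenter k m := by
  classical
  simp only [Zk, Finset.mem_filter, Fintype.mem_piFinset, Finset.mem_Icc]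
  refine ⟨fun h => h.2, fun h => ⟨fun i => ?_, h⟩⟩
  have h1 := lat_mem_of_center h i
  have hL : (0 : ℝ) < (Lk (k + 1) : ℝ) := by exact_mod_cast Lk_pos_nat (k + 1)
  unfold lat at h1
  rw [le_div_iff₀ hL, div_le_iff₀ hL] at h1
  constructor
  · have : (-(Lk (k + 1) : ℤ) : ℝ) ≤ (m i : ℝ) := by
      push_cast
      linarith [h1.1]
    exact_mod_cast this
  · have : (m i : ℝ) ≤ ((2 * (Lk (k + 1) : ℤ) : ℤ) : ℝ) := by
      push_cast
      linarith [h1.2]
    exact_mod_cast this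

theorem lat_mem_of_mem_Zk {k : ℕ} {m : Fin 2 → ℤ} (h : m ∈ Zk k) (i : Fin 2) :
    -1 / 100 ≤ lat k m i ∧ lat k m i ≤ 101 / 100 := by
  cases k with
  | zero =>
    simp only [Zk, Finset.mem_singleton] at h
    subst h
    simp only [lat, Pi.zero_apply, Int.cast_zero, zero_div]
    norm_num
  | succ k => exact lat_mem_of_center (mem_Zk_succ.1 h) i

theorem abs_lat_le {k : ℕ} {m : Fin 2 → ℤ} (h : m ∈ Zk k) (i : Fin 2) : |lat k m i| ≤ 2 := by
  have := lat_mem_of_mem_Zk h i
  rw [abs_le]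
  constructor <;> linarith [this.1, this.2]

/-- the number of centers -/
theorem card_Zk_le_div (k : ℕ) : ((Zk k).card : ℝ) ≤ 1000 / rho k ^ 2 := by
  classical
  have hr := rho_pos k
  have hr1 := rho_le_one' k
  cases k with
  | zero =>
    simp only [Zk, Finset.card_singleton, rho_zero]
    norm_num
  | succ k =>
    have h1 : (Zk (k + 1)).card ≤ (3 * Lk (k + 1) + 1) ^ 2 := by
      refine (Finset.card_filter_le _ _).trans ?_
      rw [Fintype.card_piFinset]
      simp only [Int.card_Icc, Finset.prod_const, Finset.card_univ, Fintype.card_fin]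
      refine Nat.pow_le_pow_left ?_ 2
      omega
    have h2 : ((Zk (k + 1)).card : ℝ) ≤ (3 * (Lk (k + 1) : ℝ) + 1) ^ 2 := by exact_mod_cast h1
    refine h2.trans ?_
    rw [Lk_eq_div]
    have h3 : 3 * (8 / rho (k + 1)) + 1 ≤ 25 / rho (k + 1) := by
      rw [show 3 * (8 / rho (k + 1)) + 1 = (24 + rho (k + 1)) / rho (k + 1) by field_simp; ring]
      exact div_le_div_of_nonneg_right (by linarith) hr.le
    calc (3 * (8 / rho (k + 1)) + 1) ^ 2 ≤ (25 / rho (k + 1)) ^ 2 := by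
          refine pow_le_pow_left₀ (by positivity) h3 2
      _ = 625 / rho (k + 1) ^ 2 := by rw [div_pow]; norm_num
      _ ≤ 1000 / rho (k + 1) ^ 2 := by
          exact div_le_div_of_nonneg_right (by norm_num) (by positivity)

/-- rounding a point of `E_k` to `d ℤ^2`, `d = d_{k+1}`, gives a center -/
theorem exists_center_near {k : ℕ} {y : X2} (hy : y ∈ EE k) :
    ∃ m ∈ Zk (k + 1), ∀ i, |lat (k + 1) m i - y i| ≤ dd (k + 1) / 2 := by
  have hd := dd_pos (k + 1)
  have hr := rho_pos (k + 1)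
  have hb : ∀ i, ∃ m : ℤ, dd (k + 1) * (round (y i / dd (k + 1)) : ℝ) = rho (k + 1) / 8 * (m : ℝ) :=
    fun i => ⟨8 * (NN (k + 1) : ℤ) * round (y i / dd (k + 1)), by unfold dd; push_cast; ring⟩
  obtain ⟨m, hm⟩ := exists_lat_eq (k + 1)
    (b := fun i => dd (k + 1) * (round (y i / dd (k + 1)) : ℝ)) hb
  have hnear : ∀ i, |lat (k + 1) m i - y i| ≤ dd (k + 1) / 2 := by
    intro i
    rw [hm]
    have h1 := dZ_le_half hd (y i)
    unfold dZ at h1
    rw [abs_sub_comm]
    exact h1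
  refine ⟨m, mem_Zk_succ.2 ⟨Or.inr fun i => ?_, y, hy, fun i => ?_⟩, hnear⟩
  · rw [hm]
    show dZ (dd (k + 1)) (dd (k + 1) * (round (y i / dd (k + 1)) : ℝ)) ≤ _
    rw [dZ_mul_int hd]
    exact hr.le
  · have := hnear i
    linarith

theorem Zk_nonempty (k : ℕ) : (Zk k).Nonempty := by
  cases k with
  | zero => exact ⟨0, by simp [Zk]⟩
  | succ k =>
    obtain ⟨y, hy⟩ := EE_nonempty k
    obtain ⟨m, hm, _⟩ := exists_center_near hy
    exact ⟨m, hm⟩

/-- the two properties of a center used in the domination and in the distances -/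
theorem center_of_mem {k : ℕ} {m : Fin 2 → ℤ} (h : m ∈ Zk (k + 1)) :
    ((∃ i, dZ (rho k) (lat (k + 1) m i) ≤ rho (k + 1)) ∨
      (∀ i, dZ (dd (k + 1)) (lat (k + 1) m i) ≤ rho (k + 1))) ∧
    ∃ y ∈ EE k, ∀ i, |lat (k + 1) m i - y i| ≤ 2 * dd (k + 1) := mem_Zk_succ.1 h

end Pool.Agent.BSS
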