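import Mathlib

/-!
# MP_bff03b_an (BSS): shared base definitions

Only the spaces, the three quaternion units, the three 2-forms `om_i` and the Dirac operator.
-/

namespace Pool.Agent.BSS

/-- The base `R^3`; coordinates `x 0, x 1` (tangential) and `t = x 2`. -/
abbrev X3 := Fin 3 → ℝ

/-- The fibre: quaternions (with Mathlib's norm and inner product). -/
abbrev H := Quaternion ℝ

/-- The unit `i`. -/
def qi : H := ⟨0, 1, 0, 0⟩
/-- The unit `j`. -/
def qj : H := ⟨0, 0, 1, 0⟩
/-- The unit `k`. -/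
def qk : H := ⟨0, 0, 0, 1⟩

/-- `J_1` = left multiplication by `i`. -/
noncomputable def J1 (b : H) : H := qi * b
/-- `J_2` = left multiplication by `j`. -/
noncomputable def J2 (b : H) : H := qj * b
/-- `J_3` = left multiplication by `k`. -/
noncomputable def J3 (b : H) : H := qk * b

/-- `om_1 (b, c) = <J_1 b, c>`. -/
noncomputable def om1 (b c : H) : ℝ := inner ℝ (J1 b) c
/-- `om_2 (b, c) = <J_2 b, c>`. -/
noncomputable def om2 (b c : H) : ℝ := inner ℝ (J2 b) c
/-- `om_3 (b, c) = <J_3 b, c>`. -/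
noncomputable def om3 (b c : H) : ℝ := inner ℝ (J3 b) c

/-- `e_i`, the standard basis of `R^3`. -/
def ee (i : Fin 3) : X3 := Pi.single i 1

/-- `d_i u`, the partial derivative. -/
noncomputable def pd (u : X3 → H) (i : Fin 3) (x : X3) : H := fderiv ℝ u x (ee i)

/-- The Dirac operator `D u = i d_1 u + j d_2 u + k d_t u`. -/
noncomputable def dirac (u : X3 → H) (x : X3) : H :=
  J1 (pd u 0 x) + J2 (pd u 1 x) + J3 (pd u 2 x)

/-- Inner product of quaternions in coordinates. -/
theorem inner_eq (b c : H) :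
    inner ℝ b c = b.re * c.re + b.imI * c.imI + b.imJ * c.imJ + b.imK * c.imK := by
  rw [Quaternion.inner_def]
  simp [Quaternion.re_mul]

@[simp] theorem qi_re : qi.re = 0 := rfl
@[simp] theorem qi_imI : qi.imI = 1 := rfl
@[simp] theorem qi_imJ : qi.imJ = 0 := rfl
@[simp] theorem qi_imK : qi.imK = 0 := rfl
@[simp] theorem qj_re : qj.re = 0 := rfl
@[simp] theorem qj_imI : qj.imI = 0 := rfl
@[simp] theorem qj_imJ : qj.imJ = 1 := rfl
@[simp] theorem qj_imK : qj.imK = 0 := rfl
@[simp] theorem qk_re : qk.re = 0 := rfl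
@[simp] theorem qk_imI : qk.imI = 0 := rfl
@[simp] theorem qk_imJ : qk.imJ = 0 := rfl
@[simp] theorem qk_imK : qk.imK = 1 := rfl

@[simp] theorem J1_re (b : H) : (J1 b).re = -b.imI := by simp [J1, Quaternion.re_mul]
@[simp] theorem J1_imI (b : H) : (J1 b).imI = b.re := by simp [J1, Quaternion.imI_mul]
@[simp] theorem J1_imJ (b : H) : (J1 b).imJ = -b.imK := by simp [J1, Quaternion.imJ_mul]
@[simp] theorem J1_imK (b : H) : (J1 b).imK = b.imJ := by simp [J1, Quaternion.imK_mul]
@[simp] theorem J2_re (b : H) : (J2 b).re = -b.imJ := by simp [J2, Quaternion.re_mul]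
@[simp] theorem J2_imI (b : H) : (J2 b).imI = b.imK := by simp [J2, Quaternion.imI_mul]
@[simp] theorem J2_imJ (b : H) : (J2 b).imJ = b.re := by simp [J2, Quaternion.imJ_mul]
@[simp] theorem J2_imK (b : H) : (J2 b).imK = -b.imI := by simp [J2, Quaternion.imK_mul]
@[simp] theorem J3_re (b : H) : (J3 b).re = -b.imK := by simp [J3, Quaternion.re_mul]
@[simp] theorem J3_imI (b : H) : (J3 b).imI = -b.imJ := by simp [J3, Quaternion.imI_mul]
@[simp] theorem J3_imJ (b : H) : (J3 b).imJ = b.imI := by simp [J3, Quaternion.imJ_mul]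
@[simp] theorem J3_imK (b : H) : (J3 b).imK = b.re := by simp [J3, Quaternion.imK_mul]

theorem om1_eq (b c : H) :
    om1 b c = -b.imI * c.re + b.re * c.imI - b.imK * c.imJ + b.imJ * c.imK := by
  rw [om1, inner_eq]; simp; ring

theorem om2_eq (b c : H) :
    om2 b c = -b.imJ * c.re + b.imK * c.imI + b.re * c.imJ - b.imI * c.imK := by
  rw [om2, inner_eq]; simp; ring

theorem om3_eq (b c : H) :
    om3 b c = -b.imK * c.re - b.imJ * c.imI + b.imI * c.imJ + b.re * c.imK := by
  rw [om3, inner_eq]; simp; ring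

end Pool.Agent.BSS
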