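import Pool.Agent.BSS.PsiCut
import Pool.Agent.BSS.Par
import Pool.Agent.BSS.Flat2
import Pool.Agent.BSS.Base

/-!
# The fields `S = PsiC • Sraw`: smooth, flat at `E x {0}`, small (doc H/bff03b, section 11)
-/

open Set Filter
open scoped Topology ContDiff

set_option maxSynthPendingDepth 3

namespace Pool.Agent.BSS

/-- The error weight of level `k`. -/
noncomputable def ew (S0 : ℝ) (k : ℕ) : ℝ := Real.exp (-(eta (k + 1) * SS S0 k / 400))

theorem ew_pos (S0 : ℝ) (k : ℕ) : 0 < ew S0 k := Real.exp_pos _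

theorem eta_SS_nonneg {S0 : ℝ} (h : 0 < S0) (k : ℕ) : 0 ≤ eta (k + 1) * SS S0 k := by
  have h1 := Par.eta_pos (k + 1)
  have h2 := SS_pos h k
  positivity

theorem ew_le_one {S0 : ℝ} (h : 0 < S0) (k : ℕ) : ew S0 k ≤ 1 := by
  unfold ew
  rw [Real.exp_le_one_iff]
  have := eta_SS_nonneg h k
  linarith

theorem ew_le {S0 : ℝ} (h : 0 < S0) (k : ℕ) :
    ew S0 k ≤ Real.exp (-(eta (k + 1) * SS S0 k / 1000)) := by
  unfold ew
  rw [Real.exp_le_exp]
  have := eta_SS_nonneg h k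
  linarith

/-- smallness for large `S_0`, all levels -/
theorem exists_small (C : ℕ) {ε : ℝ} (hε : 0 < ε) : ∃ S1 : ℝ, 1 ≤ S1 ∧ ∀ S0 : ℝ, S1 ≤ S0 →
    ∀ k : ℕ, (C : ℝ) * QQ S0 k ^ C * ew S0 k ≤ ε := by
  obtain ⟨S1, h1, h2⟩ := master C (C / ε)
  refine ⟨S1, h1, fun S0 hS k => ?_⟩
  have h3 := h2 S0 hS k
  have h0 : 0 < S0 := by linarith
  have h4 := ew_le h0 k
  have h5 : 0 ≤ QQ S0 k ^ C := by have := QQ_pos h0 k; positivity
  have h6 : (C : ℝ) * QQ S0 k ^ C ≤ ε * Real.exp (eta (k + 1) * SS S0 k / 1000) := by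
    have : (C : ℝ) * QQ S0 k ^ C = ε * (C / ε * QQ S0 k ^ C) := by field_simp
    rw [this]
    gcongr
  calc (C : ℝ) * QQ S0 k ^ C * ew S0 k
      ≤ (C : ℝ) * QQ S0 k ^ C * Real.exp (-(eta (k + 1) * SS S0 k / 1000)) := by gcongr
    _ ≤ ε * Real.exp (eta (k + 1) * SS S0 k / 1000) *
        Real.exp (-(eta (k + 1) * SS S0 k / 1000)) := by gcongr
    _ = ε := by rw [mul_assoc, ← Real.exp_add, add_neg_cancel, Real.exp_zero, mul_one]

/-- smallness for large levels, `S_0` fixed -/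
theorem eventually_small (C : ℕ) {S0 : ℝ} (h0 : 0 < S0) {ε : ℝ} (hε : 0 < ε) :
    ∀ᶠ k : ℕ in atTop, (C : ℝ) * QQ S0 k ^ C * ew S0 k ≤ ε := by
  filter_upwards [master' S0 h0 C (C / ε)] with k h3
  have h4 := ew_le h0 k
  have h5 : 0 ≤ QQ S0 k ^ C := by have := QQ_pos h0 k; positivity
  have h6 : (C : ℝ) * QQ S0 k ^ C ≤ ε * Real.exp (eta (k + 1) * SS S0 k / 1000) := by
    have : (C : ℝ) * QQ S0 k ^ C = ε * (C / ε * QQ S0 k ^ C) := by field_simp
    rw [this]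
    gcongr
  calc (C : ℝ) * QQ S0 k ^ C * ew S0 k
      ≤ (C : ℝ) * QQ S0 k ^ C * Real.exp (-(eta (k + 1) * SS S0 k / 1000)) := by gcongr
    _ ≤ ε * Real.exp (eta (k + 1) * SS S0 k / 1000) *
        Real.exp (-(eta (k + 1) * SS S0 k / 1000)) := by gcongr
    _ = ε := by rw [mul_assoc, ← Real.exp_add, add_neg_cancel, Real.exp_zero, mul_one]

/-- The bounds of `PsiLoc`, to be proved from the cut-off file. -/
def PsiLocBound : Prop := MFam (ι := ℕ) (fun _ => (univ : Set X3)) (fun k _ => (rho (k + 4))⁻¹)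
  (fun _ _ => 1) PsiLoc

section final

variable {ι : Type*} {F : Type} [NormedAddCommGroup F] [NormedSpace ℝ F]

theorem dom_QQ {S0 : ι → ℝ} (hS0 : ∀ i, 1 ≤ S0 i) :
    Dom (ι := ι × ℕ) (fun p => OO p.2) (fun p _ => QQ (S0 p.1) p.2) :=
  ⟨fun p => isOpen_OO p.2, fun p _ _ => one_le_QQ (hS0 p.1) p.2⟩

theorem mfam_PsiLoc' (hP : PsiLocBound) {S0 : ι → ℝ} (hS0 : ∀ i, 1 ≤ S0 i) :
    MFam (ι := ι × ℕ) (fun p => OO p.2) (fun p _ => QQ (S0 p.1) p.2) (fun _ _ => 1)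
      (fun p => PsiLoc p.2) := by
  have h1 := MFam.reindex (fun p : ι × ℕ => p.2) hP
  have h2 := h1.restrict (O' := fun p => OO p.2) (fun p => isOpen_OO p.2)
    (fun p => subset_univ _)
  refine h2.changeM_le fun p x _ => ?_
  have := inv_rho_le_QQ (hS0 p.1) p.2
  rwa [one_div] at this

/-- The family `PsiLoc k • Sraw` on `OO k`. -/
theorem mfam_loc (hP : PsiLocBound) {S0 : ι → ℝ} (hS0 : ∀ i, 1 ≤ S0 i) {Sr : ι → X3 → F}
    (hS : MFam (ι := ι × ℕ) (fun p => OO p.2) (fun p _ => QQ (S0 p.1) p.2)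
      (fun p _ => ew (S0 p.1) p.2) (fun p => Sr p.1)) :
    MFam (ι := ι × ℕ) (fun p => OO p.2) (fun p _ => QQ (S0 p.1) p.2)
      (fun p _ => ew (S0 p.1) p.2) (fun p x => PsiLoc p.2 x • Sr p.1 x) := by
  have h := (mfam_PsiLoc' hP hS0).smul hS
  simpa only [one_mul] using h

/-- Off `E x {0}`: smoothness, and the bounds of all derivatives. -/
theorem S_off (hP : PsiLocBound) {S0 : ι → ℝ} (hS0 : ∀ i, 1 ≤ S0 i) {Sr : ι → X3 → F}
    (hS : MFam (ι := ι × ℕ) (fun p => OO p.2) (fun p _ => QQ (S0 p.1) p.2)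
      (fun p _ => ew (S0 p.1) p.2) (fun p => Sr p.1)) :
    (∀ i, ∀ x ∉ EX, ContDiffAt ℝ ∞ (fun x => PsiC x • Sr i x) x) ∧
    ∀ n : ℕ, ∃ C : ℕ, ∀ i, ∀ x ∉ EX, ‖iteratedFDeriv ℝ n (fun x => PsiC x • Sr i x) x‖ ≤
      C * QQ (S0 i) (kk x) ^ C * ew (S0 i) (kk x) := by
  have hloc := mfam_loc hP hS0 hS
  constructor
  · intro i x hx
    rcases PsiC_cases hx with ⟨h1, h2⟩ | h2
    · refine (hloc.contDiffAt (i, kk x) h1).congr_of_eventuallyEq ?_
      filter_upwards [h2] with z hz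
      rw [hz]
    · refine (contDiffAt_const (c := (0 : F))).congr_of_eventuallyEq ?_
      filter_upwards [h2] with z hz
      rw [hz]
      simp
  · intro n
    obtain ⟨C, hC⟩ := hloc.bound n
    refine ⟨C, fun i x hx => ?_⟩
    have hQ : 0 ≤ QQ (S0 i) (kk x) := (QQ_pos (by have := hS0 i; linarith) _).le
    have hR : 0 ≤ (C : ℝ) * QQ (S0 i) (kk x) ^ C * ew (S0 i) (kk x) := by
      have := ew_pos (S0 i) (kk x)
      positivity
    rcases PsiC_cases hx with ⟨h1, h2⟩ | h2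
    · generalize kk x = k at h1 h2
      have h3 : (fun x => PsiC x • Sr i x) =ᶠ[𝓝 x] fun x => PsiLoc k x • Sr i x := by
        filter_upwards [h2] with z hz
        rw [hz]
      rw [(h3.iteratedFDeriv ℝ n).self_of_nhds]
      exact hC (i, k) x h1
    · have h3 : (fun x => PsiC x • Sr i x) =ᶠ[𝓝 x] fun _ => (0 : F) := by
        filter_upwards [h2] with z hz
        rw [hz]
        simp
      rw [(h3.iteratedFDeriv ℝ n).self_of_nhds]
      refine le_trans (le_of_eq ?_) hR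
      rw [norm_eq_zero]
      simp

/-- **The fields are smooth.** -/
theorem S_smooth (hP : PsiLocBound) {S0 : ι → ℝ} (hS0 : ∀ i, 1 ≤ S0 i) {Sr : ι → X3 → F}
    (h0 : ∀ i, ∀ x ∈ EX, Sr i x = 0)
    (hS : MFam (ι := ι × ℕ) (fun p => OO p.2) (fun p _ => QQ (S0 p.1) p.2)
      (fun p _ => ew (S0 p.1) p.2) (fun p => Sr p.1)) (i : ι) :
    ContDiff ℝ ∞ (fun x => PsiC x • Sr i x) := by
  obtain ⟨h1, h2⟩ := S_off hP hS0 hS
  refine contDiff_of_flatAt isClosed_EX (fun x hx => by rw [h0 i x hx, smul_zero])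
    (fun x hx => h1 i x hx) ?_
  refine flatAt_of_eps fun n x0 hx0 ε hε => ?_
  obtain ⟨C, hC⟩ := h2 n
  obtain ⟨K, hK⟩ := eventually_atTop.1 (eventually_small C (S0 := S0 i)
    (by have := hS0 i; linarith) hε)
  have h3 := eventually_mem_pocket K (y := x0) hx0.1 hx0.2.le
  obtain ⟨r, hr, h4⟩ := Metric.eventually_nhds_iff.1 h3
  refine ⟨r, hr, fun x hx hd => ?_⟩
  have h5 : x ∈ pocket K := h4 hd
  by_cases h : 0 < x 2 ∨ pr x ∉ E2
  · exact (hC i x hx).trans (hK _ ((lt_kk_iff h K).2 h5).le)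
  · push Not at h
    have h6 := PsiC_eq_zero_near_E h.2 (lt_of_le_of_ne h.1 fun h0 => hx ⟨h.2, h0⟩)
    have h3 : (fun x => PsiC x • Sr i x) =ᶠ[𝓝 x] fun _ => (0 : F) := by
      filter_upwards [h6] with z hz
      rw [hz]
      simp
    rw [(h3.iteratedFDeriv ℝ n).self_of_nhds]
    simpa using hε.le

/-- **The fields are small together with their first derivatives.** -/
theorem S_small (hP : PsiLocBound) {S0 : ι → ℝ} (hS0 : ∀ i, 1 ≤ S0 i) {Sr : ι → X3 → F}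
    (h0 : ∀ i, ∀ x ∈ EX, Sr i x = 0)
    (hS : MFam (ι := ι × ℕ) (fun p => OO p.2) (fun p _ => QQ (S0 p.1) p.2)
      (fun p _ => ew (S0 p.1) p.2) (fun p => Sr p.1)) {ε : ℝ} (hε : 0 < ε) (n : ℕ) :
    ∃ S1 : ℝ, ∀ i, S1 ≤ S0 i → ∀ x, ‖iteratedFDeriv ℝ n (fun x => PsiC x • Sr i x) x‖ ≤ ε := by
  obtain ⟨-, h2⟩ := S_off hP hS0 hS
  obtain ⟨C, hC⟩ := h2 n
  obtain ⟨S1, -, hS1⟩ := exists_small C hε
  refine ⟨S1, fun i hi x => ?_⟩
  have hsm := S_smooth hP hS0 h0 hS i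
  -- the complement of `EX` is dense and the derivative is continuous
  have hc : Continuous (iteratedFDeriv ℝ n (fun x => PsiC x • Sr i x)) :=
    hsm.continuous_iteratedFDeriv (by exact_mod_cast le_top)
  by_cases hx : x ∈ EX
  · -- approach `x` along `t > 0`
    have h3 : Tendsto (fun s : ℝ => x + s • ee 2) (𝓝[>] 0) (𝓝 x) := by
      have : Continuous fun s : ℝ => x + s • ee 2 := by fun_prop
      have h4 := this.tendsto 0
      simp only [zero_smul, add_zero] at h4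
      exact h4.mono_left nhdsWithin_le_nhds
    have h5 := (hc.norm.tendsto x).comp h3
    refine le_of_tendsto h5 ?_
    filter_upwards [self_mem_nhdsWithin] with s hs
    have h6 : (x + s • ee 2) ∉ EX := by
      intro h7
      have h8 := h7.2
      rw [Pi.add_apply, hx.2, Pi.smul_apply] at h8
      simp only [ee, Pi.single_eq_same, smul_eq_mul, mul_one, zero_add] at h8
      exact absurd h8 (ne_of_gt hs)
    exact (hC i _ h6).trans (hS1 _ hi _)
  · exact (hC i x hx).trans (hS1 _ hi _)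

/-- the form used for theorem AT -/
theorem S_final (hP : PsiLocBound) {S0 : ι → ℝ} (hS0 : ∀ i, 1 ≤ S0 i) {Sr : ι → X3 → F}
    (h0 : ∀ i, ∀ x ∈ EX, Sr i x = 0)
    (hS : MFam (ι := ι × ℕ) (fun p => OO p.2) (fun p _ => QQ (S0 p.1) p.2)
      (fun p _ => ew (S0 p.1) p.2) (fun p => Sr p.1)) :
    (∀ i, ContDiff ℝ ∞ (fun x => PsiC x • Sr i x)) ∧
    ∀ ε : ℝ, 0 < ε → ∃ S1 : ℝ, ∀ i, S1 ≤ S0 i → ∀ x, ‖PsiC x • Sr i x‖ ≤ ε ∧
      ‖fderiv ℝ (fun x => PsiC x • Sr i x) x‖ ≤ ε := by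
  refine ⟨S_smooth hP hS0 h0 hS, fun ε hε => ?_⟩
  obtain ⟨a, ha⟩ := S_small hP hS0 h0 hS hε 0
  obtain ⟨b, hb⟩ := S_small hP hS0 h0 hS hε 1
  refine ⟨max a b, fun i hi x => ⟨?_, ?_⟩⟩
  · have := ha i ((le_max_left _ _).trans hi) x
    rwa [norm_iteratedFDeriv_zero] at this
  · have := hb i ((le_max_right _ _).trans hi) x
    rwa [norm_iteratedFDeriv_one] at this

end final

end Pool.Agent.BSS
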