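import Pool.Agent.BSS.Defs
import Pool.Agent.BSS.Cent
import Pool.Agent.BSS.SFinal0

/-!
# Elementary facts on `uu`: value outside `Box2`, zeros on `E x {0}`, bounds of `mk`
-/

set_option autoImplicit false
set_option maxSynthPendingDepth 3

open Set Filter Metric
open scoped ContDiff Topology

namespace Pool.Agent.BSS
namespace LM

/-- the modulus of the two relevant scales -/
noncomputable def mm (S0 : ℝ) (k : ℕ) (x : X3) : ℝ := max (mk S0 k x) (mk S0 (k + 1) x)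

/-! ### outside of `Box2` -/

theorem Theta_eq_zero_of_notMem {x : X3} (h : x ∉ Box2) : Theta x = 0 := Theta_eq_zero h

theorem Wk_zero (S0 : ℝ) (q : ℕ → (Fin 2 → ℤ) → H) (x : X3) :
    Wk S0 q 0 x = Real.exp (-S0) • q 0 0 := by
  simp [Wk, Zk, Vk]

theorem uu_out (S0 : ℝ) (q : ℕ → (Fin 2 → ℤ) → H) {x : X3} (h : x ∉ Box2) :
    uu S0 q x = Real.exp (-S0) • q 0 0 := by
  unfold uu
  rw [tsum_eq_single 0]
  · show (1 - Th x * (alp 0 (pr x) * bet 0 (x 2))) • Wk S0 q 0 x = _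
    rw [show Th x = 0 from Theta_eq_zero_of_notMem h, Wk_zero]
    simp
  · intro k hk
    obtain ⟨j, rfl⟩ := Nat.exists_eq_succ_of_ne_zero hk
    show (psk (j + 1) (x 2) * chi (j + 1) x * Th x) • Wk S0 q (j + 1) x = 0
    rw [show Th x = 0 from Theta_eq_zero_of_notMem h]
    simp

/-! ### on `E x {0}` -/

theorem mem_pocket_of_EX {x : X3} (hx : x ∈ EX) (k : ℕ) : x ∈ pocket k := by
  have h := (eventually_mem_pocket k hx.1 hx.2.le).self_of_nhds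
  exact h

theorem uk_of_mem_UU (S0 : ℝ) (q : ℕ → (Fin 2 → ℤ) → H) {k : ℕ} {x : X3} (hx : x ∈ UU k)
    (ht : Theta x = 1) : uk S0 q k x = 0 := by
  have h := chi_eq_zero_of_mem_UU le_rfl hx
  cases k with
  | zero =>
    show (1 - Th x * (alp 0 (pr x) * bet 0 (x 2))) • Wk S0 q 0 x = 0
    have h1 : alpha 0 (pr x) * beta 0 (x 2) = 1 := by
      have : 1 - alpha 0 (pr x) * beta 0 (x 2) = 0 := h
      linarith
    rw [show Th x = 1 from ht, show alp 0 (pr x) * bet 0 (x 2) = 1 from h1]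
    simp
  | succ k =>
    show (psk (k + 1) (x 2) * chi (k + 1) x * Th x) • Wk S0 q (k + 1) x = 0
    rw [h]
    simp

theorem Theta_of_EX {x : X3} (hx : x ∈ EX) : Theta x = 1 := by
  have h0 : pr x ∈ EE 0 := mem_iInter.1 hx.1 0
  have h1 : x 2 = 0 := hx.2
  have a0 : 0 ≤ x 0 ∧ x 0 ≤ 1 := h0 0
  have a1 : 0 ≤ x 1 ∧ x 1 ≤ 1 := h0 1
  exact Theta_eq_one (by linarith) (by linarith) (by linarith) (by linarith)
    (by linarith) (by linarith)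

theorem uu_of_EX (S0 : ℝ) (q : ℕ → (Fin 2 → ℤ) → H) {x : X3} (hx : x ∈ EX) :
    uu S0 q x = 0 := by
  unfold uu
  have : ∀ k, uk S0 q k x = 0 := fun k =>
    uk_of_mem_UU S0 q (pocket_subset_UU k (mem_pocket_of_EX hx k)) (Theta_of_EX hx)
  simp [this]

/-! ### the sets `OO` -/

theorem mem_OO_kk {x : X3} (h : 0 < x 2 ∨ pr x ∉ E2) (ht : 0 ≤ x 2) : x ∈ OO (kk x) := by
  refine ⟨notMem_pocket_kk h, fun j hj => mem_UU_of_lt_kk hj, ?_⟩
  have := rho_pos (kk x + 2)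
  linarith

/-! ### bounds of `mk` -/

theorem mk_pos (S0 : ℝ) {k : ℕ} {x : X3} (hx : -del k < x 2) : 0 < mk S0 k x := by
  obtain ⟨m, hm⟩ := Zk_nonempty k
  have h1 : ‖Vk S0 k m x‖ ≤ mk S0 k x := by
    unfold mk
    exact le_ciSup (f := fun m : Zk k => ‖Vk S0 k m x‖) (Finite.bddAbove_range _) ⟨m, hm⟩
  refine lt_of_lt_of_le ?_ h1
  cases k with
  | zero =>
    show 0 < ‖Real.exp (-S0) • (1 : H)‖
    rw [norm_smul, norm_one, mul_one, Real.norm_of_nonneg (Real.exp_pos _).le]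
    exact Real.exp_pos _
  | succ k =>
    exact norm_wave_pos (w := wp S0 (k + 1) m) (by show 0 < x 2 + del (k + 1); linarith)

theorem mk_le {S0 : ℝ} (hS : 0 ≤ S0) {k : ℕ} {x : X3} (hx : -(del k / 2) ≤ x 2) :
    mk S0 k x ≤ 4 * (rho (k + 1))⁻¹ ^ 2 * Real.exp (-(SS S0 k / 2)) := by
  have hd : 0 < rho (k + 1) := rho_pos _
  have hne : Nonempty (Zk k) := (Zk_nonempty k).to_subtype
  unfold mk
  refine ciSup_le fun m => ?_
  cases k with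
  | zero =>
    show ‖Real.exp (-S0) • (1 : H)‖ ≤ _
    rw [norm_smul, norm_one, mul_one, Real.norm_of_nonneg (Real.exp_pos _).le]
    have h1 : (1:ℝ) ≤ (rho (0 + 1))⁻¹ := (one_le_inv₀ hd).2 (Par.rho_le_one _)
    have h2 : Real.exp (-S0) ≤ Real.exp (-(SS S0 0 / 2)) := by
      rw [Real.exp_le_exp, SS_zero]; linarith
    have h3 : (1:ℝ) ≤ (rho (0 + 1))⁻¹ ^ 2 := one_le_pow₀ h1
    have h4 := Real.exp_pos (-(SS S0 0 / 2))
    nlinarith
  | succ k =>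
    have hx' : -(rho (k + 1 + 1) / 2) ≤ x 2 := hx
    have hz : rho (k + 1 + 1) / 2 ≤ x 2 + rho (k + 1 + 1) := by linarith
    have hz0 : 0 < x 2 + (wp S0 (k + 1) m).del := by
      show 0 < x 2 + rho (k + 1 + 1); linarith
    have hS' : 0 ≤ SS S0 (k + 1) := hS.trans (SS_ge hS _)
    have h1 := norm_wave_le (w := wp S0 (k + 1) m) (rho_pos (k + 1))
      (show 0 ≤ SS S0 (k + 1) / 2 by linarith) hz0
    refine h1.trans ?_
    have hr : (rho (k + 1 + 1) / 2) ^ 2 ≤ (wp S0 (k + 1) m).r2 x := by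
      have h2 : (rho (k + 1 + 1) / 2) ^ 2 ≤ (x 2 + rho (k + 1 + 1)) ^ 2 :=
        pow_le_pow_left₀ (by positivity) hz 2
      have h3 : (wp S0 (k + 1) m).r2 x
          = (x 0 - (wp S0 (k + 1) m).a 0) ^ 2 + (x 1 - (wp S0 (k + 1) m).a 1) ^ 2
            + (x 2 + rho (k + 1 + 1)) ^ 2 := rfl
      rw [h3]
      nlinarith [sq_nonneg (x 0 - (wp S0 (k + 1) m).a 0), sq_nonneg (x 1 - (wp S0 (k + 1) m).a 1)]
    calc Real.exp (-(wp S0 (k + 1) m).P) / (wp S0 (k + 1) m).r2 x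
        ≤ Real.exp (-(wp S0 (k + 1) m).P) / (rho (k + 1 + 1) / 2) ^ 2 := by
          gcongr
      _ = 4 * (rho (k + 1 + 1))⁻¹ ^ 2 * Real.exp (-(SS S0 (k + 1) / 2)) := by
          show Real.exp (-(SS S0 (k + 1) / 2)) / (rho (k + 1 + 1) / 2) ^ 2 = _
          field_simp
          ring

/-- `QQ` controls the inverse scales -/
theorem inv_rho_le_QQ {S0 : ℝ} (hS : 1 ≤ S0) {k j : ℕ} (hj : j ≤ k + 4) :
    (rho j)⁻¹ ≤ QQ S0 k := by
  unfold QQ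
  have h1 : rho (k + 4) ≤ rho j := Par.rho_anti hj
  have h2 := rho_pos (k + 4)
  have h3 : (rho j)⁻¹ ≤ (rho (k + 4))⁻¹ := by gcongr
  have h4 : 1 ≤ SS S0 k := hS.trans (SS_ge (by linarith) k)
  have h5 : 0 < (rho (k + 4))⁻¹ := by positivity
  rw [div_eq_mul_inv]
  nlinarith

theorem mm_nonneg (S0 : ℝ) (k : ℕ) (x : X3) : 0 ≤ mm S0 k x :=
  le_max_of_le_left (Real.iSup_nonneg fun _ => norm_nonneg _)

theorem mm_pos {S0 : ℝ} {k : ℕ} {x : X3} (hx : x ∈ OO k) : 0 < mm S0 k x := by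
  refine lt_max_of_lt_left (mk_pos S0 ?_)
  have h1 : -(rho (k + 2) / 8) < x 2 := hx.2.2
  have h2 : rho (k + 2) ≤ rho (k + 1) := Par.rho_anti (by omega)
  have h3 := rho_pos (k + 2)
  show -rho (k + 1) < x 2
  linarith

theorem mm_le {S0 : ℝ} (hS : 1 ≤ S0) {k : ℕ} {x : X3} (hx : x ∈ OO k) :
    mm S0 k x ≤ 4 * QQ S0 k ^ 2 * Real.exp (-(SS S0 k / 2)) := by
  have h1 : -(rho (k + 2) / 8) < x 2 := hx.2.2
  have h2 : rho (k + 2) ≤ rho (k + 1) := Par.rho_anti (by omega)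
  have h3 := rho_pos (k + 2)
  have hS0 : 0 ≤ S0 := by linarith
  have a1 := mk_le hS0 (k := k) (x := x) (by show -(rho (k + 1) / 2) ≤ x 2; linarith)
  have a2 := mk_le hS0 (k := k + 1) (x := x) (by show -(rho (k + 2) / 2) ≤ x 2; linarith)
  have b1 : (rho (k + 1))⁻¹ ≤ QQ S0 k := inv_rho_le_QQ hS (by omega)
  have b2 : (rho (k + 1 + 1))⁻¹ ≤ QQ S0 k := inv_rho_le_QQ hS (by omega)
  have c1 : 0 < (rho (k + 1))⁻¹ := inv_pos.2 (rho_pos _)
  have c2 : 0 < (rho (k + 1 + 1))⁻¹ := inv_pos.2 (rho_pos _)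
  have hSS : SS S0 k ≤ SS S0 (k + 1) := SS_mono hS0 (Nat.le_succ k)
  refine max_le (a1.trans (by gcongr)) (a2.trans ?_)
  have h5 : Real.exp (-(SS S0 (k + 1) / 2)) ≤ Real.exp (-(SS S0 k / 2)) := by
    rw [Real.exp_le_exp]; linarith
  gcongr

theorem exp_half_le_ew {S0 : ℝ} (hS : 1 ≤ S0) (k : ℕ) :
    Real.exp (-(SS S0 k / 2)) ≤ ew S0 k := by
  unfold ew
  rw [Real.exp_le_exp]
  have h1 := Par.eta_le (k + 1)
  have h2 := Par.eta_pos (k + 1)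
  have h3 : 0 ≤ SS S0 k := by
    have := SS_ge (S0 := S0) (by linarith) k
    linarith
  nlinarith

/-- `m ≤ C M^C e` -/
theorem mm_le_ew {S0 : ℝ} (hS : 1 ≤ S0) {k : ℕ} {x : X3} (hx : x ∈ OO k) :
    mm S0 k x ≤ 4 * QQ S0 k ^ 2 * ew S0 k := by
  have h0 : 0 < QQ S0 k := QQ_pos (by linarith) k
  refine (mm_le hS hx).trans ?_
  have := exp_half_le_ew hS k
  gcongr

/-- input (d) of section 11 -/
theorem mm_sq_le {S0 : ℝ} (hS : 1 ≤ S0) {k : ℕ} {x : X3} (hx : x ∈ OO k) :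
    mm S0 k x * mm S0 k x ≤ ((16 : ℕ) : ℝ) * QQ S0 k ^ 16 * ew S0 k := by
  have h1 := mm_le_ew hS hx
  have h0 := mm_nonneg S0 k x
  have hq : 1 ≤ QQ S0 k := one_le_QQ hS k
  have he := ew_pos S0 k
  have he1 := ew_le_one (S0 := S0) (by linarith) k
  have hq0 : 0 ≤ QQ S0 k := by linarith
  calc mm S0 k x * mm S0 k x ≤ (4 * QQ S0 k ^ 2 * ew S0 k) * (4 * QQ S0 k ^ 2 * ew S0 k) := by
        gcongr
    _ = 16 * QQ S0 k ^ 4 * (ew S0 k * ew S0 k) := by ring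
    _ ≤ 16 * QQ S0 k ^ 16 * (ew S0 k * 1) := by
        have := pow_le_pow_right₀ hq (show 4 ≤ 16 by norm_num)
        gcongr
    _ = _ := by push_cast; ring

/-- smallness of `C M^C m` for large `S_0` -/
theorem exists_small_mm (C : ℕ) {ε : ℝ} (hε : 0 < ε) : ∃ S1 : ℝ, 1 ≤ S1 ∧ ∀ S0 : ℝ, S1 ≤ S0 →
    ∀ k : ℕ, ∀ x ∈ OO k, (C : ℝ) * QQ S0 k ^ C * mm S0 k x ≤ ε := by
  obtain ⟨S1, h1, h2⟩ := exists_small (4 * C + C + 2) hε
  refine ⟨S1, h1, fun S0 hS k x hx => ?_⟩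
  have hS1 : 1 ≤ S0 := h1.trans hS
  have hq : 1 ≤ QQ S0 k := one_le_QQ hS1 k
  have hq0 : 0 ≤ QQ S0 k := by linarith
  have he := ew_pos S0 k
  calc (C : ℝ) * QQ S0 k ^ C * mm S0 k x
      ≤ C * QQ S0 k ^ C * (4 * QQ S0 k ^ 2 * ew S0 k) := by
        gcongr
        exact mm_le_ew hS1 hx
    _ = ((4 * C : ℕ) : ℝ) * QQ S0 k ^ (C + 2) * ew S0 k := by push_cast; ring
    _ ≤ ((4 * C + C + 2 : ℕ) : ℝ) * QQ S0 k ^ (4 * C + C + 2) * ew S0 k := by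
        have h3 : ((4 * C : ℕ) : ℝ) ≤ ((4 * C + C + 2 : ℕ) : ℝ) := by
          exact_mod_cast (by omega : 4 * C ≤ 4 * C + C + 2)
        have h4 := pow_le_pow_right₀ hq (show C + 2 ≤ 4 * C + C + 2 by omega)
        gcongr
    _ ≤ ε := h2 S0 hS k

end LM
end Pool.Agent.BSS
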