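import Pool.Agent.BSS.Defs
import Pool.Agent.BSS.Cut
import Pool.Agent.BSS.Flat2
import Pool.Agent.BSS.LMod1

/-!
# The function `uu` is smooth and small, flat on `E x {0}`

Input: bounds of all derivatives of the terms.
-/

set_option autoImplicit false

open Set Filter Topology
open scoped ContDiff

set_option maxSynthPendingDepth 3

namespace Pool.Agent.BSS

/-- The bounds of the terms `uk (k + 1)`. -/
def TermBound : Prop :=
  ∀ n : ℕ, ∃ C : ℕ, ∀ (S0 : ℝ) (q : ℕ → (Fin 2 → ℤ) → H), 1 ≤ S0 → (∀ k m, ‖q k m‖ ≤ 2) →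
    ∀ k x, ‖iteratedFDeriv ℝ n (uk S0 q (k + 1)) x‖ ≤
      C * QQ S0 (k + 1) ^ C * Real.exp (-(SS S0 (k + 1) / 2))

/-- Smoothness of the terms `uk (k + 1)`. -/
def TermSmooth : Prop :=
  ∀ (S0 : ℝ) (q : ℕ → (Fin 2 → ℤ) → H), 1 ≤ S0 → ∀ k, ContDiff ℝ ∞ (uk S0 q (k + 1))

namespace Glob

/-- the first cut-off -/
noncomputable def cut0 (x : X3) : ℝ := 1 - Theta x * (alpha 0 (pr x) * beta 0 (x 2))

theorem mod_cut0 : ∀ n : ℕ, ∃ C : ℕ, ∀ x, ‖iteratedFDeriv ℝ n cut0 x‖ ≤ C := by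
  have h : MFam (fun _ : ℕ => (univ : Set X3)) (Mcut X3) (fun _ _ => 1) (fun k x =>
      (1 : ℝ) - Theta x * (alpha k (pr x) * beta k (x 2))) :=
    (MFam.const_one dom_Mcut (1 : ℝ)).sub (MFam_Theta.mul_one_one
      (MFam_alpha3.mul_one_one MFam_beta3))
  intro n
  obtain ⟨C, hC⟩ := h.bound n
  obtain ⟨C', hC'⟩ := exists_nat_ge (C * (rho 1)⁻¹ ^ C * 1 : ℝ)
  exact ⟨C', fun x => (hC 0 x (mem_univ x)).trans hC'⟩

theorem contDiff_cut0 : ContDiff ℝ ∞ cut0 := by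
  refine contDiff_const.sub (contDiff_Theta.mul ?_)
  exact (contDiff_alpha_pr 0).mul (contDiff_beta3 0)

theorem uk_zero_eq (S0 : ℝ) (q : ℕ → (Fin 2 → ℤ) → H) :
    uk S0 q 0 = fun x => cut0 x • (Real.exp (-S0) • q 0 0) := by
  funext x
  show (1 - Th x * (alp 0 (pr x) * bet 0 (x 2))) • Wk S0 q 0 x = _
  congr 1
  simp [Wk, Zk, Vk]

theorem contDiff_uk_zero (S0 : ℝ) (q : ℕ → (Fin 2 → ℤ) → H) : ContDiff ℝ ∞ (uk S0 q 0) := by
  rw [uk_zero_eq]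
  exact contDiff_cut0.smul contDiff_const

theorem bound_uk_zero (n : ℕ) : ∃ C : ℕ, ∀ (S0 : ℝ) (q : ℕ → (Fin 2 → ℤ) → H),
    (∀ k m, ‖q k m‖ ≤ 2) → ∀ x, ‖iteratedFDeriv ℝ n (uk S0 q 0) x‖ ≤ C * Real.exp (-S0) := by
  obtain ⟨C, hC⟩ := mod_cut0 n
  refine ⟨2 * C, fun S0 q hq x => ?_⟩
  rw [uk_zero_eq]
  have h1 : (fun x => cut0 x • (Real.exp (-S0) • q 0 0)) =
      (ContinuousLinearMap.toSpanSingleton ℝ (Real.exp (-S0) • q 0 0)) ∘ cut0 := by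
    funext y
    simp
  rw [h1]
  refine (ContinuousLinearMap.norm_iteratedFDeriv_comp_left _ contDiff_cut0.contDiffAt
    (by exact_mod_cast le_top)).trans ?_
  have h2 : ‖ContinuousLinearMap.toSpanSingleton ℝ (Real.exp (-S0) • q 0 0)‖ ≤
      2 * Real.exp (-S0) := by
    rw [ContinuousLinearMap.norm_toSpanSingleton, norm_smul, Real.norm_of_nonneg (Real.exp_pos _).le,
      mul_comm]
    exact mul_le_mul_of_nonneg_right (hq 0 0) (Real.exp_pos _).le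
  calc _ ≤ (2 * Real.exp (-S0)) * C :=
        mul_le_mul h2 (hC x) (norm_nonneg _) (by positivity)
    _ = _ := by push_cast; ring

/-- the majorants -/
noncomputable def vv (C0 C1 : ℕ → ℕ) (S0 : ℝ) (n : ℕ) : ℕ → ℝ
  | 0 => C0 n * Real.exp (-S0)
  | k + 1 => C1 n * QQ S0 (k + 1) ^ C1 n * Real.exp (-(SS S0 (k + 1) / 2))

theorem exp_half_le {S0 : ℝ} (h : 0 < S0) (k : ℕ) : Real.exp (-(SS S0 k / 2)) ≤
    Real.exp (-(eta (k + 1) * SS S0 k / 1000)) := by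
  apply Real.exp_le_exp.2
  have h1 := SS_pos h k
  have h2 := Par.eta_le (k + 1)
  have h3 := Par.eta_pos (k + 1)
  nlinarith

theorem summable_vv (C0 C1 : ℕ → ℕ) {S0 : ℝ} (h : 1 ≤ S0) (n : ℕ) : Summable (vv C0 C1 S0 n) := by
  rw [← summable_nat_add_iff 1]
  have h0 : 0 < S0 := by linarith
  have hm := master' S0 h0 (C1 n + 1) (C1 n : ℝ)
  have hs : Summable fun k : ℕ => (1 : ℝ) / 2 ^ (k + 1) := by
    have := (summable_nat_add_iff 1).2 summable_geometric_two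
    simpa [one_div, inv_pow] using this
  refine Summable.of_norm_bounded_eventually_nat hs ?_
  have hm1 := (tendsto_add_atTop_nat 1).eventually hm
  filter_upwards [hm1] with k hk
  have hQ := QQ_pos h0 (k + 1)
  show ‖(C1 n : ℝ) * QQ S0 (k + 1) ^ C1 n * Real.exp (-(SS S0 (k + 1) / 2))‖ ≤ _
  rw [Real.norm_of_nonneg (by positivity)]
  have h4 := two_pow_le_QQ h (k + 1)
  have h4' : (2 : ℝ) ^ (k + 1) ≤ QQ S0 (k + 1) :=
    (pow_le_pow_right₀ (by norm_num) (by omega)).trans h4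
  rw [le_div_iff₀ (by positivity)]
  calc (C1 n : ℝ) * QQ S0 (k + 1) ^ C1 n * Real.exp (-(SS S0 (k + 1) / 2)) * 2 ^ (k + 1)
      ≤ (C1 n : ℝ) * QQ S0 (k + 1) ^ C1 n *
          Real.exp (-(eta (k + 1 + 1) * SS S0 (k + 1) / 1000)) * QQ S0 (k + 1) := by
        have := exp_half_le h0 (k + 1)
        gcongr
    _ = ((C1 n : ℝ) * QQ S0 (k + 1) ^ (C1 n + 1)) *
          Real.exp (-(eta (k + 1 + 1) * SS S0 (k + 1) / 1000)) := by ring
    _ ≤ Real.exp (eta (k + 1 + 1) * SS S0 (k + 1) / 1000) *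
          Real.exp (-(eta (k + 1 + 1) * SS S0 (k + 1) / 1000)) :=
        mul_le_mul_of_nonneg_right hk (Real.exp_pos _).le
    _ = 1 := by rw [← Real.exp_add]; simp

theorem tsum_vv_le (C0 C1 : ℕ → ℕ) (n : ℕ) (ε : ℝ) (hε : 0 < ε) : ∃ S1 : ℝ, 1 ≤ S1 ∧
    ∀ S0 : ℝ, S1 ≤ S0 → ∑' k, vv C0 C1 S0 n k ≤ ε := by
  obtain ⟨S1, h1, h2⟩ := master_eps (C1 n) (ε / 2 / (C1 n + 1)) (by positivity)
  have ht : Tendsto (fun S : ℝ => (C0 n : ℝ) * Real.exp (-S)) atTop (𝓝 0) := by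
    have := (Real.tendsto_exp_neg_atTop_nhds_zero).const_mul (C0 n : ℝ)
    simpa using this
  obtain ⟨S2, h3⟩ := (ht.eventually (ge_mem_nhds (show (0 : ℝ) < ε / 2 by positivity))).exists_forall_of_atTop
  refine ⟨max S1 S2, h1.trans (le_max_left _ _), fun S0 hS => ?_⟩
  have hS1 : S1 ≤ S0 := (le_max_left _ _).trans hS
  have hS2 : S2 ≤ S0 := (le_max_right _ _).trans hS
  have h0 : 0 < S0 := by linarith
  have hS01 : 1 ≤ S0 := h1.trans hS1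
  rw [(summable_vv C0 C1 hS01 n).tsum_eq_zero_add]
  have h5 : vv C0 C1 S0 n 0 ≤ ε / 2 := h3 S0 hS2
  have hs : Summable fun k : ℕ => ε / 2 * ((1 : ℝ) / 2 ^ (k + 1)) := by
    have := (summable_nat_add_iff 1).2 summable_geometric_two
    exact Summable.mul_left _ (by simpa [one_div, inv_pow] using this)
  have hle : ∀ k, vv C0 C1 S0 n (k + 1) ≤ ε / 2 * ((1 : ℝ) / 2 ^ (k + 1)) := by
    intro k
    have h6 := h2 S0 hS1 (k + 1)
    have hQ := QQ_pos h0 (k + 1)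
    calc (C1 n : ℝ) * QQ S0 (k + 1) ^ C1 n * Real.exp (-(SS S0 (k + 1) / 2))
        ≤ (C1 n : ℝ) * QQ S0 (k + 1) ^ C1 n *
          Real.exp (-(eta (k + 1 + 1) * SS S0 (k + 1) / 1000)) := by
          have := exp_half_le h0 (k + 1)
          gcongr
      _ = (C1 n : ℝ) * (QQ S0 (k + 1) ^ C1 n *
          Real.exp (-(eta (k + 1 + 1) * SS S0 (k + 1) / 1000))) := by ring
      _ ≤ (C1 n : ℝ) * (ε / 2 / (C1 n + 1) / 2 ^ (k + 1 + 1)) :=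
          mul_le_mul_of_nonneg_left h6 (Nat.cast_nonneg _)
      _ ≤ ε / 2 * ((1 : ℝ) / 2 ^ (k + 1)) := by
          have h7 : (C1 n : ℝ) * (ε / 2 / (C1 n + 1) / 2 ^ (k + 1 + 1)) =
              (C1 n : ℝ) / (C1 n + 1) * (ε / 2 * (1 / 2 ^ (k + 1 + 1))) := by ring
          rw [h7]
          have h8 : (C1 n : ℝ) / (C1 n + 1) ≤ 1 := by
            rw [div_le_one (by positivity)]
            linarith
          have h9 : (1 : ℝ) / 2 ^ (k + 1 + 1) ≤ 1 / 2 ^ (k + 1) :=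
            one_div_le_one_div_of_le (by positivity) (pow_le_pow_right₀ (by norm_num) (by omega))
          calc (C1 n : ℝ) / (C1 n + 1) * (ε / 2 * (1 / 2 ^ (k + 1 + 1)))
              ≤ 1 * (ε / 2 * (1 / 2 ^ (k + 1))) := by gcongr
            _ = _ := one_mul _
  have hsv := (summable_nat_add_iff 1).2 (summable_vv C0 C1 hS01 n)
  have h10 : ∑' k, vv C0 C1 S0 n (k + 1) ≤ ∑' k : ℕ, ε / 2 * ((1 : ℝ) / 2 ^ (k + 1)) :=
    Summable.tsum_le_tsum hle hsv hs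
  have h11 : ∑' k : ℕ, ε / 2 * ((1 : ℝ) / 2 ^ (k + 1)) = ε / 2 := by
    rw [tsum_mul_left]
    have h12 : ∑' k : ℕ, ((1 : ℝ) / 2 ^ (k + 1)) = 1 := by
      refine (tsum_congr fun k => ?_).trans (tsum_geometric_two' (1 : ℝ))
      rw [pow_succ]
      field_simp
    rw [h12, mul_one]
  linarith

theorem term_le (hT : TermBound) : ∃ C0 C1 : ℕ → ℕ, ∀ (S0 : ℝ) (q : ℕ → (Fin 2 → ℤ) → H),
    1 ≤ S0 → (∀ k m, ‖q k m‖ ≤ 2) → ∀ n k x,
      ‖iteratedFDeriv ℝ n (uk S0 q k) x‖ ≤ vv C0 C1 S0 n k := by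
  choose C0 hC0 using bound_uk_zero
  choose C1 hC1 using hT
  refine ⟨C0, C1, fun S0 q hS hq n k x => ?_⟩
  cases k with
  | zero => exact hC0 n S0 q hq x
  | succ k => exact hC1 n S0 q hS hq k x

end Glob

open Glob

theorem contDiff_uk_all (hs : TermSmooth) {S0 : ℝ} (hS : 1 ≤ S0) (q : ℕ → (Fin 2 → ℤ) → H)
    (k : ℕ) : ContDiff ℝ ∞ (uk S0 q k) := by
  cases k with
  | zero => exact contDiff_uk_zero S0 q
  | succ k => exact hs S0 q hS k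

theorem contDiff_uu_of (hT : TermBound) (hs : TermSmooth) {S0 : ℝ} (hS : 1 ≤ S0)
    {q : ℕ → (Fin 2 → ℤ) → H} (hq : ∀ k m, ‖q k m‖ ≤ 2) : ContDiff ℝ ∞ (uu S0 q) := by
  obtain ⟨C0, C1, h⟩ := term_le hT
  exact contDiff_series (contDiff_uk_all hs hS q) (summable_vv C0 C1 hS) (h S0 q hS hq)

theorem small_iteratedFDeriv_uu_of (hT : TermBound) (hs : TermSmooth) (n : ℕ) (ε : ℝ)
    (hε : 0 < ε) : ∃ S1 : ℝ, 1 ≤ S1 ∧ ∀ S0 : ℝ, S1 ≤ S0 → ∀ q : ℕ → (Fin 2 → ℤ) → H,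
      (∀ k m, ‖q k m‖ ≤ 2) → ∀ x, ‖iteratedFDeriv ℝ n (uu S0 q) x‖ ≤ ε := by
  obtain ⟨C0, C1, h⟩ := term_le hT
  obtain ⟨S1, h1, h2⟩ := tsum_vv_le C0 C1 n ε hε
  refine ⟨S1, h1, fun S0 hS q hq x => ?_⟩
  have hS1 : 1 ≤ S0 := h1.trans hS
  exact (norm_iteratedFDeriv_series_le' (contDiff_uk_all hs hS1 q) (summable_vv C0 C1 hS1)
    (h S0 q hS1 hq) n x).trans (h2 S0 hS)

theorem small_uu_of (hT : TermBound) (hs : TermSmooth) (ε : ℝ) (hε : 0 < ε) :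
    ∃ S1 : ℝ, 1 ≤ S1 ∧ ∀ S0 : ℝ, S1 ≤ S0 → ∀ q : ℕ → (Fin 2 → ℤ) → H,
      (∀ k m, ‖q k m‖ ≤ 2) → ∀ x, ‖uu S0 q x‖ ≤ ε ∧ ‖fderiv ℝ (uu S0 q) x‖ ≤ ε := by
  obtain ⟨S1, h1, h2⟩ := small_iteratedFDeriv_uu_of hT hs 0 ε hε
  obtain ⟨S2, h3, h4⟩ := small_iteratedFDeriv_uu_of hT hs 1 ε hε
  refine ⟨max S1 S2, h1.trans (le_max_left _ _), fun S0 hS q hq x => ⟨?_, ?_⟩⟩
  · have := h2 S0 ((le_max_left _ _).trans hS) q hq x
    rwa [norm_iteratedFDeriv_zero] at this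
  · have := h4 S0 ((le_max_right _ _).trans hS) q hq x
    rwa [norm_iteratedFDeriv_one] at this

/-- Near the points of `E x {0}` every term vanishes. -/
theorem uk_eventually_zero_of_EX (S0 : ℝ) (q : ℕ → (Fin 2 → ℤ) → H) (k : ℕ) {x : X3}
    (hx : x ∈ EX) : uk S0 q k =ᶠ[𝓝 x] fun _ => 0 := by
  have h0 : pr x ∈ EE 0 := mem_iInter.1 hx.1 0
  have h1 : x 2 = 0 := hx.2
  have a0 : 0 ≤ x 0 ∧ x 0 ≤ 1 := h0 0
  have a1 : 0 ≤ x 1 ∧ x 1 ≤ 1 := h0 1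
  have hTh : ∀ᶠ y in 𝓝 x, Theta y = 1 :=
    Theta_eventually_one (by linarith) (by linarith) (by linarith) (by linarith)
      (by linarith) (by linarith)
  filter_upwards [(isOpen_UU k).mem_nhds (pocket_subset_UU k (LM.mem_pocket_of_EX hx k)), hTh]
    with y hy hy' using LM.uk_of_mem_UU S0 q hy hy'

theorem flat_uu_of (hT : TermBound) (hs : TermSmooth) {S0 : ℝ} (hS : 1 ≤ S0)
    {q : ℕ → (Fin 2 → ℤ) → H} (hq : ∀ k m, ‖q k m‖ ≤ 2) {x : X3} (hx : x ∈ EX) (n : ℕ) :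
    iteratedFDeriv ℝ n (uu S0 q) x = 0 := by
  obtain ⟨C0, C1, h⟩ := term_le hT
  have e := iteratedFDeriv_series (contDiff_uk_all hs hS q) (summable_vv C0 C1 hS)
    (h S0 q hS hq) n x
  have h0 : ∀ k, iteratedFDeriv ℝ n (uk S0 q k) x = 0 := by
    intro k
    have h2 : uk S0 q k =ᶠ[𝓝 x] fun _ => (0 : H) := uk_eventually_zero_of_EX S0 q k hx
    have h3 := (Filter.EventuallyEq.iteratedFDeriv ℝ h2 n).self_of_nhds
    rw [h3, iteratedFDeriv_fun_zero]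
    rfl
  have e2 : iteratedFDeriv ℝ n (uu S0 q) x = ∑' k, iteratedFDeriv ℝ n (uk S0 q k) x := e
  rw [e2]
  simp [h0]

theorem fderiv_uu_of_EX (hT : TermBound) (hs : TermSmooth) {S0 : ℝ} (hS : 1 ≤ S0)
    {q : ℕ → (Fin 2 → ℤ) → H} (hq : ∀ k m, ‖q k m‖ ≤ 2) {x : X3} (hx : x ∈ EX) :
    fderiv ℝ (uu S0 q) x = 0 := by
  have h1 := flat_uu_of hT hs hS hq hx 1
  rw [← norm_eq_zero, ← norm_iteratedFDeriv_one, h1, norm_zero]

end Pool.Agent.BSS
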