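import Pool.Agent.BSS.SMod1
import Pool.Agent.BSS.SRaw

/-!
# Tame bounds for the fields of `SRaw.lean`
-/

open Set Filter Metric
open scoped ContDiff Topology

namespace Pool.Agent.BSS

theorem bfld_eq (u : X3 → H) (x : X3) : bfld u x = bF u x := by
  simp only [bfld, bF, bq, bnum, dirac, smul_neg, add_assoc]

theorem sraw_eq (τ u : H) : sraw τ u = symOp u τ := by
  ext1 y
  rw [symOp_apply, sraw]
  simp only [FunLike.coe_sub, Pi.sub_apply, FunLike.coe_smul, Pi.smul_apply, FunLike.coe_add,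
    Pi.add_apply, ContinuousLinearMap.smulRight_apply, innerSL_apply_apply]
  congr 2
  ring

variable {ι : Type*} {O : ι → Set X3} {M w e : ι → X3 → ℝ} {u : ι → X3 → H}

theorem mfam_bF (hu : MFam O M w u)
    (hD : MFam O M (fun i x => e i x * w i x) (fun i x => dirac (u i) x))
    (he1 : ∀ i, ∀ x ∈ O i, e i x ≤ 1) (he0 : ∀ i, ∀ x ∈ O i, 0 ≤ e i x) {C : ℕ}
    (hm : ∀ i, ∀ x ∈ O i, w i x * w i x ≤ C * M i x ^ C * e i x)
    (hA : ∀ i, ∀ x ∈ O i, ‖pd (u i) 0 x‖ ≤ 1 / 10 ∧ ‖pd (u i) 1 x‖ ≤ 1 / 10) :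
    MFam O M (fun i x => e i x * w i x) (fun i x => bF (u i) x) := by
  refine (mfam_bfld hu hD he1 he0 hm fun i x hx => ?_).congr fun i x hx => (bfld_eq _ _).symm
  have h := om3_le_of (hA i x hx).1 (hA i x hx).2
  have := abs_le.1 h
  linarith

theorem mfam_Sraw1 (hu : MFam O M w u)
    (hD : MFam O M (fun i x => e i x * w i x) (fun i x => dirac (u i) x))
    (he1 : ∀ i, ∀ x ∈ O i, e i x ≤ 1) (he0 : ∀ i, ∀ x ∈ O i, 0 ≤ e i x) {C C' : ℕ}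
    (hm : ∀ i, ∀ x ∈ O i, w i x * w i x ≤ C * M i x ^ C * e i x)
    (hA : ∀ i, ∀ x ∈ O i, ‖pd (u i) 0 x‖ ≤ 1 / 10 ∧ ‖pd (u i) 1 x‖ ≤ 1 / 10)
    (hw : ∀ i, ∀ x ∈ O i, 0 < w i x)
    (hlow : ∀ i, ∀ x ∈ O i, w i x ≤ C' * M i x ^ C' * ‖u i x‖) :
    MFam O M e (fun i x => Sraw1 (u i) x) := by
  have hb := mfam_bF hu hD he1 he0 hm hA
  refine (mfam_sraw hu hb.J2 he0 hw hlow).congr fun i x hx => ?_
  exact (sraw_eq _ _).symm

theorem mfam_Sraw2 (hu : MFam O M w u)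
    (hD : MFam O M (fun i x => e i x * w i x) (fun i x => dirac (u i) x))
    (he1 : ∀ i, ∀ x ∈ O i, e i x ≤ 1) (he0 : ∀ i, ∀ x ∈ O i, 0 ≤ e i x) {C C' : ℕ}
    (hm : ∀ i, ∀ x ∈ O i, w i x * w i x ≤ C * M i x ^ C * e i x)
    (hA : ∀ i, ∀ x ∈ O i, ‖pd (u i) 0 x‖ ≤ 1 / 10 ∧ ‖pd (u i) 1 x‖ ≤ 1 / 10)
    (hw : ∀ i, ∀ x ∈ O i, 0 < w i x)
    (hlow : ∀ i, ∀ x ∈ O i, w i x ≤ C' * M i x ^ C' * ‖u i x‖) :
    MFam O M e (fun i x => Sraw2 (u i) x) := by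
  have hb := mfam_bF hu hD he1 he0 hm hA
  refine (mfam_sraw hu hb.J1.neg he0 hw hlow).congr fun i x hx => ?_
  exact (sraw_eq _ _).symm

end Pool.Agent.BSS
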