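import Pool.Agent.BSS.LMod1
import Pool.Agent.BSS.SMod2
import Pool.Agent.BSS.SRaw

/-!
# From the local picture (a), (b), (c) to the inputs of the assembly
-/

set_option autoImplicit false
set_option maxSynthPendingDepth 3

open Set Filter Metric
open scoped ContDiff Topology

namespace Pool.Agent.BSS
namespace LM

/-- the local picture of the family `uu (S0 i) (q i)`: the inputs (a), (b), (c) of section 11 -/
structure LocPic {ι : Type*} (S0 : ι → ℝ) (q : ι → ℕ → (Fin 2 → ℤ) → H) : Prop where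
  one_le : ∀ i, 1 ≤ S0 i
  a : MFam (ι := ι × ℕ) (fun p => OO p.2) (fun p _ => QQ (S0 p.1) p.2)
    (fun p x => mm (S0 p.1) p.2 x) (fun p => uu (S0 p.1) (q p.1))
  b : ∃ C : ℕ, ∀ p : ι × ℕ, ∀ x ∈ OO p.2,
    mm (S0 p.1) p.2 x ≤ C * QQ (S0 p.1) p.2 ^ C * ‖uu (S0 p.1) (q p.1) x‖
  c : MFam (ι := ι × ℕ) (fun p => OO p.2) (fun p _ => QQ (S0 p.1) p.2)
    (fun p x => ew (S0 p.1) p.2 * mm (S0 p.1) p.2 x) (fun p x => dirac (uu (S0 p.1) (q p.1)) x)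

variable {ι : Type*} {S0 : ι → ℝ} {q : ι → ℕ → (Fin 2 → ℤ) → H}

theorem LocPic.reindex {κ : Type*} (φ : κ → ι) (h : LocPic S0 q) :
    LocPic (fun k => S0 (φ k)) (fun k => q (φ k)) := by
  refine ⟨fun k => h.one_le _, ?_, ?_, ?_⟩
  · exact h.a.reindex (fun p : κ × ℕ => (φ p.1, p.2))
  · obtain ⟨C, hC⟩ := h.b
    exact ⟨C, fun p x hx => hC (φ p.1, p.2) x hx⟩
  · exact h.c.reindex (fun p : κ × ℕ => (φ p.1, p.2))

theorem LocPic.ne_zero (h : LocPic S0 q) (i : ι) {k : ℕ} {x : X3} (hx : x ∈ OO k) :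
    uu (S0 i) (q i) x ≠ 0 := by
  obtain ⟨C, hC⟩ := h.b
  intro h0
  have h1 := hC (i, k) x hx
  have h2 : 0 < mm (S0 i) k x := mm_pos hx
  simp only [h0, norm_zero, mul_zero] at h1
  exact absurd h1 (not_le.2 h2)

/-- the zero set in `t ≥ 0` -/
theorem LocPic.zero_iff (h : LocPic S0 q) (i : ι) (x : X3) (hx : 0 ≤ x 2) :
    uu (S0 i) (q i) x = 0 ↔ x 2 = 0 ∧ pr x ∈ E2 := by
  constructor
  · intro h0
    by_contra hcon
    have h1 : 0 < x 2 ∨ pr x ∉ E2 := by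
      by_contra h2
      push Not at h2
      exact hcon ⟨le_antisymm h2.1 hx, h2.2⟩
    exact h.ne_zero i (mem_OO_kk h1 hx) h0
  · rintro ⟨h1, h2⟩
    exact uu_of_EX (S0 i) (q i) ⟨h2, h1⟩

/-- (e): the first derivatives are at most `1 / 10` for large `S_0`; more generally `≤ ε` -/
theorem LocPic.small (h : LocPic S0 q) {ε : ℝ} (hε : 0 < ε) :
    ∃ S1 : ℝ, 1 ≤ S1 ∧ ∀ i, S1 ≤ S0 i → ∀ k, ∀ x ∈ OO k,
      ‖uu (S0 i) (q i) x‖ ≤ ε ∧ ‖fderiv ℝ (uu (S0 i) (q i)) x‖ ≤ ε := by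
  obtain ⟨C, hC⟩ := h.a.bound_zero
  obtain ⟨D, hD⟩ := h.a.bound_fderiv
  obtain ⟨S1, h1, h2⟩ := exists_small_mm C hε
  obtain ⟨S2, h3, h4⟩ := exists_small_mm D hε
  refine ⟨max S1 S2, le_max_of_le_left h1, fun i hi k x hx => ⟨?_, ?_⟩⟩
  · exact (hC (i, k) x hx).trans (h2 _ ((le_max_left _ _).trans hi) k x hx)
  · exact (hD (i, k) x hx).trans (h4 _ ((le_max_right _ _).trans hi) k x hx)

theorem norm_ee (i : Fin 3) : ‖ee i‖ = 1 := by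
  unfold ee
  rw [Pi.norm_single (G := fun _ => ℝ)]
  simp

theorem norm_pd_le (u : X3 → H) (i : Fin 3) (x : X3) : ‖pd u i x‖ ≤ ‖fderiv ℝ u x‖ := by
  have := (fderiv ℝ u x).le_opNorm (ee i)
  rwa [norm_ee, mul_one] at this

theorem LocPic.small_pd (h : LocPic S0 q) :
    ∃ S1 : ℝ, 1 ≤ S1 ∧ ∀ i, S1 ≤ S0 i → ∀ k, ∀ x ∈ OO k, ∀ j,
      ‖pd (uu (S0 i) (q i)) j x‖ ≤ 1 / 10 := by
  obtain ⟨S1, h1, h2⟩ := h.small (ε := 1 / 10) (by norm_num)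
  exact ⟨S1, h1, fun i hi k x hx j => (norm_pd_le _ _ _).trans (h2 i hi k x hx).2⟩

section sraw

variable (h : LocPic S0 q) (he : ∀ i, ∀ k, ∀ x ∈ OO k, ∀ j, ‖pd (uu (S0 i) (q i)) j x‖ ≤ 1 / 10)
include h he

theorem LocPic.sraw1 : MFam (ι := ι × ℕ) (fun p => OO p.2) (fun p _ => QQ (S0 p.1) p.2)
    (fun p _ => ew (S0 p.1) p.2) (fun p => Sraw1 (uu (S0 p.1) (q p.1))) := by
  obtain ⟨C', hC'⟩ := h.b
  refine mfam_Sraw1 (O := fun p : ι × ℕ => OO p.2) (M := fun p _ => QQ (S0 p.1) p.2)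
    (w := fun p x => mm (S0 p.1) p.2 x) (e := fun p _ => ew (S0 p.1) p.2)
    (u := fun p => uu (S0 p.1) (q p.1)) (C := 16) (C' := C') h.a h.c ?_ ?_ ?_ ?_ ?_ hC'
  · intro p x _
    exact ew_le_one (by have := h.one_le p.1; linarith) _
  · intro p x _
    exact (ew_pos _ _).le
  · intro p x hx
    exact mm_sq_le (h.one_le p.1) hx
  · intro p x hx
    exact ⟨he p.1 p.2 x hx 0, he p.1 p.2 x hx 1⟩
  · intro p x hx
    exact mm_pos hx

theorem LocPic.sraw2 : MFam (ι := ι × ℕ) (fun p => OO p.2) (fun p _ => QQ (S0 p.1) p.2)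
    (fun p _ => ew (S0 p.1) p.2) (fun p => Sraw2 (uu (S0 p.1) (q p.1))) := by
  obtain ⟨C', hC'⟩ := h.b
  refine mfam_Sraw2 (O := fun p : ι × ℕ => OO p.2) (M := fun p _ => QQ (S0 p.1) p.2)
    (w := fun p x => mm (S0 p.1) p.2 x) (e := fun p _ => ew (S0 p.1) p.2)
    (u := fun p => uu (S0 p.1) (q p.1)) (C := 16) (C' := C') h.a h.c ?_ ?_ ?_ ?_ ?_ hC'
  · intro p x _
    exact ew_le_one (by have := h.one_le p.1; linarith) _
  · intro p x _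
    exact (ew_pos _ _).le
  · intro p x hx
    exact mm_sq_le (h.one_le p.1) hx
  · intro p x hx
    exact ⟨he p.1 p.2 x hx 0, he p.1 p.2 x hx 1⟩
  · intro p x hx
    exact mm_pos hx

end sraw

theorem Sraw1_of_EX (S0 : ℝ) (q : ℕ → (Fin 2 → ℤ) → H) {x : X3} (hx : x ∈ EX) :
    Sraw1 (uu S0 q) x = 0 := by
  unfold Sraw1
  rw [uu_of_EX S0 q hx]
  exact symOp_zero_left _

theorem Sraw2_of_EX (S0 : ℝ) (q : ℕ → (Fin 2 → ℤ) → H) {x : X3} (hx : x ∈ EX) :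
    Sraw2 (uu S0 q) x = 0 := by
  unfold Sraw2
  rw [uu_of_EX S0 q hx]
  exact symOp_zero_left _

end LM
end Pool.Agent.BSS
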