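import Pool.Agent.BSS.NoCancel

/-!
# Ingredients for the choice of the coefficients

(a) separated sets of quaternions of norm in `[1, 2]`, (b) nets of bounded sets, (c) the
logarithmic Lipschitz bound from a bound of the derivative.
-/

set_option autoImplicit false

open Finset

namespace Pool.Agent.BSS

section quat

private theorem quat_norm_sq (q : Quaternion ℝ) :
    ‖q‖ ^ 2 = q.re ^ 2 + q.imI ^ 2 + q.imJ ^ 2 + q.imK ^ 2 := by
  rw [sq, ← Quaternion.normSq_eq_norm_mul_self, Quaternion.normSq_def']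

private theorem abs_re_le (q : Quaternion ℝ) : |q.re| ≤ ‖q‖ := by
  refine abs_le_of_sq_le_sq ?_ (norm_nonneg q)
  rw [quat_norm_sq]
  nlinarith [sq_nonneg q.imI, sq_nonneg q.imJ, sq_nonneg q.imK]

private theorem abs_imI_le (q : Quaternion ℝ) : |q.imI| ≤ ‖q‖ := by
  refine abs_le_of_sq_le_sq ?_ (norm_nonneg q)
  rw [quat_norm_sq]
  nlinarith [sq_nonneg q.re, sq_nonneg q.imJ, sq_nonneg q.imK]

private theorem abs_imJ_le (q : Quaternion ℝ) : |q.imJ| ≤ ‖q‖ := by
  refine abs_le_of_sq_le_sq ?_ (norm_nonneg q)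
  rw [quat_norm_sq]
  nlinarith [sq_nonneg q.re, sq_nonneg q.imI, sq_nonneg q.imK]

private theorem abs_imK_le (q : Quaternion ℝ) : |q.imK| ≤ ‖q‖ := by
  refine abs_le_of_sq_le_sq ?_ (norm_nonneg q)
  rw [quat_norm_sq]
  nlinarith [sq_nonneg q.re, sq_nonneg q.imI, sq_nonneg q.imJ]

/-- the points of the grid -/
noncomputable def qpt (n : ℕ) (a : Fin 4 → Fin n) : Quaternion ℝ :=
  ⟨1 + (a 0 : ℕ) / (4 * (n:ℝ)), (a 1 : ℕ) / (4 * (n:ℝ)), (a 2 : ℕ) / (4 * (n:ℝ)),
    (a 3 : ℕ) / (4 * (n:ℝ))⟩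

theorem frac_le {n : ℕ} (hn : 0 < n) (a : Fin n) :
    0 ≤ ((a : ℕ) : ℝ) / (4 * (n:ℝ)) ∧ ((a : ℕ) : ℝ) / (4 * (n:ℝ)) ≤ 1 / 4 := by
  have hn' : (0:ℝ) < n := by exact_mod_cast hn
  have ha : ((a : ℕ) : ℝ) ≤ n := by exact_mod_cast a.2.le
  refine ⟨by positivity, ?_⟩
  rw [div_le_div_iff₀ (by positivity) (by norm_num)]
  linarith

theorem frac_sep {n : ℕ} (hn : 0 < n) {a b : Fin n} (h : a ≠ b) :
    1 / (4 * (n:ℝ)) ≤ |((a : ℕ) : ℝ) / (4 * (n:ℝ)) - ((b : ℕ) : ℝ) / (4 * (n:ℝ))| := by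
  have hn' : (0:ℝ) < n := by exact_mod_cast hn
  rw [← sub_div, abs_div, abs_of_pos (show (0:ℝ) < 4 * n by positivity)]
  refine div_le_div_of_nonneg_right ?_ (by positivity)
  have h1 : ((a : ℕ) : ℤ) ≠ ((b : ℕ) : ℤ) := by
    intro h2
    exact h (Fin.ext (by exact_mod_cast h2))
  have h2 : (1 : ℤ) ≤ |((a : ℕ) : ℤ) - ((b : ℕ) : ℤ)| := Int.one_le_abs (sub_ne_zero.mpr h1)
  exact_mod_cast h2

theorem qpt_sep {n : ℕ} (hn : 0 < n) {a b : Fin 4 → Fin n} (h : a ≠ b) :
    1 / (4 * (n:ℝ)) ≤ ‖qpt n a - qpt n b‖ := by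
  obtain ⟨i, hi⟩ := Function.ne_iff.mp h
  have h1 := frac_sep hn hi
  fin_cases i
  · refine h1.trans ?_
    have := abs_re_le (qpt n a - qpt n b)
    simpa [qpt] using this
  · refine h1.trans ?_
    have := abs_imI_le (qpt n a - qpt n b)
    simpa [qpt] using this
  · refine h1.trans ?_
    have := abs_imJ_le (qpt n a - qpt n b)
    simpa [qpt] using this
  · refine h1.trans ?_
    have := abs_imK_le (qpt n a - qpt n b)
    simpa [qpt] using this

/-- **Separated quaternions.** -/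
theorem exists_grid (n : ℕ) (hn : 0 < n) : ∃ G : Finset (Quaternion ℝ), G.card = n ^ 4 ∧
    (∀ q ∈ G, 1 ≤ ‖q‖ ∧ ‖q‖ ≤ 2) ∧
    ∀ q ∈ G, ∀ q' ∈ G, q ≠ q' → 1 / (4 * (n:ℝ)) ≤ ‖q - q'‖ := by
  classical
  have hn' : (0:ℝ) < n := by exact_mod_cast hn
  have hinj : Function.Injective (qpt n) := by
    intro a b hab
    by_contra hne
    have := qpt_sep hn hne
    rw [hab, sub_self, norm_zero] at this
    have h2 : 0 < 1 / (4 * (n:ℝ)) := by positivity
    linarith
  refine ⟨Finset.univ.image (qpt n), ?_, ?_, ?_⟩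
  · rw [Finset.card_image_of_injective _ hinj, Finset.card_univ, Fintype.card_fun,
      Fintype.card_fin, Fintype.card_fin]
  · intro q hq
    obtain ⟨a, _, rfl⟩ := Finset.mem_image.mp hq
    obtain ⟨l0, u0⟩ := frac_le hn (a 0)
    obtain ⟨l1, u1⟩ := frac_le hn (a 1)
    obtain ⟨l2, u2⟩ := frac_le hn (a 2)
    obtain ⟨l3, u3⟩ := frac_le hn (a 3)
    constructor
    · refine le_trans ?_ (abs_re_le _)
      refine le_trans ?_ (le_abs_self _)
      show (1:ℝ) ≤ 1 + _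
      linarith
    · refine abs_le_of_sq_le_sq' ?_ (by norm_num) |>.2
      rw [quat_norm_sq]
      show (1 + ((a 0 : ℕ) : ℝ) / (4 * (n:ℝ))) ^ 2 + (((a 1 : ℕ) : ℝ) / (4 * (n:ℝ))) ^ 2 +
        (((a 2 : ℕ) : ℝ) / (4 * (n:ℝ))) ^ 2 + (((a 3 : ℕ) : ℝ) / (4 * (n:ℝ))) ^ 2 ≤ (2:ℝ) ^ 2
      have h0' : (1 + ((a 0 : ℕ) : ℝ) / (4 * (n:ℝ))) ^ 2 ≤ (5 / 4) ^ 2 :=
        pow_le_pow_left₀ (by linarith) (by linarith) 2
      have h1' := pow_le_pow_left₀ l1 u1 2
      have h2' := pow_le_pow_left₀ l2 u2 2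
      have h3' := pow_le_pow_left₀ l3 u3 2
      norm_num at h0' h1' h2' h3' ⊢
      linarith
  · intro q hq q' hq' hne
    obtain ⟨a, _, rfl⟩ := Finset.mem_image.mp hq
    obtain ⟨b, _, rfl⟩ := Finset.mem_image.mp hq'
    exact qpt_sep hn (fun h => hne (by rw [h]))

end quat

section net

/-- **Nets** of bounded subsets of `ℝ^3` (sup norm), made of points of the set. -/
theorem exists_net (B : Set (Fin 3 → ℝ)) (hB : ∀ x ∈ B, ∀ i, |x i| ≤ 3) (h : ℝ) (h0 : 0 < h)
    (h1 : h ≤ 1) : ∃ N : Finset (Fin 3 → ℝ), (↑N ⊆ B) ∧ ((N.card : ℝ) ≤ (8 / h) ^ 3) ∧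
      ∀ x ∈ B, ∃ y ∈ N, ‖x - y‖ ≤ h := by
  classical
  let c : (Fin 3 → ℝ) → (Fin 3 → ℤ) := fun x i => ⌊x i / h⌋
  set I : Finset ℤ := Finset.Icc ⌊-3 / h⌋ ⌊3 / h⌋ with hI
  have hcI : ∀ x ∈ B, c x ∈ Fintype.piFinset (fun _ : Fin 3 => I) := by
    intro x hx
    rw [Fintype.mem_piFinset]
    intro i
    have h2 := abs_le.mp (hB x hx i)
    rw [hI, Finset.mem_Icc]
    refine ⟨Int.floor_le_floor ?_, Int.floor_le_floor ?_⟩
    · exact div_le_div_of_nonneg_right h2.1 h0.le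
    · exact div_le_div_of_nonneg_right h2.2 h0.le
  -- a representative for each occupied cell
  let S : Finset (Fin 3 → ℤ) := (Fintype.piFinset (fun _ : Fin 3 => I)).filter
    (fun z => ∃ x ∈ B, c x = z)
  let r : (Fin 3 → ℤ) → (Fin 3 → ℝ) := fun z => if hz : ∃ x ∈ B, c x = z then hz.choose else 0
  have hr : ∀ z, (∃ x ∈ B, c x = z) → r z ∈ B ∧ c (r z) = z := by
    intro z hz
    simp only [r, dif_pos hz]
    exact hz.choose_spec
  refine ⟨S.image r, ?_, ?_, ?_⟩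
  · intro y hy
    rw [Finset.mem_coe, Finset.mem_image] at hy
    obtain ⟨z, hz, rfl⟩ := hy
    exact (hr z (Finset.mem_filter.mp hz).2).1
  · have h2 : (S.image r).card ≤ (Fintype.piFinset (fun _ : Fin 3 => I)).card :=
      Finset.card_image_le.trans (Finset.card_filter_le _ _)
    rw [Fintype.card_piFinset, Finset.prod_const, Finset.card_univ, Fintype.card_fin] at h2
    have h3 : (I.card : ℝ) ≤ 8 / h := by
      rw [hI, Int.card_Icc]
      have h4 : ((⌊3 / h⌋ + 1 - ⌊-3 / h⌋).toNat : ℝ) ≤ 8 / h := by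
        have h5 : (⌊3 / h⌋ : ℝ) ≤ 3 / h := Int.floor_le _
        have h6 : -3 / h - 1 < (⌊-3 / h⌋ : ℝ) := Int.sub_one_lt_floor _
        have h7 : 1 ≤ 1 / h := by rw [le_div_iff₀ h0]; linarith
        have h8 : ((⌊3 / h⌋ + 1 - ⌊-3 / h⌋ : ℤ) : ℝ) ≤ 8 / h := by
          push_cast
          have e1 : (3:ℝ) / h = 3 * (1 / h) := by ring
          have e2 : (-3:ℝ) / h = -3 * (1 / h) := by ring
          have e3 : (8:ℝ) / h = 8 * (1 / h) := by ring
          rw [e1] at h5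
          rw [e2] at h6
          rw [e3, e1, e2]
          linarith
        have h9 : (0:ℤ) ≤ ⌊3 / h⌋ + 1 - ⌊-3 / h⌋ := by
          have : ⌊-3 / h⌋ ≤ ⌊3 / h⌋ := Int.floor_le_floor (div_le_div_of_nonneg_right
            (by norm_num) h0.le)
          omega
        have h10 : (((⌊3 / h⌋ + 1 - ⌊-3 / h⌋).toNat : ℤ) : ℝ) =
            ((⌊3 / h⌋ + 1 - ⌊-3 / h⌋ : ℤ) : ℝ) := by
          rw [Int.toNat_of_nonneg h9]
        have h11 : ((⌊3 / h⌋ + 1 - ⌊-3 / h⌋).toNat : ℝ) =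
            (((⌊3 / h⌋ + 1 - ⌊-3 / h⌋).toNat : ℤ) : ℝ) := by norm_cast
        rw [h11, h10]
        exact h8
      exact h4
    calc ((S.image r).card : ℝ) ≤ ((I.card ^ 3 : ℕ) : ℝ) := by exact_mod_cast h2
      _ = (I.card : ℝ) ^ 3 := by push_cast; rfl
      _ ≤ (8 / h) ^ 3 := pow_le_pow_left₀ (Nat.cast_nonneg _) h3 3
  · intro x hx
    have hex : ∃ x' ∈ B, c x' = c x := ⟨x, hx, rfl⟩
    refine ⟨r (c x), Finset.mem_image.mpr ⟨c x, Finset.mem_filter.mpr ⟨hcI x hx, hex⟩, rfl⟩, ?_⟩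
    have h2 := (hr (c x) hex).2
    rw [pi_norm_le_iff_of_nonneg h0.le]
    intro i
    have h3 : ⌊(r (c x)) i / h⌋ = ⌊x i / h⌋ := congrFun h2 i
    have h4 : |x i / h - (r (c x)) i / h| < 1 := by
      have := Int.abs_sub_lt_one_of_floor_eq_floor h3.symm
      exact this
    rw [← sub_div, abs_div, abs_of_pos h0, div_lt_one h0] at h4
    rw [Pi.sub_apply, Real.norm_eq_abs]
    exact h4.le

end net

section lip

/-- **Logarithmic Lipschitz bound.** -/
theorem log_lip {E F : Type*} [NormedAddCommGroup E] [NormedSpace ℝ E] [NormedAddCommGroup F]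
    [NormedSpace ℝ F] {f : E → F} {s : Set E} (hs : Convex ℝ s) {Q : ℝ}
    (hf : ∀ z ∈ s, DifferentiableAt ℝ f z) (hQ : ∀ z ∈ s, ‖fderiv ℝ f z‖ ≤ Q * ‖f z‖)
    {x y : E} (hx : x ∈ s) (hy : y ∈ s) :
    ‖f x - f y‖ ≤ (Real.exp (Q * ‖x - y‖) - 1) * ‖f y‖ := by
  set g : ℝ → F := fun t => f (y + t • (x - y)) - f y with hg
  have hmem : ∀ t ∈ Set.Icc (0:ℝ) 1, y + t • (x - y) ∈ s := by
    intro t ht
    have := hs hy hx (sub_nonneg.mpr ht.2) ht.1 (by ring)
    convert! this using 1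
    rw [smul_sub, sub_smul, one_smul]
    abel
  have hlin : ∀ t : ℝ, HasDerivAt (fun t : ℝ => y + t • (x - y)) (x - y) t := by
    intro t
    have h1 : HasDerivAt (fun t : ℝ => t • (x - y)) ((1:ℝ) • (x - y)) t :=
      (hasDerivAt_id t).smul_const (x - y)
    rw [one_smul] at h1
    exact h1.const_add y
  have hder : ∀ t ∈ Set.Icc (0:ℝ) 1,
      HasDerivAt g (fderiv ℝ f (y + t • (x - y)) (x - y)) t := by
    intro t ht
    have h1 := (hf _ (hmem t ht)).hasFDerivAt.comp_hasDerivAt t (hlin t)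
    exact h1.sub_const _
  set K := Q * ‖x - y‖ with hK
  have hbound : ∀ t ∈ Set.Ico (0:ℝ) 1, ‖fderiv ℝ f (y + t • (x - y)) (x - y)‖ ≤
      K * ‖g t‖ + K * ‖f y‖ := by
    intro t ht
    have ht' : t ∈ Set.Icc (0:ℝ) 1 := ⟨ht.1, ht.2.le⟩
    have h1 := hQ _ (hmem t ht')
    have hnn : 0 ≤ Q * ‖f (y + t • (x - y))‖ := (norm_nonneg _).trans h1
    have h2 : ‖f (y + t • (x - y))‖ ≤ ‖g t‖ + ‖f y‖ := by
      have := norm_add_le (g t) (f y)
      simp only [hg, sub_add_cancel] at this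
      exact this
    calc ‖fderiv ℝ f (y + t • (x - y)) (x - y)‖
        ≤ ‖fderiv ℝ f (y + t • (x - y))‖ * ‖x - y‖ := ContinuousLinearMap.le_opNorm _ _
      _ ≤ (Q * ‖f (y + t • (x - y))‖) * ‖x - y‖ := by gcongr
      _ = K * ‖f (y + t • (x - y))‖ := by rw [hK]; ring
      _ ≤ K * ‖g t‖ + K * ‖f y‖ := by
          rcases eq_or_lt_of_le (norm_nonneg (f (y + t • (x - y)))) with h3 | h3
          · rw [← h3, mul_zero]
            -- both sides: `K` may be negative only if `f` vanishes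
            rcases le_or_gt 0 K with h4 | h4
            · positivity
            · have hg0 : ‖g t‖ = ‖f y‖ := by
                have : f (y + t • (x - y)) = 0 := norm_eq_zero.mp h3.symm
                simp only [hg, this, zero_sub, norm_neg]
              have h5 := hQ y hy
              have hxy : 0 < ‖x - y‖ := by
                rcases eq_or_lt_of_le (norm_nonneg (x - y)) with h6 | h6
                · rw [hK, ← h6, mul_zero] at h4; exact absurd h4 (lt_irrefl _)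
                · exact h6
              have hQneg : Q < 0 := by
                by_contra hcon
                push Not at hcon
                have : 0 ≤ K := mul_nonneg hcon hxy.le
                linarith
              have h7 : ‖f y‖ = 0 := by
                have h8 : 0 ≤ Q * ‖f y‖ := (norm_nonneg _).trans h5
                have h9 := norm_nonneg (f y)
                nlinarith
              rw [hg0, h7, mul_zero, add_zero]
          · have hQ0 : 0 ≤ Q := by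
              by_contra hcon
              push Not at hcon
              have : Q * ‖f (y + t • (x - y))‖ < 0 := mul_neg_of_neg_of_pos hcon h3
              linarith
            have hK0 : 0 ≤ K := mul_nonneg hQ0 (norm_nonneg _)
            calc K * ‖f (y + t • (x - y))‖ ≤ K * (‖g t‖ + ‖f y‖) :=
                  mul_le_mul_of_nonneg_left h2 hK0
              _ = _ := by ring
  have hgr := norm_le_gronwallBound_of_norm_deriv_right_le (f := g)
    (f' := fun t => fderiv ℝ f (y + t • (x - y)) (x - y)) (δ := 0) (K := K)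
    (ε := K * ‖f y‖) (a := 0) (b := 1)
    (fun t ht => (hder t ht).continuousAt.continuousWithinAt)
    (fun t ht => (hder t ⟨ht.1, ht.2.le⟩).hasDerivWithinAt)
    (by simp [hg]) hbound 1 (by simp)
  have e1 : g 1 = f x - f y := by
    simp only [hg, one_smul]
    congr 2
    abel
  rw [e1, sub_zero] at hgr
  refine hgr.trans (le_of_eq ?_)
  by_cases hK0 : K = 0
  · rw [hK0, gronwallBound_K0, Real.exp_zero]
    ring
  · rw [gronwallBound_of_K_ne_0 hK0]
    field_simp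
    ring

end lip

end Pool.Agent.BSS
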