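import Pool.Agent.BSS.Wave
import Pool.Agent.BSS.NoCancel2

/-!
# The first derivative of a wave is bounded by a multiple of the wave
-/

set_option autoImplicit false

open scoped ContDiff Quaternion

namespace Pool.Agent.BSS

theorem X3_abs_le (v : X3) (i : Fin 3) : |v i| ≤ ‖v‖ := by
  rw [← Real.norm_eq_abs]
  exact norm_le_pi_norm v i

theorem norm_Wc'_le (s : ℝ) (y v : X3) (hy : ∀ i, |y i| ≤ 10) :
    ‖Wave.Wc' s y v‖ ≤ (2 + 60 * |s|) * ‖v‖ := by
  have h0 := X3_abs_le v 0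
  have h1 := X3_abs_le v 1
  have h2 := X3_abs_le v 2
  have hip : |y 0 * v 0 + y 1 * v 1 + y 2 * v 2| ≤ 30 * ‖v‖ := by
    calc |y 0 * v 0 + y 1 * v 1 + y 2 * v 2| ≤ |y 0 * v 0 + y 1 * v 1| + |y 2 * v 2| :=
          abs_add_le _ _
      _ ≤ |y 0 * v 0| + |y 1 * v 1| + |y 2 * v 2| := by
          gcongr
          exact abs_add_le _ _
      _ = |y 0| * |v 0| + |y 1| * |v 1| + |y 2| * |v 2| := by rw [abs_mul, abs_mul, abs_mul]
      _ ≤ 10 * ‖v‖ + 10 * ‖v‖ + 10 * ‖v‖ := by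
          gcongr
          · exact hy 0
          · exact hy 1
          · exact hy 2
      _ = 30 * ‖v‖ := by ring
  refine (Complex.norm_le_abs_re_add_abs_im _).trans ?_
  rw [Wave.Wc'_re, Wave.Wc'_im]
  have h3 : |v 0 + 2 * s * (y 0 * v 0 + y 1 * v 1 + y 2 * v 2)| ≤
      ‖v‖ + 2 * |s| * (30 * ‖v‖) := by
    refine (abs_add_le _ _).trans ?_
    rw [abs_mul, abs_mul, abs_two]
    gcongr
  calc |v 2| + |v 0 + 2 * s * (y 0 * v 0 + y 1 * v 1 + y 2 * v 2)|
      ≤ ‖v‖ + (‖v‖ + 2 * |s| * (30 * ‖v‖)) := add_le_add h2 h3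
    _ = (2 + 60 * |s|) * ‖v‖ := by ring

/-- **The logarithmic derivative of a wave.** -/
theorem norm_fderiv_wave_le {w : WP} {x : X3} (hrho : 0 < w.rho) (hrho1 : w.rho ≤ 1)
    (hK : 0 ≤ w.K) (hdel : 0 < w.del) (hz : w.del / 2 ≤ x 2 + w.del) (hr : w.r2 x ≤ 100) :
    ‖fderiv ℝ (wave w) x‖ ≤ 110 * (1 + w.K) / (w.rho * w.del) * ‖wave w x‖ := by
  have hz0 : 0 < x 2 + w.del := by linarith
  obtain ⟨V', hV, hv⟩ := hasFDerivAt_wave hz0
  rw [hV.fderiv]
  refine ContinuousLinearMap.opNorm_le_bound _ (by positivity) fun v => ?_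
  rw [hv]
  set y := w.y x with hy
  have hy2 : y 2 = x 2 + w.del := by simp [hy]
  have hr2 : w.r2 x = y 0 ^ 2 + y 1 ^ 2 + y 2 ^ 2 := by rw [WP.r2_eq]; rfl
  have hr2pos : 0 < w.r2 x := WP.r2_pos hz0
  have hypos : 0 < y 2 := by rw [hy2]; exact hz0
  have hinv : 1 / y 2 ≤ 2 / w.del := by
    rw [hy2, div_le_div_iff₀ hz0 hdel]
    linarith
  -- each coordinate over `r2`
  have hcoord : ∀ i, |y i| / w.r2 x ≤ 2 / w.del := by
    intro i
    refine le_trans ?_ hinv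
    rw [div_le_div_iff₀ hr2pos hypos, hr2, one_mul]
    have h0 : 0 ≤ (|y 0| - y 2) ^ 2 := sq_nonneg _
    have h1 : 0 ≤ (|y 1| - y 2) ^ 2 := sq_nonneg _
    have e0 := sq_abs (y 0)
    have e1 := sq_abs (y 1)
    fin_cases i
    · simp only [Fin.zero_eta]
      nlinarith [sq_nonneg (y 1), sq_nonneg (y 0), sq_nonneg (y 2)]
    · simp only [Fin.mk_one]
      nlinarith [sq_nonneg (y 1), sq_nonneg (y 0), sq_nonneg (y 2)]
    · simp only [Fin.reduceFinMk, abs_of_pos hypos]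
      nlinarith [sq_nonneg (y 1), sq_nonneg (y 0)]
  have hy10 : ∀ i, |y i| ≤ 10 := by
    intro i
    apply abs_le_of_sq_le_sq _ (by norm_num)
    rw [hr2] at hr
    fin_cases i <;> simp only [Fin.zero_eta, Fin.mk_one, Fin.reduceFinMk] <;>
      nlinarith [sq_nonneg (y 0), sq_nonneg (y 1), sq_nonneg (y 2)]
  have hv0 := X3_abs_le v 0
  have hv1 := X3_abs_le v 1
  have hv2 := X3_abs_le v 2
  have hdel2 : 0 ≤ 2 / w.del := by positivity
  -- term 1
  have t1 : ‖(-(3 * (y 0 * v 0 + y 1 * v 1 + y 2 * v 2) / w.r2 x)) • wave w x‖ ≤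
      18 / w.del * ‖v‖ * ‖wave w x‖ := by
    rw [norm_smul, Real.norm_eq_abs, abs_neg]
    refine mul_le_mul_of_nonneg_right ?_ (norm_nonneg _)
    have e : 3 * (y 0 * v 0 + y 1 * v 1 + y 2 * v 2) / w.r2 x =
        3 * (y 0 / w.r2 x * v 0 + y 1 / w.r2 x * v 1 + y 2 / w.r2 x * v 2) := by
      field_simp
    rw [e, abs_mul, abs_of_pos (by norm_num : (0 : ℝ) < 3)]
    have hterm : ∀ i, |y i / w.r2 x * v i| ≤ 2 / w.del * ‖v‖ := by
      intro i
      rw [abs_mul, abs_div, abs_of_pos hr2pos]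
      exact mul_le_mul (hcoord i) (X3_abs_le v i) (abs_nonneg _) hdel2
    calc 3 * |y 0 / w.r2 x * v 0 + y 1 / w.r2 x * v 1 + y 2 / w.r2 x * v 2|
        ≤ 3 * (|y 0 / w.r2 x * v 0| + |y 1 / w.r2 x * v 1| + |y 2 / w.r2 x * v 2|) := by
          gcongr
          refine (abs_add_le _ _).trans ?_
          gcongr
          exact abs_add_le _ _
      _ ≤ 3 * (2 / w.del * ‖v‖ + 2 / w.del * ‖v‖ + 2 / w.del * ‖v‖) := by
          gcongr
          · exact hterm 0
          · exact hterm 1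
          · exact hterm 2
      _ = 18 / w.del * ‖v‖ := by ring
  -- term 2
  have t2 : ‖(w.r2 x)⁻¹ • (Wave.hat v * (Wave.hat y * wave w x))‖ ≤
      4 / w.del * ‖v‖ * ‖wave w x‖ := by
    rw [norm_smul, norm_mul, norm_mul, Wave.norm_hat, Wave.norm_hat, norm_inv, Real.norm_eq_abs,
      abs_of_pos hr2pos]
    have h1 : Real.sqrt (Wave.r2 v) ≤ 2 * ‖v‖ := by
      rw [Real.sqrt_le_iff]
      refine ⟨by positivity, ?_⟩
      unfold Wave.r2
      have e0 := sq_abs (v 0)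
      have e1 := sq_abs (v 1)
      have e2 := sq_abs (v 2)
      have a0 := abs_nonneg (v 0)
      have a1 := abs_nonneg (v 1)
      have a2 := abs_nonneg (v 2)
      nlinarith [norm_nonneg v]
    have h2 : (w.r2 x)⁻¹ * Real.sqrt (Wave.r2 y) ≤ 2 / w.del := by
      refine le_trans ?_ hinv
      have e : Wave.r2 y = w.r2 x := (WP.r2_eq w x).symm
      rw [e]
      have hs : 0 < Real.sqrt (w.r2 x) := Real.sqrt_pos.mpr hr2pos
      have e2 : (w.r2 x)⁻¹ * Real.sqrt (w.r2 x) = 1 / Real.sqrt (w.r2 x) := by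
        have := Real.mul_self_sqrt hr2pos.le
        field_simp
        rw [sq]
        linarith
      rw [e2]
      refine one_div_le_one_div_of_le hypos ?_
      rw [Real.le_sqrt' hypos, hr2]
      nlinarith [sq_nonneg (y 0), sq_nonneg (y 1)]
    calc (w.r2 x)⁻¹ * (Real.sqrt (Wave.r2 v) * (Real.sqrt (Wave.r2 y) * ‖wave w x‖))
        = ((w.r2 x)⁻¹ * Real.sqrt (Wave.r2 y)) * Real.sqrt (Wave.r2 v) * ‖wave w x‖ := by ring
      _ ≤ (2 / w.del) * (2 * ‖v‖) * ‖wave w x‖ := by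
          gcongr
      _ = 4 / w.del * ‖v‖ * ‖wave w x‖ := by ring
  -- term 3
  have hpi := Real.pi_gt_three
  have hWc : ∀ s : ℝ, ‖(Wave.Wc s y)⁻¹‖ ≤ 2 / w.del := by
    intro s
    rw [norm_inv]
    have h1 : y 2 ≤ ‖Wave.Wc s y‖ := by
      have := Complex.abs_re_le_norm (Wave.Wc s y)
      rw [Wave.Wc_re, abs_of_pos hypos] at this
      exact this
    refine le_trans ?_ hinv
    rw [← one_div]
    exact one_div_le_one_div_of_le hypos h1
  have hone : 1 ≤ 1 / w.rho := by rw [le_div_iff₀ hrho]; linarith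
  have t3 : ‖wave w x * Wave.emb (Wave.Fc' (1 / w.rho) (w.K / Real.pi) y v)‖ ≤
      83 * w.K / (w.rho * w.del) * ‖v‖ * ‖wave w x‖ := by
    rw [norm_mul, Wave.norm_emb, mul_comm]
    refine mul_le_mul_of_nonneg_right ?_ (norm_nonneg _)
    have e : Wave.Fc' (1 / w.rho) (w.K / Real.pi) y v =
        (-(Complex.I * ((w.K / Real.pi : ℝ) : ℂ))) *
        ((Wave.Wc (-(1 / w.rho)) y)⁻¹ * Wave.Wc' (-(1 / w.rho)) y v -
          (Wave.Wc (1 / w.rho) y)⁻¹ * Wave.Wc' (1 / w.rho) y v) := by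
      simp [Wave.Fc']
    rw [e, norm_mul, norm_neg, norm_mul, Complex.norm_I, one_mul, Complex.norm_real,
      Real.norm_eq_abs, abs_of_nonneg (by positivity)]
    have h1 : ∀ s : ℝ, |s| = 1 / w.rho → ‖(Wave.Wc s y)⁻¹ * Wave.Wc' s y v‖ ≤
        2 / w.del * (62 / w.rho * ‖v‖) := by
      intro s hs
      rw [norm_mul]
      refine mul_le_mul (hWc s) ?_ (norm_nonneg _) hdel2
      refine (norm_Wc'_le s y v hy10).trans ?_
      rw [hs]
      refine mul_le_mul_of_nonneg_right ?_ (norm_nonneg _)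
      have : 62 / w.rho = 2 * (1 / w.rho) + 60 * (1 / w.rho) := by ring
      rw [this]
      linarith
    have h2 : ‖(Wave.Wc (-(1 / w.rho)) y)⁻¹ * Wave.Wc' (-(1 / w.rho)) y v -
          (Wave.Wc (1 / w.rho) y)⁻¹ * Wave.Wc' (1 / w.rho) y v‖ ≤
          248 / (w.rho * w.del) * ‖v‖ := by
      refine (norm_sub_le _ _).trans ?_
      have a := h1 (-(1 / w.rho)) (by rw [abs_neg, abs_of_pos (by positivity)])
      have b := h1 (1 / w.rho) (by rw [abs_of_pos (by positivity)])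
      have e3 : 248 / (w.rho * w.del) * ‖v‖ =
          2 / w.del * (62 / w.rho * ‖v‖) + 2 / w.del * (62 / w.rho * ‖v‖) := by
        field_simp
        ring
      rw [e3]
      exact add_le_add a b
    have h3 : w.K / Real.pi ≤ w.K / 3 := div_le_div_of_nonneg_left hK (by norm_num) hpi.le
    calc w.K / Real.pi * ‖(Wave.Wc (-(1 / w.rho)) y)⁻¹ * Wave.Wc' (-(1 / w.rho)) y v -
          (Wave.Wc (1 / w.rho) y)⁻¹ * Wave.Wc' (1 / w.rho) y v‖
        ≤ w.K / 3 * (248 / (w.rho * w.del) * ‖v‖) := by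
          gcongr
      _ ≤ 83 * w.K / (w.rho * w.del) * ‖v‖ := by
          have : w.K / 3 * (248 / (w.rho * w.del) * ‖v‖) =
              (248 / 3) * (w.K / (w.rho * w.del) * ‖v‖) := by ring
          rw [this]
          have h4 : 83 * w.K / (w.rho * w.del) * ‖v‖ = 83 * (w.K / (w.rho * w.del) * ‖v‖) := by
            ring
          rw [h4]
          have : 0 ≤ w.K / (w.rho * w.del) * ‖v‖ := by positivity
          linarith
  have hsum : ‖(-(3 * (y 0 * v 0 + y 1 * v 1 + y 2 * v 2) / w.r2 x)) • wave w x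
        - (w.r2 x)⁻¹ • (Wave.hat v * (Wave.hat y * wave w x))
        + wave w x * Wave.emb (Wave.Fc' (1 / w.rho) (w.K / Real.pi) y v)‖ ≤
      18 / w.del * ‖v‖ * ‖wave w x‖ + 4 / w.del * ‖v‖ * ‖wave w x‖ +
      83 * w.K / (w.rho * w.del) * ‖v‖ * ‖wave w x‖ := by
    refine (norm_add_le _ _).trans (add_le_add ((norm_sub_le _ _).trans (add_le_add t1 t2)) t3)
  refine hsum.trans ?_
  have h5 : 22 / w.del ≤ 22 / (w.rho * w.del) := by
    refine div_le_div_of_nonneg_left (by norm_num) (by positivity) ?_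
    nlinarith
  have h6 : 18 / w.del * ‖v‖ * ‖wave w x‖ + 4 / w.del * ‖v‖ * ‖wave w x‖ +
      83 * w.K / (w.rho * w.del) * ‖v‖ * ‖wave w x‖ =
      (22 / w.del + 83 * w.K / (w.rho * w.del)) * (‖v‖ * ‖wave w x‖) := by ring
  have h7 : 110 * (1 + w.K) / (w.rho * w.del) * ‖wave w x‖ * ‖v‖ =
      (110 * (1 + w.K) / (w.rho * w.del)) * (‖v‖ * ‖wave w x‖) := by ring
  rw [h6, h7]
  refine mul_le_mul_of_nonneg_right ?_ (by positivity)
  have h8 : 110 * (1 + w.K) / (w.rho * w.del) =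
      22 / (w.rho * w.del) + 83 * w.K / (w.rho * w.del) + (88 + 27 * w.K) / (w.rho * w.del) := by
    ring
  rw [h8]
  have h9 : 0 ≤ (88 + 27 * w.K) / (w.rho * w.del) := by positivity
  linarith

end Pool.Agent.BSS
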