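import Pool.Agent.BSS.Choice
import Pool.Agent.BSS.Defs
import Pool.Agent.BSS.WaveLip
import Pool.Agent.BSS.Cent

/-!
# No cancellation for the real waves (section 10 of H/bff03b)
-/

set_option maxSynthPendingDepth 3
set_option autoImplicit false

open scoped ContDiff Quaternion

namespace Pool.Agent.BSS

/-- The no-cancellation property of the coefficients `q`. -/
def GoodQ (C₁ : ℕ) (S0 : ℝ) (q : ℕ → (Fin 2 → ℤ) → H) : Prop :=
  ∀ k x, x ∈ Box2 → -(del (k + 1) / 4) ≤ x 2 →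
    mk S0 k x ≤ C₁ * QQ S0 k ^ C₁ * ‖Wk S0 q k x + Wk S0 q (k + 1) x‖ ∧
    mk S0 (k + 1) x ≤ C₁ * QQ S0 k ^ C₁ * ‖Wk S0 q k x + Wk S0 q (k + 1) x‖ ∧
    mk S0 (k + 1) x ≤ C₁ * QQ S0 k ^ C₁ * ‖Wk S0 q (k + 1) x‖

/-- The domain of the pair of levels `k`, `k + 1`. -/
def Dk (k : ℕ) : Set X3 := {x | x ∈ Box2 ∧ -(del (k + 1) / 4) ≤ x 2}

theorem Dk_bound {k : ℕ} {x : X3} (hx : x ∈ Dk k) (i : Fin 3) : |x i| ≤ 3 := by
  obtain ⟨⟨h1, h2, h3, h4, h5, h6⟩, _⟩ := hx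
  rw [abs_le]
  fin_cases i
  · exact ⟨by simp only [Fin.zero_eta]; linarith, by simp only [Fin.zero_eta]; linarith⟩
  · exact ⟨by simp only [Fin.mk_one]; linarith, by simp only [Fin.mk_one]; linarith⟩
  · exact ⟨by simp only [Fin.reduceFinMk]; linarith, by simp only [Fin.reduceFinMk]; linarith⟩

theorem convex_coord_ge (i : Fin 3) (c : ℝ) : Convex ℝ {x : X3 | c ≤ x i} := by
  have h : {x : X3 | c ≤ x i} = (LinearMap.proj i : X3 →ₗ[ℝ] ℝ) ⁻¹' Set.Ici c := rfl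
  rw [h]
  exact (convex_Ici c).linear_preimage _

theorem convex_coord_le (i : Fin 3) (c : ℝ) : Convex ℝ {x : X3 | x i ≤ c} := by
  have h : {x : X3 | x i ≤ c} = (LinearMap.proj i : X3 →ₗ[ℝ] ℝ) ⁻¹' Set.Iic c := rfl
  rw [h]
  exact (convex_Iic c).linear_preimage _

theorem convex_Dk (k : ℕ) : Convex ℝ (Dk k) := by
  have h : Dk k = (({x : X3 | -2 ≤ x 0} ∩ {x : X3 | x 0 ≤ 3}) ∩ ({x : X3 | -2 ≤ x 1} ∩
      {x : X3 | x 1 ≤ 3}) ∩ ({x : X3 | -2 ≤ x 2} ∩ {x : X3 | x 2 ≤ 2})) ∩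
      {x : X3 | -(del (k + 1) / 4) ≤ x 2} := by
    ext x
    simp only [Dk, Box2, Set.mem_ofPred_eq, Set.mem_inter_iff]
    tauto
  rw [h]
  exact ((((convex_coord_ge 0 _).inter (convex_coord_le 0 _)).inter
    ((convex_coord_ge 1 _).inter (convex_coord_le 1 _))).inter
    ((convex_coord_ge 2 _).inter (convex_coord_le 2 _))).inter (convex_coord_ge 2 _)

/-- The derivative of a wave of level `l` on the part `- del l / 4 ≤ t` of the box. -/
theorem fderiv_Vk_le {S0 : ℝ} (hS : 1 ≤ S0) (k l : ℕ) (hlk : l ≤ k + 1) (m : Fin 2 → ℤ)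
    (hm : m ∈ Zk l) (x : X3) (hx : x ∈ Box2) (ht : -(del l / 4) ≤ x 2) :
    DifferentiableAt ℝ (Vk S0 l m) x ∧
      ‖fderiv ℝ (Vk S0 l m) x‖ ≤ 220 * QQ S0 k ^ 3 * ‖Vk S0 l m x‖ := by
  have hS0 : 0 < S0 := by linarith
  have hQ1 := one_le_QQ hS k
  have hQ0 : 0 < QQ S0 k := by linarith
  cases l with
  | zero =>
    have h : Vk S0 0 m = fun _ => Real.exp (-S0) • (1 : H) := rfl
    rw [h]
    refine ⟨differentiableAt_const _, ?_⟩
    rw [fderiv_fun_const]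
    simp only [Pi.zero_apply, norm_zero]
    positivity
  | succ l =>
    have h : Vk S0 (l + 1) m = wave (wp S0 (l + 1) m) := rfl
    rw [h]
    have hrho : 0 < rho (l + 1) := Par.rho_pos _
    have hdel : 0 < del (l + 1) := Par.rho_pos _
    have hz : (wp S0 (l + 1) m).del / 2 ≤ x 2 + (wp S0 (l + 1) m).del := by
      change del (l + 1) / 2 ≤ x 2 + del (l + 1)
      linarith
    have hz0 : 0 < x 2 + (wp S0 (l + 1) m).del := by
      change 0 < x 2 + del (l + 1)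
      linarith
    have hdel1 : del (l + 1) ≤ 1 := Par.rho_le_one _
    have hlat := fun i => abs_lat_le hm i
    have hr : (wp S0 (l + 1) m).r2 x ≤ 100 := by
      obtain ⟨h1, h2, h3, h4, h5, h6⟩ := hx
      change (x 0 - lat (l + 1) m 0) ^ 2 + (x 1 - lat (l + 1) m 1) ^ 2 + (x 2 + del (l + 1)) ^ 2 ≤ 100
      have a0 := abs_le.mp (hlat 0)
      have a1 := abs_le.mp (hlat 1)
      have b0 : (x 0 - lat (l + 1) m 0) ^ 2 ≤ 25 := by nlinarith
      have b1 : (x 1 - lat (l + 1) m 1) ^ 2 ≤ 25 := by nlinarith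
      have b2 : (x 2 + del (l + 1)) ^ 2 ≤ 9 := by nlinarith
      linarith
    have hK : 0 ≤ (wp S0 (l + 1) m).K := by
      change 0 ≤ SS S0 (l + 1) / 2
      have := SS_pos hS0 (l + 1)
      positivity
    refine ⟨(wave_contDiffAt hz0).differentiableAt (by norm_num), ?_⟩
    refine (norm_fderiv_wave_le (w := wp S0 (l + 1) m) hrho (Par.rho_le_one _) hK hdel hz hr).trans ?_
    refine mul_le_mul_of_nonneg_right ?_ (norm_nonneg _)
    change 110 * (1 + SS S0 (l + 1) / 2) / (rho (l + 1) * del (l + 1)) ≤ 220 * QQ S0 k ^ 3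
    have e1 : 1 / rho (l + 1) ≤ QQ S0 k := inv_rho_le_QQ' hS (by omega)
    have e2 : 1 / del (l + 1) ≤ QQ S0 k := inv_rho_le_QQ' (i := l + 2) hS (by omega)
    have e3 : SS S0 (l + 1) / 2 ≤ QQ S0 k := by
      have h1 : SS S0 (l + 1) ≤ SS S0 (k + 1) := SS_mono hS0.le (by omega)
      have h2 := SS_succ_le hS0.le k
      have h3 := SS_le_QQ hS0 k
      linarith
    have e4 : 110 * (1 + SS S0 (l + 1) / 2) / (rho (l + 1) * del (l + 1)) =
        110 * (1 + SS S0 (l + 1) / 2) * (1 / rho (l + 1)) * (1 / del (l + 1)) := by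
      field_simp
    rw [e4]
    have hSl := SS_pos hS0 (l + 1)
    calc 110 * (1 + SS S0 (l + 1) / 2) * (1 / rho (l + 1)) * (1 / del (l + 1))
        ≤ 110 * (QQ S0 k + QQ S0 k) * QQ S0 k * QQ S0 k := by
          gcongr
      _ = 220 * QQ S0 k ^ 3 := by ring

/-- **Choice of the coefficients** (section 10): no cancellation. -/
theorem exists_coeffs : ∃ C₁ : ℕ, ∀ S0 : ℝ, 1 ≤ S0 → ∃ q : ℕ → (Fin 2 → ℤ) → H,
    (∀ k m, 1 ≤ ‖q k m‖ ∧ ‖q k m‖ ≤ 2) ∧ GoodQ C₁ S0 q := by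
  obtain ⟨C₁, hC1, hC2⟩ : ∃ C₁ : ℕ, 15 ≤ C₁ ∧ (10 ^ 13 * 440000 ^ 3 : ℝ) ≤ C₁ :=
    ⟨10 ^ 13 * 440000 ^ 3, by norm_num, by norm_num⟩
  refine ⟨C₁, fun S0 hS => ?_⟩
  have hS0 : 0 < S0 := by linarith
  have hdel_anti : ∀ k, del (k + 1) ≤ del k := fun k => Par.rho_anti (by omega)
  obtain ⟨q, hq, hgood⟩ := exists_q_fderiv Zk (Vk S0) Dk (fun k => 220 * QQ S0 k ^ 3)
    (fun k => 2000 * QQ S0 k ^ 2) (fun k x hx i => Dk_bound hx i) convex_Dk
    (fun k => by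
      have := one_le_QQ hS k
      nlinarith [one_le_pow₀ this (n := 3)])
    (fun k => by
      have := one_le_QQ hS k
      nlinarith [one_le_pow₀ this (n := 2)])
    (fun k => by
      have h1 := card_Zk_le_div k
      have h2 := card_Zk_le_div (k + 1)
      have h3 : 1 / rho k ≤ QQ S0 k := inv_rho_le_QQ' hS (by omega)
      have h4 : 1 / rho (k + 1) ≤ QQ S0 k := inv_rho_le_QQ' hS (by omega)
      have h5 : 0 < rho k := Par.rho_pos _
      have h6 : 0 < rho (k + 1) := Par.rho_pos _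
      have e1 : 1000 / rho k ^ 2 = 1000 * (1 / rho k) ^ 2 := by field_simp
      have e2 : 1000 / rho (k + 1) ^ 2 = 1000 * (1 / rho (k + 1)) ^ 2 := by field_simp
      rw [e1] at h1
      rw [e2] at h2
      have h7 : (1 / rho k) ^ 2 ≤ QQ S0 k ^ 2 := by gcongr
      have h8 : (1 / rho (k + 1)) ^ 2 ≤ QQ S0 k ^ 2 := by gcongr
      linarith)
    (fun k a ha x hx => fderiv_Vk_le hS k k (by omega) a ha x hx.1 (by
      have h1 := hx.2
      have h2 := hdel_anti k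
      linarith))
    (fun k a ha x hx => fderiv_Vk_le hS k (k + 1) le_rfl a ha x hx.1 hx.2)
  refine ⟨q, hq, fun k x hx ht => ?_⟩
  obtain ⟨g1, g2, g3⟩ := hgood k x ⟨hx, ht⟩
  have hQ1 := one_le_QQ hS k
  have hQ0 : 0 < QQ S0 k := by linarith
  have hth : (10 : ℝ) ^ 13 * (220 * QQ S0 k ^ 3 * (2000 * QQ S0 k ^ 2)) ^ 3 ≤
      C₁ * QQ S0 k ^ C₁ := by
    have e : (10 : ℝ) ^ 13 * (220 * QQ S0 k ^ 3 * (2000 * QQ S0 k ^ 2)) ^ 3 =
        (10 ^ 13 * 440000 ^ 3) * QQ S0 k ^ 15 := by ring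
    rw [e]
    exact mul_le_mul hC2 (pow_le_pow_right₀ hQ1 hC1) (by positivity) (Nat.cast_nonneg _)
  have hpos : (0 : ℝ) < 10 ^ 13 * (220 * QQ S0 k ^ 3 * (2000 * QQ S0 k ^ 2)) ^ 3 := by positivity
  have key : ∀ (l : ℕ) (R : ℝ), 0 ≤ R → (∀ a ∈ Zk l,
      1 / (10 ^ 13 * (220 * QQ S0 k ^ 3 * (2000 * QQ S0 k ^ 2)) ^ 3) * ‖Vk S0 l a x‖ ≤ R) →
      mk S0 l x ≤ C₁ * QQ S0 k ^ C₁ * R := by
    intro l R hR h
    unfold mk
    refine Real.iSup_le (fun m => ?_) (by positivity)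
    have h1 := h m.1 m.2
    rw [one_div, inv_mul_le_iff₀ hpos] at h1
    exact h1.trans (mul_le_mul_of_nonneg_right hth hR)
  exact ⟨key k _ (norm_nonneg _) g1, key (k + 1) _ (norm_nonneg _) g2,
    key (k + 1) _ (norm_nonneg _) g3⟩

end Pool.Agent.BSS
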