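import Pool.Agent.BSS.SFinal0
import Pool.Agent.BSS.Cut
import Pool.Agent.BSS.SMod2

/-!
# The fields `S_i = PsiC • Sraw_i` (doc H/bff03b, section 11): final form
-/

open Set Filter
open scoped Topology ContDiff

set_option maxSynthPendingDepth 3

namespace Pool.Agent.BSS

theorem psiLocBound : PsiLocBound := by
  unfold PsiLocBound
  have hD : Dom (fun _ : ℕ => (univ : Set X3)) (fun k _ => (rho (k + 4))⁻¹) :=
    ⟨fun _ => isOpen_univ, fun _ _ _ => one_le_inv_rho _⟩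
  have hr : ∀ {j k : ℕ}, j ≤ k → (rho j)⁻¹ ≤ (rho k)⁻¹ := fun {j k} h =>
    inv_anti₀ (rho_pos k) (rho_anti' h)
  have hα : MFam (fun _ : ℕ => (univ : Set X3)) (fun k _ => (rho (k + 4))⁻¹) (fun _ _ => 1)
      (fun k x => alpha k (pr x)) :=
    MFam_alpha3.changeM_le fun k x _ => hr (by omega)
  have h2 : MFam (fun _ : ℕ => (univ : Set X3)) (fun k _ => (rho (k + 4))⁻¹) (fun _ _ => 1)
      (fun k x => psi (k + 2) (x 2)) :=
    (MFam_psi3.reindex (fun k => k + 2)).changeM_le fun k x _ => hr (by omega)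
  have h3 : MFam (fun _ : ℕ => (univ : Set X3)) (fun k _ => (rho (k + 4))⁻¹) (fun _ _ => 1)
      (fun k x => psi (k + 3) (x 2)) :=
    (MFam_psi3.reindex (fun k => k + 3)).changeM_le fun k x _ => hr (by omega)
  exact h2.add (hα.mul_one_one (h3.sub h2))

/-- `S_1`. -/
noncomputable def SF1 (u : X3 → H) (x : X3) : H →L[ℝ] H := PsiC x • Sraw1 u x
/-- `S_2`. -/
noncomputable def SF2 (u : X3 → H) (x : X3) : H →L[ℝ] H := PsiC x • Sraw2 u x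

theorem SF1_symm (u : X3 → H) (x : X3) (a b : H) :
    inner ℝ (SF1 u x a) b = inner ℝ a (SF1 u x b) := by
  simp only [SF1, FunLike.coe_smul, Pi.smul_apply, inner_smul_left, inner_smul_right,
    RCLike.conj_to_real]
  rw [Sraw1_symm]

theorem SF2_symm (u : X3 → H) (x : X3) (a b : H) :
    inner ℝ (SF2 u x a) b = inner ℝ a (SF2 u x b) := by
  simp only [SF2, FunLike.coe_smul, Pi.smul_apply, inner_smul_left, inner_smul_right,
    RCLike.conj_to_real]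
  rw [Sraw2_symm]

theorem Sraw1_of_zero {u : X3 → H} {x : X3} (h : u x = 0) : Sraw1 u x = 0 := by
  rw [Sraw1, h, symOp_zero_left]

theorem Sraw2_of_zero {u : X3 → H} {x : X3} (h : u x = 0) : Sraw2 u x = 0 := by
  rw [Sraw2, h, symOp_zero_left]

theorem bF_of_locally_const {u : X3 → H} {x : X3} {c : H} (h : u =ᶠ[𝓝 x] fun _ => c) :
    bF u x = 0 := by
  have h1 : fderiv ℝ u x = 0 := by
    rw [h.fderiv_eq]
    simp
  simp [bF, pd, h1]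

theorem SF1_of_locally_const {u : X3 → H} {x : X3} {c : H} (h : u =ᶠ[𝓝 x] fun _ => c) :
    SF1 u x = 0 := by
  simp [SF1, Sraw1, tau1, bF_of_locally_const h, J2]

theorem SF2_of_locally_const {u : X3 → H} {x : X3} {c : H} (h : u =ᶠ[𝓝 x] fun _ => c) :
    SF2 u x = 0 := by
  simp [SF2, Sraw2, tau2, bF_of_locally_const h, J1]

/-- The equation of theorem AT, for `t ≥ 0`. -/
theorem SF_eqn {u : X3 → H} {x : X3} (ht : 0 ≤ x 2) (hA0 : ‖pd u 0 x‖ ≤ 1 / 10)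
    (hA1 : ‖pd u 1 x‖ ≤ 1 / 10) (hz : u x = 0 → fderiv ℝ u x = 0) :
    ∃ b : H, SF1 u x (u x) = J2 b ∧ SF2 u x (u x) = -J1 b ∧
      (1 - om3 (pd u 0 x) (pd u 1 x)) • (pd u 2 x - b)
        = J2 (pd u 0 x) - J1 (pd u 1 x) + om1 (pd u 0 x) (pd u 1 x) • pd u 0 x
          + om2 (pd u 0 x) (pd u 1 x) • pd u 1 x := by
  by_cases h0 : u x = 0
  · exact AT_point_zero h0 (hz h0) _ _
  · refine AT_point (om3_ne_one hA0 hA1) ?_ ?_
    · rw [SF1, PsiC_of_nonneg ht, one_smul, Sraw1_self h0]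
    · rw [SF2, PsiC_of_nonneg ht, one_smul, Sraw2_self h0]

section family

variable {ι : Type*} {S0 : ι → ℝ} {u : ι → X3 → H} {w : ι × ℕ → X3 → ℝ}

/-- **Smoothness and smallness of `S_1`, `S_2`** from the local picture (a) - (e). -/
theorem SF_final (hS0 : ∀ i, 1 ≤ S0 i) (hzero : ∀ i, ∀ x ∈ EX, u i x = 0)
    (ha : MFam (ι := ι × ℕ) (fun p => OO p.2) (fun p _ => QQ (S0 p.1) p.2) w (fun p => u p.1))
    (hw : ∀ p : ι × ℕ, ∀ x ∈ OO p.2, 0 < w p x) {C' : ℕ}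
    (hb : ∀ p : ι × ℕ, ∀ x ∈ OO p.2, w p x ≤ C' * QQ (S0 p.1) p.2 ^ C' * ‖u p.1 x‖)
    (hc : MFam (ι := ι × ℕ) (fun p => OO p.2) (fun p _ => QQ (S0 p.1) p.2)
      (fun p x => ew (S0 p.1) p.2 * w p x) (fun p x => dirac (u p.1) x)) {C : ℕ}
    (hd : ∀ p : ι × ℕ, ∀ x ∈ OO p.2, w p x * w p x ≤
      C * QQ (S0 p.1) p.2 ^ C * ew (S0 p.1) p.2)
    (he : ∀ p : ι × ℕ, ∀ x ∈ OO p.2, ‖pd (u p.1) 0 x‖ ≤ 1 / 10 ∧ ‖pd (u p.1) 1 x‖ ≤ 1 / 10) :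
    (∀ i, ContDiff ℝ ∞ (SF1 (u i))) ∧ (∀ i, ContDiff ℝ ∞ (SF2 (u i))) ∧
    ∀ ε : ℝ, 0 < ε → ∃ S1 : ℝ, ∀ i, S1 ≤ S0 i → ∀ x, ‖SF1 (u i) x‖ ≤ ε ∧
      ‖fderiv ℝ (SF1 (u i)) x‖ ≤ ε ∧ ‖SF2 (u i) x‖ ≤ ε ∧ ‖fderiv ℝ (SF2 (u i)) x‖ ≤ ε := by
  have hpos : ∀ i, 0 < S0 i := fun i => by have := hS0 i; linarith
  have e1 : ∀ p : ι × ℕ, ∀ x ∈ OO p.2, ew (S0 p.1) p.2 ≤ 1 := fun p x _ => ew_le_one (hpos _) _
  have e0 : ∀ p : ι × ℕ, ∀ x ∈ OO p.2, 0 ≤ ew (S0 p.1) p.2 := fun p x _ => (ew_pos _ _).le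
  have m1 := mfam_Sraw1 (ι := ι × ℕ) (O := fun p => OO p.2) (M := fun p _ => QQ (S0 p.1) p.2)
    (w := w) (e := fun p _ => ew (S0 p.1) p.2) (u := fun p => u p.1) (C := C) (C' := C')
    ha hc e1 e0 hd he hw hb
  have m2 := mfam_Sraw2 (ι := ι × ℕ) (O := fun p => OO p.2) (M := fun p _ => QQ (S0 p.1) p.2)
    (w := w) (e := fun p _ => ew (S0 p.1) p.2) (u := fun p => u p.1) (C := C) (C' := C')
    ha hc e1 e0 hd he hw hb
  obtain ⟨a1, b1⟩ := S_final psiLocBound hS0 (Sr := fun i => Sraw1 (u i))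
    (fun i x hx => Sraw1_of_zero (hzero i x hx)) m1
  obtain ⟨a2, b2⟩ := S_final psiLocBound hS0 (Sr := fun i => Sraw2 (u i))
    (fun i x hx => Sraw2_of_zero (hzero i x hx)) m2
  refine ⟨a1, a2, fun ε hε => ?_⟩
  obtain ⟨s1, h1⟩ := b1 ε hε
  obtain ⟨s2, h2⟩ := b2 ε hε
  refine ⟨max s1 s2, fun i hi x => ?_⟩
  have g1 := h1 i ((le_max_left _ _).trans hi) x
  have g2 := h2 i ((le_max_right _ _).trans hi) x
  exact ⟨g1.1, g1.2, g2.1, g2.2⟩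

end family

end Pool.Agent.BSS
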