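import Pool.Agent.BSS.AT
import Pool.Agent.BSS.SFinal
import Pool.Agent.BSS.LMod2
import Pool.Agent.BSS.NoCanApp
import Pool.Agent.BSS.Glob

/-!
# Theorem AT from the local picture and the bounds of the terms
-/

set_option autoImplicit false

open MeasureTheory Set Filter Topology
open scoped ContDiff

set_option maxSynthPendingDepth 3

namespace Pool.Agent.BSS

/-- The local picture for all good data with large `S0`. -/
def LocPicStatement (C₁ : ℕ) : Prop :=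
  ∃ S1 : ℝ, 1 ≤ S1 ∧ ∀ (ι : Type) (S0 : ι → ℝ) (q : ι → ℕ → (Fin 2 → ℤ) → H),
    (∀ i, S1 ≤ S0 i) → (∀ i k m, 1 ≤ ‖q i k m‖ ∧ ‖q i k m‖ ≤ 2) →
    (∀ i, GoodQ C₁ (S0 i) (q i)) → LM.LocPic S0 q

theorem at_of_parts (hT : TermBound) (hs : TermSmooth) (hL : ∀ C₁ : ℕ, LocPicStatement C₁) :
    ATStatement := by
  obtain ⟨C₁, hC₁⟩ := exists_coeffs
  obtain ⟨S1, h1, hpic⟩ := hL C₁
  let ι₀ : Type := {p : ℝ × (ℕ → (Fin 2 → ℤ) → H) // S1 ≤ p.1 ∧
    (∀ k m, 1 ≤ ‖p.2 k m‖ ∧ ‖p.2 k m‖ ≤ 2) ∧ GoodQ C₁ p.1 p.2}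
  have pic0 : LM.LocPic (fun i : ι₀ => i.1.1) (fun i : ι₀ => i.1.2) :=
    hpic ι₀ _ _ (fun i => i.2.1) (fun i => i.2.2.1) (fun i => i.2.2.2)
  obtain ⟨S2, h2, hpd⟩ := pic0.small_pd
  let ι : Type := {i : ι₀ // S2 ≤ i.1.1}
  let S0 : ι → ℝ := fun i => i.1.1.1
  let q : ι → ℕ → (Fin 2 → ℤ) → H := fun i => i.1.1.2
  have pic : LM.LocPic S0 q := pic0.reindex (fun i : ι => i.1)
  have hone : ∀ i, 1 ≤ S0 i := pic.one_le
  have hq : ∀ i k m, ‖q i k m‖ ≤ 2 := fun i k m => (i.1.2.2.1 k m).2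
  have he : ∀ i : ι, ∀ k, ∀ x ∈ OO k, ∀ j, ‖pd (uu (S0 i) (q i)) j x‖ ≤ 1 / 10 :=
    fun i k x hx j => hpd i.1 i.2 k x hx j
  obtain ⟨C', hb⟩ := pic.b
  obtain ⟨f1, f2, f3⟩ := SF_final (ι := ι) (S0 := S0) (u := fun i => uu (S0 i) (q i))
    (w := fun p x => LM.mm (S0 p.1) p.2 x) hone
    (fun i x hx => LM.uu_of_EX (S0 i) (q i) hx) pic.a (fun p x hx => LM.mm_pos hx) (C' := C') hb
    pic.c (C := 16) (fun p x hx => LM.mm_sq_le (hone p.1) hx)
    (fun p x hx => ⟨he p.1 p.2 x hx 0, he p.1 p.2 x hx 1⟩)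
  have I : ATInput ι :=
    { S0 := S0
      q := q
      ex := by
        intro S
        obtain ⟨q', hq', hg⟩ := hC₁ (max S (max S1 S2))
          (h1.trans ((le_max_left _ _).trans (le_max_right _ _)))
        exact ⟨⟨⟨(max S (max S1 S2), q'), (le_max_left _ _).trans (le_max_right _ _), hq', hg⟩,
          (le_max_right _ _).trans (le_max_right _ _)⟩, le_max_left _ _⟩
      q_ne := by
        intro i h
        have h3 := (i.1.2.2.1 0 0).1
        have h4 : i.1.1.2 0 0 = 0 := h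
        rw [h4, norm_zero] at h3
        linarith
      smooth := fun i => contDiff_uu_of hT hs (hone i) (hq i)
      zero := fun i x hx => pic.zero_iff i x hx
      flat := fun i x hx => fderiv_uu_of_EX hT hs (hone i) (hq i) hx
      small := by
        intro ε hε
        obtain ⟨S, _, h4⟩ := small_uu_of hT hs ε hε
        exact ⟨S, fun i hi x => h4 (S0 i) hi (q i) (hq i) x⟩
      out := fun i x hx => LM.uu_out (S0 i) (q i) hx
      sm1 := f1
      sm2 := f2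
      small1 := by
        intro ε hε
        obtain ⟨S, h4⟩ := f3 ε hε
        exact ⟨S, fun i hi x => ⟨(h4 i hi x).1, (h4 i hi x).2.1⟩⟩
      small2 := by
        intro ε hε
        obtain ⟨S, h4⟩ := f3 ε hε
        exact ⟨S, fun i hi x => ⟨(h4 i hi x).2.2.1, (h4 i hi x).2.2.2⟩⟩ }
  exact I.statement

end Pool.Agent.BSS
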