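import Pool.Agent.BSS.Base
import Pool.Agent.BSS.NoCancel2

/-!
# MP_bff03b_an, module A4 (section 10): no cancellation

The right factors `q` of the waves can be chosen so that on every pair of consecutive levels the
sum of the waves is nowhere much smaller than the largest wave. Fraction counting version: the
hypotheses for different levels are independent of each other.
-/

namespace Pool.Agent.BSS

open Finset

/-! ### Greedy choice along levels -/

/-- Greedy choice: if for every `k` the proportion of the bad pairs in `Ω k × Ω (k+1)` is at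
most `1/16`, one can choose all the `ω k` such that no consecutive pair is bad. -/
theorem ch_greedy (Ω : ℕ → Type) [∀ k, Fintype (Ω k)] [∀ k, Nonempty (Ω k)]
    (B : ∀ k, Ω k → Ω (k + 1) → Prop)
    (hB : ∀ k, 16 * Nat.card {p : Ω k × Ω (k + 1) // B k p.1 p.2} ≤
      Fintype.card (Ω k) * Fintype.card (Ω (k + 1))) :
    ∃ ω : ∀ k, Ω k, ∀ k, ¬ B k (ω k) (ω (k + 1)) := by
  classical
  let good : ∀ k, Ω k → Prop := fun k w =>
    2 * (univ.filter (fun w' : Ω (k + 1) => B k w w')).card ≤ Fintype.card (Ω (k + 1))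
  have hbad : ∀ k, 8 * (univ.filter (fun w : Ω k => ¬ good k w)).card ≤ Fintype.card (Ω k) := by
    intro k
    have h1 : Nat.card {p : Ω k × Ω (k + 1) // B k p.1 p.2} =
        ∑ w : Ω k, (univ.filter (fun w' : Ω (k + 1) => B k w w')).card := by
      rw [Nat.card_eq_fintype_card, Fintype.card_subtype, Finset.card_filter,
        Fintype.sum_prod_type]
      simp only [Finset.card_filter]
    have h2 := hB k
    rw [h1] at h2
    set c := Fintype.card (Ω (k + 1)) with hc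
    have hcpos : 0 < c := Fintype.card_pos
    have h3 : (univ.filter (fun w : Ω k => ¬ good k w)).card * c ≤
        2 * ∑ w : Ω k, (univ.filter (fun w' : Ω (k + 1) => B k w w')).card := by
      rw [Finset.mul_sum, Finset.card_eq_sum_ones, Finset.sum_mul]
      refine le_trans (Finset.sum_le_sum (g := fun w : Ω k =>
        2 * (univ.filter (fun w' : Ω (k + 1) => B k w w')).card) ?_) ?_
      · intro w hw
        simp only [mem_filter, mem_univ, true_and, good, not_le] at hw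
        rw [one_mul]
        exact hw.le
      · exact Finset.sum_le_sum_of_subset (Finset.filter_subset _ _)
    have h4 : 8 * (univ.filter (fun w : Ω k => ¬ good k w)).card * c ≤
        Fintype.card (Ω k) * c := by nlinarith
    exact Nat.le_of_mul_le_mul_right h4 hcpos
  have hex : ∀ k, ∃ w : Ω k, good k w := by
    intro k
    by_contra hcon
    push Not at hcon
    have h1 := hbad k
    rw [Finset.filter_true_of_mem (fun w _ => hcon w)] at h1
    rw [Finset.card_univ] at h1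
    have : 0 < Fintype.card (Ω k) := Fintype.card_pos
    omega
  have hstep : ∀ k, ∀ w : Ω k, good k w → ∃ w' : Ω (k + 1), ¬ B k w w' ∧ good (k + 1) w' := by
    intro k w hw
    by_contra hcon
    push Not at hcon
    have hcov : (univ : Finset (Ω (k + 1))) ⊆
        univ.filter (fun w' : Ω (k + 1) => B k w w') ∪
          univ.filter (fun w' : Ω (k + 1) => ¬ good (k + 1) w') := by
      intro w' _
      simp only [mem_union, mem_filter, mem_univ, true_and]
      by_cases h : B k w w'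
      · exact Or.inl h
      · exact Or.inr (hcon w' h)
    have h1 := Finset.card_le_card hcov
    have h2 := le_trans h1 (Finset.card_union_le _ _)
    rw [Finset.card_univ] at h2
    have h3 := hbad (k + 1)
    have h4 : 2 * (univ.filter (fun w' : Ω (k + 1) => B k w w')).card ≤
      Fintype.card (Ω (k + 1)) := hw
    have : 0 < Fintype.card (Ω (k + 1)) := Fintype.card_pos
    omega
  choose w0 hw0 using hex
  let seq : ∀ k, {w : Ω k // good k w} := fun k => Nat.rec ⟨w0 0, hw0 0⟩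
    (fun k w => ⟨(hstep k w.1 w.2).choose, (hstep k w.1 w.2).choose_spec.2⟩) k
  refine ⟨fun k => (seq k).1, fun k => ?_⟩
  exact (hstep k (seq k).1 (seq k).2).choose_spec.1

/-! ### Counting in one coordinate -/

/-- If, whatever the other coordinates are, the proportion of the values of the coordinate `a`
which satisfy `P` is at most `ε`, then the proportion of `P` is at most `ε`. -/
theorem ch_count_coord {ι γ : Type} [Fintype ι] [DecidableEq ι] [Fintype γ] [Nonempty γ]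
    (a : ι) (P : (ι → γ) → Prop) (ε : ℝ)
    (h : ∀ w : ι → γ, (Nat.card {g : γ // P (Function.update w a g)} : ℝ) ≤
      ε * Fintype.card γ) :
    (Nat.card {w : ι → γ // P w} : ℝ) ≤ ε * Fintype.card (ι → γ) := by
  classical
  let e : (ι → γ) × γ ≃ (ι → γ) × γ :=
    { toFun := fun p => (Function.update p.1 a p.2, p.1 a)
      invFun := fun p => (Function.update p.1 a p.2, p.1 a)
      left_inv := fun p => by
        ext i
        · simp
        · simp
      right_inv := fun p => by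
        ext i
        · simp
        · simp }
  have h1 : (∑ p : (ι → γ) × γ, if P (Function.update p.1 a p.2) then (1 : ℝ) else 0) =
      ∑ p : (ι → γ) × γ, if P p.1 then (1 : ℝ) else 0 :=
    Fintype.sum_equiv e _ _ (fun p => rfl)
  have h2 : (∑ p : (ι → γ) × γ, if P p.1 then (1 : ℝ) else 0) =
      Fintype.card γ * (Nat.card {w : ι → γ // P w} : ℝ) := by
    rw [Fintype.sum_prod_type]
    have hc : ∀ w : ι → γ, (∑ _g : γ, if P w then (1 : ℝ) else 0) =
        Fintype.card γ * (if P w then (1 : ℝ) else 0) := by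
      intro w
      rw [Finset.sum_const, Finset.card_univ, nsmul_eq_mul]
    rw [Finset.sum_congr rfl (fun w _ => hc w), ← Finset.mul_sum, Nat.card_eq_fintype_card,
      Fintype.card_subtype, Finset.card_filter]
    push_cast
    rfl
  have h3 : (∑ p : (ι → γ) × γ, if P (Function.update p.1 a p.2) then (1 : ℝ) else 0) ≤
      Fintype.card (ι → γ) * (ε * Fintype.card γ) := by
    rw [Fintype.sum_prod_type]
    calc (∑ w : ι → γ, ∑ g : γ, if P (Function.update w a g) then (1 : ℝ) else 0)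
        ≤ ∑ _w : ι → γ, ε * Fintype.card γ := by
          refine Finset.sum_le_sum (fun w _ => ?_)
          have := h w
          rw [Nat.card_eq_fintype_card, Fintype.card_subtype] at this
          simpa using this
      _ = Fintype.card (ι → γ) * (ε * Fintype.card γ) := by
          simp
  have hpos : (0 : ℝ) < Fintype.card γ := by exact_mod_cast Fintype.card_pos
  rw [h1, h2] at h3
  have h4 : (Fintype.card γ : ℝ) * (Nat.card {w : ι → γ // P w} : ℝ) ≤
      Fintype.card γ * (ε * Fintype.card (ι → γ)) := by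
    calc _ ≤ _ := h3
      _ = _ := by ring
  exact le_of_mul_le_mul_left h4 hpos

/-- The same count on a product, first factor. -/
theorem ch_count_fst {Ω Ω' : Type} [Fintype Ω] [Fintype Ω'] (P : Ω → Ω' → Prop) (ε : ℝ)
    (h : ∀ w', (Nat.card {w : Ω // P w w'} : ℝ) ≤ ε * Fintype.card Ω) :
    (Nat.card {p : Ω × Ω' // P p.1 p.2} : ℝ) ≤ ε * (Fintype.card Ω * Fintype.card Ω') := by
  classical
  rw [Nat.card_eq_fintype_card, Fintype.card_subtype, Finset.card_filter,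
    Fintype.sum_prod_type_right]
  push_cast
  calc (∑ w' : Ω', ∑ w : Ω, if P w w' then (1 : ℝ) else 0)
      ≤ ∑ _w' : Ω', ε * Fintype.card Ω := by
        refine Finset.sum_le_sum (fun w' _ => ?_)
        have := h w'
        rw [Nat.card_eq_fintype_card, Fintype.card_subtype, Finset.card_filter] at this
        push_cast at this
        exact this
    _ = ε * (Fintype.card Ω * Fintype.card Ω') := by
        rw [Finset.sum_const, Finset.card_univ, nsmul_eq_mul]
        ring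

/-- The same count on a product, second factor. -/
theorem ch_count_snd {Ω Ω' : Type} [Fintype Ω] [Fintype Ω'] (P : Ω → Ω' → Prop) (ε : ℝ)
    (h : ∀ w, (Nat.card {w' : Ω' // P w w'} : ℝ) ≤ ε * Fintype.card Ω') :
    (Nat.card {p : Ω × Ω' // P p.1 p.2} : ℝ) ≤ ε * (Fintype.card Ω * Fintype.card Ω') := by
  classical
  rw [Nat.card_eq_fintype_card, Fintype.card_subtype, Finset.card_filter,
    Fintype.sum_prod_type]
  push_cast
  calc (∑ w : Ω, ∑ w' : Ω', if P w w' then (1 : ℝ) else 0)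
      ≤ ∑ _w : Ω, ε * Fintype.card Ω' := by
        refine Finset.sum_le_sum (fun w _ => ?_)
        have := h w
        rw [Nat.card_eq_fintype_card, Fintype.card_subtype, Finset.card_filter] at this
        push_cast at this
        exact this
    _ = ε * (Fintype.card Ω * Fintype.card Ω') := by
        rw [Finset.sum_const, Finset.card_univ, nsmul_eq_mul]
        ring

/-! ### A grid of quaternions -/

/-- The grid of quaternions `(1 + i₀/(2n), i₁/(2n), i₂/(2n), i₃/(2n))`. -/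
noncomputable def chQ (n : ℕ) (i : Fin 4 → Fin n) : H :=
  ⟨1 + (i 0 : ℕ) / (2 * n), (i 1 : ℕ) / (2 * n), (i 2 : ℕ) / (2 * n), (i 3 : ℕ) / (2 * n)⟩

theorem ch_normSq (q : H) : ‖q‖ ^ 2 = q.re ^ 2 + q.imI ^ 2 + q.imJ ^ 2 + q.imK ^ 2 := by
  rw [sq, ← Quaternion.normSq_eq_norm_mul_self, Quaternion.normSq_def']

theorem ch_frac (n : ℕ) (i : Fin n) :
    0 ≤ ((i : ℕ) : ℝ) / (2 * n) ∧ ((i : ℕ) : ℝ) / (2 * n) ≤ 1 / 2 := by
  have hn : (0 : ℝ) < n := by
    have := i.pos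
    exact_mod_cast this
  have h : ((i : ℕ) : ℝ) ≤ n := by exact_mod_cast i.2.le
  constructor
  · positivity
  · rw [div_le_div_iff₀ (by positivity) (by norm_num)]
    linarith

theorem chQ_norm (n : ℕ) (i : Fin 4 → Fin n) : 1 ≤ ‖chQ n i‖ ∧ ‖chQ n i‖ ≤ 2 := by
  have h := ch_normSq (chQ n i)
  simp only [chQ] at h
  obtain ⟨h0, h0'⟩ := ch_frac n (i 0)
  obtain ⟨h1, h1'⟩ := ch_frac n (i 1)
  obtain ⟨h2, h2'⟩ := ch_frac n (i 2)
  obtain ⟨h3, h3'⟩ := ch_frac n (i 3)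
  have hn := norm_nonneg (chQ n i)
  constructor
  · refine le_of_sq_le_sq ?_ hn
    simp only [chQ]
    rw [h]
    nlinarith
  · refine le_of_sq_le_sq ?_ (by norm_num)
    simp only [chQ]
    rw [h]
    nlinarith

theorem ch_coord_le (q : H) :
    |q.re| ≤ ‖q‖ ∧ |q.imI| ≤ ‖q‖ ∧ |q.imJ| ≤ ‖q‖ ∧ |q.imK| ≤ ‖q‖ := by
  have h := ch_normSq q
  have hn := norm_nonneg q
  refine ⟨?_, ?_, ?_, ?_⟩ <;>
  · refine abs_le_of_sq_le_sq ?_ hn
    nlinarith [sq_nonneg q.re, sq_nonneg q.imI, sq_nonneg q.imJ, sq_nonneg q.imK]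

/-- Few integers `m < n` have `m/(2n)` in an interval of radius `r`. -/
theorem ch_count_one (n : ℕ) (c r : ℝ) (hn : 0 < n) (hr : 1 ≤ n * r) :
    (Nat.card {m : Fin n // |((m : ℕ) : ℝ) / (2 * n) - c| < r} : ℝ) ≤ 5 * r * n := by
  classical
  have hn' : (0 : ℝ) < n := by exact_mod_cast hn
  set lo : ℤ := ⌊2 * n * (c - r)⌋ + 1 with hlo
  set hi : ℤ := ⌈2 * n * (c + r)⌉ - 1 with hhi
  have hinj : Nat.card {m : Fin n // |((m : ℕ) : ℝ) / (2 * n) - c| < r} ≤
      (Finset.Icc lo hi).card := by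
    rw [Nat.card_eq_fintype_card, Fintype.card_subtype]
    refine Finset.card_le_card_of_injOn (fun m : Fin n => ((m : ℕ) : ℤ)) ?_ ?_
    · intro m hm
      have hm' : |((m : ℕ) : ℝ) / (2 * n) - c| < r := by simpa using hm
      rw [abs_lt] at hm'
      obtain ⟨h1, h2⟩ := hm'
      have h3 : 2 * n * (c - r) < (m : ℕ) := by
        have : c - r < ((m : ℕ) : ℝ) / (2 * n) := by linarith
        rw [lt_div_iff₀ (by positivity)] at this
        linarith
      have h4 : ((m : ℕ) : ℝ) < 2 * n * (c + r) := by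
        have : ((m : ℕ) : ℝ) / (2 * n) < c + r := by linarith
        rw [div_lt_iff₀ (by positivity)] at this
        linarith
      simp only [Finset.coe_Icc, Set.mem_Icc, hlo, hhi]
      constructor
      · have : ⌊2 * n * (c - r)⌋ < ((m : ℕ) : ℤ) := by
          rw [Int.floor_lt]
          exact_mod_cast h3
        omega
      · have : ((m : ℕ) : ℤ) < ⌈2 * n * (c + r)⌉ := by
          rw [Int.lt_ceil]
          exact_mod_cast h4
        omega
    · intro m _ m' _ hmm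
      simp only at hmm
      exact Fin.ext (by exact_mod_cast hmm)
  have hcard : ((Finset.Icc lo hi).card : ℝ) ≤ 5 * r * n := by
    rw [Int.card_Icc]
    have h1 : (2 * n * (c - r) : ℝ) - 1 < ⌊2 * n * (c - r)⌋ := Int.sub_one_lt_floor _
    have h2 : (⌈2 * n * (c + r)⌉ : ℝ) < 2 * n * (c + r) + 1 := Int.ceil_lt_add_one _
    have h3 : ((hi + 1 - lo : ℤ) : ℝ) ≤ 5 * r * n := by
      rw [hlo, hhi]
      push_cast
      nlinarith
    have hpos : (0 : ℝ) ≤ 5 * r * n := by nlinarith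
    rcases le_or_gt 0 (hi + 1 - lo) with h | h
    · rw [← Int.cast_natCast, Int.toNat_of_nonneg h]
      exact h3
    · rw [Int.toNat_of_nonpos h.le]
      simpa using hpos
  calc _ ≤ ((Finset.Icc lo hi).card : ℝ) := by exact_mod_cast hinj
    _ ≤ _ := hcard

/-- The proportion of the grid in a ball of radius `r ≥ 1/n` is at most `(5 r)^4`. -/
theorem ch_count_ball (n : ℕ) (p : H) (r : ℝ) (hn : 0 < n) (hr : 1 ≤ n * r) :
    (Nat.card {i : Fin 4 → Fin n // ‖chQ n i - p‖ < r} : ℝ) ≤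
      (5 * r) ^ 4 * Fintype.card (Fin 4 → Fin n) := by
  classical
  let c : Fin 4 → ℝ := ![p.re - 1, p.imI, p.imJ, p.imK]
  let S : Fin 4 → Finset (Fin n) := fun j => univ.filter (fun m : Fin n =>
    |((m : ℕ) : ℝ) / (2 * n) - c j| < r)
  have hS : ∀ j, ((S j).card : ℝ) ≤ 5 * r * n := by
    intro j
    have := ch_count_one n (c j) r hn hr
    rw [Nat.card_eq_fintype_card, Fintype.card_subtype] at this
    exact this
  have hsub : Nat.card {i : Fin 4 → Fin n // ‖chQ n i - p‖ < r} ≤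
      (Fintype.piFinset S).card := by
    rw [Nat.card_eq_fintype_card, Fintype.card_subtype]
    refine Finset.card_le_card ?_
    intro i hi
    simp only [mem_filter, mem_univ, true_and] at hi
    obtain ⟨h0, h1, h2, h3⟩ := ch_coord_le (chQ n i - p)
    rw [Fintype.mem_piFinset]
    intro j
    simp only [S, mem_filter, mem_univ, true_and]
    fin_cases j
    · refine lt_of_le_of_lt ?_ hi
      refine le_trans (le_of_eq ?_) h0
      rw [Quaternion.re_sub]
      congr 1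
      simp only [chQ, c, Fin.zero_eta, Matrix.cons_val_zero]
      ring
    · refine lt_of_le_of_lt ?_ hi
      refine le_trans (le_of_eq ?_) h1
      rw [Quaternion.imI_sub]
      rfl
    · refine lt_of_le_of_lt ?_ hi
      refine le_trans (le_of_eq ?_) h2
      rw [Quaternion.imJ_sub]
      rfl
    · refine lt_of_le_of_lt ?_ hi
      refine le_trans (le_of_eq ?_) h3
      rw [Quaternion.imK_sub]
      rfl
  have hcard : ((Fintype.piFinset S).card : ℝ) ≤ (5 * r * n) ^ 4 := by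
    rw [Fintype.card_piFinset]
    push_cast
    rw [Fin.prod_univ_four]
    have hpos : ∀ j, (0 : ℝ) ≤ ((S j).card : ℝ) := fun j => by positivity
    have hb : (0 : ℝ) ≤ 5 * r * n := le_trans (hpos 0) (hS 0)
    calc ((S 0).card : ℝ) * (S 1).card * (S 2).card * (S 3).card
        ≤ (5 * r * n) * (5 * r * n) * (5 * r * n) * (5 * r * n) := by
          gcongr
          · exact hS 0
          · exact hS 1
          · exact hS 2
          · exact hS 3
      _ = (5 * r * n) ^ 4 := by ring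
  have htot : (Fintype.card (Fin 4 → Fin n) : ℝ) = (n : ℝ) ^ 4 := by
    simp
  rw [htot]
  calc (Nat.card {i : Fin 4 → Fin n // ‖chQ n i - p‖ < r} : ℝ)
      ≤ ((Fintype.piFinset S).card : ℝ) := by exact_mod_cast hsub
    _ ≤ (5 * r * n) ^ 4 := hcard
    _ = (5 * r) ^ 4 * (n : ℝ) ^ 4 := by ring

/-- For one wave `v ≠ 0` and a fixed rest `c`, few grid values `q` make `|c + v q|` small. -/
theorem ch_count_wave (n : ℕ) (v c : H) (r : ℝ) (hn : 0 < n) (hr : 1 ≤ n * r) (hv : v ≠ 0) :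
    (Nat.card {i : Fin 4 → Fin n // ‖c + v * chQ n i‖ < r * ‖v‖} : ℝ) ≤
      (5 * r) ^ 4 * Fintype.card (Fin 4 → Fin n) := by
  classical
  refine le_trans ?_ (ch_count_ball n (-(v⁻¹ * c)) r hn hr)
  have hsub : ∀ i : Fin 4 → Fin n, ‖c + v * chQ n i‖ < r * ‖v‖ →
      ‖chQ n i - -(v⁻¹ * c)‖ < r := by
    intro i hi
    have h1 : c + v * chQ n i = v * (chQ n i - -(v⁻¹ * c)) := by
      rw [sub_neg_eq_add, mul_add, ← mul_assoc, mul_inv_cancel₀ hv, one_mul, add_comm]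
    rw [h1, norm_mul, mul_comm] at hi
    exact lt_of_mul_lt_mul_right hi (norm_nonneg v)
  have := Nat.card_le_card_of_injective
    (fun i : {i : Fin 4 → Fin n // ‖c + v * chQ n i‖ < r * ‖v‖} =>
      (⟨i.1, hsub i.1 i.2⟩ : {i : Fin 4 → Fin n // ‖chQ n i - -(v⁻¹ * c)‖ < r}))
    (fun i j hij => by
      have := congrArg Subtype.val hij
      exact Subtype.ext this)
  exact_mod_cast this

/-- One free coordinate of a level: the proportion of the choices for which the sum of the level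
plus a fixed rest is small compared with the wave `a` is at most `(5 r)^4`. -/
theorem ch_level {ι : Type} [Fintype ι] [DecidableEq ι] (n : ℕ) (v : ι → H) (c : H) (a : ι)
    (r : ℝ) (hn : 0 < n) (hr : 1 ≤ n * r) :
    (Nat.card {w : ι → (Fin 4 → Fin n) // ‖c + ∑ b, v b * chQ n (w b)‖ < r * ‖v a‖} : ℝ) ≤
      (5 * r) ^ 4 * Fintype.card (ι → (Fin 4 → Fin n)) := by
  classical
  have : Nonempty (Fin 4 → Fin n) := ⟨fun _ => ⟨0, hn⟩⟩
  refine ch_count_coord a (fun w => ‖c + ∑ b, v b * chQ n (w b)‖ < r * ‖v a‖) _ ?_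
  intro w
  by_cases hv : v a = 0
  · have hemp : IsEmpty {g : Fin 4 → Fin n //
        ‖c + ∑ b, v b * chQ n (Function.update w a g b)‖ < r * ‖v a‖} := by
      refine ⟨fun g => ?_⟩
      obtain ⟨g, hg⟩ := g
      have h0 : r * ‖v a‖ = 0 := by rw [hv, norm_zero, mul_zero]
      exact absurd (lt_of_lt_of_le hg h0.le) (not_lt.2 (norm_nonneg _))
    rw [Nat.card_of_isEmpty]
    push_cast
    positivity
  · have key : ∀ g : Fin 4 → Fin n, c + ∑ b, v b * chQ n (Function.update w a g b) =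
        (c + ∑ b ∈ univ.erase a, v b * chQ n (w b)) + v a * chQ n g := by
      intro g
      rw [← Finset.sum_erase_add univ _ (mem_univ a), Function.update_self, add_assoc]
      congr 2
      refine Finset.sum_congr rfl (fun b hb => ?_)
      rw [Function.update_of_ne (Finset.ne_of_mem_erase hb)]
    simp only [key]
    exact ch_count_wave n (v a) _ r hn hr hv

/-- Union bound. -/
theorem ch_union {Ω X : Type} [Fintype Ω] (N : Finset X) (P : X → Ω → Prop) (C : ℝ)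
    (h : ∀ y ∈ N, (Nat.card {w : Ω // P y w} : ℝ) ≤ C) :
    (Nat.card {w : Ω // ∃ y ∈ N, P y w} : ℝ) ≤ N.card * C := by
  classical
  have h1 : Nat.card {w : Ω // ∃ y ∈ N, P y w} ≤
      ∑ y ∈ N, Nat.card {w : Ω // P y w} := by
    rw [Nat.card_eq_fintype_card, Fintype.card_subtype]
    have hs : (univ.filter (fun w : Ω => ∃ y ∈ N, P y w)) ⊆
        N.biUnion (fun y => univ.filter (fun w : Ω => P y w)) := by
      intro w hw
      simp only [mem_filter, mem_univ, true_and] at hw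
      simp only [mem_biUnion, mem_filter, mem_univ, true_and]
      exact hw
    refine le_trans (Finset.card_le_card hs) (le_trans Finset.card_biUnion_le ?_)
    refine Finset.sum_le_sum (fun y _ => ?_)
    rw [Nat.card_eq_fintype_card, Fintype.card_subtype]
  calc (Nat.card {w : Ω // ∃ y ∈ N, P y w} : ℝ)
      ≤ ((∑ y ∈ N, Nat.card {w : Ω // P y w} : ℕ) : ℝ) := by exact_mod_cast h1
    _ = ∑ y ∈ N, (Nat.card {w : Ω // P y w} : ℝ) := by push_cast; rfl
    _ ≤ ∑ _y ∈ N, C := Finset.sum_le_sum h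
    _ = N.card * C := by rw [Finset.sum_const, nsmul_eq_mul]

theorem ch_or {Ω : Type} [Fintype Ω] (P Q : Ω → Prop) (C D : ℝ)
    (h : (Nat.card {w : Ω // P w} : ℝ) ≤ C) (h' : (Nat.card {w : Ω // Q w} : ℝ) ≤ D) :
    (Nat.card {w : Ω // P w ∨ Q w} : ℝ) ≤ C + D := by
  classical
  have h1 : Nat.card {w : Ω // P w ∨ Q w} ≤ Nat.card {w : Ω // P w} + Nat.card {w : Ω // Q w} := by
    rw [Nat.card_eq_fintype_card, Nat.card_eq_fintype_card, Nat.card_eq_fintype_card,
      Fintype.card_subtype, Fintype.card_subtype, Fintype.card_subtype, Finset.filter_or]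
    exact Finset.card_union_le _ _
  have h2 : (Nat.card {w : Ω // P w ∨ Q w} : ℝ) ≤
      (Nat.card {w : Ω // P w} : ℝ) + (Nat.card {w : Ω // Q w} : ℝ) := by exact_mod_cast h1
  linarith

theorem ch_mono {Ω : Type} [Fintype Ω] (P Q : Ω → Prop) (h : ∀ w, P w → Q w) :
    (Nat.card {w : Ω // P w} : ℝ) ≤ (Nat.card {w : Ω // Q w} : ℝ) := by
  have := Nat.card_le_card_of_injective
    (fun w : {w : Ω // P w} => (⟨w.1, h w.1 w.2⟩ : {w : Ω // Q w}))
    (fun i j hij => by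
      have := congrArg Subtype.val hij
      exact Subtype.ext this)
  exact_mod_cast this

/-- The pairs of choices which are bad at one point of the net. -/
theorem ch_pair {ι κ : Type} [Fintype ι] [DecidableEq ι] [Fintype κ] [DecidableEq κ]
    (n m : ℕ) (v : ι → H) (u : κ → H) (r : ℝ) (hn : 0 < n) (hm : 0 < m) (hr : 1 ≤ n * r)
    (hr' : 1 ≤ m * r) :
    (Nat.card {p : (ι → (Fin 4 → Fin n)) × (κ → (Fin 4 → Fin m)) //
      (((∃ a, ‖(∑ b, v b * chQ n (p.1 b)) + ∑ b, u b * chQ m (p.2 b)‖ < r * ‖v a‖) ∨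
        ∃ a, ‖(∑ b, v b * chQ n (p.1 b)) + ∑ b, u b * chQ m (p.2 b)‖ < r * ‖u a‖) ∨
        ∃ a, ‖∑ b, u b * chQ m (p.2 b)‖ < r * ‖u a‖)} : ℝ) ≤
      2 * (5 * r) ^ 4 * (Fintype.card (ι → (Fin 4 → Fin n)) *
        Fintype.card (κ → (Fin 4 → Fin m))) := by
  classical
  set ε : ℝ := (5 * r) ^ 4 with hε
  have hε0 : 0 ≤ ε := by positivity
  have hr0 : 0 < r := by
    have hn' : (0 : ℝ) < n := by exact_mod_cast hn
    by_contra hc
    push Not at hc
    have : (n : ℝ) * r ≤ 0 := mul_nonpos_of_nonneg_of_nonpos hn'.le hc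
    linarith
  set T : ℝ := (Fintype.card (ι → (Fin 4 → Fin n)) : ℝ) * Fintype.card (κ → (Fin 4 → Fin m))
    with hT
  have hT0 : 0 ≤ T := by positivity
  -- the two basic counts
  have c1 : ∀ a : ι, (Nat.card {p : (ι → (Fin 4 → Fin n)) × (κ → (Fin 4 → Fin m)) //
      ‖(∑ b, v b * chQ n (p.1 b)) + ∑ b, u b * chQ m (p.2 b)‖ < r * ‖v a‖} : ℝ) ≤ ε * T := by
    intro a
    refine ch_count_fst (fun (w : ι → (Fin 4 → Fin n)) (w' : κ → (Fin 4 → Fin m)) =>
      ‖(∑ b, v b * chQ n (w b)) + ∑ b, u b * chQ m (w' b)‖ < r * ‖v a‖) ε ?_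
    intro w'
    refine le_trans (ch_mono _ _ ?_) (ch_level n v (∑ b, u b * chQ m (w' b)) a r hn hr)
    intro w hw
    rwa [add_comm] at hw
  have c2 : ∀ a : κ, (Nat.card {p : (ι → (Fin 4 → Fin n)) × (κ → (Fin 4 → Fin m)) //
      ‖(∑ b, v b * chQ n (p.1 b)) + ∑ b, u b * chQ m (p.2 b)‖ < r * ‖u a‖} : ℝ) ≤ ε * T := by
    intro a
    refine ch_count_snd (fun (w : ι → (Fin 4 → Fin n)) (w' : κ → (Fin 4 → Fin m)) =>
      ‖(∑ b, v b * chQ n (w b)) + ∑ b, u b * chQ m (w' b)‖ < r * ‖u a‖) ε ?_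
    intro w
    exact ch_level m u (∑ b, v b * chQ n (w b)) a r hm hr'
  have c3 : ∀ a : κ, (Nat.card {p : (ι → (Fin 4 → Fin n)) × (κ → (Fin 4 → Fin m)) //
      ‖∑ b, u b * chQ m (p.2 b)‖ < r * ‖u a‖} : ℝ) ≤ ε * T := by
    intro a
    refine ch_count_snd (fun (_w : ι → (Fin 4 → Fin n)) (w' : κ → (Fin 4 → Fin m)) =>
      ‖∑ b, u b * chQ m (w' b)‖ < r * ‖u a‖) ε ?_
    intro w
    refine le_trans (ch_mono _ _ ?_) (ch_level m u 0 a r hm hr')
    intro w hw
    rwa [zero_add]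
  have d1 : (Nat.card {p : (ι → (Fin 4 → Fin n)) × (κ → (Fin 4 → Fin m)) //
      (∃ a, ‖(∑ b, v b * chQ n (p.1 b)) + ∑ b, u b * chQ m (p.2 b)‖ < r * ‖v a‖) ∨
        ∃ a, ‖(∑ b, v b * chQ n (p.1 b)) + ∑ b, u b * chQ m (p.2 b)‖ < r * ‖u a‖} : ℝ) ≤
      ε * T := by
    by_cases hne : Nonempty (ι ⊕ κ)
    · let f : ι ⊕ κ → ℝ := Sum.elim (fun a => ‖v a‖) (fun a => ‖u a‖)
      obtain ⟨s, hs⟩ := Finite.exists_max f
      rcases s with a | a
      · refine le_trans (ch_mono _ _ ?_) (c1 a)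
        rintro p (⟨b, hb⟩ | ⟨b, hb⟩)
        · exact lt_of_lt_of_le hb (mul_le_mul_of_nonneg_left (hs (Sum.inl b)) hr0.le)
        · exact lt_of_lt_of_le hb (mul_le_mul_of_nonneg_left (hs (Sum.inr b)) hr0.le)
      · refine le_trans (ch_mono _ _ ?_) (c2 a)
        rintro p (⟨b, hb⟩ | ⟨b, hb⟩)
        · exact lt_of_lt_of_le hb (mul_le_mul_of_nonneg_left (hs (Sum.inl b)) hr0.le)
        · exact lt_of_lt_of_le hb (mul_le_mul_of_nonneg_left (hs (Sum.inr b)) hr0.le)
    · have hemp : IsEmpty {p : (ι → (Fin 4 → Fin n)) × (κ → (Fin 4 → Fin m)) //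
          (∃ a, ‖(∑ b, v b * chQ n (p.1 b)) + ∑ b, u b * chQ m (p.2 b)‖ < r * ‖v a‖) ∨
          ∃ a, ‖(∑ b, v b * chQ n (p.1 b)) + ∑ b, u b * chQ m (p.2 b)‖ < r * ‖u a‖} := by
        refine ⟨fun p => ?_⟩
        rcases p.2 with ⟨a, _⟩ | ⟨a, _⟩
        · exact hne ⟨Sum.inl a⟩
        · exact hne ⟨Sum.inr a⟩
      rw [Nat.card_of_isEmpty]
      push_cast
      positivity
  have d2 : (Nat.card {p : (ι → (Fin 4 → Fin n)) × (κ → (Fin 4 → Fin m)) //
      ∃ a, ‖∑ b, u b * chQ m (p.2 b)‖ < r * ‖u a‖} : ℝ) ≤ ε * T := by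
    by_cases hne : Nonempty κ
    · obtain ⟨a, ha⟩ := Finite.exists_max (fun a : κ => ‖u a‖)
      refine le_trans (ch_mono _ _ ?_) (c3 a)
      rintro p ⟨b, hb⟩
      exact lt_of_lt_of_le hb (mul_le_mul_of_nonneg_left (ha b) hr0.le)
    · have hemp : IsEmpty {p : (ι → (Fin 4 → Fin n)) × (κ → (Fin 4 → Fin m)) //
          ∃ a, ‖∑ b, u b * chQ m (p.2 b)‖ < r * ‖u a‖} := by
        refine ⟨fun p => ?_⟩
        obtain ⟨a, _⟩ := p.2
        exact hne ⟨a⟩
      rw [Nat.card_of_isEmpty]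
      push_cast
      positivity
  have := ch_or _ _ _ _ d1 d2
  refine le_trans this (le_of_eq ?_)
  ring

/-- The choice of the right factors on the nets, and the conclusion at all points which are close
to the net (relative accuracy `et k` for every single wave). -/
theorem exists_q {A : Type} (Z : ℕ → Finset A) (V : ℕ → A → X3 → H) (D : ℕ → Set X3)
    (N : ℕ → Finset X3) (th et : ℕ → ℝ) (hth : ∀ k, 0 < th k)
    (het : ∀ k, 0 ≤ et k ∧ et k ≤ 1 ∧ 2 * et k * ((Z k).card + (Z (k + 1)).card) ≤ th k)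
    (hN : ∀ k, 32 * (N k).card * (15 * th k) ^ 4 ≤ 1)
    (hnet : ∀ k, ∀ x ∈ D k, ∃ y ∈ N k,
      (∀ a ∈ Z k, ‖V k a x - V k a y‖ ≤ et k * ‖V k a y‖) ∧
      (∀ a ∈ Z (k + 1), ‖V (k + 1) a x - V (k + 1) a y‖ ≤ et k * ‖V (k + 1) a y‖)) :
    ∃ q : ℕ → A → H, (∀ k a, 1 ≤ ‖q k a‖ ∧ ‖q k a‖ ≤ 2) ∧ ∀ k, ∀ x ∈ D k,
      (∀ a ∈ Z k, th k * ‖V k a x‖ ≤
        ‖(∑ b ∈ Z k, V k b x * q k b) + ∑ b ∈ Z (k + 1), V (k + 1) b x * q (k + 1) b‖) ∧
      (∀ a ∈ Z (k + 1), th k * ‖V (k + 1) a x‖ ≤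
        ‖(∑ b ∈ Z k, V k b x * q k b) + ∑ b ∈ Z (k + 1), V (k + 1) b x * q (k + 1) b‖) ∧
      (∀ a ∈ Z (k + 1), th k * ‖V (k + 1) a x‖ ≤
        ‖∑ b ∈ Z (k + 1), V (k + 1) b x * q (k + 1) b‖) := by
  classical
  let n : ℕ → ℕ := fun k => ⌈1 / (3 * th k)⌉₊ + ⌈1 / (3 * th (k - 1))⌉₊ + 1
  have hn : ∀ k, 0 < n k := fun k => Nat.succ_pos _
  have hn1 : ∀ k, 1 ≤ (n k : ℝ) * (3 * th k) := by
    intro k
    have h := hth k
    have h1 : 1 / (3 * th k) ≤ (⌈1 / (3 * th k)⌉₊ : ℝ) := Nat.le_ceil _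
    have h2 : (⌈1 / (3 * th k)⌉₊ : ℝ) ≤ n k := by
      have : ⌈1 / (3 * th k)⌉₊ ≤ n k := by simp only [n]; omega
      exact_mod_cast this
    calc (1 : ℝ) = 1 / (3 * th k) * (3 * th k) := by field_simp
      _ ≤ n k * (3 * th k) := mul_le_mul_of_nonneg_right (h1.trans h2) (by positivity)
  have hn2 : ∀ k, 1 ≤ (n (k + 1) : ℝ) * (3 * th k) := by
    intro k
    have h := hth k
    have h1 : 1 / (3 * th k) ≤ (⌈1 / (3 * th k)⌉₊ : ℝ) := Nat.le_ceil _
    have h2 : (⌈1 / (3 * th k)⌉₊ : ℝ) ≤ n (k + 1) := by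
      have : ⌈1 / (3 * th k)⌉₊ ≤ n (k + 1) := by
        simp only [n, Nat.add_sub_cancel]; omega
      exact_mod_cast this
    calc (1 : ℝ) = 1 / (3 * th k) * (3 * th k) := by field_simp
      _ ≤ n (k + 1) * (3 * th k) := mul_le_mul_of_nonneg_right (h1.trans h2) (by positivity)
  let Ω : ℕ → Type := fun k => {a // a ∈ Z k} → (Fin 4 → Fin (n k))
  have : ∀ k, Nonempty (Ω k) := fun k => ⟨fun _ _ => ⟨0, hn k⟩⟩
  let W : ∀ k, Ω k → X3 → H := fun k w x => ∑ b : {a // a ∈ Z k}, V k b x * chQ (n k) (w b)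
  let P : ∀ k, X3 → Ω k × Ω (k + 1) → Prop := fun k y p =>
    (((∃ a : {a // a ∈ Z k}, ‖W k p.1 y + W (k + 1) p.2 y‖ < 3 * th k * ‖V k a y‖) ∨
      ∃ a : {a // a ∈ Z (k + 1)}, ‖W k p.1 y + W (k + 1) p.2 y‖ <
        3 * th k * ‖V (k + 1) a y‖) ∨
      ∃ a : {a // a ∈ Z (k + 1)}, ‖W (k + 1) p.2 y‖ < 3 * th k * ‖V (k + 1) a y‖)
  obtain ⟨ω, hω⟩ := ch_greedy Ω (fun k w w' => ∃ y ∈ N k, P k y (w, w')) (by
    intro k
    have h1 : ∀ y ∈ N k, (Nat.card {p : Ω k × Ω (k + 1) // P k y p} : ℝ) ≤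
        2 * (5 * (3 * th k)) ^ 4 * (Fintype.card (Ω k) * Fintype.card (Ω (k + 1))) := by
      intro y _
      exact ch_pair (n k) (n (k + 1)) (fun b : {a // a ∈ Z k} => V k b y)
        (fun b : {a // a ∈ Z (k + 1)} => V (k + 1) b y) (3 * th k) (hn k) (hn (k + 1))
        (hn1 k) (hn2 k)
    have h2 := ch_union (N k) (P k) _ h1
    have h3 : (16 : ℝ) * (Nat.card {p : Ω k × Ω (k + 1) // ∃ y ∈ N k, P k y p} : ℝ) ≤
        Fintype.card (Ω k) * Fintype.card (Ω (k + 1)) := by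
      have hT0 : (0 : ℝ) ≤ Fintype.card (Ω k) * Fintype.card (Ω (k + 1)) := by positivity
      calc (16 : ℝ) * (Nat.card {p : Ω k × Ω (k + 1) // ∃ y ∈ N k, P k y p} : ℝ)
          ≤ 16 * ((N k).card * (2 * (5 * (3 * th k)) ^ 4 *
            (Fintype.card (Ω k) * Fintype.card (Ω (k + 1))))) := by gcongr
        _ = (32 * (N k).card * (15 * th k) ^ 4) *
            (Fintype.card (Ω k) * Fintype.card (Ω (k + 1))) := by ring
        _ ≤ 1 * (Fintype.card (Ω k) * Fintype.card (Ω (k + 1))) :=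
            mul_le_mul_of_nonneg_right (hN k) hT0
        _ = _ := one_mul _
    exact_mod_cast h3)
  refine ⟨fun k a => if h : a ∈ Z k then chQ (n k) (ω k ⟨a, h⟩) else 1, ?_, ?_⟩
  · intro k a
    by_cases h : a ∈ Z k
    · simp only [h, dif_pos]
      exact chQ_norm _ _
    · simp only [h, dif_neg, not_false_eq_true, norm_one]
      norm_num
  intro k x hx
  -- the sums
  have hsum : ∀ j x, (∑ b ∈ Z j, V j b x * (if h : b ∈ Z j then chQ (n j) (ω j ⟨b, h⟩) else 1)) =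
      W j (ω j) x := by
    intro j x
    simp only [W]
    rw [← Finset.sum_coe_sort (Z j)]
    refine Finset.sum_congr rfl (fun b _ => ?_)
    simp
  simp only [hsum]
  obtain ⟨y, hyN, hy1, hy2⟩ := hnet k x hx
  obtain ⟨he0, he1, he2⟩ := het k
  have hgood := hω k
  push Not at hgood
  have hg := hgood y hyN
  simp only [P, not_or, not_exists, not_lt] at hg
  obtain ⟨⟨g1, g2⟩, g3⟩ := hg
  -- bound of the change of the sum of a level
  have hch : ∀ j, (∀ a ∈ Z j, ‖V j a x - V j a y‖ ≤ et k * ‖V j a y‖) → ∀ M : ℝ, 0 ≤ M →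
      (∀ a ∈ Z j, ‖V j a y‖ ≤ M) →
      ‖W j (ω j) x - W j (ω j) y‖ ≤ 2 * et k * (Z j).card * M := by
    intro j hj M hM hM'
    simp only [W]
    rw [← Finset.sum_sub_distrib]
    refine le_trans (norm_sum_le _ _) ?_
    calc (∑ b : {a // a ∈ Z j}, ‖V j b x * chQ (n j) (ω j b) - V j b y * chQ (n j) (ω j b)‖)
        ≤ ∑ _b : {a // a ∈ Z j}, et k * M * 2 := by
          refine Finset.sum_le_sum (fun b _ => ?_)
          rw [← sub_mul, norm_mul]
          have h1 := hj b.1 b.2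
          have h2 := (chQ_norm (n j) (ω j b)).2
          have h3 := hM' b.1 b.2
          have h4 : ‖V j b x - V j b y‖ ≤ et k * M :=
            h1.trans (mul_le_mul_of_nonneg_left h3 he0)
          exact mul_le_mul h4 h2 (norm_nonneg _) (by positivity)
      _ = 2 * et k * (Z j).card * M := by
          rw [Finset.sum_const, Finset.card_univ, Fintype.card_coe, nsmul_eq_mul]
          ring
  have hth0 := hth k
  have hc1 : (0 : ℝ) ≤ (Z k).card := by positivity
  have hc2 : (0 : ℝ) ≤ (Z (k + 1)).card := by positivity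
  -- a general final step
  have fin : ∀ (S S' : H) (M c : ℝ), 0 ≤ M → 3 * th k * M ≤ ‖S'‖ → ‖S - S'‖ ≤ 2 * et k * c * M →
      2 * et k * c ≤ th k → 2 * th k * M ≤ ‖S‖ := by
    intro S S' M c hM h1 h2 h3
    have h4 : ‖S'‖ ≤ ‖S‖ + ‖S - S'‖ := by
      have := norm_sub_norm_le S' S
      rw [norm_sub_rev] at this
      linarith
    have h5 : 2 * et k * c * M ≤ th k * M := mul_le_mul_of_nonneg_right h3 hM
    linarith
  have hVx : ∀ j, (∀ a ∈ Z j, ‖V j a x - V j a y‖ ≤ et k * ‖V j a y‖) → ∀ a ∈ Z j, ∀ M,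
      ‖V j a y‖ ≤ M → th k * ‖V j a x‖ ≤ 2 * th k * M := by
    intro j hj a ha M hM
    have h1 := hj a ha
    have h2 : ‖V j a x‖ ≤ ‖V j a y‖ + ‖V j a x - V j a y‖ := by
      have := norm_sub_norm_le (V j a x) (V j a y)
      linarith
    have h3 : et k * ‖V j a y‖ ≤ 1 * ‖V j a y‖ :=
      mul_le_mul_of_nonneg_right he1 (norm_nonneg _)
    have h4 : ‖V j a x‖ ≤ 2 * M := by linarith
    calc th k * ‖V j a x‖ ≤ th k * (2 * M) := mul_le_mul_of_nonneg_left h4 hth0.le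
      _ = _ := by ring
  -- the largest wave of both levels at y
  have main12 : ∀ M : ℝ, 0 ≤ M → (∀ a ∈ Z k, ‖V k a y‖ ≤ M) →
      (∀ a ∈ Z (k + 1), ‖V (k + 1) a y‖ ≤ M) →
      3 * th k * M ≤ ‖W k (ω k) y + W (k + 1) (ω (k + 1)) y‖ →
      2 * th k * M ≤ ‖W k (ω k) x + W (k + 1) (ω (k + 1)) x‖ := by
    intro M hM hM1 hM2 hM3
    refine fin _ _ M ((Z k).card + (Z (k + 1)).card) hM hM3 ?_ he2
    have e : W k (ω k) x + W (k + 1) (ω (k + 1)) x -
        (W k (ω k) y + W (k + 1) (ω (k + 1)) y) =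
        (W k (ω k) x - W k (ω k) y) + (W (k + 1) (ω (k + 1)) x - W (k + 1) (ω (k + 1)) y) := by
      abel
    rw [e]
    refine le_trans (norm_add_le _ _) ?_
    have h1 := hch k hy1 M hM hM1
    have h2 := hch (k + 1) hy2 M hM hM2
    calc _ ≤ 2 * et k * (Z k).card * M + 2 * et k * (Z (k + 1)).card * M := add_le_add h1 h2
      _ = _ := by ring
  have big : (∀ a ∈ Z k, th k * ‖V k a x‖ ≤ ‖W k (ω k) x + W (k + 1) (ω (k + 1)) x‖) ∧
      (∀ a ∈ Z (k + 1), th k * ‖V (k + 1) a x‖ ≤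
        ‖W k (ω k) x + W (k + 1) (ω (k + 1)) x‖) := by
    by_cases hne : Nonempty ({a // a ∈ Z k} ⊕ {a // a ∈ Z (k + 1)})
    · let f : {a // a ∈ Z k} ⊕ {a // a ∈ Z (k + 1)} → ℝ :=
        Sum.elim (fun a => ‖V k a y‖) (fun a => ‖V (k + 1) a y‖)
      obtain ⟨s, hs⟩ := Finite.exists_max f
      have hM0 : 0 ≤ f s := by
        rcases s with a | a <;> exact norm_nonneg _
      have hM1 : ∀ a ∈ Z k, ‖V k a y‖ ≤ f s := fun a ha => hs (Sum.inl ⟨a, ha⟩)
      have hM2 : ∀ a ∈ Z (k + 1), ‖V (k + 1) a y‖ ≤ f s := fun a ha => hs (Sum.inr ⟨a, ha⟩)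
      have hM3 : 3 * th k * f s ≤ ‖W k (ω k) y + W (k + 1) (ω (k + 1)) y‖ := by
        rcases s with a | a
        · exact g1 a
        · exact g2 a
      have hfin := main12 (f s) hM0 hM1 hM2 hM3
      exact ⟨fun a ha => (hVx k hy1 a ha _ (hM1 a ha)).trans hfin,
        fun a ha => (hVx (k + 1) hy2 a ha _ (hM2 a ha)).trans hfin⟩
    · exact ⟨fun a ha => absurd ⟨Sum.inl ⟨a, ha⟩⟩ hne, fun a ha => absurd ⟨Sum.inr ⟨a, ha⟩⟩ hne⟩
  refine ⟨big.1, big.2, ?_⟩
  by_cases hne : Nonempty {a // a ∈ Z (k + 1)}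
  · obtain ⟨s, hs⟩ := Finite.exists_max (fun a : {a // a ∈ Z (k + 1)} => ‖V (k + 1) a y‖)
    have hM2 : ∀ a ∈ Z (k + 1), ‖V (k + 1) a y‖ ≤ ‖V (k + 1) s y‖ := fun a ha => hs ⟨a, ha⟩
    have h2 := hch (k + 1) hy2 _ (norm_nonneg _) hM2
    have hle : 2 * et k * (Z (k + 1)).card ≤ th k := by
      have : 0 ≤ 2 * et k * (Z k).card := by positivity
      nlinarith
    have hfin := fin _ _ _ _ (norm_nonneg _) (g3 s) h2 hle
    exact fun a ha => (hVx (k + 1) hy2 a ha _ (hM2 a ha)).trans hfin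
  · exact fun a ha => absurd ⟨⟨a, ha⟩⟩ hne

/-- **The choice of the right factors.** `Z k` is the finite set of centers of level `k`, `V k a`
the wave, `D k` the domain (in the cube `|x i| ≤ 3`), `L k` a logarithmic Lipschitz constant of
the waves of the levels `k` and `k + 1` on `D k`, `c k` a bound of the number of the centers of
these two levels. Nothing couples different levels. -/
theorem exists_q_box {A : Type} (Z : ℕ → Finset A) (V : ℕ → A → X3 → H) (D : ℕ → Set X3)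
    (L c : ℕ → ℝ) (hD : ∀ k, ∀ x ∈ D k, ∀ i, |x i| ≤ 3) (hL : ∀ k, 1 ≤ L k)
    (hc1 : ∀ k, 1 ≤ c k) (hc : ∀ k, ((Z k).card : ℝ) + (Z (k + 1)).card ≤ c k)
    (hV1 : ∀ k, ∀ a ∈ Z k, ∀ x ∈ D k, ∀ y ∈ D k, L k * ‖x - y‖ ≤ 1 →
      ‖V k a x - V k a y‖ ≤ L k * ‖x - y‖ * ‖V k a y‖)
    (hV2 : ∀ k, ∀ a ∈ Z (k + 1), ∀ x ∈ D k, ∀ y ∈ D k, L k * ‖x - y‖ ≤ 1 →
      ‖V (k + 1) a x - V (k + 1) a y‖ ≤ L k * ‖x - y‖ * ‖V (k + 1) a y‖) :
    ∃ q : ℕ → A → H, (∀ k a, 1 ≤ ‖q k a‖ ∧ ‖q k a‖ ≤ 2) ∧ ∀ k, ∀ x ∈ D k,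
      (∀ a ∈ Z k, 1 / (10 ^ 12 * (L k * c k) ^ 3) * ‖V k a x‖ ≤
        ‖(∑ b ∈ Z k, V k b x * q k b) + ∑ b ∈ Z (k + 1), V (k + 1) b x * q (k + 1) b‖) ∧
      (∀ a ∈ Z (k + 1), 1 / (10 ^ 12 * (L k * c k) ^ 3) * ‖V (k + 1) a x‖ ≤
        ‖(∑ b ∈ Z k, V k b x * q k b) + ∑ b ∈ Z (k + 1), V (k + 1) b x * q (k + 1) b‖) ∧
      (∀ a ∈ Z (k + 1), 1 / (10 ^ 12 * (L k * c k) ^ 3) * ‖V (k + 1) a x‖ ≤
        ‖∑ b ∈ Z (k + 1), V (k + 1) b x * q (k + 1) b‖) := by
  classical
  have hP1 : ∀ k, 1 ≤ L k * c k := fun k => by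
    have h1 := hL k
    have h2 := hc1 k
    nlinarith
  have hP0 : ∀ k, 0 < L k * c k := fun k => lt_of_lt_of_le one_pos (hP1 k)
  have hth0 : ∀ k, 0 < 1 / (10 ^ 12 * (L k * c k) ^ 3) := fun k => by
    have := hP0 k
    positivity
  have hth1 : ∀ k, 1 / (10 ^ 12 * (L k * c k) ^ 3) ≤ 1 := fun k => by
    have h1 : 1 ≤ (L k * c k) ^ 3 := one_le_pow₀ (hP1 k)
    rw [div_le_one (by positivity)]
    nlinarith
  -- the mesh
  let h : ℕ → ℝ := fun k => 1 / (10 ^ 12 * (L k * c k) ^ 3) / (2 * (L k * c k))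
  have hh0 : ∀ k, 0 < h k := fun k => div_pos (hth0 k) (by have := hP0 k; positivity)
  have hh1 : ∀ k, h k ≤ 1 := fun k => by
    have := hP1 k
    simp only [h]
    rw [div_le_one (by positivity)]
    exact (hth1 k).trans (by linarith)
  choose N hNs hNc hN using fun k => exists_net (D k) (hD k) (h k) (hh0 k) (hh1 k)
  refine exists_q Z V D N (fun k => 1 / (10 ^ 12 * (L k * c k) ^ 3))
    (fun k => 1 / (10 ^ 12 * (L k * c k) ^ 3) / (2 * c k)) hth0 ?_ ?_ ?_
  · intro k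
    have h1 := hc1 k
    have h0 := hth0 k
    refine ⟨by positivity, ?_, ?_⟩
    · rw [div_le_one (by positivity)]
      exact (hth1 k).trans (by linarith)
    · have e : 2 * (1 / (10 ^ 12 * (L k * c k) ^ 3) / (2 * c k)) *
          (((Z k).card : ℝ) + (Z (k + 1)).card) =
          1 / (10 ^ 12 * (L k * c k) ^ 3) * ((((Z k).card : ℝ) + (Z (k + 1)).card) / c k) := by
        field_simp
      rw [e]
      have h2 : (((Z k).card : ℝ) + (Z (k + 1)).card) / c k ≤ 1 := by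
        rw [div_le_one (by positivity)]
        exact hc k
      calc _ ≤ 1 / (10 ^ 12 * (L k * c k) ^ 3) * 1 := mul_le_mul_of_nonneg_left h2 h0.le
        _ = _ := mul_one _
  · intro k
    have h1 := hP1 k
    have h0 := hP0 k
    have h2 := hNc k
    have e : 8 / h k = 16 * 10 ^ 12 * (L k * c k) ^ 4 := by
      simp only [h]
      field_simp
      ring
    rw [e] at h2
    have h3 : 32 * ((N k).card : ℝ) * (15 * (1 / (10 ^ 12 * (L k * c k) ^ 3))) ^ 4 ≤
        32 * (16 * 10 ^ 12 * (L k * c k) ^ 4) ^ 3 *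
          (15 * (1 / (10 ^ 12 * (L k * c k) ^ 3))) ^ 4 := by
      gcongr
    refine h3.trans ?_
    have e2 : 32 * (16 * 10 ^ 12 * (L k * c k) ^ 4) ^ 3 *
          (15 * (1 / (10 ^ 12 * (L k * c k) ^ 3))) ^ 4 =
          32 * 16 ^ 3 * 15 ^ 4 / 10 ^ 12 := by
      obtain ⟨P, hP⟩ : ∃ P, P = L k * c k := ⟨_, rfl⟩
      rw [← hP] at h0 ⊢
      field_simp
    rw [e2]
    norm_num
  · intro k x hx
    obtain ⟨y, hy, hxy⟩ := hN k x hx
    have hyD : y ∈ D k := hNs k (Finset.mem_coe.2 hy)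
    have h0 := hP0 k
    have hL0 : 0 < L k := lt_of_lt_of_le one_pos (hL k)
    have hc0 : 0 < c k := lt_of_lt_of_le one_pos (hc1 k)
    have e : L k * h k = 1 / (10 ^ 12 * (L k * c k) ^ 3) / (2 * c k) := by
      simp only [h]
      field_simp
    have h1 : L k * ‖x - y‖ ≤ 1 / (10 ^ 12 * (L k * c k) ^ 3) / (2 * c k) := by
      rw [← e]
      exact mul_le_mul_of_nonneg_left hxy hL0.le
    have h2 : L k * ‖x - y‖ ≤ 1 := by
      refine h1.trans ?_
      rw [div_le_one (by positivity)]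
      exact (hth1 k).trans (by have := hc1 k; linarith)
    refine ⟨y, hy, fun a ha => ?_, fun a ha => ?_⟩
    · exact (hV1 k a ha x hx y hyD h2).trans
        (mul_le_mul_of_nonneg_right h1 (norm_nonneg _))
    · exact (hV2 k a ha x hx y hyD h2).trans
        (mul_le_mul_of_nonneg_right h1 (norm_nonneg _))

/-- The same, with the bound of the derivatives of the waves in place of the Lipschitz bound
(`D k` convex): the constant is `2 Q k`. -/
theorem exists_q_fderiv {A : Type} (Z : ℕ → Finset A) (V : ℕ → A → X3 → H) (D : ℕ → Set X3)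
    (Q c : ℕ → ℝ) (hD : ∀ k, ∀ x ∈ D k, ∀ i, |x i| ≤ 3) (hconv : ∀ k, Convex ℝ (D k))
    (hQ : ∀ k, 1 ≤ Q k) (hc1 : ∀ k, 1 ≤ c k)
    (hc : ∀ k, ((Z k).card : ℝ) + (Z (k + 1)).card ≤ c k)
    (hd1 : ∀ k, ∀ a ∈ Z k, ∀ x ∈ D k, DifferentiableAt ℝ (V k a) x ∧
      ‖fderiv ℝ (V k a) x‖ ≤ Q k * ‖V k a x‖)
    (hd2 : ∀ k, ∀ a ∈ Z (k + 1), ∀ x ∈ D k, DifferentiableAt ℝ (V (k + 1) a) x ∧
      ‖fderiv ℝ (V (k + 1) a) x‖ ≤ Q k * ‖V (k + 1) a x‖) :
    ∃ q : ℕ → A → H, (∀ k a, 1 ≤ ‖q k a‖ ∧ ‖q k a‖ ≤ 2) ∧ ∀ k, ∀ x ∈ D k,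
      (∀ a ∈ Z k, 1 / (10 ^ 13 * (Q k * c k) ^ 3) * ‖V k a x‖ ≤
        ‖(∑ b ∈ Z k, V k b x * q k b) + ∑ b ∈ Z (k + 1), V (k + 1) b x * q (k + 1) b‖) ∧
      (∀ a ∈ Z (k + 1), 1 / (10 ^ 13 * (Q k * c k) ^ 3) * ‖V (k + 1) a x‖ ≤
        ‖(∑ b ∈ Z k, V k b x * q k b) + ∑ b ∈ Z (k + 1), V (k + 1) b x * q (k + 1) b‖) ∧
      (∀ a ∈ Z (k + 1), 1 / (10 ^ 13 * (Q k * c k) ^ 3) * ‖V (k + 1) a x‖ ≤
        ‖∑ b ∈ Z (k + 1), V (k + 1) b x * q (k + 1) b‖) := by
  have hexp : ∀ s : ℝ, 0 ≤ s → s ≤ 1 / 2 → Real.exp s - 1 ≤ 2 * s := by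
    intro s h0 h1
    have h2 := Real.add_one_le_exp (-s)
    have h3 : 0 < Real.exp s := Real.exp_pos s
    have h4 : Real.exp s * Real.exp (-s) = 1 := by rw [← Real.exp_add]; simp
    have h5 : Real.exp s * (1 - s) ≤ 1 := by
      rw [← h4]
      exact mul_le_mul_of_nonneg_left (by linarith) h3.le
    nlinarith
  have key : ∀ (k : ℕ) (f : X3 → H), (∀ x ∈ D k, DifferentiableAt ℝ f x ∧
      ‖fderiv ℝ f x‖ ≤ Q k * ‖f x‖) → ∀ x ∈ D k, ∀ y ∈ D k, 2 * Q k * ‖x - y‖ ≤ 1 →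
      ‖f x - f y‖ ≤ 2 * Q k * ‖x - y‖ * ‖f y‖ := by
    intro k f hf x hx y hy hxy
    have h1 := log_lip (hconv k) (fun z hz => (hf z hz).1) (fun z hz => (hf z hz).2) hx hy
    have h2 := hQ k
    have h3 : 0 ≤ Q k * ‖x - y‖ := by positivity
    refine h1.trans (mul_le_mul_of_nonneg_right ?_ (norm_nonneg _))
    have := hexp (Q k * ‖x - y‖) h3 (by linarith)
    linarith
  obtain ⟨q, hq, h⟩ := exists_q_box Z V D (fun k => 2 * Q k) c hD
    (fun k => by have := hQ k; show 1 ≤ 2 * Q k; linarith) hc1 hc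
    (fun k a ha => key k _ (hd1 k a ha)) (fun k a ha => key k _ (hd2 k a ha))
  refine ⟨q, hq, fun k x hx => ?_⟩
  have h1 := hQ k
  have h2 := hc1 k
  have hle : 1 / (10 ^ 13 * (Q k * c k) ^ 3) ≤ 1 / (10 ^ 12 * (2 * Q k * c k) ^ 3) := by
    refine one_div_le_one_div_of_le (by positivity) ?_
    have e : (2 * Q k * c k) ^ 3 = 8 * (Q k * c k) ^ 3 := by ring
    rw [e]
    have : 0 ≤ (Q k * c k) ^ 3 := by positivity
    nlinarith
  obtain ⟨g1, g2, g3⟩ := h k x hx
  exact ⟨fun a ha => (mul_le_mul_of_nonneg_right hle (norm_nonneg _)).trans (g1 a ha),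
    fun a ha => (mul_le_mul_of_nonneg_right hle (norm_nonneg _)).trans (g2 a ha),
    fun a ha => (mul_le_mul_of_nonneg_right hle (norm_nonneg _)).trans (g3 a ha)⟩

end Pool.Agent.BSS
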