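import Pool.Agent.BSS.Par0

/-!
# Cut-offs, part 1: definitions and values (doc H/bff03b, sections 7 and 8)

`zeta`, `alpha`, `beta`, `chi`, `psi`, `Theta`.
-/

open Set Filter
open scoped Topology

namespace Pool.Agent.BSS

/-- `zeta_k`: periodic with period `p_(k+1) = rho_k`; `0` iff `dist (s, rho_k ℤ) ≤ mu_(k+1)`, `1` iff
`dist (s, rho_k ℤ) ≥ (3 / 2) mu_(k+1)`. -/
noncomputable def zeta (k : ℕ) (s : ℝ) : ℝ :=
  Real.smoothTransition (2 * dZ (rho k) s / mu (k + 1) - 2)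

open Classical in
/-- `alpha_k (x') = 1_(E_k) (x') zeta_k (x_1) zeta_k (x_2)`. -/
noncomputable def alpha (k : ℕ) (y : X2) : ℝ :=
  if y ∈ EE k then zeta k (y 0) * zeta k (y 1) else 0

/-- `beta_k`: `1` iff `t ≤ (3 / 4) d_(k+1)`, `0` iff `t ≥ d_(k+1)`. -/
noncomputable def beta (k : ℕ) (t : ℝ) : ℝ :=
  1 - Real.smoothTransition (4 * t / dd (k + 1) - 3)

/-- `chi_k (x) = 1 - alpha_k (x') beta_k (t)`. -/
noncomputable def chi (k : ℕ) (x : X3) : ℝ := 1 - alpha k (pr x) * beta k (x 2)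

/-- `psi_k`: `1` iff `t ≥ - del_k / 4`, `0` iff `t ≤ - del_k / 2`. -/
noncomputable def psi (k : ℕ) (t : ℝ) : ℝ :=
  Real.smoothTransition (4 * t / del k + 2)

/-- The box outside of which everything is constant. -/
def Box2 : Set X3 :=
  {x | -2 ≤ x 0 ∧ x 0 ≤ 3 ∧ -2 ≤ x 1 ∧ x 1 ≤ 3 ∧ -2 ≤ x 2 ∧ x 2 ≤ 2}

/-- `Theta = 1` on `[-1, 2]^2 x [-1, 1]`, `0` outside of `Box2`. -/
noncomputable def Theta (x : X3) : ℝ :=
  Real.smoothTransition (x 0 + 2) * Real.smoothTransition (3 - x 0) *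
    (Real.smoothTransition (x 1 + 2) * Real.smoothTransition (3 - x 1)) *
    (Real.smoothTransition (x 2 + 2) * Real.smoothTransition (2 - x 2))

/-! ### parameters: signs -/

theorem NN_pos' (k : ℕ) : 0 < NN k := by unfold NN; positivity

theorem nn_pos' (k : ℕ) : 0 < nn k := by
  unfold nn
  have := NN_pos' k
  positivity

theorem rho_pos' (k : ℕ) : 0 < rho k := by
  induction k with
  | zero => simp [rho]
  | succ k ih =>
    have : (0 : ℝ) < nn (k + 1) := by exact_mod_cast nn_pos' _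
    simp only [rho]
    positivity

theorem mu_pos' (k : ℕ) : 0 < mu k := by
  unfold mu
  have := rho_pos' k
  positivity

theorem dd_pos' (k : ℕ) : 0 < dd k := by
  unfold dd
  have := rho_pos' k
  have h : (0 : ℝ) < NN k := by exact_mod_cast NN_pos' k
  positivity

theorem del_pos' (k : ℕ) : 0 < del k := rho_pos' _

theorem dZ_nonneg' (p s : ℝ) : 0 ≤ dZ p s := abs_nonneg _

/-! ### zeta -/

theorem zeta_nonneg (k : ℕ) (s : ℝ) : 0 ≤ zeta k s := Real.smoothTransition.nonneg _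

theorem zeta_le_one (k : ℕ) (s : ℝ) : zeta k s ≤ 1 := Real.smoothTransition.le_one _

theorem zeta_eq_zero_iff {k : ℕ} {s : ℝ} : zeta k s = 0 ↔ dZ (rho k) s ≤ mu (k + 1) := by
  have := mu_pos' (k + 1)
  rw [zeta, Real.smoothTransition.zero_iff_nonpos, sub_nonpos, div_le_iff₀ this]
  constructor <;> intro h <;> linarith

theorem zeta_eq_one_iff {k : ℕ} {s : ℝ} :
    zeta k s = 1 ↔ 3 / 2 * mu (k + 1) ≤ dZ (rho k) s := by
  have := mu_pos' (k + 1)
  rw [zeta, Real.smoothTransition.eq_one_iff_one_le, le_sub_iff_add_le, le_div_iff₀ this]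
  constructor <;> intro h <;> linarith

/-! ### beta and psi -/

theorem beta_nonneg (k : ℕ) (t : ℝ) : 0 ≤ beta k t :=
  sub_nonneg.2 (Real.smoothTransition.le_one _)

theorem beta_le_one (k : ℕ) (t : ℝ) : beta k t ≤ 1 :=
  sub_le_self _ (Real.smoothTransition.nonneg _)

theorem beta_eq_one_iff {k : ℕ} {t : ℝ} : beta k t = 1 ↔ t ≤ 3 / 4 * dd (k + 1) := by
  have := dd_pos' (k + 1)
  rw [beta, sub_eq_self, Real.smoothTransition.zero_iff_nonpos, sub_nonpos, div_le_iff₀ this]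
  constructor <;> intro h <;> linarith

theorem beta_eq_zero_iff {k : ℕ} {t : ℝ} : beta k t = 0 ↔ dd (k + 1) ≤ t := by
  have := dd_pos' (k + 1)
  rw [beta, sub_eq_zero, eq_comm, Real.smoothTransition.eq_one_iff_one_le, le_sub_iff_add_le,
    le_div_iff₀ this]
  constructor <;> intro h <;> linarith

theorem psi_nonneg (k : ℕ) (t : ℝ) : 0 ≤ psi k t := Real.smoothTransition.nonneg _

theorem psi_le_one (k : ℕ) (t : ℝ) : psi k t ≤ 1 := Real.smoothTransition.le_one _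

theorem psi_eq_one_iff {k : ℕ} {t : ℝ} : psi k t = 1 ↔ -(del k / 4) ≤ t := by
  have := del_pos' k
  rw [psi, Real.smoothTransition.eq_one_iff_one_le, ← sub_le_iff_le_add, le_div_iff₀ this]
  constructor <;> intro h <;> linarith

theorem psi_eq_zero_iff {k : ℕ} {t : ℝ} : psi k t = 0 ↔ t ≤ -(del k / 2) := by
  have := del_pos' k
  rw [psi, Real.smoothTransition.zero_iff_nonpos, ← le_neg_iff_add_nonpos_right,
    div_le_iff₀ this]
  constructor <;> intro h <;> linarith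

/-! ### alpha -/

theorem alpha_of_mem {k : ℕ} {y : X2} (h : y ∈ EE k) : alpha k y = zeta k (y 0) * zeta k (y 1) :=
  if_pos h

theorem alpha_of_notMem {k : ℕ} {y : X2} (h : y ∉ EE k) : alpha k y = 0 := if_neg h

theorem alpha_nonneg (k : ℕ) (y : X2) : 0 ≤ alpha k y := by
  unfold alpha
  split_ifs
  · exact mul_nonneg (zeta_nonneg _ _) (zeta_nonneg _ _)
  · exact le_rfl

theorem alpha_le_one (k : ℕ) (y : X2) : alpha k y ≤ 1 := by
  unfold alpha
  split_ifs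
  · exact mul_le_one₀ (zeta_le_one _ _) (zeta_nonneg _ _) (zeta_le_one _ _)
  · exact zero_le_one

theorem mul_eq_one_iff_of_le {a b : ℝ} (ha : 0 ≤ a) (hb : 0 ≤ b) (ha1 : a ≤ 1) (hb1 : b ≤ 1) :
    a * b = 1 ↔ a = 1 ∧ b = 1 := by
  constructor
  · intro h
    constructor <;> nlinarith
  · rintro ⟨rfl, rfl⟩
    norm_num

theorem alpha_eq_one_iff {k : ℕ} {y : X2} :
    alpha k y = 1 ↔ y ∈ EE k ∧ ∀ i, 3 / 2 * mu (k + 1) ≤ dZ (rho k) (y i) := by
  by_cases h : y ∈ EE k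
  · rw [alpha_of_mem h, mul_eq_one_iff_of_le (zeta_nonneg _ _) (zeta_nonneg _ _) (zeta_le_one _ _)
      (zeta_le_one _ _), zeta_eq_one_iff, zeta_eq_one_iff, Fin.forall_fin_two]
    simp [h]
  · simp [alpha_of_notMem h, h]

theorem alpha_eq_zero_iff {k : ℕ} {y : X2} :
    alpha k y = 0 ↔ y ∉ EE k ∨ ∃ i, dZ (rho k) (y i) ≤ mu (k + 1) := by
  by_cases h : y ∈ EE k
  · rw [alpha_of_mem h, mul_eq_zero, zeta_eq_zero_iff, zeta_eq_zero_iff, Fin.exists_fin_two]
    simp [h]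
  · simp [alpha_of_notMem h, h]

theorem mem_EE_of_alpha_ne_zero {k : ℕ} {y : X2} (h : alpha k y ≠ 0) : y ∈ EE k := by
  by_contra h'
  exact h (alpha_of_notMem h')

/-! ### chi -/

theorem chi_nonneg (k : ℕ) (x : X3) : 0 ≤ chi k x :=
  sub_nonneg.2 (mul_le_one₀ (alpha_le_one _ _) (beta_nonneg _ _) (beta_le_one _ _))

theorem chi_le_one (k : ℕ) (x : X3) : chi k x ≤ 1 :=
  sub_le_self _ (mul_nonneg (alpha_nonneg _ _) (beta_nonneg _ _))

theorem chi_eq_zero_iff {k : ℕ} {x : X3} :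
    chi k x = 0 ↔ pr x ∈ EE k ∧ (∀ i, 3 / 2 * mu (k + 1) ≤ dZ (rho k) (pr x i)) ∧
      x 2 ≤ 3 / 4 * dd (k + 1) := by
  rw [chi, sub_eq_zero, eq_comm, mul_eq_one_iff_of_le (alpha_nonneg _ _) (beta_nonneg _ _)
    (alpha_le_one _ _) (beta_le_one _ _), alpha_eq_one_iff, beta_eq_one_iff, and_assoc]

theorem chi_eq_one_iff {k : ℕ} {x : X3} :
    chi k x = 1 ↔ alpha k (pr x) = 0 ∨ dd (k + 1) ≤ x 2 := by
  rw [chi, sub_eq_self, mul_eq_zero, beta_eq_zero_iff]

/-- If `chi_k (x)` is not `1` then `x' ∈ E_k`, `dist (x_i, rho_k ℤ) > mu_(k+1)` for both `i`, and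
`t < d_(k+1)`. -/
theorem of_chi_ne_one {k : ℕ} {x : X3} (h : chi k x ≠ 1) :
    pr x ∈ EE k ∧ (∀ i, mu (k + 1) < dZ (rho k) (pr x i)) ∧ x 2 < dd (k + 1) := by
  rw [Ne, chi_eq_one_iff, not_or, alpha_eq_zero_iff, not_or, not_not, not_exists] at h
  obtain ⟨⟨h1, h2⟩, h3⟩ := h
  exact ⟨h1, fun i => not_le.1 (h2 i), not_le.1 h3⟩

/-- The two transition regions (A), (B) of section 9. -/
theorem of_chi_mem_Ioo {k : ℕ} {x : X3} (h0 : chi k x ≠ 0) (h1 : chi k x ≠ 1) :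
    pr x ∈ EE k ∧ (∀ i, mu (k + 1) < dZ (rho k) (pr x i)) ∧ x 2 < dd (k + 1) ∧
      (3 / 4 * dd (k + 1) < x 2 ∨ ∃ i, dZ (rho k) (pr x i) < 3 / 2 * mu (k + 1)) := by
  obtain ⟨a, b, c⟩ := of_chi_ne_one h1
  refine ⟨a, b, c, ?_⟩
  by_contra hcon
  push Not at hcon
  exact h0 (chi_eq_zero_iff.2 ⟨a, hcon.2, hcon.1⟩)

/-! ### Theta -/

theorem Theta_nonneg (x : X3) : 0 ≤ Theta x := by
  unfold Theta
  have h := Real.smoothTransition.nonneg
  have := h (x 0 + 2)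
  have := h (3 - x 0)
  have := h (x 1 + 2)
  have := h (3 - x 1)
  have := h (x 2 + 2)
  have := h (2 - x 2)
  positivity

theorem Theta_le_one (x : X3) : Theta x ≤ 1 := by
  unfold Theta
  have h := Real.smoothTransition.nonneg
  have h' := Real.smoothTransition.le_one
  exact mul_le_one₀ (mul_le_one₀ (mul_le_one₀ (h' _) (h _) (h' _)) (mul_nonneg (h _) (h _))
    (mul_le_one₀ (h' _) (h _) (h' _))) (mul_nonneg (h _) (h _)) (mul_le_one₀ (h' _) (h _) (h' _))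

theorem Theta_eq_one {x : X3} (h0 : -1 ≤ x 0) (h0' : x 0 ≤ 2) (h1 : -1 ≤ x 1) (h1' : x 1 ≤ 2)
    (h2 : -1 ≤ x 2) (h2' : x 2 ≤ 1) : Theta x = 1 := by
  unfold Theta
  rw [Real.smoothTransition.one_of_one_le (by linarith), Real.smoothTransition.one_of_one_le
    (by linarith), Real.smoothTransition.one_of_one_le (by linarith),
    Real.smoothTransition.one_of_one_le (by linarith), Real.smoothTransition.one_of_one_le
    (by linarith), Real.smoothTransition.one_of_one_le (by linarith)]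
  norm_num

theorem Theta_eq_zero {x : X3} (h : x ∉ Box2) : Theta x = 0 := by
  by_contra h'
  apply h
  unfold Theta at h'
  simp only [mul_ne_zero_iff, ne_eq, Real.smoothTransition.zero_iff_nonpos, not_le] at h'
  obtain ⟨⟨⟨a, b⟩, c, d⟩, e, f⟩ := h'
  exact ⟨by linarith, by linarith, by linarith, by linarith, by linarith, by linarith⟩

end Pool.Agent.BSS
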