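import Mathlib

/-!
Real-variable estimates for the modulus of the waves: lower bounds for `1 - om` at the two kinds of
centers used for domination, and the coarse upper bound.
-/

set_option autoImplicit false
open Real

namespace Pool.Agent.BSS

/-- the exponent `om` of a wave: `B = beta * r ^ 2`, `ξ = xi1`, `z` the height -/
noncomputable def omr (B ξ z : ℝ) : ℝ := (arctan ((ξ + B) / z) - arctan ((ξ - B) / z)) / π

theorem omr_neg (B ξ z : ℝ) : omr B (-ξ) z = omr B ξ z := by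
  unfold omr
  have h1 : (-ξ + B) / z = -((ξ - B) / z) := by ring
  have h2 : (-ξ - B) / z = -((ξ + B) / z) := by ring
  rw [h1, h2, arctan_neg, arctan_neg]
  ring

theorem omr_abs (B ξ z : ℝ) : omr B |ξ| z = omr B ξ z := by
  rcases abs_choice ξ with h | h
  · rw [h]
  · rw [h, omr_neg]

theorem one_sub_omr (B ξ z : ℝ) :
    1 - omr B ξ z = ((π / 2 - arctan ((B + ξ) / z)) + (π / 2 - arctan ((B - ξ) / z))) / π := by
  unfold omr
  have h1 : (ξ - B) / z = -((B - ξ) / z) := by ring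
  have hpi := Real.pi_ne_zero
  rw [h1, arctan_neg, add_comm ξ B]
  field_simp
  ring

theorem pi_half_sub_arctan_div {x z : ℝ} (hx : 0 < x) (hz : 0 < z) :
    π / 2 - arctan (x / z) = arctan (z / x) := by
  have h := Real.arctan_inv_of_pos (x := x / z) (by positivity)
  rw [inv_div] at h
  exact h.symm

/-- (W3), lower bound -/
theorem one_sub_omr_ge {B ξ z : ℝ} (hB : 0 < B) (hz : 0 < z) :
    2 / π * arctan (z / (|ξ| + B)) ≤ 1 - omr B ξ z := by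
  rw [← omr_abs, one_sub_omr]
  have hx := abs_nonneg ξ
  rw [pi_half_sub_arctan_div (by positivity) hz]
  have h1 : arctan (z / (|ξ| + B)) ≤ π / 2 - arctan ((B - |ξ|) / z) := by
    rw [← pi_half_sub_arctan_div (by positivity) hz]
    have h2 : arctan ((B - |ξ|) / z) ≤ arctan ((|ξ| + B) / z) := by
      apply arctan_strictMono.monotone
      apply div_le_div_of_nonneg_right _ hz.le
      linarith
    linarith
  rw [add_comm B |ξ|]
  have hpi := Real.pi_pos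
  rw [div_mul_eq_mul_div, div_le_div_iff_of_pos_right hpi]
  linarith

/-- (W3), the region `|xi1| ≥ beta r ^ 2` -/
theorem one_sub_omr_half {B ξ z : ℝ} (hB : 0 < B) (hz : 0 < z) (h : B ≤ |ξ|) :
    1 / 2 ≤ 1 - omr B ξ z := by
  rw [← omr_abs, one_sub_omr]
  have hpi := Real.pi_pos
  have h1 : arctan ((B - |ξ|) / z) ≤ 0 := by
    rw [arctan_le_zero]
    exact div_nonpos_of_nonpos_of_nonneg (by linarith) hz.le
  have h2 := arctan_lt_pi_div_two ((B + |ξ|) / z)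
  rw [le_div_iff₀ hpi]
  linarith

theorem arctan_le_self' {x : ℝ} (hx : 0 ≤ x) : arctan x ≤ x := by
  rcases hx.lt_or_eq with h | h
  · have h1 : 0 < arctan x := by
      rw [arctan_pos]
      exact h
    have h2 := Real.lt_tan h1 (arctan_lt_pi_div_two x)
    rw [tan_arctan] at h2
    exact h2.le
  · rw [← h, arctan_zero]

/-- (W3), upper bound -/
theorem one_sub_omr_le {B ξ z : ℝ} (hB : 0 < B) (hz : 0 < z) (h : |ξ| ≤ B / 2) :
    1 - omr B ξ z ≤ 4 * z / (π * B) := by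
  rw [← omr_abs, one_sub_omr]
  have hpi := Real.pi_pos
  have hx := abs_nonneg ξ
  rw [pi_half_sub_arctan_div (by positivity) hz, pi_half_sub_arctan_div (by linarith) hz]
  have h1 : arctan (z / (B + |ξ|)) ≤ 2 * z / B := by
    refine (arctan_le_self' (by positivity)).trans ?_
    rw [div_le_div_iff₀ (by positivity) hB]
    nlinarith
  have h2 : arctan (z / (B - |ξ|)) ≤ 2 * z / B := by
    have h3 : 0 < B - |ξ| := by linarith
    refine (arctan_le_self' (by positivity)).trans ?_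
    rw [div_le_div_iff₀ h3 hB]
    nlinarith
  have h3 : 4 * z / (π * B) = (2 * z / B + 2 * z / B) / π := by
    field_simp
    norm_num
  rw [h3]
  exact div_le_div_of_nonneg_right (by linarith) hpi.le

/-- lower bound for `arctan` near zero -/
theorem arctan_ge {x y : ℝ} (hy : 0 ≤ y) (hy1 : y ≤ 1 / 10) (hxy : y ≤ x) :
    99 / 100 * y ≤ arctan x := by
  refine le_trans ?_ (arctan_strictMono.monotone hxy)
  have hmono : MonotoneOn (fun s : ℝ => arctan s - 99 / 100 * s) (Set.Icc 0 (1 / 10)) := by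
    apply monotoneOn_of_deriv_nonneg (convex_Icc _ _)
    · exact (Real.continuous_arctan.sub (continuous_const.mul continuous_id)).continuousOn
    · intro s _
      exact (((hasDerivAt_arctan s).sub ((hasDerivAt_id s).const_mul
        (99 / 100))).differentiableAt).differentiableWithinAt
    · intro s hs
      rw [interior_Icc] at hs
      have h1 : HasDerivAt (fun s : ℝ => arctan s - 99 / 100 * s) (1 / (1 + s ^ 2) -
        99 / 100 * 1) s := (hasDerivAt_arctan s).sub ((hasDerivAt_id s).const_mul (99 / 100))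
      rw [h1.deriv]
      have h2 : 99 / 100 ≤ 1 / (1 + s ^ 2) := by
        rw [le_div_iff₀ (by positivity)]
        nlinarith [hs.1, hs.2]
      linarith
  have h := hmono (Set.left_mem_Icc.mpr (by norm_num)) ⟨hy, hy1⟩ hy
  simp only [arctan_zero, mul_zero, sub_zero] at h
  linarith

theorem two_div_pi_arctan_ge {x N : ℝ} (hN : 100 ≤ N) (hx : 33 / 100 / N ≤ x) :
    1 / (5 * N) ≤ 2 / π * arctan x := by
  have hN0 : 0 < N := by linarith
  have h1 : 33 / 100 / N ≤ 1 / 10 := by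
    rw [div_le_iff₀ hN0]
    linarith
  have h2 := arctan_ge (x := x) (y := 33 / 100 / N) (by positivity) h1 hx
  have hpi := Real.pi_pos
  have hpi2 := Real.pi_lt_d2
  have h3 : 1 / (5 * N) ≤ 2 / π * (99 / 100 * (33 / 100 / N)) := by
    have h4 : 2 / π * (99 / 100 * (33 / 100 / N)) = (6534 / 10000 / π) / N := by
      field_simp
      norm_num
    rw [h4, div_le_div_iff₀ (by positivity) hN0]
    have h5 : 1 / 5 ≤ 6534 / 10000 / π := by
      rw [le_div_iff₀ hpi]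
      linarith
    have h6 := mul_le_mul_of_nonneg_right h5 (by positivity : 0 ≤ 5 * N)
    linarith
  refine h3.trans ?_
  exact mul_le_mul_of_nonneg_left h2 (by positivity)

/-- domination, case (A): the center is the nearest point of `d Z ^ 2`, `d = N rho` -/
theorem dom_A {ρ N ξ₁ ξ₂ z : ℝ} (hρ : 0 < ρ) (hN : 100 ≤ N) (h1 : |ξ₁| ≤ N * ρ / 2)
    (h2 : |ξ₂| ≤ N * ρ / 2) (hz1 : N * ρ / 2 ≤ z) (hz2 : z ≤ 1002 / 1000 * (N * ρ)) :
    1 / (5 * N) ≤ 1 - omr ((ξ₁ ^ 2 + ξ₂ ^ 2 + z ^ 2) / ρ) ξ₁ z ∧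
      ξ₁ ^ 2 + ξ₂ ^ 2 + z ^ 2 ≤ 2 * (N * ρ) ^ 2 := by
  have hN0 : 0 < N := by linarith
  set d : ℝ := N * ρ with hd
  have hd0 : 0 < d := by positivity
  have hz0 : 0 < z := by linarith
  have e1 : ξ₁ ^ 2 ≤ d ^ 2 / 4 := by
    rw [← sq_abs ξ₁]
    nlinarith [abs_nonneg ξ₁]
  have e2 : ξ₂ ^ 2 ≤ d ^ 2 / 4 := by
    rw [← sq_abs ξ₂]
    nlinarith [abs_nonneg ξ₂]
  have e3 : z ^ 2 ≤ 1005 / 1000 * d ^ 2 := by nlinarith
  have hr : ξ₁ ^ 2 + ξ₂ ^ 2 + z ^ 2 ≤ 1505 / 1000 * d ^ 2 := by linarith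
  refine ⟨?_, by nlinarith [sq_nonneg d]⟩
  have hB : 0 < (ξ₁ ^ 2 + ξ₂ ^ 2 + z ^ 2) / ρ := by
    have : 0 < z ^ 2 := by positivity
    have h3 := sq_nonneg ξ₁
    have h4 := sq_nonneg ξ₂
    have : 0 < ξ₁ ^ 2 + ξ₂ ^ 2 + z ^ 2 := by linarith
    positivity
  refine le_trans ?_ (one_sub_omr_ge hB hz0)
  apply two_div_pi_arctan_ge hN
  have hden : 0 < |ξ₁| + (ξ₁ ^ 2 + ξ₂ ^ 2 + z ^ 2) / ρ := by
    have := abs_nonneg ξ₁
    linarith
  have hB2 : (ξ₁ ^ 2 + ξ₂ ^ 2 + z ^ 2) / ρ ≤ 1505 / 1000 * (N * d) := by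
    rw [div_le_iff₀ hρ]
    have : 1505 / 1000 * (N * d) * ρ = 1505 / 1000 * d ^ 2 := by rw [hd]; ring
    linarith
  have hle : |ξ₁| + (ξ₁ ^ 2 + ξ₂ ^ 2 + z ^ 2) / ρ ≤ 151 / 100 * (N * d) := by
    have h3 : d / 2 ≤ 5 / 1000 * (N * d) := by nlinarith
    linarith
  rw [le_div_iff₀ hden]
  have h4 : 33 / 100 / N * (|ξ₁| + (ξ₁ ^ 2 + ξ₂ ^ 2 + z ^ 2) / ρ) ≤
      33 / 100 / N * (151 / 100 * (N * d)) := mul_le_mul_of_nonneg_left hle (by positivity)
  have h5 : 33 / 100 / N * (151 / 100 * (N * d)) = 4983 / 10000 * d := by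
    field_simp
    norm_num
  linarith

/-- domination, case (B): the center lies at distance about `rho / 2` in direction `x1` -/
theorem dom_B {ρ N ξ₁ ξ₂ z : ℝ} (hρ : 0 < ρ) (hN : 100 ≤ N) (h1 : 7 / 16 * ρ ≤ ξ₁)
    (h1' : ξ₁ ≤ 9 / 16 * ρ) (h2 : |ξ₂| ≤ ρ / 16) (hz : 0 < z)
    (hz2 : z ≤ 1002 / 1000 * (N * ρ)) :
    1 / (5 * N) ≤ 1 - omr ((ξ₁ ^ 2 + ξ₂ ^ 2 + z ^ 2) / ρ) ξ₁ z ∧
      ξ₁ ^ 2 + ξ₂ ^ 2 + z ^ 2 ≤ 2 * (N * ρ) ^ 2 := by
  have hN0 : 0 < N := by linarith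
  have e1 : ξ₁ ^ 2 ≤ 81 / 256 * ρ ^ 2 := by nlinarith
  have e2 : ξ₂ ^ 2 ≤ 1 / 256 * ρ ^ 2 := by
    rw [← sq_abs ξ₂]
    nlinarith [abs_nonneg ξ₂]
  have e3 : z ^ 2 ≤ 1005 / 1000 * (N * ρ) ^ 2 := by
    have : 0 < N * ρ := by positivity
    nlinarith
  have hξ0 : 0 < ξ₁ := by nlinarith
  have hNρ : 100 * ρ ≤ N * ρ := mul_le_mul_of_nonneg_right hN hρ.le
  constructor
  swap
  · have h3 : ρ ^ 2 ≤ (N * ρ) ^ 2 / 10000 := by nlinarith
    nlinarith
  have hB : 0 < (ξ₁ ^ 2 + ξ₂ ^ 2 + z ^ 2) / ρ := by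
    have : 0 < z ^ 2 := by positivity
    have h3 := sq_nonneg ξ₁
    have h4 := sq_nonneg ξ₂
    have : 0 < ξ₁ ^ 2 + ξ₂ ^ 2 + z ^ 2 := by linarith
    positivity
  rcases le_total z (3 / 10 * ρ) with hcase | hcase
  · -- near the plane
    have e4 : z ^ 2 ≤ 9 / 100 * ρ ^ 2 := by nlinarith
    have hBle : (ξ₁ ^ 2 + ξ₂ ^ 2 + z ^ 2) / ρ ≤ 42 / 100 * ρ := by
      rw [div_le_iff₀ hρ]
      nlinarith
    have h3 : (ξ₁ ^ 2 + ξ₂ ^ 2 + z ^ 2) / ρ ≤ |ξ₁| := by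
      rw [abs_of_pos hξ0]
      nlinarith
    refine le_trans ?_ (one_sub_omr_half hB hz h3)
    rw [div_le_div_iff₀ (by positivity) (by norm_num)]
    linarith
  · refine le_trans ?_ (one_sub_omr_ge hB hz)
    apply two_div_pi_arctan_ge hN
    have hden : 0 < |ξ₁| + (ξ₁ ^ 2 + ξ₂ ^ 2 + z ^ 2) / ρ := by
      have := abs_nonneg ξ₁
      linarith
    rw [le_div_iff₀ hden]
    have hB2 : (ξ₁ ^ 2 + ξ₂ ^ 2 + z ^ 2) / ρ ≤ 321 / 1000 * ρ + z ^ 2 / ρ := by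
      rw [add_div]
      have h5 : (ξ₁ ^ 2 + ξ₂ ^ 2) / ρ ≤ 321 / 1000 * ρ := by
        rw [div_le_iff₀ hρ]
        nlinarith
      linarith
    have hle : |ξ₁| + (ξ₁ ^ 2 + ξ₂ ^ 2 + z ^ 2) / ρ ≤ 3 * z + z ^ 2 / ρ := by
      rw [abs_of_pos hξ0]
      nlinarith
    have hz3 : z ^ 2 / ρ ≤ 1002 / 1000 * N * z := by
      rw [div_le_iff₀ hρ]
      nlinarith
    have hle2 : |ξ₁| + (ξ₁ ^ 2 + ξ₂ ^ 2 + z ^ 2) / ρ ≤ 2 * N * z := by
      have : 3 * z ≤ 3 / 100 * N * z := by nlinarith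
      have hNz : 0 < N * z := by positivity
      linarith
    have h4 : 33 / 100 / N * (|ξ₁| + (ξ₁ ^ 2 + ξ₂ ^ 2 + z ^ 2) / ρ) ≤
        33 / 100 / N * (2 * N * z) := mul_le_mul_of_nonneg_left hle2 (by positivity)
    have h5 : 33 / 100 / N * (2 * N * z) = 66 / 100 * z := by
      field_simp
      norm_num
    linarith

/-- the coarse upper bound: `r ≥ 2 rho`, `z ≤ 1.01 d'` with `d' = N' rho / n'` -/
theorem coarse_om {ρ N n ξ₁ ξ₂ z : ℝ} (hρ : 0 < ρ) (hN : 0 < N) (hn : 1000 * N ^ 2 ≤ n)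
    (hr : (2 * ρ) ^ 2 ≤ ξ₁ ^ 2 + ξ₂ ^ 2 + z ^ 2) (hz : 0 < z)
    (hz2 : z ≤ 101 / 100 * (N * (ρ / n))) :
    1 - omr ((ξ₁ ^ 2 + ξ₂ ^ 2 + z ^ 2) / ρ) ξ₁ z ≤ 1 / (3000 * N) := by
  set r2 : ℝ := ξ₁ ^ 2 + ξ₂ ^ 2 + z ^ 2 with hr2
  have hr0 : 0 < r2 := lt_of_lt_of_le (by positivity) hr
  have hB : 0 < r2 / ρ := by positivity
  have hn0 : 0 < n := lt_of_lt_of_le (by positivity) hn
  have hξ : |ξ₁| ≤ r2 / ρ / 2 := by
    have h1 : ξ₁ ^ 2 ≤ r2 := by
      rw [hr2]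
      have := sq_nonneg ξ₂
      have := sq_nonneg z
      linarith
    have h2 : |ξ₁| ≤ √r2 := abs_le_sqrt h1
    have h3 : 2 * ρ ≤ √r2 := by
      rw [← Real.sqrt_sq (by positivity : 0 ≤ 2 * ρ)]
      exact Real.sqrt_le_sqrt hr
    have h4 : √r2 ≤ r2 / ρ / 2 := by
      rw [div_div, le_div_iff₀ (by positivity)]
      have h5 : √r2 * √r2 = r2 := Real.mul_self_sqrt hr0.le
      have h6 : 0 ≤ √r2 := Real.sqrt_nonneg _
      nlinarith
    exact h2.trans h4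
  refine (one_sub_omr_le hB hz hξ).trans ?_
  have hpi := Real.pi_pos
  have hpi3 := Real.pi_gt_three
  have h1 : 4 * z / (π * (r2 / ρ)) = 4 * z * ρ / (π * r2) := by
    field_simp
  rw [h1, div_le_div_iff₀ (by positivity) (by positivity), one_mul]
  have hpi4 := Real.pi_gt_d2
  have h2 : n * z ≤ 101 / 100 * (N * ρ) := by
    have h3 : n * z ≤ n * (101 / 100 * (N * (ρ / n))) := mul_le_mul_of_nonneg_left hz2 hn0.le
    have h4 : n * (101 / 100 * (N * (ρ / n))) = 101 / 100 * (N * ρ) := by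
      field_simp
    linarith
  have h3 : 1000 * N ^ 2 * z ≤ 101 / 100 * (N * ρ) :=
    (mul_le_mul_of_nonneg_right hn hz.le).trans h2
  have h4 : 1000 * N * z ≤ 101 / 100 * ρ := by
    have h5 : N * (1000 * N * z) ≤ N * (101 / 100 * ρ) := by nlinarith
    exact le_of_mul_le_mul_left h5 hN
  have h5 : 4 * z * ρ * (3000 * N) ≤ 12 * ρ * (101 / 100 * ρ) := by
    have : 4 * z * ρ * (3000 * N) = 12 * ρ * (1000 * N * z) := by ring
    rw [this]
    exact mul_le_mul_of_nonneg_left h4 (by positivity)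
  have h6 : 314 / 100 * (2 * ρ) ^ 2 ≤ π * r2 := by
    have h7 : 314 / 100 ≤ π := by linarith
    exact mul_le_mul h7 hr (by positivity) hpi.le
  nlinarith

end Pool.Agent.BSS
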