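import Pool.Agent.BSS.Base

/-!
MP_bff03b_an, part A2/A3a (doc H/bff03b, sections 6 and 7): the literals of the parameters and of the
sets `gap`, `E_k`, `E`.
-/

namespace Pool.Agent.BSS

/-- The space of the points `x' = (x1, x2)` (sup norm). -/
abbrev X2 := Fin 2 → ℝ

/-- `x' = (x1, x2)`. -/
def pr (x : X3) : X2 := ![x 0, x 1]

/-- `N_k`. -/
def NN (k : ℕ) : ℕ := 100 * 3 ^ Nat.log 4 k

/-- `n_k`. -/
def nn (k : ℕ) : ℕ := 1000 * NN k ^ 2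

/-- `rho_k`. -/
noncomputable def rho : ℕ → ℝ
  | 0 => 1
  | (k + 1) => rho k / (nn (k + 1) : ℝ)

/-- `eta_k`. -/
noncomputable def eta (k : ℕ) : ℝ := 1 / (NN k : ℝ)

/-- `p_k` (for `k ≥ 1`). -/
noncomputable def pp (k : ℕ) : ℝ := rho (k - 1)

/-- `d_k`. -/
noncomputable def dd (k : ℕ) : ℝ := (NN k : ℝ) * rho k

/-- `del_k`. -/
noncomputable def del (k : ℕ) : ℝ := rho (k + 1)

/-- `mu_k`. -/
noncomputable def mu (k : ℕ) : ℝ := rho k / 8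

/-- The distance of `s` to `p ℤ` (for `p > 0`). -/
noncomputable def dZ (p s : ℝ) : ℝ := |s - p * (round (s / p) : ℝ)|

/-- `gap_k`. -/
def gap (k : ℕ) : Set X2 :=
  {y | (∃ i, dZ (pp k) (y i) < 3 * rho k) ∨ (∀ i, dZ (dd k) (y i) < 3 * rho k)}

/-- `E_k`. -/
def EE : ℕ → Set X2
  | 0 => {y | ∀ i, 0 ≤ y i ∧ y i ≤ 1}
  | (k + 1) => EE k \ gap (k + 1)

/-- `E`. -/
def E2 : Set X2 := ⋂ k, EE k

end Pool.Agent.BSS
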