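import Mathlib
import Pool.Agent.BSS.Par0
import Pool.Agent.BSS.Dom0

/-!
Domination: existence of a good center of generation `k + 1` at the places where `chi_k` is not
locally constant, and comparison of the moduli.
-/

set_option autoImplicit false
open Real

namespace Pool.Agent.BSS
namespace Dom

theorem NN_ge (k : ℕ) : (100 : ℝ) ≤ (NN k : ℝ) := by
  unfold NN
  have h : 1 ≤ 3 ^ Nat.log 4 k := Nat.one_le_pow _ _ (by norm_num)
  push_cast
  have h' : (1 : ℝ) ≤ (3 : ℝ) ^ Nat.log 4 k := by exact_mod_cast h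
  linarith

theorem nn_eq (k : ℕ) : (nn k : ℝ) = 1000 * (NN k : ℝ) ^ 2 := by
  unfold nn
  push_cast
  ring

theorem nn_ge (k : ℕ) : (10000000 : ℝ) ≤ (nn k : ℝ) := by
  rw [nn_eq]
  have := NN_ge k
  nlinarith

theorem rho_succ (k : ℕ) : rho (k + 1) = rho k / (nn (k + 1) : ℝ) := rfl

theorem rho_pos (k : ℕ) : 0 < rho k := by
  induction k with
  | zero => simp [rho]
  | succ k ih =>
    rw [rho_succ]
    have := nn_ge (k + 1)
    have : (0:ℝ) < nn (k + 1) := by linarith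
    positivity

theorem rho_le_one (k : ℕ) : rho k ≤ 1 := by
  induction k with
  | zero => simp [rho]
  | succ k ih =>
    rw [rho_succ]
    have h1 := nn_ge (k + 1)
    have h2 : (0:ℝ) < nn (k + 1) := by linarith
    rw [div_le_one h2]
    linarith

theorem rho_succ_le (k : ℕ) : rho (k + 1) ≤ rho k / 10000000 := by
  rw [rho_succ]
  exact div_le_div_of_nonneg_left (rho_pos k).le (by norm_num) (nn_ge _)

theorem dZ_le {p s : ℝ} (hp : 0 < p) (m : ℤ) : dZ p s ≤ |s - p * m| := by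
  unfold dZ
  have h1 := round_le (s / p) m
  have h2 : s - p * (round (s / p) : ℝ) = p * (s / p - (round (s / p) : ℝ)) := by
    field_simp
  have h3 : s - p * (m : ℝ) = p * (s / p - (m : ℝ)) := by
    field_simp
  rw [h2, h3, abs_mul, abs_mul, abs_of_pos hp]
  exact mul_le_mul_of_nonneg_left h1 hp.le

theorem dZ_le_add {p s b : ℝ} (hp : 0 < p) : dZ p b ≤ |s - b| + dZ p s := by
  have h1 := dZ_le (s := b) hp (round (s / p))
  refine h1.trans ?_
  unfold dZ
  have h2 : b - p * (round (s / p) : ℝ) = (s - p * (round (s / p) : ℝ)) - (s - b) := by ring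
  rw [h2]
  have := abs_sub (s - p * (round (s / p) : ℝ)) (s - b)
  linarith

theorem dZ_mul_int {p : ℝ} (hp : 0 < p) (m : ℤ) : dZ p (p * m) = 0 := by
  have h1 := dZ_le (s := p * m) hp m
  rw [sub_self, abs_zero] at h1
  exact le_antisymm h1 (abs_nonneg _)

/-- distance to the nearest lattice point -/
theorem abs_sub_round_le {p : ℝ} (hp : 0 < p) (s : ℝ) :
    |s - p * (round (s / p) : ℝ)| ≤ p / 2 := by
  have h1 := abs_sub_round (s / p)
  have h2 : s - p * (round (s / p) : ℝ) = p * (s / p - (round (s / p) : ℝ)) := by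
    field_simp
  rw [h2, abs_mul, abs_of_pos hp]
  have := mul_le_mul_of_nonneg_left h1 hp.le
  linarith

/-- A good center of generation `k + 1`. -/
theorem exists_center (k : ℕ) (x : X3) (ht : -(del (k + 1) / 2) ≤ x 2)
    (hreg : (dd (k + 1) / 2 ≤ x 2 ∧ x 2 ≤ dd (k + 1)) ∨
      (x 2 ≤ dd (k + 1) ∧ ∃ i : Fin 2, dZ (pp (k + 1)) (pr x i) ≤ 2 * mu (k + 1))) :
    ∃ b : X2, (∀ i, ∃ m : ℤ, b i = rho (k + 1) / 8 * m) ∧
      ((∃ i, dZ (pp (k + 1)) (b i) ≤ rho (k + 1)) ∨ (∀ i, dZ (dd (k + 1)) (b i) ≤ rho (k + 1))) ∧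
      (∀ i, |pr x i - b i| ≤ dd (k + 1)) ∧
      0 < x 2 + del (k + 1) ∧
      1 / (5 * (NN (k + 1) : ℝ)) ≤ 1 - omr (((pr x 0 - b 0) ^ 2 + (pr x 1 - b 1) ^ 2 +
        (x 2 + del (k + 1)) ^ 2) / rho (k + 1)) (pr x 0 - b 0) (x 2 + del (k + 1)) ∧
      (pr x 0 - b 0) ^ 2 + (pr x 1 - b 1) ^ 2 + (x 2 + del (k + 1)) ^ 2 ≤ 1 := by
  have hρ := rho_pos (k + 1)
  have hρ1 := rho_le_one k
  have hN := NN_ge (k + 1)
  have hN0 : (0:ℝ) < NN (k + 1) := by linarith
  have hδ0 : 0 < del (k + 1) := rho_pos _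
  have hδ : del (k + 1) ≤ rho (k + 1) / 10000000 := rho_succ_le (k + 1)
  have hdd : dd (k + 1) = (NN (k + 1) : ℝ) * rho (k + 1) := rfl
  have hdd0 : 0 < dd (k + 1) := by rw [hdd]; positivity
  have hpp : pp (k + 1) = rho k := by simp [pp]
  have hpp0 : 0 < pp (k + 1) := by rw [hpp]; exact rho_pos k
  have hmu : mu (k + 1) = rho (k + 1) / 8 := rfl
  have hNρ : 100 * rho (k + 1) ≤ dd (k + 1) := by
    rw [hdd]
    exact mul_le_mul_of_nonneg_right hN hρ.le
  have hsmall : 2 * ((NN (k + 1) : ℝ) * rho (k + 1)) ^ 2 ≤ 1 := by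
    have h1 : (NN (k + 1) : ℝ) * rho (k + 1) ≤ 1 / 100 := by
      rw [rho_succ, nn_eq]
      rw [mul_div_assoc', div_le_iff₀ (by positivity)]
      nlinarith
    have h2 : 0 ≤ (NN (k + 1) : ℝ) * rho (k + 1) := by positivity
    nlinarith
  have hz0 : 0 < x 2 + del (k + 1) := by linarith
  rcases hreg with ⟨hA1, hA2⟩ | ⟨hB1, i, hi⟩
  · -- case (A)
    refine ⟨fun i => dd (k + 1) * (round (pr x i / dd (k + 1)) : ℝ), ?_, Or.inr ?_, ?_, hz0, ?_⟩
    · intro i
      refine ⟨8 * (NN (k + 1) : ℤ) * round (pr x i / dd (k + 1)), ?_⟩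
      rw [hdd]
      push_cast
      ring
    · intro i
      simp only
      rw [dZ_mul_int hdd0]
      exact hρ.le
    · intro i
      exact (abs_sub_round_le hdd0 _).trans (by linarith)
    · have h0 := abs_sub_round_le hdd0 (pr x 0)
      have h1 := abs_sub_round_le hdd0 (pr x 1)
      obtain ⟨e1, e2⟩ := dom_A (ξ₁ := pr x 0 - dd (k + 1) * (round (pr x 0 / dd (k + 1)) : ℝ))
        (ξ₂ := pr x 1 - dd (k + 1) * (round (pr x 1 / dd (k + 1)) : ℝ))
        (z := x 2 + del (k + 1)) hρ hN (by rw [← hdd]; exact h0) (by rw [← hdd]; exact h1)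
        (by rw [← hdd]; linarith) (by rw [← hdd]; linarith)
      exact ⟨e1, e2.trans hsmall⟩
  · -- case (B)
    have hρ8 : 0 < rho (k + 1) / 8 := by positivity
    obtain ⟨c, hc⟩ : ∃ c : X2, c = ![rho (k + 1) / 2, 0] := ⟨_, rfl⟩
    obtain ⟨b, hb⟩ : ∃ b : X2, b = fun j =>
      rho (k + 1) / 8 * (round ((pr x j - c j) / (rho (k + 1) / 8)) : ℝ) := ⟨_, rfl⟩
    have hbj : ∀ j, |pr x j - c j - b j| ≤ rho (k + 1) / 16 := by
      intro j
      rw [hb]
      refine (abs_sub_round_le hρ8 (pr x j - c j)).trans (by linarith)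
    have hc0 : c 0 = rho (k + 1) / 2 := by rw [hc]; rfl
    have hc1 : c 1 = 0 := by rw [hc]; rfl
    have hb0 := hbj 0
    have hb1 := hbj 1
    rw [hc0, abs_le] at hb0
    rw [hc1, sub_zero] at hb1
    have hall : ∀ j, |pr x j - b j| ≤ 9 / 16 * rho (k + 1) := by
      intro j
      fin_cases j
      · show |pr x 0 - b 0| ≤ 9 / 16 * rho (k + 1)
        rw [abs_le]
        constructor <;> linarith [hb0.1, hb0.2]
      · show |pr x 1 - b 1| ≤ 9 / 16 * rho (k + 1)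
        linarith
    refine ⟨b, ?_, Or.inl ⟨i, ?_⟩, ?_, hz0, ?_⟩
    · intro j
      exact ⟨round ((pr x j - c j) / (rho (k + 1) / 8)), by rw [hb]⟩
    · have h1 := dZ_le_add (s := pr x i) (b := b i) hpp0
      have h2 := hall i
      rw [hmu] at hi
      linarith
    · intro j
      exact (hall j).trans (by linarith)
    · obtain ⟨e1, e2⟩ := dom_B (ξ₁ := pr x 0 - b 0) (ξ₂ := pr x 1 - b 1)
        (z := x 2 + del (k + 1)) hρ hN (by linarith [hb0.1]) (by linarith [hb0.2]) hb1 hz0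
        (by rw [← hdd]; linarith)
      exact ⟨e1, e2.trans hsmall⟩

/-- The coarse bound for a center at distance at least `2 rho_k`. -/
theorem coarse_one_sub_om (k : ℕ) (x : X3) (a : X2) (ht : -(del (k + 1) / 2) ≤ x 2)
    (ht2 : x 2 ≤ dd (k + 1)) (hxa : ∃ i, 2 * rho k ≤ |pr x i - a i|) :
    0 < x 2 + del k ∧
      (2 * rho k) ^ 2 ≤ (pr x 0 - a 0) ^ 2 + (pr x 1 - a 1) ^ 2 + (x 2 + del k) ^ 2 ∧
      1 - omr (((pr x 0 - a 0) ^ 2 + (pr x 1 - a 1) ^ 2 + (x 2 + del k) ^ 2) / rho k)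
        (pr x 0 - a 0) (x 2 + del k) ≤ 1 / (3000 * (NN (k + 1) : ℝ)) := by
  have hρ := rho_pos k
  have hN := NN_ge (k + 1)
  have hN0 : (0:ℝ) < NN (k + 1) := by linarith
  have hδ : del (k + 1) ≤ del k / 10000000 := rho_succ_le (k + 1)
  have hδ0 : 0 < del k := rho_pos _
  have hz0 : 0 < x 2 + del k := by linarith
  have hr : (2 * rho k) ^ 2 ≤ (pr x 0 - a 0) ^ 2 + (pr x 1 - a 1) ^ 2 + (x 2 + del k) ^ 2 := by
    obtain ⟨i, hi⟩ := hxa
    have h1 : (2 * rho k) ^ 2 ≤ (pr x i - a i) ^ 2 := by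
      rw [← sq_abs (pr x i - a i)]
      exact pow_le_pow_left₀ (by positivity) hi 2
    have h2 : (pr x i - a i) ^ 2 ≤ (pr x 0 - a 0) ^ 2 + (pr x 1 - a 1) ^ 2 := by
      fin_cases i
      · show (pr x 0 - a 0) ^ 2 ≤ _
        have := sq_nonneg (pr x 1 - a 1)
        linarith
      · show (pr x 1 - a 1) ^ 2 ≤ _
        have := sq_nonneg (pr x 0 - a 0)
        linarith
    have h3 := sq_nonneg (x 2 + del k)
    linarith
  refine ⟨hz0, hr, ?_⟩
  refine coarse_om (n := (nn (k + 1) : ℝ)) hρ hN0 (by rw [nn_eq]) hr hz0 ?_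
  have hdd : dd (k + 1) = (NN (k + 1) : ℝ) * (rho k / (nn (k + 1) : ℝ)) := rfl
  have hdel : del k = rho k / (nn (k + 1) : ℝ) := rfl
  have h1 : 0 < rho k / (nn (k + 1) : ℝ) := by rw [← hdel]; exact hδ0
  rw [hdel]
  rw [hdd] at ht2
  nlinarith

/-- Comparison of the exponents. -/
theorem exp_compare {S S' η ρ o o' R R' : ℝ} (hS : 0 < S) (hη : 0 < η)
    (hS' : S' = S * (1 + η / 100)) (hpar : exp (-(S * η / 20)) ≤ ρ ^ 2)
    (ho' : η / 5 ≤ 1 - o') (ho : 1 - o ≤ η / 3000) (hR' : 0 < R') (hR'1 : R' ≤ 1)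
    (hR : (2 * ρ) ^ 2 ≤ R) (hρ : 0 < ρ) :
    exp (S * η / 50) * (exp (-(S / 2) - S / 2 * o) / R) ≤ exp (-(S' / 2) - S' / 2 * o') / R' := by
  have hR0 : 0 < R := lt_of_lt_of_le (by positivity) hR
  have hS'0 : S ≤ S' := by
    rw [hS']
    nlinarith [mul_pos hS hη]
  have h1 : exp (-(S' / 2) - S' / 2 * o') ≤ exp (-(S' / 2) - S' / 2 * o') / R' := by
    rw [le_div_iff₀ hR']
    have := exp_pos (-(S' / 2) - S' / 2 * o')
    nlinarith
  refine le_trans ?_ h1
  have h2 : exp (S * η / 50) * (exp (-(S / 2) - S / 2 * o) / R) =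
      exp (S * η / 50 + (-(S / 2) - S / 2 * o)) / R := by
    rw [exp_add]
    ring
  rw [h2, div_le_iff₀ hR0]
  have h3 : exp (-(S' / 2) - S' / 2 * o') * ρ ^ 2 ≤ exp (-(S' / 2) - S' / 2 * o') * R := by
    apply mul_le_mul_of_nonneg_left _ (exp_pos _).le
    have h4 : (2 * ρ) ^ 2 = 4 * ρ ^ 2 := by ring
    have h5 := sq_nonneg ρ
    linarith
  refine le_trans ?_ h3
  have h4 : exp (-(S' / 2) - S' / 2 * o') * exp (-(S * η / 20)) ≤
      exp (-(S' / 2) - S' / 2 * o') * ρ ^ 2 := mul_le_mul_of_nonneg_left hpar (exp_pos _).le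
  refine le_trans ?_ h4
  rw [← exp_add]
  apply exp_le_exp.mpr
  have h5 : S' * (η / 5) ≤ S' * (1 - o') := mul_le_mul_of_nonneg_left ho' (by linarith)
  have h6 : S * (1 - o) ≤ S * (η / 3000) := mul_le_mul_of_nonneg_left ho hS.le
  have h7 : S * (η / 5) ≤ S' * (η / 5) := mul_le_mul_of_nonneg_right hS'0 (by positivity)
  have hSη : 0 < S * η := mul_pos hS hη
  have h8 : S' = S + S * η / 100 := by rw [hS']; ring
  nlinarith

/-- Comparison with the constant wave of generation zero. -/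
theorem exp_compare_zero {S S' η o' R' : ℝ} (hS : 0 < S) (hη : 0 < η)
    (hS' : S' = S * (1 + η / 100)) (ho' : η / 5 ≤ 1 - o') (hR' : 0 < R') (hR'1 : R' ≤ 1) :
    exp (S * η / 50) * exp (-S) ≤ exp (-(S' / 2) - S' / 2 * o') / R' := by
  have hS'0 : S ≤ S' := by
    rw [hS']
    nlinarith [mul_pos hS hη]
  have h1 : exp (-(S' / 2) - S' / 2 * o') ≤ exp (-(S' / 2) - S' / 2 * o') / R' := by
    rw [le_div_iff₀ hR']
    have := exp_pos (-(S' / 2) - S' / 2 * o')
    nlinarith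
  refine le_trans ?_ h1
  rw [← exp_add]
  apply exp_le_exp.mpr
  have h5 : S' * (η / 5) ≤ S' * (1 - o') := mul_le_mul_of_nonneg_left ho' (by linarith)
  have h7 : S * (η / 5) ≤ S' * (η / 5) := mul_le_mul_of_nonneg_right hS'0 (by positivity)
  have hSη : 0 < S * η := mul_pos hS hη
  have h8 : S' = S + S * η / 100 := by rw [hS']; ring
  nlinarith

end Dom
end Pool.Agent.BSS
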