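import Pool.Agent.BSS.Dom0

/-!
# Numerical inequalities for the domination and for the negligible tail

Pure real-variable statements; `exp (-(S / 2) - S / 2 * om) / r2` is the modulus of a wave of
strength `S / 2` and amplitude `S / 2`.
-/

set_option autoImplicit false
open Real

namespace Pool.Agent.BSS

/-- the exponent comparison behind the domination -/
theorem dom_exponent {S η om om' : ℝ} (hS : 0 ≤ S) (hη : 0 < η)
    (h1 : η / 5 ≤ 1 - om') (h2 : 1 - om ≤ η / 3000) :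
    S * η / 50 + (-(S / 2) - S / 2 * om) ≤
      -(S * (1 + η / 100) / 2) - S * (1 + η / 100) / 2 * om' := by
  have hSη : 0 ≤ S * η := by positivity
  have a1 : S / 2 * (1 - om) ≤ S / 2 * (η / 3000) := mul_le_mul_of_nonneg_left h2 (by positivity)
  have hS' : 0 ≤ S * (1 + η / 100) / 2 := by positivity
  have a2 : S * (1 + η / 100) / 2 * (η / 5) ≤ S * (1 + η / 100) / 2 * (1 - om') :=
    mul_le_mul_of_nonneg_left h1 hS'
  have a3 : S / 2 * (η / 5) ≤ S * (1 + η / 100) / 2 * (η / 5) := by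
    refine mul_le_mul_of_nonneg_right ?_ (by positivity)
    nlinarith
  nlinarith

/-- **Domination**, all factors included: `r2` is the square of the distance to a center of the
coarse scale `ρ`, `r2'` the one of the center of the fine scale. -/
theorem dom_log {S η om om' r2 r2' ρ d : ℝ} (hS : 0 ≤ S) (hη : 0 < η)
    (h1 : η / 5 ≤ 1 - om') (h2 : 1 - om ≤ η / 3000) (hr' : 0 < r2') (hr'd : r2' ≤ 2 * d ^ 2)
    (hd : 0 < d) (hdρ : d ≤ ρ) (hr : 4 * ρ ^ 2 ≤ r2) :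
    exp (S * η / 50) * (exp (-(S / 2) - S / 2 * om) / r2) ≤
      exp (-(S * (1 + η / 100) / 2) - S * (1 + η / 100) / 2 * om') / r2' := by
  have hρ : 0 < ρ := hd.trans_le hdρ
  have hr2 : 0 < r2 := lt_of_lt_of_le (by positivity) hr
  rw [← mul_div_assoc, ← exp_add]
  have e1 := exp_le_exp.mpr (dom_exponent hS hη h1 h2)
  have e2 : r2' ≤ r2 := by
    have : d ^ 2 ≤ ρ ^ 2 := pow_le_pow_left₀ hd.le hdρ 2
    nlinarith
  exact div_le_div₀ (exp_pos _).le e1 hr' e2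

/-- domination of the constant wave `exp (-S)` -/
theorem dom_log0 {S η om' r2' : ℝ} (hS : 0 ≤ S) (hη : 0 < η)
    (h1 : η / 5 ≤ 1 - om') (hr' : 0 < r2') (hr'1 : r2' ≤ 1) :
    exp (S * η / 50) * exp (-S) ≤
      exp (-(S * (1 + η / 100) / 2) - S * (1 + η / 100) / 2 * om') / r2' := by
  have h := dom_exponent (om := 1) hS hη h1 (by rw [sub_self]; positivity)
  rw [← exp_add, le_div_iff₀ hr']
  have e1 : S * η / 50 + -S = S * η / 50 + (-(S / 2) - S / 2 * 1) := by ring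
  rw [e1]
  have e2 := exp_le_exp.mpr h
  have e3 : exp (S * η / 50 + (-(S / 2) - S / 2 * 1)) * r2' ≤
      exp (S * η / 50 + (-(S / 2) - S / 2 * 1)) :=
    mul_le_of_le_one_right (exp_pos _).le hr'1
  exact e3.trans e2

/-- the exponent `om` of the waves of the far finer scales -/
theorem tail_om {ρ n R ξ₁ ξ₂ z : ℝ} (hρ : 0 < ρ) (hn : 2 ≤ n) (hR : n * ρ ≤ R)
    (hr : R ^ 2 ≤ ξ₁ ^ 2 + ξ₂ ^ 2 + z ^ 2) (hz : 0 < z) :
    1 - omr ((ξ₁ ^ 2 + ξ₂ ^ 2 + z ^ 2) / ρ) ξ₁ z ≤ 13 / 10 / n := by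
  have hn0 : 0 < n := by linarith
  have hnρ : 0 < n * ρ := by positivity
  have hR0 : 0 < R := hnρ.trans_le hR
  set r2 : ℝ := ξ₁ ^ 2 + ξ₂ ^ 2 + z ^ 2 with hr2
  have hr0 : 0 < r2 := lt_of_lt_of_le (by positivity) hr
  have hB : 0 < r2 / ρ := by positivity
  have hRs : R ≤ √r2 := by
    rw [← Real.sqrt_sq hR0.le]
    exact Real.sqrt_le_sqrt hr
  have hs0 : 0 < √r2 := hR0.trans_le hRs
  have hss : √r2 * √r2 = r2 := Real.mul_self_sqrt hr0.le
  have hξ : |ξ₁| ≤ r2 / ρ / 2 := by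
    have h1 : ξ₁ ^ 2 ≤ r2 := by
      rw [hr2]
      have := sq_nonneg ξ₂
      have := sq_nonneg z
      linarith
    have h2 : |ξ₁| ≤ √r2 := abs_le_sqrt h1
    have h4 : √r2 ≤ r2 / ρ / 2 := by
      rw [div_div, le_div_iff₀ (by positivity)]
      have h5 : 2 * ρ ≤ √r2 := by nlinarith
      nlinarith
    exact h2.trans h4
  refine (one_sub_omr_le hB hz hξ).trans ?_
  have hpi := Real.pi_pos
  have hpi4 := Real.pi_gt_d2
  have hz1 : z ≤ √r2 := by
    rw [← Real.sqrt_sq hz.le]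
    apply Real.sqrt_le_sqrt
    rw [hr2]
    have := sq_nonneg ξ₂
    have := sq_nonneg ξ₁
    linarith
  have h1 : 4 * z / (π * (r2 / ρ)) = 4 * z * ρ / (π * r2) := by
    field_simp
  rw [h1, div_le_div_iff₀ (by positivity) hn0]
  -- `4 z ρ n ≤ 1.3 π r2`
  have h2 : z * (n * ρ) ≤ √r2 * √r2 :=
    mul_le_mul hz1 (hR.trans hRs) hnρ.le hs0.le
  rw [hss] at h2
  have h3 : 4 * r2 ≤ 13 / 10 * (π * r2) := by nlinarith
  calc 4 * z * ρ * n = 4 * (z * (n * ρ)) := by ring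
    _ ≤ 4 * r2 := by linarith
    _ ≤ 13 / 10 * (π * r2) := h3

/-- the modulus of a wave when `1 - om ≤ 1.3 / n` and `R ≤ r` -/
theorem tail_modulus {S n R r2 om : ℝ} (hS : 0 ≤ S) (hR0 : 0 < R) (hr : R ^ 2 ≤ r2)
    (hom : 1 - om ≤ 13 / 10 / n) :
    exp (-(S / 2) - S / 2 * om) / r2 ≤ (R ^ 2)⁻¹ * exp (-(S * (1 - 65 / 100 / n))) := by
  have e1 : -(S / 2) - S / 2 * om ≤ -(S * (1 - 65 / 100 / n)) := by
    have h1 : S / 2 * (1 - om) ≤ S / 2 * (13 / 10 / n) :=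
      mul_le_mul_of_nonneg_left hom (by positivity)
    have h2 : S / 2 * (13 / 10 / n) = S * (65 / 100 / n) := by ring
    have h3 : -(S / 2) - S / 2 * om = -S + S / 2 * (1 - om) := by ring
    rw [h3, mul_sub, mul_one]
    linarith
  have e2 := exp_le_exp.mpr e1
  rw [← div_eq_inv_mul]
  exact div_le_div₀ (exp_pos _).le e2 (by positivity) hr

/-- **The negligible tail**, one wave. -/
theorem tail_wave {S ρ n R ξ₁ ξ₂ z : ℝ} (hS : 0 ≤ S) (hρ : 0 < ρ) (hn : 2 ≤ n)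
    (hR : n * ρ ≤ R) (hr : R ^ 2 ≤ ξ₁ ^ 2 + ξ₂ ^ 2 + z ^ 2) (hz : 0 < z) :
    exp (-(S / 2) - S / 2 * omr ((ξ₁ ^ 2 + ξ₂ ^ 2 + z ^ 2) / ρ) ξ₁ z) /
      (ξ₁ ^ 2 + ξ₂ ^ 2 + z ^ 2) ≤ (R ^ 2)⁻¹ * exp (-(S * (1 - 65 / 100 / n))) := by
  have hR0 : 0 < R := lt_of_lt_of_le (by positivity : 0 < n * ρ) hR
  exact tail_modulus hS hR0 hr (tail_om hρ hn hR hr hz)

/-- The sum of the losses over the finer scales: if `S' ≥ S (1 + η / 400)`-type growth holds, the
tail is below `exp (-(S (1 + η / 400)))`. Here `T` is the strength of the finer scale, `S` the one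
of the scale of comparison, `n ≥ 1000 / η ^ 2`. -/
theorem tail_exponent {S T η n : ℝ} (hS : 0 ≤ S) (hη : 0 < η) (hη1 : η ≤ 1 / 100)
    (hT : S * (1 + η / 100) ≤ T) (hn : 1000 / η ^ 2 ≤ n) :
    S * (1 + η / 200) ≤ T * (1 - 65 / 100 / n) := by
  have hη2 : 0 < η ^ 2 := by positivity
  have hn0 : 0 < n := lt_of_lt_of_le (by positivity) hn
  have h1 : 65 / 100 / n ≤ η ^ 2 / 1000 := by
    rw [div_le_iff₀ hn0]
    have h2 : η ^ 2 / 1000 * (1000 / η ^ 2) ≤ η ^ 2 / 1000 * n :=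
      mul_le_mul_of_nonneg_left hn (by positivity)
    have h3 : η ^ 2 / 1000 * (1000 / η ^ 2) = 1 := by field_simp
    linarith
  have h2 : η ^ 2 / 1000 ≤ η / 100000 := by nlinarith
  have h3 : 65 / 100 / n ≤ η / 100000 := h1.trans h2
  have hT0 : 0 ≤ T := le_trans (by positivity) hT
  have h4 : T * (1 - η / 100000) ≤ T * (1 - 65 / 100 / n) :=
    mul_le_mul_of_nonneg_left (by linarith) hT0
  refine le_trans ?_ h4
  have h5 : S * (1 + η / 100) * (1 - η / 100000) ≤ T * (1 - η / 100000) :=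
    mul_le_mul_of_nonneg_right hT (by linarith)
  refine le_trans ?_ h5
  have h6 : 1 + η / 200 ≤ (1 + η / 100) * (1 - η / 100000) := by nlinarith
  calc S * (1 + η / 200) ≤ S * ((1 + η / 100) * (1 - η / 100000)) :=
        mul_le_mul_of_nonneg_left h6 hS
    _ = _ := by ring

end Pool.Agent.BSS
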