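import Pool.Agent.BSS.Sets
import Pool.Agent.BSS.Nums9
import Pool.Agent.BSS.Dom1

/-!
# Domination, geometric part

Existence of a good center of the next scale with `r ^ 2 ≤ 2 d ^ 2`, distance of the points of
`E_k` to the centers of scale `k`.
-/

set_option autoImplicit false
open Real

namespace Pool.Agent.BSS
namespace Domi

/-- A good center of generation `k + 1`, with the sharp bound of the distance. -/
theorem exists_center_sharp (k : ℕ) (x : X3) (ht : -(del (k + 1) / 2) ≤ x 2)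
    (ht2 : x 2 ≤ dd (k + 1))
    (hreg : dd (k + 1) / 2 ≤ x 2 ∨ ∃ i : Fin 2, dZ (rho k) (pr x i) ≤ 2 * mu (k + 1)) :
    ∃ b : X2, (∀ i, ∃ m : ℤ, b i = rho (k + 1) / 8 * m) ∧
      ((∃ i, dZ (rho k) (b i) ≤ rho (k + 1)) ∨ (∀ i, dZ (dd (k + 1)) (b i) ≤ rho (k + 1))) ∧
      (∀ i, |pr x i - b i| ≤ dd (k + 1)) ∧
      0 < x 2 + del (k + 1) ∧
      1 / (5 * (NN (k + 1) : ℝ)) ≤ 1 - omr (((pr x 0 - b 0) ^ 2 + (pr x 1 - b 1) ^ 2 +
        (x 2 + del (k + 1)) ^ 2) / rho (k + 1)) (pr x 0 - b 0) (x 2 + del (k + 1)) ∧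
      (pr x 0 - b 0) ^ 2 + (pr x 1 - b 1) ^ 2 + (x 2 + del (k + 1)) ^ 2 ≤ 2 * dd (k + 1) ^ 2 := by
  have hρ := rho_pos (k + 1)
  have hN := Dom.NN_ge (k + 1)
  have hN0 : (0:ℝ) < NN (k + 1) := by linarith
  have hδ0 : 0 < del (k + 1) := rho_pos _
  have hδ : del (k + 1) ≤ rho (k + 1) / 10000000 := Dom.rho_succ_le (k + 1)
  have hdd : dd (k + 1) = (NN (k + 1) : ℝ) * rho (k + 1) := rfl
  have hdd0 : 0 < dd (k + 1) := by rw [hdd]; positivity
  have hmu : mu (k + 1) = rho (k + 1) / 8 := rfl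
  have hNρ : 100 * rho (k + 1) ≤ dd (k + 1) := by
    rw [hdd]
    exact mul_le_mul_of_nonneg_right hN hρ.le
  have hz0 : 0 < x 2 + del (k + 1) := by linarith
  rcases hreg with hA1 | ⟨i, hi⟩
  · -- case (A)
    refine ⟨fun i => dd (k + 1) * (round (pr x i / dd (k + 1)) : ℝ), ?_, Or.inr ?_, ?_, hz0, ?_⟩
    · intro i
      refine ⟨8 * (NN (k + 1) : ℤ) * round (pr x i / dd (k + 1)), ?_⟩
      rw [hdd]
      push_cast
      ring
    · intro i
      simp only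
      rw [Dom.dZ_mul_int hdd0]
      exact hρ.le
    · intro i
      exact (Dom.abs_sub_round_le hdd0 _).trans (by linarith)
    · have h0 := Dom.abs_sub_round_le hdd0 (pr x 0)
      have h1 := Dom.abs_sub_round_le hdd0 (pr x 1)
      obtain ⟨e1, e2⟩ := dom_A (ξ₁ := pr x 0 - dd (k + 1) * (round (pr x 0 / dd (k + 1)) : ℝ))
        (ξ₂ := pr x 1 - dd (k + 1) * (round (pr x 1 / dd (k + 1)) : ℝ))
        (z := x 2 + del (k + 1)) hρ hN (by rw [← hdd]; exact h0) (by rw [← hdd]; exact h1)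
        (by rw [← hdd]; linarith) (by rw [← hdd]; linarith)
      exact ⟨e1, e2.trans (by rw [← hdd])⟩
  · -- case (B)
    have hρ8 : 0 < rho (k + 1) / 8 := by positivity
    obtain ⟨c, hc⟩ : ∃ c : X2, c = ![rho (k + 1) / 2, 0] := ⟨_, rfl⟩
    obtain ⟨b, hb⟩ : ∃ b : X2, b = fun j =>
      rho (k + 1) / 8 * (round ((pr x j - c j) / (rho (k + 1) / 8)) : ℝ) := ⟨_, rfl⟩
    have hbj : ∀ j, |pr x j - c j - b j| ≤ rho (k + 1) / 16 := by
      intro j
      rw [hb]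
      refine (Dom.abs_sub_round_le hρ8 (pr x j - c j)).trans (by linarith)
    have hc0 : c 0 = rho (k + 1) / 2 := by rw [hc]; rfl
    have hc1 : c 1 = 0 := by rw [hc]; rfl
    have hb0 := hbj 0
    have hb1 := hbj 1
    rw [hc0, abs_le] at hb0
    rw [hc1, sub_zero] at hb1
    have hall : ∀ j, |pr x j - b j| ≤ 9 / 16 * rho (k + 1) := by
      intro j
      fin_cases j
      · show |pr x 0 - b 0| ≤ 9 / 16 * rho (k + 1)
        rw [abs_le]
        constructor <;> linarith [hb0.1, hb0.2]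
      · show |pr x 1 - b 1| ≤ 9 / 16 * rho (k + 1)
        linarith
    refine ⟨b, ?_, Or.inl ⟨i, ?_⟩, ?_, hz0, ?_⟩
    · intro j
      exact ⟨round ((pr x j - c j) / (rho (k + 1) / 8)), by rw [hb]⟩
    · have h1 := Dom.dZ_le_add (s := pr x i) (b := b i) (rho_pos k)
      have h2 := hall i
      rw [hmu] at hi
      linarith
    · intro j
      exact (hall j).trans (by linarith)
    · obtain ⟨e1, e2⟩ := dom_B (ξ₁ := pr x 0 - b 0) (ξ₂ := pr x 1 - b 1)
        (z := x 2 + del (k + 1)) hρ hN (by linarith [hb0.1]) (by linarith [hb0.2]) hb1 hz0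
        (by rw [← hdd]; linarith)
      exact ⟨e1, e2.trans (by rw [← hdd])⟩

/-- A point of `E_{k+1}` is far from the centers of scale `k + 1`. -/
theorem center_far {k : ℕ} {y a : X2} (hy : y ∈ EE (k + 1))
    (ha : (∃ i, dZ (rho k) (a i) ≤ rho (k + 1)) ∨ (∀ i, dZ (dd (k + 1)) (a i) ≤ rho (k + 1))) :
    ∃ i, 2 * rho (k + 1) ≤ |y i - a i| := by
  rcases ha with ⟨i, hi⟩ | ha
  · refine ⟨i, ?_⟩
    have h1 : 3 * rho (k + 1) ≤ dZ (pp (k + 1)) (y i) := three_rho_le_of_mem hy i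
    rw [pp_succ] at h1
    have h2 := dZ_le_add (rho_pos k) (y i) (a i)
    linarith
  · obtain ⟨i, hi⟩ := exists_three_rho_le_of_mem hy
    refine ⟨i, ?_⟩
    have h2 := dZ_le_add (dd_pos (k + 1)) (y i) (a i)
    have h3 := ha i
    linarith

/-- `d_{k+1} ≤ rho_k / 100000` -/
theorem dd_succ_le (k : ℕ) : dd (k + 1) ≤ rho k / 100000 := by
  have hN := Dom.NN_ge (k + 1)
  have hN0 : (0:ℝ) < NN (k + 1) := by linarith
  have hρ := rho_pos k
  have h1 : dd (k + 1) = (NN (k + 1) : ℝ) * (rho k / (1000 * (NN (k + 1) : ℝ) ^ 2)) := by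
    unfold dd
    rw [rho_succ, Dom.nn_eq]
  rw [h1, mul_div_assoc', div_le_div_iff₀ (by positivity) (by norm_num)]
  nlinarith [mul_pos hρ hN0, mul_nonneg (mul_pos hρ hN0).le (by linarith : (0:ℝ) ≤ NN (k+1) - 100)]

end Domi
end Pool.Agent.BSS
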