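import Pool.Agent.BSS.Sets
import Pool.Agent.BSS.Vol
import Pool.Agent.BSS.Cut0

/-!
MP_bff03b_an, part A3a (doc H/bff03b, section 7): the pockets, the index `k(x)`, distances to the centers and to `E`.
-/

set_option autoImplicit false

namespace Pool.Agent.BSS

open Set Filter Topology

/-! ### numbers -/

theorem dd_succ_eq (k : ℕ) : dd (k + 1) = rho k / (1000 * (NN (k + 1) : ℝ)) := by
  have h : (0 : ℝ) < NN (k + 1) := by exact_mod_cast NN_pos (k + 1)
  unfold dd
  rw [rho_succ]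
  unfold nn
  push_cast
  field_simp

theorem hundred_le_NN_real (k : ℕ) : (100 : ℝ) ≤ NN k := by exact_mod_cast hundred_le_NN k

theorem dd_succ_le (k : ℕ) : dd (k + 1) ≤ rho k / 100000 := by
  have h := hundred_le_NN_real (k + 1)
  have hr := rho_pos k
  rw [dd_succ_eq]
  apply div_le_div_of_nonneg_left hr.le (by norm_num)
  linarith

theorem hundred_rho_le_dd (k : ℕ) : 100 * rho k ≤ dd k := by
  unfold dd
  exact mul_le_mul_of_nonneg_right (hundred_le_NN_real k) (rho_pos k).le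

theorem rho_succ_le (k : ℕ) : rho (k + 1) ≤ rho k / 10000000 := by
  have h1 := hundred_rho_le_dd (k + 1)
  have h2 := dd_succ_le k
  linarith

theorem rho_anti' : Antitone rho := by
  refine antitone_nat_of_succ_le fun k => ?_
  have := rho_succ_le k
  have := rho_pos k
  linarith

theorem rho_le_one' (k : ℕ) : rho k ≤ 1 := by
  have := rho_anti' (Nat.zero_le k)
  rwa [rho_zero] at this

theorem dd_succ_le_dd (k : ℕ) : dd (k + 1) ≤ dd k / 10000000 := by
  have h1 := hundred_rho_le_dd k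
  have h2 := dd_succ_le k
  linarith

theorem dd_anti : Antitone dd := by
  refine antitone_nat_of_succ_le fun k => ?_
  have := dd_succ_le_dd k
  have := dd_pos k
  linarith

theorem rho_le_pow (k : ℕ) : rho k ≤ (1 / 10) ^ k := by
  induction k with
  | zero => simp [rho_zero]
  | succ k ih =>
      have h := rho_succ_le k
      have := rho_pos k
      rw [pow_succ]
      linarith

theorem tendsto_rho : Tendsto rho atTop (𝓝 0) := by
  refine squeeze_zero (fun k => (rho_pos k).le) rho_le_pow ?_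
  exact tendsto_pow_atTop_nhds_zero_of_lt_one (by norm_num) (by norm_num)

theorem tendsto_dd : Tendsto (fun k => dd (k + 1)) atTop (𝓝 0) := by
  refine squeeze_zero (fun k => (dd_pos _).le) (fun k => ?_) tendsto_rho
  have := dd_succ_le k
  have := rho_pos k
  linarith

/-! ### pockets -/

/-- `pocket_k`, closed; `chi_k = 0` in a neighbourhood of it -/
def pocket (k : ℕ) : Set X3 :=
  {x | pr x ∈ EE k ∧ (∀ i, 2 * mu (k + 1) ≤ dZ (rho k) (pr x i)) ∧ x 2 ≤ dd (k + 1) / 2}

/-- an open set with `pocket_k ⊆ UU k`, on which `chi_k = 0` -/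
def UU (k : ℕ) : Set X3 :=
  {x | pr x ∈ EE k ∧ (∀ i, 3 / 2 * mu (k + 1) < dZ (rho k) (pr x i)) ∧ x 2 < 3 / 4 * dd (k + 1)}

theorem mem_UU (k : ℕ) (x : X3) : x ∈ UU k ↔
    pr x ∈ EE k ∧ (∀ i, 3 / 2 * mu (k + 1) < dZ (rho k) (pr x i)) ∧ x 2 < 3 / 4 * dd (k + 1) := Iff.rfl

theorem mem_pocket (k : ℕ) (x : X3) : x ∈ pocket k ↔
    pr x ∈ EE k ∧ (∀ i, 2 * mu (k + 1) ≤ dZ (rho k) (pr x i)) ∧ x 2 ≤ dd (k + 1) / 2 := Iff.rfl

theorem continuous_pr : Continuous pr := by
  unfold pr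
  refine continuous_pi fun i => ?_
  fin_cases i
  · exact continuous_apply 0
  · exact continuous_apply 1

theorem isClosed_pocket (k : ℕ) : IsClosed (pocket k) := by
  have e : pocket k = pr ⁻¹' EE k ∩ ((⋂ i, {x : X3 | 2 * mu (k + 1) ≤ dZ (rho k) (pr x i)}) ∩
      {x : X3 | x 2 ≤ dd (k + 1) / 2}) := by
    ext x
    simp [mem_pocket]
  rw [e]
  refine ((isClosed_EE k).preimage continuous_pr).inter ((isClosed_iInter fun i => ?_).inter ?_)
  · exact isClosed_le continuous_const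
      ((continuous_dZ (rho_pos k)).comp ((continuous_apply i).comp continuous_pr))
  · exact isClosed_le (continuous_apply 2) continuous_const

/-- the interior points of the region of `pocket k`, with parameters: an open set -/
theorem isOpen_pocketLike (k : ℕ) {c s : ℝ} (hc : 0 ≤ c) :
    IsOpen {x : X3 | pr x ∈ EE k ∧ (∀ i, c < dZ (rho k) (pr x i)) ∧ x 2 < s} := by
  rw [isOpen_iff_mem_nhds]
  rintro x ⟨h1, h2, h3⟩
  have a1 : ∀ᶠ y in 𝓝 x, pr y ∈ EE k := by
    have := (EE_eventually k (y := pr x) fun i => lt_of_le_of_lt hc (h2 i))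
    have := continuous_pr.continuousAt.eventually this
    filter_upwards [this] with y hy
    exact hy.2 h1
  have a2 : ∀ᶠ y in 𝓝 x, ∀ i, c < dZ (rho k) (pr y i) := by
    rw [eventually_all]
    intro i
    have hc : Continuous fun y : X3 => dZ (rho k) (pr y i) :=
      (continuous_dZ (rho_pos k)).comp ((continuous_apply i).comp continuous_pr)
    exact continuousAt_const.eventually_lt hc.continuousAt (h2 i)
  have a3 : ∀ᶠ y : X3 in 𝓝 x, y 2 < s :=
    (continuous_apply 2).continuousAt.eventually_lt continuousAt_const h3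
  filter_upwards [a1, a2, a3] with y b1 b2 b3
  exact ⟨b1, b2, b3⟩

theorem mem_pocket_of_mem {k j : ℕ} (hj : k < j) {x : X3} (h : pr x ∈ EE j) (ht : x 2 ≤ dd (k + 1) / 2) :
    x ∈ pocket k := by
  have h1 : pr x ∈ EE (k + 1) := EE_anti hj h
  refine ⟨EE_succ_subset k h1, fun i => ?_, ht⟩
  have := three_rho_le_of_mem h1 i
  rw [pp_succ] at this
  have hr := rho_pos (k + 1)
  unfold mu
  linarith

theorem dd_le_half {k j : ℕ} (hj : k < j) : dd (j + 1) ≤ dd (k + 1) / 2 := by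
  have h1 : dd (j + 1) ≤ dd (k + 2) := dd_anti (by omega)
  have h2 := dd_succ_le_dd (k + 1)
  have h3 := dd_pos (k + 1)
  linarith

theorem pocket_succ_subset (k : ℕ) : pocket (k + 1) ⊆ pocket k := by
  intro x hx
  refine mem_pocket_of_mem (Nat.lt_succ_self k) hx.1 ?_
  have := dd_le_half (Nat.lt_succ_self k)
  have := dd_pos (k + 2)
  have := hx.2.2
  linarith

theorem pocket_anti : Antitone pocket := antitone_nat_of_succ_le pocket_succ_subset

theorem isOpen_UU (k : ℕ) : IsOpen (UU k) :=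
  isOpen_pocketLike k (by have := mu_pos (k + 1); positivity)

theorem pocket_subset_UU (k : ℕ) : pocket k ⊆ UU k := by
  rintro x ⟨h1, h2, h3⟩
  have hm := mu_pos (k + 1)
  have hd := dd_pos (k + 1)
  exact ⟨h1, fun i => by have := h2 i; linarith, by linarith⟩

theorem UU_succ_subset_pocket (k : ℕ) : UU (k + 1) ⊆ pocket k := by
  rintro x ⟨h1, -, h3⟩
  refine mem_pocket_of_mem (Nat.lt_succ_self k) h1 ?_
  have := dd_le_half (Nat.lt_succ_self k)
  have := dd_pos (k + 1 + 1)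
  linarith

theorem UU_subset_pocket {k j : ℕ} (hj : k < j) : UU j ⊆ pocket k := by
  obtain ⟨i, rfl⟩ : ∃ i, j = i + 1 := ⟨j - 1, by omega⟩
  exact (UU_succ_subset_pocket i).trans (pocket_anti (by omega))

theorem UU_anti : Antitone UU :=
  antitone_nat_of_succ_le fun k => (UU_succ_subset_pocket k).trans (pocket_subset_UU k)

theorem chi_eq_zero_of_mem_UU {k j : ℕ} (hj : j ≤ k) {x : X3} (hx : x ∈ UU k) : chi j x = 0 := by
  have h := UU_anti hj hx
  rw [chi_eq_zero_iff]
  exact ⟨h.1, fun i => (h.2.1 i).le, h.2.2.le⟩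

/-- if `x` is not in `pocket_k`, then for `j > k` the cut-off `chi_j` is `1` at `x` -/
theorem of_notMem_pocket {k j : ℕ} (hj : k < j) {x : X3} (hx : x ∉ pocket k) :
    pr x ∉ EE j ∨ dd (j + 1) < x 2 := by
  by_contra hcon
  push Not at hcon
  obtain ⟨h1, h2⟩ := hcon
  exact hx (mem_pocket_of_mem hj h1 (h2.trans (dd_le_half hj)))

theorem chi_eq_one_of_notMem_pocket {k j : ℕ} (hj : k < j) {x : X3} (hx : x ∉ pocket k) : chi j x = 1 := by
  rcases of_notMem_pocket hj hx with h | h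
  · unfold chi alpha
    rw [if_neg h]
    ring
  · rw [chi_eq_one_iff]
    exact Or.inr h.le

/-! ### the index `k(x)` -/

/-- `k(x)`: the first `k` with `x ∉ pocket k` -/
noncomputable def kk (x : X3) : ℕ := sInf {k | x ∉ pocket k}

theorem exists_notMem_pocket_iff (x : X3) : (∃ k, x ∉ pocket k) ↔ (0 < x 2 ∨ pr x ∉ E2) := by
  constructor
  · intro ⟨k, hk⟩
    by_contra hcon
    push Not at hcon
    obtain ⟨h1, h2⟩ := hcon
    refine hk (mem_pocket_of_mem (Nat.lt_succ_self k) (E2_subset _ h2) ?_)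
    have := dd_pos (k + 1)
    linarith
  · rintro (h | h)
    · have h1 : ∀ᶠ k in atTop, dd (k + 1) < x 2 := tendsto_dd.eventually_lt_const h
      obtain ⟨k, hk⟩ := h1.exists
      refine ⟨k, fun hp => ?_⟩
      have := hp.2.2
      have := dd_pos (k + 1)
      linarith
    · rw [mem_E2] at h
      push Not at h
      obtain ⟨k, hk⟩ := h
      exact ⟨k, fun hp => hk hp.1⟩

theorem notMem_pocket_kk {x : X3} (h : 0 < x 2 ∨ pr x ∉ E2) : x ∉ pocket (kk x) := by
  have h1 : {k | x ∉ pocket k}.Nonempty := (exists_notMem_pocket_iff x).2 h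
  exact Nat.sInf_mem h1

theorem mem_pocket_of_lt_kk {x : X3} {j : ℕ} (h : j < kk x) : x ∈ pocket j := by
  by_contra hcon
  exact Nat.notMem_of_lt_sInf h hcon

theorem kk_le_of_notMem {x : X3} {j : ℕ} (h : x ∉ pocket j) : kk x ≤ j := Nat.sInf_le h

theorem notMem_pocket_of_le {x : X3} {k j : ℕ} (hkj : k ≤ j) (h : x ∉ pocket k) : x ∉ pocket j :=
  fun hj => h (pocket_anti hkj hj)

theorem notMem_pocket_iff_kk_le {x : X3} (h : 0 < x 2 ∨ pr x ∉ E2) (j : ℕ) : x ∉ pocket j ↔ kk x ≤ j :=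
  ⟨kk_le_of_notMem, fun hj => notMem_pocket_of_le hj (notMem_pocket_kk h)⟩

/-- `chi_j = 0` in the open set `UU j`, which contains `x` if `j < k(x)` -/
theorem mem_UU_of_lt_kk {x : X3} {j : ℕ} (h : j < kk x) : x ∈ UU j := pocket_subset_UU j (mem_pocket_of_lt_kk h)

theorem lt_kk_iff {x : X3} (h : 0 < x 2 ∨ pr x ∉ E2) (j : ℕ) : j < kk x ↔ x ∈ pocket j := by
  rw [← not_le, ← notMem_pocket_iff_kk_le h, not_not]

/-! ### distances -/

/-- a point of `E_k` and a center of level `k` (here `k + 1`) are at distance at least `2 rho_k` -/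
theorem two_rho_le_of_center {k : ℕ} {y a : X2} (hy : y ∈ EE (k + 1))
    (ha : (∃ i, dZ (rho k) (a i) ≤ rho (k + 1)) ∨ ∀ i, dZ (dd (k + 1)) (a i) ≤ rho (k + 1)) :
    ∃ i, 2 * rho (k + 1) ≤ |y i - a i| := by
  rcases ha with ⟨i, hi⟩ | ha
  · refine ⟨i, ?_⟩
    have h1 := three_rho_le_of_mem hy i
    rw [pp_succ] at h1
    have h2 := dZ_le_add (rho_pos k) (y i) (a i)
    linarith
  · obtain ⟨i, hi⟩ := exists_three_rho_le_of_mem hy
    refine ⟨i, ?_⟩
    have h2 := dZ_le_add (dd_pos (k + 1)) (y i) (a i)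
    have := ha i
    linarith

/-- a point outside of `pocket_k` is far from `E_(k+1)` or high -/
theorem far_of_notMem_pocket {k : ℕ} {x : X3} (hx : x ∉ pocket k) {e : X2} (he : e ∈ EE (k + 1)) :
    (∃ i, 11 / 4 * rho (k + 1) ≤ |pr x i - e i|) ∨ dd (k + 1) / 2 < x 2 := by
  by_cases ht : dd (k + 1) / 2 < x 2
  · exact Or.inr ht
  left
  push Not at ht
  have hr := rho_pos (k + 1)
  have h3 : ∀ i, 3 * rho (k + 1) ≤ dZ (rho k) (e i) := fun i => by
    have := three_rho_le_of_mem he i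
    rwa [pp_succ] at this
  by_cases hE : pr x ∈ EE k
  · have : ∃ i, dZ (rho k) (pr x i) < 2 * mu (k + 1) := by
      by_contra hcon
      push Not at hcon
      exact hx ⟨hE, hcon, ht⟩
    obtain ⟨i, hi⟩ := this
    refine ⟨i, ?_⟩
    have h1 := dZ_le_add (rho_pos k) (e i) (pr x i)
    rw [abs_sub_comm] at h1
    have h2 := h3 i
    unfold mu at hi
    linarith
  · have : ∃ i, dZ (rho k) (e i) ≤ |e i - pr x i| := by
      by_contra hcon
      push Not at hcon
      exact hE ((EE_iff_of_close k hcon).1 (EE_succ_subset k he))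
    obtain ⟨i, hi⟩ := this
    refine ⟨i, ?_⟩
    rw [abs_sub_comm]
    have := h3 i
    linarith

/-- the set `E x {0}` -/
def EX : Set X3 := {x | pr x ∈ E2 ∧ x 2 = 0}

theorem isClosed_EX : IsClosed EX := by
  have e : EX = pr ⁻¹' E2 ∩ {x : X3 | x 2 = 0} := rfl
  rw [e]
  exact (isClosed_E2.preimage continuous_pr).inter (isClosed_eq (continuous_apply 2) continuous_const)

theorem EX_nonempty : EX.Nonempty := by
  obtain ⟨y, hy⟩ := E2_nonempty
  refine ⟨![y 0, y 1, 0], ?_, rfl⟩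
  have : pr ![y 0, y 1, 0] = y := by
    funext i
    fin_cases i <;> rfl
  rw [this]
  exact hy

theorem abs_pr_sub_le (x y : X3) (i : Fin 2) : |pr x i - pr y i| ≤ dist x y := by
  rw [← Real.dist_eq]
  fin_cases i
  · exact dist_le_pi_dist x y 0
  · exact dist_le_pi_dist x y 1

/-- **the distance to `E x {0}`** -/
theorem two_rho_le_dist {k : ℕ} {x : X3} (hx : x ∉ pocket k) {y : X3} (hy : pr y ∈ E2) (hy2 : y 2 ≤ 0) :
    2 * rho (k + 1) ≤ dist x y := by
  have hr := rho_pos (k + 1)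
  rcases far_of_notMem_pocket hx (E2_subset (k + 1) hy) with ⟨i, hi⟩ | h
  · have := abs_pr_sub_le x y i
    linarith
  · have h1 := hundred_rho_le_dd (k + 1)
    have h2 : |x 2 - y 2| ≤ dist x y := by
      rw [← Real.dist_eq]
      exact dist_le_pi_dist x y 2
    have h3 := le_abs_self (x 2 - y 2)
    linarith

theorem two_rho_le_infDist {k : ℕ} {x : X3} (hx : x ∉ pocket k) :
    2 * rho (k + 1) ≤ Metric.infDist x EX := by
  rw [Metric.le_infDist EX_nonempty]
  rintro y ⟨h1, h2⟩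
  exact two_rho_le_dist hx h1 h2.le

/-- near a point of `E x {0}` all points are in `pocket_k` -/
theorem mem_pocket_of_dist_lt {k : ℕ} {x y : X3} (hy : pr y ∈ E2) (hy2 : y 2 ≤ 0)
    (h : dist x y < 2 * rho (k + 1)) : x ∈ pocket k := by
  by_contra hcon
  exact absurd (two_rho_le_dist hcon hy hy2) (not_le.2 h)

theorem eventually_mem_pocket (k : ℕ) {y : X3} (hy : pr y ∈ E2) (hy2 : y 2 ≤ 0) :
    ∀ᶠ x in 𝓝 y, x ∈ pocket k := by
  have hr := rho_pos (k + 1)
  filter_upwards [Metric.ball_mem_nhds y (by linarith : (0 : ℝ) < 2 * rho (k + 1))] with x hx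
  exact mem_pocket_of_dist_lt hy hy2 hx

/-- a point outside of `pocket_k` is far from the centers of the levels `j ≥ k + 2` (here `j + 1`), or high -/
theorem far_center {k j : ℕ} (hj : k + 1 ≤ j) {x : X3} (hx : x ∉ pocket k) {a : X2}
    (ha : ∃ y ∈ EE j, ∀ i, |a i - y i| ≤ 2 * dd (j + 1)) :
    (∃ i, 5 / 2 * rho (k + 1) ≤ |pr x i - a i|) ∨ dd (k + 1) / 2 < x 2 := by
  obtain ⟨y, hy, hya⟩ := ha
  rcases far_of_notMem_pocket hx (EE_anti hj hy) with ⟨i, hi⟩ | h
  · left
    refine ⟨i, ?_⟩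
    have h1 := hya i
    have h2 : dd (j + 1) ≤ dd (k + 2) := dd_anti (by omega)
    have h3 := dd_succ_le (k + 1)
    have hr := rho_pos (k + 1)
    have h4 : |pr x i - y i| ≤ |pr x i - a i| + |a i - y i| := abs_sub_le _ _ _
    linarith
  · exact Or.inr h

theorem sq_le_of_far {r s X Y Z : ℝ} (hr : 0 ≤ r) (h : r ≤ |X| ∨ r ≤ |Y| ∨ r ≤ |Z|) (hs : s = X ^ 2 + Y ^ 2 + Z ^ 2) :
    r ^ 2 ≤ s := by
  rw [hs]
  rcases h with h | h | h
  · have : r ^ 2 ≤ X ^ 2 := by rw [← sq_abs X]; exact pow_le_pow_left₀ hr h 2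
    nlinarith [sq_nonneg Y, sq_nonneg Z]
  · have : r ^ 2 ≤ Y ^ 2 := by rw [← sq_abs Y]; exact pow_le_pow_left₀ hr h 2
    nlinarith [sq_nonneg X, sq_nonneg Z]
  · have : r ^ 2 ≤ Z ^ 2 := by rw [← sq_abs Z]; exact pow_le_pow_left₀ hr h 2
    nlinarith [sq_nonneg X, sq_nonneg Y]

/-- **(H) of the tail**: `r ≥ 2 rho_(k+1)` for all centers of the levels `j ≥ k + 2` (here `j + 1`) and `x ∉ pocket_k` -/
theorem far_center_sq {k j : ℕ} (hj : k + 1 ≤ j) {x : X3} (hx : x ∉ pocket k) {a : X2}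
    (ha : ∃ y ∈ EE j, ∀ i, |a i - y i| ≤ 2 * dd (j + 1)) {c : ℝ} (hc : 0 ≤ c) :
    (2 * rho (k + 1)) ^ 2 ≤ (x 0 - a 0) ^ 2 + (x 1 - a 1) ^ 2 + (x 2 + c) ^ 2 := by
  have hr := rho_pos (k + 1)
  refine sq_le_of_far (by linarith) ?_ rfl
  rcases far_center hj hx ha with ⟨i, hi⟩ | h
  · fin_cases i
    · left
      have : 5 / 2 * rho (k + 1) ≤ |x 0 - a 0| := hi
      linarith
    · right; left
      have : 5 / 2 * rho (k + 1) ≤ |x 1 - a 1| := hi
      linarith
  · right; right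
    have h1 := hundred_rho_le_dd (k + 1)
    have h2 := le_abs_self (x 2 + c)
    linarith

/-- a point of `E_k` and a center of level `k` (here `k + 1`): `r ≥ 2 rho_k` -/
theorem center_sq {k : ℕ} {x : X3} {a : X2} (hy : pr x ∈ EE (k + 1))
    (ha : (∃ i, dZ (rho k) (a i) ≤ rho (k + 1)) ∨ ∀ i, dZ (dd (k + 1)) (a i) ≤ rho (k + 1)) (c : ℝ) :
    (2 * rho (k + 1)) ^ 2 ≤ (x 0 - a 0) ^ 2 + (x 1 - a 1) ^ 2 + (x 2 + c) ^ 2 := by
  have hr := rho_pos (k + 1)
  refine sq_le_of_far (by linarith) ?_ rfl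
  obtain ⟨i, hi⟩ := two_rho_le_of_center hy ha
  fin_cases i
  · left
    exact hi
  · right; left
    exact hi

/-! ### existence of centers -/

theorem floor_dZ {q : ℝ} (hq : 0 < q) (P T : ℕ) (hP : 0 < P) {s : ℝ} (h : (T : ℝ) * q ≤ dZ ((P : ℝ) * q) s) :
    (T : ℝ) * q ≤ dZ ((P : ℝ) * q) (q * (⌊s / q⌋ : ℤ)) := by
  have hP' : (0 : ℝ) < P := by exact_mod_cast hP
  rw [le_dZ_iff (by positivity)] at h ⊢
  intro m
  have h1 := h m
  have e1 : s - (P : ℝ) * q * m = q * (s / q - P * m) := by field_simp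
  have e2 : q * ((⌊s / q⌋ : ℤ) : ℝ) - (P : ℝ) * q * m = q * (((⌊s / q⌋ : ℤ) : ℝ) - P * m) := by ring
  rw [e1, abs_mul, abs_of_pos hq] at h1
  rw [e2, abs_mul, abs_of_pos hq]
  have h2 : (T : ℝ) ≤ |s / q - P * m| := by
    by_contra hcon
    push Not at hcon
    nlinarith
  have h3 : (T : ℝ) ≤ |((⌊s / q⌋ : ℤ) : ℝ) - P * m| := by
    rw [le_abs] at h2 ⊢
    rcases h2 with h2 | h2
    · left
      have : (((P : ℤ) * m + T : ℤ) : ℝ) ≤ s / q := by
        push_cast
        linarith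
      have := Int.le_floor.2 this
      have h5 : (((P : ℤ) * m + T : ℤ) : ℝ) ≤ ((⌊s / q⌋ : ℤ) : ℝ) := by exact_mod_cast this
      push_cast at h5
      linarith
    · right
      have := Int.floor_le (s / q)
      linarith
  nlinarith

/-- rounding down to the grid `rho_k ℤ^2` keeps `E_j`, `j ≤ k` -/
theorem floor_mem_EE {j k : ℕ} (hjk : j ≤ k) {y : X2} (hy : y ∈ EE j) :
    (fun i => rho k * ((⌊y i / rho k⌋ : ℤ) : ℝ)) ∈ EE j := by
  have hk := rho_pos k
  induction j with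
  | zero =>
      intro i
      have h := (mem_EE_zero y).1 hy i
      have h1 := Int.floor_le (y i / rho k)
      have h2 : (0 : ℤ) ≤ ⌊y i / rho k⌋ := by
        rw [Int.le_floor]
        have := h.1
        push_cast
        positivity
      have h3 : (0 : ℝ) ≤ ((⌊y i / rho k⌋ : ℤ) : ℝ) := by exact_mod_cast h2
      rw [le_div_iff₀ hk] at h1
      constructor
      · positivity
      · linarith [h.2]
  | succ j ih =>
      rw [mem_EE_succ] at hy ⊢
      refine ⟨ih (by omega) hy.1, ?_⟩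
      have h := (notMem_gap_iff _ _).1 hy.2
      rw [notMem_gap_iff]
      obtain ⟨M, hM, e⟩ := exists_rho_eq_mul hjk
      have e3 : 3 * rho (j + 1) = ((3 * M : ℕ) : ℝ) * rho k := by
        rw [e]
        push_cast
        ring
      have e1 : pp (j + 1) = ((nn (j + 1) * M : ℕ) : ℝ) * rho k := by
        rw [pp_eq, e]
        push_cast
        ring
      have e2 : dd (j + 1) = ((NN (j + 1) * M : ℕ) : ℝ) * rho k := by
        unfold dd
        rw [e]
        push_cast
        ring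
      rw [e1, e2, e3] at h ⊢
      refine ⟨fun i => floor_dZ hk _ _ (Nat.mul_pos (nn_pos _) hM) (h.1 i), ?_⟩
      obtain ⟨i, hi⟩ := h.2
      exact ⟨i, floor_dZ hk _ _ (Nat.mul_pos (NN_pos _) hM) hi⟩

end Pool.Agent.BSS
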