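import Pool.Agent.BSS.Defs
import Pool.Agent.BSS.Pock
import Pool.Agent.BSS.Domin0

/-!
# Domination

On the part of `E_k × ℝ` where `chi_k` is not locally zero or one the waves of scale `k + 1`
dominate those of scale `k`.
-/

set_option autoImplicit false
open Real Filter Topology

namespace Pool.Agent.BSS
namespace Domi

theorem eta_div (k : ℕ) (c : ℝ) : eta k / c = 1 / (c * (NN k : ℝ)) := by
  unfold eta
  rw [div_div, mul_comm]

theorem prodn_pos (k : ℕ) : (0:ℝ) < prodn k := by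
  induction k with
  | zero => simp [prodn]
  | succ k ih =>
    show (0:ℝ) < ((prodn k * nn (k + 1) : ℕ) : ℝ)
    have h2 : (0:ℝ) < nn (k + 1) := by exact_mod_cast nn_pos (k + 1)
    push_cast
    positivity

theorem rho_mul_prodn (k : ℕ) : rho k * (prodn k : ℝ) = 1 := by
  induction k with
  | zero => simp [prodn, rho_zero]
  | succ k ih =>
    show rho (k + 1) * ((prodn k * nn (k + 1) : ℕ) : ℝ) = 1
    have h2 : (0:ℝ) < nn (k + 1) := by exact_mod_cast nn_pos (k + 1)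
    rw [rho_succ]
    push_cast
    have h3 : rho k / (nn (k + 1) : ℝ) * ((prodn k : ℝ) * (nn (k + 1) : ℝ)) =
        rho k * (prodn k : ℝ) := by
      field_simp
    rw [h3, ih]

theorem lat_eq (k : ℕ) (m : Fin 2 → ℤ) (i : Fin 2) : lat k m i = rho k / 8 * m i := by
  unfold lat Lk
  have h1 := rho_mul_prodn k
  have h2 : (0:ℝ) < prodn k := prodn_pos k
  have h3 : rho k = 1 / (prodn k : ℝ) := by
    rw [eq_div_iff h2.ne']
    exact h1
  rw [h3]
  push_cast
  field_simp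

/-- the square of the distance to the (lowered) center -/
noncomputable def rsq (k : ℕ) (a : X2) (x : X3) : ℝ :=
  (pr x 0 - a 0) ^ 2 + (pr x 1 - a 1) ^ 2 + (x 2 + del k) ^ 2

theorem norm_Vk_succ (S0 : ℝ) (k : ℕ) (m : Fin 2 → ℤ) (x : X3) (hz : 0 < x 2 + del (k + 1)) :
    ‖Vk S0 (k + 1) m x‖ = exp (-(SS S0 (k + 1) / 2) - SS S0 (k + 1) / 2 *
      omr (rsq (k + 1) (lat (k + 1) m) x / rho (k + 1)) (pr x 0 - lat (k + 1) m 0)
        (x 2 + del (k + 1))) / rsq (k + 1) (lat (k + 1) m) x := by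
  have h := norm_wave (w := wp S0 (k + 1) m) (x := x) hz
  exact h

theorem norm_Vk_zero (S0 : ℝ) (m : Fin 2 → ℤ) (x : X3) : ‖Vk S0 0 m x‖ = exp (-S0) := by
  show ‖Real.exp (-S0) • (1:H)‖ = _
  rw [norm_smul, norm_one, mul_one, Real.norm_eq_abs, abs_of_pos (exp_pos _)]

theorem norm_Vk_le_mk (S0 : ℝ) (k : ℕ) (x : X3) {m : Fin 2 → ℤ} (hm : m ∈ Zk k) :
    ‖Vk S0 k m x‖ ≤ mk S0 k x :=
  le_ciSup (f := fun m : Zk k => ‖Vk S0 k m x‖) (Set.finite_range _).bddAbove ⟨m, hm⟩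

theorem mk_nonneg (S0 : ℝ) (k : ℕ) (x : X3) : 0 ≤ mk S0 k x :=
  Real.iSup_nonneg fun _ => norm_nonneg _

theorem mul_mk_le {S0 : ℝ} {k : ℕ} {x : X3} {A c : ℝ} (hA : 0 ≤ A) (hc : 0 ≤ c)
    (h : ∀ m ∈ Zk k, A * ‖Vk S0 k m x‖ ≤ c) : A * mk S0 k x ≤ c := by
  unfold mk
  rw [Real.mul_iSup_of_nonneg hA]
  exact Real.iSup_le (fun m => h m m.2) hc

theorem dd_le_hundredth (k : ℕ) : dd (k + 1) ≤ 1 / 100 := by
  have h1 := dd_succ_le k
  have h2 := Dom.rho_le_one k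
  linarith

theorem mem_unit_of_mem_EE {k : ℕ} {y : X2} (hy : y ∈ EE k) (i : Fin 2) : 0 ≤ y i ∧ y i ≤ 1 :=
  (mem_EE_zero y).mp (EE_anti (Nat.zero_le k) hy) i

/-- lattice points with the right properties are centers -/
theorem exists_mem_Zk {k : ℕ} {y b : X2} (hy : y ∈ EE k) (hb : ∀ i, ∃ m : ℤ, b i = rho (k + 1) / 8 * m)
    (hb2 : (∃ i, dZ (rho k) (b i) ≤ rho (k + 1)) ∨ (∀ i, dZ (dd (k + 1)) (b i) ≤ rho (k + 1)))
    (hyb : ∀ i, |y i - b i| ≤ dd (k + 1)) : ∃ m ∈ Zk (k + 1), lat (k + 1) m = b := by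
  choose m hm using hb
  have hlat : lat (k + 1) m = b := by
    funext i
    rw [lat_eq, hm]
  refine ⟨m, ?_, hlat⟩
  classical
  rw [Zk, Finset.mem_filter, Fintype.mem_piFinset]
  have hρ := rho_pos (k + 1)
  refine ⟨fun i => ?_, ?_⟩
  · have h1 := abs_le.mp (hyb i)
    have h2 := mem_unit_of_mem_EE hy i
    have h3 := dd_le_hundredth k
    have hL : (Lk (k + 1) : ℝ) = 8 / rho (k + 1) := by
      rw [eq_div_iff hρ.ne']
      unfold Lk
      have := rho_mul_prodn (k + 1)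
      push_cast
      linarith
    have hmi : (m i : ℝ) = b i * (Lk (k + 1) : ℝ) := by
      rw [hL, hm]
      field_simp
    have hL0 : (0:ℝ) < Lk (k + 1) := by rw [hL]; positivity
    rw [Finset.mem_Icc]
    constructor
    · have : (-(Lk (k + 1) : ℝ)) ≤ m i := by
        rw [hmi]
        nlinarith
      exact_mod_cast this
    · have : (m i : ℝ) ≤ 2 * (Lk (k + 1) : ℝ) := by
        rw [hmi]
        exact mul_le_mul_of_nonneg_right (by linarith) hL0.le
      exact_mod_cast this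
  · refine ⟨by rw [hlat]; exact hb2, y, hy, fun i => ?_⟩
    rw [hlat, abs_sub_comm]
    have := dd_pos (k + 1)
    linarith [hyb i]

theorem center_cond {k : ℕ} {m : Fin 2 → ℤ} (hm : m ∈ Zk (k + 1)) :
    (∃ i, dZ (rho k) (lat (k + 1) m i) ≤ rho (k + 1)) ∨
      (∀ i, dZ (dd (k + 1)) (lat (k + 1) m i) ≤ rho (k + 1)) := by
  classical
  rw [Zk, Finset.mem_filter] at hm
  exact hm.2.1

theorem mem_Zk_far {k : ℕ} {y : X2} (hy : y ∈ EE (k + 1)) {m : Fin 2 → ℤ} (hm : m ∈ Zk (k + 1)) :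
    ∃ i, 2 * rho (k + 1) ≤ |y i - lat (k + 1) m i| := center_far hy (center_cond hm)

/-- **Domination.** -/
theorem domination {S0 : ℝ} (hS : 0 < S0) (k : ℕ) (x : X3) (hx : pr x ∈ EE k)
    (ht : -(del (k + 1) / 2) ≤ x 2) (ht2 : x 2 ≤ dd (k + 1))
    (hreg : dd (k + 1) / 2 ≤ x 2 ∨ ∃ i : Fin 2, dZ (rho k) (pr x i) ≤ 2 * mu (k + 1)) :
    exp (SS S0 k * eta (k + 1) / 50) * mk S0 k x ≤ mk S0 (k + 1) x := by
  obtain ⟨b, hb1, hb2, hb3, hz, hom, hr⟩ := exists_center_sharp k x ht ht2 hreg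
  obtain ⟨m', hm', hlat⟩ := exists_mem_Zk hx hb1 hb2 hb3
  have hη := Par.eta_pos (k + 1)
  have hd := dd_pos (k + 1)
  have hSk := SS_pos hS k
  have hr0 : 0 < rsq (k + 1) b x := by
    have h1 := sq_nonneg (pr x 0 - b 0)
    have h2 := sq_nonneg (pr x 1 - b 1)
    have h3 : 0 < (x 2 + del (k + 1)) ^ 2 := by positivity
    unfold rsq
    linarith
  have hV := norm_Vk_succ S0 k m' x hz
  rw [hlat] at hV
  have hom' : eta (k + 1) / 5 ≤ 1 - omr (rsq (k + 1) b x / rho (k + 1)) (pr x 0 - b 0)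
      (x 2 + del (k + 1)) := by
    rw [eta_div]
    exact hom
  refine mul_mk_le (exp_pos _).le (mk_nonneg _ _ _) fun m hm => ?_
  refine le_trans ?_ (norm_Vk_le_mk S0 (k + 1) x hm')
  rw [hV]
  show _ ≤ exp (-(SS S0 k * (1 + eta (k + 1) / 100) / 2) - SS S0 k * (1 + eta (k + 1) / 100) / 2 *
      omr (rsq (k + 1) b x / rho (k + 1)) (pr x 0 - b 0) (x 2 + del (k + 1))) / rsq (k + 1) b x
  cases k with
  | zero =>
    rw [norm_Vk_zero]
    refine dom_log0 hSk.le hη hom' hr0 (hr.trans ?_)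
    have := dd_le_hundredth 0
    nlinarith
  | succ k =>
    obtain ⟨hz', hr', hom2⟩ := Dom.coarse_one_sub_om (k + 1) x (lat (k + 1) m) ht ht2
      (mem_Zk_far hx hm)
    rw [norm_Vk_succ S0 k m x hz']
    refine dom_log (ρ := rho (k + 1)) (d := dd (k + 1 + 1)) hSk.le hη hom' ?_ hr0 hr hd ?_ ?_
    · rw [eta_div]
      exact hom2
    · have h1 := dd_succ_le (k + 1)
      have h2 := rho_pos (k + 1)
      linarith
    · have : (2 * rho (k + 1)) ^ 2 = 4 * rho (k + 1) ^ 2 := by ring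
      rw [← this]
      exact hr'

/-- Domination in the form of an upper bound of `m_k`. -/
theorem mk_le_of_domination {S0 : ℝ} (hS : 0 < S0) (k : ℕ) (x : X3) (hx : pr x ∈ EE k)
    (ht : -(del (k + 1) / 2) ≤ x 2) (ht2 : x 2 ≤ dd (k + 1))
    (hreg : dd (k + 1) / 2 ≤ x 2 ∨ ∃ i : Fin 2, dZ (rho k) (pr x i) ≤ 2 * mu (k + 1)) :
    mk S0 k x ≤ exp (-(SS S0 k * eta (k + 1) / 50)) * mk S0 (k + 1) x := by
  have h := domination hS k x hx ht ht2 hreg
  calc mk S0 k x = exp (-(SS S0 k * eta (k + 1) / 50)) *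
        (exp (SS S0 k * eta (k + 1) / 50) * mk S0 k x) := by
        rw [← mul_assoc, ← exp_add, neg_add_cancel, exp_zero, one_mul]
    _ ≤ _ := mul_le_mul_of_nonneg_left h (exp_pos _).le

/-- Near `x` the cut-off `chi_k` is one, or zero, or `x` is in the region of domination. -/
theorem chi_const_or_region (k : ℕ) (x : X3) :
    (∀ᶠ y in 𝓝 x, chi k y = 1) ∨ (∀ᶠ y in 𝓝 x, chi k y = 0) ∨
      (pr x ∈ EE k ∧ x 2 ≤ dd (k + 1) ∧
        (dd (k + 1) / 2 ≤ x 2 ∨ ∃ i : Fin 2, dZ (rho k) (pr x i) ≤ 2 * mu (k + 1))) := by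
  by_cases hx : pr x ∈ EE k
  · rcases lt_or_ge (dd (k + 1)) (x 2) with ht | ht
    · left
      have h1 : ∀ᶠ y : X3 in 𝓝 x, dd (k + 1) < y 2 :=
        (continuous_apply (2 : Fin 3)).continuousAt.eventually (lt_mem_nhds ht)
      filter_upwards [h1] with y hy
      have h2 : beta k (y 2) = 0 := beta_eq_zero_iff.mpr hy.le
      unfold chi
      rw [h2, mul_zero, sub_zero]
    · by_cases hreg : dd (k + 1) / 2 ≤ x 2 ∨ ∃ i : Fin 2, dZ (rho k) (pr x i) ≤ 2 * mu (k + 1)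
      · exact Or.inr (Or.inr ⟨hx, ht, hreg⟩)
      · push Not at hreg
        right
        left
        have hU : x ∈ UU k := by
          rw [mem_UU]
          have hd := dd_pos (k + 1)
          have hm := mu_pos (k + 1)
          refine ⟨hx, fun i => ?_, by linarith [hreg.1]⟩
          have := hreg.2 i
          linarith
        filter_upwards [(isOpen_UU k).mem_nhds hU] with y hy
        exact chi_eq_zero_of_mem_UU le_rfl hy
  · left
    have h1 : ∀ᶠ y : X3 in 𝓝 x, y ∈ pr ⁻¹' (EE k)ᶜ :=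
      (((isClosed_EE k).isOpen_compl).preimage continuous_pr).mem_nhds hx
    filter_upwards [h1] with y hy
    have h2 : alpha k (pr y) = 0 := alpha_of_notMem hy
    unfold chi
    rw [h2, zero_mul, sub_zero]

/-- **Domination on the support of the derivative of `chi_k`**, in the form used locally. -/
theorem chi_const_or_dom {S0 : ℝ} (hS : 0 < S0) (k : ℕ) (x : X3)
    (ht : -(del (k + 1) / 2) ≤ x 2) :
    (∀ᶠ y in 𝓝 x, chi k y = 1) ∨ (∀ᶠ y in 𝓝 x, chi k y = 0) ∨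
      mk S0 k x ≤ exp (-(SS S0 k * eta (k + 1) / 50)) * mk S0 (k + 1) x := by
  rcases chi_const_or_region k x with h | h | ⟨h1, h2, h3⟩
  · exact Or.inl h
  · exact Or.inr (Or.inl h)
  · exact Or.inr (Or.inr (mk_le_of_domination hS k x h1 ht h2 h3))

theorem eventually_fderiv_eq_zero {f : X3 → ℝ} {c : ℝ} {x : X3} (h : ∀ᶠ y in 𝓝 x, f y = c) :
    ∀ᶠ y in 𝓝 x, fderiv ℝ f y = 0 := by
  filter_upwards [h.eventually_nhds] with y hy
  have h1 : f =ᶠ[𝓝 y] fun _ => c := hy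
  rw [h1.fderiv_eq, fderiv_fun_const]
  rfl

/-- the same with `fderiv ℝ (chi k) = 0` near `x` -/
theorem fderiv_chi_or_dom {S0 : ℝ} (hS : 0 < S0) (k : ℕ) (x : X3)
    (ht : -(del (k + 1) / 2) ≤ x 2) :
    (∀ᶠ y in 𝓝 x, fderiv ℝ (chi k) y = 0) ∨
      mk S0 k x ≤ exp (-(SS S0 k * eta (k + 1) / 50)) * mk S0 (k + 1) x := by
  rcases chi_const_or_dom hS k x ht with h | h | h
  · exact Or.inl (eventually_fderiv_eq_zero h)
  · exact Or.inl (eventually_fderiv_eq_zero h)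
  · exact Or.inr h

end Domi
end Pool.Agent.BSS
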