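import Pool.Agent.BSS.Point

/-!
# MP_bff03b_an (BSS), (G3): square completion
-/

set_option linter.unusedTactic false
set_option linter.unreachableTactic false
set_option linter.unnecessarySeqFocus false

namespace Pool.Agent.BSS

/-- The shift `c_1`. -/
noncomputable def cc1 (s1 s2 : H) : H := (-(1 / 2) : ℝ) • s1 - (1 / 2 : ℝ) • J3 s2
/-- The shift `c_2`. -/
noncomputable def cc2 (s1 s2 : H) : H := (-(1 / 2) : ℝ) • s2 + (1 / 2 : ℝ) • J3 s1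
/-- The shift `c_3`. -/
noncomputable def cc3 (s1 s2 : H) : H := (-(1 / 2) : ℝ) • J2 s1 + (1 / 2 : ℝ) • J1 s2

/-- The correction `ttF` of the volume coefficient. -/
noncomputable def ttF (s1 s2 : H) : ℝ :=
  om1 (cc2 s1 s2) (cc3 s1 s2) + om2 (cc3 s1 s2) (cc1 s1 s2) + om3 (cc1 s1 s2) (cc2 s1 s2)

/-- The coframe `etaF = dy - sum_l c_l dx_l`. -/
noncomputable def etaF (s1 s2 : H) (v : X3 × H) : H :=
  v.2 - v.1 0 • cc1 s1 s2 - v.1 1 • cc2 s1 s2 - v.1 2 • cc3 s1 s2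

/-- `dx_2 ^ dt` on pairs of base vectors. -/
def vdx23 (a b : X3) : ℝ := a 1 * b 2 - a 2 * b 1
/-- `dt ^ dx_1` on pairs of base vectors. -/
def vdx31 (a b : X3) : ℝ := a 2 * b 0 - a 0 * b 2
/-- `dx_1 ^ dx_2 ^ dt`. -/
def vdx123 (a b c : X3) : ℝ :=
  a 0 * (b 1 * c 2 - b 2 * c 1) - a 1 * (b 0 * c 2 - b 2 * c 0) + a 2 * (b 0 * c 1 - b 1 * c 0)

/-- The 3-form `phi vdx123 + <s1,dy> ^ vdx23 + <s2,dy> ^ vdx31 - sum dx_i ^ om_i`. -/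
noncomputable def PhiF (φ : ℝ) (s1 s2 : H) (v1 v2 v3 : X3 × H) : ℝ :=
  φ * vdx123 v1.1 v2.1 v3.1
  + (inner ℝ s1 v1.2 * vdx23 v2.1 v3.1 - inner ℝ s1 v2.2 * vdx23 v1.1 v3.1
      + inner ℝ s1 v3.2 * vdx23 v1.1 v2.1)
  + (inner ℝ s2 v1.2 * vdx31 v2.1 v3.1 - inner ℝ s2 v2.2 * vdx31 v1.1 v3.1
      + inner ℝ s2 v3.2 * vdx31 v1.1 v2.1)
  - (v1.1 0 * om1 v2.2 v3.2 - v2.1 0 * om1 v1.2 v3.2 + v3.1 0 * om1 v1.2 v2.2)
  - (v1.1 1 * om2 v2.2 v3.2 - v2.1 1 * om2 v1.2 v3.2 + v3.1 1 * om2 v1.2 v2.2)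
  - (v1.1 2 * om3 v2.2 v3.2 - v2.1 2 * om3 v1.2 v3.2 + v3.1 2 * om3 v1.2 v2.2)

private theorem cc1_re (s1 s2 : H) : (cc1 s1 s2).re = -(1 / 2) * s1.re + (1 / 2) * s2.imK := by
  simp [cc1] <;> ring
private theorem cc1_imI (s1 s2 : H) : (cc1 s1 s2).imI = -(1 / 2) * s1.imI + (1 / 2) * s2.imJ := by
  simp [cc1] <;> ring
private theorem cc1_imJ (s1 s2 : H) : (cc1 s1 s2).imJ = -(1 / 2) * s1.imJ - (1 / 2) * s2.imI := by
  simp [cc1] <;> ring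
private theorem cc1_imK (s1 s2 : H) : (cc1 s1 s2).imK = -(1 / 2) * s1.imK - (1 / 2) * s2.re := by
  simp [cc1] <;> ring
private theorem cc2_re (s1 s2 : H) : (cc2 s1 s2).re = -(1 / 2) * s2.re - (1 / 2) * s1.imK := by
  simp [cc2] <;> ring
private theorem cc2_imI (s1 s2 : H) : (cc2 s1 s2).imI = -(1 / 2) * s2.imI - (1 / 2) * s1.imJ := by
  simp [cc2] <;> ring
private theorem cc2_imJ (s1 s2 : H) : (cc2 s1 s2).imJ = -(1 / 2) * s2.imJ + (1 / 2) * s1.imI := by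
  simp [cc2] <;> ring
private theorem cc2_imK (s1 s2 : H) : (cc2 s1 s2).imK = -(1 / 2) * s2.imK + (1 / 2) * s1.re := by
  simp [cc2] <;> ring
private theorem cc3_re (s1 s2 : H) : (cc3 s1 s2).re = (1 / 2) * s1.imJ - (1 / 2) * s2.imI := by
  simp [cc3] <;> ring
private theorem cc3_imI (s1 s2 : H) : (cc3 s1 s2).imI = -(1 / 2) * s1.imK + (1 / 2) * s2.re := by
  simp [cc3] <;> ring
private theorem cc3_imJ (s1 s2 : H) : (cc3 s1 s2).imJ = -(1 / 2) * s1.re - (1 / 2) * s2.imK := by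
  simp [cc3] <;> ring
private theorem cc3_imK (s1 s2 : H) : (cc3 s1 s2).imK = (1 / 2) * s1.imI + (1 / 2) * s2.imJ := by
  simp [cc3] <;> ring

/-- (G3), the algebraic identity. -/
theorem PhiF_eq (φ : ℝ) (s1 s2 : H) (v1 v2 v3 : X3 × H) :
    PhiF φ s1 s2 v1 v2 v3 =
      (φ + ttF s1 s2) * vdx123 v1.1 v2.1 v3.1
      - (v1.1 0 * om1 (etaF s1 s2 v2) (etaF s1 s2 v3) - v2.1 0 * om1 (etaF s1 s2 v1) (etaF s1 s2 v3)
          + v3.1 0 * om1 (etaF s1 s2 v1) (etaF s1 s2 v2))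
      - (v1.1 1 * om2 (etaF s1 s2 v2) (etaF s1 s2 v3) - v2.1 1 * om2 (etaF s1 s2 v1) (etaF s1 s2 v3)
          + v3.1 1 * om2 (etaF s1 s2 v1) (etaF s1 s2 v2))
      - (v1.1 2 * om3 (etaF s1 s2 v2) (etaF s1 s2 v3) - v2.1 2 * om3 (etaF s1 s2 v1) (etaF s1 s2 v3)
          + v3.1 2 * om3 (etaF s1 s2 v1) (etaF s1 s2 v2)) := by
  obtain ⟨a1, b1⟩ := v1
  obtain ⟨a2, b2⟩ := v2
  obtain ⟨a3, b3⟩ := v3
  simp only [PhiF, ttF, etaF, om1_eq, om2_eq, om3_eq, inner_eq, vdx123, vdx23, vdx31,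
    Quaternion.re_sub, Quaternion.imI_sub, Quaternion.imJ_sub, Quaternion.imK_sub,
    Quaternion.re_smul, Quaternion.imI_smul, Quaternion.imJ_smul, Quaternion.imK_smul,
    cc1_re, cc1_imI, cc1_imJ, cc1_imK, cc2_re, cc2_imI, cc2_imJ, cc2_imK,
    cc3_re, cc3_imI, cc3_imJ, cc3_imK, smul_eq_mul]
  ring



/-- `gF`, the metric: `psi^(2/3) |dx|^2 + psi^(-1/3) |etaF|^2`, `psi = phi + ttF`. -/
noncomputable def gF (φ : ℝ) (s1 s2 : H) (v w : X3 × H) : ℝ :=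
  (φ + ttF s1 s2) ^ (2 / 3 : ℝ) * (v.1 0 * w.1 0 + v.1 1 * w.1 1 + v.1 2 * w.1 2)
    + (φ + ttF s1 s2) ^ (-(1 / 3) : ℝ) * inner ℝ (etaF s1 s2 v) (etaF s1 s2 w)

/-- The coframe map `v ↦ (psi^(1/3) dx, psi^(-1/6) etaF)`. -/
noncomputable def coF (φ : ℝ) (s1 s2 : H) (v : X3 × H) : X3 × H :=
  ((φ + ttF s1 s2) ^ (1 / 3 : ℝ) • v.1, (φ + ttF s1 s2) ^ (-(1 / 6) : ℝ) • etaF s1 s2 v)

theorem gF_eq_ip (φ : ℝ) (s1 s2 : H) (h : 0 < φ + ttF s1 s2) (v w : X3 × H) :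
    gF φ s1 s2 v w = ip (coF φ s1 s2 v) (coF φ s1 s2 w) := by
  have e1 : (φ + ttF s1 s2) ^ (2 / 3 : ℝ)
      = (φ + ttF s1 s2) ^ (1 / 3 : ℝ) * (φ + ttF s1 s2) ^ (1 / 3 : ℝ) := by
    rw [← Real.rpow_add h]; norm_num
  have e2 : (φ + ttF s1 s2) ^ (-(1 / 3) : ℝ)
      = (φ + ttF s1 s2) ^ (-(1 / 6) : ℝ) * (φ + ttF s1 s2) ^ (-(1 / 6) : ℝ) := by
    rw [← Real.rpow_add h]; norm_num
  simp only [gF, ip, coF, Pi.smul_apply, smul_eq_mul, inner_smul_left, inner_smul_right, e1, e2,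
    conj_trivial]
  ring

private theorem om1_smul_smul (r s : ℝ) (b c : H) : om1 (r • b) (s • c) = r * s * om1 b c := by
  simp only [om1_eq, Quaternion.re_smul, Quaternion.imI_smul, Quaternion.imJ_smul,
    Quaternion.imK_smul, smul_eq_mul]
  ring

private theorem om2_smul_smul (r s : ℝ) (b c : H) : om2 (r • b) (s • c) = r * s * om2 b c := by
  simp only [om2_eq, Quaternion.re_smul, Quaternion.imI_smul, Quaternion.imJ_smul,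
    Quaternion.imK_smul, smul_eq_mul]
  ring

private theorem om3_smul_smul (r s : ℝ) (b c : H) : om3 (r • b) (s • c) = r * s * om3 b c := by
  simp only [om3_eq, Quaternion.re_smul, Quaternion.imI_smul, Quaternion.imJ_smul,
    Quaternion.imK_smul, smul_eq_mul]
  ring

/-- (G3): the form is `Phi0` in the coframe. -/
theorem PhiF_eq_Phi0 (φ : ℝ) (s1 s2 : H) (h : 0 < φ + ttF s1 s2) (v1 v2 v3 : X3 × H) :
    PhiF φ s1 s2 v1 v2 v3 = Phi0 (coF φ s1 s2 v1) (coF φ s1 s2 v2) (coF φ s1 s2 v3) := by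
  have e1 : (φ + ttF s1 s2)
      = (φ + ttF s1 s2) ^ (1 / 3 : ℝ) * (φ + ttF s1 s2) ^ (1 / 3 : ℝ)
        * (φ + ttF s1 s2) ^ (1 / 3 : ℝ) := by
    rw [← Real.rpow_add h, ← Real.rpow_add h]; norm_num
  have e2 : (φ + ttF s1 s2) ^ (1 / 3 : ℝ) * (φ + ttF s1 s2) ^ (-(1 / 6) : ℝ)
      * (φ + ttF s1 s2) ^ (-(1 / 6) : ℝ) = 1 := by
    rw [← Real.rpow_add h, ← Real.rpow_add h]; norm_num
  rw [PhiF_eq]
  simp only [Phi0, coF, om1_smul_smul, om2_smul_smul, om3_smul_smul, Pi.smul_apply, smul_eq_mul,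
    vdx123]
  set p := (φ + ttF s1 s2) ^ (1 / 3 : ℝ)
  set q := (φ + ttF s1 s2) ^ (-(1 / 6) : ℝ)
  rw [e1]
  linear_combination
    (-(v1.1 0 * om1 (etaF s1 s2 v2) (etaF s1 s2 v3) - v2.1 0 * om1 (etaF s1 s2 v1) (etaF s1 s2 v3)
          + v3.1 0 * om1 (etaF s1 s2 v1) (etaF s1 s2 v2))
      - (v1.1 1 * om2 (etaF s1 s2 v2) (etaF s1 s2 v3) - v2.1 1 * om2 (etaF s1 s2 v1) (etaF s1 s2 v3)
          + v3.1 1 * om2 (etaF s1 s2 v1) (etaF s1 s2 v2))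
      - (v1.1 2 * om3 (etaF s1 s2 v2) (etaF s1 s2 v3) - v2.1 2 * om3 (etaF s1 s2 v1) (etaF s1 s2 v3)
          + v3.1 2 * om3 (etaF s1 s2 v1) (etaF s1 s2 v2))) * (-e2)


/-- Comass at most one for the metric `gF`. -/
theorem abs_PhiF_le (φ : ℝ) (s1 s2 : H) (h : 0 < φ + ttF s1 s2) (v1 v2 v3 : X3 × H) :
    |PhiF φ s1 s2 v1 v2 v3| ≤
      √(gF φ s1 s2 v1 v1) * √(gF φ s1 s2 v2 v2) * √(gF φ s1 s2 v3 v3) := by
  rw [PhiF_eq_Phi0 φ s1 s2 h, gF_eq_ip φ s1 s2 h, gF_eq_ip φ s1 s2 h, gF_eq_ip φ s1 s2 h]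
  exact abs_Phi0_le _ _ _

theorem gram3_gF (φ : ℝ) (s1 s2 : H) (h : 0 < φ + ttF s1 s2) (v1 v2 v3 : X3 × H) :
    gram3 (gF φ s1 s2) v1 v2 v3
      = gram3 ip (coF φ s1 s2 v1) (coF φ s1 s2 v2) (coF φ s1 s2 v3) := by
  simp only [gram3, gF_eq_ip φ s1 s2 h]

/-- The Gram form of the comass inequality for the metric `gF`. -/
theorem abs_PhiF_le_gram (φ : ℝ) (s1 s2 : H) (h : 0 < φ + ttF s1 s2) (v1 v2 v3 : X3 × H) :
    |PhiF φ s1 s2 v1 v2 v3| ≤ √(gram3 (gF φ s1 s2) v1 v2 v3) := by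
  rw [PhiF_eq_Phi0 φ s1 s2 h, gram3_gF φ s1 s2 h]
  exact abs_Phi0_le_gram _ _ _

theorem gF_comm (φ : ℝ) (s1 s2 : H) (v w : X3 × H) : gF φ s1 s2 v w = gF φ s1 s2 w v := by
  simp only [gF, real_inner_comm]
  ring

theorem etaF_add (s1 s2 : H) (v w : X3 × H) :
    etaF s1 s2 (v + w) = etaF s1 s2 v + etaF s1 s2 w := by
  simp only [etaF, Prod.fst_add, Prod.snd_add, Pi.add_apply, add_smul]
  abel

theorem etaF_smul (s1 s2 : H) (r : ℝ) (v : X3 × H) :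
    etaF s1 s2 (r • v) = r • etaF s1 s2 v := by
  simp only [etaF, Prod.smul_fst, Prod.smul_snd, Pi.smul_apply, smul_eq_mul, mul_smul, smul_sub]

theorem gF_add_left (φ : ℝ) (s1 s2 : H) (v w z : X3 × H) :
    gF φ s1 s2 (v + w) z = gF φ s1 s2 v z + gF φ s1 s2 w z := by
  simp only [gF, etaF_add, inner_add_left, Prod.fst_add, Pi.add_apply]
  ring

theorem gF_smul_left (φ : ℝ) (s1 s2 : H) (r : ℝ) (v z : X3 × H) :
    gF φ s1 s2 (r • v) z = r * gF φ s1 s2 v z := by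
  simp only [gF, etaF_smul, inner_smul_left, Prod.smul_fst, Pi.smul_apply, smul_eq_mul,
    conj_trivial]
  ring

theorem gF_self_nonneg (φ : ℝ) (s1 s2 : H) (h : 0 < φ + ttF s1 s2) (v : X3 × H) :
    0 ≤ gF φ s1 s2 v v := by
  rw [gF_eq_ip φ s1 s2 h]
  exact ip_self_nonneg _

/-! ### The sheet `M` (`s1 = s2 = 0`) -/

@[simp] private theorem J1_zero_sq : J1 0 = 0 := by simp [J1]
@[simp] private theorem J2_zero_sq : J2 0 = 0 := by simp [J2]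
@[simp] private theorem J3_zero_sq : J3 0 = 0 := by simp [J3]

@[simp] theorem cc1_zero : cc1 0 0 = 0 := by simp [cc1]
@[simp] theorem cc2_zero : cc2 0 0 = 0 := by simp [cc2]
@[simp] theorem cc3_zero : cc3 0 0 = 0 := by simp [cc3]
@[simp] theorem ttF_zero : ttF 0 0 = 0 := by simp [ttF, om1, om2, om3]
@[simp] theorem etaF_zero (v : X3 × H) : etaF 0 0 v = v.2 := by simp [etaF]

theorem PhiF_M (φ : ℝ) (a1 a2 a3 : X3) :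
    PhiF φ 0 0 (a1, 0) (a2, 0) (a3, 0) = φ * vdx123 a1 a2 a3 := by
  simp [PhiF, om1, om2, om3]

theorem gram3_gF_M (φ : ℝ) (h : 0 < φ) (a1 a2 a3 : X3) :
    gram3 (gF φ 0 0) (a1, 0) (a2, 0) (a3, 0) = (φ * vdx123 a1 a2 a3) ^ 2 := by
  have e : φ ^ 2 = φ ^ (2 / 3 : ℝ) * φ ^ (2 / 3 : ℝ) * φ ^ (2 / 3 : ℝ) := by
    rw [← Real.rpow_add h, ← Real.rpow_add h, ← Real.rpow_natCast]; norm_num
  simp only [gram3, gF, ttF_zero, etaF_zero, add_zero, inner_zero_left, mul_zero]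
  rw [mul_pow, e, vdx123]
  ring

/-- `M` is calibrated. -/
theorem PhiF_eq_gram_M (φ : ℝ) (h : 0 < φ) (a1 a2 a3 : X3) (ha : 0 ≤ vdx123 a1 a2 a3) :
    PhiF φ 0 0 (a1, 0) (a2, 0) (a3, 0) = √(gram3 (gF φ 0 0) (a1, 0) (a2, 0) (a3, 0)) := by
  rw [PhiF_M, gram3_gF_M φ h, Real.sqrt_sq (mul_nonneg h.le ha)]

theorem vdx123_ee : vdx123 (ee 0) (ee 1) (ee 2) = 1 := by
  simp [vdx123, ee]

/-- `M` is calibrated, on the standard frame. -/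
theorem PhiF_M_ee (φ : ℝ) (h : 0 < φ) :
    PhiF φ 0 0 (ee 0, 0) (ee 1, 0) (ee 2, 0)
        = √(gram3 (gF φ 0 0) (ee 0, 0) (ee 1, 0) (ee 2, 0)) ∧
      0 < PhiF φ 0 0 (ee 0, 0) (ee 1, 0) (ee 2, 0) := by
  refine ⟨PhiF_eq_gram_M φ h _ _ _ (by rw [vdx123_ee]; norm_num), ?_⟩
  rw [PhiF_M, vdx123_ee, mul_one]
  exact h

/-! ### The sheet `N` (`s1 = J2 b`, `s2 = -J1 b`) -/

theorem cc1_N (b : H) : cc1 (J2 b) (-J1 b) = 0 := by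
  ext <;> simp [cc1_re, cc1_imI, cc1_imJ, cc1_imK] <;> rfl

theorem cc2_N (b : H) : cc2 (J2 b) (-J1 b) = 0 := by
  ext <;> simp [cc2_re, cc2_imI, cc2_imJ, cc2_imK] <;> rfl

theorem cc3_N (b : H) : cc3 (J2 b) (-J1 b) = b := by
  ext <;> simp [cc3_re, cc3_imI, cc3_imJ, cc3_imK] <;> ring

theorem ttF_N (b : H) : ttF (J2 b) (-J1 b) = 0 := by
  rw [ttF, cc1_N, cc2_N]
  simp [om1, om2, om3]

theorem etaF_N (b : H) (v : X3 × H) : etaF (J2 b) (-J1 b) v = v.2 - v.1 2 • b := by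
  rw [etaF, cc1_N, cc2_N, cc3_N]
  simp

theorem coF_N (b : H) (v : X3 × H) : coF 1 (J2 b) (-J1 b) v = (v.1, v.2 - v.1 2 • b) := by
  rw [coF, ttF_N, etaF_N]
  simp

/-- `N` is calibrated: `A1, A2, A3` are the partial derivatives of `u`. -/
theorem PhiF_N (A1 A2 A3 b : H)
    (hX : (1 - om3 A1 A2) • (A3 - b) = J2 A1 - J1 A2 + om1 A1 A2 • A1 + om2 A1 A2 • A2)
    (h1 : ‖A1‖ ≤ 1 / 10) (h2 : ‖A2‖ ≤ 1 / 10) :
    PhiF 1 (J2 b) (-J1 b) (ee 0, A1) (ee 1, A2) (ee 2, A3)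
        = √(gram3 (gF 1 (J2 b) (-J1 b)) (ee 0, A1) (ee 1, A2) (ee 2, A3)) ∧
      0 < PhiF 1 (J2 b) (-J1 b) (ee 0, A1) (ee 1, A2) (ee 2, A3) := by
  have h : 0 < 1 + ttF (J2 b) (-J1 b) := by rw [ttF_N]; norm_num
  have e0 : coF 1 (J2 b) (-J1 b) (ee 0, A1) = (ee 0, A1) := by
    rw [coF_N]; simp [ee]
  have e1 : coF 1 (J2 b) (-J1 b) (ee 1, A2) = (ee 1, A2) := by
    rw [coF_N]; simp [ee]
  have e2 : coF 1 (J2 b) (-J1 b) (ee 2, A3) = (ee 2, A3 - b) := by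
    rw [coF_N]; simp [ee]
  rw [gram3_gF 1 _ _ h, PhiF_eq_Phi0 1 _ _ h, e0, e1, e2]
  exact Phi0_eq_gram A1 A2 (A3 - b) hX h1 h2


/-! ### Comparison with the Euclidean metric -/

private theorem norm_J1_sq (b : H) : ‖J1 b‖ = ‖b‖ := by
  have h : ‖qi‖ = 1 := by
    have h2 : ‖qi‖ * ‖qi‖ = 1 := by
      rw [← real_inner_self_eq_norm_mul_norm, inner_eq]; simp
    nlinarith [norm_nonneg qi]
  rw [J1, norm_mul, h, one_mul]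

private theorem norm_J2_sq (b : H) : ‖J2 b‖ = ‖b‖ := by
  have h : ‖qj‖ = 1 := by
    have h2 : ‖qj‖ * ‖qj‖ = 1 := by
      rw [← real_inner_self_eq_norm_mul_norm, inner_eq]; simp
    nlinarith [norm_nonneg qj]
  rw [J2, norm_mul, h, one_mul]

private theorem norm_J3_sq (b : H) : ‖J3 b‖ = ‖b‖ := by
  have h : ‖qk‖ = 1 := by
    have h2 : ‖qk‖ * ‖qk‖ = 1 := by
      rw [← real_inner_self_eq_norm_mul_norm, inner_eq]; simp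
    nlinarith [norm_nonneg qk]
  rw [J3, norm_mul, h, one_mul]

theorem norm_cc1_le {s1 s2 : H} {r : ℝ} (h1 : ‖s1‖ ≤ r) (h2 : ‖s2‖ ≤ r) : ‖cc1 s1 s2‖ ≤ r := by
  rw [cc1]
  refine (norm_sub_le _ _).trans ?_
  rw [norm_smul, norm_smul, norm_J3_sq, Real.norm_eq_abs, Real.norm_eq_abs,
    abs_of_neg (by norm_num), abs_of_pos (by norm_num)]
  linarith

theorem norm_cc2_le {s1 s2 : H} {r : ℝ} (h1 : ‖s1‖ ≤ r) (h2 : ‖s2‖ ≤ r) : ‖cc2 s1 s2‖ ≤ r := by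
  rw [cc2]
  refine (norm_add_le _ _).trans ?_
  rw [norm_smul, norm_smul, norm_J3_sq, Real.norm_eq_abs, Real.norm_eq_abs,
    abs_of_neg (by norm_num), abs_of_pos (by norm_num)]
  linarith

theorem norm_cc3_le {s1 s2 : H} {r : ℝ} (h1 : ‖s1‖ ≤ r) (h2 : ‖s2‖ ≤ r) : ‖cc3 s1 s2‖ ≤ r := by
  rw [cc3]
  refine (norm_add_le _ _).trans ?_
  rw [norm_smul, norm_smul, norm_J2_sq, norm_J1_sq, Real.norm_eq_abs, Real.norm_eq_abs,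
    abs_of_neg (by norm_num), abs_of_pos (by norm_num)]
  linarith

theorem abs_ttF_le {s1 s2 : H} {r : ℝ} (h1 : ‖s1‖ ≤ r) (h2 : ‖s2‖ ≤ r) :
    |ttF s1 s2| ≤ 3 * r ^ 2 := by
  have hr : 0 ≤ r := (norm_nonneg _).trans h1
  have c1 := norm_cc1_le h1 h2
  have c2 := norm_cc2_le h1 h2
  have c3 := norm_cc3_le h1 h2
  have m : ∀ b c : H, ‖b‖ ≤ r → ‖c‖ ≤ r → ‖b‖ * ‖c‖ ≤ r ^ 2 := by
    intro b c hb hc
    rw [sq]
    exact mul_le_mul hb hc (norm_nonneg _) hr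
  have t1 := (abs_om1_le (cc2 s1 s2) (cc3 s1 s2)).trans (m _ _ c2 c3)
  have t2 := (abs_om2_le (cc3 s1 s2) (cc1 s1 s2)).trans (m _ _ c3 c1)
  have t3 := (abs_om3_le (cc1 s1 s2) (cc2 s1 s2)).trans (m _ _ c1 c2)
  rw [ttF]
  rw [abs_le] at t1 t2 t3 ⊢
  constructor <;> linarith [t1.1, t1.2, t2.1, t2.2, t3.1, t3.2]

theorem ip_self_eq (v : X3 × H) :
    ip v v = (v.1 0 ^ 2 + v.1 1 ^ 2 + v.1 2 ^ 2) + ‖v.2‖ ^ 2 := by
  rw [ip, real_inner_self_eq_norm_sq]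
  ring

theorem gF_self_eq (φ : ℝ) (s1 s2 : H) (v : X3 × H) :
    gF φ s1 s2 v v = (φ + ttF s1 s2) ^ (2 / 3 : ℝ) * (v.1 0 ^ 2 + v.1 1 ^ 2 + v.1 2 ^ 2)
      + (φ + ttF s1 s2) ^ (-(1 / 3) : ℝ) * ‖etaF s1 s2 v‖ ^ 2 := by
  rw [gF, real_inner_self_eq_norm_sq]
  ring

/-- `|eta - b|^2 ≤ 3 r^2 |a|^2`. -/
theorem norm_sub_etaF_sq_le {s1 s2 : H} {r : ℝ} (h1 : ‖s1‖ ≤ r) (h2 : ‖s2‖ ≤ r) (v : X3 × H) :
    ‖v.2 - etaF s1 s2 v‖ ^ 2 ≤ 3 * r ^ 2 * (v.1 0 ^ 2 + v.1 1 ^ 2 + v.1 2 ^ 2) := by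
  have hr : 0 ≤ r := (norm_nonneg _).trans h1
  have c1 := norm_cc1_le h1 h2
  have c2 := norm_cc2_le h1 h2
  have c3 := norm_cc3_le h1 h2
  have e : v.2 - etaF s1 s2 v
      = v.1 0 • cc1 s1 s2 + v.1 1 • cc2 s1 s2 + v.1 2 • cc3 s1 s2 := by
    rw [etaF]; abel
  have hn : ‖v.2 - etaF s1 s2 v‖ ≤ r * (|v.1 0| + |v.1 1| + |v.1 2|) := by
    rw [e]
    refine (norm_add₃_le).trans ?_
    rw [norm_smul, norm_smul, norm_smul, Real.norm_eq_abs, Real.norm_eq_abs, Real.norm_eq_abs]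
    have m1 := mul_le_mul_of_nonneg_left c1 (abs_nonneg (v.1 0))
    have m2 := mul_le_mul_of_nonneg_left c2 (abs_nonneg (v.1 1))
    have m3 := mul_le_mul_of_nonneg_left c3 (abs_nonneg (v.1 2))
    linarith
  have hs : (|v.1 0| + |v.1 1| + |v.1 2|) ^ 2 ≤ 3 * (v.1 0 ^ 2 + v.1 1 ^ 2 + v.1 2 ^ 2) := by
    have a0 := sq_abs (v.1 0)
    have a1 := sq_abs (v.1 1)
    have a2 := sq_abs (v.1 2)
    nlinarith [sq_nonneg (|v.1 0| - |v.1 1|), sq_nonneg (|v.1 1| - |v.1 2|),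
      sq_nonneg (|v.1 0| - |v.1 2|)]
  calc ‖v.2 - etaF s1 s2 v‖ ^ 2 ≤ (r * (|v.1 0| + |v.1 1| + |v.1 2|)) ^ 2 :=
        pow_le_pow_left₀ (norm_nonneg _) hn 2
    _ = r ^ 2 * (|v.1 0| + |v.1 1| + |v.1 2|) ^ 2 := by ring
    _ ≤ r ^ 2 * (3 * (v.1 0 ^ 2 + v.1 1 ^ 2 + v.1 2 ^ 2)) :=
        mul_le_mul_of_nonneg_left hs (sq_nonneg r)
    _ = _ := by ring

/-- For small `s_1, s_2` and `φ` close to one, the metric `gF` is equivalent to `ip`. -/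
theorem gF_bounds {φ : ℝ} {s1 s2 : H} (h1 : ‖s1‖ ≤ 1 / 20) (h2 : ‖s2‖ ≤ 1 / 20)
    (hφ : |φ - 1| ≤ 1 / 20) (v : X3 × H) :
    1 / 2 * ip v v ≤ gF φ s1 s2 v v ∧ gF φ s1 s2 v v ≤ 2 * ip v v := by
  have ht := abs_ttF_le h1 h2
  have hs := norm_sub_etaF_sq_le h1 h2 v
  rw [ip_self_eq, gF_self_eq]
  set ψ := φ + ttF s1 s2 with hψ
  set A := v.1 0 ^ 2 + v.1 1 ^ 2 + v.1 2 ^ 2 with hA
  have hA0 : 0 ≤ A := by positivity
  have hψ1 : 9 / 10 ≤ ψ := by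
    have := (abs_le.mp ht).1
    have := (abs_le.mp hφ).1
    linarith
  have hψ2 : ψ ≤ 11 / 10 := by
    have := (abs_le.mp ht).2
    have := (abs_le.mp hφ).2
    linarith
  have hψ0 : 0 < ψ := by linarith
  -- powers
  have p1 : 9 / 10 ≤ ψ ^ (2 / 3 : ℝ) := by
    by_cases h : ψ ≤ 1
    · calc (9 / 10 : ℝ) ≤ ψ := hψ1
        _ = ψ ^ (1 : ℝ) := (Real.rpow_one ψ).symm
        _ ≤ ψ ^ (2 / 3 : ℝ) := Real.rpow_le_rpow_of_exponent_ge hψ0 h (by norm_num)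
    · have := Real.one_le_rpow (not_le.mp h).le (by norm_num : (0 : ℝ) ≤ 2 / 3)
      linarith
  have p2 : ψ ^ (2 / 3 : ℝ) ≤ 11 / 10 := by
    by_cases h : ψ ≤ 1
    · have := Real.rpow_le_one hψ0.le h (by norm_num : (0 : ℝ) ≤ 2 / 3)
      linarith
    · calc ψ ^ (2 / 3 : ℝ) ≤ ψ ^ (1 : ℝ) :=
            Real.rpow_le_rpow_of_exponent_le (not_le.mp h).le (by norm_num)
        _ = ψ := Real.rpow_one ψ
        _ ≤ 11 / 10 := hψ2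
  have q0 : ψ ^ (-(1 / 3) : ℝ) = (ψ ^ (1 / 3 : ℝ))⁻¹ := Real.rpow_neg hψ0.le _
  have r1 : 9 / 10 ≤ ψ ^ (1 / 3 : ℝ) := by
    by_cases h : ψ ≤ 1
    · calc (9 / 10 : ℝ) ≤ ψ := hψ1
        _ = ψ ^ (1 : ℝ) := (Real.rpow_one ψ).symm
        _ ≤ ψ ^ (1 / 3 : ℝ) := Real.rpow_le_rpow_of_exponent_ge hψ0 h (by norm_num)
    · have := Real.one_le_rpow (not_le.mp h).le (by norm_num : (0 : ℝ) ≤ 1 / 3)
      linarith
  have r2 : ψ ^ (1 / 3 : ℝ) ≤ 11 / 10 := by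
    by_cases h : ψ ≤ 1
    · have := Real.rpow_le_one hψ0.le h (by norm_num : (0 : ℝ) ≤ 1 / 3)
      linarith
    · calc ψ ^ (1 / 3 : ℝ) ≤ ψ ^ (1 : ℝ) :=
            Real.rpow_le_rpow_of_exponent_le (not_le.mp h).le (by norm_num)
        _ = ψ := Real.rpow_one ψ
        _ ≤ 11 / 10 := hψ2
  have q1 : 10 / 11 ≤ ψ ^ (-(1 / 3) : ℝ) := by
    rw [q0, le_inv_comm₀ (by norm_num) (by linarith)]
    calc ψ ^ (1 / 3 : ℝ) ≤ 11 / 10 := r2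
      _ = (10 / 11)⁻¹ := by norm_num
  have q2 : ψ ^ (-(1 / 3) : ℝ) ≤ 10 / 9 := by
    rw [q0, inv_le_comm₀ (by linarith) (by norm_num)]
    calc (10 / 9 : ℝ)⁻¹ = 9 / 10 := by norm_num
      _ ≤ _ := r1
  -- the vectors
  set b := ‖v.2‖ with hb
  set e := ‖etaF s1 s2 v‖ with he
  set d := ‖v.2 - etaF s1 s2 v‖ with hd
  have hd0 : 0 ≤ d := norm_nonneg _
  have hb0 : 0 ≤ b := norm_nonneg _
  have he0 : 0 ≤ e := norm_nonneg _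
  have hs' : d ^ 2 ≤ 1 / 100 * A := by
    refine hs.trans ?_
    nlinarith
  have t1 : b ≤ e + d := by
    have := norm_add_le (etaF s1 s2 v) (v.2 - etaF s1 s2 v)
    rwa [add_sub_cancel] at this
  have t2 : e ≤ b + d := by
    have := norm_sub_le v.2 (v.2 - etaF s1 s2 v)
    rwa [sub_sub_cancel] at this
  have u1 : b ^ 2 ≤ 3 / 2 * e ^ 2 + 3 * d ^ 2 := by
    nlinarith [sq_nonneg (e - 2 * d), mul_nonneg he0 hd0, mul_nonneg hb0 hd0]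
  have u2 : e ^ 2 ≤ 3 / 2 * b ^ 2 + 3 * d ^ 2 := by
    nlinarith [sq_nonneg (b - 2 * d), mul_nonneg he0 hd0, mul_nonneg hb0 hd0]
  have m1 : 9 / 10 * A ≤ ψ ^ (2 / 3 : ℝ) * A := mul_le_mul_of_nonneg_right p1 hA0
  have m2 : ψ ^ (2 / 3 : ℝ) * A ≤ 11 / 10 * A := mul_le_mul_of_nonneg_right p2 hA0
  have m3 : 10 / 11 * e ^ 2 ≤ ψ ^ (-(1 / 3) : ℝ) * e ^ 2 :=
    mul_le_mul_of_nonneg_right q1 (sq_nonneg e)
  have m4 : ψ ^ (-(1 / 3) : ℝ) * e ^ 2 ≤ 10 / 9 * e ^ 2 :=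
    mul_le_mul_of_nonneg_right q2 (sq_nonneg e)
  constructor
  · nlinarith
  · nlinarith

end Pool.Agent.BSS
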