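import Pool.Agent.BSS.PrimD
import Pool.Agent.BSS.Square

/-!
# MP_bff03b_an (BSS), G2: the periodic data, the calibration form and the metric on the model space
-/

set_option autoImplicit false
set_option maxSynthPendingDepth 3

open Set Filter Topology
open scoped ContDiff

namespace Pool.Agent.BSS

/-- The periodic data of the construction. -/
structure PData (u : X3 → H) (S1 S2 : X3 → H →L[ℝ] H) : Prop where
  hu : ContDiff ℝ ∞ u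
  h1 : ContDiff ℝ ∞ S1
  h2 : ContDiff ℝ ∞ S2
  s1 : ∀ x y z, inner ℝ (S1 x y) z = inner ℝ y (S1 x z)
  s2 : ∀ x y z, inner ℝ (S2 x y) z = inner ℝ y (S2 x z)
  bu : ∀ x, ‖u x‖ ≤ 1 / 1000
  bdu : ∀ x, ‖fderiv ℝ u x‖ ≤ 1 / 1000
  b1 : ∀ x, ‖S1 x‖ ≤ 1 / 1000
  b2 : ∀ x, ‖S2 x‖ ≤ 1 / 1000
  bd1 : ∀ x, ‖fderiv ℝ S1 x‖ ≤ 1 / 1000
  bd2 : ∀ x, ‖fderiv ℝ S2 x‖ ≤ 1 / 1000
  pu0 : ∀ x, u (x + (2 * Real.pi) • ee 0) = u x
  pu1 : ∀ x, u (x + (2 * Real.pi) • ee 1) = u x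
  p10 : ∀ x, S1 (x + (2 * Real.pi) • ee 0) = S1 x
  p11 : ∀ x, S1 (x + (2 * Real.pi) • ee 1) = S1 x
  p20 : ∀ x, S2 (x + (2 * Real.pi) • ee 0) = S2 x
  p21 : ∀ x, S2 (x + (2 * Real.pi) • ee 1) = S2 x
  sol : ∀ x, 0 ≤ x 2 → ∃ b : H, S1 x (u x) = J2 b ∧ S2 x (u x) = -J1 b ∧
    (1 - om3 (pd u 0 x) (pd u 1 x)) • (pd u 2 x - b) =
      J2 (pd u 0 x) - J1 (pd u 1 x) + om1 (pd u 0 x) (pd u 1 x) • pd u 0 x +
        om2 (pd u 0 x) (pd u 1 x) • pd u 1 x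

theorem PhiE_eq_PhiF (φ : ℝ) (s1 s2 : H) (v1 v2 v3 : ME) :
    PhiE φ s1 s2 v1 v2 v3 = PhiF φ s1 s2 v1 v2 v3 := by
  simp only [PhiE, PhiF, vdx23, vdx31, vdx123]

/-- The calibration form. -/
noncomputable def PhiM (u : X3 → H) (S1 S2 : X3 → H →L[ℝ] H) (p : ME) : ME [⋀^Fin 3]→L[ℝ] ℝ :=
  extDeriv (prim u S1 S2) p

/-- The volume coefficient after completing the square. -/
noncomputable def psiF (u : X3 → H) (S1 S2 : X3 → H →L[ℝ] H) (p : ME) : ℝ :=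
  phiF u S1 S2 p + ttF (S1 p.1 p.2) (S2 p.1 p.2)

/-- The coframe map, as a function of the two fibre vectors. -/
noncomputable def etaC (s1 s2 : H) : ME →L[ℝ] H :=
  ContinuousLinearMap.snd ℝ X3 H - ContinuousLinearMap.smulRightL ℝ ME H (dX 0) (cc1 s1 s2) -
    ContinuousLinearMap.smulRightL ℝ ME H (dX 1) (cc2 s1 s2) -
    ContinuousLinearMap.smulRightL ℝ ME H (dX 2) (cc3 s1 s2)

@[simp] theorem etaC_apply (s1 s2 : H) (v : ME) : etaC s1 s2 v = etaF s1 s2 v := by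
  simp [etaC, etaF]

/-- The flat metric of the base. -/
noncomputable def dotX : ME →L[ℝ] ME →L[ℝ] ℝ :=
  (dX 0).smulRight (dX 0) + (dX 1).smulRight (dX 1) + (dX 2).smulRight (dX 2)

theorem dotX_apply (v w : ME) :
    dotX v w = v.1 0 * w.1 0 + v.1 1 * w.1 1 + v.1 2 * w.1 2 := by
  simp [dotX]

/-- The pull back of the inner product by a linear map. -/
noncomputable def pullIp (L : ME →L[ℝ] H) : ME →L[ℝ] ME →L[ℝ] ℝ :=
  ((ContinuousLinearMap.compL ℝ ME H ℝ).flip L).comp (ipH.comp L)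

@[simp] theorem pullIp_apply (L : ME →L[ℝ] H) (v w : ME) : pullIp L v w = inner ℝ (L v) (L w) := by
  simp [pullIp]

/-- The metric on the model space. -/
noncomputable def gM (u : X3 → H) (S1 S2 : X3 → H →L[ℝ] H) (p : ME) : ME →L[ℝ] ME →L[ℝ] ℝ :=
  (psiF u S1 S2 p) ^ (2 / 3 : ℝ) • dotX +
    (psiF u S1 S2 p) ^ (-(1 / 3) : ℝ) • pullIp (etaC (S1 p.1 p.2) (S2 p.1 p.2))

theorem gM_apply (u : X3 → H) (S1 S2 : X3 → H →L[ℝ] H) (p v w : ME) :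
    gM u S1 S2 p v w = gF (phiF u S1 S2 p) (S1 p.1 p.2) (S2 p.1 p.2) v w := by
  simp only [gM, gF, add_apply, smul_apply, dotX_apply, pullIp_apply, etaC_apply, smul_eq_mul,
    psiF]

variable {u : X3 → H} {S1 S2 : X3 → H →L[ℝ] H}

theorem contDiff_phiF (hu : ContDiff ℝ ∞ u) (h1 : ContDiff ℝ ∞ S1) (h2 : ContDiff ℝ ∞ S2) :
    ContDiff ℝ ∞ (phiF u S1 S2) := by
  have d1 : ContDiff ℝ ∞ fun p : ME => fderiv ℝ S1 p.1 (ee 0) p.2 :=
    (((h1.fderiv_right (by simp : (∞ : WithTop ℕ∞) + 1 ≤ ∞)).clm_apply contDiff_const).comp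
      contDiff_fst).clm_apply contDiff_snd
  have d2 : ContDiff ℝ ∞ fun p : ME => fderiv ℝ S2 p.1 (ee 1) p.2 :=
    (((h2.fderiv_right (by simp : (∞ : WithTop ℕ∞) + 1 ≤ ∞)).clm_apply contDiff_const).comp
      contDiff_fst).clm_apply contDiff_snd
  exact (contDiff_const.add ((contDiff_rhoF hu h1 h2).comp contDiff_fst)).add
    (contDiff_const.mul ((d1.add d2).inner ℝ contDiff_snd))

/-- Left multiplication as a continuous linear map. -/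
noncomputable def mulC (q : H) : H →L[ℝ] H := ContinuousLinearMap.mul ℝ H q

theorem contDiff_mulC (q : H) {f : ME → H} (hf : ContDiff ℝ ∞ f) :
    ContDiff ℝ ∞ fun p => q * f p := (mulC q).contDiff.comp hf

theorem contDiff_cc (f1 f2 : ME → H) (h1 : ContDiff ℝ ∞ f1) (h2 : ContDiff ℝ ∞ f2) :
    ContDiff ℝ ∞ (fun p => cc1 (f1 p) (f2 p)) ∧ ContDiff ℝ ∞ (fun p => cc2 (f1 p) (f2 p)) ∧
      ContDiff ℝ ∞ (fun p => cc3 (f1 p) (f2 p)) := by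
  refine ⟨?_, ?_, ?_⟩
  · exact (h1.const_smul (-(1 / 2) : ℝ)).sub ((contDiff_mulC qk h2).const_smul (1 / 2 : ℝ))
  · exact (h2.const_smul (-(1 / 2) : ℝ)).add ((contDiff_mulC qk h1).const_smul (1 / 2 : ℝ))
  · exact ((contDiff_mulC qj h1).const_smul (-(1 / 2) : ℝ)).add
      ((contDiff_mulC qi h2).const_smul (1 / 2 : ℝ))

theorem contDiff_S (h : ContDiff ℝ ∞ S1) : ContDiff ℝ ∞ fun p : ME => S1 p.1 p.2 :=
  (h.comp contDiff_fst).clm_apply contDiff_snd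

theorem contDiff_psiF (hu : ContDiff ℝ ∞ u) (h1 : ContDiff ℝ ∞ S1) (h2 : ContDiff ℝ ∞ S2) :
    ContDiff ℝ ∞ (psiF u S1 S2) := by
  obtain ⟨c1, c2, c3⟩ := contDiff_cc _ _ (contDiff_S h1) (contDiff_S h2)
  exact (contDiff_phiF hu h1 h2).add
    ((((contDiff_mulC qi c2).inner ℝ c3).add ((contDiff_mulC qj c3).inner ℝ c1)).add
      ((contDiff_mulC qk c1).inner ℝ c2))

theorem contDiff_etaC (h1 : ContDiff ℝ ∞ S1) (h2 : ContDiff ℝ ∞ S2) :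
    ContDiff ℝ ∞ fun p : ME => etaC (S1 p.1 p.2) (S2 p.1 p.2) := by
  obtain ⟨c1, c2, c3⟩ := contDiff_cc _ _ (contDiff_S h1) (contDiff_S h2)
  have hl : ∀ (i : Fin 3) {f : ME → H}, ContDiff ℝ ∞ f →
      ContDiff ℝ ∞ fun p => ContinuousLinearMap.smulRightL ℝ ME H (dX i) (f p) := fun i {f} hf =>
    (ContinuousLinearMap.contDiff _).comp hf
  exact ((contDiff_const.sub (hl 0 c1)).sub (hl 1 c2)).sub (hl 2 c3)

theorem contDiff_pullIp {f : ME → (ME →L[ℝ] H)} (hf : ContDiff ℝ ∞ f) :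
    ContDiff ℝ ∞ fun p => pullIp (f p) := by
  have h1 : ContDiff ℝ ∞ fun p => (ContinuousLinearMap.compL ℝ ME H ℝ).flip (f p) :=
    (ContinuousLinearMap.contDiff _).comp hf
  have h2 : ContDiff ℝ ∞ fun p => ipH.comp (f p) := contDiff_const.clm_comp hf
  exact h1.clm_comp h2

/-! ### Bounds -/

theorem norm_ee (i : Fin 3) : ‖ee i‖ = 1 := by
  rw [ee, Pi.norm_single, norm_one]

theorem norm_fderiv_apply_le {S : X3 → H →L[ℝ] H} (hb : ∀ x, ‖fderiv ℝ S x‖ ≤ 1 / 1000) (x : X3)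
    (i : Fin 3) (y : H) : ‖fderiv ℝ S x (ee i) y‖ ≤ 1 / 1000 * ‖y‖ := by
  have h := (fderiv ℝ S x (ee i)).le_opNorm y
  have h2 := (fderiv ℝ S x).le_opNorm (ee i)
  rw [norm_ee, mul_one] at h2
  exact h.trans (mul_le_mul_of_nonneg_right (h2.trans (hb x)) (norm_nonneg y))

theorem PData.abs_quad_le (D : PData u S1 S2) (x : X3) (y : H) :
    |1 / 2 * inner ℝ (fderiv ℝ S1 x (ee 0) y + fderiv ℝ S2 x (ee 1) y) y| ≤
      1 / 1000 * ‖y‖ ^ 2 := by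
  have h := abs_real_inner_le_norm (fderiv ℝ S1 x (ee 0) y + fderiv ℝ S2 x (ee 1) y) y
  have h1 := norm_fderiv_apply_le D.bd1 x 0 y
  have h2 := norm_fderiv_apply_le D.bd2 x 1 y
  have h3 := norm_add_le (fderiv ℝ S1 x (ee 0) y) (fderiv ℝ S2 x (ee 1) y)
  rw [abs_mul, abs_of_pos (by norm_num : (0 : ℝ) < 1 / 2)]
  have h4 : ‖fderiv ℝ S1 x (ee 0) y + fderiv ℝ S2 x (ee 1) y‖ * ‖y‖ ≤
      (1 / 1000 * ‖y‖ + 1 / 1000 * ‖y‖) * ‖y‖ :=
    mul_le_mul_of_nonneg_right (by linarith) (norm_nonneg y)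
  nlinarith

theorem PData.abs_rhoF_le (D : PData u S1 S2) (x : X3) : |rhoF u S1 S2 x| ≤ 1 / 1000000 := by
  have h := D.abs_quad_le x (u x)
  have e : rhoF u S1 S2 x =
      -(1 / 2 * inner ℝ (fderiv ℝ S1 x (ee 0) (u x) + fderiv ℝ S2 x (ee 1) (u x)) (u x)) := by
    rw [rhoF]; ring
  rw [e, abs_neg]
  have h2 := D.bu x
  nlinarith [norm_nonneg (u x)]

theorem PData.abs_phiF_sub_one_le (D : PData u S1 S2) (p : ME) (hp : ‖p.2‖ < 4) :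
    |phiF u S1 S2 p - 1| ≤ 1 / 20 := by
  have h1 := D.abs_quad_le p.1 p.2
  have h2 := D.abs_rhoF_le p.1
  have e : phiF u S1 S2 p - 1 = rhoF u S1 S2 p.1 +
      1 / 2 * inner ℝ (fderiv ℝ S1 p.1 (ee 0) p.2 + fderiv ℝ S2 p.1 (ee 1) p.2) p.2 := by
    rw [phiF]; ring
  rw [e]
  refine (abs_add_le _ _).trans ?_
  have h3 : ‖p.2‖ ^ 2 ≤ 16 := by nlinarith [norm_nonneg p.2]
  linarith

theorem norm_S_le {S : X3 → H →L[ℝ] H} (hb : ∀ x, ‖S x‖ ≤ 1 / 1000) (p : ME) (hp : ‖p.2‖ < 4) :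
    ‖S p.1 p.2‖ ≤ 1 / 20 := by
  have h := (S p.1).le_opNorm p.2
  have h2 := mul_le_mul_of_nonneg_right (hb p.1) (norm_nonneg p.2)
  linarith

theorem PData.psiF_pos (D : PData u S1 S2) (p : ME) (hp : ‖p.2‖ < 4) : 0 < psiF u S1 S2 p := by
  have h := abs_ttF_le (norm_S_le D.b1 p hp) (norm_S_le D.b2 p hp)
  have h2 := D.abs_phiF_sub_one_le p hp
  rw [abs_le] at h h2
  rw [psiF]
  norm_num at h h2
  linarith [h.1, h2.1]

theorem PData.gM_bounds (D : PData u S1 S2) (p : ME) (hp : ‖p.2‖ < 4) (v : ME) :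
    1 / 2 * ip v v ≤ gM u S1 S2 p v v ∧ gM u S1 S2 p v v ≤ 2 * ip v v := by
  rw [gM_apply]
  exact gF_bounds (norm_S_le D.b1 p hp) (norm_S_le D.b2 p hp) (D.abs_phiF_sub_one_le p hp) v

theorem PData.gM_pos (D : PData u S1 S2) (p : ME) (hp : ‖p.2‖ < 4) (v : ME) (hv : v ≠ 0) :
    0 < gM u S1 S2 p v v := by
  have h := (D.gM_bounds p hp v).1
  have h2 := ip_self_pos hv
  linarith

theorem gM_symm (u : X3 → H) (S1 S2 : X3 → H →L[ℝ] H) (p v w : ME) :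
    gM u S1 S2 p v w = gM u S1 S2 p w v := by
  rw [gM_apply, gM_apply, gF_comm]

/-- Smoothness of the metric. -/
theorem PData.contDiffOn_gM (D : PData u S1 S2) :
    ContDiffOn ℝ ∞ (gM u S1 S2) {p | ‖p.2‖ < 4} := by
  have h1 : ∀ r : ℝ, ContDiffOn ℝ ∞ (fun p => psiF u S1 S2 p ^ r) {p | ‖p.2‖ < 4} := fun r =>
    (contDiff_psiF D.hu D.h1 D.h2).contDiffOn.rpow_const_of_ne fun p hp => (D.psiF_pos p hp).ne'
  exact ((h1 _).smul contDiffOn_const).add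
    ((h1 _).smul (contDiff_pullIp (contDiff_etaC D.h1 D.h2)).contDiffOn)

/-! ### The form -/

theorem PData.PhiM_apply (D : PData u S1 S2) (p : ME) (v : Fin 3 → ME) :
    PhiM u S1 S2 p v =
      PhiF (phiF u S1 S2 p) (S1 p.1 p.2) (S2 p.1 p.2) (v 0) (v 1) (v 2) := by
  rw [PhiM, extDeriv_prim D.hu D.h1 D.h2 D.s1 D.s2, PhiE_eq_PhiF]

/-- The comass inequality. -/
theorem PData.calib_le (D : PData u S1 S2) (p : ME) (hp : ‖p.2‖ < 4) (v1 v2 v3 : ME) :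
    |PhiM u S1 S2 p ![v1, v2, v3]| ≤ √(gram3 (fun v w => gM u S1 S2 p v w) v1 v2 v3) := by
  have e : (fun v w => gM u S1 S2 p v w) =
      gF (phiF u S1 S2 p) (S1 p.1 p.2) (S2 p.1 p.2) := by
    funext v w
    exact gM_apply u S1 S2 p v w
  rw [D.PhiM_apply, e]
  exact abs_PhiF_le_gram _ _ _ (D.psiF_pos p hp) _ _ _

/-! ### Values on the two sheets -/

theorem phiF_zero (u : X3 → H) (S1 S2 : X3 → H →L[ℝ] H) (x : X3) :
    phiF u S1 S2 (x, 0) = 1 + rhoF u S1 S2 x := by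
  simp [phiF]

theorem phiF_self (u : X3 → H) (S1 S2 : X3 → H →L[ℝ] H) (x : X3) :
    phiF u S1 S2 (x, u x) = 1 := by
  simp only [phiF, rhoF]
  ring

/-! ### Periodicity -/

theorem fderiv_per {F : Type*} [NormedAddCommGroup F] [NormedSpace ℝ F] {f : X3 → F} {a : X3}
    (h : ∀ x, f (x + a) = f x) (x : X3) : fderiv ℝ f (x + a) = fderiv ℝ f x := by
  have e : (fun y => f (y + a)) = f := funext h
  rw [← fderiv_comp_add_right, e]

theorem rhoF_per {a : X3} (hu : ∀ x, u (x + a) = u x) (h1 : ∀ x, S1 (x + a) = S1 x)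
    (h2 : ∀ x, S2 (x + a) = S2 x) (x : X3) : rhoF u S1 S2 (x + a) = rhoF u S1 S2 x := by
  simp only [rhoF, hu, fderiv_per h1, fderiv_per h2]

theorem Rf_per {f : X3 → ℝ} {a : X3} (ha : a 2 = 0) (h : ∀ x, f (x + a) = f x) (x : X3) :
    Rf f (x + a) = Rf f x := by
  have e : ∀ s : ℝ, setT (x + a) s = setT x s + a := by
    intro s
    funext i
    fin_cases i <;> simp [setT, ha]
  simp only [Rf, Pi.add_apply, ha, add_zero, e, h]

theorem prim_per {a : X3} (ha : a 2 = 0) (hu : ∀ x, u (x + a) = u x) (h1 : ∀ x, S1 (x + a) = S1 x)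
    (h2 : ∀ x, S2 (x + a) = S2 x) (p : ME) : prim u S1 S2 (p.1 + a, p.2) = prim u S1 S2 p := by
  ext v
  simp only [prim_apply, Rf_per ha (rhoF_per hu h1 h2), h1, h2]

theorem gM_per {a : X3} (hu : ∀ x, u (x + a) = u x) (h1 : ∀ x, S1 (x + a) = S1 x)
    (h2 : ∀ x, S2 (x + a) = S2 x) (p : ME) : gM u S1 S2 (p.1 + a, p.2) = gM u S1 S2 p := by
  simp only [gM, psiF, phiF, rhoF_per hu h1 h2, h1, h2, fderiv_per h1, fderiv_per h2]

theorem per_vec (i : Fin 3) (hi : i ≠ 2) : ((2 * Real.pi) • ee i) 2 = 0 := by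
  simp [ee, hi.symm]

theorem PData.prim_per (D : PData u S1 S2) :
    (∀ p : ME, prim u S1 S2 (p.1 + (2 * Real.pi) • ee 0, p.2) = prim u S1 S2 p) ∧
      ∀ p : ME, prim u S1 S2 (p.1 + (2 * Real.pi) • ee 1, p.2) = prim u S1 S2 p :=
  ⟨BSS.prim_per (per_vec 0 (by decide)) D.pu0 D.p10 D.p20,
    BSS.prim_per (per_vec 1 (by decide)) D.pu1 D.p11 D.p21⟩

theorem PData.gM_per (D : PData u S1 S2) :
    (∀ p : ME, gM u S1 S2 (p.1 + (2 * Real.pi) • ee 0, p.2) = gM u S1 S2 p) ∧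
      ∀ p : ME, gM u S1 S2 (p.1 + (2 * Real.pi) • ee 1, p.2) = gM u S1 S2 p :=
  ⟨BSS.gM_per D.pu0 D.p10 D.p20, BSS.gM_per D.pu1 D.p11 D.p21⟩

end Pool.Agent.BSS
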