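import Mathlib

/-!
# Flat extension: a function which is smooth off a closed set and all of whose derivatives tend
to zero at that set is smooth
-/

open Set Metric Filter
open scoped ContDiff Topology

namespace Pool.Agent.BSS

universe u

variable {E : Type u} [NormedAddCommGroup E] [NormedSpace ℝ E] [ProperSpace E] {K : Set E}

/-- all derivatives tend to zero at `K` -/
def FlatAt {F : Type u} [NormedAddCommGroup F] [NormedSpace ℝ F] (K : Set E) (f : E → F) : Prop :=
  ∀ n : ℕ, ∀ x0 ∈ K, Tendsto (fun x => iteratedFDeriv ℝ n f x) (𝓝[Kᶜ] x0) (𝓝 0)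

section
variable {F : Type u} [NormedAddCommGroup F] [NormedSpace ℝ F]

theorem FlatAt.eps {f : E → F} (hb : FlatAt K f) (n : ℕ) {x0 : E} (hx0 : x0 ∈ K) {ε : ℝ}
    (hε : 0 < ε) : ∃ r > 0, ∀ x ∉ K, dist x x0 < r → ‖iteratedFDeriv ℝ n f x‖ ≤ ε := by
  have h := hb n x0 hx0
  rw [Metric.tendsto_nhdsWithin_nhds] at h
  obtain ⟨r, hr, h⟩ := h ε hε
  refine ⟨r, hr, fun x hx hd => ?_⟩
  have := h hx hd
  rw [dist_zero_right] at this
  exact this.le

theorem flatAt_of_eps {f : E → F} (h : ∀ n : ℕ, ∀ x0 ∈ K, ∀ ε > 0, ∃ r > 0, ∀ x ∉ K,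
    dist x x0 < r → ‖iteratedFDeriv ℝ n f x‖ ≤ ε) : FlatAt K f := by
  intro n x0 hx0
  rw [Metric.tendsto_nhdsWithin_nhds]
  intro ε hε
  obtain ⟨r, hr, h1⟩ := h n x0 hx0 (ε / 2) (by positivity)
  refine ⟨r, hr, fun x hx hd => ?_⟩
  rw [dist_zero_right]
  have := h1 x hx hd
  linarith

theorem flatAt_of_infDist {f : E → F} (h : ∀ n : ℕ, ∀ x0 ∈ K, ∃ C : ℝ, ∃ r > 0, ∀ x ∉ K,
    dist x x0 < r → ‖iteratedFDeriv ℝ n f x‖ ≤ C * infDist x K) : FlatAt K f := by
  refine flatAt_of_eps fun n x0 hx0 ε hε => ?_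
  obtain ⟨C, r, hr, h1⟩ := h n x0 hx0
  refine ⟨min r (ε / (|C| + 1)), lt_min hr (by positivity), fun x hx hd => ?_⟩
  have h2 := h1 x hx (hd.trans_le (min_le_left _ _))
  have h3 : infDist x K ≤ dist x x0 := infDist_le_dist_of_mem hx0
  have h4 : dist x x0 < ε / (|C| + 1) := hd.trans_le (min_le_right _ _)
  have h5 : 0 ≤ infDist x K := infDist_nonneg
  calc ‖iteratedFDeriv ℝ n f x‖ ≤ C * infDist x K := h2
    _ ≤ (|C| + 1) * infDist x K := by
        refine mul_le_mul_of_nonneg_right ?_ h5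
        linarith [le_abs_self C]
    _ ≤ (|C| + 1) * (ε / (|C| + 1)) := by
        refine mul_le_mul_of_nonneg_left ?_ (by positivity)
        linarith
    _ = ε := by field_simp

theorem FlatAt.continuousAt {f : E → F} (h0 : ∀ x ∈ K, f x = 0) (hb : FlatAt K f) {x0 : E}
    (hx0 : x0 ∈ K) : ContinuousAt f x0 := by
  rw [Metric.continuousAt_iff]
  intro ε hε
  obtain ⟨r, hr, h⟩ := hb.eps 0 hx0 (ε := ε / 2) (by positivity)
  refine ⟨r, hr, fun {x} hx => ?_⟩
  rw [h0 x0 hx0, dist_zero_right]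
  by_cases hxK : x ∈ K
  · rw [h0 x hxK, norm_zero]; exact hε
  · have := h x hxK hx
    rw [norm_iteratedFDeriv_zero] at this
    linarith

/-- the key step: the derivative at the points of `K` is zero -/
theorem FlatAt.hasFDerivAt (hK : IsClosed K) {f : E → F} (h0 : ∀ x ∈ K, f x = 0)
    (hs : ∀ x ∉ K, ContDiffAt ℝ ∞ f x) (hb : FlatAt K f) {x0 : E} (hx0 : x0 ∈ K) :
    HasFDerivAt f (0 : E →L[ℝ] F) x0 := by
  rw [hasFDerivAt_iff_isLittleO, Asymptotics.isLittleO_iff]
  intro ε hε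
  obtain ⟨r, hr, h⟩ := hb.eps 1 hx0 hε
  rw [Metric.eventually_nhds_iff]
  refine ⟨r / 2, by positivity, fun {x} hx => ?_⟩
  rw [h0 x0 hx0]
  simp only [sub_zero, ContinuousLinearMap.zero_apply]
  by_cases hxK : x ∈ K
  · rw [h0 x hxK, norm_zero]; positivity
  obtain ⟨p, hpK, hp⟩ := hK.exists_infDist_eq_dist ⟨x0, hx0⟩ x
  have hd : dist x p ≤ dist x x0 := by rw [← hp]; exact infDist_le_dist_of_mem hx0
  -- the points of the segment
  set γ : ℝ → E := fun t => x + t • (p - x) with hγ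
  have hγd : ∀ t, dist x (γ t) = |t| * dist x p := by
    intro t
    rw [hγ, dist_eq_norm, dist_eq_norm]
    simp only [sub_add_cancel_left, norm_neg, norm_smul, Real.norm_eq_abs]
    rw [norm_sub_rev]
  have hγK : ∀ t ∈ Ico (0:ℝ) 1, γ t ∉ K := by
    intro t ht hk
    have h1 : infDist x K ≤ dist x (γ t) := infDist_le_dist_of_mem hk
    rw [hp, hγd, abs_of_nonneg ht.1] at h1
    have h2 : 0 < dist x p := by
      rw [← hp]
      exact (hK.notMem_iff_infDist_pos ⟨x0, hx0⟩).1 hxK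
    nlinarith [ht.2]
  have hγr : ∀ t ∈ Icc (0:ℝ) 1, dist (γ t) x0 < r := by
    intro t ht
    calc dist (γ t) x0 ≤ dist (γ t) x + dist x x0 := dist_triangle _ _ _
      _ = |t| * dist x p + dist x x0 := by rw [dist_comm, hγd]
      _ ≤ 1 * dist x x0 + dist x x0 := by
          rw [abs_of_nonneg ht.1]
          gcongr
          exact ht.2
      _ < r := by linarith
  have hγ1 : γ 1 = p := by rw [hγ]; simp
  have hγ0 : γ 0 = x := by rw [hγ]; simp
  have hder : ∀ t : ℝ, HasDerivAt γ (p - x) t := by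
    intro t
    have := ((hasDerivAt_id t).smul_const (p - x)).const_add x
    simpa [hγ] using this
  have hcont : ContinuousOn (fun t => f (γ t)) (Icc 0 1) := by
    intro t ht
    have hγc : ContinuousAt γ t := (hder t).continuousAt
    by_cases h1 : t < 1
    · exact (ContinuousAt.comp (f := γ) (hs _ (hγK t ⟨ht.1, h1⟩)).continuousAt hγc).continuousWithinAt
    · have : t = 1 := le_antisymm ht.2 (not_lt.1 h1)
      subst this
      have h2 : γ 1 ∈ K := by rw [hγ1]; exact hpK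
      exact (ContinuousAt.comp (f := γ) (hb.continuousAt h0 h2) hγc).continuousWithinAt
  have hmv := norm_image_sub_le_of_norm_deriv_right_le_segment (f := fun t => f (γ t))
    (f' := fun t => fderiv ℝ f (γ t) (p - x)) (C := ε * dist x p) hcont
    (fun t ht => ?_) (fun t ht => ?_) 1 ⟨zero_le_one, le_rfl⟩
  · simp only [hγ1, hγ0, h0 p hpK, zero_sub, norm_neg, sub_zero, mul_one] at hmv
    refine hmv.trans ?_
    rw [← dist_eq_norm]
    gcongr
  · have h1 : DifferentiableAt ℝ f (γ t) :=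
      (hs _ (hγK t ht)).differentiableAt (by simp)
    exact (h1.hasFDerivAt.comp_hasDerivAt t (hder t)).hasDerivWithinAt
  · refine (ContinuousLinearMap.le_opNorm _ _).trans ?_
    have h1 := h (γ t) (hγK t ht) (hγr t ⟨ht.1, ht.2.le⟩)
    rw [norm_iteratedFDeriv_one] at h1
    have h2 : ‖p - x‖ = dist x p := by rw [dist_eq_norm, norm_sub_rev]
    rw [h2]
    gcongr

end

theorem contDiff_nat_of_flatAt (hK : IsClosed K) (n : ℕ) :
    ∀ {F : Type u} [NormedAddCommGroup F] [NormedSpace ℝ F] {f : E → F},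
      (∀ x ∈ K, f x = 0) → (∀ x ∉ K, ContDiffAt ℝ ∞ f x) → FlatAt K f → ContDiff ℝ n f := by
  induction n with
  | zero =>
    intro F _ _ f h0 hs hb
    rw [Nat.cast_zero, contDiff_zero, continuous_iff_continuousAt]
    intro x
    by_cases hx : x ∈ K
    · exact hb.continuousAt h0 hx
    · exact (hs x hx).continuousAt
  | succ n ih =>
    intro F _ _ f h0 hs hb
    rw [Nat.cast_succ, contDiff_succ_iff_fderiv]
    refine ⟨fun x => ?_, fun h => ?_, ?_⟩
    · by_cases hx : x ∈ K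
      · exact (hb.hasFDerivAt hK h0 hs hx).differentiableAt
      · exact (hs x hx).differentiableAt (by simp)
    · exact absurd h (by simp)
    · refine ih (f := fderiv ℝ f) (fun x hx => ?_) (fun x hx => ?_) ?_
      · exact (hb.hasFDerivAt hK h0 hs hx).fderiv
      · exact (hs x hx).fderiv_right (m := ∞) (by simp)
      · refine flatAt_of_eps fun k x0 hx0 ε hε => ?_
        obtain ⟨r, hr, h⟩ := hb.eps (k + 1) hx0 hε
        refine ⟨r, hr, fun x hx hd => ?_⟩
        rw [norm_iteratedFDeriv_fderiv]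
        exact h x hx hd

section
variable {F : Type u} [NormedAddCommGroup F] [NormedSpace ℝ F]

theorem contDiff_of_flatAt (hK : IsClosed K) {f : E → F} (h0 : ∀ x ∈ K, f x = 0)
    (hs : ∀ x ∉ K, ContDiffAt ℝ ∞ f x) (hb : FlatAt K f) : ContDiff ℝ ∞ f :=
  contDiff_infty.2 fun n => contDiff_nat_of_flatAt hK n h0 hs hb

end

theorem iteratedFDeriv_eq_zero_of_flatAt (hK : IsClosed K) (n : ℕ) :
    ∀ {F : Type u} [NormedAddCommGroup F] [NormedSpace ℝ F] {f : E → F},
      (∀ x ∈ K, f x = 0) → (∀ x ∉ K, ContDiffAt ℝ ∞ f x) → FlatAt K f →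
      ∀ x ∈ K, iteratedFDeriv ℝ n f x = 0 := by
  induction n with
  | zero =>
    intro F _ _ f h0 hs hb x hx
    rw [← norm_eq_zero, norm_iteratedFDeriv_zero, h0 x hx, norm_zero]
  | succ n ih =>
    intro F _ _ f h0 hs hb x hx
    rw [← norm_eq_zero, ← norm_iteratedFDeriv_fderiv]
    rw [ih (f := fderiv ℝ f) (fun x hx => (hb.hasFDerivAt hK h0 hs hx).fderiv)
      (fun x hx => (hs x hx).fderiv_right (m := ∞) (by simp)) ?_ x hx, norm_zero]
    refine flatAt_of_eps fun k x0 hx0 ε hε => ?_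
    obtain ⟨r, hr, h⟩ := hb.eps (k + 1) hx0 hε
    refine ⟨r, hr, fun x hx hd => ?_⟩
    rw [norm_iteratedFDeriv_fderiv]
    exact h x hx hd

end Pool.Agent.BSS
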