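import Mathlib

/-!
# MP_bff03b_an (BSS): smooth dependence of integrals over [0, 1] on parameters
-/

set_option autoImplicit false

open MeasureTheory Set Filter Topology
open scoped ContDiff Interval

namespace Pool.Agent.BSS

variable {E : Type} [NormedAddCommGroup E] [NormedSpace ℝ E] [FiniteDimensional ℝ E]

theorem hasFDerivAt_integral01 {F : Type} [NormedAddCommGroup F] [NormedSpace ℝ F]
    {f : E × ℝ → F} (hf : ContDiff ℝ 1 f) (x₀ : E) :
    HasFDerivAt (fun x => ∫ s in (0 : ℝ)..1, f (x, s))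
      (∫ s in (0 : ℝ)..1, (fderiv ℝ f (x₀, s)).comp (ContinuousLinearMap.inl ℝ E ℝ)) x₀ := by
  have hc : Continuous (fderiv ℝ f) := hf.continuous_fderiv one_ne_zero
  have hc' : Continuous fun p : E × ℝ =>
      (fderiv ℝ f p).comp (ContinuousLinearMap.inl ℝ E ℝ) :=
    hc.clm_comp continuous_const
  have : ProperSpace E := FiniteDimensional.proper ℝ E
  obtain ⟨C, hC⟩ := ((isCompact_closedBall x₀ 1).prod (isCompact_Icc (a := (0 : ℝ))
    (b := 1))).exists_bound_of_continuousOn hc'.continuousOn
  refine intervalIntegral.hasFDerivAt_integral_of_dominated_of_fderiv_le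
    (F' := fun x s => (fderiv ℝ f (x, s)).comp (ContinuousLinearMap.inl ℝ E ℝ))
    (bound := fun _ => C) (Metric.closedBall_mem_nhds x₀ one_pos) ?_ ?_ ?_ ?_ ?_ ?_
  · exact Eventually.of_forall fun x =>
      (hf.continuous.comp (by fun_prop : Continuous fun s : ℝ => (x, s))).aestronglyMeasurable
  · exact (hf.continuous.comp (by fun_prop : Continuous fun s : ℝ => (x₀, s))).intervalIntegrable
      _ _
  · exact (hc'.comp (by fun_prop : Continuous fun s : ℝ => (x₀, s))).aestronglyMeasurable
  · refine Eventually.of_forall fun s hs x hx => hC (x, s) ⟨hx, ?_⟩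
    rw [uIoc_of_le zero_le_one] at hs
    exact ⟨hs.1.le, hs.2⟩
  · exact intervalIntegrable_const
  · refine Eventually.of_forall fun s _ x _ => ?_
    have h1 : HasFDerivAt f (fderiv ℝ f (x, s)) (x, s) :=
      (hf.differentiable one_ne_zero _).hasFDerivAt
    have h2 : HasFDerivAt (fun y : E => (y, s)) (ContinuousLinearMap.inl ℝ E ℝ) x :=
      hasFDerivAt_prodMk_left x s
    exact h1.comp x h2

theorem contDiff_integral01_nat : ∀ (n : ℕ) {F : Type} [NormedAddCommGroup F] [NormedSpace ℝ F]
    {f : E × ℝ → F}, ContDiff ℝ n f → ContDiff ℝ n (fun x => ∫ s in (0 : ℝ)..1, f (x, s))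
  | 0, F, _, _, f, hf => by
    have hc : Continuous f := hf.continuous
    rw [Nat.cast_zero, contDiff_zero]
    exact intervalIntegral.continuous_parametric_intervalIntegral_of_continuous'
      (f := fun x s => f (x, s)) hc 0 1
  | n + 1, F, _, _, f, hf => by
    have h1 : ContDiff ℝ 1 f := hf.of_le (by exact_mod_cast Nat.le_add_left 1 n)
    have hd := hasFDerivAt_integral01 (E := E) h1
    have hn : ((n + 1 : ℕ) : WithTop ℕ∞) = (n : WithTop ℕ∞) + 1 := by push_cast; rfl
    rw [hn, contDiff_succ_iff_fderiv]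
    refine ⟨fun x => (hd x).differentiableAt, fun h => by simp at h, ?_⟩
    have he : fderiv ℝ (fun x => ∫ s in (0 : ℝ)..1, f (x, s)) = fun x =>
        ∫ s in (0 : ℝ)..1, (fun p : E × ℝ => (fderiv ℝ f p).comp
          (ContinuousLinearMap.inl ℝ E ℝ)) (x, s) := by
      funext x
      exact (hd x).fderiv
    rw [he]
    rw [hn] at hf
    have hg : ContDiff ℝ n (fderiv ℝ f) := hf.fderiv_right le_rfl
    exact contDiff_integral01_nat n (f := fun p : E × ℝ => (fderiv ℝ f p).comp
      (ContinuousLinearMap.inl ℝ E ℝ)) (hg.clm_comp contDiff_const)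

/-- The integral over `[0, 1]` of a smooth function of `(x, s)` is smooth in `x`. -/
theorem contDiff_integral01 {F : Type} [NormedAddCommGroup F] [NormedSpace ℝ F]
    {f : E × ℝ → F} (hf : ContDiff ℝ ∞ f) :
    ContDiff ℝ ∞ (fun x => ∫ s in (0 : ℝ)..1, f (x, s)) :=
  contDiff_infty.2 fun n => contDiff_integral01_nat n (hf.of_le (by exact_mod_cast le_top))

end Pool.Agent.BSS
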