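import Pool.Agent.BSS.Base
import Pool.Agent.BSS.ParamInt

/-!
# MP_bff03b_an (BSS), G2: the model space, wedge products, the primitive 2-form
-/

set_option autoImplicit false

open Set Filter Topology
open scoped ContDiff

namespace Pool.Agent.BSS

/-- The model space `R^3 x H`. -/
abbrev ME := X3 × H

/-- `dx_i` on the model space. -/
noncomputable def dX (i : Fin 3) : ME →L[ℝ] ℝ :=
  (ContinuousLinearMap.proj (R := ℝ) (φ := fun _ : Fin 3 => ℝ) i).comp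
    (ContinuousLinearMap.fst ℝ X3 H)

@[simp] theorem dX_apply (i : Fin 3) (v : ME) : dX i v = v.1 i := rfl

/-- `β ↦ α ∧ β` as a continuous linear map. -/
noncomputable def wedgeL (α : ME →L[ℝ] ℝ) : (ME →L[ℝ] ℝ) →L[ℝ] ME [⋀^Fin 2]→L[ℝ] ℝ :=
  (ContinuousAlternatingMap.alternatizeUncurryFinCLM ℝ ME ℝ).comp
    ((ContinuousLinearMap.smulRightL ℝ ME (ME [⋀^Fin 1]→L[ℝ] ℝ) α).comp
      ((ContinuousAlternatingMap.ofSubsingletonLIE (𝕜 := ℝ) (E := ME) (F := ℝ)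
        (0 : Fin 1)).toContinuousLinearEquiv :
        (ME →L[ℝ] ℝ) →L[ℝ] ME [⋀^Fin 1]→L[ℝ] ℝ))

/-- The wedge product of two 1-forms. -/
noncomputable def wedge (α β : ME →L[ℝ] ℝ) : ME [⋀^Fin 2]→L[ℝ] ℝ := wedgeL α β

theorem wedge_apply (α β : ME →L[ℝ] ℝ) (v : Fin 2 → ME) :
    wedge α β v = α (v 0) * β (v 1) - α (v 1) * β (v 0) := by
  simp [wedge, wedgeL, ContinuousAlternatingMap.alternatizeUncurryFin_apply, Fin.sum_univ_two,
    Fin.removeNth]
  ring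

/-- The inner product of `H` as a continuous bilinear map. -/
noncomputable def ipH : H →L[ℝ] H →L[ℝ] ℝ :=
  (isBoundedBilinearMap_inner (𝕜 := ℝ) (E := H)).toContinuousLinearMap

@[simp] theorem ipH_apply (a b : H) : ipH a b = inner ℝ a b := rfl

/-- `p ↦ (v ↦ 1/2 <q y, dy(v)>)`. -/
noncomputable def lamL (q : H) : ME →L[ℝ] ME →L[ℝ] ℝ :=
  (1 / 2 : ℝ) • ((ContinuousLinearMap.compL ℝ ME H ℝ).flip (ContinuousLinearMap.snd ℝ X3 H)).comp
    (ipH.comp ((ContinuousLinearMap.mul ℝ H q).comp (ContinuousLinearMap.snd ℝ X3 H)))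

@[simp] theorem lamL_apply (q : H) (p v : ME) : lamL q p v = 1 / 2 * inner ℝ (q * p.2) v.2 := by
  simp [lamL]

/-- The function `rho`. -/
noncomputable def rhoF (u : X3 → H) (S1 S2 : X3 → H →L[ℝ] H) (x : X3) : ℝ :=
  -(1 / 2) * inner ℝ (fderiv ℝ S1 x (ee 0) (u x) + fderiv ℝ S2 x (ee 1) (u x)) (u x)

/-- The coefficient `phi`. -/
noncomputable def phiF (u : X3 → H) (S1 S2 : X3 → H →L[ℝ] H) (p : ME) : ℝ :=
  1 + rhoF u S1 S2 p.1 +
    1 / 2 * inner ℝ (fderiv ℝ S1 p.1 (ee 0) p.2 + fderiv ℝ S2 p.1 (ee 1) p.2) p.2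

/-- Moving the third coordinate: `(x_1, x_2, s)`. -/
noncomputable def setT (x : X3) (s : ℝ) : X3 := ![x 0, x 1, s]

/-- `R(x) = int_0^t (1 + rho)`. -/
noncomputable def Rf (f : X3 → ℝ) (x : X3) : ℝ :=
  x 2 + x 2 * ∫ s in (0 : ℝ)..1, f (setT x (s * x 2))

theorem contDiff_setT : ContDiff ℝ ∞ fun q : X3 × ℝ => setT q.1 (q.2 * q.1 2) := by
  rw [contDiff_pi]
  intro i
  fin_cases i <;> simp [setT] <;> fun_prop

theorem contDiff_Rf {f : X3 → ℝ} (hf : ContDiff ℝ ∞ f) : ContDiff ℝ ∞ (Rf f) := by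
  have h : ContDiff ℝ ∞ fun x : X3 => ∫ s in (0 : ℝ)..1, f (setT x (s * x 2)) :=
    contDiff_integral01 (f := fun q : X3 × ℝ => f (setT q.1 (q.2 * q.1 2)))
      (hf.comp contDiff_setT)
  have h2 : ContDiff ℝ ∞ fun x : X3 => x 2 := contDiff_apply ℝ ℝ 2
  exact h2.add (h2.mul h)

/-- `d_t R = 1 + f`. -/
theorem fderiv_Rf {f : X3 → ℝ} (hf : ContDiff ℝ ∞ f) (x : X3) :
    fderiv ℝ (Rf f) x (ee 2) = 1 + f x := by
  have hR : DifferentiableAt ℝ (Rf f) x := (contDiff_Rf hf).differentiable (by simp) x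
  have hline : HasDerivAt (fun r : ℝ => setT x r) (ee 2) (x 2) := by
    rw [hasDerivAt_pi]
    intro i
    fin_cases i
    · simpa [setT, ee] using hasDerivAt_const (x 2) (x 0)
    · simpa [setT, ee] using hasDerivAt_const (x 2) (x 1)
    · simpa [setT, ee] using hasDerivAt_id' (x 2)
  have hx : setT x (x 2) = x := by
    funext i; fin_cases i <;> rfl
  have h1 : HasDerivAt (fun r : ℝ => Rf f (setT x r)) (fderiv ℝ (Rf f) x (ee 2)) (x 2) := by
    have h0 : HasFDerivAt (Rf f) (fderiv ℝ (Rf f) x) (setT x (x 2)) := by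
      rw [hx]; exact hR.hasFDerivAt
    exact h0.comp_hasDerivAt (x 2) hline
  have h2 : (fun r : ℝ => Rf f (setT x r)) = fun r => r + ∫ s in (0 : ℝ)..r, f (setT x s) := by
    funext r
    have h3 : (setT x r) 2 = r := rfl
    have h4 : ∀ s : ℝ, setT (setT x r) s = setT x s := fun s => by
      funext i; fin_cases i <;> rfl
    simp only [Rf, h3, h4]
    congr 1
    have := intervalIntegral.mul_integral_comp_mul_right (f := fun s => f (setT x s)) (a := 0)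
      (b := 1) r
    rw [this]
    simp
  have hcont : Continuous fun s : ℝ => f (setT x s) := by
    refine hf.continuous.comp ?_
    rw [continuous_pi_iff]
    intro i
    fin_cases i <;> simp [setT] <;> fun_prop
  have h5 : HasDerivAt (fun r : ℝ => r + ∫ s in (0 : ℝ)..r, f (setT x s)) (1 + f (setT x (x 2)))
      (x 2) :=
    (hasDerivAt_id (x 2)).add (intervalIntegral.integral_hasDerivAt_right
      (hcont.intervalIntegrable _ _) hcont.stronglyMeasurable.stronglyMeasurableAtFilter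
      hcont.continuousAt)
  rw [h2] at h1
  rw [h1.unique h5, hx]

/-- The primitive 2-form. -/
noncomputable def prim (u : X3 → H) (S1 S2 : X3 → H →L[ℝ] H) (p : ME) : ME [⋀^Fin 2]→L[ℝ] ℝ :=
  Rf (rhoF u S1 S2) p.1 • wedge (dX 0) (dX 1) +
    (wedge (dX 0) (lamL qi p) + wedge (dX 1) (lamL qj p) + wedge (dX 2) (lamL qk p)) +
    (1 / 2 * inner ℝ (S1 p.1 p.2) p.2) • wedge (dX 1) (dX 2) +
    (1 / 2 * inner ℝ (S2 p.1 p.2) p.2) • wedge (dX 2) (dX 0)

theorem prim_apply (u : X3 → H) (S1 S2 : X3 → H →L[ℝ] H) (p : ME) (v : Fin 2 → ME) :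
    prim u S1 S2 p v =
      Rf (rhoF u S1 S2) p.1 * ((v 0).1 0 * (v 1).1 1 - (v 1).1 0 * (v 0).1 1) +
      ((v 0).1 0 * (1 / 2 * om1 p.2 (v 1).2) - (v 1).1 0 * (1 / 2 * om1 p.2 (v 0).2) +
        ((v 0).1 1 * (1 / 2 * om2 p.2 (v 1).2) - (v 1).1 1 * (1 / 2 * om2 p.2 (v 0).2)) +
        ((v 0).1 2 * (1 / 2 * om3 p.2 (v 1).2) - (v 1).1 2 * (1 / 2 * om3 p.2 (v 0).2))) +
      1 / 2 * inner ℝ (S1 p.1 p.2) p.2 * ((v 0).1 1 * (v 1).1 2 - (v 1).1 1 * (v 0).1 2) +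
      1 / 2 * inner ℝ (S2 p.1 p.2) p.2 * ((v 0).1 2 * (v 1).1 0 - (v 1).1 2 * (v 0).1 0) := by
  simp only [prim, ContinuousAlternatingMap.add_apply, ContinuousAlternatingMap.smul_apply,
    wedge_apply, dX_apply, lamL_apply, smul_eq_mul]
  rfl

end Pool.Agent.BSS
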