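import Pool.Agent.BSS.Point

/-!
# A global metric from a local one, with a comass bound
-/

set_option autoImplicit false

open scoped ContDiff Manifold Topology

namespace Pool.Agent.BSS

section forms

variable {E : Type*} [NormedAddCommGroup E] [NormedSpace ℝ E]

theorem form_cs (B : E →L[ℝ] E →L[ℝ] ℝ) (hs : ∀ v w, B v w = B w v) (hp : ∀ v, v ≠ 0 → 0 < B v v)
    (a b : E) : (B a b) ^ 2 ≤ B a a * B b b := by
  by_cases hb : b = 0
  · subst hb
    simp
  · have hbb := hp b hb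
    have h0 : ∀ v, 0 ≤ B v v := by
      intro v
      by_cases hv : v = 0
      · subst hv; simp
      · exact (hp v hv).le
    have h := h0 ((B b b) • a - (B a b) • b)
    have hx : B ((B b b) • a - (B a b) • b) ((B b b) • a - (B a b) • b) =
        B b b * (B a a * B b b - (B a b) ^ 2) := by
      simp only [map_sub, map_smul, sub_apply, smul_apply,
        smul_eq_mul]
      rw [hs b a]
      ring
    rw [hx] at h
    have := nonneg_of_mul_nonneg_right h hbb
    linarith

/-- Hadamard's inequality -/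
theorem gram3_le_prod (B : E →L[ℝ] E →L[ℝ] ℝ) (hs : ∀ v w, B v w = B w v)
    (hp : ∀ v, v ≠ 0 → 0 < B v v) (a b c : E) :
    gram3 (fun x y => B x y) a b c ≤ B a a * B b b * B c c := by
  have h0 : ∀ v, 0 ≤ B v v := by
    intro v
    by_cases hv : v = 0
    · subst hv; simp
    · exact (hp v hv).le
  have h1 := form_cs B hs hp a b
  have ha := h0 a
  have hb := h0 b
  have hc := h0 c
  show B a a * (B b b * B c c - B b c * B c b) - B a b * (B b a * B c c - B b c * B c a) +
    B a c * (B b a * B c b - B b b * B c a) ≤ _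
  rw [hs b a, hs c b, hs c a]
  -- goal: 2 p q r ≤ A q² + B r² + C p²
  have key : 2 * (B a b * B b c * B a c) ≤ B a a * (B b c) ^ 2 + B b b * (B a c) ^ 2 := by
    have h2 : |B a b| ≤ √(B a a) * √(B b b) := by
      rw [← Real.sqrt_mul ha]
      exact Real.abs_le_sqrt h1
    have h3 : B a b * B b c * B a c ≤ (√(B a a) * √(B b b)) * (|B b c| * |B a c|) := by
      calc B a b * B b c * B a c ≤ |B a b * B b c * B a c| := le_abs_self _
        _ = |B a b| * (|B b c| * |B a c|) := by rw [abs_mul, abs_mul, mul_assoc]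
        _ ≤ _ := mul_le_mul_of_nonneg_right h2 (by positivity)
    have h4 := sq_nonneg (√(B a a) * |B b c| - √(B b b) * |B a c|)
    have h5 : (√(B a a)) ^ 2 = B a a := Real.sq_sqrt ha
    have h6 : (√(B b b)) ^ 2 = B b b := Real.sq_sqrt hb
    have h7 : |B b c| ^ 2 = (B b c) ^ 2 := sq_abs _
    have h8 : |B a c| ^ 2 = (B a c) ^ 2 := sq_abs _
    nlinarith [h3, h4, h5, h6, h7, h8]
  nlinarith [mul_nonneg hc (sq_nonneg (B a b))]

end forms

section bounds

variable {E : Type*} [NormedAddCommGroup E] [InnerProductSpace ℝ E] [FiniteDimensional ℝ E]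

/-- a continuous family of positive forms on a compact set is comparable with the norm -/
theorem compact_bounds (Kc : Set E) (hK : IsCompact Kc) (G : E → E →L[ℝ] E →L[ℝ] ℝ)
    (hG : ContinuousOn G Kc) (hpos : ∀ w ∈ Kc, ∀ v, v ≠ 0 → 0 < G w v v) :
    ∃ c C : ℝ, 0 < c ∧ 0 ≤ C ∧ ∀ w ∈ Kc, ∀ v, c * ‖v‖ ^ 2 ≤ G w v v ∧ G w v v ≤ C * ‖v‖ ^ 2 := by
  have hcomp : IsCompact (Kc ×ˢ Metric.sphere (0 : E) 1) := hK.prod (isCompact_sphere 0 1)
  have hcont : ContinuousOn (fun q : E × E => G q.1 q.2 q.2) (Kc ×ˢ Metric.sphere (0 : E) 1) := by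
    have h1 : ContinuousOn (fun q : E × E => G q.1) (Kc ×ˢ Metric.sphere (0 : E) 1) :=
      hG.comp continuous_fst.continuousOn (fun q hq => hq.1)
    exact (h1.clm_apply continuous_snd.continuousOn).clm_apply continuous_snd.continuousOn
  have hscale : ∀ w, ∀ v, v ≠ 0 → G w v v = ‖v‖ ^ 2 * G w (‖v‖⁻¹ • v) (‖v‖⁻¹ • v) := by
    intro w v hv
    have hn : ‖v‖ ≠ 0 := norm_ne_zero_iff.2 hv
    simp only [map_smul, smul_apply, smul_eq_mul]
    field_simp
  have hsph : ∀ v : E, v ≠ 0 → ‖v‖⁻¹ • v ∈ Metric.sphere (0 : E) 1 := by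
    intro v hv
    have hn : ‖v‖ ≠ 0 := norm_ne_zero_iff.2 hv
    rw [mem_sphere_zero_iff_norm, norm_smul, norm_inv, norm_norm, inv_mul_cancel₀ hn]
  rcases (Kc ×ˢ Metric.sphere (0 : E) 1).eq_empty_or_nonempty with hemp | hne
  · refine ⟨1, 1, one_pos, zero_le_one, ?_⟩
    intro w hw v
    have hv : v = 0 := by
      by_contra hv
      have : (w, ‖v‖⁻¹ • v) ∈ Kc ×ˢ Metric.sphere (0 : E) 1 := ⟨hw, hsph v hv⟩
      rw [hemp] at this
      exact this
    subst hv
    simp
  · obtain ⟨q, hq, hmin⟩ := hcomp.exists_isMinOn hne hcont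
    obtain ⟨q', hq', hmax⟩ := hcomp.exists_isMaxOn hne hcont
    have hq2 : q.2 ≠ 0 := by
      intro h
      have := mem_sphere_zero_iff_norm.1 hq.2
      rw [h, norm_zero] at this
      exact zero_ne_one this
    have hq2' : q'.2 ≠ 0 := by
      intro h
      have := mem_sphere_zero_iff_norm.1 hq'.2
      rw [h, norm_zero] at this
      exact zero_ne_one this
    refine ⟨G q.1 q.2 q.2, G q'.1 q'.2 q'.2, hpos _ hq.1 _ hq2, (hpos _ hq'.1 _ hq2').le, ?_⟩
    intro w hw v
    by_cases hv : v = 0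
    · subst hv
      simp
    · rw [hscale w v hv]
      have hmem : (w, ‖v‖⁻¹ • v) ∈ Kc ×ˢ Metric.sphere (0 : E) 1 := ⟨hw, hsph v hv⟩
      have h1 := hmin hmem
      have h2 := hmax hmem
      simp only [Set.mem_ofPred_eq] at h1 h2
      constructor
      · rw [mul_comm]
        exact mul_le_mul_of_nonneg_left h1 (by positivity)
      · rw [mul_comm]
        exact mul_le_mul_of_nonneg_right h2 (by positivity)

omit [FiniteDimensional ℝ E] in
theorem glue_smooth {F : Type*} [NormedAddCommGroup F] [NormedSpace ℝ F] (θ : E → ℝ)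
    (hθ : ContDiff ℝ ∞ θ) (U V : Set E) (hU : IsOpen U) (hVU : closure V ⊆ U)
    (hθV : ∀ w, w ∉ V → θ w = 0) (G : E → F) (hG : ContDiffOn ℝ ∞ G U) (I : F) (K : ℝ) :
    ContDiff ℝ ∞ fun w => θ w • G w + (K * (1 - θ w)) • I := by
  have h1 : ContDiff ℝ ∞ fun w => θ w • G w := by
    rw [contDiff_iff_contDiffAt]
    intro w
    by_cases hw : w ∈ U
    · exact hθ.contDiffAt.smul (hG.contDiffAt (hU.mem_nhds hw))
    · have hwV : w ∉ closure V := fun h => hw (hVU h)
      have hev : (fun w => θ w • G w) =ᶠ[𝓝 w] fun _ => 0 := by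
        filter_upwards [isClosed_closure.isOpen_compl.mem_nhds hwV] with z hz
        rw [hθV z (fun h => hz (subset_closure h)), zero_smul]
      exact contDiffAt_const.congr_of_eventuallyEq hev
  exact h1.add (((contDiff_const.mul (contDiff_const.sub hθ))).smul contDiff_const)

/-- **The global metric.** A smooth field of positive definite forms `G` on an open set `U` on which
`Φ` has comass at most one can be changed outside a compact subset `K1` of `U` to a complete smooth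
metric on the whole space for which the compactly supported form `Φ` has comass at most one. -/
theorem global_metric (U : Set E) (hU : IsOpen U) (K1 : Set E) (hK1 : IsCompact K1) (hKU : K1 ⊆ U)
    (G : E → E →L[ℝ] E →L[ℝ] ℝ) (hG : ContDiffOn ℝ ∞ G U)
    (hsymm : ∀ w ∈ U, ∀ v v', G w v v' = G w v' v) (hpos : ∀ w ∈ U, ∀ v, v ≠ 0 → 0 < G w v v)
    (Φ : E → E [⋀^Fin 3]→L[ℝ] ℝ) (hΦ : Continuous Φ) (hΦc : HasCompactSupport Φ)
    (hcal : ∀ w ∈ U, ∀ v1 v2 v3, |Φ w ![v1, v2, v3]| ≤ √(gram3 (fun a b => G w a b) v1 v2 v3)) :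
    ∃ g : E → E →L[ℝ] E →L[ℝ] ℝ, ContDiff ℝ ∞ g ∧ (∀ w v v', g w v v' = g w v' v) ∧
      (∃ c C : ℝ, 0 < c ∧ ∀ w v, c * ‖v‖ ^ 2 ≤ g w v v ∧ g w v v ≤ C * ‖v‖ ^ 2) ∧
      (∀ w (v : Fin 3 → E), |Φ w v| ≤ ∏ i, √(g w (v i) (v i))) ∧ ∀ w ∈ K1, g w = G w := by
  -- the cut-off
  obtain ⟨V, hV, hK1V, hVU, hVc⟩ := exists_open_between_and_isCompact_closure hK1 hU hKU
  obtain ⟨θ', hθ1, hθ0, hθI⟩ := exists_contMDiffMap_one_nhds_of_subset_interior 𝓘(ℝ, E) (n := (⊤ : ℕ∞))
    hK1.isClosed (show K1 ⊆ interior V by rw [hV.interior_eq]; exact hK1V)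
  let θ : E → ℝ := fun w => θ' w
  have hθs : ContDiff ℝ ∞ θ := θ'.contMDiff.contDiff
  have hθnn : ∀ w, 0 ≤ θ w := fun w => (hθI w).1
  have hθle : ∀ w, θ w ≤ 1 := fun w => (hθI w).2
  have hθ1' : ∀ w ∈ K1, θ w = 1 := fun w hw => hθ1.self_of_nhdsSet w hw
  have hθV : ∀ w, w ∉ V → θ w = 0 := hθ0
  -- bounds
  obtain ⟨c, C, hc, hC, hb⟩ := compact_bounds (closure V) hVc G (hG.continuousOn.mono hVU)
    (fun w hw => hpos w (hVU hw))
  obtain ⟨C₀, hC₀⟩ : ∃ C₀, ∀ w, ‖Φ w‖ ≤ C₀ := by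
    obtain ⟨M, hM⟩ := hΦ.norm.bounded_above_of_compact_support hΦc.norm
    exact ⟨M, fun w => by simpa using hM w⟩
  set K : ℝ := C + |C₀| + 1 with hKdef
  have hK1' : 1 ≤ K := by
    have := abs_nonneg C₀
    linarith
  have hKC : C ≤ K := by
    have := abs_nonneg C₀
    linarith
  have hKC₀ : C₀ ≤ K := by
    have := le_abs_self C₀
    linarith
  have hKpos : 0 < K := by linarith
  let I : E →L[ℝ] E →L[ℝ] ℝ := innerSL ℝ
  have hI : ∀ v, I v v = ‖v‖ ^ 2 := fun v => real_inner_self_eq_norm_sq v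
  have hIs : ∀ v w, I v w = I w v := fun v w => real_inner_comm w v
  let g : E → E →L[ℝ] E →L[ℝ] ℝ := fun w => θ w • G w + (K * (1 - θ w)) • I
  have hgapp : ∀ w v v', g w v v' = θ w * G w v v' + K * (1 - θ w) * I v v' := by
    intro w v v'
    simp [g]
  have hgs : ∀ w v v', g w v v' = g w v' v := by
    intro w v v'
    rw [hgapp, hgapp, hIs v v']
    by_cases hw : w ∈ V
    · rw [hsymm w (hVU (subset_closure hw)) v v']
    · rw [hθV w hw, zero_mul, zero_mul]
  have hglow : ∀ w v, min c 1 * ‖v‖ ^ 2 ≤ g w v v := by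
    intro w v
    rw [hgapp, hI]
    by_cases hw : w ∈ V
    · have h1 := (hb w (subset_closure hw) v).1
      have h2 : θ w * (min c 1 * ‖v‖ ^ 2) ≤ θ w * G w v v := by
        refine mul_le_mul_of_nonneg_left (le_trans ?_ h1) (hθnn w)
        exact mul_le_mul_of_nonneg_right (min_le_left _ _) (by positivity)
      have h3 : (1 - θ w) * (min c 1 * ‖v‖ ^ 2) ≤ K * (1 - θ w) * ‖v‖ ^ 2 := by
        have h4 : min c 1 * ‖v‖ ^ 2 ≤ K * ‖v‖ ^ 2 :=
          mul_le_mul_of_nonneg_right ((min_le_right _ _).trans hK1') (by positivity)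
        have h5 := mul_le_mul_of_nonneg_left h4 (sub_nonneg.2 (hθle w))
        linarith
      linarith
    · rw [hθV w hw]
      have h4 : min c 1 * ‖v‖ ^ 2 ≤ K * ‖v‖ ^ 2 :=
        mul_le_mul_of_nonneg_right ((min_le_right _ _).trans hK1') (by positivity)
      linarith
  have hgpos : ∀ w v, v ≠ 0 → 0 < g w v v := by
    intro w v hv
    refine lt_of_lt_of_le ?_ (hglow w v)
    have := norm_pos_iff.2 hv
    have := lt_min hc one_pos
    positivity
  refine ⟨g, ?_, hgs, ⟨min c 1, K, lt_min hc one_pos, ?_⟩, ?_, ?_⟩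
  · exact glue_smooth θ hθs U V hU hVU hθV G hG I K
  · intro w v
    refine ⟨hglow w v, ?_⟩
    rw [hgapp, hI]
    by_cases hw : w ∈ V
    · have h1 := (hb w (subset_closure hw) v).2
      have h2 : θ w * G w v v ≤ θ w * (K * ‖v‖ ^ 2) :=
        mul_le_mul_of_nonneg_left (h1.trans (mul_le_mul_of_nonneg_right hKC (by positivity)))
          (hθnn w)
      linarith
    · rw [hθV w hw]
      linarith
  · -- comass
    intro w v
    obtain ⟨v1, v2, v3, rfl⟩ : ∃ v1 v2 v3, v = ![v1, v2, v3] :=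
      ⟨v 0, v 1, v 2, by ext i; fin_cases i <;> rfl⟩
    rw [Fin.prod_univ_three]
    show |Φ w ![v1, v2, v3]| ≤ √(g w v1 v1) * √(g w v2 v2) * √(g w v3 v3)
    by_cases hw : w ∈ V
    · have hwU := hVU (subset_closure hw)
      have hle : ∀ v, G w v v ≤ g w v v := by
        intro v
        rw [hgapp, hI]
        have h1 := (hb w (subset_closure hw) v).2
        have h2 : (1 - θ w) * G w v v ≤ (1 - θ w) * (K * ‖v‖ ^ 2) :=
          mul_le_mul_of_nonneg_left (h1.trans (mul_le_mul_of_nonneg_right hKC (by positivity)))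
            (sub_nonneg.2 (hθle w))
        linarith
      calc |Φ w ![v1, v2, v3]| ≤ √(gram3 (fun a b => G w a b) v1 v2 v3) := hcal w hwU v1 v2 v3
        _ ≤ √(G w v1 v1 * G w v2 v2 * G w v3 v3) :=
            Real.sqrt_le_sqrt (gram3_le_prod (G w) (hsymm w hwU) (hpos w hwU) v1 v2 v3)
        _ ≤ √(g w v1 v1 * g w v2 v2 * g w v3 v3) := by
            apply Real.sqrt_le_sqrt
            have h0 : ∀ v, 0 ≤ G w v v := by
              intro v
              by_cases hv : v = 0
              · subst hv; simp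
              · exact (hpos w hwU v hv).le
            have h0' : ∀ v, 0 ≤ g w v v := fun v => (h0 v).trans (hle v)
            exact mul_le_mul (mul_le_mul (hle v1) (hle v2) (h0 v2) (h0' v1)) (hle v3) (h0 v3)
              (mul_nonneg (h0' v1) (h0' v2))
        _ = √(g w v1 v1) * √(g w v2 v2) * √(g w v3 v3) := by
            have h0' : ∀ v, 0 ≤ g w v v := by
              intro v
              by_cases hv : v = 0
              · subst hv; simp
              · exact (hgpos w v hv).le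
            rw [Real.sqrt_mul (mul_nonneg (h0' v1) (h0' v2)), Real.sqrt_mul (h0' v1)]
    · have hg : ∀ v, √(g w v v) = √K * ‖v‖ := by
        intro v
        rw [hgapp, hI, hθV w hw]
        have : 0 * G w v v + K * (1 - 0) * ‖v‖ ^ 2 = K * ‖v‖ ^ 2 := by ring
        rw [this, Real.sqrt_mul hKpos.le, Real.sqrt_sq (norm_nonneg v)]
      rw [hg, hg, hg]
      have h1 : |Φ w ![v1, v2, v3]| ≤ ‖Φ w‖ * (‖v1‖ * ‖v2‖ * ‖v3‖) := by
        have h2 := (Φ w).le_opNorm ![v1, v2, v3]
        rw [Fin.prod_univ_three] at h2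
        simpa using h2
      have h3 : ‖Φ w‖ ≤ K := (hC₀ w).trans hKC₀
      have h4 : 1 ≤ √K := Real.one_le_sqrt.2 hK1'
      have h5 : K ≤ √K * √K * √K := by
        have : √K * √K = K := Real.mul_self_sqrt hKpos.le
        rw [this]
        nlinarith
      calc |Φ w ![v1, v2, v3]| ≤ ‖Φ w‖ * (‖v1‖ * ‖v2‖ * ‖v3‖) := h1
        _ ≤ (√K * √K * √K) * (‖v1‖ * ‖v2‖ * ‖v3‖) :=
            mul_le_mul_of_nonneg_right (h3.trans h5) (by positivity)
        _ = _ := by ring
  · intro w hw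
    ext v v'
    rw [hgapp, hθ1' w hw]
    ring

end bounds

end Pool.Agent.BSS
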