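import Mathlib

/-! Definitions for the final statement (currents in `ℝ^N`, mass with respect to a Riemannian
metric, boundary regular points). -/

open MeasureTheory Set Filter Topology
open scoped ContDiff

namespace BSS

/-- Euclidean space `ℝ^N`. -/
abbrev Eu (N : ℕ) := EuclideanSpace ℝ (Fin N)

/-- Smooth compactly supported differential `m`-forms on `ℝ^N`. -/
structure TestForm (N m : ℕ) where
  toFun : Eu N → Eu N [⋀^Fin m]→L[ℝ] ℝ
  smooth : ContDiff ℝ ∞ toFun
  compact : HasCompactSupport toFun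

theorem TestForm.smooth_extDeriv {N m : ℕ} (φ : TestForm N m) :
    ContDiff ℝ ∞ (extDeriv φ.toFun) := by
  have h : ContDiff ℝ ∞ (fderiv ℝ φ.toFun) :=
    φ.smooth.fderiv_right (by exact_mod_cast le_refl _)
  exact (ContinuousAlternatingMap.alternatizeUncurryFinCLM ℝ (Eu N) ℝ).contDiff.comp h

theorem TestForm.compact_extDeriv {N m : ℕ} (φ : TestForm N m) :
    HasCompactSupport (extDeriv φ.toFun) := by
  have h := φ.compact.fderiv (𝕜 := ℝ)
  refine h.mono' ?_
  intro x hx
  by_contra hc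
  apply hx
  have h0 : fderiv ℝ φ.toFun x = 0 := by
    by_contra h1
    exact hc (subset_tsupport _ h1)
  show extDeriv φ.toFun x = 0
  rw [extDeriv, h0]
  exact (ContinuousAlternatingMap.alternatizeUncurryFinCLM ℝ (Eu N) ℝ).map_zero

/-- The exterior derivative of a test form. -/
noncomputable def TestForm.d {N m : ℕ} (φ : TestForm N m) : TestForm N (m + 1) :=
  ⟨extDeriv φ.toFun, φ.smooth_extDeriv, φ.compact_extDeriv⟩

/-- An `m`-current, as a functional on test forms. -/
abbrev Current (N m : ℕ) := TestForm N m → ℝ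

/-- The boundary of a current. -/
noncomputable def bdry {N m : ℕ} (T : Current N (m + 1)) : Current N m := fun φ => T φ.d

/-- A smooth Riemannian metric on `ℝ^N`, uniformly equivalent to the Euclidean one
(in particular complete). -/
structure Metric (N : ℕ) where
  g : Eu N → Eu N → Eu N → ℝ
  add : ∀ x u v w, g x (u + v) w = g x u w + g x v w
  smul : ∀ x (a : ℝ) v w, g x (a • v) w = a * g x v w
  symm : ∀ x v w, g x v w = g x w v
  smooth : ∀ v w, ContDiff ℝ ∞ fun x => g x v w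
  lower : ∃ c : ℝ, 0 < c ∧ ∀ x v, c * ‖v‖ ^ 2 ≤ g x v v
  upper : ∃ C : ℝ, ∀ x v, g x v v ≤ C * ‖v‖ ^ 2

/-- `g`-length of a tangent vector. -/
noncomputable def Metric.len {N : ℕ} (g : Metric N) (x v : Eu N) : ℝ := Real.sqrt (g.g x v v)

/-- The form `φ` has `g`-comass at most one at every point. -/
def ComassLE {N m : ℕ} (g : Metric N) (φ : TestForm N m) : Prop :=
  ∀ (x : Eu N) (v : Fin m → Eu N), |φ.toFun x v| ≤ ∏ i, g.len x (v i)

/-- The `g`-mass of a current. -/
noncomputable def mass {N m : ℕ} (g : Metric N) (T : Current N m) : EReal :=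
  ⨆ (φ : TestForm N m) (_ : ComassLE g φ), ((T φ : ℝ) : EReal)

/-- The `j`-th partial derivative of a map on `ℝ^m`. -/
noncomputable def pd {N m : ℕ} (f : (Fin m → ℝ) → Eu N) (x : Fin m → ℝ) (j : Fin m) : Eu N :=
  fderiv ℝ f x (Pi.single j 1)

/-- The Jacobian of a map from `ℝ^m`. -/
noncomputable def jac {N m : ℕ} (f : (Fin m → ℝ) → Eu N) (x : Fin m → ℝ) : ℝ :=
  Real.sqrt (Matrix.det (Matrix.of fun i j : Fin m => (inner ℝ (pd f x i) (pd f x j) : ℝ)))

/-- The integral of a form over the piece `f|A` of a parametrized surface. -/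
noncomputable def pieceInt {N m : ℕ} (f : (Fin m → ℝ) → Eu N) (A : Set (Fin m → ℝ))
    (φ : TestForm N m) : ℝ := ∫ x in A, φ.toFun (f x) (pd f x)

/-- Integer rectifiable currents with compact support: countable sums, with integer
multiplicities and finite total mass, of Lipschitz images of bounded measurable sets. -/
def IsRectifiable {N m : ℕ} (T : Current N m) : Prop :=
  ∃ (f : ℕ → (Fin m → ℝ) → Eu N) (A : ℕ → Set (Fin m → ℝ)) (θ : ℕ → ℤ) (K : Set (Eu N)),
    IsCompact K ∧
    (∀ i, MeasurableSet (A i) ∧ Bornology.IsBounded (A i) ∧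
      (∃ L, LipschitzWith L (f i)) ∧ MapsTo (f i) (A i) K) ∧
    Summable (fun i => |(θ i : ℝ)| * ∫ x in A i, jac (f i) x) ∧
    ∀ φ, HasSum (fun i => (θ i : ℝ) * pieceInt (f i) (A i) φ) (T φ)

/-- Integral currents. -/
def IsIntegral {N m : ℕ} (T : Current N (m + 1)) : Prop :=
  IsRectifiable T ∧ IsRectifiable (bdry T)

/-- `T` is an integral current of least `g`-mass among the integral currents with the
same boundary. -/
def IsMinimizing {N m : ℕ} (g : Metric N) (T : Current N (m + 1)) : Prop :=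
  IsIntegral T ∧ mass g T < ⊤ ∧
    ∀ S : Current N (m + 1), IsIntegral S → bdry S = bdry T → mass g T ≤ mass g S

/-- The support of a current. -/
def supp {N m : ℕ} (T : Current N m) : Set (Eu N) :=
  {x | ∀ U : Set (Eu N), IsOpen U → x ∈ U →
    ∃ φ : TestForm N m, tsupport φ.toFun ⊆ U ∧ T φ ≠ 0}

/-- `Ξ` is an (embedded) `C¹` submanifold of codimension `c` contained in `U`. -/
def IsSubmanifold {N : ℕ} (c : ℕ) (Ξ U : Set (Eu N)) : Prop :=
  Ξ ⊆ U ∧ ∀ ξ ∈ Ξ, ∃ (V : Set (Eu N)) (h : Eu N → Eu c), IsOpen V ∧ ξ ∈ V ∧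
    ContDiffOn ℝ 1 h V ∧ (∀ y ∈ V, Function.Surjective (fderiv ℝ h y)) ∧
    Ξ ∩ V = {y ∈ V | h y = 0}

/-- Boundary regular points of an `m`-current (`m = N - c`) with boundary in `Γ`. -/
def RegB {N m : ℕ} (c : ℕ) (T : Current N m) (Γ : Set (Eu N)) : Set (Eu N) :=
  {x ∈ Γ | ∃ U Ξ : Set (Eu N), IsOpen U ∧ x ∈ U ∧ IsSubmanifold c Ξ U ∧ supp T ∩ U ⊆ Ξ}

/-- The boundary singular set. -/
def SingB {N m : ℕ} (c : ℕ) (T : Current N m) (Γ : Set (Eu N)) : Set (Eu N) :=
  Γ \ RegB c T Γ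

/-- A smoothly embedded torus `(ℝ / 2πℤ)² → ℝ^N`. -/
structure EmbTorus (N : ℕ) where
  γ : (Fin 2 → ℝ) → Eu N
  smooth : ContDiff ℝ ∞ γ
  per : ∀ (p : Fin 2 → ℝ) (n : Fin 2 → ℤ), γ (fun i => p i + 2 * Real.pi * n i) = γ p
  inj : ∀ p q, γ p = γ q → ∃ n : Fin 2 → ℤ, q = fun i => p i + 2 * Real.pi * n i
  imm : ∀ p, Function.Injective (fderiv ℝ γ p)

/-- The fundamental square `[0, 2π]²`. -/
def square : Set (Fin 2 → ℝ) := Icc (fun _ => 0) (fun _ => 2 * Real.pi)

/-- Negative answer to Q1: the boundary singular set of an area minimizing integral current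
may have positive `(m-1)`-dimensional measure (`m = 3`, in a smooth complete metric on `ℝ⁷`).
The current minimizes mass even among all functionals on test forms with the same boundary. -/
def Goal : Prop :=
  ∃ (g : Metric 7) (Γ : Fin 4 → EmbTorus 7) (σ : Fin 4 → ℤ) (T : Current 7 3),
    (∀ i, σ i = 1 ∨ σ i = -1) ∧
    Pairwise (fun i j => Disjoint (range (Γ i).γ) (range (Γ j).γ)) ∧
    (∀ φ, bdry T φ = ∑ i, (σ i : ℝ) * pieceInt (Γ i).γ square φ) ∧
    IsMinimizing g T ∧
    (∀ S : Current 7 3, bdry S = bdry T → mass g T ≤ mass g S) ∧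
    0 < μH[2] (SingB 4 T (⋃ i, range (Γ i).γ))

end BSS
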