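import Pool.Agent.BSS.K7
import Pool.Agent.BSS.Global
import Pool.Agent.BSS.Stmt

/-!
# BSS, module G3: the global metric on `R^7` (helper39)
-/

set_option autoImplicit false
set_option maxSynthPendingDepth 3

open scoped ContDiff Topology

namespace Pool.Agent.BSS

/-- the pull back of a bilinear form on `X3 × H` by `DInv p` -/
noncomputable def bil (γ : X3 × H → X3 × H →L[ℝ] X3 × H →L[ℝ] ℝ) (p : X3 × H) :
    R7 →L[ℝ] R7 →L[ℝ] ℝ :=
  (γ p).bilinearComp (DInv p) (DInv p)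

theorem bil_apply (γ : X3 × H → X3 × H →L[ℝ] X3 × H →L[ℝ] ℝ) (p : X3 × H) (v v' : R7) :
    bil γ p v v' = γ p (DInv p v) (DInv p v') := rfl

theorem per_bil {γ : X3 × H → X3 × H →L[ℝ] X3 × H →L[ℝ] ℝ} (h : Per γ) : Per (bil γ) := by
  refine ⟨fun p => ?_, fun p => ?_⟩
  · unfold bil
    rw [h.1 p, per_DInv.1 p]
  · unfold bil
    rw [h.2 p, per_DInv.2 p]

theorem contDiffAt_bil7 {γ : X3 × H → X3 × H →L[ℝ] X3 × H →L[ℝ] ℝ} {p : X3 × H}
    (h : ContDiffAt ℝ ∞ γ p) : ContDiffAt ℝ ∞ (bil γ) p := by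
  have h1 : ContDiffAt ℝ ∞ (fun q => (γ q).comp (DInv q)) p :=
    h.clm_comp contDiff_DInv.contDiffAt
  have h2 : ContDiffAt ℝ ∞ (fun q => ((γ q).comp (DInv q)).flip) p :=
    (ContinuousLinearMap.flipₗᵢ ℝ R7 (X3 × H) ℝ).contDiff.contDiffAt.comp p h1
  have h3 : ContDiffAt ℝ ∞ (fun q => (((γ q).comp (DInv q)).flip).comp (DInv q)) p :=
    h2.clm_comp contDiff_DInv.contDiffAt
  exact (ContinuousLinearMap.flipₗᵢ ℝ R7 R7 ℝ).contDiff.contDiffAt.comp p h3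

theorem smooth_cut_bil {γ : X3 × H → X3 × H →L[ℝ] X3 × H →L[ℝ] ℝ}
    (hγ : ContDiffOn ℝ ∞ γ {p | ‖p.2‖ < 4}) {a a' b : ℝ} (hb : 0 ≤ b)
    {b' : ℝ} (hbb : b < b') (hb4 : b' < 4) :
    ContDiff ℝ ∞ fun p => cutTY a a' b b' p • bil γ p := by
  have hO : IsOpen {p : X3 × H | ‖p.2‖ < 4} := isOpen_lt (continuous_snd.norm) continuous_const
  rw [contDiff_iff_contDiffAt]
  intro p
  by_cases hp : ‖p.2‖ < 4
  · exact (contDiff_cutTY a a' b b' (n := (⊤ : ℕ∞))).contDiffAt.smul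
      (contDiffAt_bil7 (hγ.contDiffAt (hO.mem_nhds hp)))
  · have hO' : IsOpen {p : X3 × H | b' < ‖p.2‖} := isOpen_lt continuous_const (continuous_snd.norm)
    have hev : (fun p => cutTY a a' b b' p • bil γ p) =ᶠ[𝓝 p] fun _ => 0 := by
      filter_upwards [hO'.mem_nhds (show b' < ‖p.2‖ from hb4.trans_le (not_lt.1 hp))] with q hq
      have h0 : cutTY a a' b b' q = 0 := cutTY_eq_zero_right hb hbb (le_of_lt hq)
      rw [h0, zero_smul]
    exact contDiffAt_const.congr_of_eventuallyEq hev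

/-- **The metric on `R^7`.** -/
theorem exists_metric7 (γ : X3 × H → X3 × H →L[ℝ] X3 × H →L[ℝ] ℝ)
    (hγ : ContDiffOn ℝ ∞ γ {p | ‖p.2‖ < 4}) (hper : Per γ)
    (hs : ∀ p : X3 × H, ‖p.2‖ < 4 → ∀ v v', γ p v v' = γ p v' v)
    (hpos : ∀ p : X3 × H, ‖p.2‖ < 4 → ∀ v, v ≠ 0 → 0 < γ p v v)
    (κ : X3 × H → (X3 × H) [⋀^Fin 2]→L[ℝ] ℝ) (hκ : ContDiff ℝ ∞ κ) (hκp : Per κ)
    (hcal : ∀ p : X3 × H, ‖p.2‖ < 4 → ∀ v1 v2 v3,
      |extDeriv κ p ![v1, v2, v3]| ≤ √(gram3 (fun v w => γ p v w) v1 v2 v3)) :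
    ∃ g : _root_.BSS.Metric 7,
      (∀ w (v : Fin 3 → R7), |Phi7 κ w v| ≤ ∏ i, g.len w (v i)) ∧
      ∀ p : X3 × H, |p.1 2| ≤ 5 → ‖p.2‖ ≤ 3 → ∀ v v',
        g.g (Psi p) (DPsi p v) (DPsi p v') = γ p v v' := by
  -- the two cut-offs
  let c1 : X3 × H → ℝ := cutTY (21/4) (11/2) (31/10) (16/5)
  let c2 : X3 × H → ℝ := cutTY 5 (21/4) 3 (31/10)
  have hc1 : ∀ p : X3 × H, |p.1 2| ≤ 21/4 → ‖p.2‖ ≤ 31/10 → c1 p = 1 := fun p h h' =>
    cutTY_eq_one (by norm_num) (by norm_num) (by norm_num) (by norm_num) h h'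
  have hc1' : ∀ p : X3 × H, c1 p ≠ 0 → |p.1 2| < 11/2 ∧ ‖p.2‖ < 16/5 := fun p h =>
    cutTY_ne_zero (by norm_num) (by norm_num) (by norm_num) (by norm_num) h
  have hc2 : ∀ p : X3 × H, |p.1 2| ≤ 5 → ‖p.2‖ ≤ 3 → c2 p = 1 := fun p h h' =>
    cutTY_eq_one (by norm_num) (by norm_num) (by norm_num) (by norm_num) h h'
  have hc2' : ∀ p : X3 × H, c2 p ≠ 0 → |p.1 2| < 21/4 ∧ ‖p.2‖ < 31/10 := fun p h =>
    cutTY_ne_zero (by norm_num) (by norm_num) (by norm_num) (by norm_num) h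
  have hc2p : Per c2 := per_cutTY _ _ _ _
  let f : X3 × H → R7 →L[ℝ] R7 →L[ℝ] ℝ := fun p => c1 p • bil γ p
  have hfs : ContDiff ℝ ∞ f :=
    smooth_cut_bil hγ (by norm_num) (by norm_num) (by norm_num)
  have hfp : Per f := by
    have h1 := per_bil hper
    have h2 : Per c1 := per_cutTY _ _ _ _
    refine ⟨fun p => ?_, fun p => ?_⟩
    · show c1 _ • bil γ _ = _
      rw [h1.1 p, h2.1 p]
    · show c1 _ • bil γ _ = _
      rw [h1.2 p, h2.2 p]
  have hfR : ∃ R : ℝ, ∀ p, f p ≠ 0 → ‖p.2‖ ≤ R := by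
    refine ⟨16/5, fun p hp => ?_⟩
    by_contra hlt
    apply hp
    show c1 p • bil γ p = 0
    have h0 : c1 p = 0 := by
      by_contra h0
      exact hlt (hc1' p h0).2.le
    rw [h0, zero_smul]
  let G : R7 → R7 →L[ℝ] R7 →L[ℝ] ℝ := push f
  have hne : (∞ : WithTop ℕ∞) ≠ 0 := by simp
  have hG : ContDiff ℝ ∞ G := contDiff_push hfp hne hfs hfR
  let h2 : R7 → ℝ := push c2
  have hh2 : ContDiff ℝ ∞ h2 := by
    exact contDiff_push hc2p hne (contDiff_cutTY _ _ _ _) ⟨31/10, fun p hp => (hc2' p hp).2.le⟩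
  have hh2c : HasCompactSupport h2 := by
    refine hasCompactSupport_push hc2p ⟨21/4, fun p hp => ?_⟩
    obtain ⟨h1, h3⟩ := hc2' p hp
    exact ⟨by linarith, h1.le⟩
  -- the open set
  let U : Set R7 := {w | 0 < h2 w}
  have hU : IsOpen U := isOpen_lt continuous_const hh2.continuous
  have hUP : ∀ w ∈ U, ∃ p : X3 × H, w = Psi p ∧ |p.1 2| < 21/4 ∧ ‖p.2‖ < 31/10 := by
    intro w hw
    have hw' : 0 < push c2 w := hw
    by_cases hwU : w ∈ U7
    · refine ⟨sig w, (Psi_sig hwU).symm, ?_⟩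
      have h3 : push c2 w = c2 (sig w) := push_of_mem c2 hwU
      rw [h3] at hw'
      exact hc2' (sig w) (ne_of_gt hw')
    · have h3 : push c2 w = 0 := push_of_not_mem c2 hwU
      rw [h3] at hw'
      exact absurd hw' (lt_irrefl _)
  have hGP : ∀ p : X3 × H, |p.1 2| ≤ 21/4 → ‖p.2‖ ≤ 31/10 → G (Psi p) = bil γ p := by
    intro p h1 h3
    show push f (Psi p) = _
    rw [push_Psi hfp]
    show c1 p • bil γ p = _
    rw [hc1 p h1 h3, one_smul]
  let K1 : Set R7 := {w | h2 w = 1}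
  have hK1 : IsCompact K1 := by
    refine hh2c.isCompact.of_isClosed_subset (isClosed_eq hh2.continuous continuous_const) ?_
    intro w hw
    apply subset_tsupport
    have hw' : h2 w = 1 := hw
    show h2 w ≠ 0
    rw [hw']
    exact one_ne_zero
  have hKU : K1 ⊆ U := fun w hw => by
    have hw' : h2 w = 1 := hw
    show 0 < h2 w
    rw [hw']
    exact one_pos
  have hDne : ∀ (p : X3 × H) (v : R7), v ≠ 0 → DInv p v ≠ 0 := by
    intro p v hv h
    apply hv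
    rw [← DPsi_DInv p v, h, map_zero]
  have hΦs := contDiff_Phi7 hκ hκp
  obtain ⟨g, hgs, hgsym, ⟨c, C, hc, hcC⟩, hgc, hgK⟩ := global_metric U hU K1 hK1 hKU G
    hG.contDiffOn
    (by
      intro w hw v v'
      obtain ⟨p, rfl, h1, h3⟩ := hUP w hw
      rw [hGP p h1.le h3.le, bil_apply, bil_apply]
      exact hs p (by linarith) _ _)
    (by
      intro w hw v hv
      obtain ⟨p, rfl, h1, h3⟩ := hUP w hw
      rw [hGP p h1.le h3.le, bil_apply]
      exact hpos p (by linarith) _ (hDne p v hv))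
    (Phi7 κ) hΦs.continuous (hasCompactSupport_Phi7 hκp)
    (by
      intro w hw v1 v2 v3
      obtain ⟨p, rfl, h1, h3⟩ := hUP w hw
      rw [hGP p h1.le h3.le]
      have h4 := Phi7_Psi hκ hκp (p := p) (by linarith) (by linarith)
      have h5 : Phi7 κ (Psi p) ![v1, v2, v3] =
          extDeriv κ p ![DInv p v1, DInv p v2, DInv p v3] := by
        rw [← h4, ContinuousAlternatingMap.compContinuousLinearMap_apply]
        congr 1
        funext i
        fin_cases i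
        · exact (DPsi_DInv p v1).symm
        · exact (DPsi_DInv p v2).symm
        · exact (DPsi_DInv p v3).symm
      rw [h5]
      exact hcal p (by linarith) _ _ _)
  refine ⟨⟨fun x v w => g x v w, fun x u v w => by simp, fun x a v w => by simp, hgsym,
    fun v w => (hgs.clm_apply contDiff_const).clm_apply contDiff_const,
    ⟨c, hc, fun x v => (hcC x v).1⟩, ⟨C, fun x v => (hcC x v).2⟩⟩, hgc, ?_⟩
  intro p h1 h3 v v'
  have hmem : Psi p ∈ K1 := by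
    show push c2 (Psi p) = 1
    rw [push_Psi hc2p]
    exact hc2 p h1 h3
  show g (Psi p) _ _ = _
  rw [hgK _ hmem, hGP p (by linarith) (by linarith), bil_apply, DInv_DPsi, DInv_DPsi]

end Pool.Agent.BSS
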