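import Pool.Agent.BSS.Fields
import Pool.Agent.BSS.ATDef

/-!
# MP_bff03b_an (BSS), G2: periodic extension of the data of theorem AT
-/

set_option autoImplicit false
set_option maxSynthPendingDepth 3

open Set Filter Topology MeasureTheory
open scoped ContDiff

namespace Pool.Agent.BSS

/-- The number of periods to be removed. -/
noncomputable def nper (t : ℝ) : ℤ := ⌊(t + 5 / 2) / (2 * Real.pi)⌋

/-- The lattice vector `(2 pi m, 2 pi n, 0)`. -/
noncomputable def lvec (m n : ℤ) : X3 := ![2 * Real.pi * m, 2 * Real.pi * n, 0]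

/-- The representative in the fundamental domain `[-5/2, 2 pi - 5/2)^2 x R`. -/
noncomputable def red (x : X3) : X3 := x - lvec (nper (x 0)) (nper (x 1))

/-- The periodic extension. -/
noncomputable def perf {F : Type*} (f : X3 → F) (x : X3) : F := f (red x)

theorem sub_lvec_0 (x : X3) (m n : ℤ) : (x - lvec m n) 0 = x 0 - 2 * Real.pi * m := rfl
theorem sub_lvec_1 (x : X3) (m n : ℤ) : (x - lvec m n) 1 = x 1 - 2 * Real.pi * n := rfl
theorem sub_lvec_2 (x : X3) (m n : ℤ) : (x - lvec m n) 2 = x 2 := by simp [lvec]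

@[simp] theorem red_2 (x : X3) : red x 2 = x 2 := sub_lvec_2 x _ _

theorem nper_bounds (t : ℝ) :
    -(5 / 2) ≤ t - 2 * Real.pi * nper t ∧ t - 2 * Real.pi * nper t < 2 * Real.pi - 5 / 2 := by
  have hp : (0 : ℝ) < 2 * Real.pi := by positivity
  have h1 := Int.floor_le ((t + 5 / 2) / (2 * Real.pi))
  have h2 := Int.lt_floor_add_one ((t + 5 / 2) / (2 * Real.pi))
  rw [le_div_iff₀ hp] at h1
  rw [div_lt_iff₀ hp] at h2
  rw [nper]
  constructor <;> linarith

theorem nper_add (t : ℝ) : nper (t + 2 * Real.pi) = nper t + 1 := by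
  have hp : (2 * Real.pi : ℝ) ≠ 0 := by positivity
  rw [nper, nper, ← Int.floor_add_one]
  congr 1
  field_simp
  ring

theorem red_add0 (x : X3) : red (x + (2 * Real.pi) • ee 0) = red x := by
  have e0 : (x + (2 * Real.pi) • ee 0 : X3) 0 = x 0 + 2 * Real.pi := by simp [ee]
  have e1 : (x + (2 * Real.pi) • ee 0 : X3) 1 = x 1 := by simp [ee]
  have e2 : (x + (2 * Real.pi) • ee 0 : X3) 2 = x 2 := by simp [ee]
  funext i
  rw [red, red]
  fin_cases i
  · change (x + (2 * Real.pi) • ee 0 : X3) 0 -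
      2 * Real.pi * nper ((x + (2 * Real.pi) • ee 0 : X3) 0) = x 0 - 2 * Real.pi * nper (x 0)
    rw [e0, nper_add]; push_cast; ring
  · change (x + (2 * Real.pi) • ee 0 : X3) 1 -
      2 * Real.pi * nper ((x + (2 * Real.pi) • ee 0 : X3) 1) = x 1 - 2 * Real.pi * nper (x 1)
    rw [e1]
  · change (_ - _ : X3) 2 = (_ - _ : X3) 2
    rw [sub_lvec_2, sub_lvec_2, e2]

theorem red_add1 (x : X3) : red (x + (2 * Real.pi) • ee 1) = red x := by
  have e0 : (x + (2 * Real.pi) • ee 1 : X3) 0 = x 0 := by simp [ee]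
  have e1 : (x + (2 * Real.pi) • ee 1 : X3) 1 = x 1 + 2 * Real.pi := by simp [ee]
  have e2 : (x + (2 * Real.pi) • ee 1 : X3) 2 = x 2 := by simp [ee]
  funext i
  rw [red, red]
  fin_cases i
  · change (x + (2 * Real.pi) • ee 1 : X3) 0 -
      2 * Real.pi * nper ((x + (2 * Real.pi) • ee 1 : X3) 0) = x 0 - 2 * Real.pi * nper (x 0)
    rw [e0]
  · change (x + (2 * Real.pi) • ee 1 : X3) 1 -
      2 * Real.pi * nper ((x + (2 * Real.pi) • ee 1 : X3) 1) = x 1 - 2 * Real.pi * nper (x 1)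
    rw [e1, nper_add]; push_cast; ring
  · change (_ - _ : X3) 2 = (_ - _ : X3) 2
    rw [sub_lvec_2, sub_lvec_2, e2]

/-- One coordinate: if the number of periods differs, both representatives are outside
`[-2, 3]`. -/
theorem coord_out {t : ℝ} {m : ℤ} (h : nper t ≠ m) (h1 : -3 < t - 2 * Real.pi * m)
    (h2 : t - 2 * Real.pi * m < 4) :
    ¬(-2 ≤ t - 2 * Real.pi * nper t ∧ t - 2 * Real.pi * nper t ≤ 3) ∧
      ¬(-2 ≤ t - 2 * Real.pi * m ∧ t - 2 * Real.pi * m ≤ 3) := by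
  have hb := nper_bounds t
  have hp := Real.pi_gt_three
  rcases lt_or_gt_of_ne h with h | h
  · have h3 : ((nper t : ℤ) : ℝ) + 1 ≤ m := by exact_mod_cast h
    have h4 : 2 * Real.pi * ((nper t : ℤ) : ℝ) + 2 * Real.pi ≤ 2 * Real.pi * m := by nlinarith
    constructor
    · rintro ⟨_, h5⟩; linarith
    · rintro ⟨h5, _⟩; linarith [hb.2]
  · have h3 : (m : ℝ) + 1 ≤ ((nper t : ℤ) : ℝ) := by exact_mod_cast h
    have h4 : 2 * Real.pi * (m : ℝ) + 2 * Real.pi ≤ 2 * Real.pi * ((nper t : ℤ) : ℝ) := by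
      nlinarith
    constructor
    · rintro ⟨h5, _⟩; linarith
    · rintro ⟨_, h5⟩; linarith [hb.1]

theorem perf_eq_near {F : Type*} {f : X3 → F} {c : F} (hf : ∀ x ∉ Box2, f x = c) (m n : ℤ)
    (y : X3) (h0 : -3 < y 0 - 2 * Real.pi * m) (h0' : y 0 - 2 * Real.pi * m < 4)
    (h1 : -3 < y 1 - 2 * Real.pi * n) (h1' : y 1 - 2 * Real.pi * n < 4) :
    perf f y = f (y - lvec m n) := by
  by_cases e0 : nper (y 0) = m
  · by_cases e1 : nper (y 1) = n
    · rw [perf, red, e0, e1]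
    · obtain ⟨a, b⟩ := coord_out e1 h1 h1'
      rw [perf, hf _ fun h => a ⟨h.2.2.1, h.2.2.2.1⟩, hf _ fun h => b ⟨h.2.2.1, h.2.2.2.1⟩]
  · obtain ⟨a, b⟩ := coord_out e0 h0 h0'
    rw [perf, hf _ fun h => a ⟨h.1, h.2.1⟩, hf _ fun h => b ⟨h.1, h.2.1⟩]

theorem perf_eventuallyEq {F : Type*} {f : X3 → F} {c : F} (hf : ∀ x ∉ Box2, f x = c) (x : X3) :
    perf f =ᶠ[𝓝 x] fun y => f (y - lvec (nper (x 0)) (nper (x 1))) := by
  have hb0 := nper_bounds (x 0)
  have hb1 := nper_bounds (x 1)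
  have hp := Real.pi_lt_d2
  have c0 : Continuous fun y : X3 => y 0 - 2 * Real.pi * nper (x 0) := by fun_prop
  have c1 : Continuous fun y : X3 => y 1 - 2 * Real.pi * nper (x 1) := by fun_prop
  have a1 : ∀ᶠ y : X3 in 𝓝 x, -3 < y 0 - 2 * Real.pi * nper (x 0) :=
    (c0.tendsto x).eventually (lt_mem_nhds (by linarith [hb0.1]))
  have a2 : ∀ᶠ y : X3 in 𝓝 x, y 0 - 2 * Real.pi * nper (x 0) < 4 :=
    (c0.tendsto x).eventually (gt_mem_nhds (by linarith [hb0.2]))
  have a3 : ∀ᶠ y : X3 in 𝓝 x, -3 < y 1 - 2 * Real.pi * nper (x 1) :=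
    (c1.tendsto x).eventually (lt_mem_nhds (by linarith [hb1.1]))
  have a4 : ∀ᶠ y : X3 in 𝓝 x, y 1 - 2 * Real.pi * nper (x 1) < 4 :=
    (c1.tendsto x).eventually (gt_mem_nhds (by linarith [hb1.2]))
  filter_upwards [a1, a2, a3, a4] with y b1 b2 b3 b4
  exact perf_eq_near hf _ _ y b1 b2 b3 b4

/-- On `(-3, 4)^2 x R` nothing changes. -/
theorem perf_eq_self {F : Type*} {f : X3 → F} {c : F} (hf : ∀ x ∉ Box2, f x = c) (x : X3)
    (h0 : -3 < x 0) (h0' : x 0 < 4) (h1 : -3 < x 1) (h1' : x 1 < 4) : perf f x = f x := by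
  have e : x - lvec 0 0 = x := by
    funext i
    fin_cases i <;> simp [lvec]
  have h := perf_eq_near hf 0 0 x (by simpa using h0) (by simpa using h0') (by simpa using h1)
    (by simpa using h1')
  rw [h, e]

section smooth

variable {F : Type*} [NormedAddCommGroup F] [NormedSpace ℝ F] {f : X3 → F} {c : F}

theorem contDiff_perf (hf : ∀ x ∉ Box2, f x = c) (hs : ContDiff ℝ ∞ f) :
    ContDiff ℝ ∞ (perf f) := by
  rw [contDiff_iff_contDiffAt]
  intro x
  have h : ContDiff ℝ ∞ fun y : X3 => f (y - lvec (nper (x 0)) (nper (x 1))) :=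
    hs.comp (contDiff_id.sub contDiff_const)
  exact h.contDiffAt.congr_of_eventuallyEq (perf_eventuallyEq hf x)

theorem fderiv_perf (hf : ∀ x ∉ Box2, f x = c) (x : X3) :
    fderiv ℝ (perf f) x = fderiv ℝ f (red x) := by
  rw [(perf_eventuallyEq hf x).fderiv_eq, fderiv_comp_sub]
  rfl

end smooth

/-- **Periodic data from theorem AT.** -/
theorem ATData.pData {ε : ℝ} (A : ATData ε) (hε : ε ≤ 1 / 1000) :
    PData (perf A.u) (perf A.S1) (perf A.S2) := by
  have hu : ∀ x ∉ Box2, A.u x = A.c0 := fun x hx => (A.out x hx).1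
  have h1 : ∀ x ∉ Box2, A.S1 x = 0 := fun x hx => (A.out x hx).2.1
  have h2 : ∀ x ∉ Box2, A.S2 x = 0 := fun x hx => (A.out x hx).2.2
  refine ⟨contDiff_perf hu A.u_smooth, contDiff_perf h1 A.S1_smooth, contDiff_perf h2 A.S2_smooth,
    fun x y z => A.symm1 _ y z, fun x y z => A.symm2 _ y z, fun x => (A.u_le _).trans hε,
    fun x => ?_, fun x => (A.S1_le _).trans hε, fun x => (A.S2_le _).trans hε, fun x => ?_,
    fun x => ?_, fun x => ?_, fun x => ?_, fun x => ?_, fun x => ?_, fun x => ?_, fun x => ?_,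
    fun x hx => ?_⟩
  · rw [fderiv_perf hu]; exact (A.du_le _).trans hε
  · rw [fderiv_perf h1]; exact (A.dS1_le _).trans hε
  · rw [fderiv_perf h2]; exact (A.dS2_le _).trans hε
  · rw [perf, perf, red_add0]
  · rw [perf, perf, red_add1]
  · rw [perf, perf, red_add0]
  · rw [perf, perf, red_add1]
  · rw [perf, perf, red_add0]
  · rw [perf, perf, red_add1]
  · have hp : ∀ i, pd (perf A.u) i x = pd A.u i (red x) := fun i => by
      rw [pd, pd, fderiv_perf hu]
    rw [hp, hp, hp]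
    exact A.eqn (red x) (by rw [red_2]; exact hx)

/-- The zero set of the periodic function. -/
theorem ATData.perf_zero {ε : ℝ} (A : ATData ε) (x : X3) (hx : 0 ≤ x 2) :
    perf A.u x = 0 ↔ x 2 = 0 ∧ pr (red x) ∈ A.E := by
  rw [perf, A.zero (red x) (by rw [red_2]; exact hx), red_2]

theorem ATData.perf_zero_E {ε : ℝ} (A : ATData ε) (y : X2) (hy : y ∈ A.E) :
    perf A.u ![y 0, y 1, 0] = 0 := by
  have h0 := A.E_sub y hy 0
  have h1 := A.E_sub y hy 1
  rw [perf_eq_self (fun x hx => (A.out x hx).1) _ (by show -3 < y 0; linarith [h0.1])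
    (by show y 0 < 4; linarith [h0.2]) (by show -3 < y 1; linarith [h1.1])
    (by show y 1 < 4; linarith [h1.2])]
  refine (A.zero _ (le_refl _)).2 ⟨rfl, ?_⟩
  have e : pr ![y 0, y 1, 0] = y := by
    funext i
    fin_cases i <;> rfl
  rw [e]
  exact hy

theorem ATData.perf_ne_zero {ε : ℝ} (A : ATData ε) (x : X3) (hx : 0 < x 2) :
    perf A.u x ≠ 0 := fun h => hx.ne' ((A.perf_zero x hx.le).1 h).1

theorem ATData.perf_far {ε : ℝ} (A : ATData ε) (x : X3) (hx : 2 < x 2) :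
    perf A.u x = A.c0 ∧ perf A.S1 x = 0 ∧ perf A.S2 x = 0 :=
  A.out (red x) fun h => by
    have h2 := h.2.2.2.2.2
    rw [red_2] at h2
    linarith

end Pool.Agent.BSS
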