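import Pool.Agent.BSS.Tori

/-!
# MP_bff03b_an (BSS): the current `T` is an integral current
-/

set_option autoImplicit false
set_option maxSynthPendingDepth 3

open MeasureTheory Set Filter Topology
open scoped ContDiff

namespace Pool.Agent.BSS

/-- projection to a box -/
def clamp {m : ℕ} (a b x : Fin m → ℝ) : Fin m → ℝ := fun i => max (a i) (min (b i) (x i))

theorem clamp_mem {m : ℕ} {a b : Fin m → ℝ} (hab : a ≤ b) (x : Fin m → ℝ) :
    clamp a b x ∈ Icc a b :=
  ⟨fun _ => le_max_left _ _, fun i => max_le (hab i) (min_le_left _ _)⟩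

theorem clamp_eq {m : ℕ} {a b x : Fin m → ℝ} (hx : ∀ i, a i ≤ x i ∧ x i ≤ b i) :
    clamp a b x = x := by
  funext i
  rw [clamp, min_eq_right (hx i).2, max_eq_right (hx i).1]

theorem clamp_dist {m : ℕ} (a b x y : Fin m → ℝ) :
    dist (clamp a b x) (clamp a b y) ≤ dist x y := by
  rw [dist_pi_le_iff dist_nonneg]
  intro i
  refine le_trans ?_ (dist_le_pi_dist x y i)
  rw [Real.dist_eq, Real.dist_eq]
  unfold clamp
  have h1 : |max (a i) (min (b i) (x i)) - max (a i) (min (b i) (y i))| ≤
      |min (b i) (x i) - min (b i) (y i)| := by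
    have := abs_max_sub_max_le_max (a i) (min (b i) (x i)) (a i) (min (b i) (y i))
    rw [sub_self, abs_zero] at this
    exact this.trans (max_le (abs_nonneg _) le_rfl)
  have h2 : |min (b i) (x i) - min (b i) (y i)| ≤ |x i - y i| := by
    have := abs_min_sub_min_le_max (b i) (x i) (b i) (y i)
    rw [sub_self, abs_zero] at this
    exact this.trans (max_le (abs_nonneg _) le_rfl)
  exact h1.trans h2

/-- A `C^1` map on a box agrees inside the box with a globally Lipschitz map. -/
theorem exists_lipschitz {N m : ℕ} {F : (Fin m → ℝ) → _root_.BSS.Eu N} (hF : ContDiff ℝ 1 F)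
    {a b : Fin m → ℝ} (hab : a ≤ b) :
    ∃ G : (Fin m → ℝ) → _root_.BSS.Eu N, (∃ L, LipschitzWith L G) ∧
      (∀ x ∈ Icc a b, G x = F x) ∧
      ∀ φ : _root_.BSS.TestForm N m, _root_.BSS.pieceInt G (Icc a b) φ =
        _root_.BSS.pieceInt F (Icc a b) φ := by
  refine ⟨fun x => F (clamp a b x), ?_, ?_, ?_⟩
  · obtain ⟨C, hC⟩ := isCompact_Icc.exists_bound_of_continuousOn (s := Icc a b)
      (f := fderiv ℝ F) (hF.continuous_fderiv one_ne_zero).continuousOn
    have hC0 : 0 ≤ C := (norm_nonneg _).trans (hC a ⟨le_rfl, hab⟩)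
    have hlip : LipschitzOnWith ⟨C, hC0⟩ F (Icc a b) := by
      refine Convex.lipschitzOnWith_of_nnnorm_fderiv_le (𝕜 := ℝ) (fun x _ => ?_) (fun x hx => ?_)
        (convex_Icc a b)
      · exact hF.differentiable one_ne_zero x
      · exact hC x hx
    refine ⟨⟨C, hC0⟩, LipschitzWith.of_dist_le_mul fun x y => ?_⟩
    refine (hlip.dist_le_mul _ (clamp_mem hab x) _ (clamp_mem hab y)).trans ?_
    exact mul_le_mul_of_nonneg_left (clamp_dist a b x y) hC0
  · intro x hx
    change F (clamp a b x) = F x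
    rw [clamp_eq fun i => ⟨hx.1 i, hx.2 i⟩]
  · intro φ
    unfold _root_.BSS.pieceInt
    have hae : (pi univ fun i => Ioo (a i) (b i)) =ᵐ[volume] Icc a b :=
      Measure.univ_pi_Ioo_ae_eq_Icc
    rw [← setIntegral_congr_set hae, ← setIntegral_congr_set hae]
    have hms : MeasurableSet (pi univ fun i => Ioo (a i) (b i)) :=
      MeasurableSet.univ_pi fun i => measurableSet_Ioo
    have hopen : IsOpen (pi univ fun i => Ioo (a i) (b i)) :=
      isOpen_set_pi finite_univ fun i _ => isOpen_Ioo
    refine setIntegral_congr_fun hms fun x hx => ?_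
    have hev : (fun x => F (clamp a b x)) =ᶠ[𝓝 x] F := by
      filter_upwards [hopen.mem_nhds hx] with y hy
      rw [clamp_eq fun i => ⟨(hy i (mem_univ i)).1.le, (hy i (mem_univ i)).2.le⟩]
    have h1 : F (clamp a b x) = F x := hev.self_of_nhds
    have h2 : _root_.BSS.pd (fun x => F (clamp a b x)) x = _root_.BSS.pd F x := by
      funext j
      unfold _root_.BSS.pd
      rw [hev.fderiv_eq]
    change φ.toFun (F (clamp a b x)) (_root_.BSS.pd (fun x => F (clamp a b x)) x) = _
    rw [h1, h2]

/-- Finite sums of boxes are rectifiable. -/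
theorem isRectifiable_boxes {N m k : ℕ} (F : Fin k → (Fin m → ℝ) → _root_.BSS.Eu N)
    (hF : ∀ i, ContDiff ℝ 1 (F i)) (a b : Fin k → Fin m → ℝ) (hab : ∀ i, a i ≤ b i)
    (θ : Fin k → ℤ) (T : _root_.BSS.Current N m)
    (hT : ∀ φ, T φ = ∑ i, (θ i : ℝ) * _root_.BSS.pieceInt (F i) (Icc (a i) (b i)) φ) :
    _root_.BSS.IsRectifiable T := by
  classical
  choose G hG1 hG2 hG3 using fun i => exists_lipschitz (hF i) (hab i)
  refine ⟨fun i => if h : i < k then G ⟨i, h⟩ else fun _ => 0,
    fun i => if h : i < k then Icc (a ⟨i, h⟩) (b ⟨i, h⟩) else ∅,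
    fun i => if h : i < k then θ ⟨i, h⟩ else 0,
    ⋃ i, F i '' Icc (a i) (b i), ?_, ?_, ?_, ?_⟩
  · exact isCompact_iUnion fun i => isCompact_Icc.image (hF i).continuous
  · intro i
    by_cases h : i < k
    · simp only [h, dite_true]
      refine ⟨measurableSet_Icc, isCompact_Icc.isBounded, hG1 _, ?_⟩
      intro x hx
      rw [hG2 _ x hx]
      exact mem_iUnion.mpr ⟨_, mem_image_of_mem _ hx⟩
    · simp only [h, dite_false]
      exact ⟨MeasurableSet.empty, Bornology.isBounded_empty, ⟨0, LipschitzWith.const _⟩,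
        mapsTo_empty _ _⟩
  · apply summable_of_ne_finset_zero (s := Finset.range k)
    intro i hi
    have h : ¬ i < k := by simpa using hi
    simp only [h, dite_false]
    simp
  · intro φ
    have h1 : ∀ i ∉ Finset.range k, ((if h : i < k then θ ⟨i, h⟩ else 0 : ℤ) : ℝ) *
        _root_.BSS.pieceInt (if h : i < k then G ⟨i, h⟩ else fun _ => 0)
          (if h : i < k then Icc (a ⟨i, h⟩) (b ⟨i, h⟩) else ∅) φ = 0 := by
      intro i hi
      have h : ¬ i < k := by simpa using hi
      simp only [h, dite_false]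
      simp
    have h2 := hasSum_sum_of_ne_finset_zero (L := SummationFilter.unconditional ℕ) h1
    have h3 : T φ = ∑ i ∈ Finset.range k, ((if h : i < k then θ ⟨i, h⟩ else 0 : ℤ) : ℝ) *
        _root_.BSS.pieceInt (if h : i < k then G ⟨i, h⟩ else fun _ => 0)
          (if h : i < k then Icc (a ⟨i, h⟩) (b ⟨i, h⟩) else ∅) φ := by
      rw [hT, Finset.sum_range]
      refine Finset.sum_congr rfl fun i _ => ?_
      have h : (i : ℕ) < k := i.2
      simp only [h, dite_true]
      rw [hG3]
    rw [h3]
    exact h2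

theorem square_eq : _root_.BSS.square = Icc (fun _ => 0) (fun _ => 2 * Real.pi) := rfl

/-- **`T` is an integral current.** -/
theorem isIntegral_TT (u : X3 → H) (hu : ContDiff ℝ ∞ u)
    (h0 : ∀ x, u (x + (2 * Real.pi) • ee 0) = u x) (h1 : ∀ x, u (x + (2 * Real.pi) • ee 1) = u x) :
    _root_.BSS.IsIntegral (TT u) := by
  have hpi : (0 : ℝ) ≤ 2 * Real.pi := by positivity
  constructor
  · refine isRectifiable_boxes (k := 2) ![sheet fun _ => 0, sheet u] ?_
      ![![0, 0, -4], ![0, 0, 0]] ![![2 * Real.pi, 2 * Real.pi, 4], ![2 * Real.pi, 2 * Real.pi, 3]]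
      ?_ ![1, 1] (TT u) ?_
    · intro i
      fin_cases i
      · exact contDiff_sheet contDiff_const
      · exact contDiff_sheet (contDiff_infty.mp hu 1)
    · intro i
      fin_cases i
      · intro j
        fin_cases j
        · exact hpi
        · exact hpi
        · change (-4 : ℝ) ≤ 4
          norm_num
      · intro j
        fin_cases j
        · exact hpi
        · exact hpi
        · change (0 : ℝ) ≤ 3
          norm_num
    · intro φ
      rw [Fin.sum_univ_two]
      simp only [Matrix.cons_val]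
      push_cast
      rw [one_mul, one_mul]
      rfl
  · refine isRectifiable_boxes (k := 4) (fun i => (Gam u hu h0 h1 i).γ) ?_
      (fun _ _ => 0) (fun _ _ => 2 * Real.pi) ?_ sgn _ ?_
    · intro i
      exact contDiff_infty.mp (Gam u hu h0 h1 i).smooth 1
    · intro i j
      exact hpi
    · intro φ
      exact bdry_TT u hu h0 h1 φ

end Pool.Agent.BSS
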