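import Pool.Agent.BSS.SheetCal
import Pool.Agent.BSS.Metric7
import Pool.Agent.BSS.Rect
import Pool.Agent.BSS.Period

/-!
# MP_bff03b_an (BSS): the goal from theorem AT
-/

set_option autoImplicit false
set_option maxSynthPendingDepth 3

open MeasureTheory Set
open scoped ContDiff

namespace Pool.Agent.BSS

variable {u : X3 → H} {S1 S2 : X3 → H →L[ℝ] H}

/-- The metric on `ℝ⁷`. -/
theorem PData.exists_metric (D : PData u S1 S2) :
    ∃ g : _root_.BSS.Metric 7, MetricOut (prim u S1 S2) (gM u S1 S2) g :=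
  exists_metric7 (gM u S1 S2) D.contDiffOn_gM D.gM_per (fun p _ v v' => gM_symm u S1 S2 p v v')
    (fun p hp v hv => D.gM_pos p hp v hv) (prim u S1 S2) D.contDiff_prim D.prim_per
    (fun p hp v1 v2 v3 => D.calib_le p hp v1 v2 v3)

/-- What is needed about the support and the singular set. -/
def SingOut : Prop :=
  ∀ (u : X3 → H) (S1 S2 : X3 → H →L[ℝ] H) (D : PData u S1 S2) (g : _root_.BSS.Metric 7),
    MetricOut (prim u S1 S2) (gM u S1 S2) g →
    ∀ E : Set (Fin 2 → ℝ), (∀ x ∈ E, ∀ i, 0 ≤ x i ∧ x i ≤ 1) → 0 < volume E →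
    (∀ x ∈ E, u ![x 0, x 1, 0] = 0) → (∀ x : X3, 0 < x 2 → u x ≠ 0) →
    0 < Measure.hausdorffMeasure 2
      (_root_.BSS.SingB 4 (TT u) (⋃ i, range (Gam u D.hu D.pu0 D.pu1 i).γ))

/-- The goal from theorem AT. -/
theorem goal_of (hAT : ATStatement) (hS : SingOut) : _root_.BSS.Goal := by
  obtain ⟨A⟩ := hAT (1 / 1000) (by norm_num)
  have D := A.pData le_rfl
  obtain ⟨g, hg⟩ := D.exists_metric
  refine ⟨g, Gam (perf A.u) D.hu D.pu0 D.pu1, sgn, TT (perf A.u), sgn_pm, ?_, ?_, ?_, ?_, ?_⟩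
  · exact Gam_disjoint (perf A.u) D.hu D.pu0 D.pu1
  · exact bdry_TT (perf A.u) D.hu D.pu0 D.pu1
  · exact (D.minimal hg).2 (isIntegral_TT (perf A.u) D.hu D.pu0 D.pu1)
  · exact (D.minimal hg).1
  · exact hS _ _ _ D g hg A.E A.E_sub A.E_pos (fun x hx => A.perf_zero_E x hx)
      (fun x hx => A.perf_ne_zero x hx)

end Pool.Agent.BSS
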