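import Pool.Agent.BSS.Point

/-!
# MP_bff03b_an (BSS), (G4): comass inequality implies the Gram inequality
-/

namespace Pool.Agent.BSS

section

variable {E : Type*} [AddCommGroup E] [Module ℝ E]

/-- (G4) If `|ω(a,b,c)| ≤ |a||b||c|` for all vectors, then `|ω(a,b,c)| ≤ √Gram(a,b,c)`. -/
theorem abs_le_sqrt_gram3 (g : E → E → ℝ) (hadd : ∀ a b c, g (a + b) c = g a c + g b c)
    (hsmul : ∀ (r : ℝ) a c, g (r • a) c = r * g a c) (hsymm : ∀ a b, g a b = g b a)
    (hpos : ∀ a, 0 ≤ g a a) (ω : E → E → E → ℝ)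
    (h2 : ∀ a b c (r : ℝ), ω a (b + r • a) c = ω a b c)
    (h3 : ∀ a b c (r s : ℝ), ω a b (c + r • a + s • b) = ω a b c)
    (hle : ∀ a b c, |ω a b c| ≤ √(g a a) * √(g b b) * √(g c c)) (a b c : E) :
    |ω a b c| ≤ √(gram3 g a b c) := by
  have hadd' : ∀ a b c, g c (a + b) = g c a + g c b := fun a b c => by
    rw [hsymm, hadd, hsymm a, hsymm b]
  have hsmul' : ∀ (r : ℝ) a c, g c (r • a) = r * g c a := fun r a c => by
    rw [hsymm, hsmul, hsymm a]
  by_cases ha : g a a = 0
  · have h := hle a b c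
    rw [ha, Real.sqrt_zero, zero_mul, zero_mul] at h
    exact h.trans (Real.sqrt_nonneg _)
  set b' : E := b + (-(g a b / g a a)) • a with hb'
  have hab' : g a b' = 0 := by
    rw [hb', hadd', hsmul']
    field_simp
    ring
  have hω : ω a b' c = ω a b c := h2 a b c _
  by_cases hb : g b' b' = 0
  · have h := hle a b' c
    rw [hb, Real.sqrt_zero, mul_zero, zero_mul, hω] at h
    exact h.trans (Real.sqrt_nonneg _)
  set c' : E := c + (-(g a c / g a a)) • a + (-(g b' c / g b' b')) • b' with hc'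
  have hω' : ω a b' c' = ω a b' c := h3 a b' c _ _
  have hac' : g a c' = 0 := by
    rw [hc', hadd', hadd', hsmul', hsmul', hab']
    field_simp
    ring
  have hbc' : g b' c' = 0 := by
    have hba : g b' a = 0 := by rw [hsymm, hab']
    rw [hc', hadd', hadd', hsmul', hsmul', hba]
    field_simp
    ring
  have key : gram3 g a b c = g a a * g b' b' * g c' c' := by
    have e1 : g b b = g b' b' + (g a b) ^ 2 / g a a := by
      rw [hb', hadd, hadd', hadd', hsmul, hsmul', hsmul, hsmul', hsymm b a]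
      field_simp
      ring
    have e2 : g b c = g b' c + g a b / g a a * g a c := by
      rw [hb', hadd, hsmul]
      ring
    have e3 : g c c = g c' c' + (g a c) ^ 2 / g a a + (g b' c) ^ 2 / g b' b' := by
      have hba : g b' a = 0 := by rw [hsymm, hab']
      rw [hc']
      simp only [hadd, hadd', hsmul, hsmul', hab', hba, hsymm c a, hsymm c b']
      field_simp
      ring
    rw [gram3, e1, e3, hsymm c b, e2, hsymm c a, hsymm b a]
    field_simp
    ring
  have h := hle a b' c'
  rw [hω', hω] at h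
  rw [key, Real.sqrt_mul (mul_nonneg (hpos a) (hpos b')), Real.sqrt_mul (hpos a)]
  exact h

end

/-- (G4) for alternating maps and a bilinear form. -/
theorem abs_le_sqrt_gram3_alt {E : Type*} [AddCommGroup E] [Module ℝ E]
    (g : E →ₗ[ℝ] E →ₗ[ℝ] ℝ) (hsymm : ∀ a b, g a b = g b a) (hpos : ∀ a, 0 ≤ g a a)
    (ω : E [⋀^Fin 3]→ₗ[ℝ] ℝ)
    (hle : ∀ w : Fin 3 → E, |ω w| ≤ √(g (w 0) (w 0)) * √(g (w 1) (w 1)) * √(g (w 2) (w 2)))
    (v : Fin 3 → E) :
    |ω v| ≤ √(gram3 (fun a b => g a b) (v 0) (v 1) (v 2)) := by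
  have hv : ∀ w : Fin 3 → E, w = ![w 0, w 1, w 2] := by
    intro w
    funext i
    fin_cases i <;> rfl
  have u1 : ∀ a b c d : E, Function.update ![a, b, c] 1 d = ![a, d, c] := by
    intro a b c d
    funext i
    fin_cases i <;> simp [Function.update]
  have u2 : ∀ a b c d : E, Function.update ![a, b, c] 2 d = ![a, b, d] := by
    intro a b c d
    funext i
    fin_cases i <;> simp [Function.update]
  have key := abs_le_sqrt_gram3 (fun a b => g a b) (by intro a b c; simp) (by intro r a c; simp)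
    hsymm hpos (fun a b c => ω ![a, b, c])
    (by
      intro a b c r
      have h1 := ω.map_update_add ![a, b, c] 1 b (r • a)
      have h2 := ω.map_update_smul ![a, b, c] 1 r a
      have h3 : ω ![a, a, c] = 0 := ω.map_eq_zero_of_eq ![a, a, c] (i := 0) (j := 1) rfl (by decide)
      rw [u1, u1, u1] at h1
      rw [u1, u1, h3, smul_zero] at h2
      rw [h1, h2, add_zero])
    (by
      intro a b c r s
      have h1 := ω.map_update_add ![a, b, c] 2 (c + r • a) (s • b)
      have h1' := ω.map_update_add ![a, b, c] 2 c (r • a)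
      have h2 := ω.map_update_smul ![a, b, c] 2 r a
      have h2' := ω.map_update_smul ![a, b, c] 2 s b
      have h3 : ω ![a, b, a] = 0 := ω.map_eq_zero_of_eq ![a, b, a] (i := 0) (j := 2) rfl (by decide)
      have h3' : ω ![a, b, b] = 0 := ω.map_eq_zero_of_eq ![a, b, b] (i := 1) (j := 2) rfl (by decide)
      rw [u2, u2, u2] at h1 h1'
      rw [u2, u2, h3, smul_zero] at h2
      rw [u2, u2, h3', smul_zero] at h2'
      rw [h1, h2', h1', h2, add_zero, add_zero])
    (by
      intro a b c
      exact hle ![a, b, c])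
    (v 0) (v 1) (v 2)
  have e : ω v = ω ![v 0, v 1, v 2] := by rw [← hv v]
  rw [e]
  exact key


/-- (G4) for continuous alternating maps and a continuous bilinear form. -/
theorem abs_le_sqrt_gram3_cont {E : Type*} [NormedAddCommGroup E] [NormedSpace ℝ E]
    (B : E →L[ℝ] E →L[ℝ] ℝ) (hsymm : ∀ a b, B a b = B b a) (hpos : ∀ a, 0 ≤ B a a)
    (ω : E [⋀^Fin 3]→L[ℝ] ℝ)
    (hle : ∀ a b c : E, |ω ![a, b, c]| ≤ √(B a a) * √(B b b) * √(B c c)) (a b c : E) :
    |ω ![a, b, c]| ≤ √(gram3 (fun v w => B v w) a b c) := by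
  have u1 : ∀ a b c d : E, Function.update ![a, b, c] 1 d = ![a, d, c] := by
    intro a b c d
    funext i
    fin_cases i <;> simp [Function.update]
  have u2 : ∀ a b c d : E, Function.update ![a, b, c] 2 d = ![a, b, d] := by
    intro a b c d
    funext i
    fin_cases i <;> simp [Function.update]
  exact abs_le_sqrt_gram3 (fun a b => B a b) (by intro a b c; simp) (by intro r a c; simp)
    hsymm hpos (fun a b c => ω ![a, b, c])
    (by
      intro a b c r
      have h1 := ω.map_update_add ![a, b, c] 1 b (r • a)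
      have h2 := ω.map_update_smul ![a, b, c] 1 r a
      have h3 : ω ![a, a, c] = 0 := ω.map_eq_zero_of_eq ![a, a, c] (i := 0) (j := 1) rfl (by decide)
      rw [u1, u1, u1] at h1
      rw [u1, u1, h3, smul_zero] at h2
      rw [h1, h2, add_zero])
    (by
      intro a b c r s
      have h1 := ω.map_update_add ![a, b, c] 2 (c + r • a) (s • b)
      have h1' := ω.map_update_add ![a, b, c] 2 c (r • a)
      have h2 := ω.map_update_smul ![a, b, c] 2 r a
      have h2' := ω.map_update_smul ![a, b, c] 2 s b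
      have h3 : ω ![a, b, a] = 0 := ω.map_eq_zero_of_eq ![a, b, a] (i := 0) (j := 2) rfl (by decide)
      have h3' : ω ![a, b, b] = 0 := ω.map_eq_zero_of_eq ![a, b, b] (i := 1) (j := 2) rfl (by decide)
      rw [u2, u2, u2] at h1 h1'
      rw [u2, u2, h3, smul_zero] at h2
      rw [u2, u2, h3', smul_zero] at h2'
      rw [h1, h2', h1', h2, add_zero, add_zero])
    hle a b c

end Pool.Agent.BSS
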