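import Pool.Agent.BSS.Base

/-!
# BSS, module G5: positivity of integrals over boxes (helper71)
-/

set_option autoImplicit false

open MeasureTheory Set Filter Topology

namespace Pool.Agent.BSS

/-- A nonnegative continuous function on a box, positive at one point, has positive integral. -/
theorem box_integral_pos {n : ℕ} (a b : Fin n → ℝ) (hab : ∀ i, a i < b i) (f : (Fin n → ℝ) → ℝ)
    (hf : ContinuousOn f (Icc a b)) (h0 : ∀ x ∈ Icc a b, 0 ≤ f x) (x0 : Fin n → ℝ)
    (hx0 : x0 ∈ Icc a b) (hpos : 0 < f x0) : 0 < ∫ x in Icc a b, f x := by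
  have hcl : closure (interior (Icc a b)) = Icc a b := by
    have h1 : interior (Icc a b) = Set.pi Set.univ (fun i => Ioo (a i) (b i)) := by
      rw [← Set.pi_univ_Icc, interior_pi_set Set.finite_univ]
      simp only [interior_Icc]
    rw [h1, closure_pi_set]
    have h2 : ∀ i, closure (Ioo (a i) (b i)) = Icc (a i) (b i) := fun i =>
      closure_Ioo (hab i).ne
    simp only [h2]
    exact Set.pi_univ_Icc a b
  have hev : ∀ᶠ x in 𝓝[Icc a b] x0, 0 < f x := (hf x0 hx0).eventually_const_lt hpos
  rw [eventually_nhdsWithin_iff] at hev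
  obtain ⟨U, hU1, hU2, hU3⟩ := eventually_nhds_iff.1 hev
  have hne : (U ∩ interior (Icc a b)).Nonempty := by
    have h3 : x0 ∈ closure (interior (Icc a b)) := by rw [hcl]; exact hx0
    exact mem_closure_iff.1 h3 U hU2 hU3
  rw [setIntegral_pos_iff_support_of_nonneg_ae]
  · refine lt_of_lt_of_le ((hU2.inter isOpen_interior).measure_pos volume hne)
      (measure_mono ?_)
    rintro x ⟨h1, h2⟩
    have h3 := interior_subset h2
    exact ⟨(hU1 x h1 h3).ne', h3⟩
  · exact (ae_restrict_iff' measurableSet_Icc).2 (Eventually.of_forall fun x hx => h0 x hx)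
  · exact hf.integrableOn_compact isCompact_Icc

/-- The integral of a nonnegative function over a box is nonnegative. -/
theorem box_integral_nonneg {n : ℕ} (a b : Fin n → ℝ) (f : (Fin n → ℝ) → ℝ)
    (h0 : ∀ x ∈ Icc a b, 0 ≤ f x) : 0 ≤ ∫ x in Icc a b, f x :=
  setIntegral_nonneg measurableSet_Icc h0

end Pool.Agent.BSS
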