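import Pool.Agent.BSS.Push

/-!
# BSS, module G3 (first half, third file): the compactly supported primitive on `R^7` (helper47)
-/

set_option autoImplicit false

open Set Filter Topology
open scoped ContDiff

namespace Pool.Agent.BSS

section comp

variable {E E' X : Type*} [NormedAddCommGroup E] [NormedSpace ℝ E] [NormedAddCommGroup E']
  [NormedSpace ℝ E'] [NormedAddCommGroup X] [NormedSpace ℝ X]

/-- Pull back of a bilinear form by a linear map. -/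
noncomputable def pullB (B : E →L[ℝ] E →L[ℝ] ℝ) (A : E' →L[ℝ] E) : E' →L[ℝ] E' →L[ℝ] ℝ :=
  ((ContinuousLinearMap.compL ℝ E' E ℝ).flip A).comp (B.comp A)

@[simp] theorem pullB_apply (B : E →L[ℝ] E →L[ℝ] ℝ) (A : E' →L[ℝ] E) (v w : E') :
    pullB B A v w = B (A v) (A w) := rfl

theorem contDiffAt_pullB {n : WithTop ℕ∞} {B : X → E →L[ℝ] E →L[ℝ] ℝ} {A : X → E' →L[ℝ] E}
    {x : X} (hB : ContDiffAt ℝ n B x) (hA : ContDiffAt ℝ n A x) :
    ContDiffAt ℝ n (fun y => pullB (B y) (A y)) x := by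
  have hL : ContDiff ℝ n (fun a : E' →L[ℝ] E => (ContinuousLinearMap.compL ℝ E' E ℝ).flip a) := by
    apply IsBoundedLinearMap.contDiff
    exact ContinuousLinearMap.isBoundedLinearMap _
  have h1 : ContDiffAt ℝ n (fun y => (ContinuousLinearMap.compL ℝ E' E ℝ).flip (A y)) x :=
    ContDiffAt.comp x hL.contDiffAt hA
  exact h1.clm_comp (hB.clm_comp hA)

theorem contDiff_pullB {n : WithTop ℕ∞} {B : X → E →L[ℝ] E →L[ℝ] ℝ} {A : X → E' →L[ℝ] E}
    (hB : ContDiff ℝ n B) (hA : ContDiff ℝ n A) :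
    ContDiff ℝ n (fun y => pullB (B y) (A y)) :=
  contDiff_iff_contDiffAt.2 fun _ => contDiffAt_pullB hB.contDiffAt hA.contDiffAt

variable (E) in
/-- A 2-form as a bilinear form. -/
noncomputable def flat2 : (E [⋀^Fin 2]→L[ℝ] ℝ) →L[ℝ] E →L[ℝ] E →L[ℝ] ℝ :=
  ((ContinuousLinearMap.compL ℝ E (ContinuousMultilinearMap ℝ (fun _ : Fin 1 => E) ℝ)
    (E →L[ℝ] ℝ)) ((continuousMultilinearCurryFin1 ℝ E ℝ).toContinuousLinearEquiv :
      ContinuousMultilinearMap ℝ (fun _ : Fin 1 => E) ℝ →L[ℝ] (E →L[ℝ] ℝ))).comp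
  (((continuousMultilinearCurryLeftEquiv ℝ (fun _ : Fin 2 => E) ℝ).toContinuousLinearEquiv :
      ContinuousMultilinearMap ℝ (fun _ : Fin 2 => E) ℝ →L[ℝ]
        (E →L[ℝ] ContinuousMultilinearMap ℝ (fun _ : Fin 1 => E) ℝ)).comp
    (ContinuousAlternatingMap.toContinuousMultilinearMapCLM ℝ))

@[simp] theorem flat2_apply (κ : E [⋀^Fin 2]→L[ℝ] ℝ) (v w : E) : flat2 E κ v w = κ ![v, w] := by
  have h : flat2 E κ v w = κ (Fin.cons v (Fin.snoc 0 w)) := rfl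
  rw [h]
  congr 1
  funext i
  fin_cases i <;> rfl

variable (E) in
/-- The alternating part of a bilinear form. -/
noncomputable def unflat2 : (E →L[ℝ] E →L[ℝ] ℝ) →L[ℝ] E [⋀^Fin 2]→L[ℝ] ℝ :=
  (1 / 2 : ℝ) • (ContinuousAlternatingMap.alternatizeUncurryFinCLM ℝ E ℝ).comp
    ((ContinuousLinearMap.compL ℝ E (E →L[ℝ] ℝ) (E [⋀^Fin 1]→L[ℝ] ℝ))
      ((ContinuousAlternatingMap.ofSubsingletonLIE (𝕜 := ℝ) (E := E) (F := ℝ)
        (0 : Fin 1)).toContinuousLinearEquiv :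
        (E →L[ℝ] ℝ) →L[ℝ] E [⋀^Fin 1]→L[ℝ] ℝ))

theorem unflat2_apply (B : E →L[ℝ] E →L[ℝ] ℝ) (v : Fin 2 → E) :
    unflat2 E B v = 1 / 2 * (B (v 0) (v 1) - B (v 1) (v 0)) := by
  simp [unflat2, ContinuousAlternatingMap.alternatizeUncurryFin_apply, Fin.sum_univ_two,
    Fin.removeNth]
  ring

theorem comp_eq_unflat2 (κ : E [⋀^Fin 2]→L[ℝ] ℝ) (A : E' →L[ℝ] E) :
    κ.compContinuousLinearMap A = unflat2 E' (pullB (flat2 E κ) A) := by
  ext v
  rw [unflat2_apply]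
  simp only [pullB_apply, flat2_apply, ContinuousAlternatingMap.compContinuousLinearMap_apply]
  have h1 : (⇑A ∘ v) = ![A (v 0), A (v 1)] := by
    funext i
    fin_cases i <;> rfl
  have h2 : κ ![A (v 1), A (v 0)] = - κ ![A (v 0), A (v 1)] := by
    have h3 : κ (![A (v 0), A (v 1)] ∘ Equiv.swap 0 1) = - κ ![A (v 0), A (v 1)] :=
      κ.map_swap ![A (v 0), A (v 1)] (i := 0) (j := 1) (by decide)
    rw [← h3]
    congr 1
    funext i
    fin_cases i <;> rfl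
  rw [h1, h2]
  ring

theorem contDiffAt_comp2 {n : WithTop ℕ∞} {κ : X → E [⋀^Fin 2]→L[ℝ] ℝ} {A : X → E' →L[ℝ] E}
    {x : X} (hκ : ContDiffAt ℝ n κ x) (hA : ContDiffAt ℝ n A x) :
    ContDiffAt ℝ n (fun y => (κ y).compContinuousLinearMap (A y)) x := by
  have h : (fun y => (κ y).compContinuousLinearMap (A y)) =
      fun y => unflat2 E' (pullB (flat2 E (κ y)) (A y)) := funext fun y => comp_eq_unflat2 _ _
  rw [h]
  exact (unflat2 E').contDiff.contDiffAt.comp x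
    (contDiffAt_pullB ((flat2 E).contDiff.contDiffAt.comp x hκ) hA)

theorem contDiff_comp2 {n : WithTop ℕ∞} {κ : X → E [⋀^Fin 2]→L[ℝ] ℝ} {A : X → E' →L[ℝ] E}
    (hκ : ContDiff ℝ n κ) (hA : ContDiff ℝ n A) :
    ContDiff ℝ n (fun y => (κ y).compContinuousLinearMap (A y)) :=
  contDiff_iff_contDiffAt.2 fun _ => contDiffAt_comp2 hκ.contDiffAt hA.contDiffAt

end comp

/-! ### The primitive and the form on `R^7` -/

/-- The cut-off primitive, on `R^3 x H`, read in the coordinates of `R^7`. -/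
noncomputable def k7aux (κ : X3 × H → (X3 × H) [⋀^Fin 2]→L[ℝ] ℝ) (p : X3 × H) :
    R7 [⋀^Fin 2]→L[ℝ] ℝ :=
  cutTY (11 / 2) 6 (16 / 5) (7 / 2) p • (κ p).compContinuousLinearMap (DInv p)

/-- The compactly supported primitive on `R^7`. -/
noncomputable def K7 (κ : X3 × H → (X3 × H) [⋀^Fin 2]→L[ℝ] ℝ) : R7 → R7 [⋀^Fin 2]→L[ℝ] ℝ :=
  push (k7aux κ)

/-- The closed 3-form on `R^7`. -/
noncomputable def Phi7 (κ : X3 × H → (X3 × H) [⋀^Fin 2]→L[ℝ] ℝ) : R7 → R7 [⋀^Fin 3]→L[ℝ] ℝ :=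
  extDeriv (K7 κ)

variable {κ : X3 × H → (X3 × H) [⋀^Fin 2]→L[ℝ] ℝ}

theorem contDiff_k7aux (hκ : ContDiff ℝ ∞ κ) : ContDiff ℝ ∞ (k7aux κ) :=
  (contDiff_cutTY _ _ _ _).smul (contDiff_comp2 hκ contDiff_DInv)

theorem per_k7aux (hp : Per κ) : Per (k7aux κ) := by
  have h1 : Per (fun p => (κ p).compContinuousLinearMap (DInv p)) :=
    hp.comp₂ per_DInv (fun a b => a.compContinuousLinearMap b)
  exact (per_cutTY _ _ _ _).comp₂ h1 (fun a b => a • b)

theorem k7aux_ne_zero {p : X3 × H} (h : k7aux κ p ≠ 0) : |p.1 2| < 6 ∧ ‖p.2‖ < 7 / 2 := by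
  have h1 : cutTY (11 / 2) 6 (16 / 5) (7 / 2) p ≠ 0 := by
    intro hc
    apply h
    rw [k7aux, hc, zero_smul]
  exact cutTY_ne_zero (by norm_num) (by norm_num) (by norm_num) (by norm_num) h1

theorem contDiff_K7 (hκ : ContDiff ℝ ∞ κ) (hp : Per κ) : ContDiff ℝ ∞ (K7 κ) :=
  contDiff_push (per_k7aux hp) (by simp) (contDiff_k7aux hκ)
    ⟨7 / 2, fun _ h => (k7aux_ne_zero h).2.le⟩

theorem hasCompactSupport_K7 (hp : Per κ) : HasCompactSupport (K7 κ) :=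
  hasCompactSupport_push (per_k7aux hp)
    ⟨6, fun _ h => ⟨by linarith [(k7aux_ne_zero h).2], (k7aux_ne_zero h).1.le⟩⟩

theorem K7_Psi (hp : Per κ) (p : X3 × H) : K7 κ (Psi p) = k7aux κ p := push_Psi (per_k7aux hp) p

theorem K7_Psi_comp (hp : Per κ) {p : X3 × H} (h1 : |p.1 2| ≤ 11 / 2) (h2 : ‖p.2‖ ≤ 16 / 5) :
    (K7 κ (Psi p)).compContinuousLinearMap (DPsi p) = κ p := by
  rw [K7_Psi hp, k7aux, cutTY_eq_one (by norm_num) (by norm_num) (by norm_num) (by norm_num) h1 h2,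
    one_smul]
  ext v
  simp only [ContinuousAlternatingMap.compContinuousLinearMap_apply]
  congr 1
  funext i
  exact DInv_DPsi p (v i)

/-- The pull back of `Phi7` is the given closed form. -/
theorem Phi7_Psi (hκ : ContDiff ℝ ∞ κ) (hp : Per κ) {p : X3 × H} (h1 : |p.1 2| < 11 / 2)
    (h2 : ‖p.2‖ < 16 / 5) :
    (Phi7 κ (Psi p)).compContinuousLinearMap (DPsi p) = extDeriv κ p := by
  have hd : DifferentiableAt ℝ (K7 κ) (Psi p) :=
    ((contDiff_K7 hκ hp).differentiable (by simp)).differentiableAt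
  have h := extDeriv_pullback (r := 2) hd (contDiff_Psi.contDiffAt (x := p)) (by simp)
  rw [fderiv_Psi] at h
  rw [Phi7, ← h]
  apply Filter.EventuallyEq.extDeriv_eq
  have ho1 : IsOpen {q : X3 × H | |q.1 2| < 11 / 2} :=
    isOpen_lt ((pX 2).continuous.abs) continuous_const
  have ho2 : IsOpen {q : X3 × H | ‖q.2‖ < 16 / 5} :=
    isOpen_lt continuous_snd.norm continuous_const
  filter_upwards [ho1.mem_nhds h1, ho2.mem_nhds h2] with q hq1 hq2
  rw [fderiv_Psi]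
  exact K7_Psi_comp hp (le_of_lt hq1) (le_of_lt hq2)

theorem Phi7_Psi_apply (hκ : ContDiff ℝ ∞ κ) (hp : Per κ) {p : X3 × H} (h1 : |p.1 2| < 11 / 2)
    (h2 : ‖p.2‖ < 16 / 5) (v : Fin 3 → X3 × H) :
    Phi7 κ (Psi p) (fun i => DPsi p (v i)) = extDeriv κ p v := by
  rw [← Phi7_Psi hκ hp h1 h2]
  rfl

theorem contDiff_Phi7 (hκ : ContDiff ℝ ∞ κ) (hp : Per κ) : ContDiff ℝ ∞ (Phi7 κ) := by
  have h : ContDiff ℝ ∞ (fderiv ℝ (K7 κ)) :=
    (contDiff_K7 hκ hp).fderiv_right (by exact_mod_cast le_refl _)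
  exact (ContinuousAlternatingMap.alternatizeUncurryFinCLM ℝ R7 ℝ).contDiff.comp h

theorem hasCompactSupport_Phi7 (hp : Per κ) : HasCompactSupport (Phi7 κ) := by
  have h := (hasCompactSupport_K7 hp).fderiv (𝕜 := ℝ)
  refine h.mono' ?_
  intro x hx
  by_contra hc
  apply hx
  have h0 : fderiv ℝ (K7 κ) x = 0 := by
    by_contra h1
    exact hc (subset_tsupport _ h1)
  change extDeriv (K7 κ) x = 0
  rw [extDeriv, h0]
  exact (ContinuousAlternatingMap.alternatizeUncurryFinCLM ℝ R7 ℝ).map_zero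

/-- The image of an open set under the chart is open. -/
theorem isOpen_image_Psi {s : Set (X3 × H)} (hs : IsOpen s) : IsOpen (Psi '' s) := by
  have h : IsOpenMap Psi := by
    have : ∀ p, HasStrictFDerivAt Psi (DPsiE p : X3 × H →L[ℝ] R7) p := fun p => by
      rw [coe_DPsiE]; exact hasStrictFDerivAt_Psi p
    exact isOpenMap_of_hasStrictFDerivAt_equiv this
  exact h s hs

end Pool.Agent.BSS
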