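import Pool.Agent.BSS.Tame2
import Pool.Agent.BSS.Flat

/-!
# Tame calculus: compositions, finite sums; the flat extension of a tame function
-/

open Set Filter Metric
open scoped ContDiff Topology Nat

namespace Pool.Agent.BSS

variable {ι : Type*} {E F G H : Type*} [NormedAddCommGroup E] [NormedSpace ℝ E]
  [NormedAddCommGroup F] [NormedSpace ℝ F] [NormedAddCommGroup G] [NormedSpace ℝ G]
  [NormedAddCommGroup H] [NormedSpace ℝ H]

variable {O : ι → Set E} {M w v : ι → E → ℝ} {f : ι → E → F} {g : ι → E → G} {N : ℕ}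

/-! ### composition from the left -/

/-- composition with a family of functions whose derivatives are tame at the values -/
theorem MFam.comp {w₀ : ι → E → ℝ} {ψ : ι → F → G} {U : ι → Set F} (hf : MFam O M w₀ f)
    {C₀ : ℕ} (hw₀ : ∀ i, ∀ x ∈ O i, w₀ i x ≤ C₀ * M i x ^ C₀)
    (hU : ∀ i, IsOpen (U i)) (hψ : ∀ i, ContDiffOn ℝ ∞ (ψ i) (U i))
    (hfU : ∀ i, ∀ x ∈ O i, f i x ∈ U i) (hw : ∀ i, ∀ x ∈ O i, 0 ≤ w i x)
    (hb : ∀ n : ℕ, ∃ C : ℕ, ∀ i, ∀ x ∈ O i,
      ‖iteratedFDeriv ℝ n (ψ i) (f i x)‖ ≤ C * M i x ^ C * w i x) :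
    MFam O M w (fun i x => ψ i (f i x)) := by
  have hf1 : MFam O M (fun _ _ => 1) f := by
    refine hf.weight (fun _ _ _ => zero_le_one) (C' := C₀) fun i x hx => ?_
    rw [mul_one]; exact hw₀ i x hx
  refine MFam.mk hf.dom hw (fun i => (hψ i).comp (hf.smooth i) (hfU i)) fun n => ?_
  choose B hB using hb
  obtain ⟨C, hC⟩ := (hf1 n).bound
  set B' : ℕ := (Finset.range (n + 1)).sup B with hB'
  refine ⟨n ! * (B' * (C + 1) ^ n) + B' + (C + 1) * n, fun i x hx => ?_⟩
  have hM := hf.one_le i hx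
  have hM0 : 0 ≤ M i x := by linarith
  have hOi := hf.isOpen i
  have hwx := hw i x hx
  have h1 := norm_iteratedFDerivWithin_comp_le (g := ψ i) (f := f i) (n := n) (s := O i)
    (t := U i) (x := x) (N := ∞) (hψ i) (hf.smooth i) (by exact_mod_cast le_top)
    (hU i).uniqueDiffOn hOi.uniqueDiffOn (hfU i) hx (C := B' * M i x ^ B' * w i x)
    (D := (C + 1) * M i x ^ (C + 1)) (fun j hj => ?_) (fun j hj1 hj => ?_)
  · rw [iteratedFDerivWithin_of_isOpen n hOi hx] at h1
    refine h1.trans ?_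
    calc (n ! : ℝ) * (B' * M i x ^ B' * w i x) * ((C + 1) * M i x ^ (C + 1)) ^ n
        = ((n ! * (B' * (C + 1) ^ n) : ℕ) : ℝ) * M i x ^ (B' + (C + 1) * n) * w i x := by
          push_cast
          rw [mul_pow, ← pow_mul, pow_add]
          ring
      _ ≤ _ := by
          refine tb_le ?_ (by omega) hM hwx
          exact_mod_cast (show n ! * (B' * (C + 1) ^ n) ≤
            n ! * (B' * (C + 1) ^ n) + B' + (C + 1) * n by omega)
  · rw [iteratedFDerivWithin_of_isOpen j (hU i) (hfU i x hx)]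
    exact (hB j i x hx).trans (tb_mono (Finset.le_sup (Finset.mem_range.2 (by omega))) hM hwx)
  · rw [iteratedFDerivWithin_of_isOpen j hOi hx]
    have h2 := hC j hj i x hx
    rw [mul_one] at h2
    have h3 : (1:ℝ) ≤ (C + 1) * M i x ^ (C + 1) := by
      have : (1:ℝ) ≤ M i x ^ (C + 1) := one_le_pow₀ hM
      have : (0:ℝ) ≤ C := by positivity
      nlinarith
    calc ‖iteratedFDeriv ℝ j (f i) x‖ ≤ C * M i x ^ C := h2
      _ ≤ (C + 1) * M i x ^ (C + 1) := by
          have : M i x ^ C ≤ M i x ^ (C + 1) := pow_le_pow_right₀ hM (by omega)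
          have h4 : (C:ℝ) ≤ C + 1 := by linarith
          gcongr
      _ = ((C + 1) * M i x ^ (C + 1)) ^ 1 := (pow_one _).symm
      _ ≤ _ := pow_le_pow_right₀ h3 hj1

/-- composition with one function all of whose derivatives are bounded -/
theorem MFam.comp_bounded {ψ : F → G} (hf : MFam O M (fun _ _ => 1) f)
    (hψ : ContDiff ℝ ∞ ψ) (hb : ∀ n : ℕ, ∃ B : ℝ, ∀ y, ‖iteratedFDeriv ℝ n ψ y‖ ≤ B) :
    MFam O M (fun _ _ => 1) (fun i x => ψ (f i x)) := by
  refine hf.comp (U := fun _ => univ) (C₀ := 1) (fun i x hx => ?_) (fun _ => isOpen_univ)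
    (fun _ => hψ.contDiffOn) (fun _ _ _ => mem_univ _) (fun _ _ _ => zero_le_one) fun n => ?_
  · simpa using hf.one_le i hx
  · obtain ⟨B, hB⟩ := hb n
    refine ⟨⌈B⌉₊, fun i x hx => (hB _).trans ((Nat.le_ceil B).trans ?_)⟩
    have hM := hf.one_le i hx
    have : (1:ℝ) ≤ M i x ^ ⌈B⌉₊ := one_le_pow₀ hM
    have h3 : (0:ℝ) ≤ (⌈B⌉₊ : ℝ) := by positivity
    rw [mul_one]
    nlinarith

/-- composition with one function which is smooth near a compact set containing all values -/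
theorem MFam.comp_smooth {ψ : F → G} {U K : Set F} (hf : MFam O M (fun _ _ => 1) f)
    (hU : IsOpen U) (hψ : ContDiffOn ℝ ∞ ψ U) (hK : IsCompact K) (hKU : K ⊆ U)
    (hfK : ∀ i, ∀ x ∈ O i, f i x ∈ K) : MFam O M (fun _ _ => 1) (fun i x => ψ (f i x)) := by
  refine hf.comp (U := fun _ => U) (C₀ := 1) (fun i x hx => ?_) (fun _ => hU)
    (fun _ => hψ) (fun i x hx => hKU (hfK i x hx)) (fun _ _ _ => zero_le_one) fun n => ?_
  · simpa using hf.one_le i hx
  · have h1 : ContinuousOn (iteratedFDerivWithin ℝ n ψ U) K :=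
      (hψ.continuousOn_iteratedFDerivWithin (m := n) (by exact_mod_cast le_top)
        hU.uniqueDiffOn).mono hKU
    obtain ⟨B, hB⟩ := hK.exists_bound_of_continuousOn h1
    refine ⟨⌈B⌉₊, fun i x hx => ?_⟩
    have h2 := hB _ (hfK i x hx)
    rw [iteratedFDerivWithin_of_isOpen n hU (hKU (hfK i x hx))] at h2
    refine h2.trans ((Nat.le_ceil B).trans ?_)
    have hM := hf.one_le i hx
    have : (1:ℝ) ≤ M i x ^ ⌈B⌉₊ := one_le_pow₀ hM
    have h3 : (0:ℝ) ≤ (⌈B⌉₊ : ℝ) := by positivity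
    rw [mul_one]
    nlinarith

/-- real functions with values in a compact interval `[a, b]` -/
theorem MFam.comp_Icc {c : ι → E → ℝ} {ψ : ℝ → G} {a b : ℝ} {U : Set ℝ}
    (hc : MFam O M (fun _ _ => 1) c) (hU : IsOpen U) (hψ : ContDiffOn ℝ ∞ ψ U)
    (hKU : Icc a b ⊆ U) (h : ∀ i, ∀ x ∈ O i, a ≤ c i x ∧ c i x ≤ b) :
    MFam O M (fun _ _ => 1) (fun i x => ψ (c i x)) :=
  hc.comp_smooth hU hψ isCompact_Icc hKU fun i x hx => ⟨(h i x hx).1, (h i x hx).2⟩

/-! ### composition from the right -/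

theorem MFam.comp_clm {E' : Type*} [NormedAddCommGroup E'] [NormedSpace ℝ E'] (A : E' →L[ℝ] E)
    (hf : MFam O M w f) : MFam (fun i => A ⁻¹' O i) (fun i x => M i (A x)) (fun i x => w i (A x))
      (fun i x => f i (A x)) := by
  have hO : ∀ i, IsOpen (A ⁻¹' O i) := fun i => (hf.isOpen i).preimage A.continuous
  refine MFam.mk ⟨hO, fun i x hx => hf.one_le i hx⟩ (fun i x hx => hf.nonneg i hx)
    (fun i => (hf.smooth i).comp A.contDiff.contDiffOn fun x hx => hx) fun n => ?_
  obtain ⟨C, hC⟩ := hf.bound n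
  refine ⟨C * ⌈‖A‖ ^ n⌉₊ + C, fun i x hx => ?_⟩
  have h1 := A.iteratedFDerivWithin_comp_right (i := n) (n := ∞) (hf.smooth i)
    (hf.isOpen i).uniqueDiffOn (hO i).uniqueDiffOn hx (by exact_mod_cast le_top)
  rw [iteratedFDerivWithin_of_isOpen n (hO i) hx, iteratedFDerivWithin_of_isOpen n (hf.isOpen i) hx]
    at h1
  have h2 : (fun x => f i (A x)) = f i ∘ A := rfl
  rw [h2, h1]
  refine (ContinuousMultilinearMap.norm_compContinuousLinearMap_le _ _).trans ?_
  rw [Finset.prod_const, Finset.card_univ, Fintype.card_fin]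
  have hM := hf.one_le i (x := A x) hx
  have hw := hf.nonneg i (x := A x) hx
  calc ‖iteratedFDeriv ℝ n (f i) (A x)‖ * ‖A‖ ^ n
      ≤ (C * M i (A x) ^ C * w i (A x)) * ⌈‖A‖ ^ n⌉₊ :=
        mul_le_mul (hC i _ hx) (Nat.le_ceil _) (by positivity) (tb_nonneg hM hw)
    _ = ((C * ⌈‖A‖ ^ n⌉₊ : ℕ) : ℝ) * M i (A x) ^ C * w i (A x) := by push_cast; ring
    _ ≤ _ := by
        refine tb_le ?_ (by omega) hM hw
        exact_mod_cast (show C * ⌈‖A‖ ^ n⌉₊ ≤ C * ⌈‖A‖ ^ n⌉₊ + C by omega)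

/-! ### small closure lemmas -/

theorem MFam.smul_const {a : ι → E → ℝ} (ha : MFam O M w a) (c : F) :
    MFam O M w (fun i x => a i x • c) :=
  ha.clm ((ContinuousLinearMap.id ℝ ℝ).smulRight c)

theorem MFam.mul_const {A : Type*} [NormedRing A] [NormedAlgebra ℝ A] {a : ι → E → A}
    (ha : MFam O M w a) (c : A) : MFam O M w (fun i x => a i x * c) :=
  ha.clm ((ContinuousLinearMap.mul ℝ A).flip c)

theorem MFam.const_mul {A : Type*} [NormedRing A] [NormedAlgebra ℝ A] {a : ι → E → A}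
    (ha : MFam O M w a) (c : A) : MFam O M w (fun i x => c * a i x) :=
  ha.clm (ContinuousLinearMap.mul ℝ A c)

theorem MFam.prodMk {g : ι → E → G} (hf : MFam O M w f) (hg : MFam O M w g) :
    MFam O M w (fun i x => (f i x, g i x)) := by
  have h := (hf.clm (ContinuousLinearMap.inl ℝ F G)).add (hg.clm (ContinuousLinearMap.inr ℝ F G))
  exact h.congr fun i x _ => by simp

theorem MFam.pow {a : ι → E → ℝ} (ha : MFam O M w a) (n : ℕ) :
    MFam O M (fun i x => w i x ^ n) (fun i x => a i x ^ n) := by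
  induction n with
  | zero =>
    simp only [pow_zero]
    exact MFam.const_one ha.dom 1
  | succ n ih =>
    simp only [pow_succ]
    exact ih.mul ha

/-- products with a factor of weight one -/
theorem MFam.smul_one {a : ι → E → ℝ} (ha : MFam O M (fun _ _ => 1) a) (hf : MFam O M v f) :
    MFam O M v (fun i x => a i x • f i x) := by
  have h := ha.smul hf
  simpa only [one_mul] using h

theorem MFam.one_smul {a : ι → E → ℝ} (ha : MFam O M w a) (hf : MFam O M (fun _ _ => 1) f) :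
    MFam O M w (fun i x => a i x • f i x) := by
  have h := ha.smul hf
  simpa only [mul_one] using h

/-! ### finite sums -/

theorem MFam.sum {κ : Type*} {s : ι → Finset κ} {f : ι → κ → E → F}
    (hf : MFam (ι := {p : ι × κ // p.2 ∈ s p.1}) (fun p => O p.1.1) (fun p => M p.1.1)
      (fun p => w p.1.1) (fun p => f p.1.1 p.1.2))
    (hD : Dom O M) (hw : ∀ i, ∀ x ∈ O i, 0 ≤ w i x) {C' : ℕ}
    (hcard : ∀ i, ∀ x ∈ O i, ((s i).card : ℝ) ≤ C' * M i x ^ C') :
    MFam O M w (fun i x => ∑ a ∈ s i, f i a x) := by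
  refine MFam.mk hD hw (fun i => ?_) fun n => ?_
  · exact ContDiffOn.sum fun a ha => hf.smooth ⟨(i, a), ha⟩
  · obtain ⟨C, hC⟩ := hf.bound n
    refine ⟨C' * C + C' + C, fun i x hx => ?_⟩
    rw [iteratedFDeriv_fun_sum_apply]
    · have hM := hD.one_le i x hx
      have hwx := hw i x hx
      refine (norm_sum_le _ _).trans ?_
      calc ∑ a ∈ s i, ‖iteratedFDeriv ℝ n (f i a) x‖ ≤ ∑ a ∈ s i, (C:ℝ) * M i x ^ C * w i x :=
            Finset.sum_le_sum fun a ha => hC ⟨(i, a), ha⟩ x hx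
        _ = (s i).card * (C * M i x ^ C * w i x) := by
            rw [Finset.sum_const, nsmul_eq_mul]
        _ ≤ (C' * M i x ^ C') * (C * M i x ^ C * w i x) :=
            mul_le_mul_of_nonneg_right (hcard i x hx) (tb_nonneg hM hwx)
        _ = ((C' * C : ℕ) : ℝ) * M i x ^ (C' + C) * w i x := by
            push_cast
            rw [pow_add]
            ring
        _ ≤ _ := by
            refine tb_le ?_ (by omega) hM hwx
            exact_mod_cast (show C' * C ≤ C' * C + C' + C by omega)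
    · intro a ha
      exact (hf.contDiffAt ⟨(i, a), ha⟩ hx).of_le (by exact_mod_cast le_top)

/-- a sum over a fixed finite set -/
theorem MFam.sum_fixed {κ : Type*} (s : Finset κ) {f : κ → ι → E → F}
    (hD : Dom O M) (hw : ∀ i, ∀ x ∈ O i, 0 ≤ w i x)
    (hf : ∀ a ∈ s, MFam O M w (f a)) : MFam O M w (fun i x => ∑ a ∈ s, f a i x) := by
  classical
  induction s using Finset.induction_on with
  | empty => simpa using MFam.zero hD hw
  | insert a s ha ih =>
    simp only [Finset.sum_insert ha]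
    exact (hf a (Finset.mem_insert_self _ _)).add
      (ih fun b hb => hf b (Finset.mem_insert_of_mem hb))

theorem MFam.pi {κ : Type*} [Fintype κ] [DecidableEq κ] {f : κ → ι → E → F} (hD : Dom O M)
    (hw : ∀ i, ∀ x ∈ O i, 0 ≤ w i x) (hf : ∀ k, MFam O M w (f k)) :
    MFam O M w (fun i x => (fun k => f k i x : κ → F)) := by
  have h := MFam.sum_fixed (O := O) (M := M) (w := w) (Finset.univ : Finset κ)
    (f := fun k i x => ContinuousLinearMap.single ℝ (fun _ : κ => F) k (f k i x)) hD hw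
    fun k _ => (hf k).clm _
  refine h.congr fun i x _ => ?_
  ext k
  simp [Finset.sum_apply, Pi.single_apply]

end Pool.Agent.BSS
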