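import Pool.Agent.BSS.Wave

/-!
# Dirac operator: right multiplication by constants, finite sums; sums of waves (module A1a)
-/

set_option maxSynthPendingDepth 3

open scoped ContDiff

namespace Pool.Agent.BSS

theorem pd_mul_const {u : X3 → H} {x : X3} (hu : DifferentiableAt ℝ u x) (q : H) (i : Fin 3) :
    pd (fun x => u x * q) i x = pd u i x * q := by
  unfold pd
  rw [fderiv_mul_const' hu]
  simp

theorem dirac_mul_const {u : X3 → H} {x : X3} (hu : DifferentiableAt ℝ u x) (q : H) :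
    dirac (fun x => u x * q) x = dirac u x * q := by
  unfold dirac
  simp only [pd_mul_const hu, J1, J2, J3, add_mul, mul_assoc]

theorem pd_sum {ι : Type*} {s : Finset ι} {f : ι → X3 → H} {x : X3}
    (hf : ∀ a ∈ s, DifferentiableAt ℝ (f a) x) (i : Fin 3) :
    pd (fun x => ∑ a ∈ s, f a x) i x = ∑ a ∈ s, pd (f a) i x := by
  unfold pd
  rw [fderiv_fun_sum hf]
  simp

theorem dirac_sum {ι : Type*} {s : Finset ι} {f : ι → X3 → H} {x : X3}
    (hf : ∀ a ∈ s, DifferentiableAt ℝ (f a) x) :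
    dirac (fun x => ∑ a ∈ s, f a x) x = ∑ a ∈ s, dirac (f a) x := by
  unfold dirac
  simp only [pd_sum hf, J1, J2, J3, Finset.mul_sum, Finset.sum_add_distrib]

theorem pd_const (c : H) (i : Fin 3) (x : X3) : pd (fun _ => c) i x = 0 := by
  unfold pd
  simp

theorem dirac_const (c : H) (x : X3) : dirac (fun _ => c) x = 0 := by
  unfold dirac
  simp [pd_const, J1, J2, J3]

/-- the Dirac operator of a finite sum of waves with right factors vanishes. -/
theorem dirac_wave_sum {ι : Type*} (s : Finset ι) (w : ι → WP) (q : ι → H) {x : X3}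
    (hz : ∀ a ∈ s, 0 < x 2 + (w a).del) : dirac (fun x => ∑ a ∈ s, wave (w a) x * q a) x = 0 := by
  have hd : ∀ a ∈ s, DifferentiableAt ℝ (wave (w a)) x := fun a ha =>
    (wave_contDiffAt (hz a ha)).differentiableAt (by simp)
  rw [dirac_sum (fun a ha => (hd a ha).mul_const (q a))]
  apply Finset.sum_eq_zero
  intro a ha
  rw [dirac_mul_const (hd a ha), dirac_wave (hz a ha), zero_mul]

theorem wave_sum_contDiffAt {ι : Type*} (s : Finset ι) (w : ι → WP) (q : ι → H) {x : X3}
    (hz : ∀ a ∈ s, 0 < x 2 + (w a).del) : ContDiffAt ℝ ∞ (fun x => ∑ a ∈ s, wave (w a) x * q a) x :=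
  ContDiffAt.sum (fun a ha => (wave_contDiffAt (hz a ha)).mul contDiffAt_const)

theorem norm_wave_sum_le {ι : Type*} (s : Finset ι) (w : ι → WP) (q : ι → H) (x : X3)
    (hq : ∀ a ∈ s, ‖q a‖ ≤ 2) : ‖∑ a ∈ s, wave (w a) x * q a‖ ≤ 2 * ∑ a ∈ s, ‖wave (w a) x‖ := by
  refine (norm_sum_le _ _).trans ?_
  rw [Finset.mul_sum]
  apply Finset.sum_le_sum
  intro a ha
  rw [norm_mul, mul_comm]
  exact mul_le_mul_of_nonneg_right (hq a ha) (norm_nonneg _)

end Pool.Agent.BSS
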