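import Pool.Agent.BSS.SMod0
import Pool.Agent.BSS.Tame3
import Pool.Agent.BSS.WaveSum

/-!
# Local picture, abstract part

`u = a A + b B + R` near a point; tame bounds for `u` and for `dirac u`, lower bound for `|u|`.
-/

set_option autoImplicit false
set_option maxSynthPendingDepth 3

open Set Filter Metric
open scoped ContDiff Topology

namespace Pool.Agent.BSS
namespace LA

section cases

variable {ι : Type*} {E F : Type*} [NormedAddCommGroup E] [NormedSpace ℝ E]
  [NormedAddCommGroup F] [NormedSpace ℝ F] {O : ι → Set E} {M w : ι → E → ℝ} {f : ι → E → F}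

/-- change of the weight where the function is not locally zero -/
theorem weight_cases {w' : ι → E → ℝ} (hf : MFam O M w f)
    (hw' : ∀ i, ∀ x ∈ O i, 0 ≤ w' i x) {C' : ℕ}
    (h : ∀ i, ∀ x ∈ O i, (∀ᶠ y in 𝓝 x, f i y = 0) ∨ w i x ≤ C' * M i x ^ C' * w' i x) :
    MFam O M w' f := by
  refine MFam.mk hf.dom hw' hf.smooth fun n => ?_
  obtain ⟨C, hC⟩ := hf.bound n
  refine ⟨C * C' + C + C', fun i x hx => ?_⟩
  have hM := hf.one_le i hx
  have hM0 : 0 ≤ M i x := by linarith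
  rcases h i x hx with h0 | h0
  · have h1 : f i =ᶠ[𝓝 x] fun _ => (0 : F) := h0
    rw [(h1.iteratedFDeriv ℝ n).self_of_nhds]
    have h2 : iteratedFDeriv ℝ n (fun _ : E => (0 : F)) x = 0 := by
      have := iteratedFDeriv_fun_zero (𝕜 := ℝ) (E := E) (F := F) (n := n)
      exact congrFun this x
    rw [h2, norm_zero]
    exact tb_nonneg hM (hw' i x hx)
  · refine (hC i x hx).trans ?_
    calc (C:ℝ) * M i x ^ C * w i x ≤ C * M i x ^ C * (C' * M i x ^ C' * w' i x) := by gcongr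
      _ = ((C * C' : ℕ) : ℝ) * M i x ^ (C + C') * w' i x := by push_cast; ring
      _ ≤ _ := by
          refine tb_le ?_ (by omega) hM (hw' i x hx)
          exact_mod_cast (show C * C' ≤ C * C' + C + C' by omega)

end cases

/-! ### Leibniz rule for the Dirac operator -/

/-- Clifford product of the gradient of `a` with `u`. -/
noncomputable def grd (a : X3 → ℝ) (u : X3 → H) (x : X3) : H :=
  fderiv ℝ a x (ee 0) • J1 (u x) + fderiv ℝ a x (ee 1) • J2 (u x) + fderiv ℝ a x (ee 2) • J3 (u x)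

theorem J1_add (a b : H) : J1 (a + b) = J1 a + J1 b := mul_add _ _ _
theorem J2_add (a b : H) : J2 (a + b) = J2 a + J2 b := mul_add _ _ _
theorem J3_add (a b : H) : J3 (a + b) = J3 a + J3 b := mul_add _ _ _
theorem J1_smul (c : ℝ) (a : H) : J1 (c • a) = c • J1 a := mul_smul_comm _ _ _
theorem J2_smul (c : ℝ) (a : H) : J2 (c • a) = c • J2 a := mul_smul_comm _ _ _
theorem J3_smul (c : ℝ) (a : H) : J3 (c • a) = c • J3 a := mul_smul_comm _ _ _

theorem pd_add {u v : X3 → H} {x : X3} (hu : DifferentiableAt ℝ u x)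
    (hv : DifferentiableAt ℝ v x) (i : Fin 3) :
    pd (fun y => u y + v y) i x = pd u i x + pd v i x := by
  unfold pd
  rw [fderiv_fun_add hu hv]
  rfl

theorem dirac_add {u v : X3 → H} {x : X3} (hu : DifferentiableAt ℝ u x)
    (hv : DifferentiableAt ℝ v x) :
    dirac (fun y => u y + v y) x = dirac u x + dirac v x := by
  unfold dirac
  simp only [pd_add hu hv, J1_add, J2_add, J3_add]
  abel

theorem pd_smul {a : X3 → ℝ} {u : X3 → H} {x : X3} (ha : DifferentiableAt ℝ a x)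
    (hu : DifferentiableAt ℝ u x) (i : Fin 3) :
    pd (fun y => a y • u y) i x = a x • pd u i x + fderiv ℝ a x (ee i) • u x := by
  unfold pd
  rw [fderiv_fun_smul ha hu]
  simp

theorem dirac_smul {a : X3 → ℝ} {u : X3 → H} {x : X3} (ha : DifferentiableAt ℝ a x)
    (hu : DifferentiableAt ℝ u x) :
    dirac (fun y => a y • u y) x = a x • dirac u x + grd a u x := by
  unfold dirac grd
  simp only [pd_smul ha hu, J1_add, J2_add, J3_add, J1_smul, J2_smul, J3_smul, smul_add]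
  abel

theorem dirac_congr {u v : X3 → H} {x : X3} (h : u =ᶠ[𝓝 x] v) : dirac u x = dirac v x := by
  unfold dirac pd
  rw [h.fderiv_eq]

variable {ι : Type*} {O : ι → Set X3} {M w : ι → X3 → ℝ}

theorem grd_mfam {a : ι → X3 → ℝ} {A : ι → X3 → H} (ha : MFam O M (fun _ _ => 1) a)
    (hA : MFam O M w A) : MFam O M w (fun i x => grd (a i) (A i) x) :=
  ((((ha.fderiv_apply (ee 0)).smul_one hA.J1).add ((ha.fderiv_apply (ee 1)).smul_one hA.J2)).add
    ((ha.fderiv_apply (ee 2)).smul_one hA.J3))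

section main

variable {m0 m1 e : ι → X3 → ℝ} {a b : ι → X3 → ℝ} {A B R u : ι → X3 → H}

/-- the tame bound of `u` -/
theorem local_u (hA : MFam O M m0 A) (hB : MFam O M m1 B)
    (hR : MFam O M (fun i x => e i x * (m0 i x + m1 i x)) R)
    (ha : MFam O M (fun _ _ => 1) a) (hb : MFam O M (fun _ _ => 1) b)
    (he1 : ∀ i, ∀ x ∈ O i, e i x ≤ 1)
    (hu : ∀ i, EqOn (u i) (fun x => a i x • A i x + b i x • B i x + R i x) (O i)) :
    MFam O M (fun i x => m0 i x + m1 i x) u := by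
  have h0 : ∀ i, ∀ x ∈ O i, 0 ≤ m0 i x := fun i x hx => hA.nonneg i hx
  have h1 : ∀ i, ∀ x ∈ O i, 0 ≤ m1 i x := fun i x hx => hB.nonneg i hx
  have tA : MFam O M (fun i x => m0 i x + m1 i x) (fun i x => a i x • A i x) :=
    (ha.smul_one hA).weight_le fun i x hx => by linarith [h1 i x hx]
  have tB : MFam O M (fun i x => m0 i x + m1 i x) (fun i x => b i x • B i x) :=
    (hb.smul_one hB).weight_le fun i x hx => by linarith [h0 i x hx]
  have tR : MFam O M (fun i x => m0 i x + m1 i x) R :=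
    hR.weight_le fun i x hx => by
      have := h0 i x hx
      have := h1 i x hx
      have := he1 i x hx
      nlinarith
  exact ((tA.add tB).add tR).congr hu

/-- the tame bound of `dirac u` -/
theorem local_dirac (hA : MFam O M m0 A) (hB : MFam O M m1 B)
    (hR : MFam O M (fun i x => e i x * (m0 i x + m1 i x)) R)
    (ha : MFam O M (fun _ _ => 1) a) (hb : MFam O M (fun _ _ => 1) b)
    (he0 : ∀ i, ∀ x ∈ O i, 0 ≤ e i x)
    (dA : ∀ i, ∀ x ∈ O i, dirac (A i) x = 0) (dB : ∀ i, ∀ x ∈ O i, dirac (B i) x = 0)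
    (ca : ∀ i, ∀ x ∈ O i, (∀ᶠ y in 𝓝 x, a i y = 1) ∨ m0 i x ≤ e i x * m1 i x)
    (cb : ∀ i, ∀ x ∈ O i, (∀ᶠ y in 𝓝 x, b i y = 1) ∨ m1 i x ≤ e i x * m0 i x)
    (hu : ∀ i, EqOn (u i) (fun x => a i x • A i x + b i x • B i x + R i x) (O i)) :
    MFam O M (fun i x => e i x * (m0 i x + m1 i x)) (fun i x => dirac (u i) x) := by
  have h0 : ∀ i, ∀ x ∈ O i, 0 ≤ m0 i x := fun i x hx => hA.nonneg i hx
  have h1 : ∀ i, ∀ x ∈ O i, 0 ≤ m1 i x := fun i x hx => hB.nonneg i hx
  have hw : ∀ i, ∀ x ∈ O i, 0 ≤ e i x * (m0 i x + m1 i x) := fun i x hx =>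
    mul_nonneg (he0 i x hx) (add_nonneg (h0 i x hx) (h1 i x hx))
  have key : ∀ {c : ι → X3 → ℝ} {D : ι → X3 → H} {p q : ι → X3 → ℝ},
      MFam O M (fun _ _ => 1) c → MFam O M p D →
      (∀ i, ∀ x ∈ O i, e i x * q i x ≤ e i x * (m0 i x + m1 i x)) →
      (∀ i, ∀ x ∈ O i, (∀ᶠ y in 𝓝 x, c i y = 1) ∨ p i x ≤ e i x * q i x) →
      MFam O M (fun i x => e i x * (m0 i x + m1 i x)) (fun i x => grd (c i) (D i) x) := by
    intro c D p q hc hD hq hcase
    refine weight_cases (grd_mfam hc hD) (C' := 1) hw fun i x hx => ?_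
    rcases hcase i x hx with h | h
    · left
      have h2 : ∀ᶠ y in 𝓝 x, ∀ᶠ z in 𝓝 y, c i z = 1 := eventually_eventually_nhds.2 h
      filter_upwards [h2] with y hy
      have h3 : c i =ᶠ[𝓝 y] fun _ => (1 : ℝ) := hy
      unfold grd
      rw [h3.fderiv_eq]
      simp
    · right
      have h2 := hq i x hx
      have h3 := hc.one_le i hx
      have h4 := hw i x hx
      rw [Nat.cast_one, one_mul, pow_one]
      nlinarith
  have gA := key ha hA (fun i x hx => mul_le_mul_of_nonneg_left (by linarith [h0 i x hx])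
    (he0 i x hx)) ca
  have gB := key hb hB (fun i x hx => mul_le_mul_of_nonneg_left (by linarith [h1 i x hx])
    (he0 i x hx)) cb
  refine ((gA.add gB).add hR.dirac).congr fun i x hx => ?_
  have hO : O i ∈ 𝓝 x := (hA.isOpen i).mem_nhds hx
  have hev : u i =ᶠ[𝓝 x] fun x => a i x • A i x + b i x • B i x + R i x := by
    filter_upwards [hO] with y hy using hu i hy
  have da : DifferentiableAt ℝ (a i) x := (ha.contDiffAt i hx).differentiableAt (by simp)
  have db : DifferentiableAt ℝ (b i) x := (hb.contDiffAt i hx).differentiableAt (by simp)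
  have ddA : DifferentiableAt ℝ (A i) x := (hA.contDiffAt i hx).differentiableAt (by simp)
  have ddB : DifferentiableAt ℝ (B i) x := (hB.contDiffAt i hx).differentiableAt (by simp)
  have ddR : DifferentiableAt ℝ (R i) x := (hR.contDiffAt i hx).differentiableAt (by simp)
  show dirac (u i) x = _
  have dsA : DifferentiableAt ℝ (fun y => a i y • A i y) x := da.smul ddA
  have dsB : DifferentiableAt ℝ (fun y => b i y • B i y) x := db.smul ddB
  have dsAB : DifferentiableAt ℝ (fun y => a i y • A i y + b i y • B i y) x := dsA.add dsB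
  rw [dirac_congr hev, dirac_add dsAB ddR, dirac_add dsA dsB, dirac_smul da ddA,
    dirac_smul db ddB, dA i x hx, dB i x hx]
  simp

end main

/-- the lower bound at one point -/
theorem lower_pt {V : Type*} [NormedAddCommGroup V] [NormedSpace ℝ V] {A B R : V}
    {a b m0 m1 e θ Λ : ℝ} (h0 : 0 ≤ m0) (h1 : 0 ≤ m1)
    (ha : 0 ≤ a ∧ a ≤ 1) (hb : 0 ≤ b ∧ b ≤ 1) (he0 : 0 ≤ e) (he1 : e ≤ 1) (hθ : 0 ≤ θ)
    (hΛ0 : 0 ≤ Λ)
    (hA : ‖A‖ ≤ Λ * m0) (hB : ‖B‖ ≤ Λ * m1) (hR : ‖R‖ ≤ θ / 8 * (m0 + m1))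
    (hΛ : Λ * e ≤ θ / 8)
    (c1 : a = 1 → b = 1 → θ * (m0 + m1) ≤ ‖A + B‖)
    (c2 : a ≠ 1 → m0 ≤ e * m1 ∧ b = 1 ∧ θ * m1 ≤ ‖B‖)
    (c3 : b ≠ 1 → m1 ≤ e * m0 ∧ a = 1 ∧ θ * m0 ≤ ‖A‖) :
    θ / 4 * (m0 + m1) ≤ ‖a • A + b • B + R‖ := by
  have hRR : ‖a • A + b • B‖ - ‖R‖ ≤ ‖a • A + b • B + R‖ := by
    have := norm_sub_norm_le (a • A + b • B) (-R)
    rwa [norm_neg, sub_neg_eq_add] at this
  by_cases hb1 : b = 1
  · by_cases ha1 : a = 1
    · subst ha1; subst hb1
      have := c1 rfl rfl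
      rw [one_smul, one_smul] at hRR ⊢
      nlinarith
    · obtain ⟨h2, -, h3⟩ := c2 ha1
      subst hb1
      rw [one_smul] at hRR ⊢
      have h4 : ‖B‖ - ‖a • A‖ ≤ ‖a • A + B‖ := by
        have := norm_sub_norm_le B (-(a • A))
        rwa [norm_neg, sub_neg_eq_add, add_comm B] at this
      have h5 : ‖a • A‖ ≤ ‖A‖ := by
        rw [norm_smul, Real.norm_of_nonneg ha.1]
        nlinarith [norm_nonneg A]
      have h6 : Λ * m0 ≤ θ / 8 * m1 := by
        calc Λ * m0 ≤ Λ * (e * m1) := by gcongr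
          _ = (Λ * e) * m1 := by ring
          _ ≤ _ := by gcongr
      have h7 : m0 ≤ m1 := by nlinarith
      nlinarith
  · obtain ⟨h2, ha1, h3⟩ := c3 hb1
    subst ha1
    rw [one_smul] at hRR ⊢
    have h4 : ‖A‖ - ‖b • B‖ ≤ ‖A + b • B‖ := by
      have := norm_sub_norm_le A (-(b • B))
      rwa [norm_neg, sub_neg_eq_add] at this
    have h5 : ‖b • B‖ ≤ ‖B‖ := by
      rw [norm_smul, Real.norm_of_nonneg hb.1]
      nlinarith [norm_nonneg B]
    have h6 : Λ * m1 ≤ θ / 8 * m0 := by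
      calc Λ * m1 ≤ Λ * (e * m0) := by gcongr
        _ = (Λ * e) * m0 := by ring
        _ ≤ _ := by gcongr
    have h7 : m1 ≤ m0 := by nlinarith
    nlinarith

end LA
end Pool.Agent.BSS
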