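import Pool.Agent.BSS.LocalSet
import Pool.Agent.BSS.Domin
import Pool.Agent.BSS.Cut

/-!
# The local picture: the alternatives for `chi_k` and `Theta` on `OO k`

`chi_k = 1` near the point or the level `k + 1` dominates; `Theta = 1` near the point or (only for
`k = 0`) the level `0` dominates.
-/

set_option maxSynthPendingDepth 3

open Set Filter
open scoped ContDiff Topology

namespace Pool.Agent.BSS

namespace LP

theorem isClosed_Box2 : IsClosed Box2 := by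
  have e : Box2 = ((fun x : X3 => x 0) ⁻¹' Icc (-2) 3 ∩ ((fun x : X3 => x 1) ⁻¹' Icc (-2) 3 ∩
      (fun x : X3 => x 2) ⁻¹' Icc (-2) 2)) := by
    ext x
    simp only [Box2, mem_ofPred_eq, mem_inter_iff, mem_preimage, mem_Icc]
    tauto
  rw [e]
  exact (isClosed_Icc.preimage (continuous_apply 0)).inter
    ((isClosed_Icc.preimage (continuous_apply 1)).inter
      (isClosed_Icc.preimage (continuous_apply 2)))

/-- In `OO k`: `chi_k = 1` near the point, or the point is in the region of domination. -/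
theorem chi_one_or_region {k : ℕ} {x : X3} (hx : x ∉ pocket k) :
    (∀ᶠ y in 𝓝 x, chi k y = 1) ∨ (pr x ∈ EE k ∧ x 2 ≤ dd (k + 1) ∧
      (dd (k + 1) / 2 ≤ x 2 ∨ ∃ i : Fin 2, dZ (rho k) (pr x i) ≤ 2 * mu (k + 1))) := by
  by_cases h1 : pr x ∈ EE k
  · by_cases h2 : x 2 ≤ dd (k + 1)
    · right
      refine ⟨h1, h2, ?_⟩
      by_contra hcon
      push Not at hcon
      exact hx ⟨h1, fun i => (hcon.2 i).le, hcon.1.le⟩
    · left
      have h3 : ∀ᶠ y : X3 in 𝓝 x, dd (k + 1) < y 2 :=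
        (continuous_apply (2 : Fin 3)).continuousAt.eventually (lt_mem_nhds (not_le.1 h2))
      filter_upwards [h3] with y hy
      rw [chi_eq_one_iff]
      exact Or.inr hy.le
  · left
    exact chi_eventually_one_of_notMem h1

/-- **(ca)** -/
theorem chi_one_or_dom {S0 : ℝ} (hS : 1 ≤ S0) {k : ℕ} {x : X3} (hx : x ∈ OO k) :
    (∀ᶠ y in 𝓝 x, chi k y = 1) ∨
      (pr x ∈ EE k ∧ x 2 ≤ dd (k + 1) ∧
        mk S0 k x ≤ Real.exp (-(SS S0 k * eta (k + 1) / 50)) * mk S0 (k + 1) x) := by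
  have hS0 : 0 < S0 := by linarith
  rcases chi_one_or_region hx.1 with h | ⟨h1, h2, h3⟩
  · exact Or.inl h
  · refine Or.inr ⟨h1, h2, Domi.mk_le_of_domination hS0 k x h1 ?_ h2 h3⟩
    have h4 := hx.2.2
    have h5 := Par.rho_pos (k + 2)
    have h6 : del (k + 1) = rho (k + 2) := rfl
    rw [h6]
    linarith

theorem eta_one : eta 1 = 1 / 100 := by
  have h : NN 1 = 100 := by
    unfold NN
    norm_num
  unfold eta
  rw [h]
  norm_num

theorem SS_one' (S0 : ℝ) : SS S0 1 = S0 * (1 + 1 / 100 / 100) := by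
  have h : SS S0 1 = S0 * (1 + eta 1 / 100) := rfl
  rw [h, eta_one]

/-- the waves of level one at distance `99 / 100` (the level is a variable `j + 1`, since `Zk 1`
must not be unfolded) -/
theorem norm_V_le_far {S0 : ℝ} (hS : 1 ≤ S0) (j : ℕ) (hj : SS S0 (j + 1) = S0 * (1 + 1 / 100 / 100))
    (hr : rho (j + 1) ≤ 1 / 10 ^ 7) {x : X3} (hz : 0 < x 2 + del (j + 1))
    (hfar : ∀ a : Fin 2 → ℝ, (∀ i, -1 / 100 ≤ a i ∧ a i ≤ 101 / 100) →
      (99 / 100) ^ 2 ≤ (x 0 - a 0) ^ 2 + (x 1 - a 1) ^ 2 + (x 2 + del (j + 1)) ^ 2)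
    (m : Fin 2 → ℤ) (hm : m ∈ Zk (j + 1)) :
    ‖Vk S0 (j + 1) m x‖ ≤ 2 * Real.exp (-(1 / 100 * S0 / 400)) * Real.exp (-S0) := by
  have hS0 : 0 < S0 := by linarith
  have h1 := hfar (lat (j + 1) m) (lat_mem_of_mem_Zk hm)
  have h2 := Domi.norm_Vk_succ S0 j m x hz
  have h3 := tail_wave (S := SS S0 (j + 1)) (ρ := rho (j + 1)) (n := (1000000 : ℝ)) (R := 99 / 100)
    (ξ₁ := x 0 - lat (j + 1) m 0) (ξ₂ := x 1 - lat (j + 1) m 1) (z := x 2 + del (j + 1))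
    (SS_pos hS0 _).le (Par.rho_pos _) (by norm_num) (by norm_num at hr ⊢; linarith) h1 hz
  have h4 : ‖Vk S0 (j + 1) m x‖ ≤ ((99 / 100 : ℝ) ^ 2)⁻¹ *
      Real.exp (-(SS S0 (j + 1) * (1 - 65 / 100 / 1000000))) := by
    rw [h2]
    exact h3
  refine h4.trans ?_
  rw [mul_assoc, ← Real.exp_add, hj]
  have h7 : ((99 / 100 : ℝ) ^ 2)⁻¹ ≤ 2 := by norm_num
  have h8 : -(S0 * (1 + 1 / 100 / 100) * (1 - 65 / 100 / 1000000)) ≤
      -(1 / 100 * S0 / 400) + -S0 := by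
    nlinarith
  exact mul_le_mul h7 (Real.exp_le_exp.2 h8) (Real.exp_pos _).le (by norm_num)

theorem mk_le_far {S0 : ℝ} (hS : 1 ≤ S0) (j : ℕ) (hj : SS S0 (j + 1) = S0 * (1 + 1 / 100 / 100))
    (hr : rho (j + 1) ≤ 1 / 10 ^ 7) {x : X3} (hz : 0 < x 2 + del (j + 1))
    (hfar : ∀ a : Fin 2 → ℝ, (∀ i, -1 / 100 ≤ a i ∧ a i ≤ 101 / 100) →
      (99 / 100) ^ 2 ≤ (x 0 - a 0) ^ 2 + (x 1 - a 1) ^ 2 + (x 2 + del (j + 1)) ^ 2) :
    mk S0 (j + 1) x ≤ 2 * Real.exp (-(1 / 100 * S0 / 400)) * mk S0 0 x := by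
  rw [mk_zero]
  exact mk_le (by positivity) fun m hm => norm_V_le_far hS j hj hr hz hfar m hm

theorem rho_one_le : rho 1 ≤ 1 / 10 ^ 7 := by
  have h := Par.rho_succ_le 0
  have h0 : rho 0 = 1 := rfl
  rw [h0] at h
  exact h

theorem mk_one_le_far {S0 : ℝ} (hS : 1 ≤ S0) {x : X3} (hz : 0 < x 2 + del 1)
    (hfar : ∀ a : Fin 2 → ℝ, (∀ i, -1 / 100 ≤ a i ∧ a i ≤ 101 / 100) →
      (99 / 100) ^ 2 ≤ (x 0 - a 0) ^ 2 + (x 1 - a 1) ^ 2 + (x 2 + del 1) ^ 2) :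
    mk S0 1 x ≤ 2 * Real.exp (-(eta 1 * S0 / 400)) * mk S0 0 x := by
  rw [eta_one]
  exact mk_le_far hS 0 (SS_one' S0) rho_one_le hz hfar

/-- a point of `OO 0` at which `Theta` is not locally `1` is far from the centers of level one -/
theorem far_of_not_Theta {x : X3} (hx : -(1 / 100) < x 2)
    (hT : ¬ ∀ᶠ y in 𝓝 x, Theta y = 1) (a : Fin 2 → ℝ)
    (ha : ∀ i, -1 / 100 ≤ a i ∧ a i ≤ 101 / 100) :
    (99 / 100) ^ 2 ≤ (x 0 - a 0) ^ 2 + (x 1 - a 1) ^ 2 + (x 2 + del 1) ^ 2 := by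
  have hd := Par.del_pos 1
  have h0 := ha 0
  have h1 := ha 1
  by_contra hcon
  push Not at hcon
  apply hT
  have s0 := sq_nonneg (x 0 - a 0)
  have s1 := sq_nonneg (x 1 - a 1)
  have s2 := sq_nonneg (x 2 + del 1)
  have b0 : |x 0 - a 0| < 99 / 100 := by
    refine abs_lt_of_sq_lt_sq ?_ (by norm_num)
    linarith
  have b1 : |x 1 - a 1| < 99 / 100 := by
    refine abs_lt_of_sq_lt_sq ?_ (by norm_num)
    linarith
  have b2 : |x 2 + del 1| < 99 / 100 := by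
    refine abs_lt_of_sq_lt_sq ?_ (by norm_num)
    linarith
  rw [abs_lt] at b0 b1 b2
  exact Theta_eventually_one (by linarith [h0.1]) (by linarith [h0.2]) (by linarith [h1.1])
    (by linarith [h1.2]) (by linarith) (by linarith)

theorem neg_hundredth_lt {k : ℕ} {x : X3} (hx : x ∈ OO k) : -(1 / 100) < x 2 := by
  have h1 := Par.rho_succ_le (k + 1)
  have h2 := Par.rho_pos (k + 1)
  have h3 := Par.rho_le_one (k + 1)
  have h4 := hx.2.2
  have h5 : rho (k + 1 + 1) = rho (k + 2) := rfl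
  rw [h5] at h1
  linarith

/-- **(cb)** `Theta = 1` near the point, or `k = 0` and the constant dominates. -/
theorem Theta_one_or_dom {S0 : ℝ} (hS : 1 ≤ S0) {k : ℕ} {x : X3} (hx : x ∈ OO k) :
    (∀ᶠ y in 𝓝 x, Theta y = 1) ∨
      (k = 0 ∧ mk S0 1 x ≤ 2 * Real.exp (-(eta 1 * S0 / 400)) * mk S0 0 x) := by
  rcases Nat.eq_zero_or_pos k with rfl | hk
  · by_cases hT : ∀ᶠ y in 𝓝 x, Theta y = 1
    · exact Or.inl hT
    · refine Or.inr ⟨rfl, mk_one_le_far hS ?_ (far_of_not_Theta (neg_hundredth_lt hx) hT)⟩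
      exact OO_hz_succ hx
  · exact Or.inl (Theta_near_of_OO hk hx)

end LP

end Pool.Agent.BSS
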