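import Pool.Agent.BSS.Terms2
import Pool.Agent.BSS.LocalPic0
import Pool.Agent.BSS.ATIn
import Pool.Agent.BSS.LocalAbs

/-!
# The local picture (a) and (c): tame bounds of `uu` and of `dirac uu` on `OO k`
-/

set_option maxSynthPendingDepth 3
set_option autoImplicit false

open Set Filter
open scoped ContDiff Topology

namespace Pool.Agent.BSS

namespace LQ

/-! ### elementary -/

theorem notMem_Box2_zero {k : ℕ} {x : X3} (hx : x ∈ OO k) (hb : x ∉ Box2) : k = 0 := by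
  by_contra h
  exact hb (mem_Box2_of_OO (Nat.pos_of_ne_zero h) hx)

theorem BW_of_OO {k : ℕ} {x : X3} (hx : x ∈ OO k) (hb : x ∈ Box2) : x ∈ WM.BW (k + 1) := by
  refine TM.BW_of_SR ⟨?_, hb⟩
  have h1 := OO_del_lt hx
  have h2 : 0 < del (k + 1) := Par.del_pos (k + 1)
  linarith

theorem BW_succ_sub (k : ℕ) : WM.BW (k + 1) ⊆ WM.BW k := by
  rintro x ⟨h1, h2⟩
  refine ⟨?_, h2⟩
  have h3 : del (k + 1) ≤ del k := rho_anti' (Nat.le_succ (k + 1))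
  linarith

theorem uu_near_out {S0 : ℝ} {q : ℕ → (Fin 2 → ℤ) → H} {x : X3} (hb : x ∉ Box2) :
    uu S0 q =ᶠ[𝓝 x] fun _ => Real.exp (-S0) • q 0 0 := by
  filter_upwards [LP.isClosed_Box2.isOpen_compl.mem_nhds hb] with y hy
  exact LM.uu_out S0 q hy

/-- the weight of the tail is at most `41 ew m` -/
theorem tail_weight_le {S0 : ℝ} (hS : 1 ≤ S0) {k : ℕ} {x : X3} (hx : x ∈ OO k) :
    Real.exp (-SS S0 (k + 1)) * ew S0 k ≤ 41 * (ew S0 k * LM.mm S0 k x) := by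
  have h0 : 0 < S0 := by linarith
  have h1 := exp_le_mk_of_OO h0 hx
  have h2 : Real.exp (-SS S0 (k + 1)) ≤ Real.exp (-SS S0 k) :=
    Real.exp_le_exp.2 (neg_le_neg (SS_mono h0.le (Nat.le_succ k)))
  have h3 : mk S0 k x ≤ LM.mm S0 k x := le_max_left _ _
  have h4 := ew_pos S0 k
  have h5 : Real.exp (-SS S0 (k + 1)) ≤ 41 * LM.mm S0 k x := by linarith
  calc Real.exp (-SS S0 (k + 1)) * ew S0 k ≤ (41 * LM.mm S0 k x) * ew S0 k := by gcongr
    _ = _ := by ring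

theorem mm_nonneg (S0 : ℝ) (k : ℕ) (x : X3) : 0 ≤ LM.mm S0 k x :=
  le_max_of_le_left (mk_nonneg S0 k x)

theorem ew_le_one {S0 : ℝ} (hS : 1 ≤ S0) (k : ℕ) : ew S0 k ≤ 1 := by
  unfold ew
  rw [Real.exp_le_one_iff]
  have := eta_SS_nonneg (by linarith : 0 < S0) k
  linarith

section abstract_part

variable {κ : Type*} {O : κ → Set X3} {M : κ → X3 → ℝ} {m0 m1 m2 m : κ → X3 → ℝ}
  {F0 F1 R U : κ → X3 → H}

theorem ab_fam (h0 : MFam O M m0 F0) (h1 : MFam O M m1 F1) (hR : MFam O M m2 R)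
    (l0 : ∀ p, ∀ x ∈ O p, m0 p x ≤ m p x) (l1 : ∀ p, ∀ x ∈ O p, m1 p x ≤ m p x)
    (l2 : ∀ p, ∀ x ∈ O p, m2 p x ≤ m p x) (hU : ∀ p x, U p x = F0 p x + F1 p x + R p x) :
    MFam O M m U := by
  have a0 : MFam O M m F0 := h0.weight_le l0
  have a1 : MFam O M m F1 := h1.weight_le l1
  have a2 : MFam O M m R := hR.weight_le l2
  exact ((a0.add a1).add a2).congr fun p x _ => hU p x

theorem ab_dirac (h0 : MFam O M m0 F0) (h1 : MFam O M m1 F1) (hR : MFam O M m2 R)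
    (hw : ∀ p, ∀ x ∈ O p, 0 ≤ m p x) {C' : ℕ}
    (z0 : ∀ p, ∀ x ∈ O p, (∀ᶠ y in 𝓝 x, dirac (F0 p) y = 0) ∨
      m0 p x ≤ C' * M p x ^ C' * m p x)
    (z1 : ∀ p, ∀ x ∈ O p, (∀ᶠ y in 𝓝 x, dirac (F1 p) y = 0) ∨
      m1 p x ≤ C' * M p x ^ C' * m p x)
    (l2 : ∀ p, ∀ x ∈ O p, m2 p x ≤ m p x) (hU : ∀ p x, U p x = F0 p x + F1 p x + R p x) :
    MFam O M m (fun p x => dirac (U p) x) := by
  have a0 : MFam O M m (fun p x => dirac (F0 p) x) := h0.dirac.weight_or_zero hw z0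
  have a1 : MFam O M m (fun p x => dirac (F1 p) x) := h1.dirac.weight_or_zero hw z1
  have a2 : MFam O M m (fun p x => dirac (R p) x) := (hR.weight_le l2).dirac
  refine ((a0.add a1).add a2).congr fun p x hx => ?_
  have e : U p = fun y => (fun y => F0 p y + F1 p y) y + R p y := by
    funext y
    exact hU p y
  have d0 : DifferentiableAt ℝ (F0 p) x := (h0.contDiffAt p hx).differentiableAt (by simp)
  have d1 : DifferentiableAt ℝ (F1 p) x := (h1.contDiffAt p hx).differentiableAt (by simp)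
  have d2 : DifferentiableAt ℝ (R p) x := (hR.contDiffAt p hx).differentiableAt (by simp)
  show dirac (U p) x = dirac (F0 p) x + dirac (F1 p) x + dirac (R p) x
  rw [e, LA.dirac_add (d0.fun_add d1) d2, LA.dirac_add d0 d1]

theorem ab_glue {F : Type*} [NormedAddCommGroup F] [NormedSpace ℝ F] {O' : κ → Set X3}
    {g f : κ → X3 → F} (hg : MFam O' M m g) (hO : ∀ i, IsOpen (O i))
    (hM : ∀ i, ∀ x ∈ O i, 1 ≤ M i x) (hw : ∀ i, ∀ x ∈ O i, 0 ≤ m i x)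
    (h : ∀ i, ∀ x ∈ O i, (x ∈ O' i ∧ f i =ᶠ[𝓝 x] g i) ∨
      ∃ c : F, (f i =ᶠ[𝓝 x] fun _ => c) ∧ ‖c‖ ≤ 2 * m i x) : MFam O M m f := by
  refine MFam.mk ⟨hO, hM⟩ hw (fun i x hx => ?_) fun n => ?_
  · rcases h i x hx with ⟨h1, h2⟩ | ⟨c, h1, -⟩
    · exact ((hg.contDiffAt i h1).congr_of_eventuallyEq h2).contDiffWithinAt
    · exact (contDiffAt_const.congr_of_eventuallyEq h1).contDiffWithinAt
  · obtain ⟨C, hC⟩ := hg.bound n
    refine ⟨C + 2, fun i x hx => ?_⟩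
    rcases h i x hx with ⟨h1, h2⟩ | ⟨c, h1, h3⟩
    · rw [(h2.iteratedFDeriv ℝ n).self_of_nhds]
      exact (hC i x h1).trans (tb_mono (by omega) (hM i x hx) (hw i x hx))
    · rw [(h1.iteratedFDeriv ℝ n).self_of_nhds]
      have h4 : ‖iteratedFDeriv ℝ n (fun _ : X3 => c) x‖ ≤ ‖c‖ := by
        cases n with
        | zero => simp
        | succ n =>
          rw [iteratedFDeriv_succ_const]
          simp
      refine (h4.trans h3).trans ?_
      have h5 := tb_le (c := 2) (k := 0) (C' := C + 2) (by push_cast; linarith [C.cast_nonneg (α := ℝ)])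
        (by omega) (hM i x hx) (hw i x hx)
      rwa [pow_zero, mul_one] at h5

end abstract_part

section fam

variable {ι : Type*} {S0 : ι → ℝ} {q : ι → ℕ → (Fin 2 → ℤ) → H}

/-- the domain of the local form -/
def OW (k : ℕ) : Set X3 := OO k ∩ WM.BW (k + 1)

theorem isOpen_OW (k : ℕ) : IsOpen (OW k) := (isOpen_OO k).inter (WM.isOpen_BW _)

theorem dom_OW (hS : ∀ i, 1 ≤ S0 i) :
    Dom (ι := ι × ℕ) (fun p => OW p.2) (fun p _ => QQ (S0 p.1) p.2) :=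
  ⟨fun p => isOpen_OW _, fun p _ _ => one_le_QQ (hS _) _⟩

theorem cut_fam0 (hS : ∀ i, 1 ≤ S0 i) {a : ℕ → X3 → ℝ}
    (ha : MFam (fun _ : ℕ => (univ : Set X3)) (Mcut X3) (fun _ _ => 1) a) :
    MFam (ι := ι × ℕ) (fun p => OW p.2) (fun p _ => QQ (S0 p.1) p.2)
      (fun _ _ => 1) (fun p => a p.2) := by
  have h1 := ha.reindex (fun p : ι × ℕ => p.2)
  have h2 := h1.changeM_le (M' := fun p _ => QQ (S0 p.1) p.2)
    (fun p x _ => LM.inv_rho_le_QQ (hS _) (by omega))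
  exact h2.restrict (O' := fun p => OW p.2) (fun p => isOpen_OW _) fun p => subset_univ _

theorem fam_W0 (hS : ∀ i, 1 ≤ S0 i) (hq : ∀ i k m, ‖q i k m‖ ≤ 2) :
    MFam (ι := ι × ℕ) (fun p => OW p.2) (fun p _ => QQ (S0 p.1) p.2)
      (fun p x => mk (S0 p.1) p.2 x) (fun p => Wk (S0 p.1) (q p.1) p.2) :=
  (WM.mfam_W hS hq).restrict (O' := fun p => OW p.2) (fun p => isOpen_OW _)
    fun _ _ hx => BW_succ_sub _ hx.2

theorem fam_W1 (hS : ∀ i, 1 ≤ S0 i) (hq : ∀ i k m, ‖q i k m‖ ≤ 2) :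
    MFam (ι := ι × ℕ) (fun p => OW p.2) (fun p _ => QQ (S0 p.1) p.2)
      (fun p x => mk (S0 p.1) (p.2 + 1) x) (fun p => Wk (S0 p.1) (q p.1) (p.2 + 1)) :=
  (WM.mfam_Wsucc' hS hq).restrict (O' := fun p => OW p.2) (fun p => isOpen_OW _)
    fun _ _ hx => hx.2

theorem fam_R (hS : ∀ i, 1 ≤ S0 i) (hq : ∀ i k m, ‖q i k m‖ ≤ 2) :
    MFam (ι := ι × ℕ) (fun p => OW p.2) (fun p _ => QQ (S0 p.1) p.2)
      (fun p x => ew (S0 p.1) p.2 * LM.mm (S0 p.1) p.2 x) (fun p => Rk (S0 p.1) (q p.1) p.2) := by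
  have h := (TM.mfam_Rk hS hq).restrict (O' := fun p => OW p.2) (fun _ => isOpen_OW _)
    fun _ _ hx => hx.1
  refine h.weight (C' := 41) (fun p x _ => ?_) fun p x hx => ?_
  · exact mul_nonneg (ew_pos _ _).le (mm_nonneg _ _ _)
  · have h1 := tail_weight_le (hS p.1) hx.1
    have h2 : 1 ≤ QQ (S0 p.1) p.2 ^ 41 := one_le_pow₀ (one_le_QQ (hS _) _)
    have h3 : 0 ≤ ew (S0 p.1) p.2 * LM.mm (S0 p.1) p.2 x :=
      mul_nonneg (ew_pos _ _).le (mm_nonneg _ _ _)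
    push_cast
    nlinarith

/-- the local form -/
noncomputable def ul (S0 : ℝ) (q : ℕ → (Fin 2 → ℤ) → H) (k : ℕ) (y : X3) : H :=
  chi k y • Wk S0 q k y + Theta y • Wk S0 q (k + 1) y + Rk S0 q k y

theorem fam_c0 (hS : ∀ i, 1 ≤ S0 i) (hq : ∀ i k m, ‖q i k m‖ ≤ 2) :
    MFam (ι := ι × ℕ) (fun p => OW p.2) (fun p _ => QQ (S0 p.1) p.2)
      (fun p x => mk (S0 p.1) p.2 x) (fun p x => chi p.2 x • Wk (S0 p.1) (q p.1) p.2 x) :=
  MFam.smul_one (O := fun p : ι × ℕ => OW p.2) (M := fun p _ => QQ (S0 p.1) p.2)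
    (v := fun p x => mk (S0 p.1) p.2 x) (a := fun p => chi p.2)
    (f := fun p => Wk (S0 p.1) (q p.1) p.2) (cut_fam0 hS MFam_chi) (fam_W0 hS hq)

theorem fam_c1 (hS : ∀ i, 1 ≤ S0 i) (hq : ∀ i k m, ‖q i k m‖ ≤ 2) :
    MFam (ι := ι × ℕ) (fun p => OW p.2) (fun p _ => QQ (S0 p.1) p.2)
      (fun p x => mk (S0 p.1) (p.2 + 1) x)
      (fun p x => Theta x • Wk (S0 p.1) (q p.1) (p.2 + 1) x) :=
  MFam.smul_one (O := fun p : ι × ℕ => OW p.2) (M := fun p _ => QQ (S0 p.1) p.2)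
    (v := fun p x => mk (S0 p.1) (p.2 + 1) x) (a := fun _ => Theta)
    (f := fun p => Wk (S0 p.1) (q p.1) (p.2 + 1)) (cut_fam0 hS MFam_Theta) (fam_W1 hS hq)

/-- (a) for the local form -/
theorem fam_ul (hS : ∀ i, 1 ≤ S0 i) (hq : ∀ i k m, ‖q i k m‖ ≤ 2) :
    MFam (ι := ι × ℕ) (fun p => OW p.2) (fun p _ => QQ (S0 p.1) p.2)
      (fun p x => LM.mm (S0 p.1) p.2 x) (fun p => ul (S0 p.1) (q p.1) p.2) :=
  ab_fam (κ := ι × ℕ) (O := fun p => OW p.2) (M := fun p _ => QQ (S0 p.1) p.2)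
    (m0 := fun p x => mk (S0 p.1) p.2 x) (m1 := fun p x => mk (S0 p.1) (p.2 + 1) x)
    (m2 := fun p x => ew (S0 p.1) p.2 * LM.mm (S0 p.1) p.2 x)
    (m := fun p x => LM.mm (S0 p.1) p.2 x)
    (F0 := fun p x => chi p.2 x • Wk (S0 p.1) (q p.1) p.2 x)
    (F1 := fun p x => Theta x • Wk (S0 p.1) (q p.1) (p.2 + 1) x)
    (R := fun p => Rk (S0 p.1) (q p.1) p.2) (U := fun p => ul (S0 p.1) (q p.1) p.2)
    (fam_c0 hS hq) (fam_c1 hS hq) (fam_R hS hq) (fun _ _ _ => le_max_left _ _)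
    (fun _ _ _ => le_max_right _ _) (fun p x _ => by
      have := ew_le_one (hS p.1) p.2
      have h0 := mm_nonneg (S0 p.1) p.2 x
      nlinarith) fun _ _ => rfl

theorem dirac_c0_near (s : ℝ) (r : ℕ → (Fin 2 → ℤ) → H) {k : ℕ} {x : X3} (hx : x ∈ OO k)
    (h : ∀ᶠ y in 𝓝 x, chi k y = 1) :
    ∀ᶠ y in 𝓝 x, dirac (fun y => chi k y • Wk s r k y) y = 0 := by
  filter_upwards [h.eventually_nhds, dirac_Wk_eventually s r k (OO_hz hx)] with y h1 h2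
  have e : (fun y => chi k y • Wk s r k y) =ᶠ[𝓝 y] Wk s r k := by
    filter_upwards [h1] with z hz
    rw [hz, one_smul]
  rw [LA.dirac_congr e, h2]

theorem dirac_c1_near (s : ℝ) (r : ℕ → (Fin 2 → ℤ) → H) {k : ℕ} {x : X3} (hx : x ∈ OO k)
    (h : ∀ᶠ y in 𝓝 x, Theta y = 1) :
    ∀ᶠ y in 𝓝 x, dirac (fun y => Theta y • Wk s r (k + 1) y) y = 0 := by
  filter_upwards [h.eventually_nhds, dirac_Wk_eventually s r (k + 1) (OO_hz_succ hx)] with y h1 h2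
  have e : (fun y => Theta y • Wk s r (k + 1) y) =ᶠ[𝓝 y] Wk s r (k + 1) := by
    filter_upwards [h1] with z hz
    rw [hz, one_smul]
  rw [LA.dirac_congr e, h2]

theorem exp_dom_le_ew {s : ℝ} (hs : 1 ≤ s) (k : ℕ) :
    Real.exp (-(SS s k * eta (k + 1) / 50)) ≤ ew s k := by
  unfold ew
  rw [Real.exp_le_exp]
  have := eta_SS_nonneg (by linarith : 0 < s) k
  nlinarith

theorem mk_le_ew {s : ℝ} (hs : 1 ≤ s) {k : ℕ} {x : X3}
    (h : mk s k x ≤ Real.exp (-(SS s k * eta (k + 1) / 50)) * mk s (k + 1) x) :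
    mk s k x ≤ ew s k * LM.mm s k x := by
  refine h.trans ?_
  have h1 := exp_dom_le_ew hs k
  have h2 : mk s (k + 1) x ≤ LM.mm s k x := le_max_right _ _
  have h3 := ew_pos s k
  have h4 := mk_nonneg s (k + 1) x
  gcongr

/-- (c) for the local form -/
theorem fam_dul (hS : ∀ i, 1 ≤ S0 i) (hq : ∀ i k m, ‖q i k m‖ ≤ 2) :
    MFam (ι := ι × ℕ) (fun p => OW p.2) (fun p _ => QQ (S0 p.1) p.2)
      (fun p x => ew (S0 p.1) p.2 * LM.mm (S0 p.1) p.2 x)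
      (fun p x => dirac (ul (S0 p.1) (q p.1) p.2) x) :=
  ab_dirac (κ := ι × ℕ) (O := fun p => OW p.2) (M := fun p _ => QQ (S0 p.1) p.2)
    (m0 := fun p x => mk (S0 p.1) p.2 x) (m1 := fun p x => mk (S0 p.1) (p.2 + 1) x)
    (m2 := fun p x => ew (S0 p.1) p.2 * LM.mm (S0 p.1) p.2 x)
    (m := fun p x => ew (S0 p.1) p.2 * LM.mm (S0 p.1) p.2 x)
    (F0 := fun p x => chi p.2 x • Wk (S0 p.1) (q p.1) p.2 x)
    (F1 := fun p x => Theta x • Wk (S0 p.1) (q p.1) (p.2 + 1) x)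
    (R := fun p => Rk (S0 p.1) (q p.1) p.2) (U := fun p => ul (S0 p.1) (q p.1) p.2)
    (fam_c0 hS hq) (fam_c1 hS hq) (fam_R hS hq)
    (fun p x _ => mul_nonneg (ew_pos _ _).le (mm_nonneg _ _ _)) (C' := 2)
    (fun p x hx => by
      rcases LP.chi_one_or_dom (hS p.1) hx.1 with h | ⟨-, -, h⟩
      · exact Or.inl (dirac_c0_near _ _ hx.1 h)
      · right
        have h1 := mk_le_ew (hS p.1) h
        have h2 : 1 ≤ QQ (S0 p.1) p.2 ^ 2 := one_le_pow₀ (one_le_QQ (hS _) _)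
        have h3 : 0 ≤ ew (S0 p.1) p.2 * LM.mm (S0 p.1) p.2 x :=
          mul_nonneg (ew_pos _ _).le (mm_nonneg _ _ _)
        push_cast
        nlinarith)
    (fun p x hx => by
      rcases LP.Theta_one_or_dom (hS p.1) hx.1 with h | ⟨hk, h⟩
      · exact Or.inl (dirac_c1_near _ _ hx.1 h)
      · right
        have h1 : mk (S0 p.1) (p.2 + 1) x ≤ 2 * (ew (S0 p.1) p.2 * LM.mm (S0 p.1) p.2 x) := by
          rw [hk]
          refine h.trans ?_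
          have e : Real.exp (-(eta 1 * S0 p.1 / 400)) = ew (S0 p.1) 0 := rfl
          rw [e, mul_assoc]
          have h4 : mk (S0 p.1) 0 x ≤ LM.mm (S0 p.1) 0 x := le_max_left _ _
          have h5 := ew_pos (S0 p.1) 0
          gcongr
        have h2 : 1 ≤ QQ (S0 p.1) p.2 ^ 2 := one_le_pow₀ (one_le_QQ (hS _) _)
        have h3 : 0 ≤ ew (S0 p.1) p.2 * LM.mm (S0 p.1) p.2 x :=
          mul_nonneg (ew_pos _ _).le (mm_nonneg _ _ _)
        push_cast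
        nlinarith)
    (fun _ _ _ => le_rfl) fun _ _ => rfl

theorem pic_a (hS : ∀ i, 1 ≤ S0 i) (hq : ∀ i k m, ‖q i k m‖ ≤ 2) :
    MFam (ι := ι × ℕ) (fun p => OO p.2) (fun p _ => QQ (S0 p.1) p.2)
      (fun p x => LM.mm (S0 p.1) p.2 x) (fun p => uu (S0 p.1) (q p.1)) := by
  refine ab_glue (κ := ι × ℕ) (O := fun p => OO p.2) (O' := fun p => OW p.2)
    (M := fun p _ => QQ (S0 p.1) p.2) (m := fun p x => LM.mm (S0 p.1) p.2 x)
    (g := fun p => ul (S0 p.1) (q p.1) p.2) (f := fun p => uu (S0 p.1) (q p.1))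
    (fam_ul hS hq) (fun p => isOpen_OO _) (fun p _ _ => one_le_QQ (hS _) _)
    (fun p x _ => mm_nonneg _ _ _) fun p x hx => ?_
  by_cases hb : x ∈ Box2
  · exact Or.inl ⟨⟨hx, BW_of_OO hx hb⟩, uu_eq_local (hS _) (hq _) hx⟩
  · refine Or.inr ⟨_, uu_near_out hb, ?_⟩
    have hk : p.2 = 0 := notMem_Box2_zero hx hb
    rw [norm_smul, Real.norm_of_nonneg (Real.exp_pos _).le]
    have h1 := hq p.1 0 0
    have h2 := Real.exp_pos (-S0 p.1)
    have h3 : Real.exp (-S0 p.1) ≤ LM.mm (S0 p.1) p.2 x := by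
      rw [hk, ← mk_zero (S0 p.1) x]
      exact le_max_left _ _
    nlinarith

theorem pic_c (hS : ∀ i, 1 ≤ S0 i) (hq : ∀ i k m, ‖q i k m‖ ≤ 2) :
    MFam (ι := ι × ℕ) (fun p => OO p.2) (fun p _ => QQ (S0 p.1) p.2)
      (fun p x => ew (S0 p.1) p.2 * LM.mm (S0 p.1) p.2 x)
      (fun p x => dirac (uu (S0 p.1) (q p.1)) x) := by
  refine ab_glue (κ := ι × ℕ) (O := fun p => OO p.2) (O' := fun p => OW p.2)
    (M := fun p _ => QQ (S0 p.1) p.2)
    (m := fun p x => ew (S0 p.1) p.2 * LM.mm (S0 p.1) p.2 x)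
    (g := fun p x => dirac (ul (S0 p.1) (q p.1) p.2) x)
    (f := fun p x => dirac (uu (S0 p.1) (q p.1)) x)
    (fam_dul hS hq) (fun p => isOpen_OO _) (fun p _ _ => one_le_QQ (hS _) _)
    (fun p x _ => mul_nonneg (ew_pos _ _).le (mm_nonneg _ _ _)) fun p x hx => ?_
  by_cases hb : x ∈ Box2
  · refine Or.inl ⟨⟨hx, BW_of_OO hx hb⟩, ?_⟩
    have h := uu_eq_local (hS p.1) (hq p.1) hx
    filter_upwards [h.eventuallyEq_nhds] with y hy
    exact LA.dirac_congr hy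
  · refine Or.inr ⟨0, ?_, ?_⟩
    · filter_upwards [LP.isClosed_Box2.isOpen_compl.mem_nhds hb] with y hy
      rw [LA.dirac_congr (uu_near_out hy), dirac_const]
    · rw [norm_zero]
      exact mul_nonneg zero_le_two (mul_nonneg (ew_pos _ _).le (mm_nonneg _ _ _))

end fam

end LQ

end Pool.Agent.BSS
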