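import Pool.Agent.BSS.Defs
import Pool.Agent.BSS.WaveSum

/-!
# Facts on the waves `Vk`, the fields `Wk` and the maximal modulus `mk`
-/

set_option maxSynthPendingDepth 3

open scoped ContDiff

namespace Pool.Agent.BSS

/-! ### Single waves -/

theorem wp_hz {S0 : ℝ} {k : ℕ} {m : Fin 2 → ℤ} {x : X3} (hz : 0 < x 2 + del k) :
    0 < x 2 + (wp S0 k m).del := hz

theorem Vk_contDiffAt (S0 : ℝ) (k : ℕ) (m : Fin 2 → ℤ) {x : X3} (hz : 0 < x 2 + del k) :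
    ContDiffAt ℝ ∞ (Vk S0 k m) x := by
  cases k with
  | zero => exact contDiffAt_const
  | succ k => exact wave_contDiffAt (wp_hz hz)

theorem Vk_differentiableAt (S0 : ℝ) (k : ℕ) (m : Fin 2 → ℤ) {x : X3} (hz : 0 < x 2 + del k) :
    DifferentiableAt ℝ (Vk S0 k m) x := (Vk_contDiffAt S0 k m hz).differentiableAt (by simp)

theorem dirac_Vk (S0 : ℝ) (k : ℕ) (m : Fin 2 → ℤ) {x : X3} (hz : 0 < x 2 + del k) :
    dirac (Vk S0 k m) x = 0 := by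
  cases k with
  | zero => exact dirac_const _ _
  | succ k => exact dirac_wave (wp_hz hz)

theorem norm_Vk_zero (S0 : ℝ) (m : Fin 2 → ℤ) (x : X3) : ‖Vk S0 0 m x‖ = Real.exp (-S0) := by
  simp only [Vk]
  rw [norm_smul, norm_one, mul_one, Real.norm_of_nonneg (Real.exp_pos _).le]

theorem norm_Vk_succ (S0 : ℝ) (k : ℕ) (m : Fin 2 → ℤ) {x : X3} (hz : 0 < x 2 + del (k + 1)) :
    ‖Vk S0 (k + 1) m x‖ = Real.exp (-(SS S0 (k + 1) / 2) - SS S0 (k + 1) / 2 * (wp S0 (k + 1) m).om x)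
      / (wp S0 (k + 1) m).r2 x :=
  norm_wave (w := wp S0 (k + 1) m) (wp_hz hz)

theorem norm_Vk_pos (S0 : ℝ) (k : ℕ) (m : Fin 2 → ℤ) {x : X3} (hz : 0 < x 2 + del k) :
    0 < ‖Vk S0 k m x‖ := by
  cases k with
  | zero => rw [norm_Vk_zero]; exact Real.exp_pos _
  | succ k => exact norm_wave_pos (wp_hz hz)

theorem Vk_ne_zero (S0 : ℝ) (k : ℕ) (m : Fin 2 → ℤ) {x : X3} (hz : 0 < x 2 + del k) :
    Vk S0 k m x ≠ 0 := norm_pos_iff.mp (norm_Vk_pos S0 k m hz)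

theorem norm_Vk_succ_le {S0 : ℝ} (hS : 0 < S0) (k : ℕ) (m : Fin 2 → ℤ) {x : X3}
    (hz : 0 < x 2 + del (k + 1)) :
    ‖Vk S0 (k + 1) m x‖ ≤ Real.exp (-(SS S0 (k + 1) / 2)) / (wp S0 (k + 1) m).r2 x :=
  norm_wave_le (w := wp S0 (k + 1) m) (Par.rho_pos _) (half_pos (SS_pos hS _)).le (wp_hz hz)

theorem le_norm_Vk_succ {S0 : ℝ} (hS : 0 < S0) (k : ℕ) (m : Fin 2 → ℤ) {x : X3}
    (hz : 0 < x 2 + del (k + 1)) :
    Real.exp (-SS S0 (k + 1)) / (wp S0 (k + 1) m).r2 x ≤ ‖Vk S0 (k + 1) m x‖ := by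
  have h := le_norm_wave (w := wp S0 (k + 1) m) (half_pos (SS_pos hS _)).le (wp_hz hz)
  have e : -(wp S0 (k + 1) m).P - (wp S0 (k + 1) m).K = -SS S0 (k + 1) := by
    simp only [wp]; ring
  rw [e] at h
  exact h

/-- `r² ≥ (del / 2)²` for `t ≥ - del / 2`. -/
theorem r2_ge_del {S0 : ℝ} {k : ℕ} {m : Fin 2 → ℤ} {x : X3} (hz : -(del k / 2) ≤ x 2) :
    (del k / 2) ^ 2 ≤ (wp S0 k m).r2 x := by
  have h1 : del k / 2 ≤ x 2 + del k := by linarith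
  have h2 : 0 < del k := Par.del_pos k
  have h3 : (del k / 2) ^ 2 ≤ (x 2 + del k) ^ 2 := by
    apply pow_le_pow_left₀ (by positivity) h1
  have h4 : (x 2 + del k) ^ 2 ≤ (wp S0 k m).r2 x := by
    unfold WP.r2 wp
    simp only
    nlinarith [sq_nonneg (x 0 - lat k m 0), sq_nonneg (x 1 - lat k m 1)]
  exact h3.trans h4

/-! ### The centres -/

theorem wf_prodn_mul_rho (k : ℕ) : (prodn k : ℝ) * rho k = 1 := by
  induction k with
  | zero => simp [prodn, rho]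
  | succ k ih =>
    rw [Par.rho_succ, prodn]
    push_cast
    have := Par.nn_posR (k + 1)
    field_simp
    linarith

theorem wf_Lk_eq (k : ℕ) : (Lk k : ℝ) = 8 / rho k := by
  have h := wf_prodn_mul_rho k
  have h1 := Par.rho_pos k
  unfold Lk
  push_cast
  rw [eq_div_iff h1.ne']
  linarith

theorem wf_Lk_pos (k : ℕ) : (0 : ℝ) < Lk k := by
  rw [wf_Lk_eq]; have := Par.rho_pos k; positivity

theorem wf_lat_eq (k : ℕ) (m : Fin 2 → ℤ) (i : Fin 2) : lat k m i = rho k / 8 * (m i : ℝ) := by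
  unfold lat
  rw [wf_Lk_eq]
  have := Par.rho_pos k
  field_simp

theorem lat_bounds {k : ℕ} {m : Fin 2 → ℤ} (hm : m ∈ Zk k) (i : Fin 2) :
    -1 ≤ lat k m i ∧ lat k m i ≤ 2 := by
  cases k with
  | zero =>
    simp only [Zk, Finset.mem_singleton] at hm
    subst hm
    simp [lat]
  | succ k =>
    simp only [Zk, Finset.mem_filter] at hm
    have h := hm.1
    rw [Fintype.mem_piFinset] at h
    have h2 := Finset.mem_Icc.mp (h i)
    have h3 : (-(Lk (k + 1) : ℝ)) ≤ (m i : ℝ) := by exact_mod_cast h2.1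
    have h4 : (m i : ℝ) ≤ 2 * (Lk (k + 1) : ℝ) := by exact_mod_cast h2.2
    have h5 := wf_Lk_pos (k + 1)
    unfold lat
    constructor
    · rw [le_div_iff₀ h5]; linarith
    · rw [div_le_iff₀ h5]; linarith

theorem wf_card_Zk_le (k : ℕ) : ((Zk k).card : ℝ) ≤ (25 / rho k) ^ 2 := by
  have h1 := Par.rho_pos k
  have h2 := Par.rho_le_one k
  cases k with
  | zero =>
    simp [Zk, rho]
  | succ k =>
    have h3 : (Zk (k + 1)).card ≤ (3 * Lk (k + 1) + 1) ^ 2 := by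
      classical
      have h0 : Zk (k + 1) ⊆ Fintype.piFinset fun _ : Fin 2 =>
          Finset.Icc (-(Lk (k + 1) : ℤ)) (2 * Lk (k + 1)) := by
        intro m hm
        simp only [Zk, Finset.mem_filter] at hm
        exact hm.1
      refine (Finset.card_le_card h0).trans ?_
      rw [Fintype.card_piFinset]
      simp only [Int.card_Icc, Finset.prod_const, Finset.card_univ, Fintype.card_fin]
      apply Nat.pow_le_pow_left
      omega
    have h4 : ((Zk (k + 1)).card : ℝ) ≤ (3 * (Lk (k + 1) : ℝ) + 1) ^ 2 := by exact_mod_cast h3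
    refine h4.trans ?_
    apply pow_le_pow_left₀ (by positivity)
    rw [wf_Lk_eq]
    have h5 : 1 ≤ 1 / rho (k + 1) := by rw [le_div_iff₀ h1]; linarith
    have h6 : (25 : ℝ) / rho (k + 1) = 3 * (8 / rho (k + 1)) + 1 / rho (k + 1) := by ring
    rw [h6]
    linarith

/-- `r² ≤ 41` on `Box2` (for `t ≥ - 1`, `k` arbitrary). -/
theorem r2_le_of_box {S0 : ℝ} {k : ℕ} {m : Fin 2 → ℤ} (hm : m ∈ Zk k) {x : X3} (hx : x ∈ Box2) :
    (wp S0 k m).r2 x ≤ 41 := by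
  have h0 := lat_bounds hm 0
  have h1 := lat_bounds hm 1
  have hd : del k ≤ 1 := Par.rho_le_one _
  have hd0 : 0 < del k := Par.del_pos k
  obtain ⟨a, b, c, d, e, f⟩ : -2 ≤ x 0 ∧ x 0 ≤ 3 ∧ -2 ≤ x 1 ∧ x 1 ≤ 3 ∧ -2 ≤ x 2 ∧ x 2 ≤ 2 := hx
  unfold WP.r2 wp
  simp only
  have e0 : (x 0 - lat k m 0) ^ 2 ≤ 4 ^ 2 := by
    apply sq_le_sq'
    · linarith
    · linarith
  have e1 : (x 1 - lat k m 1) ^ 2 ≤ 4 ^ 2 := by
    apply sq_le_sq'
    · linarith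
    · linarith
  have e2 : (x 2 + del k) ^ 2 ≤ 3 ^ 2 := by
    apply sq_le_sq'
    · linarith
    · linarith
  nlinarith

/-- lower bound of a wave on `Box2`. -/
theorem exp_le_norm_Vk {S0 : ℝ} (hS : 0 < S0) (k : ℕ) {m : Fin 2 → ℤ} (hm : m ∈ Zk k) {x : X3}
    (hx : x ∈ Box2) (hz : 0 < x 2 + del k) : Real.exp (-SS S0 k) / 41 ≤ ‖Vk S0 k m x‖ := by
  cases k with
  | zero =>
    rw [norm_Vk_zero, SS_zero]
    have := Real.exp_pos (-S0)
    linarith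
  | succ k =>
    refine le_trans ?_ (le_norm_Vk_succ hS k m hz)
    apply div_le_div_of_nonneg_left (Real.exp_pos _).le _ (r2_le_of_box hm hx)
    exact WP.r2_pos (w := wp S0 (k + 1) m) hz

/-! ### The maximal modulus -/

theorem le_mk (S0 : ℝ) {k : ℕ} {m : Fin 2 → ℤ} (hm : m ∈ Zk k) (x : X3) :
    ‖Vk S0 k m x‖ ≤ mk S0 k x :=
  le_ciSup (f := fun m : Zk k => ‖Vk S0 k m x‖) (Set.finite_range _).bddAbove ⟨m, hm⟩

theorem exists_mk (S0 : ℝ) {k : ℕ} (h : (Zk k).Nonempty) (x : X3) :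
    ∃ m ∈ Zk k, mk S0 k x = ‖Vk S0 k m x‖ := by
  have : Nonempty (Zk k) := h.to_subtype
  obtain ⟨m, hm⟩ := exists_eq_ciSup_of_finite (f := fun m : Zk k => ‖Vk S0 k m x‖)
  exact ⟨m.1, m.2, hm.symm⟩

theorem mk_nonneg (S0 : ℝ) (k : ℕ) (x : X3) : 0 ≤ mk S0 k x :=
  Real.iSup_nonneg fun _ => norm_nonneg _

theorem mk_le {S0 : ℝ} {k : ℕ} {x : X3} {c : ℝ} (hc : 0 ≤ c) (h : ∀ m ∈ Zk k, ‖Vk S0 k m x‖ ≤ c) :
    mk S0 k x ≤ c :=
  Real.iSup_le (fun m => h m.1 m.2) hc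

theorem mk_pos (S0 : ℝ) {k : ℕ} (h : (Zk k).Nonempty) {x : X3} (hz : 0 < x 2 + del k) :
    0 < mk S0 k x := by
  obtain ⟨m, _, h2⟩ := exists_mk S0 h x
  rw [h2]; exact norm_Vk_pos S0 k m hz

theorem mk_zero (S0 : ℝ) (x : X3) : mk S0 0 x = Real.exp (-S0) := by
  obtain ⟨m, _, h2⟩ := exists_mk S0 (k := 0) (by simp [Zk]) x
  rw [h2, norm_Vk_zero]

/-- `mk ≤ (4 / del²) e^{-S/2}` for `t ≥ - del / 2`. -/
theorem mk_succ_le_exp {S0 : ℝ} (hS : 0 < S0) (k : ℕ) {x : X3} (hz : -(del (k + 1) / 2) ≤ x 2) :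
    mk S0 (k + 1) x ≤ 4 / del (k + 1) ^ 2 * Real.exp (-(SS S0 (k + 1) / 2)) := by
  have hd : 0 < del (k + 1) := Par.del_pos _
  have hz' : 0 < x 2 + del (k + 1) := by linarith
  apply mk_le (by positivity)
  intro m _
  refine (norm_Vk_succ_le hS k m hz').trans ?_
  have h1 := r2_ge_del (S0 := S0) (m := m) hz
  have h2 : (0 : ℝ) < (del (k + 1) / 2) ^ 2 := by positivity
  calc Real.exp (-(SS S0 (k + 1) / 2)) / (wp S0 (k + 1) m).r2 x
      ≤ Real.exp (-(SS S0 (k + 1) / 2)) / (del (k + 1) / 2) ^ 2 :=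
        div_le_div_of_nonneg_left (Real.exp_pos _).le h2 h1
    _ = 4 / del (k + 1) ^ 2 * Real.exp (-(SS S0 (k + 1) / 2)) := by field_simp; norm_num

/-! ### The fields `Wk` -/

theorem Wk_contDiffAt (S0 : ℝ) (q : ℕ → (Fin 2 → ℤ) → H) (k : ℕ) {x : X3} (hz : 0 < x 2 + del k) :
    ContDiffAt ℝ ∞ (Wk S0 q k) x :=
  ContDiffAt.sum fun m _ => (Vk_contDiffAt S0 k m hz).mul contDiffAt_const

theorem dirac_Wk (S0 : ℝ) (q : ℕ → (Fin 2 → ℤ) → H) (k : ℕ) {x : X3} (hz : 0 < x 2 + del k) :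
    dirac (Wk S0 q k) x = 0 := by
  have hd : ∀ m ∈ Zk k, DifferentiableAt ℝ (Vk S0 k m) x := fun m _ => Vk_differentiableAt S0 k m hz
  have h := dirac_sum (s := Zk k) (f := fun m x => Vk S0 k m x * q k m) (x := x)
    (fun m hm => (hd m hm).mul_const (q k m))
  have h2 : dirac (Wk S0 q k) x = ∑ m ∈ Zk k, dirac (fun x => Vk S0 k m x * q k m) x := h
  rw [h2]
  apply Finset.sum_eq_zero
  intro m hm
  rw [dirac_mul_const (hd m hm), dirac_Vk S0 k m hz, zero_mul]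

theorem dirac_Wk_eventually (S0 : ℝ) (q : ℕ → (Fin 2 → ℤ) → H) (k : ℕ) {x : X3}
    (hz : 0 < x 2 + del k) : ∀ᶠ y in nhds x, dirac (Wk S0 q k) y = 0 := by
  have : ∀ᶠ y : X3 in nhds x, 0 < y 2 + del k :=
    (((continuous_apply 2).add continuous_const).continuousAt).eventually (lt_mem_nhds hz)
  exact this.mono fun y hy => dirac_Wk S0 q k hy

theorem norm_Wk_le_sum (S0 : ℝ) {q : ℕ → (Fin 2 → ℤ) → H} {k : ℕ} (hq : ∀ m ∈ Zk k, ‖q k m‖ ≤ 2)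
    (x : X3) : ‖Wk S0 q k x‖ ≤ 2 * ∑ m ∈ Zk k, ‖Vk S0 k m x‖ := by
  refine (norm_sum_le _ _).trans ?_
  rw [Finset.mul_sum]
  apply Finset.sum_le_sum
  intro a ha
  rw [norm_mul, mul_comm]
  exact mul_le_mul_of_nonneg_right (hq a ha) (norm_nonneg _)

theorem sum_norm_Vk_le (S0 : ℝ) (k : ℕ) (x : X3) :
    ∑ m ∈ Zk k, ‖Vk S0 k m x‖ ≤ (Zk k).card * mk S0 k x := by
  refine (Finset.sum_le_sum fun m hm => le_mk S0 hm x).trans ?_
  rw [Finset.sum_const, nsmul_eq_mul]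

theorem norm_Wk_le (S0 : ℝ) {q : ℕ → (Fin 2 → ℤ) → H} {k : ℕ} (hq : ∀ m ∈ Zk k, ‖q k m‖ ≤ 2)
    (x : X3) : ‖Wk S0 q k x‖ ≤ 2 * (Zk k).card * mk S0 k x := by
  have h1 := norm_Wk_le_sum S0 hq x
  have h2 := sum_norm_Vk_le S0 k x
  linarith

end Pool.Agent.BSS
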