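import Pool.Agent.BSS.WaveD
import Pool.Agent.BSS.WField
import Pool.Agent.BSS.Cent
import Pool.Agent.BSS.LocalEst

/-!
# The fields `W_k` as tame families

Index `ι × ℕ` (parameters, level), `M = QQ`, weight `mk`, on the bounded open sets `BW k`.
-/

set_option maxSynthPendingDepth 3

open Set Filter
open scoped ContDiff Topology

namespace Pool.Agent.BSS

section cases

variable {ι : Type*} {E F : Type*} [NormedAddCommGroup E] [NormedSpace ℝ E]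
  [NormedAddCommGroup F] [NormedSpace ℝ F] {O : ι × ℕ → Set E} {M w : ι × ℕ → E → ℝ}
  {f : ι × ℕ → E → F}

/-- a family over `ι × ℕ`, level zero and the other levels apart -/
theorem MFam.nat_cases
    (h0 : MFam (ι := ι) (fun i => O (i, 0)) (fun i => M (i, 0)) (fun i => w (i, 0))
      (fun i => f (i, 0)))
    (hs : MFam (ι := ι × ℕ) (fun p => O (p.1, p.2 + 1)) (fun p => M (p.1, p.2 + 1))
      (fun p => w (p.1, p.2 + 1)) (fun p => f (p.1, p.2 + 1))) : MFam O M w f := by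
  refine MFam.mk ⟨?_, ?_⟩ ?_ ?_ fun n => ?_
  · rintro ⟨i, k⟩
    cases k with
    | zero => exact h0.isOpen i
    | succ k => exact hs.isOpen (i, k)
  · rintro ⟨i, k⟩ x hx
    cases k with
    | zero => exact h0.one_le i hx
    | succ k => exact hs.one_le (i, k) hx
  · rintro ⟨i, k⟩ x hx
    cases k with
    | zero => exact h0.nonneg i hx
    | succ k => exact hs.nonneg (i, k) hx
  · rintro ⟨i, k⟩
    cases k with
    | zero => exact h0.smooth i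
    | succ k => exact hs.smooth (i, k)
  · obtain ⟨C, hC⟩ := h0.bound n
    obtain ⟨C', hC'⟩ := hs.bound n
    refine ⟨C + C', ?_⟩
    rintro ⟨i, k⟩ x hx
    cases k with
    | zero =>
      exact (hC i x hx).trans (tb_mono (by omega) (h0.one_le i hx) (h0.nonneg i hx))
    | succ k =>
      exact (hC' (i, k) x hx).trans
        (tb_mono (by omega) (hs.one_le (i, k) hx) (hs.nonneg (i, k) hx))

end cases

namespace WM

/-- bounded open set on which `W_k` is tame -/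
def BW (k : ℕ) : Set X3 :=
  {x | -(3 / 4 * del k) < x 2 ∧ x 2 < 3 ∧ ∀ i : Fin 2, -3 < pr x i ∧ pr x i < 4}

theorem isOpen_BW (k : ℕ) : IsOpen (BW k) := by
  have h2 : Continuous fun x : X3 => x 2 := continuous_apply 2
  have e : BW k = {x : X3 | -(3 / 4 * del k) < x 2} ∩ ({x : X3 | x 2 < 3} ∩
      ⋂ i : Fin 2, ({x : X3 | -3 < pr x i} ∩ {x : X3 | pr x i < 4})) := by
    ext x
    simp [BW]
  rw [e]
  have hp : ∀ i : Fin 2, Continuous fun x : X3 => pr x i := fun i =>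
    (continuous_apply i).comp continuous_pr
  exact (isOpen_lt continuous_const h2).inter ((isOpen_lt h2 continuous_const).inter
    (isOpen_iInter_of_finite fun i => (isOpen_lt continuous_const (hp i)).inter
      (isOpen_lt (hp i) continuous_const)))

theorem exists_QQ_succ : ∃ C : ℕ, ∀ S0 : ℝ, 1 ≤ S0 → ∀ k : ℕ,
    QQ S0 (k + 1) ≤ C * QQ S0 k ^ C := by
  refine ⟨320000000, fun S0 hS k => ?_⟩
  have hS0 : 0 < S0 := by linarith
  have hQ := one_le_QQ hS k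
  have h1 : QQ S0 (k + 1) ≤ 2 * QQ S0 k * (nn (k + 5) : ℝ) := by
    unfold QQ
    have hr : rho (k + 1 + 4) = rho (k + 4) / (nn (k + 5) : ℝ) := rfl
    rw [hr]
    have hn := Par.nn_posR (k + 5)
    have hρ := Par.rho_pos (k + 4)
    have h2 := SS_succ_le hS0.le k
    rw [div_div_eq_mul_div, div_le_iff₀ hρ]
    have e : 2 * (SS S0 k / rho (k + 4)) * (nn (k + 5) : ℝ) * rho (k + 4) =
        2 * SS S0 k * nn (k + 5) := by field_simp
    rw [e]
    gcongr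
  have h2 : (nn (k + 5) : ℝ) ≤ 160000000 * QQ S0 k ^ 2 := by
    have h3 := Par.nn_le (k + 4)
    have h3' : (nn (k + 5) : ℝ) ≤ 10 ^ 7 * ((k : ℝ) + 5) ^ 2 := by
      calc (nn (k + 5) : ℝ) = ((nn (k + 4 + 1) : ℕ) : ℝ) := rfl
        _ ≤ ((10 ^ 7 * (k + 4 + 1) ^ 2 : ℕ) : ℝ) := by exact_mod_cast h3
        _ = 10 ^ 7 * ((k : ℝ) + 5) ^ 2 := by push_cast; ring
    have h4 : (k : ℝ) + 5 ≤ 4 * QQ S0 k := by
      have h5 := two_pow_le_QQ hS k
      have h6 : k + 5 ≤ 4 * 2 ^ (k + 1) := by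
        have : k < 2 ^ k := Nat.lt_two_pow_self
        have h7 : 1 ≤ 2 ^ k := Nat.one_le_two_pow
        rw [pow_succ]
        omega
      have h8 : (k : ℝ) + 5 ≤ 4 * 2 ^ (k + 1) := by exact_mod_cast h6
      linarith
    have h5 : ((k : ℝ) + 5) ^ 2 ≤ (4 * QQ S0 k) ^ 2 := by
      apply pow_le_pow_left₀ (by positivity) h4
    calc (nn (k + 5) : ℝ) ≤ 10 ^ 7 * ((k : ℝ) + 5) ^ 2 := h3'
      _ ≤ 10 ^ 7 * (4 * QQ S0 k) ^ 2 := by gcongr
      _ = 160000000 * QQ S0 k ^ 2 := by ring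
  have hQ0 : 0 ≤ QQ S0 k := by linarith
  have h3 : QQ S0 (k + 1) ≤ 320000000 * QQ S0 k ^ 3 := by
    calc QQ S0 (k + 1) ≤ 2 * QQ S0 k * (nn (k + 5) : ℝ) := h1
      _ ≤ 2 * QQ S0 k * (160000000 * QQ S0 k ^ 2) := by gcongr
      _ = 320000000 * QQ S0 k ^ 3 := by ring
  have h4 := tb_le (c := 320000000) (k := 3) (C' := 320000000) (M := QQ S0 k) (w := 1)
    (by norm_num) (by norm_num) hQ zero_le_one
  rw [mul_one, mul_one] at h4
  exact h3.trans h4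

section fam

variable {ι : Type*} {S0 : ι → ℝ} {q : ι → ℕ → (Fin 2 → ℤ) → H}

theorem good_wp {s : ℝ} (hs : 1 ≤ s) (k : ℕ) (m : Fin 2 → ℤ) : (wp s k m).Good :=
  ⟨Par.del_pos k, Par.rho_pos k, (half_pos (SS_pos (by linarith) k)).le⟩

theorem WP_M_le {s : ℝ} (hs : 1 ≤ s) {k : ℕ} {m : Fin 2 → ℤ} (hm : m ∈ Zk k) {x : X3}
    (hx : x ∈ BW k) : (wp s k m).M x ≤ 200 * QQ s k ^ 3 := by
  obtain ⟨h1, h2, h3⟩ := hx
  have hd : del k ≤ 1 := Par.rho_le_one _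
  have hd0 : 0 < del k := Par.del_pos k
  have hr0 := Par.rho_pos k
  have hQ := one_le_QQ hs k
  have hl := lat_mem_of_mem_Zk hm
  have hB : ∀ j, |(wp s k m).y x j| ≤ 8 := by
    intro j
    fin_cases j
    · have a1 := h3 0
      have a2 := hl 0
      have a3 : pr x 0 = x 0 := rfl
      rw [a3] at a1
      change |x 0 - lat k m 0| ≤ 8
      rw [abs_le]
      constructor <;> linarith [a1.1, a1.2, a2.1, a2.2]
    · have a1 := h3 1
      have a2 := hl 1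
      have a3 : pr x 1 = x 1 := rfl
      rw [a3] at a1
      change |x 1 - lat k m 1| ≤ 8
      rw [abs_le]
      constructor <;> linarith [a1.1, a1.2, a2.1, a2.2]
    · have e : (wp s k m).y x 2 = x 2 + del k := WP.y_two _ _
      change |(wp s k m).y x 2| ≤ 8
      rw [e, abs_le]
      constructor <;> linarith
  have h4 := WP.M_le (good_wp hs k m) hB
  have h5 : (wp s k m).M0 ≤ 8 * QQ s k ^ 3 := by
    unfold WP.M0
    have b1 : 1 + (wp s k m).K ≤ 2 * QQ s k := by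
      have := SS_le_QQ (by linarith : 0 < s) k
      have h := SS_pos (by linarith : 0 < s) k
      change 1 + SS s k / 2 ≤ _
      linarith
    have b2 : 1 + 1 / (wp s k m).rho ≤ 2 * QQ s k := by
      have := inv_rho_le_QQ' hs (i := k) (k := k) (by omega)
      change 1 + 1 / rho k ≤ _
      linarith
    have b3 : 1 + 1 / (wp s k m).del ≤ 2 * QQ s k := by
      have := inv_rho_le_QQ' hs (i := k + 1) (k := k) (by omega)
      change 1 + 1 / rho (k + 1) ≤ _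
      linarith
    have c1 : 0 ≤ (wp s k m).K := (good_wp hs k m).2.2
    have c2 : 0 < (wp s k m).rho := (good_wp hs k m).2.1
    have c3 : 0 < (wp s k m).del := (good_wp hs k m).1
    calc (1 + (wp s k m).K) * (1 + 1 / (wp s k m).rho) * (1 + 1 / (wp s k m).del)
        ≤ (2 * QQ s k) * (2 * QQ s k) * (2 * QQ s k) := by gcongr
      _ = 8 * QQ s k ^ 3 := by ring
  calc (wp s k m).M x ≤ (wp s k m).M0 * (1 + 3 * 8) := h4
    _ ≤ 8 * QQ s k ^ 3 * (1 + 3 * 8) := by gcongr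
    _ = 200 * QQ s k ^ 3 := by ring

theorem dom_BW (hS : ∀ i, 1 ≤ S0 i) :
    Dom (ι := ι × ℕ) (fun p => BW p.2) (fun p _ => QQ (S0 p.1) p.2) :=
  ⟨fun p => isOpen_BW p.2, fun p _ _ => one_le_QQ (hS p.1) p.2⟩

/-- the single waves of the levels `k + 1` -/
theorem mfam_V (hS : ∀ i, 1 ≤ S0 i) :
    MFam (ι := {p : (ι × ℕ) × (Fin 2 → ℤ) // p.2 ∈ Zk (p.1.2 + 1)})
      (fun p => BW (p.1.1.2 + 1)) (fun p _ => QQ (S0 p.1.1.1) (p.1.1.2 + 1))
      (fun p x => mk (S0 p.1.1.1) (p.1.1.2 + 1) x)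
      (fun p => Vk (S0 p.1.1.1) (p.1.1.2 + 1) p.1.2) := by
  have h1 := wave_mfam.reindex
    (fun p : {p : (ι × ℕ) × (Fin 2 → ℤ) // p.2 ∈ Zk (p.1.2 + 1)} =>
      (⟨wp (S0 p.1.1.1) (p.1.1.2 + 1) p.1.2, good_wp (hS _) _ _⟩ : {w : WP // w.Good}))
  have h2 := h1.restrict (O' := fun p => BW (p.1.1.2 + 1)) (fun p => isOpen_BW _) ?_
  · have h3 := h2.changeM (M' := fun p _ => QQ (S0 p.1.1.1) (p.1.1.2 + 1)) (C' := 200)
      (fun p x _ => one_le_QQ (hS _) _) ?_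
    · exact h3.weight_le fun p x _ => le_mk _ p.2 x
    · intro p x hx
      have h4 := WP_M_le (hS p.1.1.1) p.2 hx
      refine h4.trans ?_
      have h5 := tb_le (c := 200) (k := 3) (C' := 200) (M := QQ (S0 p.1.1.1) (p.1.1.2 + 1))
        (w := 1) (by norm_num) (by norm_num) (one_le_QQ (hS _) _) zero_le_one
      rwa [mul_one, mul_one] at h5
  · rintro p x ⟨hx, -, -⟩
    change del (p.1.1.2 + 1) / 4 < x 2 + del (p.1.1.2 + 1)
    linarith

theorem card_le (s : ℝ) (hs : 1 ≤ s) (k : ℕ) : ((Zk k).card : ℝ) ≤ 1000 * QQ s k ^ 2 := by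
  have h1 := card_Zk_le_div k
  have h2 := inv_rho_le_QQ' hs (i := k) (k := k) (by omega)
  have h3 := Par.rho_pos k
  have h4 : 1000 / rho k ^ 2 = 1000 * (1 / rho k) ^ 2 := by field_simp
  rw [h4] at h1
  refine h1.trans ?_
  gcongr

/-- `W_(k+1)` -/
theorem mfam_Wsucc (hS : ∀ i, 1 ≤ S0 i) (hq : ∀ i k m, ‖q i k m‖ ≤ 2) :
    MFam (ι := ι × ℕ) (fun p => BW (p.2 + 1)) (fun p _ => QQ (S0 p.1) (p.2 + 1))
      (fun p x => mk (S0 p.1) (p.2 + 1) x) (fun p => Wk (S0 p.1) (q p.1) (p.2 + 1)) := by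
  have hV := mfam_V (ι := ι) hS
  have hc : MFam (ι := {p : (ι × ℕ) × (Fin 2 → ℤ) // p.2 ∈ Zk (p.1.2 + 1)})
      (fun p => BW (p.1.1.2 + 1)) (fun p _ => QQ (S0 p.1.1.1) (p.1.1.2 + 1))
      (fun _ _ => 1) (fun p _ => q p.1.1.1 (p.1.1.2 + 1) p.1.2) := by
    refine MFam.const hV.dom (fun _ _ _ => zero_le_one)
      (fun p : {p : (ι × ℕ) × (Fin 2 → ℤ) // p.2 ∈ Zk (p.1.2 + 1)} =>
        q p.1.1.1 (p.1.1.2 + 1) p.1.2) 2 fun p x hx => ?_
    have h1 := hq p.1.1.1 (p.1.1.2 + 1) p.1.2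
    have h2 : 1 ≤ QQ (S0 p.1.1.1) (p.1.1.2 + 1) := one_le_QQ (hS _) _
    have h3 : 1 ≤ QQ (S0 p.1.1.1) (p.1.1.2 + 1) ^ 2 := one_le_pow₀ h2
    push_cast
    linarith
  have hm := hV.mul hc
  have hm' : MFam (ι := {p : (ι × ℕ) × (Fin 2 → ℤ) // p.2 ∈ Zk (p.1.2 + 1)})
      (fun p => BW (p.1.1.2 + 1)) (fun p _ => QQ (S0 p.1.1.1) (p.1.1.2 + 1))
      (fun p x => mk (S0 p.1.1.1) (p.1.1.2 + 1) x)
      (fun p x => Vk (S0 p.1.1.1) (p.1.1.2 + 1) p.1.2 x * q p.1.1.1 (p.1.1.2 + 1) p.1.2) :=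
    hm.weight_le fun p x _ => by rw [mul_one]
  refine MFam.sum (ι := ι × ℕ) (κ := Fin 2 → ℤ) (s := fun p => Zk (p.2 + 1))
    (O := fun p => BW (p.2 + 1)) (M := fun p _ => QQ (S0 p.1) (p.2 + 1))
    (w := fun p x => mk (S0 p.1) (p.2 + 1) x)
    (f := fun p m x => Vk (S0 p.1) (p.2 + 1) m x * q p.1 (p.2 + 1) m) hm'
    ⟨fun p => isOpen_BW _, fun p _ _ => one_le_QQ (hS _) _⟩
    (fun p x _ => mk_nonneg _ _ _) (C' := 1000) fun p x hx => ?_
  have h1 := card_le (S0 p.1) (hS _) (p.2 + 1)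
  refine h1.trans ?_
  have h5 := tb_le (c := 1000) (k := 2) (C' := 1000) (M := QQ (S0 p.1) (p.2 + 1))
    (w := 1) (by norm_num) (by norm_num) (one_le_QQ (hS _) _) zero_le_one
  rwa [mul_one, mul_one] at h5

theorem Wk_zero_eq' (s : ℝ) (r : ℕ → (Fin 2 → ℤ) → H) (x : X3) :
    Wk s r 0 x = Real.exp (-s) • r 0 0 := by
  unfold Wk Zk
  rw [Finset.sum_singleton]
  change (Real.exp (-s) • (1 : H)) * r 0 0 = _
  rw [smul_mul_assoc, one_mul]

/-- `W_0` is constant -/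
theorem mfam_Wzero (hS : ∀ i, 1 ≤ S0 i) (hq : ∀ i k m, ‖q i k m‖ ≤ 2) {O : ι → Set X3}
    (hO : ∀ i, IsOpen (O i)) :
    MFam (ι := ι) O (fun i _ => QQ (S0 i) 0)
      (fun i x => mk (S0 i) 0 x) (fun i => Wk (S0 i) (q i) 0) := by
  have h : MFam (ι := ι) O (fun i _ => QQ (S0 i) 0)
      (fun i x => mk (S0 i) 0 x) (fun i _ => Real.exp (-S0 i) • q i 0 0) := by
    refine MFam.const ⟨hO, fun i _ _ => one_le_QQ (hS i) 0⟩ (fun i x _ => mk_nonneg _ _ _)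
      (fun i => Real.exp (-S0 i) • q i 0 0) 2 fun i x _ => ?_
    rw [mk_zero, norm_smul, Real.norm_of_nonneg (Real.exp_pos _).le]
    have h1 := hq i 0 0
    have h2 : 1 ≤ QQ (S0 i) 0 ^ 2 := one_le_pow₀ (one_le_QQ (hS i) 0)
    have h3 := Real.exp_pos (-S0 i)
    push_cast
    calc Real.exp (-S0 i) * ‖q i 0 0‖ ≤ Real.exp (-S0 i) * 2 := by gcongr
      _ = 2 * 1 * Real.exp (-S0 i) := by ring
      _ ≤ 2 * QQ (S0 i) 0 ^ 2 * Real.exp (-S0 i) := by gcongr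
  exact h.congr fun i x _ => Wk_zero_eq' _ _ _

/-- **all levels** -/
theorem mfam_W (hS : ∀ i, 1 ≤ S0 i) (hq : ∀ i k m, ‖q i k m‖ ≤ 2) :
    MFam (ι := ι × ℕ) (fun p => BW p.2) (fun p _ => QQ (S0 p.1) p.2)
      (fun p x => mk (S0 p.1) p.2 x) (fun p => Wk (S0 p.1) (q p.1) p.2) :=
  MFam.nat_cases (O := fun p : ι × ℕ => BW p.2) (M := fun p _ => QQ (S0 p.1) p.2)
    (w := fun p x => mk (S0 p.1) p.2 x) (f := fun p => Wk (S0 p.1) (q p.1) p.2)
    (mfam_Wzero hS hq fun _ => isOpen_BW 0) (mfam_Wsucc hS hq)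

/-- `W_(k+1)` with the quantity `QQ S0 k` -/
theorem mfam_Wsucc' (hS : ∀ i, 1 ≤ S0 i) (hq : ∀ i k m, ‖q i k m‖ ≤ 2) :
    MFam (ι := ι × ℕ) (fun p => BW (p.2 + 1)) (fun p _ => QQ (S0 p.1) p.2)
      (fun p x => mk (S0 p.1) (p.2 + 1) x) (fun p => Wk (S0 p.1) (q p.1) (p.2 + 1)) := by
  obtain ⟨C, hC⟩ := exists_QQ_succ
  exact (mfam_Wsucc hS hq).changeM (C' := C) (fun p _ _ => one_le_QQ (hS _) _)
    fun p x _ => hC _ (hS _) _

end fam

end WM

end Pool.Agent.BSS
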