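import Pool.Agent.BSS.LocalPic0
import Pool.Agent.BSS.LocalAbs
import Pool.Agent.BSS.WMod
import Pool.Agent.BSS.NoCanApp
import Pool.Agent.BSS.LMod2

/-!
# The local picture (doc H/bff03b, section 11, first half)

From the tail bound `TailIn` and the no-cancellation property `GoodQ`: `LocPic S0 q` for every
family with `S0` large.
-/

set_option maxSynthPendingDepth 3

open Set Filter
open scoped ContDiff Topology

namespace Pool.Agent.BSS

namespace LP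

open LM WM

/-- the domain of the bounded part -/
def OB (k : ℕ) : Set X3 := OO k ∩ BW (k + 1)

/-- all admissible parameters -/
abbrev UIx : Type := {p : ℝ × (ℕ → (Fin 2 → ℤ) → H) // 1 ≤ p.1 ∧ ∀ k m, ‖p.2 k m‖ ≤ 2}

/-- The tail as a tame family, for a family of parameters. -/
def TailIn {ι : Type} (S0 : ι → ℝ) (q : ι → ℕ → (Fin 2 → ℤ) → H) : Prop :=
  MFam (ι := ι × ℕ) (fun p => OB p.2) (fun p _ => QQ (S0 p.1) p.2)
    (fun p _ => Real.exp (-SS (S0 p.1) (p.2 + 1)) * ew (S0 p.1) p.2)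
    (fun p => Rk (S0 p.1) (q p.1) p.2)

/-- The tail for all admissible parameters at once. -/
def TailAll : Prop := TailIn (ι := UIx) (fun u => u.1.1) (fun u => u.1.2)

theorem isOpen_OB (k : ℕ) : IsOpen (OB k) := (isOpen_OO k).inter (isOpen_BW (k + 1))

theorem BW_succ_subset (k : ℕ) : BW (k + 1) ⊆ BW k := by
  rintro x ⟨h1, h2, h3⟩
  refine ⟨?_, h2, h3⟩
  have h4 : del (k + 1) ≤ del k := Par.rho_anti (by omega)
  linarith

theorem OO_cover {k : ℕ} {x : X3} (hx : x ∈ OO k) : x ∈ OB k ∨ x ∉ Box2 := by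
  by_cases h : x ∈ Box2
  · left
    refine ⟨hx, ?_, ?_, ?_⟩
    · have h1 := hx.2.2
      have h2 : del (k + 1) = rho (k + 2) := rfl
      have h3 := Par.rho_pos (k + 2)
      rw [h2]
      linarith
    · have := h.2.2.2.2.2
      linarith
    · intro i
      obtain ⟨a, b, c, d, e, f⟩ := h
      fin_cases i
      · change -3 < x 0 ∧ x 0 < 4
        constructor <;> linarith
      · change -3 < x 1 ∧ x 1 < 4
        constructor <;> linarith
  · exact Or.inr h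

theorem zero_of_not_Box {k : ℕ} {x : X3} (hx : x ∈ OO k) (h : x ∉ Box2) : k = 0 := by
  by_contra hk
  exact h (mem_Box2_of_OO (Nat.pos_of_ne_zero hk) hx)

theorem exp_SS_le {s : ℝ} (hs : 1 ≤ s) {k : ℕ} {x : X3} (hx : x ∈ OO k) :
    Real.exp (-SS s (k + 1)) ≤ 41 * (mk s k x + mk s (k + 1) x) := by
  have h0 : 0 < s := by linarith
  have h1 := exp_le_mk_of_OO h0 hx
  have h2 : SS s k ≤ SS s (k + 1) := SS_mono h0.le (Nat.le_succ k)
  have h3 : Real.exp (-SS s (k + 1)) ≤ Real.exp (-SS s k) := Real.exp_le_exp.2 (by linarith)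
  have h4 := mk_nonneg s (k + 1) x
  rw [div_le_iff₀ (by norm_num)] at h1
  linarith

theorem mm_le_add (s : ℝ) (k : ℕ) (x : X3) : mm s k x ≤ mk s k x + mk s (k + 1) x := by
  have h1 := mk_nonneg s k x
  have h2 := mk_nonneg s (k + 1) x
  exact max_le (by linarith) (by linarith)

theorem add_le_mm (s : ℝ) (k : ℕ) (x : X3) : mk s k x + mk s (k + 1) x ≤ 2 * mm s k x := by
  have h1 : mk s k x ≤ mm s k x := le_max_left _ _
  have h2 : mk s (k + 1) x ≤ mm s k x := le_max_right _ _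
  linarith

theorem exp_fifty_le {s : ℝ} (hs : 1 ≤ s) (k : ℕ) :
    Real.exp (-(SS s k * eta (k + 1) / 50)) ≤ ew s k := by
  unfold ew
  rw [Real.exp_le_exp]
  have := eta_SS_nonneg (by linarith : 0 < s) k
  nlinarith

/-- (ca) -/
theorem ca {s : ℝ} (hs : 1 ≤ s) {k : ℕ} {x : X3} (hx : x ∈ OO k) :
    (∀ᶠ y in 𝓝 x, chi k y = 1) ∨ mk s k x ≤ 2 * ew s k * mk s (k + 1) x := by
  rcases chi_one_or_dom hs hx with h | ⟨-, -, h⟩
  · exact Or.inl h
  · right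
    have h1 := exp_fifty_le hs k
    have h2 := mk_nonneg s (k + 1) x
    have h3 := ew_pos s k
    refine h.trans ?_
    gcongr
    linarith

/-- (cb) -/
theorem cb {s : ℝ} (hs : 1 ≤ s) {k : ℕ} {x : X3} (hx : x ∈ OO k) :
    (∀ᶠ y in 𝓝 x, Theta y = 1) ∨ (k = 0 ∧ mk s (k + 1) x ≤ 2 * ew s k * mk s k x) := by
  rcases Theta_one_or_dom hs hx with h | ⟨rfl, h⟩
  · exact Or.inl h
  · exact Or.inr ⟨rfl, h⟩

section fam

variable {ι : Type} {S0 : ι → ℝ} {q : ι → ℕ → (Fin 2 → ℤ) → H}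

theorem dom_OB (hS : ∀ i, 1 ≤ S0 i) :
    Dom (ι := ι × ℕ) (fun p => OB p.2) (fun p _ => QQ (S0 p.1) p.2) :=
  ⟨fun p => isOpen_OB p.2, fun p _ _ => one_le_QQ (hS p.1) p.2⟩

theorem mfam_chi (hS : ∀ i, 1 ≤ S0 i) :
    MFam (ι := ι × ℕ) (fun p => OB p.2) (fun p _ => QQ (S0 p.1) p.2) (fun _ _ => 1)
      (fun p => chi p.2) := by
  have h1 := (MFam_chi.reindex (fun p : ι × ℕ => p.2)).restrict (O' := fun p => OB p.2)
    (fun _ => isOpen_OB _) (fun _ => subset_univ _)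
  refine h1.changeM_le (M' := fun p _ => QQ (S0 p.1) p.2) fun p x _ => ?_
  have h2 := inv_rho_le_QQ' (hS p.1) (i := p.2 + 1) (k := p.2) (by omega)
  rw [one_div] at h2
  exact h2

theorem mfam_Theta (hS : ∀ i, 1 ≤ S0 i) :
    MFam (ι := ι × ℕ) (fun p => OB p.2) (fun p _ => QQ (S0 p.1) p.2) (fun _ _ => 1)
      (fun _ => Theta) := by
  have h1 := (MFam_Theta.reindex (fun p : ι × ℕ => p.2)).restrict (O' := fun p => OB p.2)
    (fun _ => isOpen_OB _) (fun _ => subset_univ _)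
  refine h1.changeM_le (M' := fun p _ => QQ (S0 p.1) p.2) fun p x _ => ?_
  have h2 := inv_rho_le_QQ' (hS p.1) (i := p.2 + 1) (k := p.2) (by omega)
  rw [one_div] at h2
  exact h2

theorem mfam_W0 (hS : ∀ i, 1 ≤ S0 i) (hq : ∀ i k m, ‖q i k m‖ ≤ 2) :
    MFam (ι := ι × ℕ) (fun p => OB p.2) (fun p _ => QQ (S0 p.1) p.2)
      (fun p x => mk (S0 p.1) p.2 x) (fun p => Wk (S0 p.1) (q p.1) p.2) :=
  (mfam_W hS hq).restrict (O' := fun p => OB p.2) (fun p => isOpen_OB _)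
    (fun p _ hx => BW_succ_subset _ hx.2)

theorem mfam_W1 (hS : ∀ i, 1 ≤ S0 i) (hq : ∀ i k m, ‖q i k m‖ ≤ 2) :
    MFam (ι := ι × ℕ) (fun p => OB p.2) (fun p _ => QQ (S0 p.1) p.2)
      (fun p x => mk (S0 p.1) (p.2 + 1) x) (fun p => Wk (S0 p.1) (q p.1) (p.2 + 1)) :=
  (mfam_Wsucc' hS hq).restrict (O' := fun p => OB p.2) (fun p => isOpen_OB _)
    (fun p _ hx => hx.2)

theorem tail_weight (hS : ∀ i, 1 ≤ S0 i) (hR : TailIn S0 q) (a : ℝ) (ha : 1 ≤ a) :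
    MFam (ι := ι × ℕ) (fun p => OB p.2) (fun p _ => QQ (S0 p.1) p.2)
      (fun p x => a * ew (S0 p.1) p.2 * (mk (S0 p.1) p.2 x + mk (S0 p.1) (p.2 + 1) x))
      (fun p => Rk (S0 p.1) (q p.1) p.2) := by
  refine MFam.weight (C' := 41) hR (fun p x _ => ?_) fun p x hx => ?_
  · have h1 := mk_nonneg (S0 p.1) p.2 x
    have h2 := mk_nonneg (S0 p.1) (p.2 + 1) x
    have h3 := ew_pos (S0 p.1) p.2
    positivity
  · have h1 := mk_nonneg (S0 p.1) p.2 x
    have h2 := mk_nonneg (S0 p.1) (p.2 + 1) x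
    have h3 := ew_pos (S0 p.1) p.2
    have h4 := exp_SS_le (hS p.1) hx.1
    have h5 : 1 ≤ QQ (S0 p.1) p.2 ^ 41 := one_le_pow₀ (one_le_QQ (hS p.1) p.2)
    have h6 : 0 ≤ ew (S0 p.1) p.2 * (mk (S0 p.1) p.2 x + mk (S0 p.1) (p.2 + 1) x) := by
      positivity
    calc Real.exp (-SS (S0 p.1) (p.2 + 1)) * ew (S0 p.1) p.2
        ≤ 41 * (mk (S0 p.1) p.2 x + mk (S0 p.1) (p.2 + 1) x) * ew (S0 p.1) p.2 := by gcongr
      _ = 41 * 1 * (1 * (ew (S0 p.1) p.2 *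
          (mk (S0 p.1) p.2 x + mk (S0 p.1) (p.2 + 1) x))) := by ring
      _ ≤ 41 * QQ (S0 p.1) p.2 ^ 41 * (a * (ew (S0 p.1) p.2 *
          (mk (S0 p.1) p.2 x + mk (S0 p.1) (p.2 + 1) x))) := by gcongr
      _ = _ := by push_cast; ring

theorem eqOn_OB (hS : ∀ i, 1 ≤ S0 i) (hq : ∀ i k m, ‖q i k m‖ ≤ 2) (p : ι × ℕ) :
    EqOn (uu (S0 p.1) (q p.1)) (fun x => chi p.2 x • Wk (S0 p.1) (q p.1) p.2 x +
      Theta x • Wk (S0 p.1) (q p.1) (p.2 + 1) x + Rk (S0 p.1) (q p.1) p.2 x) (OB p.2) :=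
  fun _ hx => (uu_eq_local (hS p.1) (hq p.1) hx.1).self_of_nhds

/-- the two zones of `OO k` -/
theorem glue {w : ι × ℕ → X3 → ℝ} {f : ι × ℕ → X3 → H}
    (h1 : MFam (ι := ι × ℕ) (fun p => OB p.2) (fun p _ => QQ (S0 p.1) p.2) w f)
    (h2 : MFam (ι := ι × ℕ) (fun p => OO p.2 ∩ Box2ᶜ) (fun p _ => QQ (S0 p.1) p.2) w f) :
    MFam (ι := ι × ℕ) (fun p => OO p.2) (fun p _ => QQ (S0 p.1) p.2) w f := by
  refine (h1.union h2).restrict (fun p => isOpen_OO _) fun p x hx => ?_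
  rcases OO_cover hx with h | h
  · exact Or.inl h
  · exact Or.inr ⟨hx, h⟩

theorem isOpen_OC (k : ℕ) : IsOpen (OO k ∩ Box2ᶜ) :=
  (isOpen_OO k).inter isClosed_Box2.isOpen_compl

theorem dom_OC (hS : ∀ i, 1 ≤ S0 i) :
    Dom (ι := ι × ℕ) (fun p => OO p.2 ∩ Box2ᶜ) (fun p _ => QQ (S0 p.1) p.2) :=
  ⟨fun p => isOpen_OC p.2, fun p _ _ => one_le_QQ (hS p.1) p.2⟩

/-- **(a)** -/
theorem pic_a (hS : ∀ i, 1 ≤ S0 i) (hq : ∀ i k m, ‖q i k m‖ ≤ 2) (hR : TailIn S0 q) :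
    MFam (ι := ι × ℕ) (fun p => OO p.2) (fun p _ => QQ (S0 p.1) p.2)
      (fun p x => mm (S0 p.1) p.2 x) (fun p => uu (S0 p.1) (q p.1)) := by
  refine glue ?_ ?_
  · have h := LA.local_u (ι := ι × ℕ) (O := fun p => OB p.2) (M := fun p _ => QQ (S0 p.1) p.2)
      (m0 := fun p x => mk (S0 p.1) p.2 x) (m1 := fun p x => mk (S0 p.1) (p.2 + 1) x)
      (e := fun p _ => 1 * ew (S0 p.1) p.2) (a := fun p => chi p.2) (b := fun _ => Theta)
      (A := fun p => Wk (S0 p.1) (q p.1) p.2) (B := fun p => Wk (S0 p.1) (q p.1) (p.2 + 1))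
      (R := fun p => Rk (S0 p.1) (q p.1) p.2) (u := fun p => uu (S0 p.1) (q p.1))
      (mfam_W0 hS hq) (mfam_W1 hS hq) (tail_weight hS hR 1 le_rfl) (mfam_chi hS)
      (mfam_Theta hS) (fun p x _ => by
        rw [one_mul]
        exact ew_le_one (by have := hS p.1; linarith) _) (eqOn_OB hS hq)
    refine h.weight (C' := 2) (fun p x _ => mm_nonneg _ _ _) fun p x _ => ?_
    have h1 := add_le_mm (S0 p.1) p.2 x
    have h2 : 1 ≤ QQ (S0 p.1) p.2 ^ 2 := one_le_pow₀ (one_le_QQ (hS p.1) p.2)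
    have h3 := mm_nonneg (S0 p.1) p.2 x
    push_cast
    nlinarith
  · have h : MFam (ι := ι × ℕ) (fun p => OO p.2 ∩ Box2ᶜ) (fun p _ => QQ (S0 p.1) p.2)
        (fun p x => mm (S0 p.1) p.2 x) (fun p _ => Real.exp (-S0 p.1) • q p.1 0 0) := by
      refine MFam.const (dom_OC hS) (fun p x _ => mm_nonneg _ _ _)
        (fun p : ι × ℕ => Real.exp (-S0 p.1) • q p.1 0 0) 2 fun p x hx => ?_
      have hk := zero_of_not_Box hx.1 hx.2
      obtain ⟨i, k⟩ := p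
      simp only at hk hx ⊢
      subst hk
      rw [norm_smul, Real.norm_of_nonneg (Real.exp_pos _).le]
      have h1 := hq i 0 0
      have h2 : 1 ≤ QQ (S0 i) 0 ^ 2 := one_le_pow₀ (one_le_QQ (hS i) 0)
      have h3 := Real.exp_pos (-S0 i)
      have h4 : Real.exp (-S0 i) ≤ mm (S0 i) 0 x := by
        rw [← mk_zero (S0 i) x]
        exact le_max_left _ _
      have h5 := mm_nonneg (S0 i) 0 x
      push_cast
      calc Real.exp (-S0 i) * ‖q i 0 0‖ ≤ mm (S0 i) 0 x * 2 := by gcongr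
        _ = 2 * 1 * mm (S0 i) 0 x := by ring
        _ ≤ 2 * QQ (S0 i) 0 ^ 2 * mm (S0 i) 0 x := by gcongr
    refine h.congr fun p x hx => ?_
    exact LM.uu_out _ _ hx.2

/-- **(c)** -/
theorem pic_c (hS : ∀ i, 1 ≤ S0 i) (hq : ∀ i k m, ‖q i k m‖ ≤ 2) (hR : TailIn S0 q) :
    MFam (ι := ι × ℕ) (fun p => OO p.2) (fun p _ => QQ (S0 p.1) p.2)
      (fun p x => ew (S0 p.1) p.2 * mm (S0 p.1) p.2 x)
      (fun p x => dirac (uu (S0 p.1) (q p.1)) x) := by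
  refine glue ?_ ?_
  · have h := LA.local_dirac (ι := ι × ℕ) (O := fun p => OB p.2)
      (M := fun p _ => QQ (S0 p.1) p.2)
      (m0 := fun p x => mk (S0 p.1) p.2 x) (m1 := fun p x => mk (S0 p.1) (p.2 + 1) x)
      (e := fun p _ => 2 * ew (S0 p.1) p.2) (a := fun p => chi p.2) (b := fun _ => Theta)
      (A := fun p => Wk (S0 p.1) (q p.1) p.2) (B := fun p => Wk (S0 p.1) (q p.1) (p.2 + 1))
      (R := fun p => Rk (S0 p.1) (q p.1) p.2) (u := fun p => uu (S0 p.1) (q p.1))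
      (mfam_W0 hS hq) (mfam_W1 hS hq) (tail_weight hS hR 2 one_le_two) (mfam_chi hS)
      (mfam_Theta hS) (fun p x _ => by have := ew_pos (S0 p.1) p.2; positivity)
      (fun p x hx => dirac_Wk _ _ _ (OO_hz hx.1))
      (fun p x hx => dirac_Wk _ _ _ (OO_hz_succ hx.1))
      (fun p x hx => ca (hS p.1) hx.1)
      (fun p x hx => by
        rcases cb (hS p.1) hx.1 with h | ⟨-, h⟩
        · exact Or.inl h
        · exact Or.inr h) (eqOn_OB hS hq)
    refine h.weight (C' := 4) (fun p x _ => ?_) fun p x _ => ?_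
    · exact mul_nonneg (ew_pos _ _).le (mm_nonneg _ _ _)
    · have h1 := add_le_mm (S0 p.1) p.2 x
      have h2 : 1 ≤ QQ (S0 p.1) p.2 ^ 4 := one_le_pow₀ (one_le_QQ (hS p.1) p.2)
      have h3 := mm_nonneg (S0 p.1) p.2 x
      have h4 := ew_pos (S0 p.1) p.2
      have h5 : 0 ≤ ew (S0 p.1) p.2 * mm (S0 p.1) p.2 x := by positivity
      calc 2 * ew (S0 p.1) p.2 * (mk (S0 p.1) p.2 x + mk (S0 p.1) (p.2 + 1) x)
          ≤ 2 * ew (S0 p.1) p.2 * (2 * mm (S0 p.1) p.2 x) := by gcongr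
        _ = 4 * 1 * (ew (S0 p.1) p.2 * mm (S0 p.1) p.2 x) := by ring
        _ ≤ 4 * QQ (S0 p.1) p.2 ^ 4 * (ew (S0 p.1) p.2 * mm (S0 p.1) p.2 x) := by gcongr
        _ = _ := by push_cast; ring
  · have h : MFam (ι := ι × ℕ) (fun p => OO p.2 ∩ Box2ᶜ) (fun p _ => QQ (S0 p.1) p.2)
        (fun p x => ew (S0 p.1) p.2 * mm (S0 p.1) p.2 x) (fun _ _ => (0 : H)) :=
      MFam.zero (dom_OC hS) fun p x _ => mul_nonneg (ew_pos _ _).le (mm_nonneg _ _ _)
    refine h.congr fun p x hx => ?_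
    have h1 : uu (S0 p.1) (q p.1) =ᶠ[𝓝 x] fun _ => Real.exp (-S0 p.1) • q p.1 0 0 := by
      filter_upwards [isClosed_Box2.isOpen_compl.mem_nhds hx.2] with y hy
      exact LM.uu_out _ _ hy
    change dirac (uu (S0 p.1) (q p.1)) x = 0
    unfold dirac pd
    rw [h1.fderiv_eq, fderiv_fun_const]
    simp [J1, J2, J3]

end fam

end LP

end Pool.Agent.BSS
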