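import Pool.Agent.BSS.WField
import Pool.Agent.BSS.Cent
import Pool.Agent.BSS.PsiCut

/-!
# The local form of `u` (module A5b, set facts; doc H/bff03b, section 11)

On `OO k` (not in `pocket_k`, in `UU_j` for `j < k`, `t > - c_k`):
`u = chi_k W_k + Theta W_(k+1) + R_k` near every point, `R_k` the sum of the terms of the scales
`≥ k + 2`; bounds of `m_k` from above and from below.
-/

set_option maxSynthPendingDepth 3

open Set Filter Topology
open scoped ContDiff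

namespace Pool.Agent.BSS

/-- The sum of the terms of the scales `≥ k + 2`. -/
noncomputable def Rk (S0 : ℝ) (q : ℕ → (Fin 2 → ℤ) → H) (k : ℕ) (x : X3) : H :=
  ∑' j, uk S0 q (j + (k + 2)) x

/-! ### `Theta` -/

theorem dd_succ_lt_one (k : ℕ) : dd (k + 1) < 1 := by
  have h1 := dd_succ_le k
  have h2 := rho_le_one' k
  linarith

theorem Theta_near {x : X3} (h0 : -1 < x 0) (h0' : x 0 < 2) (h1 : -1 < x 1) (h1' : x 1 < 2)
    (h2 : -1 < x 2) (h2' : x 2 < 1) : ∀ᶠ y in 𝓝 x, Theta y = 1 := by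
  have c : ∀ i : Fin 3, Continuous fun y : X3 => y i := fun i => continuous_apply i
  filter_upwards [(isOpen_lt continuous_const (c 0)).mem_nhds h0,
    (isOpen_lt (c 0) continuous_const).mem_nhds h0',
    (isOpen_lt continuous_const (c 1)).mem_nhds h1,
    (isOpen_lt (c 1) continuous_const).mem_nhds h1',
    (isOpen_lt continuous_const (c 2)).mem_nhds h2,
    (isOpen_lt (c 2) continuous_const).mem_nhds h2'] with y a b c d e f
  exact Theta_eq_one (le_of_lt a) (le_of_lt b) (le_of_lt c) (le_of_lt d) (le_of_lt e) (le_of_lt f)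

theorem mem_box_of_UU {k : ℕ} {x : X3} (h : x ∈ UU k) :
    0 ≤ x 0 ∧ x 0 ≤ 1 ∧ 0 ≤ x 1 ∧ x 1 ≤ 1 ∧ x 2 < 1 := by
  obtain ⟨h1, _, h3⟩ := h
  have h4 := EE_anti (Nat.zero_le k) h1
  have h5 := (mem_EE_zero _).1 h4
  have h6 := dd_succ_lt_one k
  have h7 := dd_pos (k + 1)
  have a0 := h5 0
  have a1 := h5 1
  simp only [pr, Matrix.cons_val_zero, Matrix.cons_val_one] at a0 a1
  exact ⟨a0.1, a0.2, a1.1, a1.2, by linarith⟩

theorem Theta_near_of_UU {k : ℕ} {x : X3} (h : x ∈ UU k) (ht : -1 < x 2) :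
    ∀ᶠ y in 𝓝 x, Theta y = 1 := by
  obtain ⟨a, b, c, d, e⟩ := mem_box_of_UU h
  exact Theta_near (by linarith) (by linarith) (by linarith) (by linarith) ht e

/-- For `t > -1`: `Theta = 1` near `x`, or `alpha_0 beta_0 = 0` near `x`. -/
theorem Theta_alt {x : X3} (ht : -1 < x 2) :
    (∀ᶠ y in 𝓝 x, Theta y = 1) ∨ (∀ᶠ y in 𝓝 x, alpha 0 (pr y) * beta 0 (y 2) = 0) := by
  by_cases h2 : x 2 < 1
  · by_cases hE : pr x ∈ EE 0
    · left
      have h5 := (mem_EE_zero _).1 hE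
      have a0 := h5 0
      have a1 := h5 1
      simp only [pr, Matrix.cons_val_zero, Matrix.cons_val_one] at a0 a1
      exact Theta_near (by linarith [a0.1]) (by linarith [a0.2]) (by linarith [a1.1])
        (by linarith [a1.2]) ht h2
    · right
      have h3 : ∀ᶠ y in 𝓝 x, pr y ∉ EE 0 :=
        (((isClosed_EE 0).preimage continuous_pr).isOpen_compl).mem_nhds hE
      filter_upwards [h3] with y hy
      rw [alpha_of_notMem hy, zero_mul]
  · right
    have h3 : ∀ᶠ y : X3 in 𝓝 x, dd 1 < y 2 := by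
      refine (isOpen_lt continuous_const (continuous_apply (2 : Fin 3))).mem_nhds ?_
      have := dd_succ_lt_one 0
      show dd 1 < x 2
      push Not at h2
      exact this.trans_le h2
    filter_upwards [h3] with y hy
    rw [beta_eq_zero_iff.2 (le_of_lt hy), mul_zero]

/-- `chi_0 = 1 - Theta alpha_0 beta_0` near every point with `t > -1`. -/
theorem chi_zero_near {x : X3} (ht : -1 < x 2) :
    ∀ᶠ y in 𝓝 x, 1 - Th y * (alp 0 (pr y) * bet 0 (y 2)) = chi 0 y := by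
  rcases Theta_alt ht with h | h
  · filter_upwards [h] with y hy
    show 1 - Theta y * (alpha 0 (pr y) * beta 0 (y 2)) = 1 - alpha 0 (pr y) * beta 0 (y 2)
    rw [hy, one_mul]
  · filter_upwards [h] with y hy
    show 1 - Theta y * (alpha 0 (pr y) * beta 0 (y 2)) = 1 - alpha 0 (pr y) * beta 0 (y 2)
    rw [hy, mul_zero]

/-! ### the terms near a point of `OO k` -/

theorem OO_neg_one_lt {k : ℕ} {x : X3} (hx : x ∈ OO k) : -1 < x 2 := by
  have h1 := hx.2.2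
  have h2 := rho_le_one' (k + 2)
  have h3 := rho_pos (k + 2)
  linarith

theorem OO_del_lt {k : ℕ} {x : X3} (hx : x ∈ OO k) : -(del (k + 1) / 4) < x 2 := by
  have h1 := hx.2.2
  have h3 := rho_pos (k + 2)
  show -(rho (k + 2) / 4) < x 2
  linarith

theorem OO_del_lt' {k : ℕ} {x : X3} (hx : x ∈ OO k) : -(del k / 4) < x 2 := by
  have h1 := OO_del_lt hx
  have h2 : rho (k + 2) ≤ rho (k + 1) := rho_anti' (Nat.le_succ _)
  have h3 : del (k + 1) = rho (k + 2) := rfl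
  have h4 : del k = rho (k + 1) := rfl
  rw [h3] at h1
  rw [h4]
  linarith

theorem psi_near {k : ℕ} {x : X3} (h : -(del k / 4) < x 2) : ∀ᶠ y : X3 in 𝓝 x, psi k (y 2) = 1 := by
  filter_upwards [(isOpen_lt continuous_const (continuous_apply (2 : Fin 3))).mem_nhds h] with y hy
  exact psi_eq_one_iff.2 (le_of_lt hy)

theorem chi_zero_of_lt {k j : ℕ} {x : X3} (hx : x ∈ OO k) (hj : j < k) :
    ∀ᶠ y in 𝓝 x, chi j y = 0 := by
  filter_upwards [(isOpen_UU j).mem_nhds (hx.2.1 j hj)] with y hy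
  exact chi_eq_zero_of_mem_UU le_rfl hy

theorem chi_one_of_lt {k j : ℕ} {x : X3} (hx : x ∈ OO k) (hj : k < j) :
    ∀ᶠ y in 𝓝 x, chi j y = 1 := by
  filter_upwards [(isClosed_pocket k).isOpen_compl.mem_nhds hx.1] with y hy
  exact chi_eq_one_of_notMem_pocket hj hy

theorem uk_lt_near (S0 : ℝ) (q : ℕ → (Fin 2 → ℤ) → H) {k j : ℕ} {x : X3} (hx : x ∈ OO k)
    (hj : j < k) : ∀ᶠ y in 𝓝 x, uk S0 q j y = 0 := by
  cases j with
  | zero =>
    filter_upwards [chi_zero_of_lt hx hj, chi_zero_near (OO_neg_one_lt hx)] with y h1 h2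
    show (1 - Th y * (alp 0 (pr y) * bet 0 (y 2))) • Wk S0 q 0 y = 0
    rw [h2, h1, zero_smul]
  | succ j =>
    filter_upwards [chi_zero_of_lt hx hj] with y h1
    show (psk (j + 1) (y 2) * chi (j + 1) y * Th y) • Wk S0 q (j + 1) y = 0
    rw [h1, mul_zero, zero_mul, zero_smul]

theorem Theta_near_of_OO {k : ℕ} {x : X3} (hk : 0 < k) (hx : x ∈ OO k) :
    ∀ᶠ y in 𝓝 x, Theta y = 1 :=
  Theta_near_of_UU (hx.2.1 (k - 1) (by omega)) (OO_neg_one_lt hx)

theorem uk_self_near (S0 : ℝ) (q : ℕ → (Fin 2 → ℤ) → H) {k : ℕ} {x : X3} (hx : x ∈ OO k) :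
    ∀ᶠ y in 𝓝 x, uk S0 q k y = chi k y • Wk S0 q k y := by
  cases k with
  | zero =>
    filter_upwards [chi_zero_near (OO_neg_one_lt hx)] with y h2
    show (1 - Th y * (alp 0 (pr y) * bet 0 (y 2))) • Wk S0 q 0 y = _
    rw [h2]
  | succ k =>
    filter_upwards [psi_near (OO_del_lt' hx), Theta_near_of_OO k.succ_pos hx] with y h1 h2
    show (psi (k + 1) (y 2) * chi (k + 1) y * Theta y) • Wk S0 q (k + 1) y = _
    rw [h1, h2, one_mul, mul_one]

theorem uk_succ_near (S0 : ℝ) (q : ℕ → (Fin 2 → ℤ) → H) {k : ℕ} {x : X3} (hx : x ∈ OO k) :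
    ∀ᶠ y in 𝓝 x, uk S0 q (k + 1) y = Theta y • Wk S0 q (k + 1) y := by
  filter_upwards [psi_near (OO_del_lt hx), chi_one_of_lt hx (Nat.lt_succ_self k)] with y h1 h2
  show (psi (k + 1) (y 2) * chi (k + 1) y * Theta y) • Wk S0 q (k + 1) y = _
  rw [h1, h2, one_mul, one_mul]

/-! ### summability -/

theorem norm_uk_succ_le (S0 : ℝ) {q : ℕ → (Fin 2 → ℤ) → H} (k : ℕ) (y : X3) :
    ‖uk S0 q (k + 1) y‖ ≤ ‖Wk S0 q (k + 1) y‖ := by
  show ‖(psi (k + 1) (y 2) * chi (k + 1) y * Theta y) • Wk S0 q (k + 1) y‖ ≤ _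
  rw [norm_smul]
  have h1 : ‖psi (k + 1) (y 2) * chi (k + 1) y * Theta y‖ ≤ 1 := by
    have a1 := psi_nonneg (k + 1) (y 2)
    have a2 := psi_le_one (k + 1) (y 2)
    have b1 := chi_nonneg (k + 1) y
    have b2 := chi_le_one (k + 1) y
    have c1 := Theta_nonneg y
    have c2 := Theta_le_one y
    rw [Real.norm_of_nonneg (by positivity)]
    exact mul_le_one₀ (mul_le_one₀ a2 b1 b2) c1 c2
  calc _ ≤ 1 * ‖Wk S0 q (k + 1) y‖ := mul_le_mul_of_nonneg_right h1 (norm_nonneg _)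
    _ = _ := one_mul _

theorem summable_norm_uk {S0 : ℝ} (hS : 1 ≤ S0) {q : ℕ → (Fin 2 → ℤ) → H}
    (hq : ∀ k m, ‖q k m‖ ≤ 2) (y : X3) : Summable fun k => ‖uk S0 q k y‖ := by
  have hS0 : 0 < S0 := by linarith
  rw [← summable_nat_add_iff 1]
  have hgeo : Summable fun k : ℕ => ((1 : ℝ) / 2) ^ (k + 1) :=
    (summable_nat_add_iff 1).2 (summable_geometric_of_lt_one (by norm_num) (by norm_num))
  refine Summable.of_norm_bounded_eventually_nat hgeo ?_
  filter_upwards [Par.tendsto_rho.eventually (gt_mem_nhds zero_lt_one),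
    master' S0 hS0 5 8000] with k _ hm
  rw [norm_norm]
  by_cases hz : -(del (k + 1) / 2) ≤ y 2
  · have h1 := norm_uk_succ_le S0 (q := q) k y
    have h2 := norm_Wk_le S0 (q := q) (k := k + 1) (fun m _ => hq _ m) y
    have h3 := card_Zk_le_div (k + 1)
    have h4 := mk_succ_le_exp hS0 k hz
    have hr1 := rho_pos (k + 1)
    have hr2 : 0 < del (k + 1) := Par.del_pos _
    have hQ := QQ_pos hS0 k
    have hQ1 : 1 / rho (k + 1) ≤ QQ S0 k := inv_rho_le_QQ' hS (by omega)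
    have hQ2 : 1 / del (k + 1) ≤ QQ S0 k := inv_rho_le_QQ' hS (i := k + 2) (by omega)
    have h5 : 1000 / rho (k + 1) ^ 2 ≤ 1000 * QQ S0 k ^ 2 := by
      have : 1000 / rho (k + 1) ^ 2 = 1000 * (1 / rho (k + 1)) ^ 2 := by
        field_simp
      rw [this]
      gcongr
    have h6 : 4 / del (k + 1) ^ 2 ≤ 4 * QQ S0 k ^ 2 := by
      have : 4 / del (k + 1) ^ 2 = 4 * (1 / del (k + 1)) ^ 2 := by
        field_simp
      rw [this]
      gcongr
    have hm0 := mk_nonneg S0 (k + 1) y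
    have he : Real.exp (-(SS S0 (k + 1) / 2)) ≤ Real.exp (-(eta (k + 1) * SS S0 k / 1000)) := by
      rw [Real.exp_le_exp]
      have a1 := SS_mono hS0.le (Nat.le_succ k)
      have a2 := SS_pos hS0 k
      have a3 := Par.eta_le (k + 1)
      have a4 := Par.eta_pos (k + 1)
      have a5 : eta (k + 1) * SS S0 k ≤ 1 / 100 * SS S0 k := mul_le_mul_of_nonneg_right a3 a2.le
      have a6 : SS S0 k ≤ SS S0 (k + 1) := a1
      linarith
    have h7 : mk S0 (k + 1) y ≤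
        4 * QQ S0 k ^ 2 * Real.exp (-(eta (k + 1) * SS S0 k / 1000)) := by
      refine h4.trans ?_
      exact mul_le_mul h6 he (Real.exp_pos _).le (by positivity)
    have h8 : ‖uk S0 q (k + 1) y‖ ≤ 2 * (1000 * QQ S0 k ^ 2) *
        (4 * QQ S0 k ^ 2 * Real.exp (-(eta (k + 1) * SS S0 k / 1000))) := by
      refine (h1.trans h2).trans ?_
      refine mul_le_mul ?_ h7 hm0 (by positivity)
      linarith
    refine h8.trans ?_
    rw [Real.exp_neg]
    have hE := Real.exp_pos (eta (k + 1) * SS S0 k / 1000)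
    have h9 := two_pow_le_QQ hS k
    have h10 : 2 * (1000 * QQ S0 k ^ 2) * (4 * QQ S0 k ^ 2 *
        (Real.exp (eta (k + 1) * SS S0 k / 1000))⁻¹) =
        8000 * QQ S0 k ^ 4 / Real.exp (eta (k + 1) * SS S0 k / 1000) := by
      field_simp
      ring
    rw [h10, div_pow, one_pow, div_le_div_iff₀ hE (by positivity), one_mul]
    refine le_trans ?_ hm
    calc 8000 * QQ S0 k ^ 4 * 2 ^ (k + 1) ≤ 8000 * QQ S0 k ^ 4 * QQ S0 k := by
          gcongr
      _ = 8000 * QQ S0 k ^ 5 := by ring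
  · push Not at hz
    have h1 : uk S0 q (k + 1) y = 0 := by
      show (psi (k + 1) (y 2) * chi (k + 1) y * Theta y) • Wk S0 q (k + 1) y = 0
      rw [psi_eq_zero_iff.2 hz.le, zero_mul, zero_mul, zero_smul]
    rw [h1, norm_zero]
    positivity

theorem summable_uk {S0 : ℝ} (hS : 1 ≤ S0) {q : ℕ → (Fin 2 → ℤ) → H}
    (hq : ∀ k m, ‖q k m‖ ≤ 2) (y : X3) : Summable fun k => uk S0 q k y :=
  (summable_norm_uk hS hq y).of_norm

/-! ### the local form -/

/-- **The local form of `u`**: near a point of `OO k`, `u = chi_k W_k + Theta W_(k+1) + R_k`. -/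
theorem uu_eq_local {S0 : ℝ} (hS : 1 ≤ S0) {q : ℕ → (Fin 2 → ℤ) → H} (hq : ∀ k m, ‖q k m‖ ≤ 2)
    {k : ℕ} {x : X3} (hx : x ∈ OO k) :
    uu S0 q =ᶠ[𝓝 x] fun y => chi k y • Wk S0 q k y + Theta y • Wk S0 q (k + 1) y +
      Rk S0 q k y := by
  have h1 : ∀ᶠ y in 𝓝 x, ∀ j ∈ Finset.range k, uk S0 q j y = 0 :=
    (Filter.eventually_all_finset _).2 fun j hj => uk_lt_near S0 q hx (Finset.mem_range.1 hj)
  filter_upwards [h1, uk_self_near S0 q hx, uk_succ_near S0 q hx] with y a b c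
  have h2 := (summable_uk hS hq y).sum_add_tsum_nat_add (k + 2)
  unfold uu
  rw [← h2, Finset.sum_range_succ, Finset.sum_range_succ, Finset.sum_eq_zero a, zero_add, b, c]
  rfl

/-- For `k ≥ 1` there is no `Theta`. -/
theorem uu_eq_local_succ {S0 : ℝ} (hS : 1 ≤ S0) {q : ℕ → (Fin 2 → ℤ) → H}
    (hq : ∀ k m, ‖q k m‖ ≤ 2) {k : ℕ} (hk : 0 < k) {x : X3} (hx : x ∈ OO k) :
    uu S0 q =ᶠ[𝓝 x] fun y => chi k y • Wk S0 q k y + Wk S0 q (k + 1) y + Rk S0 q k y := by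
  filter_upwards [uu_eq_local hS hq hx, Theta_near_of_OO hk hx] with y h1 h2
  rw [h1, h2, one_smul]

/-- For `k = 0`: either `Theta = 1` near `x` and `u = chi_0 W_0 + W_1 + R_0`, or `chi_0 = 1` near
`x` and `u = Theta W_1 + W_0 + R_0`. -/
theorem uu_eq_local_zero {S0 : ℝ} (hS : 1 ≤ S0) {q : ℕ → (Fin 2 → ℤ) → H}
    (hq : ∀ k m, ‖q k m‖ ≤ 2) {x : X3} (hx : x ∈ OO 0) :
    (uu S0 q =ᶠ[𝓝 x] fun y => chi 0 y • Wk S0 q 0 y + Wk S0 q 1 y + Rk S0 q 0 y) ∨
    ((∀ᶠ y in 𝓝 x, chi 0 y = 1) ∧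
      uu S0 q =ᶠ[𝓝 x] fun y => Theta y • Wk S0 q 1 y + Wk S0 q 0 y + Rk S0 q 0 y) := by
  rcases Theta_alt (OO_neg_one_lt hx) with h | h
  · left
    filter_upwards [uu_eq_local hS hq hx, h] with y h1 h2
    rw [h1, h2, one_smul]
  · right
    have h3 : ∀ᶠ y in 𝓝 x, chi 0 y = 1 := by
      filter_upwards [h] with y hy
      show 1 - alpha 0 (pr y) * beta 0 (y 2) = 1
      rw [hy, sub_zero]
    refine ⟨h3, ?_⟩
    filter_upwards [uu_eq_local hS hq hx, h3] with y h1 h2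
    rw [h1, h2, one_smul]
    abel

/-- Outside of the closed support of `Theta`, `u` is the constant `W_0`. -/
theorem uu_eq_of_Theta_eq_zero {S0 : ℝ} {q : ℕ → (Fin 2 → ℤ) → H} {x : X3}
    (h : Theta x = 0) : uu S0 q x = Wk S0 q 0 x := by
  unfold uu
  rw [tsum_eq_single 0]
  · show (1 - Theta x * (alpha 0 (pr x) * beta 0 (x 2))) • Wk S0 q 0 x = _
    rw [h, zero_mul, sub_zero, one_smul]
  · intro k hk
    obtain ⟨j, rfl⟩ := Nat.exists_eq_succ_of_ne_zero hk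
    show (psi (j + 1) (x 2) * chi (j + 1) x * Theta x) • Wk S0 q (j + 1) x = 0
    rw [h, mul_zero, zero_smul]

theorem Wk_zero_eq (S0 : ℝ) (q : ℕ → (Fin 2 → ℤ) → H) (x : X3) :
    Wk S0 q 0 x = Real.exp (-S0) • q 0 0 := by
  unfold Wk
  simp [Zk, Vk]

/-! ### bounds of `m_k` -/

theorem mem_Box2_of_OO {k : ℕ} (hk : 0 < k) {x : X3} (hx : x ∈ OO k) : x ∈ Box2 := by
  obtain ⟨a, b, c, d, e⟩ := mem_box_of_UU (hx.2.1 (k - 1) (by omega))
  have f := OO_neg_one_lt hx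
  exact ⟨by linarith, by linarith, by linarith, by linarith, by linarith, by linarith⟩

theorem OO_hz {k : ℕ} {x : X3} (hx : x ∈ OO k) : 0 < x 2 + del k := by
  have h1 := OO_del_lt' hx
  have h2 : 0 < del k := Par.del_pos k
  linarith

theorem OO_hz_succ {k : ℕ} {x : X3} (hx : x ∈ OO k) : 0 < x 2 + del (k + 1) := by
  have h1 := OO_del_lt hx
  have h2 : 0 < del (k + 1) := Par.del_pos (k + 1)
  linarith

/-- Lower bound of `m_k` on `OO k`. -/
theorem exp_le_mk_of_OO {S0 : ℝ} (hS : 0 < S0) {k : ℕ} {x : X3} (hx : x ∈ OO k) :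
    Real.exp (-SS S0 k) / 41 ≤ mk S0 k x := by
  rcases Nat.eq_zero_or_pos k with rfl | hk
  · rw [mk_zero, SS_zero]
    have := Real.exp_pos (-S0)
    linarith
  · obtain ⟨m, hm⟩ := Zk_nonempty k
    exact (exp_le_norm_Vk hS k hm (mem_Box2_of_OO hk hx) (OO_hz hx)).trans (le_mk S0 hm x)

theorem mk_le_QQ {S0 : ℝ} (hS : 1 ≤ S0) {k i : ℕ} (hi : i ≤ k + 3) {x : X3}
    (hz : -(del i / 2) ≤ x 2) :
    mk S0 i x ≤ 4 * QQ S0 k ^ 2 * Real.exp (-(SS S0 i / 2)) := by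
  have hS0 : 0 < S0 := by linarith
  have hQ1 := one_le_QQ hS k
  cases i with
  | zero =>
    rw [mk_zero, SS_zero]
    have h1 : Real.exp (-S0) ≤ Real.exp (-(S0 / 2)) := by
      rw [Real.exp_le_exp]
      linarith
    have h2 : 1 ≤ 4 * QQ S0 k ^ 2 := by nlinarith
    nlinarith [Real.exp_pos (-(S0 / 2))]
  | succ i =>
    refine (mk_succ_le_exp hS0 i hz).trans ?_
    have hr2 : 0 < del (i + 1) := Par.del_pos _
    have hQ2 : 1 / del (i + 1) ≤ QQ S0 k := inv_rho_le_QQ' hS (i := i + 2) (by omega)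
    have h6 : 4 / del (i + 1) ^ 2 ≤ 4 * QQ S0 k ^ 2 := by
      have : 4 / del (i + 1) ^ 2 = 4 * (1 / del (i + 1)) ^ 2 := by
        field_simp
      rw [this]
      gcongr
    exact mul_le_mul_of_nonneg_right h6 (Real.exp_pos _).le

/-- Upper bound of `max (m_k, m_(k+1))` on `OO k`. -/
theorem max_mk_le_of_OO {S0 : ℝ} (hS : 1 ≤ S0) {k : ℕ} {x : X3} (hx : x ∈ OO k) :
    max (mk S0 k x) (mk S0 (k + 1) x) ≤ 4 * QQ S0 k ^ 2 * Real.exp (-(SS S0 k / 2)) := by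
  have hS0 : 0 < S0 := by linarith
  have h1 := OO_del_lt' hx
  have h2 := OO_del_lt hx
  have d1 : 0 < del k := Par.del_pos k
  have d2 : 0 < del (k + 1) := Par.del_pos (k + 1)
  refine max_le (mk_le_QQ hS (by omega) (by linarith)) ?_
  refine (mk_le_QQ hS (k := k) (by omega) (by linarith)).trans ?_
  have h3 : SS S0 k ≤ SS S0 (k + 1) := SS_mono hS0.le (Nat.le_succ k)
  have h4 : Real.exp (-(SS S0 (k + 1) / 2)) ≤ Real.exp (-(SS S0 k / 2)) := by
    rw [Real.exp_le_exp]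
    linarith
  exact mul_le_mul_of_nonneg_left h4 (by positivity)

theorem max_mk_pos_of_OO {S0 : ℝ} (hS : 0 < S0) {k : ℕ} {x : X3} (hx : x ∈ OO k) :
    0 < max (mk S0 k x) (mk S0 (k + 1) x) := by
  have h1 := exp_le_mk_of_OO hS hx
  have h2 := Real.exp_pos (-SS S0 k)
  exact lt_max_of_lt_left (by linarith)

/-- Input (d): `m^2 ≤ C Q^C exp (- eta S / 400)`. -/
theorem max_mk_sq_le {S0 : ℝ} (hS : 1 ≤ S0) {k : ℕ} {x : X3} (hx : x ∈ OO k) :
    max (mk S0 k x) (mk S0 (k + 1) x) ^ 2 ≤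
      16 * QQ S0 k ^ 4 * Real.exp (-(eta (k + 1) * SS S0 k / 400)) := by
  have hS0 : 0 < S0 := by linarith
  have h1 := max_mk_le_of_OO hS hx
  have h0 := (max_mk_pos_of_OO hS0 hx).le
  have h2 : max (mk S0 k x) (mk S0 (k + 1) x) ^ 2 ≤
      (4 * QQ S0 k ^ 2 * Real.exp (-(SS S0 k / 2))) ^ 2 := pow_le_pow_left₀ h0 h1 2
  refine h2.trans ?_
  have h3 : (4 * QQ S0 k ^ 2 * Real.exp (-(SS S0 k / 2))) ^ 2 =
      16 * QQ S0 k ^ 4 * Real.exp (-SS S0 k) := by
    rw [mul_pow, ← Real.exp_nat_mul]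
    have : ((2 : ℕ) : ℝ) * -(SS S0 k / 2) = -SS S0 k := by
      push_cast
      ring
    rw [this]
    ring
  rw [h3]
  have hQ := QQ_pos hS0 k
  refine mul_le_mul_of_nonneg_left ?_ (by positivity)
  rw [Real.exp_le_exp]
  have a2 := SS_pos hS0 k
  have a3 := Par.eta_le (k + 1)
  have a5 : eta (k + 1) * SS S0 k ≤ 1 / 100 * SS S0 k := mul_le_mul_of_nonneg_right a3 a2.le
  linarith

/-- All derivatives of `chi_j`, `j < k`, vanish on `OO k`. -/
theorem iteratedFDeriv_chi_zero_of_OO {k j n : ℕ} {x : X3} (hx : x ∈ OO k) (hj : j < k) :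
    iteratedFDeriv ℝ n (chi j) x = 0 := by
  have h : chi j =ᶠ[𝓝 x] (fun _ => (0 : ℝ)) := chi_zero_of_lt hx hj
  rw [(Filter.EventuallyEq.iteratedFDeriv ℝ h n).eq_of_nhds]
  cases n with
  | zero => ext; simp
  | succ n => rw [iteratedFDeriv_succ_const]; rfl

end Pool.Agent.BSS
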