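import Pool.Agent.BSS.Stmt
import Pool.Agent.BSS.GramLe

/-!
# MP_bff03b_an (BSS): calibrated sums of pieces are mass minimizing
-/

set_option autoImplicit false
set_option maxSynthPendingDepth 3

open MeasureTheory Set
open scoped ContDiff

namespace BSS

variable {N m : ℕ}

/-- the mass of a current which is calibrated by the exact form `dα` -/
theorem mass_le_of_calib (g : Metric N) (Φ : TestForm N m) (T : Current N m)
    (hmass : ∀ φ : TestForm N m, ComassLE g φ → T φ ≤ T Φ) :
    mass g T ≤ ((T Φ : ℝ) : EReal) := by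
  unfold mass
  refine iSup_le fun φ => iSup_le fun hφ => ?_
  exact_mod_cast hmass φ hφ

/-- a current which is calibrated by the exact form `dα` is minimal among all functionals with the
same boundary -/
theorem mass_le_of_bdry (g : Metric N) (α : TestForm N m) (hα : ComassLE g α.d)
    (T : Current N (m + 1)) (hmass : ∀ φ : TestForm N (m + 1), ComassLE g φ → T φ ≤ T α.d)
    (S : Current N (m + 1)) (hS : bdry S = bdry T) : mass g T ≤ mass g S := by
  refine (mass_le_of_calib g α.d T hmass).trans ?_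
  have h2 : T α.d = S α.d := (congrFun hS α).symm
  rw [h2]
  unfold mass
  exact le_iSup₂_of_le α.d hα le_rfl

theorem isMinimizing_of_calib (g : Metric N) (α : TestForm N m) (hα : ComassLE g α.d)
    (T : Current N (m + 1)) (hT : IsIntegral T)
    (hmass : ∀ φ : TestForm N (m + 1), ComassLE g φ → T φ ≤ T α.d) : IsMinimizing g T :=
  ⟨hT, lt_of_le_of_lt (mass_le_of_calib g α.d T hmass) (EReal.coe_lt_top _),
    fun S _ hS => mass_le_of_bdry g α hα T hmass S hS⟩

theorem continuous_pd {f : (Fin m → ℝ) → Eu N} (hf : ContDiff ℝ 1 f) :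
    Continuous fun x => pd f x := by
  refine continuous_pi fun j => ?_
  exact (hf.continuous_fderiv one_ne_zero).clm_apply continuous_const

theorem continuous_piece {f : (Fin m → ℝ) → Eu N} (hf : ContDiff ℝ 1 f) (φ : TestForm N m) :
    Continuous fun x => φ.toFun (f x) (pd f x) :=
  (φ.smooth.continuous.comp hf.continuous).eval (continuous_pd hf)

/-- monotonicity of the integral over a piece -/
theorem pieceInt_le {f : (Fin m → ℝ) → Eu N} (hf : ContDiff ℝ 1 f) {A : Set (Fin m → ℝ)}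
    (hA : IsCompact A) (φ ψ : TestForm N m)
    (h : ∀ x ∈ A, φ.toFun (f x) (pd f x) ≤ ψ.toFun (f x) (pd f x)) :
    pieceInt f A φ ≤ pieceInt f A ψ :=
  setIntegral_mono_on ((continuous_piece hf φ).continuousOn.integrableOn_compact hA)
    ((continuous_piece hf ψ).continuousOn.integrableOn_compact hA) hA.measurableSet h

/-- a form of comass at most one is bounded by the volume of the parallelepiped -/
theorem ComassLE.le_gram (g : Metric N) (φ : TestForm N 3) (hφ : ComassLE g φ) (x : Eu N)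
    (v : Fin 3 → Eu N) : φ.toFun x v ≤
      √(Pool.Agent.BSS.gram3 (fun a b => g.g x a b) (v 0) (v 1) (v 2)) := by
  have hpos : ∀ a, 0 ≤ g.g x a a := by
    intro a
    obtain ⟨c, hc, h⟩ := g.lower
    exact le_trans (by positivity) (h x a)
  have hadd' : ∀ a b c, g.g x a (b + c) = g.g x a b + g.g x a c := fun a b c => by
    rw [g.symm, g.add, g.symm x b, g.symm x c]
  have hsmul' : ∀ (r : ℝ) a b, g.g x a (r • b) = r • g.g x a b := fun r a b => by
    rw [g.symm, g.smul, g.symm x b, smul_eq_mul]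
  have h := Pool.Agent.BSS.abs_le_sqrt_gram3_alt
    (LinearMap.mk₂ ℝ (g.g x) (g.add x) (fun r a b => by rw [g.smul, smul_eq_mul]) hadd'
      (fun r a b => hsmul' r a b)) (g.symm x) hpos (φ.toFun x).toAlternatingMap (by
    intro w
    have h1 := hφ x w
    rw [Fin.prod_univ_three] at h1
    exact h1) v
  exact (le_abs_self _).trans h

end BSS

namespace Pool.Agent.BSS

/-- the sheet `F` over `B` is calibrated by `Φ` (literal of helper34) -/
def CalLe (g : _root_.BSS.Metric 7) (Φ : _root_.BSS.TestForm 7 3)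
    (F : (Fin 3 → ℝ) → _root_.BSS.Eu 7) (B : Set (Fin 3 → ℝ)) : Prop :=
  ∀ x ∈ B, Φ.toFun (F x) (_root_.BSS.pd F x) =
    √(gram3 (fun v w => g.g (F x) v w) (_root_.BSS.pd F x 0) (_root_.BSS.pd F x 1)
      (_root_.BSS.pd F x 2))

theorem pieceInt_le_of_calLe {g : _root_.BSS.Metric 7} {Φ : _root_.BSS.TestForm 7 3}
    {F : (Fin 3 → ℝ) → _root_.BSS.Eu 7} (hF : ContDiff ℝ 1 F) {B : Set (Fin 3 → ℝ)}
    (hB : IsCompact B) (hc : CalLe g Φ F B) (φ : _root_.BSS.TestForm 7 3)
    (hφ : _root_.BSS.ComassLE g φ) :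
    _root_.BSS.pieceInt F B φ ≤ _root_.BSS.pieceInt F B Φ := by
  refine _root_.BSS.pieceInt_le hF hB φ Φ fun x hx => ?_
  rw [hc x hx]
  exact _root_.BSS.ComassLE.le_gram g φ hφ (F x) (_root_.BSS.pd F x)

/-- the sum of two calibrated pieces -/
theorem mass_two (g : _root_.BSS.Metric 7) (α : _root_.BSS.TestForm 7 2)
    (hα : _root_.BSS.ComassLE g α.d) {F1 F2 : (Fin 3 → ℝ) → _root_.BSS.Eu 7}
    (hF1 : ContDiff ℝ 1 F1) (hF2 : ContDiff ℝ 1 F2) {B1 B2 : Set (Fin 3 → ℝ)}
    (hB1 : IsCompact B1) (hB2 : IsCompact B2) (hc1 : CalLe g α.d F1 B1) (hc2 : CalLe g α.d F2 B2)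
    (T : _root_.BSS.Current 7 3)
    (hT : ∀ φ, T φ = _root_.BSS.pieceInt F1 B1 φ + _root_.BSS.pieceInt F2 B2 φ) :
    (∀ S : _root_.BSS.Current 7 3, _root_.BSS.bdry S = _root_.BSS.bdry T →
      _root_.BSS.mass g T ≤ _root_.BSS.mass g S) ∧
    (_root_.BSS.IsIntegral T → _root_.BSS.IsMinimizing g T) := by
  have h : ∀ φ : _root_.BSS.TestForm 7 3, _root_.BSS.ComassLE g φ → T φ ≤ T α.d := by
    intro φ hφ
    rw [hT, hT]
    exact add_le_add (pieceInt_le_of_calLe hF1 hB1 hc1 φ hφ)
      (pieceInt_le_of_calLe hF2 hB2 hc2 φ hφ)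
  exact ⟨fun S hS => _root_.BSS.mass_le_of_bdry g α hα T h S hS,
    fun hI => _root_.BSS.isMinimizing_of_calib g α hα T hI h⟩

end Pool.Agent.BSS
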