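import Pool.Agent.BSS.Min
import Pool.Agent.BSS.Tori

/-!
# MP_bff03b_an (BSS): the current `TT u` minimizes mass when both sheets are calibrated
-/

set_option autoImplicit false
set_option maxSynthPendingDepth 3

open MeasureTheory Set
open scoped ContDiff

namespace Pool.Agent.BSS

theorem isCompact_box3 (a b : ℝ) : IsCompact (box3 a b) := isCompact_Icc

/-- **Minimality of `TT u`.** -/
theorem TT_minimal (g : _root_.BSS.Metric 7) (α : _root_.BSS.TestForm 7 2)
    (hα : _root_.BSS.ComassLE g α.d) {u : X3 → H} (hu : ContDiff ℝ ∞ u)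
    (hc1 : CalLe g α.d (sheet fun _ => 0) (box3 (-4) 4)) (hc2 : CalLe g α.d (sheet u) (box3 0 3)) :
    (∀ S : _root_.BSS.Current 7 3, _root_.BSS.bdry S = _root_.BSS.bdry (TT u) →
      _root_.BSS.mass g (TT u) ≤ _root_.BSS.mass g S) ∧
    (_root_.BSS.IsIntegral (TT u) → _root_.BSS.IsMinimizing g (TT u)) :=
  mass_two g α hα (contDiff_sheet contDiff_const) (contDiff_sheet (contDiff_infty.mp hu 1))
    (isCompact_box3 _ _) (isCompact_box3 _ _) hc1 hc2 (TT u) fun _ => rfl

end Pool.Agent.BSS
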