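import Mathlib

/-!
# No cancellation: choice of the coefficients of the waves

Abstract form of section 10 of the paper proof. For every level `k` there are finitely many waves
`V k a`, `a : Z k`, and coefficients `q k a` in a finite set `G k`; on a finite net `N k` the sums
of two consecutive levels can be kept away from zero for all `k` simultaneously.
-/

set_option autoImplicit false

open Finset

namespace Pool.Agent.BSS

section greedy

variable {Ω : ℕ → Type*} [∀ k, Fintype (Ω k)] [∀ k, Nonempty (Ω k)]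

open Classical in
/-- `ω` has few bad successors. -/
def Few (R : ∀ k, Ω k → Ω (k + 1) → Prop) (k : ℕ) (ω : Ω k) : Prop :=
  2 * (univ.filter (fun ω' => R k ω ω')).card ≤ Fintype.card (Ω (k + 1))

open Classical in
omit [∀ k, Nonempty (Ω k)] in
theorem card_not_few [∀ k, Nonempty (Ω k)] (R : ∀ k, Ω k → Ω (k + 1) → Prop) (k : ℕ)
    (h : 8 * (univ.filter (fun p : Ω k × Ω (k + 1) => R k p.1 p.2)).card ≤
      Fintype.card (Ω k) * Fintype.card (Ω (k + 1))) :
    4 * (univ.filter (fun ω => ¬ Few R k ω)).card ≤ Fintype.card (Ω k) := by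
  have hpos : 0 < Fintype.card (Ω (k + 1)) := Fintype.card_pos
  have e : (univ.filter (fun p : Ω k × Ω (k + 1) => R k p.1 p.2)).card =
      ∑ ω : Ω k, (univ.filter (fun ω' => R k ω ω')).card := by
    simp only [Finset.card_filter]
    rw [Fintype.sum_prod_type]
  have h1 : (univ.filter (fun ω => ¬ Few R k ω)).card * Fintype.card (Ω (k + 1)) ≤
      2 * (univ.filter (fun p : Ω k × Ω (k + 1) => R k p.1 p.2)).card := by
    rw [e, Finset.mul_sum, ← smul_eq_mul, ← Finset.sum_const]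
    calc ∑ _ω ∈ univ.filter (fun ω => ¬ Few R k ω), Fintype.card (Ω (k + 1))
        ≤ ∑ ω ∈ univ.filter (fun ω => ¬ Few R k ω),
            2 * (univ.filter (fun ω' => R k ω ω')).card := by
          refine Finset.sum_le_sum fun ω hω => ?_
          have := (Finset.mem_filter.mp hω).2
          unfold Few at this
          omega
      _ ≤ ∑ ω, 2 * (univ.filter (fun ω' => R k ω ω')).card :=
          Finset.sum_le_sum_of_subset (Finset.filter_subset _ _)
  have h2 : (4 * (univ.filter (fun ω => ¬ Few R k ω)).card) * Fintype.card (Ω (k + 1)) ≤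
      Fintype.card (Ω k) * Fintype.card (Ω (k + 1)) := by
    calc (4 * (univ.filter (fun ω => ¬ Few R k ω)).card) * Fintype.card (Ω (k + 1))
        = 4 * ((univ.filter (fun ω => ¬ Few R k ω)).card * Fintype.card (Ω (k + 1))) := by ring
      _ ≤ 4 * (2 * (univ.filter (fun p : Ω k × Ω (k + 1) => R k p.1 p.2)).card) :=
          Nat.mul_le_mul_left 4 h1
      _ = 8 * (univ.filter (fun p : Ω k × Ω (k + 1) => R k p.1 p.2)).card := by ring
      _ ≤ _ := h
  exact Nat.le_of_mul_le_mul_right h2 hpos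

open Classical in
/-- Greedy choice along the chain of levels. -/
theorem exists_chain (R : ∀ k, Ω k → Ω (k + 1) → Prop)
    (h : ∀ k, 8 * (univ.filter (fun p : Ω k × Ω (k + 1) => R k p.1 p.2)).card ≤
      Fintype.card (Ω k) * Fintype.card (Ω (k + 1))) :
    ∃ ω : ∀ k, Ω k, ∀ k, ¬ R k (ω k) (ω (k + 1)) := by
  have hstart : ∃ ω : Ω 0, Few R 0 ω := by
    by_contra hcon
    push Not at hcon
    have h1 := card_not_few R 0 (h 0)
    rw [Finset.filter_true_of_mem (fun ω _ => hcon ω), Finset.card_univ] at h1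
    have hpos : 0 < Fintype.card (Ω 0) := Fintype.card_pos
    omega
  have hstep : ∀ k (ω : Ω k), Few R k ω → ∃ ω' : Ω (k + 1), Few R (k + 1) ω' ∧ ¬ R k ω ω' := by
    intro k ω hω
    by_contra hcon
    push Not at hcon
    have h1 := card_not_few R (k + 1) (h (k + 1))
    have hpos : 0 < Fintype.card (Ω (k + 1)) := Fintype.card_pos
    have h2 : (univ : Finset (Ω (k + 1))) ⊆ univ.filter (fun ω' => ¬ Few R (k + 1) ω') ∪
        univ.filter (fun ω' => R k ω ω') := by
      intro ω' _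
      rw [Finset.mem_union, Finset.mem_filter, Finset.mem_filter]
      by_cases hf : Few R (k + 1) ω'
      · exact Or.inr ⟨mem_univ _, hcon ω' hf⟩
      · exact Or.inl ⟨mem_univ _, hf⟩
    have h3 := (Finset.card_le_card h2).trans (Finset.card_union_le _ _)
    rw [Finset.card_univ] at h3
    unfold Few at hω
    omega
  choose nx hnx1 hnx2 using hstep
  let s : ∀ k, {ω : Ω k // Few R k ω} := fun k =>
    Nat.rec ⟨hstart.choose, hstart.choose_spec⟩
      (fun k p => ⟨nx k p.1 p.2, hnx1 k p.1 p.2⟩) k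
  exact ⟨fun k => (s k).1, fun k => hnx2 k (s k).1 (s k).2⟩

end greedy

section count

/-- Counting with one free coordinate. -/
theorem card_fiber {A C : Type*} [Fintype A] [Fintype C] (S : Finset A) (u : A → C → A)
    (hu : ∀ q ∈ S, ∀ q' ∈ S, ∀ c c', u q c = u q' c' → q = q' ∧ c = c') :
    S.card * Fintype.card C ≤ Fintype.card A := by
  rw [← Finset.card_univ (α := C), ← Finset.card_product, ← Finset.card_univ (α := A)]
  refine Finset.card_le_card_of_injOn (fun p => u p.1 p.2) (fun _ _ => Finset.mem_coe.2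
    (mem_univ _)) ?_
  rintro ⟨q, c⟩ hq ⟨q', c'⟩ hq' heq
  rw [Finset.mem_coe, Finset.mem_product] at hq hq'
  obtain ⟨h1, h2⟩ := hu q hq.1 q' hq'.1 c c' heq
  rw [h1, h2]

end count

section main

variable {Z : ℕ → Type*} [∀ k, Fintype (Z k)] {H : Type*} [NormedDivisionRing H] {X : Type*}

/-- the sum of one level -/
def WW {ι : Type*} [Fintype ι] (V : ι → X → H) (q : ι → H) (x : X) : H := ∑ a, V a x * q a

theorem WW_sub {ι : Type*} [Fintype ι] [DecidableEq ι] (V : ι → X → H) (q q' : ι → H) (x : X)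
    (a : ι) (h : ∀ b, b ≠ a → q b = q' b) :
    WW V q x - WW V q' x = V a x * (q a - q' a) := by
  unfold WW
  rw [← Finset.sum_sub_distrib, Finset.sum_eq_single a]
  · rw [mul_sub]
  · intro b _ hb
    rw [h b hb, sub_self]
  · intro h1; exact absurd (mem_univ _) h1

open Classical in
/-- Choice of the coefficients on the nets. -/
theorem exists_coeff (V : ∀ k, Z k → X → H) (G : ℕ → Finset H) (θ : ℕ → ℝ) (N : ℕ → Finset X)
    (hG : ∀ k, (G k).Nonempty)
    (hsep : ∀ k, ∀ q ∈ G k, ∀ q' ∈ G k, q ≠ q' → 6 * θ k ≤ ‖q - q'‖)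
    (hsep' : ∀ k, ∀ q ∈ G (k + 1), ∀ q' ∈ G (k + 1), q ≠ q' → 6 * θ k ≤ ‖q - q'‖)
    (hN : ∀ k, 24 * ((N k).card * Fintype.card (Z k)) ≤ (G k).card)
    (hN' : ∀ k, 24 * ((N k).card * Fintype.card (Z (k + 1))) ≤ (G (k + 1)).card) :
    ∃ q : ∀ k, Z k → H, (∀ k a, q k a ∈ G k) ∧ ∀ k, ∀ x ∈ N k,
      (∀ a : Z k, 3 * θ k * ‖V k a x‖ ≤ ‖WW (V k) (q k) x + WW (V (k + 1)) (q (k + 1)) x‖) ∧
      (∀ a : Z (k + 1), 3 * θ k * ‖V (k + 1) a x‖ ≤
        ‖WW (V k) (q k) x + WW (V (k + 1)) (q (k + 1)) x‖) ∧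
      (∀ a : Z (k + 1), 3 * θ k * ‖V (k + 1) a x‖ ≤ ‖WW (V (k + 1)) (q (k + 1)) x‖) := by
  let Ω : ℕ → Type _ := fun k => Z k → G k
  have hne : ∀ k, Nonempty (Ω k) := fun k => ⟨fun _ => ⟨(hG k).choose, (hG k).choose_spec⟩⟩
  let w : ∀ k, Ω k → X → H := fun k q x => WW (V k) (fun a => (q a : H)) x
  let R1 : ∀ k, X → Z k → Ω k × Ω (k + 1) → Prop := fun k x a p =>
    ‖w k p.1 x + w (k + 1) p.2 x‖ < 3 * θ k * ‖V k a x‖
  let R2 : ∀ k, X → Z (k + 1) → Ω k × Ω (k + 1) → Prop := fun k x a p =>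
    ‖w k p.1 x + w (k + 1) p.2 x‖ < 3 * θ k * ‖V (k + 1) a x‖
  let R3 : ∀ k, X → Z (k + 1) → Ω k × Ω (k + 1) → Prop := fun k x a p =>
    ‖w (k + 1) p.2 x‖ < 3 * θ k * ‖V (k + 1) a x‖
  let R : ∀ k, Ω k → Ω (k + 1) → Prop := fun k q q' =>
    (∃ x ∈ N k, ∃ a, R1 k x a (q, q')) ∨ (∃ x ∈ N k, ∃ a, R2 k x a (q, q')) ∨
      (∃ x ∈ N k, ∃ a, R3 k x a (q, q'))
  -- counting
  have hlt : ∀ (k : ℕ) (v : H) (c c' : H) (A B : H), A - B = v * (c - c') →
      ‖A‖ < 3 * θ k * ‖v‖ → ‖B‖ < 3 * θ k * ‖v‖ → (c ≠ c' → 6 * θ k ≤ ‖c - c'‖) → c = c' := by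
    intro k v c c' A B h1 h2 h3 h4
    by_contra hne
    have h5 : ‖A - B‖ < 6 * θ k * ‖v‖ := by
      calc ‖A - B‖ ≤ ‖A‖ + ‖B‖ := norm_sub_le _ _
        _ < 3 * θ k * ‖v‖ + 3 * θ k * ‖v‖ := add_lt_add h2 h3
        _ = 6 * θ k * ‖v‖ := by ring
    rw [h1, norm_mul, mul_comm] at h5
    have h6 := mul_le_mul_of_nonneg_right (h4 hne) (norm_nonneg v)
    linarith
  have c1 : ∀ k x a, (univ.filter (R1 k x a)).card * (G k).card ≤
      Fintype.card (Ω k × Ω (k + 1)) := by
    intro k x a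
    rw [← Fintype.card_coe (G k)]
    refine card_fiber _ (fun p c => (Function.update p.1 a c, p.2)) ?_
    rintro ⟨q, r⟩ hq ⟨q', r'⟩ hq' c c' heq
    simp only [Prod.mk.injEq] at heq
    obtain ⟨h1, h2⟩ := heq
    subst h2
    have hc : c = c' := by
      have := congrFun h1 a
      simpa using this
    have hoff : ∀ b, b ≠ a → q b = q' b := by
      intro b hb
      have := congrFun h1 b
      simpa [Function.update_of_ne hb] using this
    have hq1 := (Finset.mem_filter.mp hq).2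
    have hq2 := (Finset.mem_filter.mp hq').2
    have hsub := WW_sub (V k) (fun a => (q a : H)) (fun a => (q' a : H)) x a
      (fun b hb => by rw [hoff b hb])
    have hqa : (q a : H) = q' a := by
      refine hlt k (V k a x) _ _ (w k q x + w (k + 1) r x) (w k q' x + w (k + 1) r x) ?_ hq1 hq2
        (fun h => hsep k _ (q a).2 _ (q' a).2 h)
      rw [add_sub_add_right_eq_sub]
      exact hsub
    refine ⟨?_, hc⟩
    have : q = q' := by
      funext b
      by_cases hb : b = a
      · subst hb; exact Subtype.ext hqa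
      · exact hoff b hb
    rw [this]
  have c2 : ∀ k x a, (univ.filter (R2 k x a)).card * (G (k + 1)).card ≤
      Fintype.card (Ω k × Ω (k + 1)) := by
    intro k x a
    rw [← Fintype.card_coe (G (k + 1))]
    refine card_fiber _ (fun p c => (p.1, Function.update p.2 a c)) ?_
    rintro ⟨q, r⟩ hq ⟨q', r'⟩ hq' c c' heq
    simp only [Prod.mk.injEq] at heq
    obtain ⟨h2, h1⟩ := heq
    subst h2
    have hc : c = c' := by
      have := congrFun h1 a
      simpa using this
    have hoff : ∀ b, b ≠ a → r b = r' b := by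
      intro b hb
      have := congrFun h1 b
      simpa [Function.update_of_ne hb] using this
    have hq1 := (Finset.mem_filter.mp hq).2
    have hq2 := (Finset.mem_filter.mp hq').2
    have hsub := WW_sub (V (k + 1)) (fun a => (r a : H)) (fun a => (r' a : H)) x a
      (fun b hb => by rw [hoff b hb])
    have hqa : (r a : H) = r' a := by
      refine hlt k (V (k + 1) a x) _ _ (w k q x + w (k + 1) r x) (w k q x + w (k + 1) r' x) ?_
        hq1 hq2 (fun h => hsep' k _ (r a).2 _ (r' a).2 h)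
      rw [add_sub_add_left_eq_sub]
      exact hsub
    refine ⟨?_, hc⟩
    have : r = r' := by
      funext b
      by_cases hb : b = a
      · subst hb; exact Subtype.ext hqa
      · exact hoff b hb
    rw [this]
  have c3 : ∀ k x a, (univ.filter (R3 k x a)).card * (G (k + 1)).card ≤
      Fintype.card (Ω k × Ω (k + 1)) := by
    intro k x a
    rw [← Fintype.card_coe (G (k + 1))]
    refine card_fiber _ (fun p c => (p.1, Function.update p.2 a c)) ?_
    rintro ⟨q, r⟩ hq ⟨q', r'⟩ hq' c c' heq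
    simp only [Prod.mk.injEq] at heq
    obtain ⟨h2, h1⟩ := heq
    subst h2
    have hc : c = c' := by
      have := congrFun h1 a
      simpa using this
    have hoff : ∀ b, b ≠ a → r b = r' b := by
      intro b hb
      have := congrFun h1 b
      simpa [Function.update_of_ne hb] using this
    have hq1 := (Finset.mem_filter.mp hq).2
    have hq2 := (Finset.mem_filter.mp hq').2
    have hsub := WW_sub (V (k + 1)) (fun a => (r a : H)) (fun a => (r' a : H)) x a
      (fun b hb => by rw [hoff b hb])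
    have hqa : (r a : H) = r' a := by
      refine hlt k (V (k + 1) a x) _ _ (w (k + 1) r x) (w (k + 1) r' x) ?_
        hq1 hq2 (fun h => hsep' k _ (r a).2 _ (r' a).2 h)
      exact hsub
    refine ⟨?_, hc⟩
    have : r = r' := by
      funext b
      by_cases hb : b = a
      · subst hb; exact Subtype.ext hqa
      · exact hoff b hb
    rw [this]
  -- union bounds
  have hun : ∀ {ι : Type _} [Fintype ι] (k : ℕ) (T : X → ι → Ω k × Ω (k + 1) → Prop) (g : ℕ),
      0 < g → 24 * ((N k).card * Fintype.card ι) ≤ g →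
      (∀ x a, (univ.filter (T x a)).card * g ≤ Fintype.card (Ω k × Ω (k + 1))) →
      24 * (univ.filter (fun p => ∃ x ∈ N k, ∃ a, T x a p)).card ≤
        Fintype.card (Ω k × Ω (k + 1)) := by
    intro ι _ k T g hg hng hT
    have h1 : univ.filter (fun p => ∃ x ∈ N k, ∃ a, T x a p) ⊆
        (N k ×ˢ (univ : Finset ι)).biUnion (fun y => univ.filter (T y.1 y.2)) := by
      intro p hp
      obtain ⟨x, hx, a, ha⟩ := (Finset.mem_filter.mp hp).2
      exact Finset.mem_biUnion.mpr ⟨(x, a), Finset.mem_product.mpr ⟨hx, mem_univ _⟩,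
        Finset.mem_filter.mpr ⟨mem_univ _, ha⟩⟩
    have h2 : (univ.filter (fun p => ∃ x ∈ N k, ∃ a, T x a p)).card * g ≤
        ((N k).card * Fintype.card ι) * Fintype.card (Ω k × Ω (k + 1)) := by
      refine (Nat.mul_le_mul_right g ((Finset.card_le_card h1).trans
        Finset.card_biUnion_le)).trans ?_
      rw [Finset.sum_mul]
      refine (Finset.sum_le_sum fun y _ => hT y.1 y.2).trans (le_of_eq ?_)
      rw [Finset.sum_const, Finset.card_product, Finset.card_univ, smul_eq_mul]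
    have h3 : (24 * (univ.filter (fun p => ∃ x ∈ N k, ∃ a, T x a p)).card) * g ≤
        Fintype.card (Ω k × Ω (k + 1)) * g := by
      calc (24 * (univ.filter (fun p => ∃ x ∈ N k, ∃ a, T x a p)).card) * g
          = 24 * ((univ.filter (fun p => ∃ x ∈ N k, ∃ a, T x a p)).card * g) := by ring
        _ ≤ 24 * (((N k).card * Fintype.card ι) * Fintype.card (Ω k × Ω (k + 1))) :=
            Nat.mul_le_mul_left 24 h2
        _ = (24 * ((N k).card * Fintype.card ι)) * Fintype.card (Ω k × Ω (k + 1)) := by ring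
        _ ≤ g * Fintype.card (Ω k × Ω (k + 1)) := Nat.mul_le_mul_right _ hng
        _ = _ := mul_comm _ _
    exact Nat.le_of_mul_le_mul_right h3 hg
  have hR : ∀ k, 8 * (univ.filter (fun p : Ω k × Ω (k + 1) => R k p.1 p.2)).card ≤
      Fintype.card (Ω k) * Fintype.card (Ω (k + 1)) := by
    intro k
    rw [← Fintype.card_prod]
    have u1 := hun k (R1 k) _ (Finset.card_pos.mpr (hG k)) (hN k) (c1 k)
    have u2 := hun k (R2 k) _ (Finset.card_pos.mpr (hG (k + 1))) (hN' k) (c2 k)
    have u3 := hun k (R3 k) _ (Finset.card_pos.mpr (hG (k + 1))) (hN' k) (c3 k)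
    have h1 : univ.filter (fun p : Ω k × Ω (k + 1) => R k p.1 p.2) ⊆
        univ.filter (fun p => ∃ x ∈ N k, ∃ a, R1 k x a p) ∪
        (univ.filter (fun p => ∃ x ∈ N k, ∃ a, R2 k x a p) ∪
          univ.filter (fun p => ∃ x ∈ N k, ∃ a, R3 k x a p)) := by
      intro p hp
      simp only [Finset.mem_union, Finset.mem_filter, mem_univ, true_and]
      exact (Finset.mem_filter.mp hp).2
    have h2 := (Finset.card_le_card h1).trans ((Finset.card_union_le _ _).trans
      (Nat.add_le_add_left (Finset.card_union_le _ _) _))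
    omega
  obtain ⟨ω, hω⟩ := exists_chain R (fun k => by convert! hR k)
  refine ⟨fun k a => (ω k a : H), fun k a => (ω k a).2, fun k x hx => ⟨fun a => ?_, fun a => ?_,
    fun a => ?_⟩⟩
  · by_contra hcon
    push Not at hcon
    exact hω k (Or.inl ⟨x, hx, a, hcon⟩)
  · by_contra hcon
    push Not at hcon
    exact hω k (Or.inr (Or.inl ⟨x, hx, a, hcon⟩))
  · by_contra hcon
    push Not at hcon
    exact hω k (Or.inr (Or.inr ⟨x, hx, a, hcon⟩))

/-- From a net point to a nearby point. -/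
theorem net_to_all {ι : Type*} [Fintype ι] (v v' q : ι → H) {ε θ : ℝ} (hθ : 0 < θ)
    (hq : ∀ i, ‖q i‖ ≤ 2) (hε : 0 ≤ ε) (hε1 : ε ≤ 1) (hεθ : 2 * Fintype.card ι * ε ≤ θ)
    (hv : ∀ i, ‖v i - v' i‖ ≤ ε * ‖v' i‖)
    (hlow : ∀ i, 3 * θ * ‖v' i‖ ≤ ‖∑ j, v' j * q j‖) (i : ι) :
    θ * ‖v i‖ ≤ ‖∑ j, v j * q j‖ := by
  set L := ‖∑ j, v' j * q j‖ with hL
  have hL0 : 0 ≤ L := norm_nonneg _
  have h1 : ‖∑ j, v j * q j - ∑ j, v' j * q j‖ ≤ ∑ j : ι, 2 * ε * (L / (3 * θ)) := by
    rw [← Finset.sum_sub_distrib]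
    refine norm_sum_le_of_le _ fun j _ => ?_
    rw [← sub_mul, norm_mul]
    have h2 : ‖v' j‖ ≤ L / (3 * θ) := by
      rw [le_div_iff₀ (by positivity)]
      have := hlow j
      linarith
    calc ‖v j - v' j‖ * ‖q j‖ ≤ (ε * ‖v' j‖) * 2 :=
          mul_le_mul (hv j) (hq j) (norm_nonneg _) (by positivity)
      _ ≤ (ε * (L / (3 * θ))) * 2 := by gcongr
      _ = 2 * ε * (L / (3 * θ)) := by ring
  rw [Finset.sum_const, Finset.card_univ, nsmul_eq_mul] at h1
  have h3 : (Fintype.card ι : ℝ) * (2 * ε * (L / (3 * θ))) ≤ L / 3 := by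
    calc (Fintype.card ι : ℝ) * (2 * ε * (L / (3 * θ)))
        = (2 * Fintype.card ι * ε) * (L / (3 * θ)) := by ring
      _ ≤ θ * (L / (3 * θ)) := by gcongr
      _ = L / 3 := by field_simp
  have h4 : L - L / 3 ≤ ‖∑ j, v j * q j‖ := by
    have h5 := norm_sub_norm_le (∑ j, v' j * q j) (∑ j, v j * q j)
    rw [norm_sub_rev] at h5
    linarith
  have h6 : ‖v i‖ ≤ 2 * ‖v' i‖ := by
    have h7 : ‖v i‖ ≤ ‖v i - v' i‖ + ‖v' i‖ := by
      have := norm_add_le (v i - v' i) (v' i)
      rwa [sub_add_cancel] at this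
    have h8 := hv i
    have h9 : ε * ‖v' i‖ ≤ 1 * ‖v' i‖ := mul_le_mul_of_nonneg_right hε1 (norm_nonneg _)
    linarith
  have h10 := hlow i
  have h11 : θ * ‖v i‖ ≤ θ * (2 * ‖v' i‖) := mul_le_mul_of_nonneg_left h6 hθ.le
  linarith

end main

end Pool.Agent.BSS
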