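import Pool.Agent.BSS.Cent

/-!
MP_bff03b_an, part A3a (doc H/bff03b, section 7): distances to the centers `lat k m`, `m ∈ Zk k`.
-/

set_option autoImplicit false
set_option maxSynthPendingDepth 3

namespace Pool.Agent.BSS

open Set Filter Topology

theorem wp_r2_eq (S0 : ℝ) (k : ℕ) (m : Fin 2 → ℤ) (x : X3) :
    (wp S0 k m).r2 x = (x 0 - lat k m 0) ^ 2 + (x 1 - lat k m 1) ^ 2 + (x 2 + del k) ^ 2 := rfl

/-- `r ≥ 2 rho_(k+1)` for the centers of the levels `j ≥ k + 2` and `x ∉ pocket_k` -/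
theorem far_Zk {k j : ℕ} (hj : k + 2 ≤ j) {x : X3} (hx : x ∉ pocket k) {m : Fin 2 → ℤ} (hm : m ∈ Zk j) (S0 : ℝ) :
    (2 * rho (k + 1)) ^ 2 ≤ (wp S0 j m).r2 x := by
  obtain ⟨i, rfl⟩ : ∃ i, j = i + 1 := ⟨j - 1, by omega⟩
  rw [wp_r2_eq]
  exact far_center_sq (by omega) hx (center_of_mem hm).2 (rho_pos _).le

/-- `r ≥ 2 rho_k` for the centers of level `k ≥ 1` and `x' ∈ E_k` -/
theorem near_Zk {k : ℕ} (hk : 1 ≤ k) {x : X3} (hx : pr x ∈ EE k) {m : Fin 2 → ℤ} (hm : m ∈ Zk k) (S0 : ℝ) :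
    (2 * rho k) ^ 2 ≤ (wp S0 k m).r2 x := by
  obtain ⟨i, rfl⟩ : ∃ i, k = i + 1 := ⟨k - 1, by omega⟩
  rw [wp_r2_eq]
  exact center_sq hx (center_of_mem hm).1 _

theorem two_rho_le_of_Zk {k : ℕ} (hk : 1 ≤ k) {y : X2} (hy : y ∈ EE k) {m : Fin 2 → ℤ} (hm : m ∈ Zk k) :
    ∃ i, 2 * rho k ≤ |y i - lat k m i| := by
  obtain ⟨i, rfl⟩ : ∃ i, k = i + 1 := ⟨k - 1, by omega⟩
  exact two_rho_le_of_center hy (center_of_mem hm).1

end Pool.Agent.BSS
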