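import Mathlib
import Pool.Agent.BSS.Base

/-!
# MP_bff03b_an (BSS), module G1, items (G1) and (G2): pointwise algebra of the 3-form `Phi0`

* `ip` is the Euclidean inner product of `R^3 x H`;
* `gram3 g a b c` is the Gram determinant of three vectors for a bilinear `g`;
* `Phi0 = dx123 - sum_i dx_i ^ om_i`;
* `crossP v w` is the vector with `Phi0 v w z = ip (crossP v w) z`;
* `abs_Phi0_le`: (G1), the form has comass at most one;
* `abs_Phi0_le_gram`: the Gram form of (G1);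
* `Phi0_eq_gram`: (G2), solutions of the equation `X(B) = 0` are calibrated.
-/

namespace Pool.Agent.BSS

/-- Euclidean inner product of `R^3 x H`. -/
noncomputable def ip (v w : X3 × H) : ℝ :=
  v.1 0 * w.1 0 + v.1 1 * w.1 1 + v.1 2 * w.1 2 + inner ℝ v.2 w.2

/-- Gram determinant of three vectors with respect to `g`. -/
def gram3 {E : Type*} (g : E → E → ℝ) (a b c : E) : ℝ :=
  g a a * (g b b * g c c - g b c * g c b) - g a b * (g b a * g c c - g b c * g c a)
    + g a c * (g b a * g c b - g b b * g c a)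

theorem gram3_eq_det {E : Type*} (g : E → E → ℝ) (a b c : E) :
    gram3 g a b c = Matrix.det (Matrix.of fun i j : Fin 3 => g (![a, b, c] i) (![a, b, c] j)) := by
  simp [Matrix.det_fin_three, gram3]
  ring

/-- The 3-form `Phi0 = dx123 - sum_i dx_i ^ om_i` on `R^3 x H`. -/
noncomputable def Phi0 (v1 v2 v3 : X3 × H) : ℝ :=
  (v1.1 0 * (v2.1 1 * v3.1 2 - v2.1 2 * v3.1 1) - v1.1 1 * (v2.1 0 * v3.1 2 - v2.1 2 * v3.1 0)
      + v1.1 2 * (v2.1 0 * v3.1 1 - v2.1 1 * v3.1 0))
    - (v1.1 0 * om1 v2.2 v3.2 - v2.1 0 * om1 v1.2 v3.2 + v3.1 0 * om1 v1.2 v2.2)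
    - (v1.1 1 * om2 v2.2 v3.2 - v2.1 1 * om2 v1.2 v3.2 + v3.1 1 * om2 v1.2 v2.2)
    - (v1.1 2 * om3 v2.2 v3.2 - v2.1 2 * om3 v1.2 v3.2 + v3.1 2 * om3 v1.2 v2.2)

/-- The vector `P(v, w)` with `Phi0 v w z = <P(v, w), z>`. -/
noncomputable def crossP (v w : X3 × H) : X3 × H :=
  (![v.1 1 * w.1 2 - v.1 2 * w.1 1 - om1 v.2 w.2,
     v.1 2 * w.1 0 - v.1 0 * w.1 2 - om2 v.2 w.2,
     v.1 0 * w.1 1 - v.1 1 * w.1 0 - om3 v.2 w.2],
   (w.1 0 • J1 v.2 + w.1 1 • J2 v.2 + w.1 2 • J3 v.2)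
     - (v.1 0 • J1 w.2 + v.1 1 • J2 w.2 + v.1 2 • J3 w.2))

/-! ### The inner product -/

theorem ip_eq (v w : X3 × H) :
    ip v w = v.1 0 * w.1 0 + v.1 1 * w.1 1 + v.1 2 * w.1 2
      + (v.2.re * w.2.re + v.2.imI * w.2.imI + v.2.imJ * w.2.imJ + v.2.imK * w.2.imK) := by
  rw [ip, inner_eq]

theorem ip_comm (v w : X3 × H) : ip v w = ip w v := by
  rw [ip_eq, ip_eq]; ring

theorem ip_add_left (v w z : X3 × H) : ip (v + w) z = ip v z + ip w z := by
  simp only [ip_eq, Prod.fst_add, Prod.snd_add, Pi.add_apply, Quaternion.re_add,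
    Quaternion.imI_add, Quaternion.imJ_add, Quaternion.imK_add]
  ring

theorem ip_add_right (v w z : X3 × H) : ip z (v + w) = ip z v + ip z w := by
  rw [ip_comm, ip_add_left, ip_comm v, ip_comm w]

theorem ip_smul_left (c : ℝ) (v w : X3 × H) : ip (c • v) w = c * ip v w := by
  simp only [ip_eq, Prod.smul_fst, Prod.smul_snd, Pi.smul_apply, Quaternion.re_smul,
    Quaternion.imI_smul, Quaternion.imJ_smul, Quaternion.imK_smul, smul_eq_mul]
  ring

theorem ip_smul_right (c : ℝ) (v w : X3 × H) : ip v (c • w) = c * ip v w := by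
  rw [ip_comm, ip_smul_left, ip_comm]

theorem ip_zero_left (v : X3 × H) : ip 0 v = 0 := by
  have h := ip_smul_left 0 v v
  rw [zero_smul, zero_mul] at h
  exact h

theorem ip_zero_right (v : X3 × H) : ip v 0 = 0 := by
  rw [ip_comm, ip_zero_left]

theorem ip_sub_left (v w z : X3 × H) : ip (v - w) z = ip v z - ip w z := by
  simp only [ip_eq, Prod.fst_sub, Prod.snd_sub, Pi.sub_apply, Quaternion.re_sub,
    Quaternion.imI_sub, Quaternion.imJ_sub, Quaternion.imK_sub]
  ring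

theorem ip_sub_right (v w z : X3 × H) : ip z (v - w) = ip z v - ip z w := by
  rw [ip_comm, ip_sub_left, ip_comm v, ip_comm w]

theorem ip_self_nonneg (v : X3 × H) : 0 ≤ ip v v := by
  rw [ip_eq]
  nlinarith [mul_self_nonneg (v.1 0), mul_self_nonneg (v.1 1), mul_self_nonneg (v.1 2),
    mul_self_nonneg v.2.re, mul_self_nonneg v.2.imI, mul_self_nonneg v.2.imJ,
    mul_self_nonneg v.2.imK]

theorem ip_self_eq_zero {v : X3 × H} (h : ip v v = 0) : v = 0 := by
  rw [ip_eq] at h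
  have h0 := mul_self_nonneg (v.1 0)
  have h1 := mul_self_nonneg (v.1 1)
  have h2 := mul_self_nonneg (v.1 2)
  have h3 := mul_self_nonneg v.2.re
  have h4 := mul_self_nonneg v.2.imI
  have h5 := mul_self_nonneg v.2.imJ
  have h6 := mul_self_nonneg v.2.imK
  ext i
  · fin_cases i
    · exact mul_self_eq_zero.mp (by linarith : v.1 0 * v.1 0 = 0)
    · exact mul_self_eq_zero.mp (by linarith : v.1 1 * v.1 1 = 0)
    · exact mul_self_eq_zero.mp (by linarith : v.1 2 * v.1 2 = 0)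
  · exact mul_self_eq_zero.mp (by linarith : v.2.re * v.2.re = 0)
  · exact mul_self_eq_zero.mp (by linarith : v.2.imI * v.2.imI = 0)
  · exact mul_self_eq_zero.mp (by linarith : v.2.imJ * v.2.imJ = 0)
  · exact mul_self_eq_zero.mp (by linarith : v.2.imK * v.2.imK = 0)

theorem ip_self_pos {v : X3 × H} (h : v ≠ 0) : 0 < ip v v :=
  lt_of_le_of_ne (ip_self_nonneg v) fun h0 => h (ip_self_eq_zero h0.symm)

/-- Cauchy-Schwarz. -/
theorem ip_sq_le (v w : X3 × H) : ip v w ^ 2 ≤ ip v v * ip w w := by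
  rcases eq_or_ne w 0 with rfl | hw
  · rw [ip_zero_right, ip_zero_right]; norm_num
  have hpos := ip_self_pos hw
  have h := ip_self_nonneg (ip w w • v - ip v w • w)
  have h2 : ip (ip w w • v - ip v w • w) (ip w w • v - ip v w • w)
      = ip w w * (ip v v * ip w w - ip v w ^ 2) := by
    simp only [ip_sub_left, ip_sub_right, ip_smul_left, ip_smul_right, ip_comm w v]
    ring
  rw [h2] at h
  nlinarith [nonneg_of_mul_nonneg_right h hpos]

/-! ### The vector `P` -/

theorem Phi0_eq_ip (v w z : X3 × H) : Phi0 v w z = ip (crossP v w) z := by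
  simp only [Phi0, crossP, ip_eq, om1_eq, om2_eq, om3_eq, Quaternion.re_sub, Quaternion.imI_sub,
    Quaternion.imJ_sub, Quaternion.imK_sub, Quaternion.re_add, Quaternion.imI_add,
    Quaternion.imJ_add, Quaternion.imK_add, Quaternion.re_smul, Quaternion.imI_smul,
    Quaternion.imJ_smul, Quaternion.imK_smul, smul_eq_mul, J1_re, J1_imI, J1_imJ, J1_imK,
    J2_re, J2_imI, J2_imJ, J2_imK, J3_re, J3_imI, J3_imJ, J3_imK, Matrix.cons_val_zero,
    Matrix.cons_val_one, Matrix.cons_val_two, Matrix.head_cons, Matrix.tail_cons]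
  ring

/-- `|P(v, w)|^2 = |v|^2 |w|^2 - <v, w>^2`. -/
theorem ip_crossP (v w : X3 × H) :
    ip (crossP v w) (crossP v w) = ip v v * ip w w - ip v w ^ 2 := by
  simp only [crossP, ip_eq, om1_eq, om2_eq, om3_eq, Quaternion.re_sub, Quaternion.imI_sub,
    Quaternion.imJ_sub, Quaternion.imK_sub, Quaternion.re_add, Quaternion.imI_add,
    Quaternion.imJ_add, Quaternion.imK_add, Quaternion.re_smul, Quaternion.imI_smul,
    Quaternion.imJ_smul, Quaternion.imK_smul, smul_eq_mul, J1_re, J1_imI, J1_imJ, J1_imK,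
    J2_re, J2_imI, J2_imJ, J2_imK, J3_re, J3_imI, J3_imJ, J3_imK, Matrix.cons_val_zero,
    Matrix.cons_val_one, Matrix.cons_val_two, Matrix.head_cons, Matrix.tail_cons]
  ring

theorem ip_crossP_left (v w : X3 × H) : ip (crossP v w) v = 0 := by
  rw [← Phi0_eq_ip]
  simp only [Phi0, om1_eq, om2_eq, om3_eq]
  ring

theorem ip_crossP_right (v w : X3 × H) : ip (crossP v w) w = 0 := by
  rw [← Phi0_eq_ip]
  simp only [Phi0, om1_eq, om2_eq, om3_eq]
  ring

/-! ### (G1) -/

theorem Phi0_sq_le (v w z : X3 × H) : Phi0 v w z ^ 2 ≤ ip v v * ip w w * ip z z := by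
  rw [Phi0_eq_ip]
  have h1 := ip_sq_le (crossP v w) z
  rw [ip_crossP] at h1
  nlinarith [ip_self_nonneg z, sq_nonneg (ip v w)]

/-- (G1): the form `Phi0` has comass at most one. -/
theorem abs_Phi0_le (v1 v2 v3 : X3 × H) :
    |Phi0 v1 v2 v3| ≤ √(ip v1 v1) * √(ip v2 v2) * √(ip v3 v3) := by
  rw [← Real.sqrt_mul (ip_self_nonneg v1), ← Real.sqrt_mul
    (mul_nonneg (ip_self_nonneg v1) (ip_self_nonneg v2))]
  exact Real.abs_le_sqrt (Phi0_sq_le v1 v2 v3)

theorem Phi0_sq_le_gram (v w z : X3 × H) : Phi0 v w z ^ 2 ≤ gram3 ip v w z ∨ Phi0 v w z = 0 := by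
  have hG : 0 ≤ ip v v * ip w w - ip v w ^ 2 := by
    rw [← ip_crossP]; exact ip_self_nonneg _
  rcases hG.eq_or_lt with h0 | hpos
  · right
    have hz : crossP v w = 0 := ip_self_eq_zero (by rw [ip_crossP, ← h0])
    rw [Phi0_eq_ip, hz, ip_zero_left]
  · left
    set G := ip v v * ip w w - ip v w ^ 2 with hGdef
    set α := ip z v * ip w w - ip z w * ip v w with hα
    set β := ip z w * ip v v - ip z v * ip v w with hβ
    have h1 : ip (crossP v w) (G • z - α • v - β • w) = G * ip (crossP v w) z := by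
      rw [ip_sub_right, ip_sub_right, ip_smul_right, ip_smul_right, ip_smul_right,
        ip_crossP_left, ip_crossP_right]
      ring
    have h2 : ip (G • z - α • v - β • w) (G • z - α • v - β • w) = G * gram3 ip v w z := by
      simp only [ip_sub_left, ip_sub_right, ip_smul_left, ip_smul_right, gram3, ip_comm w v,
        ip_comm v z, ip_comm w z]
      rw [hα, hβ, hGdef]
      ring
    have h3 := ip_sq_le (crossP v w) (G • z - α • v - β • w)
    rw [h1, h2, ip_crossP, ← hGdef] at h3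
    rw [Phi0_eq_ip]
    have h4 : G ^ 2 * (ip (crossP v w) z ^ 2) ≤ G ^ 2 * gram3 ip v w z := by nlinarith
    exact le_of_mul_le_mul_left h4 (by positivity)

/-- (G1), Gram form: `|Phi0|` is at most the volume of the parallelepiped. -/
theorem abs_Phi0_le_gram (v1 v2 v3 : X3 × H) :
    |Phi0 v1 v2 v3| ≤ √(gram3 ip v1 v2 v3) := by
  rcases Phi0_sq_le_gram v1 v2 v3 with h | h
  · exact Real.abs_le_sqrt h
  · rw [h, abs_zero]; exact Real.sqrt_nonneg _

/-! ### (G2) -/

/-- (G2), with the weaker hypothesis `om_3(B1, B2) < 1`. -/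
theorem Phi0_eq_gram' (B1 B2 B3 : H)
    (hX : (1 - om3 B1 B2) • B3 = J2 B1 - J1 B2 + om1 B1 B2 • B1 + om2 B1 B2 • B2)
    (h3 : om3 B1 B2 < 1) :
    Phi0 (ee 0, B1) (ee 1, B2) (ee 2, B3) = √(gram3 ip (ee 0, B1) (ee 1, B2) (ee 2, B3)) ∧
      0 < Phi0 (ee 0, B1) (ee 1, B2) (ee 2, B3) ∧
      (1 - om3 B1 B2) * Phi0 (ee 0, B1) (ee 1, B2) (ee 2, B3)
        = ip (ee 0, B1) (ee 0, B1) * ip (ee 1, B2) (ee 1, B2)
          - ip (ee 0, B1) (ee 1, B2) ^ 2 := by
  set v : X3 × H := (ee 0, B1) with hv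
  set w : X3 × H := (ee 1, B2) with hw
  set z : X3 × H := (ee 2, B3) with hz
  set a := 1 - om3 B1 B2 with ha
  have hapos : 0 < a := by rw [ha]; linarith
  have hP : crossP v w = a • z - om1 B1 B2 • v - om2 B1 B2 • w := by
    apply Prod.ext
    · funext i
      fin_cases i <;>
        simp [crossP, hv, hw, hz, ha, ee]
    · simp only [crossP, hv, hw, hz, Prod.snd_sub, Prod.smul_snd]
      rw [hX]
      simp [ee]
      abel
  have hPv : ip (crossP v w) v = 0 := ip_crossP_left v w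
  have hPw : ip (crossP v w) w = 0 := ip_crossP_right v w
  have hPP : ip (crossP v w) (crossP v w) = a * Phi0 v w z := by
    conv_lhs => rw [hP]
    rw [ip_comm, ip_sub_right, ip_sub_right, ip_smul_right, ip_smul_right, ip_smul_right]
    rw [← hP, hPv, hPw, Phi0_eq_ip]
    ring
  have hPP2 := ip_crossP v w
  have hvwpos : 0 < ip (crossP v w) (crossP v w) := by
    apply ip_self_pos
    intro h0
    have h1 : (crossP v w).1 2 = 0 := by rw [h0]; rfl
    have h2 : (crossP v w).1 2 = a := by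
      simp [crossP, hv, hw, ha, ee]
    rw [h2] at h1
    exact hapos.ne' h1
  have hpos : 0 < Phi0 v w z := by
    rw [hPP] at hvwpos
    exact (mul_pos_iff_of_pos_left hapos).mp hvwpos
  have hgram : a ^ 2 * gram3 ip v w z = a ^ 2 * Phi0 v w z ^ 2 := by
    have hz' : a • z = crossP v w + om1 B1 B2 • v + om2 B1 B2 • w := by
      rw [hP]; abel
    have e1 : ip v (a • z) = om1 B1 B2 * ip v v + om2 B1 B2 * ip v w := by
      rw [hz', ip_add_right, ip_add_right, ip_smul_right, ip_smul_right, ip_comm v (crossP v w),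
        hPv]
      ring
    have e2 : ip w (a • z) = om1 B1 B2 * ip v w + om2 B1 B2 * ip w w := by
      rw [hz', ip_add_right, ip_add_right, ip_smul_right, ip_smul_right, ip_comm w (crossP v w),
        hPw, ip_comm w v]
      ring
    have e3 : ip (a • z) (a • z) = ip (crossP v w) (crossP v w)
        + om1 B1 B2 * ip v (a • z) + om2 B1 B2 * ip w (a • z) := by
      conv_lhs => rw [hz']
      rw [ip_add_left, ip_add_left, ip_smul_left, ip_smul_left, ← hz']
      have : ip (crossP v w) (a • z) = ip (crossP v w) (crossP v w) := by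
        rw [hz', ip_add_right, ip_add_right, ip_smul_right, ip_smul_right, hPv, hPw]
        ring
      rw [this]
    rw [ip_smul_right] at e1 e2
    rw [ip_smul_left, ip_smul_right, ip_smul_right, ip_smul_right] at e3
    have e4 : (a * Phi0 v w z) = ip v v * ip w w - ip v w ^ 2 := by
      rw [← hPP, hPP2]
    rw [hPP] at e3
    have e5 : a ^ 2 * gram3 ip v w z
        = ip v v * (ip w w * (a * (a * ip z z)) - (a * ip w z) * (a * ip w z))
          - ip v w * (ip v w * (a * (a * ip z z)) - (a * ip w z) * (a * ip v z))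
          + (a * ip v z) * (ip v w * (a * ip w z) - ip w w * (a * ip v z)) := by
      simp only [gram3, ip_comm w v, ip_comm z v, ip_comm z w]
      ring
    rw [e5, e3, e1, e2]
    have e6 : a ^ 2 * Phi0 v w z ^ 2 = (a * Phi0 v w z) ^ 2 := by ring
    rw [e6, e4]
    ring
  have hgram' : gram3 ip v w z = Phi0 v w z ^ 2 :=
    mul_left_cancel₀ (by positivity) hgram
  refine ⟨?_, hpos, ?_⟩
  · rw [hgram', Real.sqrt_sq hpos.le]
  · rw [← hPP, hPP2]

/-- `|om_3(B1, B2)| <= |B1| |B2|` (and the same for `om_1`, `om_2`). -/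
theorem abs_om1_le (b c : H) : |om1 b c| ≤ ‖b‖ * ‖c‖ := by
  have h := abs_real_inner_le_norm (J1 b) c
  have h1 : ‖J1 b‖ = ‖b‖ := by
    rw [J1, norm_mul]
    have : ‖qi‖ = 1 := by
      have : ‖qi‖ ^ 2 = 1 := by
        rw [← real_inner_self_eq_norm_sq, inner_eq]; simp
      nlinarith [norm_nonneg qi]
    rw [this, one_mul]
  rw [h1] at h
  exact h

theorem abs_om2_le (b c : H) : |om2 b c| ≤ ‖b‖ * ‖c‖ := by
  have h := abs_real_inner_le_norm (J2 b) c
  have h1 : ‖J2 b‖ = ‖b‖ := by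
    rw [J2, norm_mul]
    have : ‖qj‖ = 1 := by
      have : ‖qj‖ ^ 2 = 1 := by
        rw [← real_inner_self_eq_norm_sq, inner_eq]; simp
      nlinarith [norm_nonneg qj]
    rw [this, one_mul]
  rw [h1] at h
  exact h

theorem abs_om3_le (b c : H) : |om3 b c| ≤ ‖b‖ * ‖c‖ := by
  have h := abs_real_inner_le_norm (J3 b) c
  have h1 : ‖J3 b‖ = ‖b‖ := by
    rw [J3, norm_mul]
    have : ‖qk‖ = 1 := by
      have : ‖qk‖ ^ 2 = 1 := by
        rw [← real_inner_self_eq_norm_sq, inner_eq]; simp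
      nlinarith [norm_nonneg qk]
    rw [this, one_mul]
  rw [h1] at h
  exact h

/-- (G2). -/
theorem Phi0_eq_gram (B1 B2 B3 : H)
    (hX : (1 - om3 B1 B2) • B3 = J2 B1 - J1 B2 + om1 B1 B2 • B1 + om2 B1 B2 • B2)
    (h1 : ‖B1‖ ≤ 1 / 10) (h2 : ‖B2‖ ≤ 1 / 10) :
    Phi0 (ee 0, B1) (ee 1, B2) (ee 2, B3) = √(gram3 ip (ee 0, B1) (ee 1, B2) (ee 2, B3)) ∧
      0 < Phi0 (ee 0, B1) (ee 1, B2) (ee 2, B3) := by
  have h3 : om3 B1 B2 < 1 := by
    have h := abs_om3_le B1 B2
    have h' : ‖B1‖ * ‖B2‖ ≤ 1 / 10 * (1 / 10) :=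
      mul_le_mul h1 h2 (norm_nonneg _) (by norm_num)
    have := le_abs_self (om3 B1 B2)
    linarith
  obtain ⟨ha, hb, -⟩ := Phi0_eq_gram' B1 B2 B3 hX h3
  exact ⟨ha, hb⟩

end Pool.Agent.BSS
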