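import Pool.Agent.BSS.Forms
import Pool.Agent.BSS.Point

/-!
# MP_bff03b_an (BSS), G2: the exterior derivative of the primitive
-/

set_option autoImplicit false

open Set Filter Topology
open scoped ContDiff

namespace Pool.Agent.BSS

variable {u : X3 → H} {S1 S2 : X3 → H →L[ℝ] H}

theorem contDiff_rhoF (hu : ContDiff ℝ ∞ u) (h1 : ContDiff ℝ ∞ S1) (h2 : ContDiff ℝ ∞ S2) :
    ContDiff ℝ ∞ (rhoF u S1 S2) := by
  have d1 : ContDiff ℝ ∞ fun x => fderiv ℝ S1 x (ee 0) (u x) :=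
    ((h1.fderiv_right (by simp : (∞ : WithTop ℕ∞) + 1 ≤ ∞)).clm_apply contDiff_const).clm_apply hu
  have d2 : ContDiff ℝ ∞ fun x => fderiv ℝ S2 x (ee 1) (u x) :=
    ((h2.fderiv_right (by simp : (∞ : WithTop ℕ∞) + 1 ≤ ∞)).clm_apply contDiff_const).clm_apply hu
  exact contDiff_const.mul ((d1.add d2).inner ℝ hu)

theorem contDiff_prim (hu : ContDiff ℝ ∞ u) (h1 : ContDiff ℝ ∞ S1) (h2 : ContDiff ℝ ∞ S2) :
    ContDiff ℝ ∞ (prim u S1 S2) := by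
  have hR : ContDiff ℝ ∞ fun p : ME => Rf (rhoF u S1 S2) p.1 :=
    (contDiff_Rf (contDiff_rhoF hu h1 h2)).comp contDiff_fst
  have hl : ∀ (i : Fin 3) (q : H), ContDiff ℝ ∞ fun p : ME => wedge (dX i) (lamL q p) :=
    fun i q => by
      have h : ContDiff ℝ ∞ ((wedgeL (dX i)).comp (lamL q)) := ContinuousLinearMap.contDiff _
      exact h
  have hq : ∀ {S : X3 → H →L[ℝ] H}, ContDiff ℝ ∞ S →
      ContDiff ℝ ∞ fun p : ME => (1 / 2 * inner ℝ (S p.1 p.2) p.2 : ℝ) := fun hS =>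
    contDiff_const.mul (((hS.comp contDiff_fst).clm_apply contDiff_snd).inner ℝ contDiff_snd)
  have hc : ∀ {f : ME → ℝ} (c : ME [⋀^Fin 2]→L[ℝ] ℝ), ContDiff ℝ ∞ f →
      ContDiff ℝ ∞ fun p => f p • c := fun {f} c hf => by
    have h : ContDiff ℝ ∞ (ContinuousLinearMap.toSpanSingleton ℝ c) :=
      ContinuousLinearMap.contDiff _
    exact h.comp hf
  exact (((hc _ hR).add (((hl 0 qi).add (hl 1 qj)).add (hl 2 qk))).add
    (hc _ (hq h1))).add (hc _ (hq h2))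

/-- Directional derivative of `1/2 <S y, y>` for symmetric `S`. -/
theorem hasFDerivAt_quad {S : X3 → H →L[ℝ] H} (hS : ContDiff ℝ ∞ S)
    (hs : ∀ x y z, inner ℝ (S x y) z = inner ℝ y (S x z)) (p : ME) :
    ∃ L : ME →L[ℝ] ℝ, HasFDerivAt (fun q : ME => (1 / 2 * inner ℝ (S q.1 q.2) q.2 : ℝ)) L p ∧
      ∀ z : ME, L z = 1 / 2 * inner ℝ (fderiv ℝ S p.1 z.1 p.2) p.2 +
        inner ℝ (S p.1 p.2) z.2 := by
  have h1 : HasFDerivAt (fun q : ME => S q.1)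
      ((fderiv ℝ S p.1).comp (ContinuousLinearMap.fst ℝ X3 H)) p :=
    ((hS.differentiable (by simp) p.1).hasFDerivAt).comp p hasFDerivAt_fst
  have h2 : HasFDerivAt (fun q : ME => S q.1 q.2) _ p :=
    h1.clm_apply hasFDerivAt_snd
  have h3 := (h2.inner ℝ (hasFDerivAt_snd (p := p))).const_mul (1 / 2 : ℝ)
  refine ⟨_, h3, fun z => ?_⟩
  simp [inner_add_left]
  rw [hs p.1 z.2 p.2, real_inner_comm z.2]
  ring

/-- The directional derivative of `prim` applied to two fixed vectors. -/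
noncomputable def dPrim (u : X3 → H) (S1 S2 : X3 → H →L[ℝ] H) (p z v w : ME) : ℝ :=
  fderiv ℝ (Rf (rhoF u S1 S2)) p.1 z.1 * (v.1 0 * w.1 1 - w.1 0 * v.1 1) +
    (v.1 0 * (1 / 2 * om1 z.2 w.2) - w.1 0 * (1 / 2 * om1 z.2 v.2) +
      (v.1 1 * (1 / 2 * om2 z.2 w.2) - w.1 1 * (1 / 2 * om2 z.2 v.2)) +
      (v.1 2 * (1 / 2 * om3 z.2 w.2) - w.1 2 * (1 / 2 * om3 z.2 v.2))) +
    (1 / 2 * inner ℝ (fderiv ℝ S1 p.1 z.1 p.2) p.2 + inner ℝ (S1 p.1 p.2) z.2) *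
      (v.1 1 * w.1 2 - w.1 1 * v.1 2) +
    (1 / 2 * inner ℝ (fderiv ℝ S2 p.1 z.1 p.2) p.2 + inner ℝ (S2 p.1 p.2) z.2) *
      (v.1 2 * w.1 0 - w.1 2 * v.1 0)

theorem fderiv_prim_apply (hu : ContDiff ℝ ∞ u) (h1 : ContDiff ℝ ∞ S1) (h2 : ContDiff ℝ ∞ S2)
    (hs1 : ∀ x y z, inner ℝ (S1 x y) z = inner ℝ y (S1 x z))
    (hs2 : ∀ x y z, inner ℝ (S2 x y) z = inner ℝ y (S2 x z)) (p z : ME) (v : Fin 2 → ME) :
    fderiv ℝ (fun q => prim u S1 S2 q v) p z = dPrim u S1 S2 p z (v 0) (v 1) := by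
  have hR : HasFDerivAt (fun q : ME => Rf (rhoF u S1 S2) q.1)
      ((fderiv ℝ (Rf (rhoF u S1 S2)) p.1).comp (ContinuousLinearMap.fst ℝ X3 H)) p :=
    (((contDiff_Rf (contDiff_rhoF hu h1 h2)).differentiable (by simp) p.1).hasFDerivAt).comp p
      hasFDerivAt_fst
  obtain ⟨L1, hL1, e1⟩ := hasFDerivAt_quad h1 hs1 p
  obtain ⟨L2, hL2, e2⟩ := hasFDerivAt_quad h2 hs2 p
  have hl : ∀ (i : Fin 3) (q : H), HasFDerivAt (fun r : ME => wedge (dX i) (lamL q r) v)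
      ((ContinuousAlternatingMap.apply ℝ ME ℝ v).comp ((wedgeL (dX i)).comp (lamL q))) p :=
    fun i q => ((ContinuousAlternatingMap.apply ℝ ME ℝ v).comp
      ((wedgeL (dX i)).comp (lamL q))).hasFDerivAt
  have e : (fun q => prim u S1 S2 q v) = fun q : ME =>
      Rf (rhoF u S1 S2) q.1 * wedge (dX 0) (dX 1) v +
      (wedge (dX 0) (lamL qi q) v + wedge (dX 1) (lamL qj q) v + wedge (dX 2) (lamL qk q) v) +
      (1 / 2 * inner ℝ (S1 q.1 q.2) q.2) * wedge (dX 1) (dX 2) v +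
      (1 / 2 * inner ℝ (S2 q.1 q.2) q.2) * wedge (dX 2) (dX 0) v := by
    funext q
    simp only [prim, ContinuousAlternatingMap.add_apply, ContinuousAlternatingMap.smul_apply,
      smul_eq_mul]
  have hh := (((hR.mul_const (wedge (dX 0) (dX 1) v)).add
    (((hl 0 qi).add (hl 1 qj)).add (hl 2 qk))).add (hL1.mul_const (wedge (dX 1) (dX 2) v))).add
    (hL2.mul_const (wedge (dX 2) (dX 0) v))
  rw [e]
  have h3 := congrArg (fun L : ME →L[ℝ] ℝ => L z) hh.fderiv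
  refine h3.trans ?_
  have hw : ∀ (i : Fin 3) (q : H), (ContinuousAlternatingMap.apply ℝ ME ℝ v)
      (wedgeL (dX i) (lamL q z)) = wedge (dX i) (lamL q z) v := fun i q => rfl
  simp only [add_apply, smul_apply,
    ContinuousLinearMap.comp_apply, ContinuousLinearMap.coe_fst', e1, e2, hw, wedge_apply,
    dX_apply, lamL_apply, smul_eq_mul, dPrim, om1, om2, om3, J1, J2, J3]
  ring

theorem map_X3 {F : Type*} [AddCommGroup F] [Module ℝ F] [TopologicalSpace F]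
    (L : X3 →L[ℝ] F) (a : X3) : L a = a 0 • L (ee 0) + a 1 • L (ee 1) + a 2 • L (ee 2) := by
  have h : a = a 0 • ee 0 + a 1 • ee 1 + a 2 • ee 2 := by
    funext i
    fin_cases i <;> simp [ee]
  conv_lhs => rw [h]
  simp only [map_add, map_smul]

/-- The explicit formula for `Phi = d prim`. -/
noncomputable def PhiE (φ : ℝ) (s1 s2 : H) (v1 v2 v3 : ME) : ℝ :=
  φ * (v1.1 0 * (v2.1 1 * v3.1 2 - v2.1 2 * v3.1 1) - v1.1 1 * (v2.1 0 * v3.1 2 - v2.1 2 * v3.1 0)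
      + v1.1 2 * (v2.1 0 * v3.1 1 - v2.1 1 * v3.1 0))
    + (inner ℝ s1 v1.2 * (v2.1 1 * v3.1 2 - v2.1 2 * v3.1 1)
      - inner ℝ s1 v2.2 * (v1.1 1 * v3.1 2 - v1.1 2 * v3.1 1)
      + inner ℝ s1 v3.2 * (v1.1 1 * v2.1 2 - v1.1 2 * v2.1 1))
    + (inner ℝ s2 v1.2 * (v2.1 2 * v3.1 0 - v2.1 0 * v3.1 2)
      - inner ℝ s2 v2.2 * (v1.1 2 * v3.1 0 - v1.1 0 * v3.1 2)
      + inner ℝ s2 v3.2 * (v1.1 2 * v2.1 0 - v1.1 0 * v2.1 2))
    - (v1.1 0 * om1 v2.2 v3.2 - v2.1 0 * om1 v1.2 v3.2 + v3.1 0 * om1 v1.2 v2.2)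
    - (v1.1 1 * om2 v2.2 v3.2 - v2.1 1 * om2 v1.2 v3.2 + v3.1 1 * om2 v1.2 v2.2)
    - (v1.1 2 * om3 v2.2 v3.2 - v2.1 2 * om3 v1.2 v3.2 + v3.1 2 * om3 v1.2 v2.2)

theorem extDeriv_prim (hu : ContDiff ℝ ∞ u) (h1 : ContDiff ℝ ∞ S1) (h2 : ContDiff ℝ ∞ S2)
    (hs1 : ∀ x y z, inner ℝ (S1 x y) z = inner ℝ y (S1 x z))
    (hs2 : ∀ x y z, inner ℝ (S2 x y) z = inner ℝ y (S2 x z)) (p : ME) (v : Fin 3 → ME) :
    extDeriv (prim u S1 S2) p v =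
      PhiE (phiF u S1 S2 p) (S1 p.1 p.2) (S2 p.1 p.2) (v 0) (v 1) (v 2) := by
  rw [extDeriv_apply ((contDiff_prim hu h1 h2).differentiable (by simp) p)]
  simp only [fderiv_prim_apply hu h1 h2 hs1 hs2]
  refine (Fin.sum_univ_three (fun i : Fin 3 => (-1 : ℤ) ^ (i : ℕ) • dPrim u S1 S2 p (v i)
    (Fin.removeNth i v 0) (Fin.removeNth i v 1))).trans ?_
  have r00 : Fin.removeNth (0 : Fin 3) v 0 = v 1 := rfl
  have r01 : Fin.removeNth (0 : Fin 3) v 1 = v 2 := rfl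
  have r10 : Fin.removeNth (1 : Fin 3) v 0 = v 0 := rfl
  have r11 : Fin.removeNth (1 : Fin 3) v 1 = v 2 := rfl
  have r20 : Fin.removeNth (2 : Fin 3) v 0 = v 0 := rfl
  have r21 : Fin.removeNth (2 : Fin 3) v 1 = v 1 := rfl
  rw [r00, r01, r10, r11, r20, r21]
  have hRt := fderiv_Rf (contDiff_rhoF hu h1 h2) p.1
  simp only [dPrim, map_X3 (fderiv ℝ (Rf (rhoF u S1 S2)) p.1) (v 0).1,
    map_X3 (fderiv ℝ (Rf (rhoF u S1 S2)) p.1) (v 1).1,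
    map_X3 (fderiv ℝ (Rf (rhoF u S1 S2)) p.1) (v 2).1, hRt,
    map_X3 (fderiv ℝ S1 p.1) (v 0).1, map_X3 (fderiv ℝ S1 p.1) (v 1).1,
    map_X3 (fderiv ℝ S1 p.1) (v 2).1, map_X3 (fderiv ℝ S2 p.1) (v 0).1,
    map_X3 (fderiv ℝ S2 p.1) (v 1).1, map_X3 (fderiv ℝ S2 p.1) (v 2).1]
  simp only [add_apply, smul_apply, inner_add_left,
    real_inner_smul_left, PhiE, phiF, smul_eq_mul, om1_eq, om2_eq, om3_eq]
  norm_num
  ring

end Pool.Agent.BSS
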