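import Pool.Agent.BSS.Chart

/-!
# BSS, module G3 (first half, second file): periodic fields pushed to `R^7` (helper47)
-/

set_option autoImplicit false

open Set Filter Topology
open scoped ContDiff

namespace Pool.Agent.BSS

/-! ### The norm of a quaternion and its coordinates -/

theorem sq_norm_quat (q : H) : ‖q‖ ^ 2 = q.re ^ 2 + q.imI ^ 2 + q.imJ ^ 2 + q.imK ^ 2 := by
  rw [← real_inner_self_eq_norm_sq, inner_eq]
  ring

theorem absH_re_le (q : H) : |q.re| ≤ ‖q‖ := by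
  apply abs_le_of_sq_le_sq _ (norm_nonneg q)
  rw [sq_norm_quat]
  nlinarith [sq_nonneg q.imI, sq_nonneg q.imJ, sq_nonneg q.imK]

theorem absH_imI_le (q : H) : |q.imI| ≤ ‖q‖ := by
  apply abs_le_of_sq_le_sq _ (norm_nonneg q)
  rw [sq_norm_quat]
  nlinarith [sq_nonneg q.re, sq_nonneg q.imJ, sq_nonneg q.imK]

theorem absH_imJ_le (q : H) : |q.imJ| ≤ ‖q‖ := by
  apply abs_le_of_sq_le_sq _ (norm_nonneg q)
  rw [sq_norm_quat]
  nlinarith [sq_nonneg q.re, sq_nonneg q.imI, sq_nonneg q.imK]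

theorem absH_imK_le (q : H) : |q.imK| ≤ ‖q‖ := by
  apply abs_le_of_sq_le_sq _ (norm_nonneg q)
  rw [sq_norm_quat]
  nlinarith [sq_nonneg q.re, sq_nonneg q.imI, sq_nonneg q.imJ]

/-! ### The image of the chart and a section -/

/-- The open set covered by the chart. -/
def U7 : Set R7 := {w | 0 < w 0 ^ 2 + w 1 ^ 2 ∧ 0 < w 2 ^ 2 + w 3 ^ 2}

theorem continuous_coord7 (i : Fin 7) : Continuous fun w : R7 => w i :=
  (EuclideanSpace.proj (𝕜 := ℝ) i).continuous

theorem isOpen_U7 : IsOpen U7 := by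
  have h : ∀ i j : Fin 7, IsOpen {w : R7 | 0 < w i ^ 2 + w j ^ 2} := fun i j =>
    isOpen_lt continuous_const (((continuous_coord7 i).pow 2).add ((continuous_coord7 j).pow 2))
  exact (h 0 1).inter (h 2 3)

theorem Psi_sq_0 (p : X3 × H) : Psi p 0 ^ 2 + Psi p 1 ^ 2 = Real.exp p.2.re ^ 2 := by
  have := Real.sin_sq_add_cos_sq (p.1 0)
  simp only [Psi_0, Psi_1]
  linear_combination Real.exp p.2.re ^ 2 * this

theorem Psi_sq_1 (p : X3 × H) : Psi p 2 ^ 2 + Psi p 3 ^ 2 = Real.exp p.2.imI ^ 2 := by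
  have := Real.sin_sq_add_cos_sq (p.1 1)
  simp only [Psi_2, Psi_3]
  linear_combination Real.exp p.2.imI ^ 2 * this

theorem Psi_mem_U7 (p : X3 × H) : Psi p ∈ U7 := by
  refine ⟨?_, ?_⟩
  · rw [Psi_sq_0]; positivity
  · rw [Psi_sq_1]; positivity

/-- A (discontinuous) section of the chart. -/
noncomputable def sig (w : R7) : X3 × H :=
  (![Complex.arg ⟨w 0, w 1⟩, Complex.arg ⟨w 2, w 3⟩, w 4],
    ⟨Real.log ‖(⟨w 0, w 1⟩ : ℂ)‖, Real.log ‖(⟨w 2, w 3⟩ : ℂ)‖, w 5, w 6⟩)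

theorem norm_mk (a b : ℝ) : ‖(⟨a, b⟩ : ℂ)‖ = Real.sqrt (a ^ 2 + b ^ 2) := by
  rw [Complex.norm_eq_sqrt_sq_add_sq]

theorem Psi_sig {w : R7} (hw : w ∈ U7) : Psi (sig w) = w := by
  have h0 : (⟨w 0, w 1⟩ : ℂ) ≠ 0 := by
    intro h
    have h1 := congrArg Complex.re h
    have h2 := congrArg Complex.im h
    simp only [Complex.zero_re, Complex.zero_im] at h1 h2
    have := hw.1
    rw [h1, h2] at this
    simp at this
  have h1 : (⟨w 2, w 3⟩ : ℂ) ≠ 0 := by
    intro h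
    have h1 := congrArg Complex.re h
    have h2 := congrArg Complex.im h
    simp only [Complex.zero_re, Complex.zero_im] at h1 h2
    have := hw.2
    rw [h1, h2] at this
    simp at this
  have n0 : 0 < ‖(⟨w 0, w 1⟩ : ℂ)‖ := norm_pos_iff.mpr h0
  have n1 : 0 < ‖(⟨w 2, w 3⟩ : ℂ)‖ := norm_pos_iff.mpr h1
  ext i
  fin_cases i
  · change Real.exp (Real.log ‖(⟨w 0, w 1⟩ : ℂ)‖) * Real.cos (Complex.arg ⟨w 0, w 1⟩) = w 0
    rw [Real.exp_log n0, Complex.cos_arg h0]
    field_simp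
  · change Real.exp (Real.log ‖(⟨w 0, w 1⟩ : ℂ)‖) * Real.sin (Complex.arg ⟨w 0, w 1⟩) = w 1
    rw [Real.exp_log n0, Complex.sin_arg]
    field_simp
  · change Real.exp (Real.log ‖(⟨w 2, w 3⟩ : ℂ)‖) * Real.cos (Complex.arg ⟨w 2, w 3⟩) = w 2
    rw [Real.exp_log n1, Complex.cos_arg h1]
    field_simp
  · change Real.exp (Real.log ‖(⟨w 2, w 3⟩ : ℂ)‖) * Real.sin (Complex.arg ⟨w 2, w 3⟩) = w 3
    rw [Real.exp_log n1, Complex.sin_arg]
    field_simp
  · rfl
  · rfl
  · rfl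

theorem angle_aux {a b : ℝ} (hc : Real.cos a = Real.cos b) (hs : Real.sin a = Real.sin b) :
    ∃ k : ℤ, a = b + k * (2 * Real.pi) := by
  have h := Real.Angle.cos_sin_inj hc hs
  rw [Real.Angle.angle_eq_iff_two_pi_dvd_sub] at h
  obtain ⟨k, hk⟩ := h
  exact ⟨k, by linarith⟩

/-- Two points with the same image differ by a period. -/
theorem Psi_inj_mod {p q : X3 × H} (h : Psi p = Psi q) :
    ∃ m n : ℤ, p = (q.1 + (m * (2 * Real.pi)) • ee 0 + (n * (2 * Real.pi)) • ee 1, q.2) := by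
  have hre : p.2.re = q.2.re := by
    have h1 : Real.exp p.2.re ^ 2 = Real.exp q.2.re ^ 2 := by rw [← Psi_sq_0, ← Psi_sq_0, h]
    have h2 := (pow_left_inj₀ (Real.exp_pos _).le (Real.exp_pos _).le two_ne_zero).1 h1
    exact Real.exp_injective h2
  have hI : p.2.imI = q.2.imI := by
    have h1 : Real.exp p.2.imI ^ 2 = Real.exp q.2.imI ^ 2 := by rw [← Psi_sq_1, ← Psi_sq_1, h]
    have h2 := (pow_left_inj₀ (Real.exp_pos _).le (Real.exp_pos _).le two_ne_zero).1 h1
    exact Real.exp_injective h2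
  have e0 : Psi p 0 = Psi q 0 := by rw [h]
  have e1 : Psi p 1 = Psi q 1 := by rw [h]
  have e2 : Psi p 2 = Psi q 2 := by rw [h]
  have e3 : Psi p 3 = Psi q 3 := by rw [h]
  have e4 : Psi p 4 = Psi q 4 := by rw [h]
  have e5 : Psi p 5 = Psi q 5 := by rw [h]
  have e6 : Psi p 6 = Psi q 6 := by rw [h]
  simp only [Psi_0, Psi_1, Psi_2, Psi_3, Psi_4, Psi_5, Psi_6, hre, hI] at e0 e1 e2 e3 e4 e5 e6
  have p0 := Real.exp_pos q.2.re
  have p1 := Real.exp_pos q.2.imI
  obtain ⟨m, hm⟩ := angle_aux (mul_left_cancel₀ p0.ne' e0) (mul_left_cancel₀ p0.ne' e1)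
  obtain ⟨n, hn⟩ := angle_aux (mul_left_cancel₀ p1.ne' e2) (mul_left_cancel₀ p1.ne' e3)
  refine ⟨m, n, Prod.ext ?_ ?_⟩
  · funext i
    fin_cases i
    · simp [ee, hm]
    · simp [ee, hn]
    · simp [ee, e4]
  · ext
    · exact hre
    · exact hI
    · exact e5
    · exact e6

/-! ### Periodic fields -/

/-- Periodicity in the first two coordinates. -/
def Per {F : Type*} (f : X3 × H → F) : Prop :=
  (∀ p : X3 × H, f (p.1 + (2 * Real.pi) • ee 0, p.2) = f p) ∧
    ∀ p : X3 × H, f (p.1 + (2 * Real.pi) • ee 1, p.2) = f p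

theorem per_int_aux {F : Type*} {f : X3 × H → F} {e : X3}
    (h : ∀ p : X3 × H, f (p.1 + (2 * Real.pi) • e, p.2) = f p) (m : ℤ) (p : X3 × H) :
    f (p.1 + (m * (2 * Real.pi)) • e, p.2) = f p := by
  have hp : Function.Periodic (fun s : ℝ => f (p.1 + s • e, p.2)) (2 * Real.pi) := by
    intro s
    have := h (p.1 + s • e, p.2)
    simp only at this
    change f (p.1 + (s + 2 * Real.pi) • e, p.2) = f (p.1 + s • e, p.2)
    rw [← this, add_smul, add_assoc]
  have h1 := hp.int_mul m 0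
  simpa using h1

theorem Per.int {F : Type*} {f : X3 × H → F} (h : Per f) (m n : ℤ) (p : X3 × H) :
    f (p.1 + (m * (2 * Real.pi)) • ee 0 + (n * (2 * Real.pi)) • ee 1, p.2) = f p := by
  have h1 := per_int_aux h.2 n (p.1 + (m * (2 * Real.pi)) • ee 0, p.2)
  simp only at h1
  rw [h1]
  exact per_int_aux h.1 m p

theorem Per.eq_of_Psi {F : Type*} {f : X3 × H → F} (h : Per f) {p q : X3 × H}
    (hpq : Psi p = Psi q) : f p = f q := by
  obtain ⟨m, n, hmn⟩ := Psi_inj_mod hpq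
  rw [hmn]
  exact h.int m n q

theorem Per.sig_Psi {F : Type*} {f : X3 × H → F} (h : Per f) (p : X3 × H) :
    f (sig (Psi p)) = f p := h.eq_of_Psi (Psi_sig (Psi_mem_U7 p))

theorem per_Psi : Per Psi := by
  constructor
  · intro p
    ext i
    fin_cases i <;> simp [Psi, ee, Real.cos_add_two_pi, Real.sin_add_two_pi]
  · intro p
    ext i
    fin_cases i <;> simp [Psi, ee, Real.cos_add_two_pi, Real.sin_add_two_pi]

theorem per_DPsi : Per DPsi := by
  constructor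
  · intro p
    refine ContinuousLinearMap.ext fun v => ?_
    ext i
    fin_cases i <;> simp [DPsi, DPsiC, ee, Real.cos_add_two_pi, Real.sin_add_two_pi]
  · intro p
    refine ContinuousLinearMap.ext fun v => ?_
    ext i
    fin_cases i <;> simp [DPsi, DPsiC, ee, Real.cos_add_two_pi, Real.sin_add_two_pi]

theorem Per.comp {F G : Type*} {f : X3 × H → F} (h : Per f) (g : F → G) :
    Per (fun p => g (f p)) := ⟨fun p => congrArg g (h.1 p), fun p => congrArg g (h.2 p)⟩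

theorem Per.comp₂ {F G K : Type*} {f : X3 × H → F} {f' : X3 × H → G} (h : Per f) (h' : Per f')
    (g : F → G → K) : Per (fun p => g (f p) (f' p)) :=
  ⟨fun p => by simp only [h.1 p, h'.1 p], fun p => by simp only [h.2 p, h'.2 p]⟩

theorem per_DInv : Per DInv := by
  have h : DInv = fun p => ContinuousLinearMap.inverse (DPsi p) := funext DInv_eq_inverse
  rw [h]
  exact per_DPsi.comp _

/-! ### Push forward -/

open Classical in
/-- Push forward of a periodic field to `R^7`, extended by `0`. -/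
noncomputable def push {F : Type*} [Zero F] (f : X3 × H → F) (w : R7) : F :=
  if w ∈ U7 then f (sig w) else 0

theorem push_of_mem {F : Type*} [Zero F] (f : X3 × H → F) {w : R7} (hw : w ∈ U7) :
    push f w = f (sig w) := by
  rw [push, if_pos hw]

theorem push_of_not_mem {F : Type*} [Zero F] (f : X3 × H → F) {w : R7} (hw : w ∉ U7) :
    push f w = 0 := by
  rw [push, if_neg hw]

theorem push_Psi {F : Type*} [Zero F] {f : X3 × H → F} (h : Per f) (p : X3 × H) :
    push f (Psi p) = f p := by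
  rw [push_of_mem f (Psi_mem_U7 p), h.sig_Psi]

/-- Every point of `U7` is `Psi p`. -/
theorem exists_Psi {w : R7} (hw : w ∈ U7) : ∃ p, Psi p = w := ⟨sig w, Psi_sig hw⟩

section smooth

variable {F : Type*} [NormedAddCommGroup F] [NormedSpace ℝ F]

theorem contDiffAt_push {f : X3 × H → F} (hf : Per f) {n : WithTop ℕ∞} (hn : n ≠ 0)
    {p : X3 × H} (h : ContDiffAt ℝ n f p) : ContDiffAt ℝ n (push f) (Psi p) := by
  have hP : ContDiffAt ℝ n Psi p := contDiff_Psi.contDiffAt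
  have hD : HasFDerivAt Psi (DPsiE p : X3 × H →L[ℝ] R7) p := by
    rw [coe_DPsiE]; exact hasFDerivAt_Psi p
  have h1 := hP.to_localInverse hD hn
  have h2 : hP.localInverse hD hn (Psi p) = p := hP.localInverse_apply_image hD hn
  have h3 : ∀ᶠ w in 𝓝 (Psi p), Psi (hP.localInverse hD hn w) = w :=
    HasStrictFDerivAt.eventually_right_inverse (hP.hasStrictFDerivAt' hD hn)
  have h4 : ContDiffAt ℝ n (fun w => f (hP.localInverse hD hn w)) (Psi p) := by
    refine ContDiffAt.comp (Psi p) ?_ h1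
    rw [h2]
    exact h
  refine h4.congr_of_eventuallyEq ?_
  filter_upwards [h3] with w hw
  rw [← push_Psi hf, hw]

theorem contDiff_push {f : X3 × H → F} (hf : Per f) {n : WithTop ℕ∞} (hn : n ≠ 0)
    (h : ContDiff ℝ n f) (hR : ∃ R, ∀ p, f p ≠ 0 → ‖p.2‖ ≤ R) : ContDiff ℝ n (push f) := by
  rw [contDiff_iff_contDiffAt]
  intro w
  by_cases hw : w ∈ U7
  · obtain ⟨p, rfl⟩ := exists_Psi hw
    exact contDiffAt_push hf hn h.contDiffAt
  · obtain ⟨R, hR⟩ := hR
    have hz : ∀ q : X3 × H, (Psi q 0 ^ 2 + Psi q 1 ^ 2 < Real.exp (-R) ^ 2 ∨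
        Psi q 2 ^ 2 + Psi q 3 ^ 2 < Real.exp (-R) ^ 2) → f q = 0 := by
      intro q hq
      by_contra hne
      have h1 := hR q hne
      rcases hq with hq | hq
      · rw [Psi_sq_0] at hq
        have h2 : Real.exp q.2.re < Real.exp (-R) :=
          lt_of_pow_lt_pow_left₀ 2 (Real.exp_pos _).le hq
        have h3 := Real.exp_lt_exp.1 h2
        have h4 := absH_re_le q.2
        have h5 := neg_abs_le q.2.re
        linarith
      · rw [Psi_sq_1] at hq
        have h2 : Real.exp q.2.imI < Real.exp (-R) :=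
          lt_of_pow_lt_pow_left₀ 2 (Real.exp_pos _).le hq
        have h3 := Real.exp_lt_exp.1 h2
        have h4 := absH_imI_le q.2
        have h5 := neg_abs_le q.2.imI
        linarith
    have hor : w 0 ^ 2 + w 1 ^ 2 < Real.exp (-R) ^ 2 ∨ w 2 ^ 2 + w 3 ^ 2 < Real.exp (-R) ^ 2 := by
      have hpos : 0 < Real.exp (-R) ^ 2 := by positivity
      by_contra hc
      push Not at hc
      exact hw ⟨lt_of_lt_of_le hpos hc.1, lt_of_lt_of_le hpos hc.2⟩
    have hopen : IsOpen {v : R7 | v 0 ^ 2 + v 1 ^ 2 < Real.exp (-R) ^ 2 ∨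
        v 2 ^ 2 + v 3 ^ 2 < Real.exp (-R) ^ 2} := by
      have h : ∀ i j : Fin 7, IsOpen {w : R7 | w i ^ 2 + w j ^ 2 < Real.exp (-R) ^ 2} :=
        fun i j => isOpen_lt
          (((continuous_coord7 i).pow 2).add ((continuous_coord7 j).pow 2)) continuous_const
      exact (h 0 1).union (h 2 3)
    have hev : push f =ᶠ[𝓝 w] fun _ => (0 : F) := by
      filter_upwards [hopen.mem_nhds hor] with v hv
      by_cases hvU : v ∈ U7
      · obtain ⟨q, rfl⟩ := exists_Psi hvU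
        rw [push_Psi hf]
        exact hz q hv
      · exact push_of_not_mem f hvU
    exact contDiffAt_const.congr_of_eventuallyEq hev

end smooth

theorem hasCompactSupport_push {F : Type*} [Zero F] {f : X3 × H → F} (hf : Per f)
    (hR : ∃ R, ∀ p, f p ≠ 0 → ‖p.2‖ ≤ R ∧ |p.1 2| ≤ R) : HasCompactSupport (push f) := by
  obtain ⟨R, hR⟩ := hR
  refine HasCompactSupport.intro (isCompact_closedBall (0 : R7)
    (Real.sqrt (2 * Real.exp R ^ 2 + 3 * R ^ 2))) ?_
  intro w hw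
  by_contra hne
  apply hw
  have hwU : w ∈ U7 := by
    by_contra h
    exact hne (push_of_not_mem f h)
  obtain ⟨p, rfl⟩ := exists_Psi hwU
  rw [push_Psi hf] at hne
  obtain ⟨h1, h2⟩ := hR p hne
  rw [mem_closedBall_zero_iff, EuclideanSpace.norm_eq]
  apply Real.sqrt_le_sqrt
  simp only [Fin.sum_univ_seven, Real.norm_eq_abs, sq_abs]
  have e0 := Psi_sq_0 p
  have e1 := Psi_sq_1 p
  have hR0 : 0 ≤ R := le_trans (norm_nonneg _) h1
  have f0 : Real.exp p.2.re ^ 2 ≤ Real.exp R ^ 2 := by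
    have : Real.exp p.2.re ≤ Real.exp R :=
      Real.exp_le_exp.2 (le_trans (le_abs_self _) (le_trans (absH_re_le _) h1))
    gcongr
  have f1 : Real.exp p.2.imI ^ 2 ≤ Real.exp R ^ 2 := by
    have : Real.exp p.2.imI ≤ Real.exp R :=
      Real.exp_le_exp.2 (le_trans (le_abs_self _) (le_trans (absH_imI_le _) h1))
    gcongr
  have f4 : (p.1 2) ^ 2 ≤ R ^ 2 := sq_le_sq' (by linarith [neg_abs_le (p.1 2)])
    (le_trans (le_abs_self _) h2)
  have f5 : p.2.imJ ^ 2 ≤ R ^ 2 := by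
    have := le_trans (absH_imJ_le p.2) h1
    exact sq_le_sq' (by linarith [neg_abs_le p.2.imJ]) (le_trans (le_abs_self _) this)
  have f6 : p.2.imK ^ 2 ≤ R ^ 2 := by
    have := le_trans (absH_imK_le p.2) h1
    exact sq_le_sq' (by linarith [neg_abs_le p.2.imK]) (le_trans (le_abs_self _) this)
  simp only [Psi_4, Psi_5, Psi_6]
  nlinarith [e0, e1]

/-! ### Cut-off functions -/

/-- Product of a cut-off in `t` and a cut-off in `‖y‖`. -/
noncomputable def cutTY (a a' b b' : ℝ) (p : X3 × H) : ℝ :=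
  Real.smoothTransition ((a' ^ 2 - (p.1 2) ^ 2) / (a' ^ 2 - a ^ 2)) *
    Real.smoothTransition ((b' ^ 2 - ‖p.2‖ ^ 2) / (b' ^ 2 - b ^ 2))

theorem contDiff_cutTY (a a' b b' : ℝ) {n : ℕ∞} : ContDiff ℝ n (cutTY a a' b b') := by
  have h1 : ContDiff ℝ n fun p : X3 × H => (p.1 2) ^ 2 := ((pX 2).contDiff).pow 2
  have h2 : ContDiff ℝ n fun p : X3 × H => ‖p.2‖ ^ 2 := contDiff_snd.norm_sq ℝ
  exact (Real.smoothTransition.contDiff.comp ((contDiff_const.sub h1).div_const _)).mul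
    (Real.smoothTransition.contDiff.comp ((contDiff_const.sub h2).div_const _))

theorem per_cutTY (a a' b b' : ℝ) : Per (cutTY a a' b b') := by
  constructor
  · intro p
    simp [cutTY, ee]
  · intro p
    simp [cutTY, ee]

theorem cutTY_nonneg (a a' b b' : ℝ) (p : X3 × H) : 0 ≤ cutTY a a' b b' p :=
  mul_nonneg (Real.smoothTransition.nonneg _) (Real.smoothTransition.nonneg _)

theorem cutTY_le_one (a a' b b' : ℝ) (p : X3 × H) : cutTY a a' b b' p ≤ 1 :=
  mul_le_one₀ (Real.smoothTransition.le_one _) (Real.smoothTransition.nonneg _)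
    (Real.smoothTransition.le_one _)

theorem cutTY_eq_one {a a' b b' : ℝ} (ha : 0 ≤ a) (haa : a < a') (hb : 0 ≤ b) (hbb : b < b')
    {p : X3 × H} (h1 : |p.1 2| ≤ a) (h2 : ‖p.2‖ ≤ b) : cutTY a a' b b' p = 1 := by
  have d1 : 0 < a' ^ 2 - a ^ 2 := by nlinarith
  have d2 : 0 < b' ^ 2 - b ^ 2 := by nlinarith
  have s1 : (p.1 2) ^ 2 ≤ a ^ 2 := by
    rw [← sq_abs]
    exact pow_le_pow_left₀ (abs_nonneg _) h1 2
  have s2 : ‖p.2‖ ^ 2 ≤ b ^ 2 := pow_le_pow_left₀ (norm_nonneg _) h2 2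
  rw [cutTY, Real.smoothTransition.one_of_one_le, Real.smoothTransition.one_of_one_le, one_mul]
  · rw [le_div_iff₀ d2]; linarith
  · rw [le_div_iff₀ d1]; linarith

theorem cutTY_eq_zero_left {a a' b b' : ℝ} (ha : 0 ≤ a) (haa : a < a')
    {p : X3 × H} (h1 : a' ≤ |p.1 2|) : cutTY a a' b b' p = 0 := by
  have d1 : 0 < a' ^ 2 - a ^ 2 := by nlinarith
  have s1 : a' ^ 2 ≤ (p.1 2) ^ 2 := by
    rw [← sq_abs (p.1 2)]
    exact pow_le_pow_left₀ (by linarith) h1 2
  rw [cutTY, Real.smoothTransition.zero_of_nonpos, zero_mul]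
  exact div_nonpos_of_nonpos_of_nonneg (by linarith) d1.le

theorem cutTY_eq_zero_right {a a' b b' : ℝ} (hb : 0 ≤ b) (hbb : b < b')
    {p : X3 × H} (h1 : b' ≤ ‖p.2‖) : cutTY a a' b b' p = 0 := by
  have d1 : 0 < b' ^ 2 - b ^ 2 := by nlinarith
  have s1 : b' ^ 2 ≤ ‖p.2‖ ^ 2 := pow_le_pow_left₀ (by linarith) h1 2
  rw [cutTY, Real.smoothTransition.zero_of_nonpos
    (x := (b' ^ 2 - ‖p.2‖ ^ 2) / (b' ^ 2 - b ^ 2)), mul_zero]
  exact div_nonpos_of_nonpos_of_nonneg (by linarith) d1.le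

theorem cutTY_ne_zero {a a' b b' : ℝ} (ha : 0 ≤ a) (haa : a < a') (hb : 0 ≤ b) (hbb : b < b')
    {p : X3 × H} (h : cutTY a a' b b' p ≠ 0) : |p.1 2| < a' ∧ ‖p.2‖ < b' := by
  constructor
  · by_contra hc
    exact h (cutTY_eq_zero_left ha haa (not_lt.1 hc))
  · by_contra hc
    exact h (cutTY_eq_zero_right hb hbb (not_lt.1 hc))

end Pool.Agent.BSS
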