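import Pool.Agent.BSS.SMod0

/-!
# Tame bounds for `b` and for the symmetric operators `S^raw`
-/

open Set Filter Metric
open scoped ContDiff Topology

namespace Pool.Agent.BSS

/-- the correction field `b` -/
noncomputable def bfld (u : X3 → H) (x : X3) : H :=
  -((1 - om3 (pd u 0 x) (pd u 1 x))⁻¹ • (J3 (dirac u x) + (om1 (pd u 0 x) (pd u 1 x) • pd u 0 x
    + om2 (pd u 0 x) (pd u 1 x) • pd u 1 x + om3 (pd u 0 x) (pd u 1 x) • pd u 2 x)))

/-- the symmetric operator which sends `u` to `τ` -/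
noncomputable def sraw (τ u : H) : H →L[ℝ] H :=
  (inner ℝ u u : ℝ)⁻¹ • ((innerSL ℝ u).smulRight τ + (innerSL ℝ τ).smulRight u)
    - ((inner ℝ τ u : ℝ) * ((inner ℝ u u : ℝ)⁻¹ * (inner ℝ u u : ℝ)⁻¹)) • (innerSL ℝ u).smulRight u

variable {ι : Type*} {O : ι → Set X3} {M w e : ι → X3 → ℝ} {u : ι → X3 → H}

/-- product of weights -/
theorem wt_bound_one (hD : Dom O M)
    (he1 : ∀ i, ∀ x ∈ O i, e i x ≤ 1) {C : ℕ}
    (hm : ∀ i, ∀ x ∈ O i, w i x * w i x ≤ C * M i x ^ C * e i x) :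
    ∀ i, ∀ x ∈ O i, w i x * w i x ≤ C * M i x ^ C * 1 := by
  intro i x hx
  refine (hm i x hx).trans ?_
  have h1 := hD.one_le i x hx
  have h0 : (0:ℝ) ≤ C * M i x ^ C := by
    have : 0 ≤ M i x := by linarith
    positivity
  exact mul_le_mul_of_nonneg_left (he1 i x hx) h0

theorem mfam_bfld (hu : MFam O M w u)
    (hD : MFam O M (fun i x => e i x * w i x) (fun i x => dirac (u i) x))
    (he1 : ∀ i, ∀ x ∈ O i, e i x ≤ 1) (he0 : ∀ i, ∀ x ∈ O i, 0 ≤ e i x) {C : ℕ}
    (hm : ∀ i, ∀ x ∈ O i, w i x * w i x ≤ C * M i x ^ C * e i x)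
    (hom : ∀ i, ∀ x ∈ O i, 1 / 2 ≤ 1 - om3 (pd (u i) 0 x) (pd (u i) 1 x)) :
    MFam O M (fun i x => e i x * w i x) (fun i x => bfld (u i) x) := by
  have hw : ∀ i, ∀ x ∈ O i, 0 ≤ w i x := fun i x hx => hu.nonneg i hx
  have hew : ∀ i, ∀ x ∈ O i, 0 ≤ e i x * w i x := fun i x hx => mul_nonneg (he0 i x hx) (hw i x hx)
  have hm1 := wt_bound_one hu.dom he1 hm
  have p0 := hu.pd 0
  have p1 := hu.pd 1
  have p2 := hu.pd 2
  have o1 := p0.om1 p1
  have o2 := p0.om2 p1
  have o3 := p0.om3 p1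
  -- the cubic terms
  have key : ∀ {a : ι → X3 → ℝ} {p : ι → X3 → H}, MFam O M (fun i x => w i x * w i x) a →
      MFam O M w p → MFam O M (fun i x => e i x * w i x) (fun i x => a i x • p i x) := by
    intro a p ha hp
    refine (ha.smul hp).weight (C' := C) hew fun i x hx => ?_
    have h1 := hm i x hx
    have h2 := hw i x hx
    calc w i x * w i x * w i x ≤ C * M i x ^ C * e i x * w i x :=
          mul_le_mul_of_nonneg_right h1 h2
      _ = _ := by ring
  have q1 := key o1 p0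
  have q2 := key o2 p1
  have q3 := key o3 p2
  have hsum := hD.J3.add ((q1.add q2).add q3)
  -- the inverse
  have o3' : MFam O M (fun _ _ => 1) (fun i x => om3 (pd (u i) 0 x) (pd (u i) 1 x)) :=
    o3.weight (C' := C) (fun _ _ _ => zero_le_one) hm1
  have hden : MFam O M (fun _ _ => 1) (fun i x => 1 - om3 (pd (u i) 0 x) (pd (u i) 1 x)) :=
    (MFam.const_one hu.dom (1:ℝ)).sub o3'
  have hinv := hden.inv (C' := 2) (fun _ _ _ => zero_lt_one) (fun i x hx => by
    have h1 := hom i x hx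
    have h2 := hu.one_le i hx
    rw [abs_of_pos (by linarith)]
    push_cast
    nlinarith [sq_nonneg (M i x)])
  have hfin := (hinv.smul hsum).neg
  refine (hfin.weight (C' := 1) hew fun i x hx => ?_)
  have h2 := hu.one_le i hx
  have h3 := hew i x hx
  simp only [inv_one, one_mul, Nat.cast_one, pow_one]
  nlinarith

theorem mfam_sraw {τ : ι → X3 → H} (hu : MFam O M w u)
    (hτ : MFam O M (fun i x => e i x * w i x) τ)
    (he0 : ∀ i, ∀ x ∈ O i, 0 ≤ e i x)
    (hw : ∀ i, ∀ x ∈ O i, 0 < w i x) {C : ℕ}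
    (hlow : ∀ i, ∀ x ∈ O i, w i x ≤ C * M i x ^ C * ‖u i x‖) :
    MFam O M e (fun i x => sraw (τ i x) (u i x)) := by
  have hww : ∀ i, ∀ x ∈ O i, 0 < w i x * w i x := fun i x hx => mul_pos (hw i x hx) (hw i x hx)
  have huu := hu.inner hu
  have hinv := huu.inv (C' := C * C + C + C) hww (fun i x hx => by
    have h1 := hlow i x hx
    have h0 := (hw i x hx).le
    have hM := hu.one_le i hx
    have hM0 : 0 ≤ M i x := by linarith
    have h2 : |(inner ℝ (u i x) (u i x) : ℝ)| = ‖u i x‖ * ‖u i x‖ := by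
      rw [real_inner_self_eq_norm_mul_norm, abs_of_nonneg (by positivity)]
    rw [h2]
    calc w i x * w i x ≤ (C * M i x ^ C * ‖u i x‖) * (C * M i x ^ C * ‖u i x‖) := by gcongr
      _ = ((C * C : ℕ) : ℝ) * M i x ^ (C + C) * (‖u i x‖ * ‖u i x‖) := by push_cast; ring
      _ ≤ _ := by
          refine tb_le ?_ (by omega) hM (by positivity)
          exact_mod_cast (show C * C ≤ C * C + C + C by omega))
  have r1 := hu.rankOne hτ
  have r2 := (hτ.rankOne hu).weight_le (w' := fun i x => w i x * (e i x * w i x))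
    (fun i x hx => by linarith [mul_comm (w i x) (e i x * w i x)])
  have r3 := hu.rankOne hu
  have t1 := hinv.smul (r1.add r2)
  have t2 := ((hτ.inner hu).mul (hinv.mul hinv)).smul r3
  have fin : ∀ {W : ι → X3 → ℝ} {f : ι → X3 → H →L[ℝ] H}, MFam O M W f →
      (∀ i, ∀ x ∈ O i, W i x = e i x) → MFam O M e f := by
    intro W f hf h
    exact hf.weight_le fun i x hx => (h i x hx).le
  refine (fin t1 fun i x hx => ?_).sub (fin t2 fun i x hx => ?_)
  · have := (hw i x hx).ne'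
    field_simp
  · have := (hw i x hx).ne'
    field_simp

end Pool.Agent.BSS
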