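import Pool.Agent.BSS.SRaw
import Pool.Agent.BSS.SMod1

/-!
# Bridge between `SRaw` (identities) and `SMod1` (tame bounds)

`bfld u x = bF u x` and `sraw τ u = symOp u τ`; the identities of `SRaw` for `bfld`, `sraw`.
-/

set_option autoImplicit false

open scoped RealInnerProductSpace ContDiff

namespace Pool.Agent.BSS

theorem bfld_eq_bF (u : X3 → H) (x : X3) : bfld u x = bF u x := by
  unfold bfld bF bq bnum dirac
  rw [← smul_neg]
  congr 2
  abel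

theorem bfld_eq_fun (u : X3 → H) : bfld u = bF u := funext (bfld_eq_bF u)

theorem sraw_eq_symOp (τ u : H) : sraw τ u = symOp u τ := by
  refine ContinuousLinearMap.ext fun y => ?_
  rw [symOp_apply]
  simp only [sraw, sub_apply, smul_apply, add_apply,
    ContinuousLinearMap.smulRight_apply, innerSL_apply_apply]
  congr 2
  ring

theorem sraw_self {u : H} (hu : u ≠ 0) (τ : H) : sraw τ u u = τ := by
  rw [sraw_eq_symOp]; exact symOp_self hu τ

theorem sraw_symm (τ u a b : H) : ⟪sraw τ u a, b⟫ = ⟪a, sraw τ u b⟫ := by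
  rw [sraw_eq_symOp]; exact symOp_symm _ _ _ _

@[simp] theorem sraw_zero (u : H) : sraw 0 u = 0 := by
  rw [sraw_eq_symOp]; exact symOp_zero_right u

@[simp] theorem sraw_zero_right (τ : H) : sraw τ 0 = 0 := by
  rw [sraw_eq_symOp]; exact symOp_zero_left τ

theorem norm_sraw_le (τ u : H) : ‖sraw τ u‖ ≤ 3 * (‖τ‖ / ‖u‖) := by
  rw [sraw_eq_symOp]; exact norm_symOp_le _ _

/-- The equation of theorem AT for `bfld`. -/
theorem bfld_spec {u : X3 → H} {x : X3} (h : om3 (pd u 0 x) (pd u 1 x) ≠ 1) :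
    (1 - om3 (pd u 0 x) (pd u 1 x)) • (pd u 2 x - bfld u x)
      = J2 (pd u 0 x) - J1 (pd u 1 x) + om1 (pd u 0 x) (pd u 1 x) • pd u 0 x
        + om2 (pd u 0 x) (pd u 1 x) • pd u 1 x := by
  rw [bfld_eq_bF]; exact bq_spec _ h

theorem bfld_zero {u : X3 → H} {x : X3} (hd : fderiv ℝ u x = 0) : bfld u x = 0 := by
  rw [bfld_eq_bF]; simp [bF, pd, hd]

theorem norm_bfld_le {u : X3 → H} {x : X3} {a : ℝ} (ha : ∀ i, ‖pd u i x‖ ≤ a)
    (ha' : a ≤ 1 / 10) : ‖bfld u x‖ ≤ 2 * ‖dirac u x‖ + 6 * a ^ 3 := by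
  rw [bfld_eq_bF]; exact norm_bF_le ha ha'

theorem contDiffAt_bfld {u : X3 → H} {x : X3} (h : ContDiffAt ℝ ∞ u x)
    (h1 : om3 (pd u 0 x) (pd u 1 x) ≠ 1) : ContDiffAt ℝ ∞ (bfld u) x := by
  rw [bfld_eq_fun]; exact contDiffAt_bF h h1

theorem contDiffAt_sraw {E : Type*} [NormedAddCommGroup E] [NormedSpace ℝ E] {n : WithTop ℕ∞}
    {u τ : E → H} {x : E} (hu : ContDiffAt ℝ n u x) (hτ : ContDiffAt ℝ n τ x) (h0 : u x ≠ 0) :
    ContDiffAt ℝ n (fun y => sraw (τ y) (u y)) x := by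
  have : (fun y => sraw (τ y) (u y)) = fun y => symOp (u y) (τ y) := by
    funext y; exact sraw_eq_symOp _ _
  rw [this]; exact contDiffAt_symOp hu hτ h0

/-- The three conditions of AT at `x`, when `u x ≠ 0` and `S_i = p • sraw τ_i u` with `p = 1`. -/
theorem AT_of_sraw {u : X3 → H} {x : X3} (h0 : u x ≠ 0) (h : om3 (pd u 0 x) (pd u 1 x) ≠ 1)
    {T1 T2 : H →L[ℝ] H} (h1 : T1 = sraw (J2 (bfld u x)) (u x))
    (h2 : T2 = sraw (-J1 (bfld u x)) (u x)) :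
    ∃ b : H, T1 (u x) = J2 b ∧ T2 (u x) = -J1 b ∧
      (1 - om3 (pd u 0 x) (pd u 1 x)) • (pd u 2 x - b)
        = J2 (pd u 0 x) - J1 (pd u 1 x) + om1 (pd u 0 x) (pd u 1 x) • pd u 0 x
          + om2 (pd u 0 x) (pd u 1 x) • pd u 1 x :=
  ⟨bfld u x, by rw [h1, sraw_self h0], by rw [h2, sraw_self h0], bfld_spec h⟩

end Pool.Agent.BSS
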