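import Pool.Agent.BSS.Base
import Pool.Agent.BSS.Tame2

/-!
# Tame bounds for the partial derivatives, the Dirac operator and the forms `om_i`
-/

open Set Filter Metric
open scoped ContDiff Topology

namespace Pool.Agent.BSS

variable {ι : Type*} {O : ι → Set X3} {M w v : ι → X3 → ℝ} {u : ι → X3 → H}

theorem MFam.pd (hu : MFam O M w u) (j : Fin 3) :
    MFam O M w (fun i x => pd (u i) j x) := hu.fderiv_apply (ee j)

theorem MFam.J1 (hu : MFam O M w u) : MFam O M w (fun i x => J1 (u i x)) :=
  hu.clm (ContinuousLinearMap.mul ℝ H qi)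

theorem MFam.J2 (hu : MFam O M w u) : MFam O M w (fun i x => J2 (u i x)) :=
  hu.clm (ContinuousLinearMap.mul ℝ H qj)

theorem MFam.J3 (hu : MFam O M w u) : MFam O M w (fun i x => J3 (u i x)) :=
  hu.clm (ContinuousLinearMap.mul ℝ H qk)

theorem MFam.dirac (hu : MFam O M w u) : MFam O M w (fun i x => dirac (u i) x) :=
  ((hu.pd 0).J1.add (hu.pd 1).J2).add (hu.pd 2).J3

theorem MFam.om1 {a b : ι → X3 → H} (ha : MFam O M w a) (hb : MFam O M v b) :
    MFam O M (fun i x => w i x * v i x) (fun i x => om1 (a i x) (b i x)) := ha.J1.inner hb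

theorem MFam.om2 {a b : ι → X3 → H} (ha : MFam O M w a) (hb : MFam O M v b) :
    MFam O M (fun i x => w i x * v i x) (fun i x => om2 (a i x) (b i x)) := ha.J2.inner hb

theorem MFam.om3 {a b : ι → X3 → H} (ha : MFam O M w a) (hb : MFam O M v b) :
    MFam O M (fun i x => w i x * v i x) (fun i x => om3 (a i x) (b i x)) := ha.J3.inner hb

end Pool.Agent.BSS
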