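import Pool.Agent.BSS.Fields

/-!
# MP_bff03b_an (BSS), G2: the calibration equality on the two sheets
-/

set_option autoImplicit false
set_option maxSynthPendingDepth 3

open Set Filter Topology
open scoped ContDiff

namespace Pool.Agent.BSS

variable {u : X3 → H} {S1 S2 : X3 → H →L[ℝ] H}

/-- Rewriting of `PhiM` and of the Gram determinant of `gM` through 18's `PhiF`, `gF`. -/
theorem PData.calib_reduce (D : PData u S1 S2) (p v1 v2 v3 : ME)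
    (h : PhiF (phiF u S1 S2 p) (S1 p.1 p.2) (S2 p.1 p.2) v1 v2 v3 =
        √(gram3 (gF (phiF u S1 S2 p) (S1 p.1 p.2) (S2 p.1 p.2)) v1 v2 v3) ∧
      0 < PhiF (phiF u S1 S2 p) (S1 p.1 p.2) (S2 p.1 p.2) v1 v2 v3) :
    0 < PhiM u S1 S2 p ![v1, v2, v3] ∧
      PhiM u S1 S2 p ![v1, v2, v3] = √(gram3 (fun v w => gM u S1 S2 p v w) v1 v2 v3) := by
  have e : PhiM u S1 S2 p ![v1, v2, v3] =
      PhiF (phiF u S1 S2 p) (S1 p.1 p.2) (S2 p.1 p.2) v1 v2 v3 := by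
    rw [D.PhiM_apply]
    rfl
  have e2 : (fun v w => gM u S1 S2 p v w) =
      gF (phiF u S1 S2 p) (S1 p.1 p.2) (S2 p.1 p.2) := by
    funext v w
    exact gM_apply u S1 S2 p v w
  rw [e, e2]
  exact ⟨h.2, h.1⟩

/-- The flat sheet `M` is calibrated. -/
theorem PData.calib_M (D : PData u S1 S2) (x : X3) :
    0 < PhiM u S1 S2 (x, 0) ![(ee 0, 0), (ee 1, 0), (ee 2, 0)] ∧
      PhiM u S1 S2 (x, 0) ![(ee 0, 0), (ee 1, 0), (ee 2, 0)] =
        √(gram3 (fun v w => gM u S1 S2 (x, 0) v w) (ee 0, 0) (ee 1, 0) (ee 2, 0)) := by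
  apply D.calib_reduce
  have h1 : S1 ((x, (0 : H)) : ME).1 ((x, (0 : H)) : ME).2 = 0 := map_zero _
  have h2 : S2 ((x, (0 : H)) : ME).1 ((x, (0 : H)) : ME).2 = 0 := map_zero _
  rw [h1, h2, phiF_zero]
  apply PhiF_M_ee
  have h := D.abs_rhoF_le x
  rw [abs_le] at h
  linarith [h.1]

/-- The graph `N` is calibrated. -/
theorem PData.calib_N (D : PData u S1 S2) (x : X3) (hx : 0 ≤ x 2) :
    0 < PhiM u S1 S2 (x, u x) ![(ee 0, pd u 0 x), (ee 1, pd u 1 x), (ee 2, pd u 2 x)] ∧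
      PhiM u S1 S2 (x, u x) ![(ee 0, pd u 0 x), (ee 1, pd u 1 x), (ee 2, pd u 2 x)] =
        √(gram3 (fun v w => gM u S1 S2 (x, u x) v w)
          (ee 0, pd u 0 x) (ee 1, pd u 1 x) (ee 2, pd u 2 x)) := by
  apply D.calib_reduce
  obtain ⟨b, h1, h2, hX⟩ := D.sol x hx
  have h1' : S1 ((x, u x) : ME).1 ((x, u x) : ME).2 = J2 b := h1
  have h2' : S2 ((x, u x) : ME).1 ((x, u x) : ME).2 = -J1 b := h2
  rw [h1', h2', phiF_self]
  have hb : ∀ i, ‖pd u i x‖ ≤ 1 / 10 := fun i => by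
    have h := (fderiv ℝ u x).le_opNorm (ee i)
    rw [norm_ee, mul_one] at h
    have h3 := D.bdu x
    calc ‖pd u i x‖ ≤ ‖fderiv ℝ u x‖ := h
      _ ≤ 1 / 10 := by linarith
  exact PhiF_N _ _ _ b hX (hb 0) (hb 1)

end Pool.Agent.BSS
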