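import Pool.Agent.BSS.MinTT
import Pool.Agent.BSS.SheetEq
import Pool.Agent.BSS.K7

/-!
# MP_bff03b_an (BSS): the two sheets are calibrated

Composition of the chart, the pull back identity of the form, the pull back identity of the
metric and the equalities in the model space.
-/

set_option autoImplicit false
set_option maxSynthPendingDepth 3

open MeasureTheory Set
open scoped ContDiff

namespace Pool.Agent.BSS

/-- The sheet `F` over `B` is calibrated by `Φ`, with positive density. -/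
def Cal (g : _root_.BSS.Metric 7) (Φ : _root_.BSS.TestForm 7 3) (F : X3 → _root_.BSS.Eu 7)
    (B : Set X3) : Prop :=
  ∀ x ∈ B, 0 < Φ.toFun (F x) (_root_.BSS.pd F x) ∧
    Φ.toFun (F x) (_root_.BSS.pd F x) =
      √(gram3 (fun v w => g.g (F x) v w) (_root_.BSS.pd F x 0) (_root_.BSS.pd F x 1)
        (_root_.BSS.pd F x 2))

theorem Cal.calLe {g : _root_.BSS.Metric 7} {Φ : _root_.BSS.TestForm 7 3}
    {F : X3 → _root_.BSS.Eu 7} {B : Set X3} (h : Cal g Φ F B) : CalLe g Φ F B :=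
  fun x hx => (h x hx).2

/-- The partial derivatives of a sheet. -/
theorem pd_sheet {w : X3 → H} (hw : ContDiff ℝ ∞ w) (x : X3) (i : Fin 3) :
    _root_.BSS.pd (sheet w) x i = DPsi (x, w x) (ee i, pd w i x) := by
  have h1 : HasFDerivAt w (fderiv ℝ w x) x :=
    (hw.differentiable (by simp) x).hasFDerivAt
  have h2 : HasFDerivAt (fun z => (z, w z)) ((ContinuousLinearMap.id ℝ X3).prod (fderiv ℝ w x)) x :=
    (hasFDerivAt_id x).prodMk h1
  have h3 : HasFDerivAt (sheet w)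
      ((DPsi (x, w x)).comp ((ContinuousLinearMap.id ℝ X3).prod (fderiv ℝ w x))) x :=
    (hasFDerivAt_Psi (x, w x)).comp x h2
  unfold _root_.BSS.pd
  rw [h3.fderiv]
  rfl

/-- The test form whose derivative calibrates. -/
noncomputable def alphaForm {κ : ME → ME [⋀^Fin 2]→L[ℝ] ℝ} (hκ : ContDiff ℝ ∞ κ) (hp : Per κ) :
    _root_.BSS.TestForm 7 2 :=
  ⟨K7 κ, contDiff_K7 hκ hp, hasCompactSupport_K7 hp⟩

theorem alphaForm_d {κ : ME → ME [⋀^Fin 2]→L[ℝ] ℝ} (hκ : ContDiff ℝ ∞ κ) (hp : Per κ) :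
    (alphaForm hκ hp).d.toFun = Phi7 κ := rfl

/-- A sheet which is calibrated in the model space is calibrated in `ℝ⁷`. -/
theorem cal_sheet {κ : ME → ME [⋀^Fin 2]→L[ℝ] ℝ} (hκ : ContDiff ℝ ∞ κ) (hp : Per κ)
    {γ : ME → ME →L[ℝ] ME →L[ℝ] ℝ} {g : _root_.BSS.Metric 7}
    (hg : ∀ p : ME, |p.1 2| ≤ 5 → ‖p.2‖ ≤ 3 → ∀ v v', g.g (Psi p) (DPsi p v) (DPsi p v') = γ p v v')
    {w : X3 → H} (hw : ContDiff ℝ ∞ w) (hw3 : ∀ x, ‖w x‖ ≤ 3) {B : Set X3}
    (hB : ∀ x ∈ B, |x 2| ≤ 5)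
    (hcal : ∀ x ∈ B, 0 < extDeriv κ (x, w x) ![(ee 0, pd w 0 x), (ee 1, pd w 1 x), (ee 2, pd w 2 x)] ∧
      extDeriv κ (x, w x) ![(ee 0, pd w 0 x), (ee 1, pd w 1 x), (ee 2, pd w 2 x)] =
        √(gram3 (fun v v' => γ (x, w x) v v')
          (ee 0, pd w 0 x) (ee 1, pd w 1 x) (ee 2, pd w 2 x))) :
    Cal g (alphaForm hκ hp).d (sheet w) B := by
  intro x hx
  obtain ⟨c1, c2⟩ := hcal x hx
  have hx5 := hB x hx
  have hw3' := hw3 x
  have e1 : (alphaForm hκ hp).d.toFun (sheet w x) (_root_.BSS.pd (sheet w) x) =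
      extDeriv κ (x, w x) ![(ee 0, pd w 0 x), (ee 1, pd w 1 x), (ee 2, pd w 2 x)] := by
    rw [alphaForm_d]
    have e2 : _root_.BSS.pd (sheet w) x =
        fun i => DPsi (x, w x) (![(ee 0, pd w 0 x), (ee 1, pd w 1 x), (ee 2, pd w 2 x)] i) := by
      funext i
      rw [pd_sheet hw]
      fin_cases i <;> rfl
    rw [e2]
    exact Phi7_Psi_apply hκ hp (p := (x, w x)) (by linarith) (by linarith) _
  have e3 : gram3 (fun v w' => g.g (sheet w x) v w') (_root_.BSS.pd (sheet w) x 0)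
      (_root_.BSS.pd (sheet w) x 1) (_root_.BSS.pd (sheet w) x 2) =
      gram3 (fun v v' => γ (x, w x) v v') (ee 0, pd w 0 x) (ee 1, pd w 1 x) (ee 2, pd w 2 x) := by
    rw [pd_sheet hw, pd_sheet hw, pd_sheet hw]
    have e4 : ∀ v v' : ME, g.g (sheet w x) (DPsi (x, w x) v) (DPsi (x, w x) v') =
        γ (x, w x) v v' := fun v v' => hg (x, w x) hx5 hw3' v v'
    unfold gram3
    simp only [e4]
  rw [e1, e3]
  exact ⟨c1, c2⟩

/-- The output of the metric step (39's `exists_metric7`) for the data. -/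
def MetricOut (κ : ME → ME [⋀^Fin 2]→L[ℝ] ℝ) (γ : ME → ME →L[ℝ] ME →L[ℝ] ℝ)
    (g : _root_.BSS.Metric 7) : Prop :=
  (∀ w (v : Fin 3 → R7), |Phi7 κ w v| ≤ ∏ i, g.len w (v i)) ∧
    ∀ p : ME, |p.1 2| ≤ 5 → ‖p.2‖ ≤ 3 → ∀ v v', g.g (Psi p) (DPsi p v) (DPsi p v') = γ p v v'

section

variable {u : X3 → H} {S1 S2 : X3 → H →L[ℝ] H}

theorem PData.contDiff_prim (D : PData u S1 S2) : ContDiff ℝ ∞ (prim u S1 S2) :=
  BSS.contDiff_prim D.hu D.h1 D.h2

/-- The test form of the data. -/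
noncomputable def PData.alpha (D : PData u S1 S2) : _root_.BSS.TestForm 7 2 :=
  alphaForm D.contDiff_prim D.prim_per

theorem PData.comass (D : PData u S1 S2) {g : _root_.BSS.Metric 7}
    (hg : MetricOut (prim u S1 S2) (gM u S1 S2) g) : _root_.BSS.ComassLE g D.alpha.d :=
  fun x v => hg.1 x v

theorem abs_le_of_box {a b : ℝ} (ha : -5 ≤ a) (hb : b ≤ 5) {x : X3} (hx : x ∈ box3 a b) :
    |x 2| ≤ 5 := by
  have h1 : a ≤ x 2 := hx.1 2
  have h2 : x 2 ≤ b := hx.2 2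
  rw [abs_le]
  constructor <;> linarith

/-- The flat sheet is calibrated. -/
theorem PData.cal_flat (D : PData u S1 S2) {g : _root_.BSS.Metric 7}
    (hg : MetricOut (prim u S1 S2) (gM u S1 S2) g) :
    Cal g D.alpha.d (sheet fun _ => 0) (box3 (-4) 4) := by
  refine cal_sheet D.contDiff_prim D.prim_per hg.2 contDiff_const (fun x => by simp)
    (fun x hx => abs_le_of_box (by norm_num) (by norm_num) hx) fun x _ => ?_
  have h0 : ∀ i, pd (fun _ : X3 => (0 : H)) i x = 0 := by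
    intro i
    unfold pd
    simp
  rw [h0, h0, h0]
  exact D.calib_M x

/-- The graph is calibrated. -/
theorem PData.cal_graph (D : PData u S1 S2) {g : _root_.BSS.Metric 7}
    (hg : MetricOut (prim u S1 S2) (gM u S1 S2) g) :
    Cal g D.alpha.d (sheet u) (box3 0 3) := by
  refine cal_sheet D.contDiff_prim D.prim_per hg.2 D.hu (fun x => (D.bu x).trans (by norm_num))
    (fun x hx => abs_le_of_box (by norm_num) (by norm_num) hx) fun x hx => ?_
  exact D.calib_N x (hx.1 2)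

/-- Minimality of `T` for the data. -/
theorem PData.minimal (D : PData u S1 S2) {g : _root_.BSS.Metric 7}
    (hg : MetricOut (prim u S1 S2) (gM u S1 S2) g) :
    (∀ S : _root_.BSS.Current 7 3, _root_.BSS.bdry S = _root_.BSS.bdry (TT u) →
      _root_.BSS.mass g (TT u) ≤ _root_.BSS.mass g S) ∧
    (_root_.BSS.IsIntegral (TT u) → _root_.BSS.IsMinimizing g (TT u)) :=
  TT_minimal g D.alpha (D.comass hg) D.hu (D.cal_flat hg).calLe (D.cal_graph hg).calLe

end

end Pool.Agent.BSS
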