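import Pool.Agent.BSS.Tail0
import Pool.Agent.BSS.Pock2
import Pool.Agent.BSS.LocalSet
import Pool.Agent.BSS.SFinal0
import Pool.Agent.BSS.Glob

/-!
# Module A5b (tail): the sum of the terms of the scales `≥ k + 2`

Input: the bounds of the derivatives of the terms by `mk` (`TermT`) and `TermBound`, `TermSmooth`.
-/

set_option autoImplicit false
set_option maxSynthPendingDepth 3

open Set Filter Topology
open scoped ContDiff

namespace Pool.Agent.BSS

/-- The bounds of the terms `uk (k + 1)` by `mk`. -/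
def TermT : Prop :=
  ∀ n : ℕ, ∃ C : ℕ, ∀ (S0 : ℝ) (q : ℕ → (Fin 2 → ℤ) → H), 1 ≤ S0 → (∀ k m, ‖q k m‖ ≤ 2) →
    ∀ k x, -(del (k + 1) / 2) < x 2 →
      ‖iteratedFDeriv ℝ n (uk S0 q (k + 1)) x‖ ≤ C * QQ S0 (k + 1) ^ C * mk S0 (k + 1) x

/-- The terms vanish near the points below. -/
def TermZero : Prop :=
  ∀ (S0 : ℝ) (q : ℕ → (Fin 2 → ℤ) → H), 1 ≤ S0 → ∀ n k (x : X3), x 2 ≤ -(del (k + 1) / 2) →
    iteratedFDeriv ℝ n (uk S0 q (k + 1)) x = 0

namespace Tail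

/-- The exponent inequality of the tail, with the constant `1 / 400` of the level `k + 1`. -/
theorem tail_ineq' {S0 : ℝ} (h : 0 < S0) (k j : ℕ) (hj : k + 2 ≤ j) :
    SS S0 (k + 1) + eta (k + 1) * SS S0 k / 400 + 2 * (eta (j + 1) * SS S0 j / 1000) ≤
      SS S0 j * (1 - 65 / 100 / (nn (k + 2) : ℝ)) := by
  set e := eta (k + 2) with he
  have he0 : 0 < e := Par.eta_pos _
  have he1 : e ≤ 1 / 100 := Par.eta_le _
  have h1 : 65 / 100 / (nn (k + 2) : ℝ) = 65 / 100 * (e ^ 2 / 1000) := by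
    rw [← Par.inv_nn]; ring
  have h2 : eta (j + 1) ≤ e := Par.eta_anti (by omega)
  have h2' : 0 < eta (j + 1) := Par.eta_pos _
  have h3 : eta (k + 1) ≤ 3 * e := by
    rw [he]
    unfold eta
    have a := Par.NN_succ_le (k + 1)
    have a' : (NN (k + 2) : ℝ) ≤ 3 * NN (k + 1) := by exact_mod_cast a
    have b := Par.NN_posR (k + 1)
    have b' := Par.NN_posR (k + 2)
    rw [mul_one_div, div_le_div_iff₀ b b']
    linarith
  have h4 : SS S0 (k + 2) = SS S0 (k + 1) * (1 + e / 100) := SS_succ S0 (k + 1)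
  have h5 : SS S0 (k + 2) ≤ SS S0 j := SS_mono h.le hj
  have h6 : SS S0 k ≤ SS S0 (k + 1) := SS_mono h.le (by omega)
  have h7 := SS_pos h (k + 1)
  have h8 := SS_pos h k
  have h9 := SS_pos h j
  rw [h1]
  have k1 : eta (k + 1) * SS S0 k ≤ 3 * e * SS S0 (k + 1) :=
    mul_le_mul h3 h6 h8.le (by positivity)
  have k2 : eta (j + 1) * SS S0 j ≤ e * SS S0 j := mul_le_mul_of_nonneg_right h2 h9.le
  have k3 : SS S0 (k + 2) * (1 - 65 / 100 * (e ^ 2 / 1000) - e / 500) ≤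
      SS S0 j * (1 - 65 / 100 * (e ^ 2 / 1000) - e / 500) := by
    refine mul_le_mul_of_nonneg_right h5 ?_
    nlinarith
  have k4 : SS S0 (k + 1) * (1 + 3 * e / 400) ≤
      SS S0 (k + 2) * (1 - 65 / 100 * (e ^ 2 / 1000) - e / 500) := by
    rw [h4, mul_assoc]
    refine mul_le_mul_of_nonneg_left ?_ h7.le
    nlinarith [mul_pos he0 he0, mul_pos (mul_pos he0 he0) he0]
  nlinarith

/-- Uniform form of the master inequality. -/
theorem qexp_bdd (C : ℕ) : ∃ B : ℝ, 0 ≤ B ∧ ∀ S0 : ℝ, 1 ≤ S0 → ∀ k : ℕ,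
    QQ S0 k ^ C * Real.exp (-(eta (k + 1) * SS S0 k / 1000)) ≤ B := by
  obtain ⟨S1, hS1, h1⟩ := master C 1
  have hm := master' 1 one_pos C 1
  obtain ⟨k0, hk0⟩ := eventually_atTop.1 hm
  set g : ℕ → ℝ := fun k => QQ 1 k ^ C * Real.exp (-(eta (k + 1) * SS 1 k / 1000)) with hg
  have hg0 : ∀ k, 0 ≤ g k := fun k => by
    have := QQ_pos one_pos k
    rw [hg]; positivity
  set G : ℝ := 1 + ∑ k ∈ Finset.range k0, g k with hG
  have hG0 : 0 ≤ G := by
    have := Finset.sum_nonneg fun k (_ : k ∈ Finset.range k0) => hg0 k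
    rw [hG]; linarith
  have hgG : ∀ k, g k ≤ G := by
    intro k
    rcases lt_or_ge k k0 with h | h
    · have := Finset.single_le_sum (fun i _ => hg0 i) (Finset.mem_range.2 h)
      rw [hG]; linarith
    · have h2 := hk0 k h
      have h3 : g k ≤ 1 := by
        rw [hg]
        show QQ 1 k ^ C * Real.exp (-(eta (k + 1) * SS 1 k / 1000)) ≤ 1
        rw [Real.exp_neg, ← div_eq_mul_inv, div_le_one (Real.exp_pos _)]
        linarith
      have := Finset.sum_nonneg fun k (_ : k ∈ Finset.range k0) => hg0 k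
      rw [hG]; linarith
  have hS1C : 1 ≤ S1 ^ C := one_le_pow₀ hS1
  refine ⟨S1 ^ C * G + 1, by positivity, fun S0 hS0 k => ?_⟩
  have hp : 0 < S0 := by linarith
  rcases le_total S1 S0 with h | h
  · have h2 := h1 S0 h k
    rw [one_mul] at h2
    have h3 : QQ S0 k ^ C * Real.exp (-(eta (k + 1) * SS S0 k / 1000)) ≤ 1 := by
      rw [Real.exp_neg, ← div_eq_mul_inv, div_le_one (Real.exp_pos _)]
      exact h2
    have : 0 ≤ S1 ^ C * G := by positivity
    linarith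
  · have e1 : QQ S0 k = S0 * QQ 1 k := by
      unfold QQ; rw [SS_eq S0 k]; ring
    have hQ := QQ_pos one_pos k
    have e2 : QQ S0 k ^ C ≤ S1 ^ C * QQ 1 k ^ C := by
      rw [e1, mul_pow]
      refine mul_le_mul_of_nonneg_right ?_ (by positivity)
      exact pow_le_pow_left₀ hp.le h C
    have e3 : Real.exp (-(eta (k + 1) * SS S0 k / 1000)) ≤
        Real.exp (-(eta (k + 1) * SS 1 k / 1000)) := by
      apply Real.exp_le_exp.2
      have a := Par.eta_pos (k + 1)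
      have b : SS 1 k ≤ SS S0 k := by
        rw [SS_eq S0 k]
        have := SS_one_ge k
        nlinarith
      nlinarith
    calc QQ S0 k ^ C * Real.exp (-(eta (k + 1) * SS S0 k / 1000))
        ≤ (S1 ^ C * QQ 1 k ^ C) * Real.exp (-(eta (k + 1) * SS 1 k / 1000)) := by gcongr
      _ = S1 ^ C * g k := by rw [hg]; ring
      _ ≤ S1 ^ C * G := mul_le_mul_of_nonneg_left (hgG k) (by positivity)
      _ ≤ S1 ^ C * G + 1 := by linarith

/-- **The far waves.** -/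
theorem mk_tail {S0 : ℝ} (hS : 1 ≤ S0) {k j : ℕ} (hj : k + 2 ≤ j) {x : X3} (hx : x ∉ pocket k)
    (hz : -(del j / 2) < x 2) :
    mk S0 j x ≤ QQ S0 j ^ 2 * Real.exp (-(SS S0 j * (1 - 65 / 100 / (nn (k + 2) : ℝ)))) := by
  have h0 : 0 < S0 := by linarith
  have hR := Par.rho_pos (k + 1)
  have hQ := QQ_pos h0 j
  obtain ⟨i, rfl⟩ : ∃ i, j = i + 1 := ⟨j - 1, by omega⟩
  refine mk_le (by positivity) fun m hm => ?_
  have hd := Par.del_pos (i + 1)
  have hz' : 0 < x 2 + (wp S0 (i + 1) m).del := by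
    show 0 < x 2 + del (i + 1)
    linarith
  have h1 : (rho (k + 1)) ^ 2 ≤ (wp S0 (i + 1) m).r2 x := by
    have := far_Zk hj hx hm S0
    nlinarith
  have h2 : (nn (k + 2) : ℝ) * (wp S0 (i + 1) m).rho ≤ rho (k + 1) := by
    show (nn (k + 2) : ℝ) * rho (i + 1) ≤ rho (k + 1)
    have a : rho (i + 1) ≤ rho (k + 2) := Par.rho_anti (by omega)
    have b := Par.rho_succ_mul (k + 1)
    have c := Par.nn_posR (k + 2)
    nlinarith
  have h3 := norm_wave_tail (w := wp S0 (i + 1) m) (x := x) (S := SS S0 (i + 1))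
    (n := (nn (k + 2) : ℝ)) (R := rho (k + 1)) (SS_pos h0 _).le rfl rfl (Par.rho_pos _)
    (by have := Par.nn_geR (k + 2); linarith [show (2:ℝ) ≤ 10 ^ 7 by norm_num]) h2 h1 hz'
  refine h3.trans ?_
  refine mul_le_mul_of_nonneg_right ?_ (Real.exp_pos _).le
  have h4 : 1 / rho (k + 1) ≤ QQ S0 (i + 1) := inv_rho_le_QQ' hS (by omega)
  calc (rho (k + 1) ^ 2)⁻¹ = (1 / rho (k + 1)) ^ 2 := by rw [one_div, inv_pow]
    _ ≤ QQ S0 (i + 1) ^ 2 := pow_le_pow_left₀ (by positivity) h4 2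

/-- **The tail, pointwise bound of every derivative** (the constant is uniform in `S0`, `q`, `k`,
`x`). -/
theorem term_tail (hT : TermT) (hZ : TermZero) (n : ℕ) : ∃ B : ℝ, 0 ≤ B ∧
    ∀ (S0 : ℝ) (q : ℕ → (Fin 2 → ℤ) → H), 1 ≤ S0 → (∀ k m, ‖q k m‖ ≤ 2) →
    ∀ k, ∀ x ∉ pocket k, ∀ i, ‖iteratedFDeriv ℝ n (uk S0 q (i + (k + 2))) x‖ ≤
      B * (Real.exp (-SS S0 (k + 1)) * ew S0 k) * (1 / 2) ^ (k + i + 1) := by
  obtain ⟨C, hC⟩ := hT n
  obtain ⟨B, hB0, hB⟩ := qexp_bdd (C + 3)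
  refine ⟨C * B, by positivity, fun S0 q hS hq k x hx i => ?_⟩
  have h0 : 0 < S0 := by linarith
  set j := i + (k + 1) with hj
  have hj' : i + (k + 2) = j + 1 := by omega
  rw [hj']
  have hpos : 0 ≤ C * B * (Real.exp (-SS S0 (k + 1)) * ew S0 k) * (1 / 2) ^ (k + i + 1) := by
    have := ew_pos S0 k
    positivity
  rcases le_or_gt (x 2) (-(del (j + 1) / 2)) with h | h
  · rw [hZ S0 q hS n j x h, norm_zero]
    exact hpos
  · have h1 := hC S0 q hS hq j x h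
    have h2 := mk_tail hS (k := k) (j := j + 1) (by omega) hx h
    have hQ := QQ_pos h0 (j + 1)
    have h3 := tail_ineq' h0 k (j + 1) (by omega)
    have h4 := hB S0 hS (j + 1)
    have h5 : (2 : ℝ) ^ (k + i + 1) ≤ QQ S0 (j + 1) :=
      (pow_le_pow_right₀ (by norm_num) (by omega)).trans (two_pow_le_QQ hS (j + 1))
    set E := Real.exp (-(eta (j + 1 + 1) * SS S0 (j + 1) / 1000)) with hE
    have hE0 : 0 < E := Real.exp_pos _
    have hE1 : E ≤ 1 := by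
      rw [hE]
      apply Real.exp_le_one_iff.2
      have := Par.eta_pos (j + 1 + 1)
      have := SS_pos h0 (j + 1)
      have : 0 ≤ eta (j + 1 + 1) * SS S0 (j + 1) / 1000 := by positivity
      linarith
    have h6 : Real.exp (-(SS S0 (j + 1) * (1 - 65 / 100 / (nn (k + 2) : ℝ)))) ≤
        Real.exp (-SS S0 (k + 1)) * ew S0 k * (E * E) := by
      rw [hE, ew, ← Real.exp_add, ← Real.exp_add, ← Real.exp_add]
      apply Real.exp_le_exp.2
      linarith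
    have hw : 0 ≤ Real.exp (-SS S0 (k + 1)) * ew S0 k := by
      have := ew_pos S0 k
      positivity
    calc ‖iteratedFDeriv ℝ n (uk S0 q (j + 1)) x‖
        ≤ C * QQ S0 (j + 1) ^ C * (QQ S0 (j + 1) ^ 2 *
            (Real.exp (-SS S0 (k + 1)) * ew S0 k * (E * E))) := by
          refine h1.trans ?_
          refine mul_le_mul_of_nonneg_left (h2.trans ?_) (by positivity)
          exact mul_le_mul_of_nonneg_left h6 (by positivity)
      _ = C * (Real.exp (-SS S0 (k + 1)) * ew S0 k) * ((QQ S0 (j + 1) ^ (C + 3) * E) *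
            (E * (QQ S0 (j + 1))⁻¹)) := by
          field_simp
          ring
      _ ≤ C * (Real.exp (-SS S0 (k + 1)) * ew S0 k) * (B * (1 * (1 / 2) ^ (k + i + 1))) := by
          have h7 : (QQ S0 (j + 1))⁻¹ ≤ (1 / 2) ^ (k + i + 1) := by
            rw [one_div, inv_pow]
            exact inv_anti₀ (by positivity) h5
          gcongr
      _ = _ := by ring

/-- the tail is summable and its sum is small -/
theorem tsum_tail (hT : TermT) (hZ : TermZero) (n : ℕ) : ∃ B : ℝ, 0 ≤ B ∧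
    ∀ (S0 : ℝ) (q : ℕ → (Fin 2 → ℤ) → H), 1 ≤ S0 → (∀ k m, ‖q k m‖ ≤ 2) →
    ∀ k, ∀ x ∉ pocket k, Summable (fun i => ‖iteratedFDeriv ℝ n (uk S0 q (i + (k + 2))) x‖) ∧
      ∑' i, ‖iteratedFDeriv ℝ n (uk S0 q (i + (k + 2))) x‖ ≤
        B * (Real.exp (-SS S0 (k + 1)) * ew S0 k) := by
  obtain ⟨B, hB0, hB⟩ := term_tail hT hZ n
  refine ⟨B, hB0, fun S0 q hS hq k x hx => ?_⟩
  exact tsum_geom_tail (fun i => norm_nonneg _) (hB S0 q hS hq k x hx)

/-- majorants of the tail series -/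
theorem exists_tail_majorant (hB : TermBound) : ∃ v : ℝ → ℕ → ℕ → ℝ,
    (∀ S0, 1 ≤ S0 → ∀ n, Summable (v S0 n)) ∧
    ∀ (S0 : ℝ) (q : ℕ → (Fin 2 → ℤ) → H), 1 ≤ S0 → (∀ k m, ‖q k m‖ ≤ 2) →
      ∀ n k x, ‖iteratedFDeriv ℝ n (uk S0 q (k + 1)) x‖ ≤ v S0 n (k + 1) := by
  choose C hC using hB
  refine ⟨fun S0 n => Glob.vv (fun _ => 0) C S0 n, fun S0 hS n => Glob.summable_vv _ C hS n,
    fun S0 q hS hq n k x => hC n S0 q hS hq k x⟩

/-- the tail is smooth -/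
theorem contDiff_Rk (hB : TermBound) (hS' : TermSmooth) {S0 : ℝ} (hS : 1 ≤ S0)
    {q : ℕ → (Fin 2 → ℤ) → H} (hq : ∀ k m, ‖q k m‖ ≤ 2) (k : ℕ) : ContDiff ℝ ∞ (Rk S0 q k) := by
  obtain ⟨v, hv, hvb⟩ := exists_tail_majorant hB
  refine contDiff_series (f := fun j => uk S0 q (j + (k + 2)))
    (v := fun n j => v S0 n (j + (k + 2))) (fun j => ?_) (fun n => ?_) fun n j x => ?_
  · have e : j + (k + 2) = (j + (k + 1)) + 1 := by omega
    rw [e]
    exact hS' S0 q hS _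
  · exact (summable_nat_add_iff (k + 2)).2 (hv S0 hS n)
  · have e : j + (k + 2) = (j + (k + 1)) + 1 := by omega
    rw [e]
    exact hvb S0 q hS hq n _ x

/-- **(T1)** -/
theorem norm_iteratedFDeriv_Rk_le (hT : TermT) (hZ : TermZero) (hB : TermBound)
    (hS' : TermSmooth) (n : ℕ) : ∃ B : ℝ, 0 ≤ B ∧
    ∀ (S0 : ℝ) (q : ℕ → (Fin 2 → ℤ) → H), 1 ≤ S0 → (∀ k m, ‖q k m‖ ≤ 2) →
    ∀ k, ∀ x ∉ pocket k, ‖iteratedFDeriv ℝ n (Rk S0 q k) x‖ ≤
        B * (Real.exp (-SS S0 (k + 1)) * ew S0 k) := by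
  obtain ⟨B, hB0, h⟩ := tsum_tail hT hZ n
  obtain ⟨v, hv, hvb⟩ := exists_tail_majorant hB
  refine ⟨B, hB0, fun S0 q hS hq k x hx => ?_⟩
  refine le_trans ?_ (h S0 q hS hq k x hx).2
  refine norm_iteratedFDeriv_series_le (f := fun j => uk S0 q (j + (k + 2)))
    (v := fun n j => v S0 n (j + (k + 2))) (fun j => ?_) (fun n => ?_) (fun n j x => ?_) n x
  · have e : j + (k + 2) = (j + (k + 1)) + 1 := by omega
    rw [e]
    exact hS' S0 q hS _
  · exact (summable_nat_add_iff (k + 2)).2 (hv S0 hS n)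
  · have e : j + (k + 2) = (j + (k + 1)) + 1 := by omega
    rw [e]
    exact hvb S0 q hS hq n _ x

/-- **(T1) as a tame family**: the input `hR` of the local picture. -/
theorem mfam_Rk_of (hT : TermT) (hZ : TermZero) (hB : TermBound) (hS' : TermSmooth)
    {ι : Type*} {S0 : ι → ℝ} {q : ι → ℕ → (Fin 2 → ℤ) → H} (hS : ∀ i, 1 ≤ S0 i)
    (hq : ∀ i k m, ‖q i k m‖ ≤ 2) :
    MFam (ι := ι × ℕ) (fun p => OO p.2) (fun p _ => QQ (S0 p.1) p.2)
      (fun p _ => Real.exp (-SS (S0 p.1) (p.2 + 1)) * ew (S0 p.1) p.2)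
      (fun p => Rk (S0 p.1) (q p.1) p.2) := by
  refine MFam.mk ⟨fun p => isOpen_OO p.2, fun p _ _ => one_le_QQ (hS p.1) p.2⟩ (fun p x _ => ?_)
    (fun p => (contDiff_Rk hB hS' (hS p.1) (hq p.1) p.2).contDiffOn) fun n => ?_
  · have := ew_pos (S0 p.1) p.2
    positivity
  · obtain ⟨B, hB0, h⟩ := norm_iteratedFDeriv_Rk_le hT hZ hB hS' n
    refine ⟨⌈B⌉₊, fun p x hx => (h (S0 p.1) (q p.1) (hS p.1) (hq p.1) p.2 x hx.1).trans ?_⟩
    have h1 : B ≤ ⌈B⌉₊ := Nat.le_ceil B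
    have h2 : 1 ≤ QQ (S0 p.1) p.2 ^ ⌈B⌉₊ := one_le_pow₀ (one_le_QQ (hS p.1) p.2)
    have h3 : 0 ≤ Real.exp (-SS (S0 p.1) (p.2 + 1)) * ew (S0 p.1) p.2 := by
      have := ew_pos (S0 p.1) p.2
      positivity
    refine mul_le_mul_of_nonneg_right ?_ h3
    nlinarith

end Tail

end Pool.Agent.BSS
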