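import Pool.Agent.BSS.Wave
import Pool.Agent.BSS.Nums9

/-!
# Module A5b (tail): one wave, and the summation of the tail (pure real part)
-/

open Real Set Filter

namespace Pool.Agent.BSS

/-- **One far wave**: if `n ρ ≤ R ≤ r` then `|V| ≤ R⁻² exp (-S (1 - .65 / n))`. -/
theorem norm_wave_tail {w : WP} {x : X3} {S n R : ℝ} (hS : 0 ≤ S) (hK : w.K = S / 2)
    (hP : w.P = S / 2) (hρ : 0 < w.rho) (hn : 2 ≤ n) (hR : n * w.rho ≤ R) (hr : R ^ 2 ≤ w.r2 x)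
    (hz : 0 < x 2 + w.del) :
    ‖wave w x‖ ≤ (R ^ 2)⁻¹ * exp (-(S * (1 - 65 / 100 / n))) := by
  rw [norm_wave hz, hK, hP]
  exact tail_wave hS hρ hn hR hr hz

/-- geometric tail -/
theorem tsum_geom_tail {c : ℕ → ℝ} (h0 : ∀ i, 0 ≤ c i) {D : ℝ} {k : ℕ}
    (hc : ∀ i, c i ≤ D * (1 / 2) ^ (k + i + 1)) : Summable c ∧ ∑' i, c i ≤ D := by
  have hD : 0 ≤ D := by
    have h1 := (h0 0).trans (hc 0)
    have h2 : (0:ℝ) < (1 / 2) ^ (k + 0 + 1) := by positivity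
    exact nonneg_of_mul_nonneg_left h1 h2
  have hs : HasSum (fun i : ℕ => D * ((1 / 2) ^ (k + 1) * (1 / 2 : ℝ) ^ i))
      (D * ((1 / 2) ^ (k + 1) * 2)) := by
    have h1 : HasSum (fun i : ℕ => (1 / 2 : ℝ) ^ i) 2 := by
      have := hasSum_geometric_of_lt_one (r := (1 / 2 : ℝ)) (by norm_num) (by norm_num)
      norm_num at this
      simpa using this
    exact (h1.mul_left _).mul_left _
  have hc' : ∀ i, c i ≤ D * ((1 / 2) ^ (k + 1) * (1 / 2 : ℝ) ^ i) := by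
    intro i
    refine (hc i).trans (le_of_eq ?_)
    rw [← pow_add]
    congr 2
    ring
  have hsum : Summable c := Summable.of_nonneg_of_le h0 hc' hs.summable
  refine ⟨hsum, ?_⟩
  calc ∑' i, c i ≤ ∑' i : ℕ, D * ((1 / 2) ^ (k + 1) * (1 / 2 : ℝ) ^ i) :=
        hsum.tsum_le_tsum hc' hs.summable
    _ = D * ((1 / 2) ^ (k + 1) * 2) := hs.tsum_eq
    _ = D * (1 / 2) ^ k := by rw [pow_succ]; ring
    _ ≤ D * 1 := by
        refine mul_le_mul_of_nonneg_left (pow_le_one₀ (by norm_num) (by norm_num)) hD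
    _ = D := mul_one D

end Pool.Agent.BSS
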