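import Mathlib

/-!
# Tame calculus: families of smooth functions with bounds `‖D^n f‖ ≤ C M ^ C w`
-/

open Set Filter Metric
open scoped ContDiff Topology

namespace Pool.Agent.BSS

section numeric

theorem tb_nonneg {C : ℕ} {M w : ℝ} (hM : 1 ≤ M) (hw : 0 ≤ w) : 0 ≤ (C:ℝ) * M ^ C * w := by
  have : 0 ≤ M := by linarith
  positivity

theorem tb_mono {C C' : ℕ} (h : C ≤ C') {M w : ℝ} (hM : 1 ≤ M) (hw : 0 ≤ w) :
    (C:ℝ) * M ^ C * w ≤ C' * M ^ C' * w := by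
  have h0 : 0 ≤ M := by linarith
  have h1 : (C:ℝ) ≤ C' := by exact_mod_cast h
  have h2 : M ^ C ≤ M ^ C' := pow_le_pow_right₀ hM h
  gcongr

theorem tb_le {c : ℝ} {k C' : ℕ} (hc : c ≤ C') (hk : k ≤ C') {M w : ℝ} (hM : 1 ≤ M) (hw : 0 ≤ w) :
    c * M ^ k * w ≤ C' * M ^ C' * w := by
  have h0 : 0 ≤ M := by linarith
  have h2 : M ^ k ≤ M ^ C' := pow_le_pow_right₀ hM hk
  have h3 : 0 ≤ M ^ k := by positivity
  calc c * M ^ k * w ≤ C' * M ^ k * w := by gcongr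
    _ ≤ C' * M ^ C' * w := by gcongr

end numeric

variable {ι : Type*} {E F G H : Type*} [NormedAddCommGroup E] [NormedSpace ℝ E]
  [NormedAddCommGroup F] [NormedSpace ℝ F] [NormedAddCommGroup G] [NormedSpace ℝ G]
  [NormedAddCommGroup H] [NormedSpace ℝ H]

/-- open sets `O i`, and `1 ≤ M i` on them -/
structure Dom (O : ι → Set E) (M : ι → E → ℝ) : Prop where
  isOpen : ∀ i, IsOpen (O i)
  one_le : ∀ i, ∀ x ∈ O i, 1 ≤ M i x

/-- bounds for the derivatives up to order `N` -/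
structure FamN (N : ℕ) (O : ι → Set E) (M w : ι → E → ℝ) (f : ι → E → F) : Prop where
  dom : Dom O M
  nonneg : ∀ i, ∀ x ∈ O i, 0 ≤ w i x
  smooth : ∀ i, ContDiffOn ℝ ∞ (f i) (O i)
  bound : ∃ C : ℕ, ∀ n ≤ N, ∀ i, ∀ x ∈ O i, ‖iteratedFDeriv ℝ n (f i) x‖ ≤ C * M i x ^ C * w i x

/-- bounds for all derivatives, uniform in the family -/
def MFam (O : ι → Set E) (M w : ι → E → ℝ) (f : ι → E → F) : Prop := ∀ N, FamN N O M w f

/-- the notion for one function -/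
abbrev Mod (O : Set E) (M w : E → ℝ) (f : E → F) : Prop :=
  MFam (ι := Unit) (fun _ => O) (fun _ => M) (fun _ => w) (fun _ => f)

variable {O : ι → Set E} {M w v : ι → E → ℝ} {f : ι → E → F} {g : ι → E → G} {N : ℕ}

theorem MFam.dom (hf : MFam O M w f) : Dom O M := (hf 0).dom
theorem MFam.isOpen (hf : MFam O M w f) (i : ι) : IsOpen (O i) := (hf 0).dom.isOpen i
theorem MFam.one_le (hf : MFam O M w f) (i : ι) {x : E} (hx : x ∈ O i) : 1 ≤ M i x :=
  (hf 0).dom.one_le i x hx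
theorem MFam.nonneg (hf : MFam O M w f) (i : ι) {x : E} (hx : x ∈ O i) : 0 ≤ w i x :=
  (hf 0).nonneg i x hx
theorem MFam.smooth (hf : MFam O M w f) (i : ι) : ContDiffOn ℝ ∞ (f i) (O i) := (hf 0).smooth i
theorem MFam.contDiffAt (hf : MFam O M w f) (i : ι) {x : E} (hx : x ∈ O i) :
    ContDiffAt ℝ ∞ (f i) x := ((hf 0).smooth i).contDiffAt ((hf.isOpen i).mem_nhds hx)

theorem MFam.bound (hf : MFam O M w f) (n : ℕ) : ∃ C : ℕ, ∀ i, ∀ x ∈ O i,
    ‖iteratedFDeriv ℝ n (f i) x‖ ≤ C * M i x ^ C * w i x := by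
  obtain ⟨C, h⟩ := (hf n).bound
  exact ⟨C, h n le_rfl⟩

theorem MFam.bound_zero (hf : MFam O M w f) : ∃ C : ℕ, ∀ i, ∀ x ∈ O i,
    ‖f i x‖ ≤ C * M i x ^ C * w i x := by
  obtain ⟨C, h⟩ := hf.bound 0
  refine ⟨C, fun i x hx => ?_⟩
  have := h i x hx
  rwa [norm_iteratedFDeriv_zero] at this

theorem MFam.bound_fderiv (hf : MFam O M w f) : ∃ C : ℕ, ∀ i, ∀ x ∈ O i,
    ‖fderiv ℝ (f i) x‖ ≤ C * M i x ^ C * w i x := by
  obtain ⟨C, h⟩ := hf.bound 1
  refine ⟨C, fun i x hx => ?_⟩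
  have := h i x hx
  rwa [norm_iteratedFDeriv_one] at this

/-- the constructor -/
theorem MFam.mk (hD : Dom O M) (hw : ∀ i, ∀ x ∈ O i, 0 ≤ w i x)
    (hs : ∀ i, ContDiffOn ℝ ∞ (f i) (O i))
    (hb : ∀ n : ℕ, ∃ C : ℕ, ∀ i, ∀ x ∈ O i,
      ‖iteratedFDeriv ℝ n (f i) x‖ ≤ C * M i x ^ C * w i x) : MFam O M w f := by
  intro N
  refine ⟨hD, hw, hs, ?_⟩
  choose C hC using hb
  refine ⟨(Finset.range (N + 1)).sup C, fun n hn i x hx => (hC n i x hx).trans ?_⟩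
  exact tb_mono (Finset.le_sup (Finset.mem_range.2 (by omega))) (hD.one_le i x hx) (hw i x hx)

theorem MFam_iff : MFam O M w f ↔ Dom O M ∧ (∀ i, ∀ x ∈ O i, 0 ≤ w i x) ∧
    (∀ i, ContDiffOn ℝ ∞ (f i) (O i)) ∧ ∀ n : ℕ, ∃ C : ℕ, ∀ i, ∀ x ∈ O i,
      ‖iteratedFDeriv ℝ n (f i) x‖ ≤ C * M i x ^ C * w i x :=
  ⟨fun h => ⟨h.dom, fun i _ hx => h.nonneg i hx, h.smooth, h.bound⟩,
    fun h => MFam.mk h.1 h.2.1 h.2.2.1 h.2.2.2⟩

theorem Mod.mk {O : Set E} {M w : E → ℝ} {f : E → F} (hO : IsOpen O) (hM : ∀ x ∈ O, 1 ≤ M x)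
    (hw : ∀ x ∈ O, 0 ≤ w x) (hs : ContDiffOn ℝ ∞ f O)
    (hb : ∀ n : ℕ, ∃ C : ℕ, ∀ x ∈ O, ‖iteratedFDeriv ℝ n f x‖ ≤ C * M x ^ C * w x) :
    Mod O M w f :=
  MFam.mk ⟨fun _ => hO, fun _ => hM⟩ (fun _ => hw) (fun _ => hs)
    (fun n => by obtain ⟨C, h⟩ := hb n; exact ⟨C, fun _ => h⟩)

theorem Mod.bound {O : Set E} {M w : E → ℝ} {f : E → F} (hf : Mod O M w f) (n : ℕ) :
    ∃ C : ℕ, ∀ x ∈ O, ‖iteratedFDeriv ℝ n f x‖ ≤ C * M x ^ C * w x := by
  obtain ⟨C, h⟩ := MFam.bound hf n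
  exact ⟨C, h ()⟩

/-! ### elementary changes -/

theorem FamN.of_le {N' : ℕ} (h : N' ≤ N) (hf : FamN N O M w f) : FamN N' O M w f := by
  obtain ⟨C, hC⟩ := hf.bound
  exact ⟨hf.dom, hf.nonneg, hf.smooth, C, fun n hn => hC n (hn.trans h)⟩

theorem FamN.congr {f' : ι → E → F} (hf : FamN N O M w f) (h : ∀ i, EqOn (f' i) (f i) (O i)) :
    FamN N O M w f' := by
  obtain ⟨C, hC⟩ := hf.bound
  refine ⟨hf.dom, hf.nonneg, fun i => (hf.smooth i).congr (h i), C, fun n hn i x hx => ?_⟩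
  have h1 : f' i =ᶠ[𝓝 x] f i := by
    filter_upwards [(hf.dom.isOpen i).mem_nhds hx] with y hy using h i hy
  rw [(h1.iteratedFDeriv ℝ n).self_of_nhds]
  exact hC n hn i x hx

theorem MFam.congr {f' : ι → E → F} (hf : MFam O M w f) (h : ∀ i, EqOn (f' i) (f i) (O i)) :
    MFam O M w f' := fun N => (hf N).congr h

theorem FamN.weight {w' : ι → E → ℝ} (hf : FamN N O M w f) (hw' : ∀ i, ∀ x ∈ O i, 0 ≤ w' i x)
    {C' : ℕ} (h : ∀ i, ∀ x ∈ O i, w i x ≤ C' * M i x ^ C' * w' i x) : FamN N O M w' f := by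
  obtain ⟨C, hC⟩ := hf.bound
  refine ⟨hf.dom, hw', hf.smooth, C * C' + C + C', fun n hn i x hx => (hC n hn i x hx).trans ?_⟩
  have hM := hf.dom.one_le i x hx
  have hM0 : 0 ≤ M i x := by linarith
  calc (C:ℝ) * M i x ^ C * w i x ≤ C * M i x ^ C * (C' * M i x ^ C' * w' i x) := by
        gcongr
        exact h i x hx
    _ = ((C * C' : ℕ) : ℝ) * M i x ^ (C + C') * w' i x := by push_cast; ring
    _ ≤ _ := by
        refine tb_le ?_ (by omega) hM (hw' i x hx)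
        exact_mod_cast (show C * C' ≤ C * C' + C + C' by omega)

theorem MFam.weight {w' : ι → E → ℝ} (hf : MFam O M w f) (hw' : ∀ i, ∀ x ∈ O i, 0 ≤ w' i x)
    {C' : ℕ} (h : ∀ i, ∀ x ∈ O i, w i x ≤ C' * M i x ^ C' * w' i x) : MFam O M w' f :=
  fun N => (hf N).weight hw' h

theorem MFam.weight_le {w' : ι → E → ℝ} (hf : MFam O M w f)
    (h : ∀ i, ∀ x ∈ O i, w i x ≤ w' i x) : MFam O M w' f := by
  refine hf.weight (C' := 1) (fun i x hx => (hf.nonneg i hx).trans (h i x hx)) fun i x hx => ?_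
  have h1 := hf.one_le i hx
  have h2 := (hf.nonneg i hx).trans (h i x hx)
  rw [Nat.cast_one, one_mul, pow_one]
  nlinarith [h i x hx]

theorem FamN.changeM {M' : ι → E → ℝ} (hf : FamN N O M w f) (hM' : ∀ i, ∀ x ∈ O i, 1 ≤ M' i x)
    {C' : ℕ} (h : ∀ i, ∀ x ∈ O i, M i x ≤ C' * M' i x ^ C') : FamN N O M' w f := by
  obtain ⟨C, hC⟩ := hf.bound
  refine ⟨⟨hf.dom.isOpen, hM'⟩, hf.nonneg, hf.smooth, C * C' ^ C + C' * C,
    fun n hn i x hx => (hC n hn i x hx).trans ?_⟩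
  have hM := hf.dom.one_le i x hx
  have hM0 : 0 ≤ M i x := by linarith
  calc (C:ℝ) * M i x ^ C * w i x ≤ C * (C' * M' i x ^ C') ^ C * w i x := by
        have := hf.nonneg i x hx
        gcongr
        exact h i x hx
    _ = ((C * C' ^ C : ℕ) : ℝ) * M' i x ^ (C' * C) * w i x := by
        push_cast
        rw [mul_pow, ← pow_mul]
        ring
    _ ≤ _ := by
        refine tb_le ?_ (by omega) (hM' i x hx) (hf.nonneg i x hx)
        exact_mod_cast (show C * C' ^ C ≤ C * C' ^ C + C' * C by omega)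

theorem MFam.changeM {M' : ι → E → ℝ} (hf : MFam O M w f) (hM' : ∀ i, ∀ x ∈ O i, 1 ≤ M' i x)
    {C' : ℕ} (h : ∀ i, ∀ x ∈ O i, M i x ≤ C' * M' i x ^ C') : MFam O M' w f :=
  fun N => (hf N).changeM hM' h

theorem MFam.changeM_le {M' : ι → E → ℝ} (hf : MFam O M w f)
    (h : ∀ i, ∀ x ∈ O i, M i x ≤ M' i x) : MFam O M' w f := by
  refine hf.changeM (C' := 1) (fun i x hx => (hf.one_le i hx).trans (h i x hx)) fun i x hx => ?_
  simpa using h i x hx

theorem MFam.restrict {O' : ι → Set E} (hf : MFam O M w f) (hO' : ∀ i, IsOpen (O' i))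
    (h : ∀ i, O' i ⊆ O i) : MFam O' M w f := by
  intro N
  obtain ⟨C, hC⟩ := (hf N).bound
  exact ⟨⟨hO', fun i x hx => hf.one_le i (h i hx)⟩, fun i x hx => hf.nonneg i (h i hx),
    fun i => (hf.smooth i).mono (h i), C, fun n hn i x hx => hC n hn i x (h i hx)⟩

theorem MFam.reindex {κ : Type*} (φ : κ → ι) (hf : MFam O M w f) :
    MFam (fun k => O (φ k)) (fun k => M (φ k)) (fun k => w (φ k)) (fun k => f (φ k)) := by
  intro N
  obtain ⟨C, hC⟩ := (hf N).bound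
  exact ⟨⟨fun k => hf.isOpen _, fun k x hx => hf.one_le _ hx⟩, fun k x hx => hf.nonneg _ hx,
    fun k => hf.smooth _, C, fun n hn k x hx => hC n hn _ x hx⟩

/-- glueing: a function which near every point coincides with a member of a family -/
theorem Mod.of_family {O' : Set E} {M' w' : E → ℝ} {S : E → F} (hf : MFam O M w f)
    (hO' : IsOpen O') (hM' : ∀ x ∈ O', 1 ≤ M' x) (hw' : ∀ x ∈ O', 0 ≤ w' x) (C' : ℕ)
    (h : ∀ x ∈ O', ∃ i, x ∈ O i ∧ S =ᶠ[𝓝 x] f i ∧ M i x ≤ C' * M' x ^ C' ∧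
      w i x ≤ C' * M' x ^ C' * w' x) : Mod O' M' w' S := by
  refine Mod.mk hO' hM' hw' (fun x hx => ?_) fun n => ?_
  · obtain ⟨i, hi, hS, -, -⟩ := h x hx
    exact ((hf.contDiffAt i hi).congr_of_eventuallyEq hS).contDiffWithinAt
  · obtain ⟨C, hC⟩ := hf.bound n
    refine ⟨C * C' ^ C * C' + C' * C + C', fun x hx => ?_⟩
    obtain ⟨i, hi, hS, h1, h2⟩ := h x hx
    rw [(hS.iteratedFDeriv ℝ n).self_of_nhds]
    refine (hC i x hi).trans ?_
    have hM := hf.one_le i hi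
    have hM0 : 0 ≤ M i x := by linarith
    have hM'1 := hM' x hx
    have hM'0 : 0 ≤ M' x := by linarith
    have hw := hf.nonneg i hi
    have hw'0 := hw' x hx
    calc (C:ℝ) * M i x ^ C * w i x
        ≤ C * (C' * M' x ^ C') ^ C * (C' * M' x ^ C' * w' x) := by gcongr
      _ = ((C * C' ^ C * C' : ℕ) : ℝ) * M' x ^ (C' * C + C') * w' x := by
          push_cast
          rw [mul_pow, ← pow_mul]
          ring
      _ ≤ _ := by
          refine tb_le ?_ (by omega) hM'1 hw'0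
          exact_mod_cast (show C * C' ^ C * C' ≤ C * C' ^ C * C' + C' * C + C' by omega)

/-! ### sums -/

theorem FamN.add {f' : ι → E → F} (hf : FamN N O M w f) (hg : FamN N O M w f') :
    FamN N O M w (fun i x => f i x + f' i x) := by
  obtain ⟨C, hC⟩ := hf.bound
  obtain ⟨C', hC'⟩ := hg.bound
  refine ⟨hf.dom, hf.nonneg, fun i => (hf.smooth i).add (hg.smooth i), C + C',
    fun n hn i x hx => ?_⟩
  have h1 : ContDiffAt ℝ n (f i) x :=
    ((hf.smooth i).contDiffAt ((hf.dom.isOpen i).mem_nhds hx)).of_le (by exact_mod_cast le_top)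
  have h2 : ContDiffAt ℝ n (f' i) x :=
    ((hg.smooth i).contDiffAt ((hf.dom.isOpen i).mem_nhds hx)).of_le (by exact_mod_cast le_top)
  rw [fun_iteratedFDeriv_add_apply h1 h2]
  refine (norm_add_le _ _).trans ((add_le_add (hC n hn i x hx) (hC' n hn i x hx)).trans ?_)
  have hM := hf.dom.one_le i x hx
  have hM0 : 0 ≤ M i x := by linarith
  have hw := hf.nonneg i x hx
  have e1 : M i x ^ C ≤ M i x ^ (C + C') := pow_le_pow_right₀ hM (by omega)
  have e2 : M i x ^ C' ≤ M i x ^ (C + C') := pow_le_pow_right₀ hM (by omega)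
  calc (C:ℝ) * M i x ^ C * w i x + C' * M i x ^ C' * w i x
      ≤ C * M i x ^ (C + C') * w i x + C' * M i x ^ (C + C') * w i x := by gcongr
    _ = _ := by push_cast; ring

theorem MFam.add {f' : ι → E → F} (hf : MFam O M w f) (hg : MFam O M w f') :
    MFam O M w (fun i x => f i x + f' i x) := fun N => (hf N).add (hg N)

/-! ### linear maps and bilinear maps -/

theorem FamN.clm (L : F →L[ℝ] G) (hf : FamN N O M w f) : FamN N O M w (fun i x => L (f i x)) := by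
  obtain ⟨C, hC⟩ := hf.bound
  refine ⟨hf.dom, hf.nonneg, fun i => L.contDiff.comp_contDiffOn (hf.smooth i),
    ⌈‖L‖⌉₊ * C + C, fun n hn i x hx => ?_⟩
  have h1 : ContDiffAt ℝ n (f i) x :=
    ((hf.smooth i).contDiffAt ((hf.dom.isOpen i).mem_nhds hx)).of_le (by exact_mod_cast le_top)
  have h2 := L.iteratedFDeriv_comp_left h1 le_rfl
  have h3 : (fun x => L (f i x)) = L ∘ f i := rfl
  rw [h3, h2]
  refine (L.norm_compContinuousMultilinearMap_le _).trans ?_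
  have hM := hf.dom.one_le i x hx
  have hw := hf.nonneg i x hx
  calc ‖L‖ * ‖iteratedFDeriv ℝ n (f i) x‖ ≤ ⌈‖L‖⌉₊ * (C * M i x ^ C * w i x) := by
        refine mul_le_mul (Nat.le_ceil _) (hC n hn i x hx) (norm_nonneg _) (by positivity)
    _ = ((⌈‖L‖⌉₊ * C : ℕ) : ℝ) * M i x ^ C * w i x := by push_cast; ring
    _ ≤ _ := by
        refine tb_le ?_ (by omega) hM hw
        exact_mod_cast (show ⌈‖L‖⌉₊ * C ≤ ⌈‖L‖⌉₊ * C + C by omega)

theorem MFam.clm (L : F →L[ℝ] G) (hf : MFam O M w f) : MFam O M w (fun i x => L (f i x)) :=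
  fun N => (hf N).clm L

theorem MFam.neg (hf : MFam O M w f) : MFam O M w (fun i x => -f i x) :=
  hf.clm (-ContinuousLinearMap.id ℝ F)

theorem MFam.const_smul (c : ℝ) (hf : MFam O M w f) : MFam O M w (fun i x => c • f i x) :=
  hf.clm (c • ContinuousLinearMap.id ℝ F)

theorem MFam.sub {f' : ι → E → F} (hf : MFam O M w f) (hg : MFam O M w f') :
    MFam O M w (fun i x => f i x - f' i x) :=
  (hf.add hg.neg).congr fun i x _ => sub_eq_add_neg _ _

theorem FamN.bilin (B : F →L[ℝ] G →L[ℝ] H) (hf : FamN N O M w f) (hg : FamN N O M v g) :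
    FamN N O M (fun i x => w i x * v i x) (fun i x => B (f i x) (g i x)) := by
  obtain ⟨C, hC⟩ := hf.bound
  obtain ⟨C', hC'⟩ := hg.bound
  refine ⟨hf.dom, fun i x hx => mul_nonneg (hf.nonneg i x hx) (hg.nonneg i x hx),
    fun i => B.isBoundedBilinearMap.contDiff.comp_contDiffOn ((hf.smooth i).prodMk (hg.smooth i)),
    ⌈‖B‖⌉₊ * (2 ^ N * (C * C')) + C + C', fun n hn i x hx => ?_⟩
  have hO := hf.dom.isOpen i
  have h1 := B.norm_iteratedFDerivWithin_le_of_bilinear (hf.smooth i) (hg.smooth i)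
    hO.uniqueDiffOn hx (n := n) (by exact_mod_cast le_top)
  rw [iteratedFDerivWithin_of_isOpen n hO hx] at h1
  refine h1.trans ?_
  have hM := hf.dom.one_le i x hx
  have hM0 : 0 ≤ M i x := by linarith
  have hw := hf.nonneg i x hx
  have hv := hg.nonneg i x hx
  have h2 : ∑ j ∈ Finset.range (n + 1), (n.choose j : ℝ) *
      ‖iteratedFDerivWithin ℝ j (f i) (O i) x‖ * ‖iteratedFDerivWithin ℝ (n - j) (g i) (O i) x‖ ≤
      ∑ j ∈ Finset.range (n + 1), (n.choose j : ℝ) *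
        (C * M i x ^ C * w i x) * (C' * M i x ^ C' * v i x) := by
    refine Finset.sum_le_sum fun j hj => ?_
    have hj' : j ≤ n := by have := Finset.mem_range.1 hj; omega
    rw [iteratedFDerivWithin_of_isOpen j hO hx, iteratedFDerivWithin_of_isOpen (n - j) hO hx]
    have e1 := hC j (hj'.trans hn) i x hx
    have e2 := hC' (n - j) ((Nat.sub_le _ _).trans hn) i x hx
    gcongr
  have h3 : ∑ j ∈ Finset.range (n + 1), (n.choose j : ℝ) *
        (C * M i x ^ C * w i x) * (C' * M i x ^ C' * v i x) =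
      2 ^ n * ((C * M i x ^ C * w i x) * (C' * M i x ^ C' * v i x)) := by
    have h4 : ∑ j ∈ Finset.range (n + 1), (n.choose j : ℝ) = 2 ^ n := by
      exact_mod_cast Nat.sum_range_choose n
    rw [← h4, Finset.sum_mul]
    refine Finset.sum_congr rfl fun j _ => by ring
  have hwv : 0 ≤ w i x * v i x := mul_nonneg hw hv
  have h5 : (2:ℝ) ^ n ≤ 2 ^ N := pow_le_pow_right₀ (by norm_num) hn
  have t1 := tb_nonneg (C := C) hM hw
  have t2 := tb_nonneg (C := C') hM hv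
  calc ‖B‖ * ∑ j ∈ Finset.range (n + 1), (n.choose j : ℝ) *
        ‖iteratedFDerivWithin ℝ j (f i) (O i) x‖ * ‖iteratedFDerivWithin ℝ (n - j) (g i) (O i) x‖
      ≤ ⌈‖B‖⌉₊ * (2 ^ N * ((C * M i x ^ C * w i x) * (C' * M i x ^ C' * v i x))) := by
        refine mul_le_mul (Nat.le_ceil _) ?_ (by positivity) (by positivity)
        refine (h2.trans_eq h3).trans ?_
        gcongr
    _ = ((⌈‖B‖⌉₊ * (2 ^ N * (C * C')) : ℕ) : ℝ) * M i x ^ (C + C') * (w i x * v i x) := by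
        push_cast
        ring
    _ ≤ _ := by
        refine tb_le ?_ (by omega) hM hwv
        exact_mod_cast (show ⌈‖B‖⌉₊ * (2 ^ N * (C * C')) ≤
          ⌈‖B‖⌉₊ * (2 ^ N * (C * C')) + C + C' by omega)

theorem MFam.bilin (B : F →L[ℝ] G →L[ℝ] H) (hf : MFam O M w f) (hg : MFam O M v g) :
    MFam O M (fun i x => w i x * v i x) (fun i x => B (f i x) (g i x)) :=
  fun N => (hf N).bilin B (hg N)

end Pool.Agent.BSS
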