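import Pool.Agent.BSS.WMod
import Pool.Agent.BSS.Glob
import Pool.Agent.BSS.LocalPic0

/-!
# The terms `uk (k + 1)`: smooth, tame, and zero off `{-(del / 2) < t} ∩ Box2`
-/

set_option maxSynthPendingDepth 3
set_option autoImplicit false

open Set Filter
open scoped ContDiff Topology

namespace Pool.Agent.BSS

namespace TM

section fam

variable {ι : Type*} {S0 : ι → ℝ} {q : ι → ℕ → (Fin 2 → ℤ) → H}

/-- a family of cut-offs as a family over `ι × ℕ` -/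
theorem cut_fam (hS : ∀ i, 1 ≤ S0 i) {a : ℕ → X3 → ℝ}
    (ha : MFam (fun _ : ℕ => (univ : Set X3)) (Mcut X3) (fun _ _ => 1) a) :
    MFam (ι := ι × ℕ) (fun p => WM.BW (p.2 + 1)) (fun p _ => QQ (S0 p.1) (p.2 + 1))
      (fun _ _ => 1) (fun p => a (p.2 + 1)) := by
  have h1 := ha.reindex (fun p : ι × ℕ => p.2 + 1)
  have h2 := h1.changeM_le (M' := fun p _ => QQ (S0 p.1) (p.2 + 1))
    (fun p x _ => LM.inv_rho_le_QQ (hS _) (by omega))
  exact h2.restrict (O' := fun p => WM.BW (p.2 + 1)) (fun p => WM.isOpen_BW _)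
    fun p => subset_univ _

/-- the terms `uk (k + 1)` as a tame family with the weight `mk (k + 1)` -/
theorem mfam_uk (hS : ∀ i, 1 ≤ S0 i) (hq : ∀ i k m, ‖q i k m‖ ≤ 2) :
    MFam (ι := ι × ℕ) (fun p => WM.BW (p.2 + 1)) (fun p _ => QQ (S0 p.1) (p.2 + 1))
      (fun p x => mk (S0 p.1) (p.2 + 1) x) (fun p => uk (S0 p.1) (q p.1) (p.2 + 1)) := by
  have hc := ((cut_fam hS MFam_psi3).mul_one_one (cut_fam hS MFam_chi)).mul_one_one
    (cut_fam hS MFam_Theta)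
  exact (hc.smul_one (WM.mfam_Wsucc hS hq)).congr fun _ _ _ => rfl

end fam

/-- the region off which the term of level `k` vanishes -/
def SR (k : ℕ) : Set X3 := {x | -(del k / 2) < x 2 ∧ x ∈ Box2}

theorem BW_of_SR {k : ℕ} {x : X3} (hx : x ∈ SR k) : x ∈ WM.BW k := by
  obtain ⟨h1, h2, h3, h4, h5, h6, h7⟩ := hx
  have hd := Par.del_pos k
  refine ⟨by linarith, by linarith, ?_⟩
  rw [Fin.forall_fin_two]
  refine ⟨⟨?_, ?_⟩, ⟨?_, ?_⟩⟩
  · show -3 < x 0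
    linarith
  · show x 0 < 4
    linarith
  · show -3 < x 1
    linarith
  · show x 1 < 4
    linarith

variable {S0 : ℝ} {q : ℕ → (Fin 2 → ℤ) → H}

theorem uk_succ_of_notMem (k : ℕ) {x : X3} (h : x ∉ Box2) : uk S0 q (k + 1) x = 0 := by
  show (psi (k + 1) (x 2) * chi (k + 1) x * Theta x) • Wk S0 q (k + 1) x = 0
  rw [Theta_eq_zero h]
  simp

theorem uk_near_zero_of_notMem (k : ℕ) {x : X3} (h : x ∉ Box2) :
    ∀ᶠ y in 𝓝 x, uk S0 q (k + 1) y = 0 := by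
  filter_upwards [LP.isClosed_Box2.isOpen_compl.mem_nhds h] with y hy
  exact uk_succ_of_notMem k hy

theorem uk_near_zero_of_lt (k : ℕ) {x : X3} (h : x 2 < -(del (k + 1) / 2)) :
    ∀ᶠ y in 𝓝 x, uk S0 q (k + 1) y = 0 := by
  filter_upwards [psi_eventually_zero h] with y hy
  show (psi (k + 1) (y 2) * chi (k + 1) y * Theta y) • Wk S0 q (k + 1) y = 0
  rw [hy]
  simp

theorem contDiff_uk (k : ℕ) : ContDiff ℝ ∞ (uk S0 q (k + 1)) := by
  rw [contDiff_iff_contDiffAt]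
  intro x
  by_cases h1 : x 2 < -(del (k + 1) / 2)
  · have h2 : uk S0 q (k + 1) =ᶠ[𝓝 x] fun _ => (0 : H) := uk_near_zero_of_lt k h1
    exact contDiffAt_const.congr_of_eventuallyEq h2
  · have hd := Par.del_pos (k + 1)
    exact (((contDiff_psi3 (k + 1)).mul (contDiff_chi (k + 1))).mul contDiff_Theta).contDiffAt.smul
      (Wk_contDiffAt S0 q (k + 1) (by linarith))

theorem mem_closure_below {c : ℝ} {x : X3} (h : x 2 ≤ c) : x ∈ closure {z : X3 | z 2 < c} := by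
  rw [mem_closure_iff_seq_limit]
  refine ⟨fun m => x - ((1 : ℝ) / ((m : ℝ) + 1)) • ee 2, fun m => ?_, ?_⟩
  · have : (0 : ℝ) < 1 / ((m : ℝ) + 1) := by positivity
    show x 2 - 1 / ((m : ℝ) + 1) * ee 2 2 < c
    have e : ee 2 2 = 1 := by simp [ee]
    rw [e, mul_one]
    linarith
  · have h1 : Tendsto (fun m : ℕ => (1 : ℝ) / ((m : ℝ) + 1)) atTop (𝓝 0) :=
      tendsto_one_div_add_atTop_nhds_zero_nat
    have h2 := (h1.smul_const (ee 2)).const_sub x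
    simpa using h2

/-- all derivatives of the term vanish off `SR` -/
theorem iteratedFDeriv_uk_zero (k n : ℕ) {x : X3} (hx : x ∉ SR (k + 1)) :
    iteratedFDeriv ℝ n (uk S0 q (k + 1)) x = 0 := by
  by_cases h1 : -(del (k + 1) / 2) < x 2
  · have h2 : x ∉ Box2 := fun h => hx ⟨h1, h⟩
    refine iteratedFDeriv_eq_zero_of_closure (contDiff_uk k) (U := Box2ᶜ)
      LP.isClosed_Box2.isOpen_compl (fun y hy => uk_succ_of_notMem k hy) (subset_closure h2) n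
  · refine iteratedFDeriv_eq_zero_of_closure (contDiff_uk k)
      (U := {z : X3 | z 2 < -(del (k + 1) / 2)})
      (isOpen_lt (continuous_apply 2) continuous_const) (fun y hy => ?_)
      (mem_closure_below (not_lt.1 h1)) n
    exact (uk_near_zero_of_lt k hy).self_of_nhds

/-- **(T)**, pointwise form -/
theorem bound_uk (n : ℕ) : ∃ C : ℕ, ∀ (S0 : ℝ) (q : ℕ → (Fin 2 → ℤ) → H), 1 ≤ S0 →
    (∀ k m, ‖q k m‖ ≤ 2) → ∀ k, ∀ x ∈ SR (k + 1),
      ‖iteratedFDeriv ℝ n (uk S0 q (k + 1)) x‖ ≤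
        C * QQ S0 (k + 1) ^ C * mk S0 (k + 1) x := by
  have h := mfam_uk (ι := {p : ℝ × (ℕ → (Fin 2 → ℤ) → H) // 1 ≤ p.1 ∧ ∀ k m, ‖p.2 k m‖ ≤ 2})
    (S0 := fun p => p.1.1) (q := fun p => p.1.2) (fun p => p.2.1) (fun p => p.2.2)
  obtain ⟨C, hC⟩ := h.bound n
  exact ⟨C, fun S0 q hS hq k x hx => hC ⟨⟨(S0, q), hS, hq⟩, k⟩ x (BW_of_SR hx)⟩

theorem termSmooth : TermSmooth := fun _ _ _ k => contDiff_uk k

theorem mk_le_of_SR {S0 : ℝ} (hS : 1 ≤ S0) {k : ℕ} {x : X3} (hx : x ∈ SR (k + 1)) :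
    mk S0 (k + 1) x ≤ 4 * QQ S0 (k + 1) ^ 2 * Real.exp (-(SS S0 (k + 1) / 2)) := by
  refine (mk_succ_le_exp (by linarith) k hx.1.le).trans ?_
  have h1 : (del (k + 1))⁻¹ ≤ QQ S0 (k + 1) := by
    show (rho (k + 1 + 1))⁻¹ ≤ _
    exact LM.inv_rho_le_QQ hS (by omega)
  have h0 : 0 < (del (k + 1))⁻¹ := inv_pos.2 (Par.del_pos _)
  have h2 : 4 / del (k + 1) ^ 2 = 4 * (del (k + 1))⁻¹ ^ 2 := by
    rw [inv_pow, div_eq_mul_inv]
  rw [h2]
  gcongr

theorem termBound : TermBound := by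
  intro n
  obtain ⟨C, hC⟩ := bound_uk n
  refine ⟨4 * C + 2 + C, fun S0 q hS hq k x => ?_⟩
  have hQ := one_le_QQ hS (k + 1)
  have hQ0 : 0 ≤ QQ S0 (k + 1) := by linarith
  by_cases hx : x ∈ SR (k + 1)
  · refine (hC S0 q hS hq k x hx).trans ?_
    calc (C : ℝ) * QQ S0 (k + 1) ^ C * mk S0 (k + 1) x
        ≤ C * QQ S0 (k + 1) ^ C *
          (4 * QQ S0 (k + 1) ^ 2 * Real.exp (-(SS S0 (k + 1) / 2))) := by
          gcongr
          exact mk_le_of_SR hS hx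
      _ = ((4 * C : ℕ) : ℝ) * QQ S0 (k + 1) ^ (C + 2) * Real.exp (-(SS S0 (k + 1) / 2)) := by
          push_cast
          ring
      _ ≤ _ := tb_le (by exact_mod_cast (by omega)) (by omega) hQ (Real.exp_pos _).le
  · rw [iteratedFDeriv_uk_zero k n hx, norm_zero]
    positivity

end TM

end Pool.Agent.BSS
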