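import Pool.Agent.BSS.Terms
import Pool.Agent.BSS.Tail

/-!
# The tail, without hypotheses
-/

set_option maxSynthPendingDepth 3
set_option autoImplicit false

open Set Filter
open scoped ContDiff Topology

namespace Pool.Agent.BSS

namespace TM

theorem term_T : TermT := by
  intro n
  obtain ⟨C, hC⟩ := bound_uk n
  refine ⟨C, fun S0 q hS hq k x hx => ?_⟩
  by_cases hB : x ∈ Box2
  · exact hC S0 q hS hq k x ⟨hx, hB⟩
  · rw [iteratedFDeriv_uk_zero k n (fun h => hB h.2), norm_zero]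
    have h1 := one_le_QQ hS (k + 1)
    have h2 := mk_nonneg S0 (k + 1) x
    positivity

theorem term_zero : TermZero := fun _ _ _ n k _ hx =>
  iteratedFDeriv_uk_zero k n fun h => absurd h.1 (not_lt.2 hx)

/-- the tail after the two relevant scales, as a tame family -/
theorem mfam_Rk {ι : Type*} {S0 : ι → ℝ} {q : ι → ℕ → (Fin 2 → ℤ) → H} (hS : ∀ i, 1 ≤ S0 i)
    (hq : ∀ i k m, ‖q i k m‖ ≤ 2) :
    MFam (ι := ι × ℕ) (fun p => OO p.2) (fun p _ => QQ (S0 p.1) p.2)
      (fun p _ => Real.exp (-SS (S0 p.1) (p.2 + 1)) * ew (S0 p.1) p.2)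
      (fun p => Rk (S0 p.1) (q p.1) p.2) :=
  Tail.mfam_Rk_of term_T term_zero termBound termSmooth hS hq

end TM

end Pool.Agent.BSS
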