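import Pool.Agent.BSS.Wave
import Pool.Agent.BSS.Tame3
import Pool.Agent.BSS.NoCancel2

/-!
# A1b: derivative bounds of the wave (W4)

`D V (x) v = L(x)(v) * V(x) + V(x) * R(x)(v)` with rational `L`, `R`; these are tame, so `V` is tame
with its own modulus as weight (`MFam.of_fderiv_eq`).
-/

open Set Filter Metric
open scoped ContDiff Topology

set_option maxSynthPendingDepth 3

namespace Pool.Agent.BSS

open Wave

/-- left logarithmic derivative in the direction `e_j` -/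
noncomputable def wl (p : WP) (j : Fin 3) (x : X3) : H :=
  (-(p.r2 x)⁻¹) • (hat (ee j) * hat (p.y x) + (3 * p.y x j) • (1 : H))

/-- right logarithmic derivative in the direction `e_j` -/
noncomputable def wR (p : WP) (j : Fin 3) (x : X3) : H :=
  emb (Fc' (1 / p.rho) (p.K / Real.pi) (p.y x) (ee j))

/-- domains of a family of waves -/
structure WDom {ι : Type*} (O : ι → Set X3) (M : ι → X3 → ℝ) (p : ι → WP) : Prop where
  dom : Dom O M
  z_low : ∀ i, ∀ x ∈ O i, (p i).del / 4 ≤ (p i).y x 2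
  del_pos : ∀ i, 0 < (p i).del
  bd : ∀ i, ∀ x ∈ O i, ∀ j, |(p i).y x j| ≤ M i x
  delM : ∀ i, ∀ x ∈ O i, (p i).del⁻¹ ≤ M i x
  rhoM : ∀ i, ∀ x ∈ O i, |1 / (p i).rho| ≤ M i x
  KM : ∀ i, ∀ x ∈ O i, |(p i).K| ≤ M i x

section

variable {ι : Type*} {O : ι → Set X3} {M : ι → X3 → ℝ} {p : ι → WP}

theorem MFam_w1 {F : Type*} [NormedAddCommGroup F] [NormedSpace ℝ F] {w : ι → X3 → ℝ}
    {f : ι → X3 → F} (hf : MFam O M w f) (h : ∀ i x, w i x = 1) :
    MFam O M (fun _ _ => 1) f := by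
  have : w = fun _ _ => 1 := by funext i x; exact h i x
  rwa [this] at hf

theorem MFam_mul1 {A : Type*} [NormedRing A] [NormedAlgebra ℝ A] {a b : ι → X3 → A}
    (ha : MFam O M (fun _ _ => 1) a) (hb : MFam O M (fun _ _ => 1) b) :
    MFam O M (fun _ _ => 1) (fun i x => a i x * b i x) :=
  MFam_w1 (ha.mul hb) (by simp)

theorem MFam_smul1 {F : Type*} [NormedAddCommGroup F] [NormedSpace ℝ F] {a : ι → X3 → ℝ}
    {f : ι → X3 → F} (ha : MFam O M (fun _ _ => 1) a) (hf : MFam O M (fun _ _ => 1) f) :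
    MFam O M (fun _ _ => 1) (fun i x => a i x • f i x) :=
  MFam_w1 (ha.smul hf) (by simp)

theorem MFam_par (hD : Dom O M) (c : ι → ℝ) (h : ∀ i, ∀ x ∈ O i, |c i| ≤ M i x) :
    MFam O M (fun _ _ => 1) (fun i _ => c i) := by
  refine MFam.const hD (fun _ _ _ => zero_le_one) c 1 fun i x hx => ?_
  simpa using h i x hx

theorem WDom.y (h : WDom O M p) (j : Fin 3) :
    MFam O M (fun _ _ => 1) (fun i x => (p i).y x j) := by
  have := MFam.affine h.dom (fun _ => (ContinuousLinearMap.proj j : X3 →L[ℝ] ℝ))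
    (fun i => -(p i).c j) 1 (fun i x hx => ?_) (fun i x hx => ?_)
  · refine this.congr fun i x _ => ?_
    simp [WP.y, sub_eq_add_neg]
  · have h1 : ‖(ContinuousLinearMap.proj j : X3 →L[ℝ] ℝ)‖ ≤ 1 :=
      ContinuousLinearMap.opNorm_le_bound _ zero_le_one fun y => by
        simpa using norm_le_pi_norm y j
    have h2 := h.dom.one_le i x hx
    rw [Nat.cast_one, one_mul, pow_one]
    linarith
  · have h1 := h.bd i x hx j
    have h3 : ‖(ContinuousLinearMap.proj j : X3 →L[ℝ] ℝ) x + -(p i).c j‖ = |(p i).y x j| := by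
      rw [Real.norm_eq_abs]
      congr 1
    rw [h3, Nat.cast_one, one_mul, pow_one]
    exact h1

theorem WDom.r2 (h : WDom O M p) : MFam O M (fun _ _ => 1) (fun i => (p i).r2) := by
  have h0 := h.y 0
  have h1 := h.y 1
  have h2 := h.y 2
  refine (((MFam_mul1 h0 h0).add (MFam_mul1 h1 h1)).add (MFam_mul1 h2 h2)).congr fun i x _ => ?_
  simp only [WP.r2_eq, Wave.r2]; ring

theorem WDom.s (h : WDom O M p) (sg : ℝ) :
    MFam O M (fun _ _ => 1) (fun i x => (p i).y x 0 + sg * (1 / (p i).rho) * (p i).r2 x) := by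
  have hb := MFam_par h.dom (fun i => 1 / (p i).rho) h.rhoM
  refine ((h.y 0).add ((MFam_mul1 hb h.r2).const_smul sg)).congr fun i x _ => ?_
  simp only [smul_eq_mul]; ring

theorem WDom.low (h : WDom O M p) (i : ι) {x : X3} (hx : x ∈ O i) (t : ℝ) (ht : 0 ≤ t) :
    (1:ℝ) ≤ (16:ℕ) * M i x ^ 16 * |(p i).y x 2 ^ 2 + t| := by
  have hM := h.dom.one_le i x hx
  have hM0 : 0 < M i x := by linarith
  have hd := h.del_pos i
  have hz := h.z_low i x hx
  have hdM := h.delM i x hx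
  have h1 : 1 ≤ M i x * (p i).del := by
    have := mul_le_mul_of_nonneg_right hdM hd.le
    rwa [inv_mul_cancel₀ hd.ne'] at this
  have hz2 : 1 ≤ 4 * M i x * (p i).y x 2 := by nlinarith
  have h3 : 1 ≤ (4 * M i x * (p i).y x 2) ^ 2 := one_le_pow₀ hz2
  have h4 : M i x ^ 2 ≤ M i x ^ 16 := pow_le_pow_right₀ hM (by norm_num)
  rw [abs_of_nonneg (by positivity)]
  push_cast
  have h5 : 0 ≤ (p i).y x 2 ^ 2 := by positivity
  nlinarith [mul_le_mul_of_nonneg_right h4 (add_nonneg h5 ht), mul_nonneg (pow_nonneg hM0.le 2) ht]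

theorem WDom.r2inv (h : WDom O M p) :
    MFam O M (fun _ _ => 1) (fun i x => ((p i).r2 x)⁻¹) := by
  refine MFam_w1 (h.r2.inv (fun _ _ _ => one_pos) (C' := 16) fun i x hx => ?_) (by simp)
  have := h.low i hx ((p i).y x 0 ^ 2 + (p i).y x 1 ^ 2) (by positivity)
  have e : (p i).y x 2 ^ 2 + ((p i).y x 0 ^ 2 + (p i).y x 1 ^ 2) = (p i).r2 x := by
    rw [WP.r2_eq, Wave.r2]; ring
  rwa [e] at this

theorem WDom.hat (h : WDom O M p) : MFam O M (fun _ _ => 1) (fun i x => Wave.hat ((p i).y x)) := by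
  have c (v : H) : MFam O M (fun _ _ => 1) (fun _ _ => v) := MFam.const_one h.dom v
  refine (((MFam_smul1 (h.y 0) (c (Wave.hat (ee 0)))).add
    (MFam_smul1 (h.y 1) (c (Wave.hat (ee 1))))).add
    (MFam_smul1 (h.y 2) (c (Wave.hat (ee 2))))).congr fun i x _ => ?_
  ext <;> simp [ee]

theorem WDom.l (h : WDom O M p) (j : Fin 3) : MFam O M (fun _ _ => 1) (fun i => wl (p i) j) := by
  have c (v : H) : MFam O M (fun _ _ => 1) (fun _ _ => v) := MFam.const_one h.dom v
  have h1 := (MFam_mul1 (c (Wave.hat (ee j))) h.hat).add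
    (MFam_smul1 ((h.y j).const_smul 3) (c 1))
  exact MFam_smul1 h.r2inv.neg h1

theorem Wc_inv (s : ℝ) (y : X3) : (Wc s y)⁻¹ =
    (y 2 ^ 2 + (y 0 + s * Wave.r2 y) ^ 2)⁻¹ •
      ((y 2) • (1 : ℂ) + (-(y 0 + s * Wave.r2 y)) • Complex.I) := by
  rw [Complex.inv_def]
  have : Complex.normSq (Wc s y) = y 2 ^ 2 + (y 0 + s * Wave.r2 y) ^ 2 := by
    rw [Complex.normSq_apply]; simp; ring
  rw [this]
  apply Complex.ext <;> simp <;> ring

theorem WDom.Wcinv (h : WDom O M p) (sg : ℝ) :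
    MFam O M (fun _ _ => 1) (fun i x => (Wc (sg * (1 / (p i).rho)) ((p i).y x))⁻¹) := by
  have c (v : ℂ) : MFam O M (fun _ _ => 1) (fun _ _ => v) := MFam.const_one h.dom v
  have hs := h.s sg
  have hN := (MFam_mul1 (h.y 2) (h.y 2)).add (MFam_mul1 hs hs)
  have hNi := MFam_w1 (hN.inv (fun _ _ _ => one_pos) (C' := 16) fun i x hx => by
    have := h.low i hx (((p i).y x 0 + sg * (1 / (p i).rho) * (p i).r2 x) ^ 2) (by positivity)
    rwa [sq, sq] at this) (by simp)
  refine (MFam_smul1 hNi ((MFam_smul1 (h.y 2) (c 1)).add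
    (MFam_smul1 hs.neg (c Complex.I)))).congr fun i x _ => ?_
  rw [Wc_inv]
  simp only [← WP.r2_eq, sq]

theorem WDom.Wc' (h : WDom O M p) (sg : ℝ) (j : Fin 3) :
    MFam O M (fun _ _ => 1) (fun i x => Wc' (sg * (1 / (p i).rho)) ((p i).y x) (ee j)) := by
  have hb := MFam_par h.dom (fun i => 1 / (p i).rho) h.rhoM
  have c (v : ℂ) : MFam O M (fun _ _ => 1) (fun _ _ => v) := MFam.const_one h.dom v
  refine ((c (Wave.Wc' 0 0 (ee j))).add
    ((MFam_smul1 ((MFam_mul1 hb (h.y j)).const_smul (2 * sg)) (c Complex.I)))).congr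
    fun i x _ => ?_
  apply Complex.ext
  · fin_cases j <;> simp [ee]
  · fin_cases j <;> simp [ee] <;> ring

theorem WDom.R (h : WDom O M p) (j : Fin 3) : MFam O M (fun _ _ => 1) (fun i => wR (p i) j) := by
  have hl := MFam_par h.dom (fun i => (p i).K) h.KM
  have c (v : ℂ) : MFam O M (fun _ _ => 1) (fun _ _ => v) := MFam.const_one h.dom v
  have t (sg : ℝ) := MFam_mul1 (h.Wcinv sg) (h.Wc' sg j)
  have hc := MFam_smul1 hl ((MFam_mul1 (c (-(Complex.I * (Real.pi⁻¹ : ℝ)))) ((t (-1)).sub (t 1))))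
  refine (hc.clm emb).congr fun i x _ => ?_
  rw [wR]
  congr 1
  rw [Wave.Fc']
  simp only [smul_apply, sub_apply, smul_eq_mul, neg_mul, one_mul]
  rw [Complex.real_smul]
  push_cast
  ring

/-- `g x v q = Σ_j v_j (l_j q + q R_j)` -/
noncomputable def wg (p : WP) (x : X3) : X3 →L[ℝ] (H →L[ℝ] H) :=
  ∑ j : Fin 3, (ContinuousLinearMap.proj j : X3 →L[ℝ] ℝ).smulRight
    (ContinuousLinearMap.mul ℝ H (wl p j x) + (ContinuousLinearMap.mul ℝ H).flip (wR p j x))

theorem wg_apply (p : WP) (x v : X3) (y : H) :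
    wg p x v y = ∑ j : Fin 3, v j • (wl p j x * y + y * wR p j x) := by
  simp only [wg, Fin.sum_univ_three]
  rfl

theorem WDom.g (h : WDom O M p) : MFam O M (fun _ _ => 1) (fun i => wg (p i)) := by
  have t (j : Fin 3) : MFam O M (fun _ _ => 1) (fun i x =>
      (ContinuousLinearMap.proj j : X3 →L[ℝ] ℝ).smulRight
        (ContinuousLinearMap.mul ℝ H (wl (p i) j x)
          + (ContinuousLinearMap.mul ℝ H).flip (wR (p i) j x))) := by
    have h1 := ((h.l j).clm (ContinuousLinearMap.mul ℝ H)).add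
      ((h.R j).clm (ContinuousLinearMap.mul ℝ H).flip)
    exact MFam.clm (F := H →L[ℝ] H) (G := X3 →L[ℝ] (H →L[ℝ] H))
      (ContinuousLinearMap.smulRightL ℝ X3 (H →L[ℝ] H)
        (ContinuousLinearMap.proj j : X3 →L[ℝ] ℝ)) h1
  refine (((t 0).add (t 1)).add (t 2)).congr fun i x _ => ?_
  simp only [wg, Fin.sum_univ_three]

/-- the derivative of the wave through the logarithmic derivatives -/
theorem fderiv_wave {w : WP} {x : X3} (hz : 0 < x 2 + w.del) (v : X3) :
    fderiv ℝ (wave w) x v = wg w x v (wave w x) := by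
  obtain ⟨V', hV, hv⟩ := hasFDerivAt_wave hz
  rw [hV.fderiv, hv, wg_apply, Fin.sum_univ_three]
  have ev : v = v 0 • ee 0 + v 1 • ee 1 + v 2 • ee 2 := by
    ext j; fin_cases j <;> simp [ee]
  have eh : Wave.hat v = v 0 • Wave.hat (ee 0) + v 1 • Wave.hat (ee 1)
      + v 2 • Wave.hat (ee 2) := by
    conv_lhs => rw [ev]
    simp only [map_add, map_smul]
  have eF : Wave.emb (Wave.Fc' (1 / w.rho) (w.K / Real.pi) (w.y x) v)
      = v 0 • wR w 0 x + v 1 • wR w 1 x + v 2 • wR w 2 x := by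
    conv_lhs => rw [ev]
    simp only [map_add, map_smul, wR]
  rw [eh, eF]
  simp only [wl, add_mul, mul_add, smul_mul_assoc, mul_smul_comm, one_mul, smul_add, neg_smul,
    neg_mul, smul_neg, smul_smul]
  rw [mul_assoc (Wave.hat (ee 0)), mul_assoc (Wave.hat (ee 1)), mul_assoc (Wave.hat (ee 2))]
  generalize Wave.hat (ee 0) * (Wave.hat (w.y x) * wave w x) = a
  generalize Wave.hat (ee 1) * (Wave.hat (w.y x) * wave w x) = b
  generalize Wave.hat (ee 2) * (Wave.hat (w.y x) * wave w x) = c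
  module

/-- **Derivative bounds (W4)**, general form. -/
theorem WDom.tame (h : WDom O M p) :
    MFam O M (fun i x => ‖wave (p i) x‖) (fun i => wave (p i)) := by
  have hz : ∀ i, ∀ x ∈ O i, 0 < x 2 + (p i).del := by
    intro i x hx
    have h1 := h.z_low i x hx
    have h2 := h.del_pos i
    rw [WP.y_two] at h1
    linarith
  refine MFam.of_fderiv_eq
    (((ContinuousLinearMap.flipₗᵢ ℝ X3 H H).toContinuousLinearEquiv :
      (X3 →L[ℝ] H →L[ℝ] H) →L[ℝ] (H →L[ℝ] X3 →L[ℝ] H)).flip) h.dom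
    (fun _ _ _ => norm_nonneg _) (fun i x hx => (wave_contDiffAt (hz i x hx)).contDiffWithinAt)
    (C' := 1) (fun i x hx => ?_) h.g (fun i x hx => ?_)
  · have h1 := h.dom.one_le i x hx
    have h2 := norm_nonneg (wave (p i) x)
    rw [Nat.cast_one, one_mul, pow_one]
    nlinarith
  · ext1 v
    exact fderiv_wave (hz i x hx) v

end

/-! ### All waves -/

/-- admissible wave parameters -/
def WP.Good (w : WP) : Prop := 0 < w.del ∧ 0 < w.rho ∧ 0 ≤ w.K

/-- the tame quantity of a wave -/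
noncomputable def WP.M (w : WP) (x : X3) : ℝ :=
  (1 + w.K) * (1 + 1 / w.rho) * (1 + 1 / w.del) * (1 + |w.y x 0| + |w.y x 1| + |w.y x 2|)

/-- the tame quantity of a wave without the space factor -/
noncomputable def WP.M0 (w : WP) : ℝ := (1 + w.K) * (1 + 1 / w.rho) * (1 + 1 / w.del)

theorem WP.M_aux {a b c d : ℝ} (ha : 1 ≤ a) (hb : 1 ≤ b) (hc : 1 ≤ c) (hd : 1 ≤ d) :
    a ≤ a * b * c * d ∧ b ≤ a * b * c * d ∧ c ≤ a * b * c * d ∧ d ≤ a * b * c * d ∧
      1 ≤ a * b * c * d := by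
  have ab : 1 ≤ a * b := one_le_mul_of_one_le_of_one_le ha hb
  have abc : 1 ≤ a * b * c := one_le_mul_of_one_le_of_one_le ab hc
  have abcd : 1 ≤ a * b * c * d := one_le_mul_of_one_le_of_one_le abc hd
  have h1 : a ≤ a * b := le_mul_of_one_le_right (by linarith) hb
  have h2 : b ≤ a * b := le_mul_of_one_le_left (by linarith) ha
  have h3 : a * b ≤ a * b * c := le_mul_of_one_le_right (by linarith) hc
  have h4 : c ≤ a * b * c := le_mul_of_one_le_left (by linarith) ab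
  have h5 : a * b * c ≤ a * b * c * d := le_mul_of_one_le_right (by linarith) hd
  have h6 : d ≤ a * b * c * d := le_mul_of_one_le_left (by linarith) abc
  refine ⟨by linarith, by linarith, by linarith, h6, abcd⟩

theorem wave_wdom : WDom (ι := {w : WP // w.Good}) (fun w => {x | w.1.del / 4 < x 2 + w.1.del})
    (fun w x => w.1.M x) (fun w => w.1) := by
  have key : ∀ (w : WP), w.Good → ∀ x : X3, (1 + w.K) ≤ w.M x ∧ (1 + 1 / w.rho) ≤ w.M x ∧
      (1 + 1 / w.del) ≤ w.M x ∧ (1 + |w.y x 0| + |w.y x 1| + |w.y x 2|) ≤ w.M x ∧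
      1 ≤ w.M x := by
    intro w hw x
    obtain ⟨h1, h2, h3⟩ := hw
    have a1 : 0 ≤ 1 / w.rho := by positivity
    have a2 : 0 ≤ 1 / w.del := by positivity
    have a3 := abs_nonneg (w.y x 0)
    have a4 := abs_nonneg (w.y x 1)
    have a5 := abs_nonneg (w.y x 2)
    exact WP.M_aux (by linarith) (by linarith) (by linarith) (by linarith)
  constructor
  · refine ⟨fun w => ?_, fun w x _ => (key w.1 w.2 x).2.2.2.2⟩
    exact isOpen_lt continuous_const (by fun_prop)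
  · intro w x hx
    rw [WP.y_two]
    exact le_of_lt hx
  · exact fun w => w.2.1
  · intro w x _ j
    have := (key w.1 w.2 x).2.2.2.1
    have a3 := abs_nonneg (w.1.y x 0)
    have a4 := abs_nonneg (w.1.y x 1)
    have a5 := abs_nonneg (w.1.y x 2)
    fin_cases j
    · change |w.1.y x 0| ≤ _
      linarith
    · change |w.1.y x 1| ≤ _
      linarith
    · change |w.1.y x 2| ≤ _
      linarith
  · intro w x _
    have := (key w.1 w.2 x).2.2.1
    rw [← one_div]
    linarith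
  · intro w x _
    have := (key w.1 w.2 x).2.1
    have h2 := w.2.2.1
    rw [abs_of_nonneg (by positivity)]
    linarith
  · intro w x _
    have := (key w.1 w.2 x).1
    rw [abs_of_nonneg w.2.2.2]
    linarith

/-- **(W4)** for all waves. -/
theorem wave_mfam : MFam (ι := {w : WP // w.Good}) (fun w => {x | w.1.del / 4 < x 2 + w.1.del})
    (fun w x => w.1.M x) (fun w x => ‖wave w.1 x‖) (fun w => wave w.1) :=
  wave_wdom.tame

/-- (W4), pointwise form. -/
theorem wave_bound (n : ℕ) : ∃ C : ℕ, ∀ w : WP, w.Good → ∀ x : X3,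
    w.del / 4 < x 2 + w.del →
      ‖iteratedFDeriv ℝ n (wave w) x‖ ≤ C * w.M x ^ C * ‖wave w x‖ := by
  obtain ⟨C, hC⟩ := wave_mfam.bound n
  exact ⟨C, fun w hw x hx => hC ⟨w, hw⟩ x hx⟩

theorem WP.M_le {w : WP} (hw : w.Good) {x : X3} {B : ℝ} (hx : ∀ j, |w.y x j| ≤ B) :
    w.M x ≤ w.M0 * (1 + 3 * B) := by
  obtain ⟨h1, h2, h3⟩ := hw
  have a1 : 0 ≤ 1 / w.rho := by positivity
  have a2 : 0 ≤ 1 / w.del := by positivity
  have h0 : 0 ≤ w.M0 := by unfold WP.M0; positivity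
  have e : w.M x = w.M0 * (1 + |w.y x 0| + |w.y x 1| + |w.y x 2|) := rfl
  rw [e]
  have b0 := hx 0
  have b1 := hx 1
  have b2 := hx 2
  exact mul_le_mul_of_nonneg_left (by linarith) h0

/-- (W4) for `n = 1` on a box: `‖D V‖ ≤ Q ‖V‖` with `Q` a power of the parameters. -/
theorem wave_fderiv_bound : ∃ C : ℕ, 1 ≤ C ∧ ∀ w : WP, w.Good → ∀ x : X3,
    w.del / 4 < x 2 + w.del → (∀ j, |w.y x j| ≤ 20) →
      ‖fderiv ℝ (wave w) x‖ ≤ C * w.M0 ^ C * ‖wave w x‖ := by
  obtain ⟨C, hC⟩ := wave_bound 1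
  refine ⟨C * 61 ^ C + C + 1, by omega, fun w hw x hx hb => ?_⟩
  have h1 := hC w hw x hx
  rw [norm_iteratedFDeriv_one] at h1
  refine h1.trans ?_
  have hM0 : 1 ≤ w.M0 := by
    obtain ⟨h1, h2, h3⟩ := hw
    have a1 : 0 ≤ 1 / w.rho := by positivity
    have a2 : 0 ≤ 1 / w.del := by positivity
    have := (WP.M_aux (a := 1 + w.K) (b := 1 + 1 / w.rho) (c := 1 + 1 / w.del) (d := 1)
      (by linarith) (by linarith) (by linarith) le_rfl).2.2.2.2
    simpa [WP.M0] using this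
  have hM1 : 0 ≤ w.M x := by
    have := (wave_wdom.dom).one_le ⟨w, hw⟩ x hx
    simp only at this
    linarith
  have h2 : w.M x ≤ 61 * w.M0 := by
    have := WP.M_le hw hb
    linarith
  calc (C:ℝ) * w.M x ^ C * ‖wave w x‖ ≤ C * (61 * w.M0) ^ C * ‖wave w x‖ := by gcongr
    _ = ((C * 61 ^ C : ℕ) : ℝ) * w.M0 ^ C * ‖wave w x‖ := by push_cast; ring
    _ ≤ _ := tb_le (by exact_mod_cast (by omega)) (by omega) hM0 (norm_nonneg _)

/-- log-Lipschitz bound on convex pieces. -/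
theorem wave_log_lip : ∃ C : ℕ, 1 ≤ C ∧ ∀ w : WP, w.Good → ∀ s : Set X3, Convex ℝ s →
    (∀ x ∈ s, w.del / 4 < x 2 + w.del ∧ ∀ j, |w.y x j| ≤ 20) → ∀ x ∈ s, ∀ y ∈ s,
      ‖wave w x - wave w y‖ ≤ (Real.exp (C * w.M0 ^ C * ‖x - y‖) - 1) * ‖wave w y‖ := by
  obtain ⟨C, hC1, hC⟩ := wave_fderiv_bound
  refine ⟨C, hC1, fun w hw s hs hsub x hx y hy => ?_⟩
  refine log_lip hs (fun z hz => ?_) (fun z hz => ?_) hx hy
  · have := (hsub z hz).1
    have h2 := hw.1
    exact (wave_contDiffAt (by linarith)).differentiableAt (by simp)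
  · exact hC w hw z (hsub z hz).1 (hsub z hz).2

end Pool.Agent.BSS
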